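import Pool.Agent.P.MP_28369d_gt.ST.BaseCent

namespace Pool.Agent.P.MP_28369d_gt.SB

open Set Filter Topology
open scoped RealInnerProductSpace

/-- `M` successive pairs (positive term, negative term) among the indices `lo ≤ r < hi`. -/
def AltL (lo hi : ℤ) (h : ℤ → ℝ) (M : ℕ) : Prop :=
  ∃ a b : ℕ → ℤ, (∀ k < M, lo ≤ a k ∧ a k < b k ∧ b k < hi ∧ 0 < h (a k) ∧ h (b k) < 0) ∧
    ∀ k, k + 1 < M → b k < a (k + 1)

/-- A level of `H` strictly separates the strands over `[s, t]` into two nonempty groups. -/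
def SepH {ι : Type} (A : Finset ι) (H : ι → ℤ → ℝ) (s t : ℤ) : Prop :=
  ∃ (c : ℝ) (B : Finset ι), B ⊆ A ∧ B.Nonempty ∧ B ≠ A ∧
    ∀ a ∈ A, ∀ r, s ≤ r → r ≤ t → (a ∈ B → c < H a r) ∧ (a ∉ B → H a r < c)

/-- No plane strictly separates the vertices of the strands over `[s, t]`. -/
def FullC {ι : Type} (A : Finset ι) (x : ι → ℤ → E) (s t : ℤ) : Prop :=
  ∀ w : E, ¬ SepH A (fun a r => ⟪x a r, w⟫) s t

def S_KEYC : Prop := ∀ n K : ℕ, ∃ M : ℕ, ∀ (ι : Type) (A : Finset ι) (x : ι → ℤ → E) (u : E)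
  (f : ℕ → ℤ) (Z : Finset E), A.Nonempty → A.card ≤ K → (∀ j < M, f j < f (j + 1)) →
  (∀ a ∈ A, ∀ r, f 0 ≤ r → r < f M → 0 < ⟪x a (r + 1) - x a r, u⟫) →
  (∀ j < M, FullC A x (f j) (f (j + 1))) →
  (∀ w : E, ∀ a ∈ A, ¬ AltL (f 0) (f M) (fun r => ⟪x a (r + 1) - x a r, w⟫) (n + 1)) →
  (∀ v : E, v ≠ 0 → ∀ j < M, ∃ a ∈ A, ∃ r, f j ≤ r ∧ r < f (j + 1) ∧ ⟪x a (r + 1) - x a r, v⟫ ≠ 0) →
  (∀ z ∈ Z, ⟪z, u⟫ ≠ 0) →
  ∃ (w : E) (s t : ℤ), f 0 ≤ s ∧ s < t ∧ t ≤ f M ∧ (∀ z ∈ Z, ⟪z, w⟫ ≠ 0) ∧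
    (∀ a ∈ A, 0 < ⟪x a (s + 1) - x a s, w⟫ ∧ 0 < ⟪x a t - x a (t - 1), w⟫ ∧
      ∃ r, s < r ∧ r + 1 < t ∧ ⟪x a (r + 1) - x a r, w⟫ < 0) ∧
    ∀ a ∈ A, ∀ a' ∈ A, ⟪x a s, w⟫ < ⟪x a' t, w⟫

theorem keyc_enum (S : Finset ℕ) (N : ℕ) (h : N ≤ S.card) :
    ∃ g : ℕ → ℕ, (∀ i < N, g i ∈ S) ∧ ∀ i j, i < j → j < N → g i < g j := by
  refine ⟨fun i => if hi : i < S.card then S.orderEmbOfFin rfl ⟨i, hi⟩ else 0, ?_, ?_⟩
  · intro i hi
    simp only [dif_pos (lt_of_lt_of_le hi h)]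
    exact Finset.orderEmbOfFin_mem _ _ _
  · intro i j hij hj
    simp only [dif_pos (lt_of_lt_of_le hj h), dif_pos (lt_of_lt_of_le (hij.trans hj) h)]
    exact (S.orderEmbOfFin rfl).strictMono (by simpa using hij)

theorem keyc_mono {f : ℕ → ℤ} {M : ℕ} (hf : ∀ j < M, f j < f (j + 1)) {i j : ℕ} (hij : i ≤ j)
    (hj : j ≤ M) : f i ≤ f j := by
  induction j, hij using Nat.le_induction with
  | base => exact le_rfl
  | succ j _ ih => exact (ih (by omega)).trans (hf j (by omega)).le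

theorem keyc_smono {f : ℕ → ℤ} {M : ℕ} (hf : ∀ j < M, f j < f (j + 1)) {i j : ℕ} (hij : i < j)
    (hj : j ≤ M) : f i < f j :=
  (hf i (by omega)).trans_le (keyc_mono hf hij hj)

/-- both signs occur among the indices `s ≤ r < t` -/
def Both (h : ℤ → ℝ) (s t : ℤ) : Prop :=
  (∃ r, s ≤ r ∧ r < t ∧ 0 < h r) ∧ ∃ r, s ≤ r ∧ r < t ∧ h r < 0

open Classical in
theorem keyc_L1 {lo hi : ℤ} {h : ℤ → ℝ} {n : ℕ} (hA : ¬ AltL lo hi h (n + 1)) {p : ℕ → ℤ} {N : ℕ}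
    (hp : ∀ j < N, p j < p (j + 1)) (h0 : lo ≤ p 0) (h1 : p N ≤ hi) :
    ((Finset.range N).filter fun i => Both h (p i) (p (i + 1))).card ≤ 2 * n + 1 := by
  by_contra hc
  obtain ⟨g, hg, hm⟩ := keyc_enum _ (2 * n + 2) (not_le.1 hc)
  have hg' : ∀ i < 2 * n + 2, g i < N ∧ Both h (p (g i)) (p (g i + 1)) := fun i hi => by
    simpa using hg i hi
  have e1 : ∀ k, ∃ r, k < n + 1 → p (g (2 * k)) ≤ r ∧ r < p (g (2 * k) + 1) ∧ 0 < h r := by
    intro k
    by_cases hk : k < n + 1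
    · obtain ⟨r, hr⟩ := (hg' (2 * k) (by omega)).2.1
      exact ⟨r, fun _ => hr⟩
    · exact ⟨0, fun h => absurd h hk⟩
  have e2 : ∀ k, ∃ r, k < n + 1 →
      p (g (2 * k + 1)) ≤ r ∧ r < p (g (2 * k + 1) + 1) ∧ h r < 0 := by
    intro k
    by_cases hk : k < n + 1
    · obtain ⟨r, hr⟩ := (hg' (2 * k + 1) (by omega)).2.2
      exact ⟨r, fun _ => hr⟩
    · exact ⟨0, fun h => absurd h hk⟩
  choose a ha using e1
  choose b hb using e2
  refine hA ⟨a, b, fun k hk => ?_, fun k hk => ?_⟩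
  · obtain ⟨a1, a2, a3⟩ := ha k hk
    obtain ⟨b1, b2, b3⟩ := hb k hk
    have g1 := (hg' (2 * k) (by omega)).1
    have g2 := (hg' (2 * k + 1) (by omega)).1
    have g3 := hm (2 * k) (2 * k + 1) (by omega) (by omega)
    have m1 := keyc_mono hp (Nat.zero_le (g (2 * k))) g1.le
    have m2 := keyc_mono hp (show g (2 * k) + 1 ≤ g (2 * k + 1) from g3) g2.le
    have m3 := keyc_mono hp (show g (2 * k + 1) + 1 ≤ N from g2) le_rfl
    exact ⟨by omega, by omega, by omega, a3, b3⟩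
  · obtain ⟨a1, -, -⟩ := ha (k + 1) hk
    obtain ⟨-, b2, -⟩ := hb k (by omega)
    have g2 := (hg' (2 * (k + 1)) (by omega)).1
    have g3 := hm (2 * k + 1) (2 * (k + 1)) (by omega) (by omega)
    have m2 := keyc_mono hp (show g (2 * k + 1) + 1 ≤ g (2 * (k + 1)) from g3) g2.le
    omega

theorem keyc_le {D : ℤ → ℝ} {s t : ℤ} (hst : s ≤ t) (h : ∀ r, s ≤ r → r < t → D r ≤ D (r + 1)) :
    D s ≤ D t := by
  induction t, hst using Int.leInduction with
  | base => exact le_rfl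
  | succ t ht ih => exact (ih fun r a b => h r a (by omega)).trans (h t ht (by omega))

theorem keyc_lt {D : ℤ → ℝ} {s t : ℤ} (hst : s < t) (h : ∀ r, s ≤ r → r < t → D r < D (r + 1)) :
    D s < D t :=
  (h s le_rfl hst).trans_le (keyc_le (by omega) fun r a b => (h r (by omega) b).le)

/-- the increasing strand `X` and the decreasing strand `Y` have meeting ranges over `[s, t]` -/
def Meet (X Y : ℤ → ℝ) (s t : ℤ) : Prop :=
  (∀ r, s ≤ r → r < t → X r < X (r + 1)) ∧ (∀ r, s ≤ r → r < t → Y (r + 1) < Y r) ∧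
    X s ≤ Y s ∧ Y t ≤ X t

open Classical in
theorem keyc_L2 {X Y : ℤ → ℝ} {n M : ℕ} {f : ℕ → ℤ} (hf : ∀ j < M, f j < f (j + 1))
    (hX : ¬ AltL (f 0) (f M) (fun r => X (r + 1) - X r) (n + 1))
    (hY : ¬ AltL (f 0) (f M) (fun r => Y (r + 1) - Y r) (n + 1)) :
    ((Finset.range M).filter fun j => Meet X Y (f j) (f (j + 1))).card ≤ 8 * n + 6 := by
  by_contra hc
  obtain ⟨g, hg, hm⟩ := keyc_enum _ (8 * n + 7) (not_le.1 hc)
  have hg' : ∀ i < 8 * n + 7, g i < M ∧ Meet X Y (f (g i)) (f (g i + 1)) := fun i hi => by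
    simpa using hg i hi
  have hp : ∀ j < 4 * n + 3, f (g (2 * j)) < f (g (2 * (j + 1))) := fun j hj =>
    keyc_smono hf (hm _ _ (by omega) (by omega)) (hg' _ (by omega)).1.le
  have h0 : f 0 ≤ f (g (2 * 0)) := keyc_mono hf (Nat.zero_le _) (hg' _ (by omega)).1.le
  have h1 : f (g (2 * (4 * n + 3))) ≤ f M := keyc_mono hf (hg' _ (by omega)).1.le le_rfl
  have c1 := keyc_L1 (p := fun j => f (g (2 * j))) hX hp h0 h1
  have c2 := keyc_L1 (p := fun j => f (g (2 * j))) hY hp h0 h1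
  have hsub : Finset.range (4 * n + 3) ⊆
      ((Finset.range (4 * n + 3)).filter fun i =>
        Both (fun r => X (r + 1) - X r) (f (g (2 * i))) (f (g (2 * (i + 1))))) ∪
      ((Finset.range (4 * n + 3)).filter fun i =>
        Both (fun r => Y (r + 1) - Y r) (f (g (2 * i))) (f (g (2 * (i + 1))))) := by
    intro i hi
    have hi' := Finset.mem_range.1 hi
    obtain ⟨l0, m0⟩ := hg' (2 * i) (by omega)
    obtain ⟨l1, m1⟩ := hg' (2 * i + 1) (by omega)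
    obtain ⟨l2, m2⟩ := hg' (2 * (i + 1)) (by omega)
    have q0 := hf _ l0
    have q1 := hf _ l1
    have q2 : f (g (2 * i) + 1) ≤ f (g (2 * i + 1)) :=
      keyc_mono hf (hm _ _ (by omega) (by omega)) l1.le
    have q3 : f (g (2 * i + 1) + 1) ≤ f (g (2 * (i + 1))) :=
      keyc_mono hf (hm _ _ (by omega) (by omega)) l2.le
    by_contra hn
    simp only [Finset.mem_union, Finset.mem_filter, hi, true_and, not_or] at hn
    obtain ⟨n1, n2⟩ := hn
    have x1 : ∀ r, f (g (2 * i)) ≤ r → r < f (g (2 * (i + 1))) → X r ≤ X (r + 1) := by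
      intro r a b
      by_contra hlt
      exact n1 ⟨⟨_, le_rfl, by omega, sub_pos.2 (m0.1 _ le_rfl q0)⟩, r, a, b, by
        simp only; linarith⟩
    have y1 : ∀ r, f (g (2 * i)) ≤ r → r < f (g (2 * (i + 1))) → Y (r + 1) ≤ Y r := by
      intro r a b
      by_contra hlt
      exact n2 ⟨⟨r, a, b, by simp only; linarith⟩, _, le_rfl, by omega,
        sub_neg.2 (m0.2.1 _ le_rfl q0)⟩
    have d1 := keyc_le (D := fun r => X r - Y r) q2 fun r a b => by
      have := x1 r (by omega) (by omega); have := y1 r (by omega) (by omega); linarith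
    have d2 := keyc_lt (D := fun r => X r - Y r) q1 fun r a b => by
      have := m1.1 r a b; have := m1.2.1 r a b; linarith
    have d3 := keyc_le (D := fun r => X r - Y r) q3 fun r a b => by
      have := x1 r (by omega) (by omega); have := y1 r (by omega) (by omega); linarith
    have := m0.2.2.2
    have := m2.2.2.1
    linarith
  have := (Finset.card_le_card hsub).trans (Finset.card_union_le _ _)
  rw [Finset.card_range] at this
  omega

theorem keyc_L3 {ι : Type} (A : Finset ι) (H : ι → ℤ → ℝ) {s t : ℤ} (hst : s < t)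
    (hfull : ¬ SepH A H s t)
    (hmono : ∀ a ∈ A, (∀ r, s ≤ r → r < t → H a r < H a (r + 1)) ∨
      ∀ r, s ≤ r → r < t → H a (r + 1) < H a r)
    (hp : ∃ a ∈ A, H a s < H a t) (hn : ∃ a ∈ A, H a t < H a s) :
    ∃ a ∈ A, ∃ a' ∈ A, Meet (H a) (H a') s t := by
  classical
  by_contra hno
  push Not at hno
  let lo : ι → ℝ := fun a => min (H a s) (H a t)
  let hi : ι → ℝ := fun a => max (H a s) (H a t)
  have hlh : ∀ a, lo a ≤ hi a := fun a => min_le_max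
  have hup : ∀ a ∈ A, H a s < H a t → ∀ r, s ≤ r → r < t → H a r < H a (r + 1) := by
    intro a ha h
    rcases hmono a ha with h1 | h1
    · exact h1
    · have := keyc_lt (D := fun r => - H a r) hst fun r a b => by have := h1 r a b; linarith
      linarith
  have hdn : ∀ a ∈ A, ¬ H a s < H a t → ∀ r, s ≤ r → r < t → H a (r + 1) < H a r := by
    intro a ha h
    rcases hmono a ha with h1 | h1
    · exact absurd (keyc_lt hst h1) h
    · exact h1
  have hrange : ∀ a ∈ A, ∀ r, s ≤ r → r ≤ t → lo a ≤ H a r ∧ H a r ≤ hi a := by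
    intro a ha r h1 h2
    rcases hmono a ha with h | h
    · exact ⟨(min_le_left _ _).trans (keyc_le h1 fun q a b => (h q a (by omega)).le),
        (keyc_le h2 fun q a b => (h q (by omega) b).le).trans (le_max_right _ _)⟩
    · have e1 := keyc_le (D := fun r => - H a r) h1 fun q a b => by
        have := h q a (by omega); linarith
      have e2 := keyc_le (D := fun r => - H a r) h2 fun q a b => by
        have := h q (by omega) b; linarith
      exact ⟨(min_le_right _ _).trans (by linarith), le_trans (by linarith) (le_max_left _ _)⟩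
  have hdis0 : ∀ a ∈ A, ∀ b ∈ A, H a s < H a t → ¬ H b s < H b t → hi a < lo b ∨ hi b < lo a := by
    intro a ha b hb h1 h2
    have h3 := hno a ha b hb
    have h4 : ¬ (H a s ≤ H b s ∧ H b t ≤ H a t) := fun h => h3 ⟨hup a ha h1, hdn b hb h2, h⟩
    have h2' := not_lt.1 h2
    simp only [lo, hi, max_eq_right h1.le, min_eq_left h1.le, max_eq_left h2', min_eq_right h2']
    by_contra hc
    push Not at hc
    exact h4 ⟨hc.2, hc.1⟩
  have hdis : ∀ a ∈ A, ∀ b ∈ A, ¬ (H a s < H a t ↔ H b s < H b t) → hi a < lo b ∨ hi b < lo a := by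
    intro a ha b hb h
    by_cases h1 : H a s < H a t
    · exact hdis0 a ha b hb h1 fun h2 => h ⟨fun _ => h2, fun _ => h1⟩
    · refine (hdis0 b hb a ha ?_ h1).symm
      by_contra h2
      exact h ⟨fun h' => absurd h' h1, fun h' => absurd h' h2⟩
  let T : Finset (ι × ι) := (A ×ˢ A).filter fun q =>
    ¬ (H q.1 s < H q.1 t ↔ H q.2 s < H q.2 t) ∧ hi q.1 < lo q.2
  have hT : ∀ a b, (a, b) ∈ T ↔
      a ∈ A ∧ b ∈ A ∧ ¬ (H a s < H a t ↔ H b s < H b t) ∧ hi a < lo b := by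
    intro a b
    simp only [T, Finset.mem_filter, Finset.mem_product, and_assoc]
  have hTn : T.Nonempty := by
    obtain ⟨a, ha, h1⟩ := hp
    obtain ⟨b, hb, h2⟩ := hn
    have h2' : ¬ H b s < H b t := not_lt.2 h2.le
    rcases hdis0 a ha b hb h1 h2' with h | h
    · exact ⟨(a, b), (hT a b).2 ⟨ha, hb, fun h' => h2' (h'.1 h1), h⟩⟩
    · exact ⟨(b, a), (hT b a).2 ⟨hb, ha, fun h' => h2' (h'.2 h1), h⟩⟩
  obtain ⟨⟨a, b⟩, hab, hmin⟩ := T.exists_min_image (fun q => lo q.2 - hi q.1) hTn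
  obtain ⟨ha, hb, hcol, hlt⟩ := (hT a b).1 hab
  have hc : ∀ d ∈ A, (hi a + lo b) / 2 < lo d ∨ hi d < (hi a + lo b) / 2 := by
    intro d hd
    by_contra hh
    push Not at hh
    have e1 := hlh a
    have e2 := hlh b
    by_cases hdb : (H d s < H d t ↔ H b s < H b t)
    · have had : ¬ (H a s < H a t ↔ H d s < H d t) := fun h => hcol (h.trans hdb)
      rcases hdis a ha d hd had with h | h
      · have := hmin (a, d) ((hT a d).2 ⟨ha, hd, had, h⟩)
        simp only at this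
        linarith [hh.1]
      · linarith [hh.2]
    · rcases hdis d hd b hb hdb with h | h
      · have := hmin (d, b) ((hT d b).2 ⟨hd, hb, hdb, h⟩)
        simp only at this
        linarith [hh.2]
      · linarith [hh.1]
  refine hfull ⟨(hi a + lo b) / 2, A.filter fun d => (hi a + lo b) / 2 < lo d,
    Finset.filter_subset _ _, ⟨b, Finset.mem_filter.2 ⟨hb, by linarith⟩⟩, ?_, ?_⟩
  · intro he
    have : a ∈ A.filter fun d => (hi a + lo b) / 2 < lo d := by rw [he]; exact ha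
    have := (Finset.mem_filter.1 this).2
    have := hlh a
    linarith
  · intro d hd r h1 h2
    obtain ⟨r1, r2⟩ := hrange d hd r h1 h2
    refine ⟨fun h => (Finset.mem_filter.1 h).2.trans_le r1, fun h => ?_⟩
    rcases hc d hd with h' | h'
    · exact absurd (Finset.mem_filter.2 ⟨hd, h'⟩) h
    · exact r2.trans_lt h'


open Classical in
theorem keyc_LG {ι : Type} (A : Finset ι) (H : ι → ℤ → ℝ) {n K M : ℕ} {f : ℕ → ℤ}
    (hK : A.card ≤ K) (hf : ∀ j < M, f j < f (j + 1))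
    (hfull : ∀ j < M, ¬ SepH A H (f j) (f (j + 1)))
    (halt : ∀ a ∈ A, ¬ AltL (f 0) (f M) (fun r => H a (r + 1) - H a r) (n + 1))
    (hgen : ∀ a ∈ A, ∀ r, f 0 ≤ r → r < f M → H a (r + 1) - H a r ≠ 0) :
    ((Finset.range M).filter fun j =>
      (∃ a ∈ A, ∃ r, f j ≤ r ∧ r < f (j + 1) ∧ 0 < H a (r + 1) - H a r) ∧
      (∃ a ∈ A, ∃ r, f j ≤ r ∧ r < f (j + 1) ∧ H a (r + 1) - H a r < 0)).card ≤
      K * (2 * n + 1) + K * K * (8 * n + 6) := by
  have c1 : (A.biUnion fun a => (Finset.range M).filter fun i =>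
      Both (fun r => H a (r + 1) - H a r) (f i) (f (i + 1))).card ≤ K * (2 * n + 1) :=
    (Finset.card_biUnion_le_card_mul _ _ _ fun a ha =>
      keyc_L1 (halt a ha) hf le_rfl le_rfl).trans (Nat.mul_le_mul_right _ hK)
  have c2 : ((A ×ˢ A).biUnion fun q => (Finset.range M).filter fun j =>
      Meet (H q.1) (H q.2) (f j) (f (j + 1))).card ≤ K * K * (8 * n + 6) := by
    refine (Finset.card_biUnion_le_card_mul _ _ _ fun q hq =>
      keyc_L2 hf (halt _ (Finset.mem_product.1 hq).1) (halt _ (Finset.mem_product.1 hq).2)).trans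
      (Nat.mul_le_mul_right _ ?_)
    rw [Finset.card_product]
    exact Nat.mul_le_mul hK hK
  refine le_trans (Finset.card_le_card ?_) ((Finset.card_union_le _ _).trans (add_le_add c1 c2))
  intro j hj
  obtain ⟨hjr, ⟨a, ha, r, r1, r2, r3⟩, ⟨a', ha', r', s1, s2, s3⟩⟩ := Finset.mem_filter.1 hj
  have hjM := Finset.mem_range.1 hjr
  have l0 : f 0 ≤ f j := keyc_mono hf (Nat.zero_le _) hjM.le
  have l1 : f (j + 1) ≤ f M := keyc_mono hf hjM le_rfl
  by_cases hb : ∃ b ∈ A, Both (fun r => H b (r + 1) - H b r) (f j) (f (j + 1))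
  · obtain ⟨b, hb1, hb2⟩ := hb
    exact Finset.mem_union_left _ (Finset.mem_biUnion.2 ⟨b, hb1, Finset.mem_filter.2 ⟨hjr, hb2⟩⟩)
  · have hmono : ∀ b ∈ A, (∀ r, f j ≤ r → r < f (j + 1) → H b r < H b (r + 1)) ∨
        ∀ r, f j ≤ r → r < f (j + 1) → H b (r + 1) < H b r := by
      intro b hbA
      by_contra hc
      push Not at hc
      obtain ⟨⟨q, q1, q2, q3⟩, ⟨q', t1, t2, t3⟩⟩ := hc
      have g1 := hgen b hbA q (by omega) (by omega)
      have g2 := hgen b hbA q' (by omega) (by omega)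
      exact hb ⟨b, hbA, ⟨q', t1, t2, lt_of_le_of_ne (sub_nonneg.2 t3) g2.symm⟩,
        q, q1, q2, lt_of_le_of_ne (sub_nonpos.2 q3) g1⟩
    have hp : ∃ a ∈ A, H a (f j) < H a (f (j + 1)) := by
      refine ⟨a, ha, ?_⟩
      rcases hmono a ha with h | h
      · exact keyc_lt (hf j hjM) h
      · have := h r r1 r2; linarith
    have hn : ∃ a ∈ A, H a (f (j + 1)) < H a (f j) := by
      refine ⟨a', ha', ?_⟩
      rcases hmono a' ha' with h | h
      · have := h r' s1 s2; linarith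
      · have := keyc_lt (D := fun r => - H a' r) (hf j hjM) fun r a b => by
          have := h r a b; linarith
        linarith
    obtain ⟨c, hc, c', hc', hm⟩ := keyc_L3 A H (hf j hjM) (hfull j hjM) hmono hp hn
    exact Finset.mem_union_right _ (Finset.mem_biUnion.2
      ⟨(c, c'), Finset.mem_product.2 ⟨hc, hc'⟩, Finset.mem_filter.2 ⟨hjr, hm⟩⟩)

theorem keyc_shift {κ : Type} (T : Finset κ) (α β : κ → ℝ) (hβ : ∀ k ∈ T, 0 < β k) :
    ∃ δ : ℝ, ∀ k ∈ T, (0 ≤ α k → 0 < α k + δ * β k) ∧ (α k < 0 → α k + δ * β k < 0) := by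
  have h : ∀ᶠ δ in 𝓝[>] (0 : ℝ), ∀ k ∈ T,
      (0 ≤ α k → 0 < α k + δ * β k) ∧ (α k < 0 → α k + δ * β k < 0) := by
    rw [Filter.eventually_all_finset]
    intro k hk
    refine Eventually.and ?_ ?_
    · filter_upwards [self_mem_nhdsWithin] with δ hδ h
      have := mul_pos (show (0 : ℝ) < δ from hδ) (hβ k hk)
      linarith
    · by_cases h : α k < 0
      · have hc : Continuous fun δ : ℝ => α k + δ * β k := by fun_prop
        have : ∀ᶠ δ in 𝓝 (0 : ℝ), α k + δ * β k < 0 :=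
          hc.continuousAt.eventually_lt continuousAt_const (by simpa using h)
        filter_upwards [this.filter_mono nhdsWithin_le_nhds] with δ hδ _ using hδ
      · exact Eventually.of_forall fun δ h' => absurd h' h
  exact h.exists

open Classical in
theorem keyc_half {ι : Type} (A : Finset ι) (x : ι → ℤ → E) (u : E) {n K M : ℕ} {f : ℕ → ℤ}
    (hK : A.card ≤ K) (hf : ∀ j < M, f j < f (j + 1))
    (hu : ∀ a ∈ A, ∀ r, f 0 ≤ r → r < f M → 0 < ⟪x a (r + 1) - x a r, u⟫)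
    (hfull : ∀ j < M, FullC A x (f j) (f (j + 1)))
    (halt : ∀ w : E, ∀ a ∈ A, ¬ AltL (f 0) (f M) (fun r => ⟪x a (r + 1) - x a r, w⟫) (n + 1))
    (v : E) :
    ((Finset.range M).filter fun j =>
      (∃ a ∈ A, ∃ r, f j ≤ r ∧ r < f (j + 1) ∧ 0 ≤ ⟪x a (r + 1) - x a r, v⟫) ∧
      (∃ a ∈ A, ∃ r, f j ≤ r ∧ r < f (j + 1) ∧ ⟪x a (r + 1) - x a r, v⟫ < 0)).card ≤
      K * (2 * n + 1) + K * K * (8 * n + 6) := by
  obtain ⟨δ, hδ⟩ := keyc_shift (A ×ˢ Finset.Ico (f 0) (f M))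
    (fun q => ⟪x q.1 (q.2 + 1) - x q.1 q.2, v⟫) (fun q => ⟪x q.1 (q.2 + 1) - x q.1 q.2, u⟫)
    (fun q hq => hu _ (Finset.mem_product.1 hq).1 _
      (Finset.mem_Ico.1 (Finset.mem_product.1 hq).2).1
      (Finset.mem_Ico.1 (Finset.mem_product.1 hq).2).2)
  have he : ∀ a r, ⟪x a (r + 1), v + δ • u⟫ - ⟪x a r, v + δ • u⟫ =
      ⟪x a (r + 1) - x a r, v⟫ + δ * ⟪x a (r + 1) - x a r, u⟫ := by
    intro a r
    rw [← inner_sub_left, inner_add_right, real_inner_smul_right]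
  have hd : ∀ a ∈ A, ∀ r, f 0 ≤ r → r < f M →
      (0 ≤ ⟪x a (r + 1) - x a r, v⟫ → 0 < ⟪x a (r + 1), v + δ • u⟫ - ⟪x a r, v + δ • u⟫) ∧
      (⟪x a (r + 1) - x a r, v⟫ < 0 → ⟪x a (r + 1), v + δ • u⟫ - ⟪x a r, v + δ • u⟫ < 0) := by
    intro a ha r h1 h2
    rw [he]
    exact hδ (a, r) (Finset.mem_product.2 ⟨ha, Finset.mem_Ico.2 ⟨h1, h2⟩⟩)
  refine le_trans (Finset.card_le_card ?_) (keyc_LG A (fun a r => ⟪x a r, v + δ • u⟫) (n := n) hK hf
    (fun j hj => hfull j hj _) (fun a ha => ?_) (fun a ha r h1 h2 => ?_))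
  · intro j hj
    obtain ⟨hjr, ⟨a, ha, r, r1, r2, r3⟩, ⟨a', ha', r', s1, s2, s3⟩⟩ := Finset.mem_filter.1 hj
    have hjM := Finset.mem_range.1 hjr
    have l0 : f 0 ≤ f j := keyc_mono hf (Nat.zero_le _) hjM.le
    have l1 : f (j + 1) ≤ f M := keyc_mono hf hjM le_rfl
    exact Finset.mem_filter.2 ⟨hjr, ⟨a, ha, r, r1, r2, (hd a ha r (by omega) (by omega)).1 r3⟩,
      a', ha', r', s1, s2, (hd a' ha' r' (by omega) (by omega)).2 s3⟩
  · have := halt (v + δ • u) a ha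
    simpa only [inner_sub_left] using this
  · rcases le_or_gt 0 ⟪x a (r + 1) - x a r, v⟫ with h | h
    · exact ((hd a ha r h1 h2).1 h).ne'
    · exact ((hd a ha r h1 h2).2 h).ne

open Classical in
theorem keyc_LINE {ι : Type} (A : Finset ι) (x : ι → ℤ → E) (u : E) {n K M : ℕ} {f : ℕ → ℤ}
    (hK : A.card ≤ K) (hf : ∀ j < M, f j < f (j + 1))
    (hu : ∀ a ∈ A, ∀ r, f 0 ≤ r → r < f M → 0 < ⟪x a (r + 1) - x a r, u⟫)
    (hfull : ∀ j < M, FullC A x (f j) (f (j + 1)))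
    (halt : ∀ w : E, ∀ a ∈ A, ¬ AltL (f 0) (f M) (fun r => ⟪x a (r + 1) - x a r, w⟫) (n + 1))
    (v : E)
    (hv : ∀ j < M, ∃ a ∈ A, ∃ r, f j ≤ r ∧ r < f (j + 1) ∧ ⟪x a (r + 1) - x a r, v⟫ ≠ 0) :
    ((Finset.range M).filter fun j =>
      (∃ a ∈ A, ∃ r, f j ≤ r ∧ r < f (j + 1) ∧ 0 ≤ ⟪x a (r + 1) - x a r, v⟫) ∧
      (∃ a ∈ A, ∃ r, f j ≤ r ∧ r < f (j + 1) ∧ ⟪x a (r + 1) - x a r, v⟫ ≤ 0)).card ≤
      2 * (K * (2 * n + 1) + K * K * (8 * n + 6)) := by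
  have c1 := keyc_half A x u hK hf hu hfull halt v
  have c2 := keyc_half A x u hK hf hu hfull halt (-v)
  rw [two_mul]
  refine le_trans (Finset.card_le_card ?_) ((Finset.card_union_le _ _).trans (add_le_add c1 c2))
  intro j hj
  obtain ⟨hjr, h1, ⟨a', ha', r', s1, s2, s3⟩⟩ := Finset.mem_filter.1 hj
  obtain ⟨b, hb, q, q1, q2, q3⟩ := hv j (Finset.mem_range.1 hjr)
  rcases q3.lt_or_gt with h | h
  · exact Finset.mem_union_left _ (Finset.mem_filter.2 ⟨hjr, h1, b, hb, q, q1, q2, h⟩)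
  · refine Finset.mem_union_right _ (Finset.mem_filter.2 ⟨hjr, ⟨a', ha', r', s1, s2, ?_⟩,
      b, hb, q, q1, q2, ?_⟩)
    · rw [inner_neg_right]; linarith
    · rw [inner_neg_right]; linarith

theorem keyc_RANK {ι : Type} (A : Finset ι) (H : ι → ℤ → ℝ) {K : ℕ} {g : ℕ → ℤ}
    (hK : A.card ≤ K) (hg : ∀ j < K, g j < g (j + 1))
    (hfull : ∀ j < K, ¬ SepH A H (g j) (g (j + 1)))
    (hup : ∀ a ∈ A, ∀ r, g 0 ≤ r → r < g K → H a r < H a (r + 1)) :
    ∀ a ∈ A, ∀ a' ∈ A, H a (g 0) < H a' (g K) := by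
  classical
  intro a ha
  obtain ⟨m, hm, hmax⟩ := A.exists_max_image (fun a => H a (g 0)) ⟨a, ha⟩
  have key : ∀ j ≤ K, (A.filter fun b => H m (g 0) < H b (g j)) = A ∨
      j ≤ (A.filter fun b => H m (g 0) < H b (g j)).card := by
    intro j
    induction j with
    | zero => exact fun _ => Or.inr (Nat.zero_le _)
    | succ j ih =>
      intro hj
      have l0 : g 0 ≤ g j := keyc_mono hg (Nat.zero_le _) (by omega)
      have l1 : g (j + 1) ≤ g K := keyc_mono hg hj le_rfl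
      have l2 := hg j (by omega)
      have hlo : ∀ b ∈ A, ∀ r, g j ≤ r → r ≤ g (j + 1) → H b (g j) ≤ H b r ∧ H b r ≤ H b (g (j + 1)) :=
        fun b hb r h1 h2 => ⟨keyc_le h1 fun q q1 q2 => (hup b hb q (by omega) (by omega)).le,
          keyc_le h2 fun q q1 q2 => (hup b hb q (by omega) (by omega)).le⟩
      have hsub : (A.filter fun b => H m (g 0) < H b (g j)) ⊆
          A.filter fun b => H m (g 0) < H b (g (j + 1)) := by
        intro b hb
        obtain ⟨b1, b2⟩ := Finset.mem_filter.1 hb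
        exact Finset.mem_filter.2 ⟨b1, b2.trans_le (hlo b b1 _ l2.le le_rfl).1⟩
      by_cases hA : (A.filter fun b => H m (g 0) < H b (g (j + 1))) = A
      · exact Or.inl hA
      right
      rcases ih (by omega) with h | h
      · exact absurd (Finset.Subset.antisymm (Finset.filter_subset _ _) (h.ge.trans hsub)) hA
      by_contra hlt
      have heq := Finset.eq_of_subset_of_card_le hsub (by omega)
      have hne : (A.filter fun b => H m (g 0) < H b (g (j + 1))).Nonempty :=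
        ⟨m, Finset.mem_filter.2 ⟨hm,
          keyc_lt (by omega) fun q q1 q2 => hup m hm q q1 (by omega)⟩⟩
      obtain ⟨b0, hb0, hmin⟩ := Finset.exists_min_image _ (fun b => H b (g j)) hne
      have hb0' : H m (g 0) < H b0 (g j) := by
        rw [← heq] at hb0
        exact (Finset.mem_filter.1 hb0).2
      refine hfull j (by omega) ⟨(H m (g 0) + H b0 (g j)) / 2, _, Finset.filter_subset _ _, hne, hA,
        fun b hb r h1 h2 => ⟨fun hbU => ?_, fun hbU => ?_⟩⟩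
      · have := hmin b hbU
        have := (hlo b hb r h1 h2).1
        linarith
      · have h3 : ¬ H m (g 0) < H b (g (j + 1)) := fun h' => hbU (Finset.mem_filter.2 ⟨hb, h'⟩)
        have := (hlo b hb r h1 h2).2
        linarith [not_lt.1 h3]
  have hall : (A.filter fun b => H m (g 0) < H b (g K)) = A := by
    rcases key K le_rfl with h | h
    · exact h
    · exact Finset.eq_of_subset_of_card_le (Finset.filter_subset _ _) (hK.trans h)
  intro a' ha'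
  rw [← hall] at ha'
  exact (hmax a ha).trans_lt (Finset.mem_filter.1 ha').2


theorem FullC.mono {ι : Type} {A : Finset ι} {x : ι → ℤ → E} {s t s' t' : ℤ} (h : FullC A x s t)
    (h1 : s' ≤ s) (h2 : t ≤ t') : FullC A x s' t' := by
  rintro w ⟨c, B, b1, b2, b3, b4⟩
  exact h w ⟨c, B, b1, b2, b3, fun a ha r r1 r2 => b4 a ha r (by omega) (by omega)⟩

theorem keyc_fin {ι : Type} (A : Finset ι) (x : ι → ℤ → E) (u v : E) (Z : Finset E)
    (hA : A.Nonempty) {s s1 j t1 t : ℤ} (o1 : s < s1) (o2 : s1 ≤ j) (o3 : j < t1) (o4 : t1 < t)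
    (hu : ∀ a ∈ A, ∀ r, s ≤ r → r < t → 0 < ⟪x a (r + 1) - x a r, u⟫)
    (hZ : ∀ z ∈ Z, ⟪z, u⟫ ≠ 0)
    (hI : ∀ a ∈ A, 0 < ⟪x a (s + 1) - x a s, v⟫)
    (hL : ∀ a ∈ A, 0 < ⟪x a (t - 1 + 1) - x a (t - 1), v⟫)
    (hJ : ∀ a ∈ A, ⟪x a (j + 1) - x a j, v⟫ < 0)
    (rI : ∀ σ : ℝ, 0 < σ → ∀ a ∈ A, ∀ a' ∈ A, ⟪x a s, v + σ • u⟫ < ⟪x a' s1, v + σ • u⟫)
    (rL : ∀ σ : ℝ, 0 < σ → ∀ a ∈ A, ∀ a' ∈ A, ⟪x a t1, v + σ • u⟫ < ⟪x a' t, v + σ • u⟫) :
    ∃ w : E, (∀ z ∈ Z, ⟪z, w⟫ ≠ 0) ∧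
    (∀ a ∈ A, 0 < ⟪x a (s + 1) - x a s, w⟫ ∧ 0 < ⟪x a t - x a (t - 1), w⟫ ∧
      ∃ r, s < r ∧ r + 1 < t ∧ ⟪x a (r + 1) - x a r, w⟫ < 0) ∧
    ∀ a ∈ A, ∀ a' ∈ A, ⟪x a s, w⟫ < ⟪x a' t, w⟫ := by
  classical
  let rate : ι → ℤ → ℝ := fun a r => -⟪x a (r + 1) - x a r, v⟫ / ⟪x a (r + 1) - x a r, u⟫
  have hw : ∀ (z : E) (σ : ℝ), ⟪z, v + σ • u⟫ = ⟪z, v⟫ + σ * ⟪z, u⟫ := fun z σ => by
    rw [inner_add_right, real_inner_smul_right]
  have hrate : ∀ a ∈ A, ∀ r, s ≤ r → r < t → ∀ σ : ℝ,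
      ⟪x a (r + 1) - x a r, v + σ • u⟫ = (σ - rate a r) * ⟪x a (r + 1) - x a r, u⟫ := by
    intro a ha r h1 h2 σ
    have := (hu a ha r h1 h2).ne'
    rw [hw]
    simp only [rate]
    field_simp
    ring
  have hex : ∀ a, ∃ ρ, s ≤ ρ ∧ ρ < t ∧ ∀ r, s ≤ r → r < t → rate a r ≤ rate a ρ := by
    intro a
    obtain ⟨ρ, h1, h2⟩ := (Finset.Ico s t).exists_max_image (rate a)
      ⟨s, Finset.mem_Ico.2 ⟨le_rfl, by omega⟩⟩
    exact ⟨ρ, (Finset.mem_Ico.1 h1).1, (Finset.mem_Ico.1 h1).2,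
      fun r r1 r2 => h2 r (Finset.mem_Ico.2 ⟨r1, r2⟩)⟩
  choose ρ hρ1 hρ2 hρ3 using hex
  obtain ⟨b, hb, hmin⟩ := A.exists_min_image (fun a => rate a (ρ a)) hA
  set σ0 := rate b (ρ b) with hσ0
  have hpos : 0 < σ0 := by
    refine lt_of_lt_of_le ?_ (hρ3 b j (by omega) (by omega))
    exact div_pos (neg_pos.2 (hJ b hb)) (hu b hb j (by omega) (by omega))
  have hgap : ∀ a ∈ A, ∀ a' ∈ A, ⟪x a s, v + σ0 • u⟫ < ⟪x a' t, v + σ0 • u⟫ := by
    intro a ha a' ha'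
    have h1 := rI σ0 hpos a ha b hb
    have h2 := rL σ0 hpos b hb a' ha'
    have h3 := keyc_le (D := fun r => ⟪x b r, v + σ0 • u⟫) (show s1 ≤ t1 by omega) fun r r1 r2 => by
      have e := hrate b hb r (by omega) (by omega) σ0
      rw [inner_sub_left] at e
      have := mul_nonneg (sub_nonneg.2 (hρ3 b r (by omega) (by omega)))
        (hu b hb r (by omega) (by omega)).le
      linarith
    linarith
  have ev1 : ∀ᶠ σ in 𝓝[<] σ0, 0 < σ := (lt_mem_nhds hpos).filter_mono nhdsWithin_le_nhds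
  have ev2 : ∀ᶠ σ in 𝓝[<] σ0, σ < σ0 := self_mem_nhdsWithin
  have ev3 : ∀ᶠ σ in 𝓝[<] σ0, ∀ a ∈ A, ∀ a' ∈ A, ⟪x a s, v + σ • u⟫ < ⟪x a' t, v + σ • u⟫ := by
    rw [Filter.eventually_all_finset]
    intro a ha
    rw [Filter.eventually_all_finset]
    intro a' ha'
    have c1 : Continuous fun σ : ℝ => ⟪x a s, v + σ • u⟫ := by fun_prop
    have c2 : Continuous fun σ : ℝ => ⟪x a' t, v + σ • u⟫ := by fun_prop
    exact (c1.continuousAt.eventually_lt c2.continuousAt (hgap a ha a' ha')).filter_mono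
      nhdsWithin_le_nhds
  have ev4 : ∀ᶠ σ in 𝓝[<] σ0, ∀ z ∈ Z, ⟪z, v + σ • u⟫ ≠ 0 := by
    rw [Filter.eventually_all_finset]
    intro z hz
    by_cases h0 : ⟪z, v + σ0 • u⟫ = 0
    · filter_upwards [ev2] with σ hσ h
      rw [hw] at h h0
      have : (σ0 - σ) * ⟪z, u⟫ = 0 := by linarith
      rcases mul_eq_zero.1 this with h' | h'
      · linarith
      · exact hZ z hz h'
    · have c1 : Continuous fun σ : ℝ => ⟪z, v + σ • u⟫ := by fun_prop
      exact (c1.continuousAt.eventually_ne h0).filter_mono nhdsWithin_le_nhds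
  obtain ⟨σ, ⟨⟨e1, e2⟩, e3⟩, e4⟩ := (((ev1.and ev2).and ev3).and ev4).exists
  refine ⟨v + σ • u, e4, fun a ha => ?_, e3⟩
  have p1 : 0 < ⟪x a (s + 1) - x a s, v + σ • u⟫ := by
    rw [hw]
    have := mul_pos e1 (hu a ha s le_rfl (by omega))
    linarith [hI a ha]
  have p2 : 0 < ⟪x a (t - 1 + 1) - x a (t - 1), v + σ • u⟫ := by
    rw [hw]
    have := mul_pos e1 (hu a ha (t - 1) (by omega) (by omega))
    linarith [hL a ha]
  have p3 : ⟪x a (ρ a + 1) - x a (ρ a), v + σ • u⟫ < 0 := by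
    rw [hrate a ha _ (hρ1 a) (hρ2 a)]
    exact mul_neg_of_neg_of_pos (sub_neg.2 (e2.trans_le (hmin a ha))) (hu a ha _ (hρ1 a) (hρ2 a))
  refine ⟨p1, by simpa using p2, ρ a, ?_, ?_, p3⟩
  · refine lt_of_le_of_ne (hρ1 a) fun h => ?_
    rw [← h] at p3
    linarith
  · have h1 := hρ2 a
    by_contra h
    have : ρ a = t - 1 := by omega
    rw [this] at p3
    linarith

theorem s_KEYC : S_KEYC := by
  classical
  intro n K
  obtain ⟨N, hN⟩ : ∃ N, N = 2 * (K * (2 * n + 1) + K * K * (8 * n + 6)) := ⟨_, rfl⟩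
  obtain ⟨G, hG⟩ : ∃ G, G = 4 * N + 1 := ⟨_, rfl⟩
  refine ⟨K * (3 * G), ?_⟩
  intro ι A x u f Z hA hK hf hu hfull halt hnz hZ
  have hK0 : 0 < K := hA.card_pos.trans_le hK
  have hm : ∀ i, i < 3 * G → K * i + K ≤ K * (3 * G) := fun i hi => by
    rw [← Nat.mul_succ]; exact Nat.mul_le_mul_left _ hi
  let F : ℕ → ℤ := fun i => f (K * i)
  have hF0 : F 0 = f 0 := by simp [F]
  have hFM : F (3 * G) = f (K * (3 * G)) := rfl
  have hFs : ∀ i, F (i + 1) = f (K * i + K) := fun i => by simp only [F, Nat.mul_succ]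
  have hF1 : ∀ i < 3 * G, f (K * i + 1) ≤ F (i + 1) := fun i hi => by
    rw [hFs]; exact keyc_mono hf (by omega) (hm i hi)
  have hlt : ∀ i < 3 * G, K * i < K * (3 * G) := fun i hi => by have := hm i hi; omega
  have hF : ∀ i < 3 * G, F i < F (i + 1) := fun i hi => (hf _ (hlt i hi)).trans_le (hF1 i hi)
  have hlo : ∀ i ≤ 3 * G, f 0 ≤ F i := fun i hi => hF0 ▸ keyc_mono hF (Nat.zero_le _) hi
  have hhi : ∀ i ≤ 3 * G, F i ≤ f (K * (3 * G)) := fun i hi => hFM ▸ keyc_mono hF hi le_rfl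
  obtain ⟨a0, ha0⟩ := id hA
  have hu0 : ∀ i < 3 * G, 0 < ⟪x a0 (F i + 1) - x a0 (F i), u⟫ := fun i hi =>
    hu a0 ha0 _ (hlo i hi.le) ((hF i hi).trans_le (hhi _ hi))
  let p : ℕ → E := fun i => (⟪x a0 (F i + 1) - x a0 (F i), u⟫)⁻¹ • (x a0 (F i + 1) - x a0 (F i))
  have hp1 : ∀ i < 3 * G, ⟪p i, u⟫ = 1 := fun i hi => by
    simp only [p, real_inner_smul_left]
    exact inv_mul_cancel₀ (hu0 i hi).ne'
  obtain ⟨v, hv, c1, c2, c3, c4⟩ := s_CENT2 ℕ (Finset.range G) (Finset.Ico (2 * G) (3 * G)) p u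
    ⟨0, Finset.mem_range.2 (by omega)⟩ ⟨2 * G, Finset.mem_Ico.2 ⟨le_rfl, by omega⟩⟩
    (fun i hi => hp1 i (by have := Finset.mem_range.1 hi; omega))
    (fun i hi => hp1 i (Finset.mem_Ico.1 hi).2)
  have hline := keyc_LINE A x u (n := n) (M := 3 * G) (f := F) hK hF (by rw [hF0]; exact hu)
    (fun i hi => (hfull _ (hlt i hi)).mono le_rfl (hF1 i hi)) (by rw [hF0]; exact halt) v
    (fun i hi => by
      obtain ⟨a, ha, r, r1, r2, r3⟩ := hnz v hv _ (hlt i hi)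
      exact ⟨a, ha, r, r1, r2.trans_le (hF1 i hi), r3⟩)
  rw [← hN] at hline
  have pick : ∀ S : Finset ℕ, N < S.card → (∀ i ∈ S, i < 3 * G) → ∃ i ∈ S,
      ¬ ((∃ a ∈ A, ∃ r, F i ≤ r ∧ r < F (i + 1) ∧ 0 ≤ ⟪x a (r + 1) - x a r, v⟫) ∧
      (∃ a ∈ A, ∃ r, F i ≤ r ∧ r < F (i + 1) ∧ ⟪x a (r + 1) - x a r, v⟫ ≤ 0)) := by
    intro S h1 h2
    obtain ⟨i, hi, hn⟩ := Finset.exists_mem_notMem_of_card_lt_card (hline.trans_lt h1)
    exact ⟨i, hi, fun h => hn (Finset.mem_filter.2 ⟨Finset.mem_range.2 (h2 i hi), h⟩)⟩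
  let Pos : E → ℕ → Prop := fun w i =>
    ∀ a ∈ A, ∀ r, F i ≤ r → r < F (i + 1) → 0 < ⟪x a (r + 1) - x a r, w⟫
  have pickP : ∀ S : Finset ℕ, (∀ i ∈ S, i < 3 * G) → S.card = G →
      S.card ≤ 4 * (S.filter fun i => 0 ≤ ⟪p i, v⟫).card → ∃ i ∈ S, Pos v i := by
    intro S h1 h2 h3
    obtain ⟨i, hi, hn⟩ := pick (S.filter fun i => 0 ≤ ⟪p i, v⟫) (by omega)
      fun i hi => h1 i (Finset.mem_filter.1 hi).1
    obtain ⟨i1, i2⟩ := Finset.mem_filter.1 hi
    refine ⟨i, i1, fun a ha r r1 r2 => ?_⟩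
    by_contra hc
    refine hn ⟨⟨a0, ha0, F i, le_rfl, hF i (h1 i i1), ?_⟩, a, ha, r, r1, r2, not_lt.1 hc⟩
    simp only [p, real_inner_smul_left] at i2
    exact (mul_nonneg_iff_of_pos_left (inv_pos.2 (hu0 i (h1 i i1)))).1 i2
  have pickN : ∀ S : Finset ℕ, (∀ i ∈ S, i < 3 * G) → S.card = G →
      S.card ≤ 4 * (S.filter fun i => ⟪p i, v⟫ ≤ 0).card → ∃ i ∈ S, Pos (-v) i := by
    intro S h1 h2 h3
    obtain ⟨i, hi, hn⟩ := pick (S.filter fun i => ⟪p i, v⟫ ≤ 0) (by omega)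
      fun i hi => h1 i (Finset.mem_filter.1 hi).1
    obtain ⟨i1, i2⟩ := Finset.mem_filter.1 hi
    refine ⟨i, i1, fun a ha r r1 r2 => ?_⟩
    by_contra hc
    rw [inner_neg_right] at hc
    refine hn ⟨⟨a, ha, r, r1, r2, by linarith [not_lt.1 hc]⟩, a0, ha0, F i, le_rfl,
      hF i (h1 i i1), ?_⟩
    simp only [p, real_inner_smul_left] at i2
    by_contra h'
    exact absurd (mul_pos (inv_pos.2 (hu0 i (h1 i i1))) (not_le.1 h')) (not_lt.2 i2)
  have r1 : ∀ i ∈ Finset.range G, i < 3 * G := fun i hi => by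
    have := Finset.mem_range.1 hi; omega
  have r3 : ∀ i ∈ Finset.Ico (2 * G) (3 * G), i < 3 * G := fun i hi => (Finset.mem_Ico.1 hi).2
  have k3 : (Finset.Ico (2 * G) (3 * G)).card = G := by rw [Nat.card_Ico]; omega
  have main : ∃ (w : E) (I J L : ℕ), I < J ∧ J < L ∧ L < 3 * G ∧ Pos w I ∧ Pos (-w) J ∧ Pos w L := by
    obtain ⟨J, hJ, hn⟩ := pick (Finset.Ico G (2 * G)) (by rw [Nat.card_Ico]; omega)
      fun i hi => by have := (Finset.mem_Ico.1 hi).2; omega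
    obtain ⟨j1, j2⟩ := Finset.mem_Ico.1 hJ
    rcases not_and_or.1 hn with h | h
    · obtain ⟨I, hI, pI⟩ := pickP _ r1 (Finset.card_range G) c1
      obtain ⟨L, hL, pL⟩ := pickP _ r3 k3 c3
      have := Finset.mem_range.1 hI
      have := Finset.mem_Ico.1 hL
      refine ⟨v, I, J, L, by omega, by omega, by omega, pI, fun a ha r q1 q2 => ?_, pL⟩
      rw [inner_neg_right, neg_pos]
      by_contra hc
      exact h ⟨a, ha, r, q1, q2, not_lt.1 hc⟩
    · obtain ⟨I, hI, pI⟩ := pickN _ r1 (Finset.card_range G) c2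
      obtain ⟨L, hL, pL⟩ := pickN _ r3 k3 c4
      have := Finset.mem_range.1 hI
      have := Finset.mem_Ico.1 hL
      refine ⟨-v, I, J, L, by omega, by omega, by omega, pI, fun a ha r q1 q2 => ?_, pL⟩
      rw [neg_neg]
      by_contra hc
      exact h ⟨a, ha, r, q1, q2, not_lt.1 hc⟩
  obtain ⟨w, I, J, L, o1, o2, o3, pI, pJ, pL⟩ := main
  have rank : ∀ i < 3 * G, Pos w i → ∀ σ : ℝ, 0 < σ → ∀ a ∈ A, ∀ a' ∈ A,
      ⟪x a (F i), w + σ • u⟫ < ⟪x a' (F (i + 1)), w + σ • u⟫ := by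
    intro i hi hP σ hσ
    have := hm i hi
    rw [hFs]
    refine keyc_RANK A (fun a r => ⟪x a r, w + σ • u⟫) (g := fun j => f (K * i + j)) hK
      (fun j hj => hf _ (by omega)) (fun j hj => hfull _ (by omega) _) fun a ha r q1 q2 => ?_
    have q2' : r < F (i + 1) := by rw [hFs]; exact q2
    have e1 := hP a ha r q1 q2'
    have e2 := mul_pos hσ (hu a ha r ((hlo i hi.le).trans q1) (q2'.trans_le (hhi _ hi)))
    have e3 : ⟪x a (r + 1) - x a r, w + σ • u⟫ =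
        ⟪x a (r + 1) - x a r, w⟫ + σ * ⟪x a (r + 1) - x a r, u⟫ := by
      rw [inner_add_right, real_inner_smul_right]
    rw [inner_sub_left] at e3
    linarith
  have fI := hF I (by omega)
  have fJ := hF J (by omega)
  have fL := hF L o3
  have f1 : F (I + 1) ≤ F J := keyc_mono hF o1 (by omega)
  have f2 : F (J + 1) ≤ F L := keyc_mono hF o2 (by omega)
  have f3 := hlo I (by omega)
  have f4 := hhi (L + 1) o3
  obtain ⟨w', z1, z2, z3⟩ := keyc_fin A x u w Z hA fI f1 (fJ.trans_le f2) fL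
    (fun a ha r q1 q2 => hu a ha r (by omega) (by omega)) hZ
    (fun a ha => pI a ha _ le_rfl fI) (fun a ha => pL a ha _ (by omega) (by omega))
    (fun a ha => by
      have := pJ a ha _ le_rfl fJ
      rw [inner_neg_right] at this
      linarith)
    (rank I (by omega) pI) (rank L o3 pL)
  exact ⟨w', F I, F (L + 1), f3, by omega, f4, z1, z2, z3⟩

end Pool.Agent.P.MP_28369d_gt.SB
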