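import Pool.Agent.P.MP_28369d_gt.SB.Defs

namespace Pool.Agent.P.MP_28369d_gt.SB

open Set Filter Topology
open scoped RealInnerProductSpace

/-- Strands over the levels `s ≤ r ≤ t`: common increasing heights, inner vertices in `R`,
disjoint open arcs. -/
structure Band {ι : Type} (A : Finset ι) (x : ι → ℤ → E) (u : E) (R : Set E) (s t : ℤ)
    (lev : ℤ → ℝ) : Prop where
  ht : ∀ a ∈ A, ∀ r, s ≤ r → r ≤ t → ⟪x a r, u⟫ = lev r
  inc : ∀ r, s ≤ r → r < t → lev r < lev (r + 1)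
  mem : ∀ a ∈ A, ∀ r, s < r → r < t → x a r ∈ R
  dis : ∀ a ∈ A, ∀ a' ∈ A, a ≠ a' → ∀ r, s ≤ r → r < t → ∀ l : ℝ, 0 ≤ l → l ≤ 1 →
    (s < r ∨ 0 < l) → (r + 1 < t ∨ l < 1) →
    x a r + l • (x a (r + 1) - x a r) ≠ x a' r + l • (x a' (r + 1) - x a' r)

/-- `y` has the same ends as `x` and the linear move from `x` to `y` runs through bands. -/
def Move {ι : Type} (A : Finset ι) (x y : ι → ℤ → E) (u : E) (R : Set E) (s t : ℤ)
    (lev : ℤ → ℝ) : Prop :=
  (∀ a r, ¬ (s < r ∧ r < t) → y a r = x a r) ∧ ∀ σ : ℝ, 0 ≤ σ → σ ≤ 1 → ∃ lev' : ℤ → ℝ,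
    lev' s = lev s ∧ lev' t = lev t ∧ Band A (fun a r => x a r + σ • (y a r - x a r)) u R s t lev'

def S_SQZ : Prop := ∀ (ι : Type) (A : Finset ι) (x : ι → ℤ → E) (u c q : E) (R : Set E) (s t : ℤ)
  (lev : ℤ → ℝ) (δ : ℝ), IsOpen R → Convex ℝ R → Band A x u R s t lev → c ∈ R →
  lev s < ⟪c, u⟫ → ⟪c, u⟫ < lev t → ⟪q, u⟫ = 1 → 0 < δ →
  ∃ (y : ι → ℤ → E) (κ : ℝ), 0 < κ ∧ Move A x y u R s t lev ∧
    (∀ a ∈ A, ∀ r, s < r → r < t → ‖y a r - c‖ < δ) ∧
    ∀ a ∈ A, ∀ r, s < r → r + 1 < t → ‖y a (r + 1) - y a r - κ • q‖ < δ * κ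

def S_SURGA : Prop := ∀ (ι : Type) (A : Finset ι) (x : ι → ℤ → E) (u w : E) (R : Set E) (s t : ℤ)
  (lev : ℤ → ℝ), IsOpen R → Convex ℝ R → Band A x u R s t lev → s < t →
  (∀ a ∈ A, x a s ∈ R ∧ x a t ∈ R) → (∀ a ∈ A, ∀ a' ∈ A, ⟪x a s, w⟫ < ⟪x a' t, w⟫) →
  ∃ y : ι → ℤ → E, Move A x y u R s t lev ∧
    ∀ a ∈ A, ∀ r, s ≤ r → r < t → 0 < ⟪y a (r + 1) - y a r, w⟫

theorem sqz_dis {D D' : E} {α β l : ℝ} (hα : 0 < α) (hβ : 0 < β) (h0 : 0 ≤ l) (h1 : l ≤ 1)
    (h : α • D + l • (β • D' - α • D) = 0) :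
    ∃ m : ℝ, 0 ≤ m ∧ m ≤ 1 ∧ (0 < l → 0 < m) ∧ (l < 1 → m < 1) ∧ D + m • (D' - D) = 0 := by
  have hd : 0 < (1 - l) * α + l * β := by
    rcases h0.eq_or_lt with h | h
    · rw [← h]; simpa using hα
    · have := mul_nonneg (sub_nonneg.2 h1) hα.le
      have := mul_pos h hβ
      linarith
  refine ⟨l * β / ((1 - l) * α + l * β), by positivity, ?_, fun h => by positivity, ?_, ?_⟩
  · rw [div_le_one hd]
    have := mul_nonneg (sub_nonneg.2 h1) hα.le
    linarith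
  · intro h
    rw [div_lt_one hd]
    have := mul_pos (sub_pos.2 h) hα
    linarith
  · have e : ((1 - l) * α + l * β) • (D + (l * β / ((1 - l) * α + l * β)) • (D' - D)) =
        α • D + l • (β • D' - α • D) := by
      rw [smul_add, smul_smul, mul_div_cancel₀ _ hd.ne']
      module
    rw [h] at e
    exact (smul_eq_zero.1 e).resolve_left hd.ne'

theorem s_SQZ : S_SQZ := by
  classical
  intro ι A x u c q R s t lev δ hR hcv hB hc h1 h2 hq hδ
  let d : ι → ℤ → E := fun a r => x a r - c - (lev r - ⟪c, u⟫) • q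
  let Y : ℝ → ι → ℤ → E := fun κ a r => c + (κ * (r - s)) • q + (κ * κ) • d a r
  have ev1 : ∀ᶠ κ in 𝓝[>] (0 : ℝ), 0 < κ := self_mem_nhdsWithin
  have ev2 : ∀ᶠ κ in 𝓝[>] (0 : ℝ), ⟪c, u⟫ + κ * (t - s) < lev t := by
    have c1 : Continuous fun κ : ℝ => ⟪c, u⟫ + κ * ((t : ℝ) - s) := by fun_prop
    exact (c1.continuousAt.eventually_lt continuousAt_const (by simpa using h2)).filter_mono
      nhdsWithin_le_nhds
  have ev3 : ∀ᶠ κ in 𝓝[>] (0 : ℝ), ∀ a ∈ A, ∀ r ∈ Finset.Ioo s t,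
      Y κ a r ∈ R ∧ ‖Y κ a r - c‖ < δ ∧ κ * ‖d a (r + 1) - d a r‖ < δ := by
    rw [Filter.eventually_all_finset]
    intro a _
    rw [Filter.eventually_all_finset]
    intro r _
    have c1 : Continuous fun κ : ℝ => Y κ a r := by simp only [Y]; fun_prop
    have c2 : Continuous fun κ : ℝ => ‖Y κ a r - c‖ := by fun_prop
    have c3 : Continuous fun κ : ℝ => κ * ‖d a (r + 1) - d a r‖ := by fun_prop
    have y0 : Y 0 a r = c := by simp [Y]
    refine Eventually.filter_mono nhdsWithin_le_nhds (Eventually.and ?_ (Eventually.and ?_ ?_))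
    · exact c1.continuousAt.eventually_mem (hR.mem_nhds (y0 ▸ hc))
    · exact c2.continuousAt.eventually_lt continuousAt_const (by simpa [y0] using hδ)
    · exact c3.continuousAt.eventually_lt continuousAt_const (by simpa using hδ)
  obtain ⟨κ, ⟨hκ, e2⟩, e3⟩ := ((ev1.and ev2).and ev3).exists
  have e3' : ∀ a ∈ A, ∀ r, s < r → r < t →
      Y κ a r ∈ R ∧ ‖Y κ a r - c‖ < δ ∧ κ * ‖d a (r + 1) - d a r‖ < δ :=
    fun a ha r r1 r2 => e3 a ha r (Finset.mem_Ioo.2 ⟨r1, r2⟩)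
  let y : ι → ℤ → E := fun a r => if s < r ∧ r < t then Y κ a r else x a r
  let τ : ℤ → ℝ := fun r => if s < r ∧ r < t then ⟪c, u⟫ + κ * (r - s) else lev r
  have hyi : ∀ a r, s < r → r < t → y a r = Y κ a r := fun a r r1 r2 => if_pos ⟨r1, r2⟩
  have hτ : ∀ r, s ≤ r → r < t → τ r < τ (r + 1) := by
    intro r r1 r2
    have k1 : (0 : ℝ) ≤ (r : ℝ) - s := by have : (s : ℝ) ≤ r := by exact_mod_cast r1
                                          linarith
    have k2 : (r : ℝ) - s < (t : ℝ) - s := by have : (r : ℝ) < t := by exact_mod_cast r2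
                                              linarith
    have k3 := mul_lt_mul_of_pos_left k2 hκ
    have k4 := mul_nonneg hκ.le k1
    simp only [τ]
    split_ifs with a b b
    · push_cast; nlinarith
    · have : r + 1 = t := by omega
      rw [this]; linarith
    · have : r = s := by omega
      subst this
      push_cast; nlinarith
    · exact hB.inc r r1 r2
  refine ⟨y, κ, hκ, ⟨fun a r h => if_neg h, fun σ s0 s1 => ?_⟩, fun a ha r r1 r2 => ?_,
    fun a ha r r1 r2 => ?_⟩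
  · let α : ℤ → ℝ := fun r => if s < r ∧ r < t then 1 - σ + σ * (κ * κ) else 1
    have hα : ∀ r, 0 < α r := by
      intro r
      simp only [α]
      split_ifs
      · rcases s0.eq_or_lt with h | h
        · rw [← h]; norm_num
        · have := mul_pos h (mul_pos hκ hκ); linarith
      · exact one_pos
    have hdiff : ∀ a a' r, (x a r + σ • (y a r - x a r)) - (x a' r + σ • (y a' r - x a' r)) =
        α r • (x a r - x a' r) := by
      intro a a' r
      simp only [α, y, Y, d]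
      split_ifs <;> module
    refine ⟨fun r => lev r + σ * (τ r - lev r), by simp [τ], by simp [τ], ?_, ?_, ?_, ?_⟩
    · intro a ha r r1 r2
      have := hB.ht a ha r r1 r2
      simp only [y, τ, Y, d]
      split_ifs
      · simp only [inner_add_left, inner_sub_left, real_inner_smul_left, this, hq]; ring
      · simp [this]
    · intro r r1 r2
      have a1 := hB.inc r r1 r2
      have a2 := hτ r r1 r2
      rcases s0.eq_or_lt with h | h
      · rw [← h]; simpa using a1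
      · have := mul_pos h (sub_pos.2 a2)
        have := mul_nonneg (sub_nonneg.2 s1) (sub_pos.2 a1).le
        nlinarith
    · intro a ha r r1 r2
      rw [hyi a r r1 r2]
      exact hcv.add_smul_sub_mem (hB.mem a ha r r1 r2) (e3' a ha r r1 r2).1 ⟨s0, s1⟩
    · intro a ha a' ha' hne r r1 r2 l l0 l1 l2 l3 heq
      have d1 := hdiff a a' r
      have d2 := hdiff a a' (r + 1)
      obtain ⟨m, m0, m1, m2, m3, m4⟩ := sqz_dis (D := x a r - x a' r)
        (D' := x a (r + 1) - x a' (r + 1)) (hα r) (hα (r + 1)) l0 l1 (by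
          rw [← d1, ← d2, ← sub_eq_zero.2 heq]; module)
      refine hB.dis a ha a' ha' hne r r1 r2 m m0 m1 (l2.imp_right m2) (l3.imp_right m3) ?_
      rw [← sub_eq_zero, ← m4]; module
  · rw [hyi a r r1 r2]; exact (e3' a ha r r1 r2).2.1
  · rw [hyi a r r1 (by omega), hyi a (r + 1) (by omega) r2]
    have : Y κ a (r + 1) - Y κ a r - κ • q = (κ * κ) • (d a (r + 1) - d a r) := by
      simp only [Y]; push_cast; module
    rw [this, norm_smul, Real.norm_of_nonneg (mul_pos hκ hκ).le]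
    have := mul_lt_mul_of_pos_left (e3' a ha r r1 (by omega)).2.2 hκ
    linarith

theorem Band.lt {ι : Type} {A : Finset ι} {x : ι → ℤ → E} {u : E} {R : Set E} {s t : ℤ}
    {lev : ℤ → ℝ} (h : Band A x u R s t lev) {r r' : ℤ} (h0 : s ≤ r) (h1 : r < r') (h2 : r' ≤ t) :
    lev r < lev r' := by
  induction r', (show r + 1 ≤ r' from h1) using Int.leInduction with
  | base => exact h.inc r h0 (by omega)
  | succ k hk ih => exact (ih (by omega) (by omega)).trans (h.inc k (by omega) (by omega))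

theorem s_SURGA : S_SURGA := by
  classical
  intro ι A x u w R s t lev hR hcv hB hst hend hgap
  rcases A.eq_empty_or_nonempty with hA | hA
  · refine ⟨x, ⟨fun _ _ _ => rfl, fun σ _ _ => ⟨lev, rfl, rfl, by simpa using hB⟩⟩, by simp [hA]⟩
  obtain ⟨a1, ha1, hmax⟩ := A.exists_max_image (fun a => ⟪x a s, w⟫) hA
  obtain ⟨a2, ha2, hmin⟩ := A.exists_min_image (fun a => ⟪x a t, w⟫) hA
  have g1 := hgap a1 ha1 a2 ha2
  have g2 := hgap a1 ha1 a1 ha1
  have g3 := hmin a1 ha1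
  have hl := hB.lt le_rfl hst le_rfl
  have hu : ⟪x a1 t - x a1 s, u⟫ = lev t - lev s := by
    rw [inner_sub_left, hB.ht a1 ha1 t hst.le le_rfl, hB.ht a1 ha1 s le_rfl hst.le]
  obtain ⟨θ, θ0, θ1, hθ⟩ : ∃ θ : ℝ, 0 < θ ∧ θ < 1 ∧
      θ * (⟪x a1 t, w⟫ - ⟪x a1 s, w⟫) = (⟪x a2 t, w⟫ - ⟪x a1 s, w⟫) / 2 := by
    refine ⟨(⟪x a2 t, w⟫ - ⟪x a1 s, w⟫) / 2 / (⟪x a1 t, w⟫ - ⟪x a1 s, w⟫),
      div_pos (by linarith) (by linarith), ?_, div_mul_cancel₀ _ (by linarith)⟩
    rw [div_lt_one (by linarith)]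
    linarith
  let c : E := x a1 s + θ • (x a1 t - x a1 s)
  let q : E := (lev t - lev s)⁻¹ • (x a1 t - x a1 s)
  have hcu : ⟪c, u⟫ = lev s + θ * (lev t - lev s) := by
    simp only [c]
    rw [inner_add_left, real_inner_smul_left, hu, hB.ht a1 ha1 s le_rfl hst.le]
  have hcw : ⟪c, w⟫ = (⟪x a1 s, w⟫ + ⟪x a2 t, w⟫) / 2 := by
    simp only [c]
    rw [inner_add_left, real_inner_smul_left, inner_sub_left, hθ]; ring
  have hqw : 0 < ⟪q, w⟫ := by
    simp only [q]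
    rw [real_inner_smul_left, inner_sub_left]
    exact mul_pos (inv_pos.2 (by linarith)) (by linarith)
  obtain ⟨δ, δ0, δ1, δ2⟩ : ∃ δ : ℝ, 0 < δ ∧ δ * ‖w‖ < ⟪q, w⟫ ∧
      δ * ‖w‖ < (⟪x a2 t, w⟫ - ⟪x a1 s, w⟫) / 2 := by
    have c1 : Continuous fun δ : ℝ => δ * ‖w‖ := by fun_prop
    have e1 : ∀ᶠ δ in 𝓝 (0 : ℝ), δ * ‖w‖ < ⟪q, w⟫ :=
      c1.continuousAt.eventually_lt continuousAt_const (by simpa using hqw)
    have e2 : ∀ᶠ δ in 𝓝 (0 : ℝ), δ * ‖w‖ < (⟪x a2 t, w⟫ - ⟪x a1 s, w⟫) / 2 :=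
      c1.continuousAt.eventually_lt continuousAt_const (by simp only [zero_mul]; linarith)
    have e0 : ∀ᶠ δ in 𝓝[>] (0 : ℝ), 0 < δ := self_mem_nhdsWithin
    exact (e0.and ((e1.and e2).filter_mono nhdsWithin_le_nhds)).exists
  obtain ⟨y, κ, hκ, hmv, hy1, hy2⟩ := s_SQZ ι A x u c q R s t lev δ hR hcv hB
    (hcv.add_smul_sub_mem (hend a1 ha1).1 (hend a1 ha1).2 ⟨θ0.le, θ1.le⟩)
    (by rw [hcu]; nlinarith) (by rw [hcu]; nlinarith)
    (by simp only [q]; rw [real_inner_smul_left, hu]; exact inv_mul_cancel₀ (by linarith)) δ0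
  have hb : ∀ (z : E) (ρ : ℝ), ‖z‖ < ρ → |⟪z, w⟫| ≤ ρ * ‖w‖ := fun z ρ h =>
    (abs_real_inner_le_norm z w).trans (mul_le_mul_of_nonneg_right h.le (norm_nonneg _))
  have hin : ∀ a ∈ A, ∀ r, s < r → r < t → ⟪x a1 s, w⟫ < ⟪y a r, w⟫ ∧ ⟪y a r, w⟫ < ⟪x a2 t, w⟫ := by
    intro a ha r r1 r2
    have := abs_le.1 (hb _ _ (hy1 a ha r r1 r2))
    rw [inner_sub_left, hcw] at this
    constructor <;> linarith [this.1, this.2]
  refine ⟨y, hmv, fun a ha r r1 r2 => ?_⟩
  have ys : y a s = x a s := hmv.1 a s (by omega)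
  have yt : y a t = x a t := hmv.1 a t (by omega)
  have b1 := hmax a ha
  have b2 := hmin a ha
  rcases r1.eq_or_lt with h | h
  · subst h
    rw [inner_sub_left, ys]
    by_cases h' : s + 1 < t
    · linarith [(hin a ha (s + 1) (by omega) h').1]
    · have : s + 1 = t := by omega
      rw [this, yt]
      linarith
  · by_cases h' : r + 1 < t
    · have := abs_le.1 (hb _ _ (hy2 a ha r h h'))
      rw [inner_sub_left, real_inner_smul_left] at this
      have e := mul_lt_mul_of_pos_left δ1 hκ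
      nlinarith [this.1]
    · have : r + 1 = t := by omega
      rw [this, inner_sub_left, yt]
      linarith [(hin a ha r h r2).2]

end Pool.Agent.P.MP_28369d_gt.SB
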