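import Pool.Agent.P.MP_28369d_gt.SB.Defs

/-!
Definitions used in the structure theorem for the superbridge index (problem MP_28369d_gt).
-/

namespace Pool.Agent.P.MP_28369d_gt.SB

open Set
open scoped RealInnerProductSpace

/-- The edges `p, …, q - 1` of `Q` form an arc that is strictly monotone for the height
`x ↦ ⟪x, u⟫`, joins the heights `lo` and `hi`, and lies in `R` except for its two end points. -/
def Arc (Q : Poly) (u : E) (R : Set E) (lo hi : ℝ) (p q : ℤ) : Prop :=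
  p < q ∧ (((∀ i ∈ Ico p q, 0 < ⟪Q.e i, u⟫) ∧ ⟪Q.v p, u⟫ = lo ∧ ⟪Q.v q, u⟫ = hi) ∨
    ((∀ i ∈ Ico p q, ⟪Q.e i, u⟫ < 0) ∧ ⟪Q.v p, u⟫ = hi ∧ ⟪Q.v q, u⟫ = lo)) ∧
  (∀ i ∈ Ico p q, openSegment ℝ (Q.v i) (Q.v (i + 1)) ⊆ R) ∧ ∀ i ∈ Ioo p q, Q.v i ∈ R

/-- `Q` is cut into monotone arcs that lie in `N` pairwise disjoint open convex boxes; each box
lies between two heights and holds at most `k` arcs, all joining these two heights. -/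
def Boxed (Q : Poly) (N k : ℕ) : Prop :=
  ∃ (u : E) (R : Fin N → Set E) (lo hi : Fin N → ℝ) (A : Fin N → Finset (ℤ × ℤ)),
    (∀ j, IsOpen (R j) ∧ Convex ℝ (R j) ∧ (∀ x ∈ R j, lo j < ⟪x, u⟫ ∧ ⟪x, u⟫ < hi j) ∧
      (A j).card ≤ k ∧ ∀ a ∈ A j, Arc Q u (R j) (lo j) (hi j) a.1 a.2) ∧
    (∀ i j, i ≠ j → Disjoint (R i) (R j)) ∧
    ∀ i : ℤ, ∃ j, ∃ a ∈ A j, ∃ m : ℤ, i + m * Q.n ∈ Ico a.1 a.2

end Pool.Agent.P.MP_28369d_gt.SB
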