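import Pool.Agent.P.MP_28369d_gt.SB.Tools
import Pool.Agent.P.MP_28369d_gt.ST.Defs
import Pool.Agent.P.MP_28369d_gt.ST.BaseKeyc
import Pool.Agent.P.MP_28369d_gt.ST.BaseSqz

/-!
Aligned polygons, strands and bundles: definitions and small lemmas.
-/

namespace Pool.Agent.P.MP_28369d_gt.SB

open Set Filter Topology
open scoped RealInnerProductSpace

/-- Every edge joins two consecutive levels; `ρ i` is the number of the level of vertex `i`. -/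
structure Al (P : Poly) (u : E) (ρ : ℤ → ℤ) (lev : ℤ → ℝ) : Prop where
  mono : StrictMono lev
  ht : ∀ i, ⟪P.v i, u⟫ = lev (ρ i)
  step : ∀ i, ρ (i + 1) = ρ i + 1 ∨ ρ (i + 1) = ρ i - 1

/-- Index of the vertex of the strand `a` at level number `r`. -/
def ix (a : ℤ × ℤ) (r : ℤ) : ℤ := a.1 + a.2 * r

/-- Vertex of the strand `a` at level number `r`. -/
def sx (P : Poly) (a : ℤ × ℤ) (r : ℤ) : E := P.v (ix a r)

/-- Index of the edge of the strand `a` between the levels `r` and `r + 1`. -/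
def ed (a : ℤ × ℤ) (r : ℤ) : ℤ := min (ix a r) (ix a (r + 1))

/-- `a` is a strand between the levels `lo` and `hi`. -/
def Std (ρ : ℤ → ℤ) (a : ℤ × ℤ) (lo hi : ℤ) : Prop :=
  (a.2 = 1 ∨ a.2 = -1) ∧ ∀ r, lo ≤ r → r ≤ hi → ρ (ix a r) = r

/-- A region, a set of strands and two level numbers. -/
structure Bd where
  R : Set E
  A : Finset (ℤ × ℤ)
  lo : ℤ
  hi : ℤ

/-- The polygon meets the open convex region exactly in the open arcs of the strands. -/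
structure Good (P : Poly) (u : E) (ρ : ℤ → ℤ) (lev : ℤ → ℝ) (B : Bd) : Prop where
  lt : B.lo < B.hi
  op : IsOpen B.R
  cv : Convex ℝ B.R
  slab : ∀ p ∈ B.R, lev B.lo < ⟪p, u⟫ ∧ ⟪p, u⟫ < lev B.hi
  st : ∀ a ∈ B.A, Std ρ a B.lo B.hi
  ne : ∀ a ∈ B.A, ∀ a' ∈ B.A, a ≠ a' → ∀ s : ℝ, (B.lo : ℝ) < s → s < B.hi →
    pl (sx P a) s ≠ pl (sx P a') s
  mem : ∀ a ∈ B.A, ∀ s : ℝ, (B.lo : ℝ) < s → s < B.hi → pl (sx P a) s ∈ B.R
  only : ∀ θ : ℝ, P.γ θ ∈ B.R → ∃ a ∈ B.A, ∃ s : ℝ, (B.lo : ℝ) < s ∧ s < B.hi ∧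
    P.γ θ = pl (sx P a) s

/-- The regions are pairwise disjoint. -/
def Dis (F : Set Bd) : Prop := ∀ B ∈ F, ∀ B' ∈ F, B ≠ B' → Disjoint B.R B'.R

/-- At most `N` good bundles with at most `k` strands each and disjoint regions. -/
def Fam (P : Poly) (u : E) (ρ : ℤ → ℤ) (lev : ℤ → ℝ) (F : Set Bd) (N k : ℕ) : Prop :=
  F.Finite ∧ F.ncard ≤ N ∧ (∀ B ∈ F, Good P u ρ lev B ∧ B.A.card ≤ k) ∧ Dis F

/-- Every edge of the polygon belongs to a strand of the family. -/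
def Cov (P : Poly) (F : Set Bd) : Prop :=
  ∀ i : ℤ, ∃ B ∈ F, ∃ a ∈ B.A, ∃ r m : ℤ, B.lo ≤ r ∧ r < B.hi ∧ i + m * P.n = ed a r

/-- The bundle `B` is cut into at most `N` bundles with at most `k` strands each. -/
def Dec (P : Poly) (u : E) (ρ : ℤ → ℤ) (lev : ℤ → ℝ) (B : Bd) (N k : ℕ) : Prop :=
  ∃ F, Fam P u ρ lev F N k ∧ (∀ B' ∈ F, B'.R ⊆ B.R) ∧
    ∀ a ∈ B.A, ∀ r, B.lo ≤ r → r < B.hi → ∃ B' ∈ F, a ∈ B'.A ∧ B'.lo ≤ r ∧ r < B'.hi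

/-- The part of the bundle between the levels `s` and `t`. -/
def tcut (u : E) (lev : ℤ → ℝ) (B : Bd) (s t : ℤ) : Bd :=
  ⟨B.R ∩ {p | lev s < ⟪p, u⟫ ∧ ⟪p, u⟫ < lev t}, B.A, s, t⟩

/-- `M` consecutive level intervals over which no plane separates the strands. -/
def Chn (P : Poly) (B : Bd) (M : ℕ) : Prop :=
  ∃ f : ℕ → ℤ, B.lo ≤ f 0 ∧ f M ≤ B.hi ∧
    ∀ j < M, f j < f (j + 1) ∧ FullC B.A (sx P) (f j) (f (j + 1))

/-- The polygon is straight between the edges `i` and `j`. -/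
def Str (P : Poly) (i j : ℤ) : Prop :=
  ∃ m : ℤ, ∀ l ∈ uIcc i (j + m * P.n), ∃ c > (0 : ℝ), P.e l = c • P.e i

/-- General position up to subdivision. -/
def GPa (P : Poly) : Prop := ∀ v : E, v ≠ 0 → ∀ i j k : ℤ, ⟪P.e i, v⟫ = 0 → ⟪P.e j, v⟫ = 0 →
  ⟪P.e k, v⟫ = 0 → Str P i j ∨ Str P i k ∨ Str P j k

/-- Lower bound for the number of maxima in the isotopy class. -/
def LB (P : Poly) (m : ℕ) : Prop :=
  ∀ Q : Poly, Iso P.carrier Q.carrier → ∀ v, Gen Q v → m ≤ Q.nmax v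

/-- New positions `y B a r` of the vertices: same ends, and again a band in the region. -/
def BdH (P : Poly) (u : E) (F : Set Bd) (y : Bd → ℤ × ℤ → ℤ → E) : Prop :=
  ∀ B ∈ F, (∀ a ∈ B.A, y B a B.lo = sx P a B.lo ∧ y B a B.hi = sx P a B.hi) ∧
    ∃ lev' : ℤ → ℝ, Band B.A (y B) u B.R B.lo B.hi lev'

/-- The moved vertices. -/
def MvC (P : Poly) (F : Set Bd) (y : Bd → ℤ × ℤ → ℤ → E) (w : ℤ → E) : Prop :=
  (∀ i, (∀ B ∈ F, P.v i ∉ B.R) → w i = P.v i) ∧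
    ∀ B ∈ F, ∀ a ∈ B.A, ∀ r, B.lo ≤ r → r ≤ B.hi → w (ix a r) = y B a r

/-! ### small lemmas -/

section
variable {P : Poly} {u : E} {ρ : ℤ → ℤ} {lev : ℤ → ℝ} {a : ℤ × ℤ} {B : Bd} {lo hi : ℤ}

theorem pl_neg {V : Type} [AddCommGroup V] [Module ℝ V] (f : ℤ → V) (s : ℝ) :
    pl (fun r => f (-r)) s = pl f (-s) := by
  have h1 := Int.floor_le s
  have h2 := Int.lt_floor_add_one s
  rw [pl_eq f (-⌊s⌋ - 1) (by push_cast; linarith) (by push_cast; linarith), pl, Int.fract,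
    show -(⌊s⌋ + 1) = -⌊s⌋ - 1 by ring, show -⌊s⌋ - 1 + 1 = -⌊s⌋ by ring]
  push_cast
  module

/-- A strand is a piece of the polygon (any sequence `w` of vertices). -/
theorem pl_ix (w : ℤ → E) (h : a.2 = 1 ∨ a.2 = -1) (s : ℝ) :
    pl (fun r => w (ix a r)) s = pl w (a.1 + a.2 * s) := by
  rcases h with h | h
  · simp only [ix, h, one_mul, Int.cast_one]
    rw [add_comm (a.1 : ℝ), pl_add_int]
    simp only [add_comm]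
  · simp only [ix, h, Int.cast_neg, Int.cast_one, neg_mul, one_mul]
    rw [add_comm (a.1 : ℝ), pl_add_int, ← pl_neg]
    simp only [add_comm]

theorem pl_sx (P : Poly) (h : a.2 = 1 ∨ a.2 = -1) (s : ℝ) :
    pl (sx P a) s = P.γ (a.1 + a.2 * s) := pl_ix P.v h s

theorem ed_pos (h : a.2 = 1) (r : ℤ) : ed a r = ix a r ∧ ed a r + 1 = ix a (r + 1) := by
  simp only [ed, ix, h]; omega

theorem ed_neg (h : a.2 = -1) (r : ℤ) : ed a r = ix a (r + 1) ∧ ed a r + 1 = ix a r := by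
  simp only [ed, ix, h]; omega

theorem e_ed (P : Poly) (h : a.2 = 1 ∨ a.2 = -1) (r : ℤ) :
    P.e (ed a r) = (a.2 : ℝ) • (sx P a (r + 1) - sx P a r) := by
  rcases h with h | h
  · rw [Poly.e, (ed_pos h r).2, (ed_pos h r).1, h]; simp [sx]
  · rw [Poly.e, (ed_neg h r).2, (ed_neg h r).1, h]; simp [sx]

/-- A parameter on the edge `ed a r` is a parameter of the strand. -/
theorem on_ed (h : a.2 = 1 ∨ a.2 = -1) {r : ℤ} {θ : ℝ} (h0 : (ed a r : ℝ) ≤ θ)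
    (h1 : θ ≤ ed a r + 1) : ∃ s : ℝ, (r : ℝ) ≤ s ∧ s ≤ r + 1 ∧ θ = a.1 + a.2 * s := by
  rcases h with h | h
  · rw [(ed_pos h r).1, ix, h] at h0 h1
    push_cast at h0 h1
    exact ⟨θ - a.1, by linarith, by linarith, by rw [h]; push_cast; ring⟩
  · rw [(ed_neg h r).1, ix, h] at h0 h1
    push_cast at h0 h1
    exact ⟨a.1 - θ, by linarith, by linarith, by rw [h]; push_cast; ring⟩

theorem Std.mono (h : Std ρ a lo hi) {s t : ℤ} (h1 : lo ≤ s) (h2 : t ≤ hi) : Std ρ a s t :=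
  ⟨h.1, fun r a b => h.2 r (h1.trans a) (b.trans h2)⟩

theorem Al.per (h : Al P u ρ lev) (i : ℤ) : ρ (i + P.n) = ρ i :=
  h.mono.injective (by rw [← h.ht, ← h.ht, P.per])

theorem Al.sgn (h : Al P u ρ lev) (i : ℤ) : 0 < ((ρ (i + 1) - ρ i : ℤ) : ℝ) * ⟪P.e i, u⟫ := by
  rw [Poly.e, inner_sub_left, h.ht, h.ht]
  rcases h.step i with c | c <;> rw [c]
  · have := h.mono (lt_add_one (ρ i)); push_cast; linarith
  · have := h.mono (sub_one_lt (ρ i)); push_cast; linarith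

theorem Al.gen (h : Al P u ρ lev) : Gen P u := fun i c => by
  have := h.sgn i
  rw [c, mul_zero] at this
  exact lt_irrefl _ this

theorem Al.pl_mono (h : Al P u ρ lev) : StrictMono (pl lev) :=
  fun _ _ c => pl_lt lev c fun i _ _ => h.mono (lt_add_one i)

theorem Al.ht_sx (h : Al P u ρ lev) (ha : Std ρ a lo hi) {r : ℤ} (h1 : lo ≤ r) (h2 : r ≤ hi) :
    ⟪sx P a r, u⟫ = lev r := by rw [sx, h.ht, ha.2 r h1 h2]

/-- Height of a point of a strand. -/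
theorem Al.ht_pl (h : Al P u ρ lev) (ha : Std ρ a lo hi) {s : ℝ} (h1 : (lo : ℝ) ≤ s)
    (h2 : s ≤ hi) : ⟪pl (sx P a) s, u⟫ = pl lev s := by
  rcases h2.lt_or_eq with c | c
  · have a1 : lo ≤ ⌊s⌋ := Int.le_floor.2 h1
    have a2 : ⌊s⌋ < hi := Int.floor_lt.2 c
    simp only [pl, inner_add_left, real_inner_smul_left, inner_sub_left, smul_eq_mul,
      h.ht_sx ha a1 a2.le, h.ht_sx ha (r := ⌊s⌋ + 1) (by omega) a2]
  · have a1 : lo ≤ hi := by rw [c] at h1; exact_mod_cast h1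
    rw [c, pl_int, pl_int, h.ht_sx ha a1 le_rfl]

/-- A strand is shorter than the period. -/
theorem Al.len (h : Al P u ρ lev) (ha : Std ρ a lo hi) : hi < lo + P.n := by
  by_contra c
  have h0 := P.pos
  have h1 := ha.2 lo le_rfl (by omega)
  have h2 := ha.2 (lo + P.n) (by omega) (by omega)
  rw [show ix a (lo + P.n) = ix a lo + a.2 * P.n by simp only [ix]; ring, per_zmul h.per, h1] at h2
  omega

theorem Good.vmem (h : Good P u ρ lev B) (ha : a ∈ B.A) {r : ℤ} (h1 : B.lo < r) (h2 : r < B.hi) :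
    sx P a r ∈ B.R := by
  have := h.mem a ha r (by exact_mod_cast h1) (by exact_mod_cast h2)
  rwa [pl_int] at this

/-- The closed arcs lie in the closure of the region. -/
theorem Good.clo (h : Good P u ρ lev B) (ha : a ∈ B.A) {s : ℝ} (h1 : (B.lo : ℝ) ≤ s)
    (h2 : s ≤ B.hi) : pl (sx P a) s ∈ closure B.R := by
  have hl : (B.lo : ℝ) < B.hi := by exact_mod_cast h.lt
  have : s ∈ closure (Ioo (B.lo : ℝ) B.hi) := by rw [closure_Ioo hl.ne]; exact ⟨h1, h2⟩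
  exact map_mem_closure (continuous_pl _) this fun t ht => h.mem a ha t ht.1 ht.2

theorem Good.band (hP : Al P u ρ lev) (h : Good P u ρ lev B) {s t : ℤ} (h1 : B.lo ≤ s)
    (h2 : t ≤ B.hi) : Band B.A (sx P) u B.R s t lev := by
  refine ⟨fun a ha r a1 a2 => hP.ht_sx (h.st a ha) (by omega) (by omega),
    fun r _ _ => hP.mono (lt_add_one r), fun a ha r a1 a2 => h.vmem ha (by omega) (by omega),
    fun a ha a' ha' hne r a1 a2 l l0 l1 b1 b2 => ?_⟩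
  rw [← pl_add _ r l0 l1, ← pl_add _ r l0 l1]
  have c1 : (B.lo : ℝ) ≤ s := by exact_mod_cast h1
  have c2 : (t : ℝ) ≤ B.hi := by exact_mod_cast h2
  have c3 : (s : ℝ) ≤ r := by exact_mod_cast a1
  have c4 : (r : ℝ) + 1 ≤ t := by exact_mod_cast a2
  refine h.ne a ha a' ha' hne _ ?_ ?_
  · rcases b1 with b | b
    · have : (s : ℝ) < r := by exact_mod_cast b
      linarith
    · linarith
  · rcases b2 with b | b
    · have : (r : ℝ) + 1 < t := by exact_mod_cast b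
      linarith
    · linarith

theorem Fam.mono {F : Set Bd} {N k N' k' : ℕ} (h : Fam P u ρ lev F N k) (h1 : N ≤ N')
    (h2 : k ≤ k') : Fam P u ρ lev F N' k' :=
  ⟨h.1, h.2.1.trans h1, fun B hB => ⟨(h.2.2.1 B hB).1, (h.2.2.1 B hB).2.trans h2⟩, h.2.2.2⟩

theorem Dec.mono {N k N' : ℕ} (h : Dec P u ρ lev B N k) (h1 : N ≤ N') : Dec P u ρ lev B N' k :=
  h.imp fun _ c => ⟨c.1.mono h1 le_rfl, c.2⟩

theorem Dec.self {k : ℕ} (h : Good P u ρ lev B) (hk : B.A.card ≤ k) : Dec P u ρ lev B 1 k := by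
  refine ⟨{B}, ⟨finite_singleton _, by simp, ?_, ?_⟩, ?_, fun a ha r h1 h2 => ⟨B, rfl, ha, h1, h2⟩⟩
  · rintro _ rfl; exact ⟨h, hk⟩
  · rintro _ rfl _ rfl c; exact absurd rfl c
  · rintro _ rfl; exact Subset.rfl

end

/-! ### diagrams -/

/-- Signed Wirtinger data. -/
structure SW {G : Type} [Group G] (Q : Poly) (d : E) (μ : ℝ → G) : Prop where
  per : ∀ (τ : ℝ) (k : ℤ), μ (τ + k * Q.n) = μ τ
  rc : ∀ τ, ∀ᶠ τ' in 𝓝[>] τ, μ τ' = μ τ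
  step : ∀ τ, ∃ a, (∀ᶠ τ' in 𝓝[<] τ, μ τ' = a) ∧
    ((∀ τ1 r : ℝ, 0 < r → Q.γ τ1 ≠ Q.γ τ + r • d) → μ τ = a) ∧
    ∀ τ1 r : ℝ, 0 < r → Q.γ τ1 = Q.γ τ + r • d → (∀ i : ℤ, τ ≠ i) ∧ (∀ i : ℤ, τ1 ≠ i) ∧
      (∀ᶠ τ' in 𝓝 τ1, μ τ' = μ τ1) ∧
      ((det3 d (Q.e ⌊τ⌋) (Q.e ⌊τ1⌋) < 0 ∧ μ τ = μ τ1 * a * (μ τ1)⁻¹) ∨
        (0 < det3 d (Q.e ⌊τ⌋) (Q.e ⌊τ1⌋) ∧ μ τ = (μ τ1)⁻¹ * a * μ τ1))

/-- Affine colouring of the diagram with slope `s`. -/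
structure Col {V : Type} [CommRing V] [_root_.Inv V] (Q : Poly) (d : E) (s : V) (a : ℝ → V) : Prop where
  per : ∀ (τ : ℝ) (k : ℤ), a (τ + k * Q.n) = a τ
  rc : ∀ τ, ∀ᶠ τ' in 𝓝[>] τ, a τ' = a τ
  step : ∀ τ, ∃ b, (∀ᶠ τ' in 𝓝[<] τ, a τ' = b) ∧
    ((∀ τ1 r : ℝ, 0 < r → Q.γ τ1 ≠ Q.γ τ + r • d) → a τ = b) ∧
    ∀ τ1 r : ℝ, 0 < r → Q.γ τ1 = Q.γ τ + r • d → (∀ i : ℤ, τ ≠ i) ∧ (∀ i : ℤ, τ1 ≠ i) ∧
      (∀ᶠ τ' in 𝓝 τ1, a τ' = a τ1) ∧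
      ((det3 d (Q.e ⌊τ⌋) (Q.e ⌊τ1⌋) < 0 ∧ a τ = a τ1 + s * (b - a τ1)) ∨
        (0 < det3 d (Q.e ⌊τ⌋) (Q.e ⌊τ1⌋) ∧ a τ = a τ1 + s⁻¹ * (b - a τ1)))

/-- Vertex `i + 1` is a local maximum. -/
def Mx (Q : Poly) (u : E) (i : ℤ) : Prop := 0 < ⟪Q.e i, u⟫ ∧ ⟪Q.e (i + 1), u⟫ < 0

/-- The height increases strictly from the parameter `θ0` to the parameter `θ1`; `ε` is the sign
of `θ1 - θ0`. -/
def Up (Q : Poly) (u : E) (ε : ℤ) (θ0 θ1 : ℝ) : Prop :=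
  (ε = 1 ∨ ε = -1) ∧ 0 < ε * (θ1 - θ0) ∧
    ∀ i : ℤ, (i : ℝ) < max θ0 θ1 → min θ0 θ1 < i + 1 → 0 < ε * ⟪Q.e i, u⟫

/-- The parameter `θ` is a crossing of the projection along `d`. -/
def Cr (Q : Poly) (d : E) (θ : ℝ) : Prop := ∃ θ' r : ℝ, r ≠ 0 ∧ Q.γ θ' = Q.γ θ + r • d

/-- Two arcs: directions, bottom and top parameters. -/
structure Wd where
  ε : ℤ
  ε' : ℤ
  θ0 : ℝ
  θ1 : ℝ
  η0 : ℝ
  η1 : ℝ

def Wd.swap (w : Wd) : Wd := ⟨w.ε', w.ε, w.η0, w.η1, w.θ0, w.θ1⟩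

/-- Two disjoint monotone arcs between the same heights that cross only each other. -/
structure Win (Q : Poly) (u d : E) (w : Wd) : Prop where
  up : Up Q u w.ε w.θ0 w.θ1
  up' : Up Q u w.ε' w.η0 w.η1
  h0 : ⟪Q.γ w.θ0, u⟫ = ⟪Q.γ w.η0, u⟫
  h1 : ⟪Q.γ w.θ1, u⟫ = ⟪Q.γ w.η1, u⟫
  ne : ∀ θ ∈ uIcc w.θ0 w.θ1, ∀ η ∈ uIcc w.η0 w.η1, Q.γ θ ≠ Q.γ η
  cl : ∀ θ ∈ uIcc w.θ0 w.θ1, ∀ θ' r : ℝ, r ≠ 0 → Q.γ θ' = Q.γ θ + r • d →
    ∃ k : ℤ, θ' + k * Q.n ∈ uIcc w.η0 w.η1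
  cl' : ∀ θ ∈ uIcc w.η0 w.η1, ∀ θ' r : ℝ, r ≠ 0 → Q.γ θ' = Q.γ θ + r • d →
    ∃ k : ℤ, θ' + k * Q.n ∈ uIcc w.θ0 w.θ1
  nc : ¬ Cr Q d w.θ0 ∧ ¬ Cr Q d w.θ1 ∧ ¬ Cr Q d w.η0 ∧ ¬ Cr Q d w.η1

/-- A diagram with at most `N` twist regions and at most `N` other crossings. -/
def Dgm (Q : Poly) (u d : E) (N : ℕ) : Prop :=
  ∃ W : Set Wd, W.Finite ∧ W.ncard ≤ N ∧ (∀ w ∈ W, Win Q u d w ∧ w.swap ∈ W) ∧
    (∀ w ∈ W, ∀ w' ∈ W, w ≠ w' → ∀ θ ∈ uIcc w.θ0 w.θ1, ∀ θ' ∈ uIcc w'.θ0 w'.θ1, Q.γ θ ≠ Q.γ θ') ∧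
    {θ | θ ∈ Xs Q d ∧ ∀ w ∈ W, ∀ k : ℤ, θ + k * Q.n ∉ uIcc w.θ0 w.θ1}.ncard ≤ N

/-- The limit position of the vertices when every bundle is shrunk to its centre. -/
structure Lim (P : Poly) (F : Set Bd) (p : Bd → E) (v0 : ℤ → E) : Prop where
  per : ∀ i, v0 (i + P.n) = v0 i
  mem : ∀ B ∈ F, B.A.Nonempty → p B ∈ B.R
  ends : ∀ B ∈ F, ∀ a ∈ B.A, v0 (ix a B.lo) = sx P a B.lo ∧ v0 (ix a B.hi) = sx P a B.hi
  inn : ∀ B ∈ F, ∀ a ∈ B.A, ∀ r, B.lo < r → r < B.hi → v0 (ix a r) = p B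

/-- A polygon with a regular diagram close to the limit position. -/
structure Near (P : Poly) (u d : E) (ρ : ℤ → ℤ) (v0 : ℤ → E) (η : ℝ) (Q : Poly) : Prop where
  n : Q.n = P.n
  iso : Iso P.carrier Q.carrier
  gd : GDg Q d
  cl : ∀ i, ‖Q.v i - v0 i‖ < η
  sgn : ∀ i, 0 < ((ρ (i + 1) - ρ i : ℤ) : ℝ) * ⟪Q.e i, u⟫

/-- Lines parallel to `d` through points near a centre stay away from the other bundles. -/
def Far (F : Set Bd) (p : Bd → E) (v0 : ℤ → E) (d : E) (η : ℝ) : Prop :=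
  ∀ B ∈ F, B.A.Nonempty → ∀ B' ∈ F, B ≠ B' → ∀ a ∈ B'.A, ∀ r, B'.lo ≤ r → r < B'.hi →
    ∀ y0 ∈ segment ℝ (v0 (ix a r)) (v0 (ix a (r + 1))), ∀ (y y' : E) (c : ℝ),
      ‖y - p B‖ < η → ‖y' - y0‖ < η → y' ≠ y + c • d

/-- Position of the strands of `Q` relative to the heights of the centres. -/
def Tub (Q : Poly) (u : E) (F : Set Bd) (p : Bd → E) (κ η : ℝ) : Prop :=
  ∀ B ∈ F, ∀ a ∈ B.A, B.lo + 1 < B.hi →
    (∀ s : ℝ, (B.lo : ℝ) ≤ s → s ≤ B.hi → |⟪pl (sx Q a) s - p B, u⟫| ≤ 2 * κ →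
      ‖pl (sx Q a) s - p B‖ < η) ∧
    (∀ s : ℝ, (B.lo : ℝ) + 1 ≤ s → s + 1 ≤ B.hi → |⟪pl (sx Q a) s - p B, u⟫| < κ) ∧
    ⟪sx Q a B.lo - p B, u⟫ < -(2 * κ) ∧ 2 * κ < ⟪sx Q a B.hi - p B, u⟫

end Pool.Agent.P.MP_28369d_gt.SB
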