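import Pool.Agent.P.MP_28369d_gt.SB.Defs

namespace Pool.Agent.P.MP_28369d_gt.SB

open Set
open scoped RealInnerProductSpace

open Classical in
def S_CENT : Prop := ∀ (ι : Type) (S : Finset ι) (p : ι → E) (u : E), S.Nonempty →
  (∀ i ∈ S, ⟪p i, u⟫ = 1) → ∃ c : E, ⟪c, u⟫ = 1 ∧ ∀ v : E, ⟪c, v⟫ = 0 →
    S.card ≤ 4 * (S.filter fun i => 0 ≤ ⟪p i, v⟫).card

open Classical in
def S_CENT2 : Prop := ∀ (ι : Type) (S1 S2 : Finset ι) (p : ι → E) (u : E), S1.Nonempty →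
  S2.Nonempty → (∀ i ∈ S1, ⟪p i, u⟫ = 1) → (∀ i ∈ S2, ⟪p i, u⟫ = 1) → ∃ v : E, v ≠ 0 ∧
    S1.card ≤ 4 * (S1.filter fun i => 0 ≤ ⟪p i, v⟫).card ∧
    S1.card ≤ 4 * (S1.filter fun i => ⟪p i, v⟫ ≤ 0).card ∧
    S2.card ≤ 4 * (S2.filter fun i => 0 ≤ ⟪p i, v⟫).card ∧
    S2.card ≤ 4 * (S2.filter fun i => ⟪p i, v⟫ ≤ 0).card

theorem cent_common {ι : Type} [DecidableEq ι] (S : Finset ι) (hS : S.Nonempty)
    (I : Finset (Finset ι)) (hI : I.card ≤ 4) (h : ∀ A ∈ I, A ⊆ S ∧ 3 * S.card < 4 * A.card) :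
    ∃ i ∈ S, ∀ A ∈ I, i ∈ A := by
  by_contra hne
  push Not at hne
  have hsub : S ⊆ I.biUnion (fun A => S \ A) := by
    intro i hi
    obtain ⟨A, hA, hiA⟩ := hne i hi
    exact Finset.mem_biUnion.2 ⟨A, hA, Finset.mem_sdiff.2 ⟨hi, hiA⟩⟩
  have h1 : S.card ≤ ∑ A ∈ I, (S \ A).card :=
    (Finset.card_le_card hsub).trans Finset.card_biUnion_le
  have h2 : ∀ A ∈ I, 4 * (S \ A).card ≤ S.card - 1 := by
    intro A hA
    obtain ⟨ha, hb⟩ := h A hA
    have := Finset.card_sdiff_add_card_eq_card ha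
    omega
  have h3 : ∑ A ∈ I, 4 * (S \ A).card ≤ I.card • (S.card - 1) := Finset.sum_le_card_nsmul _ _ _ h2
  rw [← Finset.mul_sum, smul_eq_mul] at h3
  have h4 : I.card * (S.card - 1) ≤ 4 * (S.card - 1) := Nat.mul_le_mul_right _ hI
  have h5 := hS.card_pos
  omega

theorem cent_cvx_lt (v : E) : Convex ℝ {x : E | ⟪x, v⟫ < 0} := by
  have : IsLinearMap ℝ (fun x : E => ⟪x, v⟫) :=
    ⟨fun a b => inner_add_left _ _ _, fun r a => by simp [real_inner_smul_left]⟩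
  exact convex_halfSpace_lt this 0

theorem cent_cvx_eq (v : E) (r : ℝ) : Convex ℝ {x : E | ⟪x, v⟫ = r} := by
  have : IsLinearMap ℝ (fun x : E => ⟪x, v⟫) :=
    ⟨fun a b => inner_add_left _ _ _, fun r a => by simp [real_inner_smul_left]⟩
  exact convex_hyperplane this r

theorem s_CENT : S_CENT := by
  classical
  intro ι S p u hS hu
  let s : Finset (Finset ι) := S.powerset.filter fun A => 3 * S.card < 4 * A.card
  have hH := Convex.helly_theorem' (𝕜 := ℝ) (E := E)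
    (F := fun A : Finset ι => convexHull ℝ (p '' (A : Set ι))) (s := s)
    (fun A _ => convex_convexHull ℝ _) (by
      intro I hI hc
      have hc4 : I.card ≤ 4 := by simpa using hc
      obtain ⟨i, _, hi⟩ := cent_common S hS I hc4 (fun A hA => by
        have := Finset.mem_filter.1 (hI hA)
        exact ⟨Finset.mem_powerset.1 this.1, this.2⟩)
      refine ⟨p i, ?_⟩
      simp only [mem_iInter]
      intro A hA
      exact subset_convexHull ℝ _ ⟨i, hi A hA, rfl⟩)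
  obtain ⟨c, hc⟩ := hH
  simp only [mem_iInter] at hc
  have hpos := hS.card_pos
  refine ⟨c, ?_, ?_⟩
  · have hm := hc S (Finset.mem_filter.2 ⟨Finset.mem_powerset.2 subset_rfl, by omega⟩)
    exact convexHull_min (by rintro _ ⟨i, hi, rfl⟩; exact hu i hi) (cent_cvx_eq u 1) hm
  · intro v hv
    by_contra hlt
    have hsum := Finset.card_filter_add_card_filter_not (s := S) (fun i => 0 ≤ ⟪p i, v⟫)
    have hm := hc (S.filter fun i => ¬ 0 ≤ ⟪p i, v⟫)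
      (Finset.mem_filter.2 ⟨Finset.mem_powerset.2 (Finset.filter_subset _ _), by omega⟩)
    have : c ∈ {x : E | ⟪x, v⟫ < 0} := convexHull_min (by
      rintro _ ⟨i, hi, rfl⟩
      exact not_le.1 (Finset.mem_filter.1 hi).2) (cent_cvx_lt v) hm
    simp only [mem_ofPred_eq] at this
    linarith

theorem cent_orth (a b : E) : ∃ v : E, v ≠ 0 ∧ ⟪a, v⟫ = 0 ∧ ⟪b, v⟫ = 0 := by
  let f : E →ₗ[ℝ] (ℝ × ℝ) := LinearMap.prod (innerₛₗ ℝ a) (innerₛₗ ℝ b)
  have hk : LinearMap.ker f ≠ ⊥ := by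
    apply LinearMap.ker_ne_bot_of_finrank_lt
    simp
  obtain ⟨v, hv, hne⟩ := (Submodule.ne_bot_iff _).1 hk
  have h := LinearMap.mem_ker.1 hv
  refine ⟨v, hne, ?_, ?_⟩
  · simpa [f] using congrArg Prod.fst h
  · simpa [f] using congrArg Prod.snd h

theorem s_CENT2 : S_CENT2 := by
  classical
  intro ι S1 S2 p u h1 h2 hu1 hu2
  obtain ⟨c1, -, hc1⟩ := s_CENT ι S1 p u h1 hu1
  obtain ⟨c2, -, hc2⟩ := s_CENT ι S2 p u h2 hu2
  obtain ⟨v, hv, ha, hb⟩ := cent_orth c1 c2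
  refine ⟨v, hv, hc1 v ha, ?_, hc2 v hb, ?_⟩
  · have := hc1 (-v) (by simp [ha])
    simpa using this
  · have := hc2 (-v) (by simp [hb])
    simpa using this

end Pool.Agent.P.MP_28369d_gt.SB
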