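import Pool.Agent.P.MP_28369d_gt.SB.Defs

/-!
Torus knots and unitary representations of knot groups (problem MP_28369d_gt).
-/

namespace Pool.Agent.P.MP_28369d_gt.SB

/-- The torus knot `T(p, q)` on the standard torus of revolution. -/
def torus (p : ℕ) (q : ℤ) : Set E :=
  Set.range fun t : ℝ => pt ((2 + Real.cos (q * t)) * Real.cos (p * t))
    ((2 + Real.cos (q * t)) * Real.sin (p * t)) (Real.sin (q * t))

/-- The group of the complement of `K` has a representation in `U(2)` with non abelian image. -/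
def U2Rep (K : Set E) : Prop :=
  ∃ (p : (Kᶜ : Set E)) (ρ : FundamentalGroup (Kᶜ : Set E) p →* Matrix.unitaryGroup (Fin 2) ℂ),
    ∃ g h, ρ g * ρ h ≠ ρ h * ρ g

end Pool.Agent.P.MP_28369d_gt.SB
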