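import Pool.Agent.P.MP_28369d_gt.SB.Top
import Pool.Agent.P.MP_28369d_gt.SB.Tools
import Pool.Agent.P.MP_28369d_gt.ST.Defs3

/-!
Definitions and proved toolbox for sums with a torus knot.
-/

namespace Pool.Agent.P.MP_28369d_gt.SB

open Set Filter Topology
open scoped RealInnerProductSpace

section Loc

variable {G G' : Type} [Group G] [Group G']

/-- At all but finitely many points of `K` the local monodromy lies in a conjugate of `⟨m⟩`. -/
def LocM (ω : E → E → G) (K : Set E) (m : G) : Prop :=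
  ∃ X : Set E, X.Finite ∧ ∀ x ∈ K, x ∉ X →
    ∃ N ∈ 𝓝 x, ∃ g : G, Red ω (N \ K) (Subgroup.zpowers (g * m * g⁻¹))

/-- What is used of a meridian element. -/
def Mrd (ω : E → E → G) (K : Set E) (m : G) : Prop :=
  Subgroup.normalClosure {m} = ⊤ ∧
    ∀ m', LocM ω K m' → ∃ g : G, g * m * g⁻¹ ∈ Subgroup.zpowers m'

variable {ω : E → E → G} {U K : Set E} {m : G}

theorem LocM.push (hm : LocM ω K m) (h : E ≃ₜ E) : LocM (push h ω) (h '' K) m := by
  obtain ⟨X, h1, h2⟩ := hm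
  refine ⟨h '' X, h1.image _, ?_⟩
  rintro _ ⟨x, hx, rfl⟩ hX
  obtain ⟨N, a, g, c⟩ := h2 x hx fun hc => hX ⟨x, hc, rfl⟩
  refine ⟨h '' N, h.isOpenMap.image_mem_nhds a, g, ?_⟩
  rw [← image_sdiff h.injective]; exact c.push h

theorem Full.map (h : Full ω U) (φ : G →* G') (hφ : Function.Surjective φ) :
    Full (fun p p' => φ (ω p p')) U := by
  intro p hp S hS g g' hg
  obtain ⟨g, rfl⟩ := hφ g
  obtain ⟨g', rfl⟩ := hφ g'
  refine h p hp (fun x k => S x (φ k)) (fun x hx => ?_) g g' hg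
  filter_upwards [hS x hx] with y a k
  rw [map_mul]; exact a _

/-- Transport of an invariant set along a path with a flat section. -/
theorem Inv.path {S : E → G → Prop} (hS : Inv ω U S) {c : ℝ → E} (hc : Continuous c)
    {I : Set ℝ} (hI : IsPreconnected I) (hU : ∀ t ∈ I, c t ∈ U) {F : ℝ → G}
    (hF : ∀ t ∈ I, ∀ᶠ t' in 𝓝 t, F t' = F t * ω (c t) (c t')) (g : G) {t t' : ℝ} (ht : t ∈ I)
    (ht' : t' ∈ I) : S (c t) (g * F t) ↔ S (c t') (g * F t') := by
  refine iff_of_eq (const_of_ev' (F := fun t => S (c t) (g * F t)) hI (fun x hx => ?_) ht ht')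
  filter_upwards [hc.continuousAt.eventually (hS _ (hU x hx)), hF x hx] with y a b
  rw [b, eq_iff_iff, a, mul_assoc]

/-- Full monodromy from invariance under generators. -/
theorem fullAt_of_gen {p : E} {A : Set G} (hA : Subgroup.closure A = ⊤)
    (h : ∀ S, Inv ω U S → ∀ a ∈ A, ∀ g, S p g ↔ S p (g * a)) : FullAt ω U p := by
  intro S hS g g' hg
  have key : ∀ k ∈ Subgroup.closure A, ∀ g, S p g ↔ S p (g * k) := by
    intro k hk
    induction hk using Subgroup.closure_induction with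
    | mem x hx => exact h S hS x hx
    | one => simp
    | mul x y _ _ hx hy => intro g; rw [hx, hy, mul_assoc]
    | inv x _ hx => intro g; rw [hx (g * x⁻¹)]; simp
  have := (key (g⁻¹ * g') (hA ▸ Subgroup.mem_top _) g).1 hg
  simpa using this

end Loc

/-! ### lifts of the argument -/

/-- `θ` is an argument of `a`. -/
def Lf (θ : ℝ) (a : ℂ) : Prop := a = ‖a‖ * Complex.exp (θ * Complex.I)

/-- The sheet of the argument `θ`. -/
noncomputable def wn (θ : ℝ) (a : ℂ) : ℤ := ⌊(θ - a.arg) / (2 * Real.pi)⌋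

/-- The change of sheet from `a` to a nearby `b`. -/
noncomputable def cz (a b : ℂ) : ℤ := wn (a.arg + (b / a).arg) b

theorem lf_arg (a : ℂ) : Lf a.arg a := (Complex.norm_mul_exp_arg_mul_I a).symm

theorem Lf.mul {θ θ' : ℝ} {a b : ℂ} (h : Lf θ a) (h' : Lf θ' b) : Lf (θ + θ') (a * b) := by
  unfold Lf at *
  rw [norm_mul]; push_cast
  rw [add_mul, Complex.exp_add]
  linear_combination (‖b‖ * Complex.exp (θ' * Complex.I)) * h + a * h'

theorem lf_polar {r : ℝ} (hr : 0 ≤ r) (θ : ℝ) : Lf θ (r * Complex.exp (θ * Complex.I)) := by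
  unfold Lf
  rw [norm_mul, Complex.norm_exp_ofReal_mul_I, Complex.norm_real, Real.norm_of_nonneg hr, mul_one]

theorem lf_div {θ : ℝ} {a : ℂ} (h : Lf θ a) (ha : a ≠ 0) (b : ℂ) : Lf (θ + (b / a).arg) b := by
  have := h.mul (lf_arg (b / a))
  rwa [mul_div_cancel₀ _ ha] at this

theorem Lf.diff {θ θ' : ℝ} {a : ℂ} (h : Lf θ a) (h' : Lf θ' a) (ha : a ≠ 0) :
    ∃ k : ℤ, θ = θ' + k * (2 * Real.pi) := by
  have h0 : ((‖a‖ : ℝ) : ℂ) ≠ 0 := by simpa using ha
  obtain ⟨k, hk⟩ := Complex.exp_eq_exp_iff_exists_int.1 (mul_left_cancel₀ h0 (h.symm.trans h'))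
  refine ⟨k, ?_⟩
  have := congrArg Complex.im hk
  simpa using this

theorem wn_add (θ : ℝ) (a : ℂ) (k : ℤ) : wn (θ + k * (2 * Real.pi)) a = wn θ a + k := by
  unfold wn
  rw [← Int.floor_add_intCast]
  congr 1
  field_simp
  ring

theorem wn_arg (a : ℂ) : wn a.arg a = 0 := by simp [wn]

theorem Lf.wn_spec {θ : ℝ} {a : ℂ} (h : Lf θ a) (ha : a ≠ 0) :
    θ = a.arg + wn θ a * (2 * Real.pi) := by
  obtain ⟨k, hk⟩ := h.diff (lf_arg a) ha
  rw [hk, wn_add, wn_arg, zero_add]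

theorem contAt_lift {X : Type} [TopologicalSpace X] {Z : X → ℂ} {x : X} (hZ : ContinuousAt Z x)
    {a : ℂ} (h : Z x / a ∈ Complex.slitPlane) (θ : ℝ) :
    ContinuousAt (fun y => θ + (Z y / a).arg) x :=
  continuousAt_const.add
    (ContinuousAt.comp (f := fun y => Z y / a) (Complex.continuousAt_arg h) (hZ.div_const a))

theorem wn_ev {X : Type} [TopologicalSpace X] {Z : X → ℂ} {θ : X → ℝ} {x : X}
    (hZ : ContinuousAt Z x) (h0 : Z x ≠ 0) (hθ : ContinuousAt θ x)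
    (hl : ∀ᶠ y in 𝓝 x, Lf (θ y) (Z y)) :
    ∀ᶠ y in 𝓝 x, wn (θ y) (Z y) = wn (θ x) (Z x) + cz (Z x) (Z y) := by
  have hc := contAt_lift hZ (a := Z x) (by simp [div_self h0]) (θ x)
  have h1 : ContinuousAt (fun y => |θ y - (θ x + (Z y / Z x).arg)|) x := (hθ.sub hc).abs
  have h2 := h1.eventually_lt continuousAt_const
    (show |θ x - (θ x + (Z x / Z x).arg)| < 2 * Real.pi by simp [div_self h0, Real.pi_pos])
  filter_upwards [hl, h2, hZ.eventually_ne h0] with y a b c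
  obtain ⟨k, hk⟩ := a.diff (lf_div hl.self_of_nhds h0 (Z y)) c
  have hk0 : k = 0 := by
    have hp := Real.two_pi_pos
    rw [hk, add_sub_cancel_left, abs_mul, abs_of_pos hp, mul_lt_iff_lt_one_left hp] at b
    exact Int.abs_lt_one_iff.1 (by exact_mod_cast b)
  have e := hl.self_of_nhds.wn_spec h0
  rw [cz, add_comm, ← wn_add]
  congr 1
  rw [hk, hk0]; push_cast; linarith

/-- A nowhere vanishing function that winds once along a loop gives a full system of integers. -/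
theorem czs {U : Set E} (hU : IsOpen U) (hc : IsPreconnected U) {Z : E → ℂ}
    (hZ : ∀ x ∈ U, ContinuousAt Z x ∧ Z x ≠ 0) {c : ℝ → E} {θ : ℝ → ℝ} (cc : Continuous c)
    (cθ : Continuous θ) (c1 : c 1 = c 0) (θ1 : θ 1 = θ 0 + 2 * Real.pi)
    (hl : ∀ t, c t ∈ U ∧ Lf (θ t) (Z (c t))) :
    ∃ ω : E → E → Multiplicative ℤ, LocSys ω U ∧ Full ω U := by
  refine ⟨fun p p' => Multiplicative.ofAdd (cz (Z p) (Z p')), fun x hx => ?_, ?_⟩
  · have h1 : ∀ᶠ y in 𝓝 x, y ∈ U ∧ Z y / Z x ∈ Complex.slitPlane := by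
      refine (hU.eventually_mem hx).and ?_
      exact ((hZ x hx).1.div_const (Z x)).eventually
        (Complex.isOpen_slitPlane.mem_nhds (by simp [div_self (hZ x hx).2]))
    obtain ⟨N, n1, n2, n3⟩ := mem_nhds_iff.1 h1
    refine ⟨N, n2, n3, fun y => Multiplicative.ofAdd (wn ((Z x).arg + (Z y / Z x).arg) (Z y)),
      fun y hy => ?_⟩
    filter_upwards [wn_ev (θ := fun y => (Z x).arg + (Z y / Z x).arg) (hZ y (n1 hy).1).1
      (hZ y (n1 hy).1).2 (contAt_lift (hZ y (n1 hy).1).1 (n1 hy).2 _)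
      (Eventually.of_forall fun z => lf_div (lf_arg _) (hZ x hx).2 _)] with z a
    rw [a, ofAdd_add]
  · refine FullAt.full (p := c 0) (fullAt_of_gen (A := {Multiplicative.ofAdd 1}) ?_ ?_) (hl 0).1 hc
    · rw [eq_top_iff]
      intro k _
      rw [Subgroup.mem_closure_singleton]
      exact ⟨k.toAdd, by rw [← ofAdd_zsmul]; simp⟩
    · rintro S hS _ rfl g
      have := hS.path cc isPreconnected_univ (fun t _ => (hl t).1)
        (F := fun t => Multiplicative.ofAdd (wn (θ t) (Z (c t)))) (fun t _ => by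
          filter_upwards [wn_ev (Z := fun t => Z (c t))
            (ContinuousAt.comp (hZ _ (hl t).1).1 cc.continuousAt) (hZ _ (hl t).1).2
            cθ.continuousAt (Eventually.of_forall fun s => (hl s).2)] with s a
          rw [a, ofAdd_add])
        (g * (Multiplicative.ofAdd (wn (θ 0) (Z (c 0))))⁻¹) (mem_univ 0) (mem_univ 1)
      have e := wn_add (θ 0) (Z (c 0)) 1
      rw [Int.cast_one, one_mul] at e
      rw [c1, θ1, e, ofAdd_add, ← mul_assoc, inv_mul_cancel_right] at this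
      exact this

/-! ### pseudo-reflections -/

section PR

variable {V : Type} [AddCommGroup V] [Module ℂ V]

/-- `σ` fixes a hyperplane and has the further eigenvalue `s`. -/
def PR (σ : (Module.End ℂ V)ˣ) (s : ℂ) : Prop :=
  ∃ (f : V →ₗ[ℂ] ℂ) (α : V), (∀ v, σ.1 v = v + f v • α) ∧ f α = s - 1

theorem un_mul (σ τ : (Module.End ℂ V)ˣ) (v : V) : (σ * τ).1 v = σ.1 (τ.1 v) := rfl

theorem un_inv (σ : (Module.End ℂ V)ˣ) (v : V) : σ.1 (σ⁻¹.1 v) = v := by
  rw [← un_mul, mul_inv_cancel]; rfl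

theorem un_inv' (σ : (Module.End ℂ V)ˣ) (v : V) : σ⁻¹.1 (σ.1 v) = v := by
  rw [← un_mul, inv_mul_cancel]; rfl

theorem PR.conj {σ : (Module.End ℂ V)ˣ} {s : ℂ} (h : PR σ s) (g : (Module.End ℂ V)ˣ) :
    PR (g * σ * g⁻¹) s := by
  obtain ⟨f, α, h1, h2⟩ := h
  refine ⟨f ∘ₗ g⁻¹.1, g.1 α, fun v => ?_, by simp only [LinearMap.comp_apply, un_inv', h2]⟩
  rw [un_mul, un_mul, h1, map_add, map_smul, un_inv, LinearMap.comp_apply]

theorem PR.inv {σ : (Module.End ℂ V)ˣ} {s : ℂ} (h : PR σ s) (hs : s ≠ 0) : PR σ⁻¹ s⁻¹ := by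
  obtain ⟨f, α, h1, h2⟩ := h
  refine ⟨(-s⁻¹) • f, α, fun v => ?_, ?_⟩
  · have : σ.1 (v + ((-s⁻¹) • f) v • α) = v := by
      rw [h1, map_add, map_smul, h2, add_assoc, ← add_smul]
      have : ((-s⁻¹) • f) v + (f v + ((-s⁻¹) • f) v • (s - 1)) = 0 := by
        simp only [LinearMap.smul_apply, smul_eq_mul]; field_simp; ring
      rw [this, zero_smul, add_zero]
    rw [← un_inv' σ (v + _), this]
  · simp only [LinearMap.smul_apply, smul_eq_mul, h2]; field_simp; ring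

/-- The scalar `c` as an invertible endomorphism; it is central. -/
noncomputable def scl (V : Type) [AddCommGroup V] [Module ℂ V] : ℂˣ →* (Module.End ℂ V)ˣ :=
  Units.map (algebraMap ℂ (Module.End ℂ V)).toMonoidHom

theorem scl_apply (c : ℂˣ) (v : V) : (scl V c).1 v = c.1 • v := rfl

theorem scl_comm (c : ℂˣ) (σ : (Module.End ℂ V)ˣ) : Commute (scl V c) σ :=
  Units.ext (Algebra.commutes _ _)

end PR

/-- A representation of dimension `n` without fixed vector in which `m` is a pseudo-reflection. -/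
def Rep (G : Type) [Group G] (m : G) (n : ℕ) (s : ℂ) : Prop :=
  ∃ (V : Type) (_ : AddCommGroup V) (_ : Module ℂ V) (_ : FiniteDimensional ℂ V)
    (ρ : G →* (Module.End ℂ V)ˣ), Module.finrank ℂ V = n ∧ PR (ρ m) s ∧
      ∀ v, (∀ g, (ρ g).1 v = v) → v = 0

def RefAll (K : Set E) (n : ℕ) : Prop :=
  ∃ (G : Type) (_ : Group G) (ω : E → E → G), LocSys ω Kᶜ ∧ Full ω Kᶜ ∧
    ∀ m, Mrd ω K m → ∀ s : ℂ, s ≠ 0 → s ≠ 1 → Rep G m n s

def RefOne (K : Set E) (n : ℕ) : Prop :=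
  ∃ (G : Type) (_ : Group G) (ω : E → E → G), LocSys ω Kᶜ ∧ Full ω Kᶜ ∧
    ∀ m, Mrd ω K m → ∃ s : ℂ, s ≠ 0 ∧ s ≠ 1 ∧ Rep G m n s

theorem RefAll.one {K : Set E} {n : ℕ} (h : RefAll K n) : RefOne K n := by
  obtain ⟨G, i, ω, a, b, c⟩ := h
  exact ⟨G, i, ω, a, b, fun m hm => ⟨2, two_ne_zero, by norm_num, c m hm 2 two_ne_zero (by norm_num)⟩⟩

/-- A full local system of affine maps with slope group generated by `t`, not abelian. -/
def AffL (K : Set E) (t : ℂ) : Prop :=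
  ∃ (G : Subgroup (Equiv.Perm ℂ)) (ω : E → E → G), LocSys ω Kᶜ ∧ Full ω Kᶜ ∧
    (∀ g : G, ∃ (k : ℤ) (c : ℂ), ∀ x, g.1 x = t ^ k * x + c) ∧
    (∃ (g : G) (c : ℂ), ∀ x, g.1 x = t * x + c) ∧ ∃ g h : G, g * h ≠ h * g

theorem AffL.iso {K L : Set E} {t : ℂ} (h : AffL K t) (hi : Iso K L) : AffL L t := by
  obtain ⟨G, ω, a, b, c⟩ := h
  obtain ⟨g, rfl⟩ := hi.homeo
  exact ⟨G, push g ω, compl_push g K ▸ a.push g, compl_push g K ▸ b.push g, c⟩

theorem sb_iso {K L : Set E} (h : Iso K L) : sb K = sb L := by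
  unfold sb
  congr 1
  ext s
  exact ⟨fun ⟨P, a, b⟩ => ⟨P, h.symm.trans a, b⟩, fun ⟨P, a, b⟩ => ⟨P, h.trans a, b⟩⟩

/-- A subgroup of the integers whose generator normally generates. -/
theorem unit_of_top {m : Multiplicative ℤ} (h : Subgroup.normalClosure {m} = ⊤) :
    m.toAdd = 1 ∨ m.toAdd = -1 := by
  have h1 : Subgroup.normalClosure {m} ≤ Subgroup.zpowers m :=
    Subgroup.normalClosure_le_normal (by simp)
  obtain ⟨k, hk⟩ := h1 (h ▸ Subgroup.mem_top (Multiplicative.ofAdd 1))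
  have h2 : k * m.toAdd = 1 := by simpa using congrArg Multiplicative.toAdd hk
  exact Int.eq_one_or_neg_one_of_mul_eq_one (mul_comm k _ ▸ h2)

/-- The thin conformations of the torus knot. -/
noncomputable def torp (p : ℕ) (q : ℤ) (s t : ℝ) : E :=
  pt ((2 + s * Real.cos (q * t)) * Real.cos (p * t)) ((2 + s * Real.cos (q * t)) * Real.sin (p * t))
    (s * Real.sin (q * t) + (1 - s) * Real.cos (2 * p * t))

noncomputable def torp' (p : ℕ) (q : ℤ) (s t : ℝ) : E :=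
  pt (-(s * q * Real.sin (q * t)) * Real.cos (p * t) - p * (2 + s * Real.cos (q * t)) * Real.sin (p * t))
    (-(s * q * Real.sin (q * t)) * Real.sin (p * t) + p * (2 + s * Real.cos (q * t)) * Real.cos (p * t))
    (s * q * Real.cos (q * t) - 2 * p * (1 - s) * Real.sin (2 * p * t))

end Pool.Agent.P.MP_28369d_gt.SB
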