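import Pool.Agent.P.MP_28369d_gt.ST.Base
import Pool.Agent.P.MP_28369d_gt.ST.BaseTk

/-!
Free products of two groups (normal forms), templates of labels, windows with many arcs.
-/

namespace Pool.Agent.P.MP_28369d_gt.SB

open Set Filter Topology
open scoped RealInnerProductSpace

section FP

open Monoid.CoprodI

/-- The free product of a family of two groups. -/
abbrev FP (M : Bool → Type) [∀ i, Group (M i)] : Type := Monoid.CoprodI M

variable {M : Bool → Type} [∀ i, Group (M i)] {D D' : Type} [Group D] [Group D']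

open Classical in
/-- The normal form. -/
noncomputable def nf (g : FP M) : Word M := Word.equiv g

open Classical in
/-- The first letter of the normal form if it lies in the factor `i`, else one. -/
noncomputable def hd (i : Bool) (g : FP M) : M i := (Word.equivPair i (nf g)).head

/-- The product of the images of the letters of the normal form. -/
noncomputable def sig (lam : ∀ i, M i → D) (g : FP M) : D :=
  ((nf g).toList.map fun l => lam l.1 l.2).prod

/-- The final segments of the normal form. -/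
def suf (g : FP M) : Set (FP M) :=
  {s | ∃ t, t <:+ (nf g).toList ∧ s = (t.map fun l => of l.2).prod}

/-- The letter map respects one and inverses, and products in the factor `true`. -/
def Od (lam : ∀ i, M i → D) : Prop :=
  (∀ i, lam i 1 = 1) ∧ (∀ i m, lam i m⁻¹ = (lam i m)⁻¹) ∧
    ∀ x y, lam true (x * y) = lam true x * lam true y

/-- The subgroup meets all conjugates of the factors trivially. -/
def Fr (H : Subgroup (FP M)) : Prop := ∀ (i : Bool) (m : M i) (g : FP M), g⁻¹ * of m * g ∈ H → m = 1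

/-- The orbit of a point under the factor `i`. -/
def orb {X : Type} [MulAction (FP M) X] (i : Bool) (x : X) : Set X :=
  range fun m : M i => (of m : FP M) • x

/-- The cosets of the final segments of the elements of `H`. -/
def usd (H : Subgroup (FP M)) : Set (FP M ⧸ H) := {x | ∃ h ∈ H, ∃ t ∈ suf h, x = (t : FP M ⧸ H)}

theorem nf_one : nf (1 : FP M) = Word.empty := by
  classical
  exact one_smul (FP M) (Word.empty : Word M)

theorem nf_prod (g : FP M) : (nf g).prod = g := by
  classical
  exact Word.equiv.symm_apply_apply g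

open Classical in
theorem nf_mul (g h : FP M) : nf (g * h) = g • nf h := mul_smul g h (Word.empty : Word M)

theorem nf_of_prod (w : Word M) : nf w.prod = w := by
  classical
  exact Word.equiv.apply_symm_apply w

theorem hd_one (i : Bool) : hd i (1 : FP M) = 1 := by
  classical
  rw [hd, nf_one, Word.equivPair_eq_of_fstIdx_ne (by simp [Word.fstIdx])]

theorem hd_mul (i : Bool) (m : M i) (g : FP M) : hd i (of m * g) = m * hd i g := by
  classical
  rw [hd, nf_mul, Word.equivPair_smul_same]; rfl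

theorem fst_ne {i : Bool} {g : FP M} (h : hd i g = 1) : (nf g).fstIdx ≠ some i := by
  classical
  have := Word.equivPair_head_smul_equivPair_tail (i := i) (nf g)
  rw [show (Word.equivPair i (nf g)).head = 1 from h, map_one, one_smul] at this
  exact this ▸ (Word.equivPair i (nf g)).fstIdx_ne

theorem nf_cons {i : Bool} {m : M i} {g : FP M} (hm : m ≠ 1) (h : hd i g = 1) :
    (nf (of m * g)).toList = ⟨i, m⟩ :: (nf g).toList := by
  classical
  rw [nf_mul, ← Word.cons_eq_smul (h1 := fst_ne h) (h2 := hm)]; rfl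

theorem hd_ne {i j : Bool} {m : M i} {g : FP M} (hij : i ≠ j) (hm : m ≠ 1) (h : hd i g = 1) :
    hd j (of m * g) = 1 := by
  classical
  rw [hd, Word.equivPair_eq_of_fstIdx_ne]
  rw [Word.fstIdx, nf_cons hm h]
  simpa using hij

/-- Every element is its first letter in the factor `i` times an element that does not start in
that factor. -/
theorem hd_dec (i : Bool) (g : FP M) : ∃ t, hd i t = 1 ∧ g = of (hd i g) * t :=
  ⟨of (hd i g)⁻¹ * g, by rw [hd_mul, inv_mul_cancel], by rw [map_inv, mul_inv_cancel_left]⟩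

/-- Induction along the normal form. -/
theorem fp_ind {P : FP M → Prop} (h1 : P 1)
    (h2 : ∀ (i : Bool) (m : M i) (g : FP M), m ≠ 1 → hd i g = 1 → P g → P (of m * g)) (g : FP M) :
    P g := by
  classical
  rw [← nf_prod g]
  induction nf g using Word.consRecOn with
  | empty => exact h1
  | cons i m w a b ih =>
    rw [Word.prod_cons]
    exact h2 i m _ b (by rw [hd, nf_of_prod, Word.equivPair_eq_of_fstIdx_ne a]) ih

theorem sig_one (lam : ∀ i, M i → D) : sig lam 1 = 1 := by simp [sig, nf_one]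

theorem sig_mul {lam : ∀ i, M i → D} (h1 : ∀ i, lam i 1 = 1) {i : Bool} (m : M i) {g : FP M}
    (h : hd i g = 1) : sig lam (of m * g) = lam i m * sig lam g := by
  by_cases hm : m = 1
  · rw [hm, map_one, one_mul, h1, one_mul]
  · rw [sig, nf_cons hm h, List.map_cons, List.prod_cons]; rfl

theorem sig_hom {lam : ∀ i, M i → D} (h1 : ∀ i, lam i 1 = 1) (φ : D →* D') (ψ : FP M →* D')
    (h : ∀ i m, φ (lam i m) = ψ (of m)) (g : FP M) : φ (sig lam g) = ψ g := by
  induction g using fp_ind with
  | h1 => rw [sig_one, map_one, map_one]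
  | h2 i m g _ a ih => rw [sig_mul h1 m a, map_mul, map_mul, h, ih]

theorem suf_one : suf (1 : FP M) = {1} := by
  ext s; simp [suf, nf_one]

theorem suf_mul {i : Bool} {m : M i} {g : FP M} (hm : m ≠ 1) (h : hd i g = 1) :
    suf (of m * g) = insert (of m * g) (suf g) := by
  ext s
  simp only [suf, nf_cons hm h, List.suffix_cons_iff, mem_ofPred_eq, mem_insert_iff]
  have e : ((nf g).toList.map fun l => of l.2).prod = g := nf_prod g
  constructor
  · rintro ⟨t, rfl | a, rfl⟩
    · exact Or.inl (by rw [List.map_cons, List.prod_cons, e])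
    · exact Or.inr ⟨t, a, rfl⟩
  · rintro (rfl | ⟨t, a, rfl⟩)
    · exact ⟨_, Or.inl rfl, by rw [List.map_cons, List.prod_cons, e]⟩
    · exact ⟨t, Or.inr a, rfl⟩

theorem self_mem_suf (g : FP M) : g ∈ suf g := ⟨_, List.suffix_refl _, (nf_prod g).symm⟩

theorem one_mem_suf (g : FP M) : 1 ∈ suf g := ⟨[], List.nil_suffix, rfl⟩

theorem suf_finite (g : FP M) : (suf g).Finite := by
  induction g using fp_ind with
  | h1 => rw [suf_one]; exact finite_singleton _
  | h2 i m g a b ih => rw [suf_mul a b]; exact ih.insert _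

theorem mem_orb {X : Type} [MulAction (FP M) X] (i : Bool) (x : X) : x ∈ orb (M := M) i x :=
  ⟨1, by simp⟩

theorem orb_smul {X : Type} [MulAction (FP M) X] {i : Bool} (m : M i) (x : X) :
    orb (M := M) i ((of m : FP M) • x) = orb (M := M) i x := by
  ext y
  constructor
  · rintro ⟨n, rfl⟩; exact ⟨n * m, by simp [mul_smul]⟩
  · rintro ⟨n, rfl⟩; exact ⟨n * m⁻¹, by simp [mul_smul]⟩

theorem orb_eq {X : Type} [MulAction (FP M) X] {i : Bool} {x y : X} :
    orb (M := M) i y = orb (M := M) i x ↔ ∃ m : M i, y = (of m : FP M) • x :=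
  ⟨fun h => by
    obtain ⟨m, hm⟩ := h ▸ mem_orb (M := M) i y
    exact ⟨m, hm.symm⟩, by rintro ⟨m, rfl⟩; exact orb_smul m x⟩

/-- The factors act freely on the cosets of a subgroup that avoids them. -/
theorem Fr.free {H : Subgroup (FP M)} (h : Fr H) {i : Bool} {m : M i} {x : FP M ⧸ H}
    (e : (of m : FP M) • x = x) : m = 1 := by
  induction x using QuotientGroup.induction_on with
  | H g =>
    rw [MulAction.Quotient.smul_coe, eq_comm, QuotientGroup.eq, smul_eq_mul, ← mul_assoc] at e
    exact h i m g e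

theorem smul_base {G : Type} [Group G] {H : Subgroup G} {h : G} (hh : h ∈ H) :
    h • ((1 : G) : G ⧸ H) = ((1 : G) : G ⧸ H) := by
  rw [MulAction.Quotient.smul_coe, eq_comm, QuotientGroup.eq]
  simpa using hh

/-- A family with two given members. -/
def Two (A C : Type) : Bool → Type
  | true => A
  | false => C

instance (A C : Type) [a : Group A] [c : Group C] : ∀ i, Group (Two A C i)
  | true => a
  | false => c

variable {A C : Type} [Group A] [Group C]

/-- The first factor. -/
def il : A →* FP (Two A C) := of (M := Two A C) (i := true)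

/-- The second factor. -/
def ir : C →* FP (Two A C) := of (M := Two A C) (i := false)

/-- The homomorphism with given restrictions to the factors. -/
def lf2 (f : A →* D) (g : C →* D) : FP (Two A C) →* D :=
  lift (M := Two A C) fun i => match i with
    | true => f
    | false => g

@[simp] theorem lf2_il (f : A →* D) (g : C →* D) (x : A) : lf2 f g (il x) = f x :=
  lift_of (M := Two A C) _ (i := true) x

@[simp] theorem lf2_ir (f : A →* D) (g : C →* D) (y : C) : lf2 f g (ir y) = g y :=
  lift_of (M := Two A C) _ (i := false) y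

theorem two_ind {P : FP (Two A C) → Prop} (h1 : P 1) (h2 : ∀ x g, P g → P (il x * g))
    (h3 : ∀ y g, P g → P (ir y * g)) (g : FP (Two A C)) : P g := by
  induction g using fp_ind with
  | h1 => exact h1
  | h2 i m g _ _ ih =>
    cases i
    · exact h3 m g ih
    · exact h2 m g ih

theorem il_ir_ne {x : A} {y : C} (hx : x ≠ 1) (hy : y ≠ 1) :
    (il x * ir y : FP (Two A C)) ≠ ir y * il x := by
  intro e
  have a : ∀ (i : Bool) (m : Two A C i), hd i (of m : FP (Two A C)) = m := fun i m => by
    have := hd_mul i m (1 : FP (Two A C))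
    rwa [mul_one, hd_one, mul_one] at this
  have b : ∀ (i j : Bool) (m : Two A C i), i ≠ j → m ≠ 1 → hd j (of m : FP (Two A C)) = 1 :=
    fun i j m h hm => by
      have := hd_ne h hm (hd_one i)
      rwa [mul_one] at this
  have h1 : hd true (il x * ir y : FP (Two A C)) = x := by
    have := hd_mul (M := Two A C) true x (ir y)
    rw [show hd true (ir y : FP (Two A C)) = 1 from b false true y (by simp) hy] at this
    exact this.trans (mul_one _)
  have h2 : hd true (ir y * il x : FP (Two A C)) = 1 :=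
    hd_ne (M := Two A C) (i := false) (by simp) hy (b true false x (by simp) hx)
  exact hx (h1.symm.trans (e ▸ h2))

end FP

section Lab

variable {G G' : Type} [Group G] [Group G']

/-- Labels whose relations come from at most `N` pairs and at most `N` subgroups with at most `k`
generators. -/
def Tmp (μ : ℝ → G) (N k : ℕ) : Prop :=
  ∃ (A : Finset (Finset G)) (R : Finset (G × G)), A.card ≤ N ∧ R.card ≤ N ∧
    (∀ s ∈ A, s.card ≤ k ∧ ↑s ⊆ range μ) ∧ (∀ τ, ∀ᶠ τ' in 𝓝[>] τ, μ τ' = μ τ) ∧
    ∀ τ, ∃ a, (∀ᶠ τ' in 𝓝[<] τ, μ τ' = a) ∧ (μ τ = a ∨ ∃ o ∈ range μ,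
      (μ τ = o * a * o⁻¹ ∨ μ τ = o⁻¹ * a * o) ∧ ((o, a) ∈ R ∨
        ∃ s ∈ A, o ∈ Subgroup.closure (s : Set G) ∧ a ∈ Subgroup.closure (s : Set G)))

theorem Tmp.map {μ : ℝ → G} {N k : ℕ} (h : Tmp μ N k) (φ : G →* G') :
    Tmp (fun τ => φ (μ τ)) N k := by
  classical
  obtain ⟨A, R, a1, a2, a3, a4, a5⟩ := h
  refine ⟨A.image (Finset.image φ), R.image (Prod.map φ φ), Finset.card_image_le.trans a1,
    Finset.card_image_le.trans a2, fun s hs => ?_, fun τ => (a4 τ).mono fun _ e => congrArg φ e,
    fun τ => ?_⟩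
  · obtain ⟨t, ht, rfl⟩ := Finset.mem_image.1 hs
    refine ⟨Finset.card_image_le.trans (a3 t ht).1, fun x hx => ?_⟩
    obtain ⟨y, hy, rfl⟩ := Finset.mem_image.1 hx
    obtain ⟨τ, rfl⟩ := (a3 t ht).2 hy
    exact ⟨τ, rfl⟩
  · obtain ⟨a, b1, b2⟩ := a5 τ
    refine ⟨φ a, b1.mono fun _ e => congrArg φ e, b2.imp (fun e => congrArg φ e) ?_⟩
    rintro ⟨_, ⟨t, rfl⟩, c1, c2⟩
    refine ⟨φ (μ t), ⟨t, rfl⟩, c1.imp (fun e => by simp [e]) fun e => by simp [e], c2.imp
      (fun e => Finset.mem_image.2 ⟨_, e, rfl⟩) fun ⟨s, d1, d2, d3⟩ =>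
        ⟨_, Finset.mem_image.2 ⟨s, d1, rfl⟩, ?_⟩⟩
    rw [Finset.coe_image, ← MonoidHom.map_closure]
    exact ⟨⟨_, d2, rfl⟩, _, d3, rfl⟩

/-- Fewer than `p` conjugates of powers of `m` generate a subgroup that avoids the factors. -/
def RZ {M : Bool → Type} [∀ i, Group (M i)] (π : G →* FP M) (m : G) (p : ℕ) : Prop :=
  ∀ s : Finset G, s.card < p → (∀ x ∈ s, ∃ g, x ∈ Subgroup.zpowers (g * m * g⁻¹)) →
    Fr ((Subgroup.closure (s : Set G)).map π)

end Lab

/-- The free product of two cyclic groups. -/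
abbrev ZZ (p q : ℕ) : Type := FP (Two (Multiplicative (ZMod p)) (Multiplicative (ZMod q)))

/-- A local system on the complement with the properties of the torus knot group. -/
def TorL (K : Set E) (p q : ℕ) : Prop :=
  ∃ (G : Type) (_ : Group G) (ω : E → E → G) (m : G) (π : G →* ZZ p q), LocSys ω Kᶜ ∧
    (∀ H, Red ω Kᶜ H → H = ⊤) ∧ LocM ω K m ∧ Function.Surjective π ∧ RZ π m p

/-- Monotone arcs (direction, bottom, top) that cross only each other. -/
structure WinK (Q : Poly) (u d : E) (I : Finset (ℤ × ℝ × ℝ)) : Prop where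
  up : ∀ w ∈ I, Up Q u w.1 w.2.1 w.2.2
  cl : ∀ w ∈ I, ∀ θ ∈ uIcc w.2.1 w.2.2, ∀ θ' r : ℝ, r ≠ 0 → Q.γ θ' = Q.γ θ + r • d →
    ∃ w' ∈ I, ∃ k : ℤ, θ' + k * Q.n ∈ uIcc w'.2.1 w'.2.2
  nc : ∀ w ∈ I, ¬ Cr Q d w.2.1 ∧ ¬ Cr Q d w.2.2

/-- A diagram with at most `N` windows of at most `k` arcs and at most `N` other crossings. -/
def DgK (Q : Poly) (u d : E) (N k : ℕ) : Prop :=
  ∃ W : Finset (Finset (ℤ × ℝ × ℝ)), W.card ≤ N ∧ (∀ I ∈ W, WinK Q u d I ∧ I.card ≤ k) ∧
    {θ | θ ∈ Xs Q d ∧ ∀ I ∈ W, ∀ w ∈ I, ∀ k : ℤ, θ + k * Q.n ∉ uIcc w.2.1 w.2.2}.ncard ≤ N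

end Pool.Agent.P.MP_28369d_gt.SB
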