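import Pool.Agent.P.MP_28369d_gt.ST.Iface
import Pool.Agent.P.MP_28369d_gt.SB.Top

/-!
The two theorems from the interface statements.
-/

namespace Pool.Agent.P.MP_28369d_gt.SB

open Set Filter Topology
open scoped RealInnerProductSpace

theorem lb_br {K : Set E} {Q : Poly} (h : Iso K Q.carrier) : LB Q (br K) := by
  intro R hR u hu
  have hn : 0 < ‖u‖ := norm_pos_iff.2 hu.ne_zero
  exact Nat.sInf_le ⟨R, h.trans hR, ‖u‖⁻¹ • u,
    by rw [norm_smul, norm_inv, norm_norm, inv_mul_cancel₀ hn.ne'], R.nmax_smul u (inv_pos.2 hn)⟩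

theorem thmS (hC : S_CORE) (hP : S_PUB) (n : ℕ) : ∃ N : ℕ, ∀ P : Poly, sb P.carrier = n →
    ∃ Q : Poly, Iso P.carrier Q.carrier ∧ Boxed Q N (max 1 (n - br P.carrier)) := by
  choose N hN using fun e => hC n (e + 1) (by omega)
  refine ⟨(Finset.range (n + 1)).sup N, fun P hn => ?_⟩
  obtain ⟨Q, a1, a2⟩ := exists_sb (Iso.refl P.carrier)
  obtain ⟨R, u, ρ, lev, F, b1, b2, b3, b4⟩ := hN (n - br P.carrier - 1) Q (br P.carrier) (by omega)
    (lb_br a1) fun v => (a2 v).trans hn.le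
  refine ⟨R, a1.trans b1, hP R u ρ lev F _ _ b2 (b3.mono ?_ (by omega)) b4⟩
  exact Finset.le_sup (f := N) (Finset.mem_range.2 (by omega))

end Pool.Agent.P.MP_28369d_gt.SB
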