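import Pool.Agent.P.MP_28369d_gt.ST.Iface2
import Pool.Agent.P.MP_28369d_gt.ST.BaseTop

/-!
The twist bound from the interface statements.
-/

namespace Pool.Agent.P.MP_28369d_gt.SB

open Set Filter Topology
open scoped RealInnerProductSpace

theorem thmC0 (hC : S_CORE) (h1 : S_SQ1) (h2 : S_SQ2) (h3 : S_SQ3) (hD : S_SQD) (m : ℕ) :
    ∃ N : ℕ, ∀ (K : Set E) (P : Poly), Iso K P.carrier → (∀ Q : Poly, Iso K Q.carrier → LB Q m) →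
      sb K ≤ m + 2 → ∃ (S : Poly) (u d : E), Iso K S.carrier ∧ GDg S d ∧ Gen S u ∧ ⟪d, u⟫ = 0 ∧
        Dgm S u d N := by
  obtain ⟨N, hN⟩ := hC (m + 2) 2 (by omega)
  obtain ⟨N', hN'⟩ := hD N
  refine ⟨N', fun K P hP hL hs => ?_⟩
  obtain ⟨Q, a1, a2⟩ := exists_sb hP
  obtain ⟨R, u, ρ, lev, F, b1, b2, b3, b4⟩ := hN Q m le_rfl (hL Q a1) fun v => (a2 v).trans hs
  obtain ⟨p, v0, c1, c2⟩ := h1 R u ρ lev F N 2 b2 b3 b4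
  obtain ⟨d, η, d1, d2, d3, d4⟩ := h2 R u ρ lev F N 2 p v0 b2 b3 c1
  obtain ⟨κ, η', e1, e2, e3, e4⟩ := h3 R u ρ lev F N 2 p v0 η b2 b3 c1 d3
  obtain ⟨S, f1⟩ := c2 d d1 η' e2
  have f2 : Near R u d ρ v0 η S := ⟨f1.n, f1.iso, f1.gd, fun i => (f1.cl i).trans_le e3, f1.sgn⟩
  refine ⟨S, u, d, (a1.trans b1).trans f1.iso, f1.gd, fun i c => ?_, d2,
    hN' R S u d ρ lev F p v0 κ η b2 b3 b4 c1 d1 d2 d4 f2 e1 (e4 S f1.cl)⟩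
  have := f1.sgn i
  rw [c, mul_zero] at this
  exact lt_irrefl _ this

theorem thmF (hC : S_CORE) (h1 : S_SQ1) (h2 : S_SQ2) (h3 : S_SQ3) (hD : S_SQD) (hR : S_REPC)
    (hP : S_COLPI) (hG : S_GAL) (hS : S_SYSC) (m : ℕ) : ∃ C : ℕ, ∀ (K : Set E) (P : Poly),
      Iso K P.carrier → (∀ Q : Poly, Iso K Q.carrier → LB Q m) → sb K ≤ m + 2 →
      ∃ D : Polynomial ℤ, D.support.card ≤ C ∧ Nrm D ∧
        ∀ t : ℂ, AffC K t → Polynomial.aeval t D = 0 := by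
  obtain ⟨N, hN⟩ := thmC0 hC h1 h2 h3 hD m
  obtain ⟨C, hC'⟩ := hS N
  refine ⟨C ^ 2 + 1, fun K P hK hL hs => ?_⟩
  obtain ⟨S, u, d, a1, a2, a3, a4, a5⟩ := hN K P hK hL hs
  by_cases hne : Nonempty {t : ℂ // AffC K t}
  · choose s a g1 g2 g3 g4 using fun t : {t : ℂ // AffC K t} => hR K S u d t a1 a2 a3 a4 t.2
    obtain ⟨t0⟩ := id hne
    obtain ⟨i0, -, h0, -⟩ := g4 t0
    obtain ⟨D, b1, b2, b3⟩ := hC' _ S u d s _ i0 a2 a4 g1 (hP _ S d s a hne a2 g3) a5 h0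
    obtain ⟨D', c1, c2, c3⟩ := hG D
    refine ⟨D', c1.trans ((Nat.pow_le_pow_left b1 2).trans (Nat.le_succ _)),
      c2 b2, fun t ht => ?_⟩
    obtain ⟨j, l, e1, e2⟩ := g2 ⟨t, ht⟩
    exact c3 _ t j l (g1 _) e1 e2 (b3 _ (g4 _))
  · refine ⟨1, ?_, ⟨0, 1, by simp, by simp⟩, fun t ht => absurd ⟨⟨t, ht⟩⟩ hne⟩
    rw [← Polynomial.C_1]
    exact Polynomial.card_support_C_mul_X_pow_le_one (c := (1 : ℤ)) (n := 0) |>.trans' (by simp)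
      |>.trans (by omega)

end Pool.Agent.P.MP_28369d_gt.SB
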