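import Pool.Agent.P.MP_28369d_gt.SB.Defs

/-!
Affine representations of knot groups and polynomials with few terms (problem MP_28369d_gt).
-/

namespace Pool.Agent.P.MP_28369d_gt.SB

/-- The permutation `f` of the complex line is an affine map of slope `s`. -/
def IsAff (f : Equiv.Perm ℂ) (s : ℂ) : Prop := ∃ c : ℂ, ∀ x, f x = s * x + c

/-- A non abelian action by maps `x ↦ t ^ k * x + c`, with `k = 1` for some element. -/
def AffG {G : Type} [Group G] (ρ : G →* Equiv.Perm ℂ) (t : ℂ) : Prop :=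
  (∀ g, ∃ k : ℤ, IsAff (ρ g) (t ^ k)) ∧ (∃ g, IsAff (ρ g) t) ∧ ∃ g h, ρ g * ρ h ≠ ρ h * ρ g

/-- The group of the complement of `K` has such an action. -/
def AffC (K : Set E) (t : ℂ) : Prop :=
  ∃ (p : (Kᶜ : Set E)) (ρ : FundamentalGroup (Kᶜ : Set E) p →* Equiv.Perm ℂ), AffG ρ t

/-- `D(1) = 1` and some `(1 + X) ^ k * D` has at most `C` nonzero coefficients. -/
def FewP (D : Polynomial ℤ) (C : ℕ) : Prop :=
  D.eval 1 = 1 ∧ ∃ k : ℕ, ((1 + Polynomial.X) ^ k * D).support.card ≤ C

/-- The complex number `t` is a root of the integer polynomial `D`. -/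
def Root (D : Polynomial ℤ) (t : ℂ) : Prop := Polynomial.aeval t D = 0

end Pool.Agent.P.MP_28369d_gt.SB
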