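import Pool.Agent.P.MP_28369d_gt.ST.Iface
import Pool.Agent.P.MP_28369d_gt.SB.TSUB

/-! Step AL. -/

namespace Pool.Agent.P.MP_28369d_gt.SB

open Set Filter Topology
open scoped RealInnerProductSpace

namespace ALx

/-- A finite set of reals is a run of consecutive values of an increasing sequence. -/
theorem levels (h3 : S_ENUM) (B : Finset ℝ) (hB : B.Nonempty) : ∃ lev : ℤ → ℝ, StrictMono lev ∧
    (∀ b ∈ B, ∃ r, b = lev r) ∧ ∀ x ∈ B, ∀ y ∈ B, ∀ r, x < lev r → lev r < y → lev r ∈ B := by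
  obtain ⟨T, hT, hd⟩ : ∃ T > (0 : ℝ), ∀ x ∈ B, ∀ y ∈ B, x - y < T :=
    ⟨B.max' hB - B.min' hB + 1, by linarith [B.min'_le _ (B.max'_mem hB)],
      fun x hx y hy => by linarith [B.le_max' x hx, B.min'_le y hy]⟩
  set L : Set ℝ := {x | ∃ k : ℤ, x + k * T ∈ B} with hL
  have hf : (L ∩ Ico 0 T).Finite := by
    refine (B.finite_toSet.image (toIcoMod hT 0)).subset ?_
    rintro x ⟨⟨k, hk⟩, hx⟩
    refine ⟨_, hk, ?_⟩
    rw [← zsmul_eq_mul, toIcoMod_add_zsmul, toIcoMod_eq_self]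
    simpa using hx
  have h0 : 0 < (L ∩ Ico 0 T).ncard := by
    obtain ⟨b, hb⟩ := hB
    obtain ⟨k, h1, h2⟩ := exists_shift hT 0 b
    exact (ncard_pos hf).2 ⟨b + k * T, ⟨-k, by simpa using hb⟩, h1, by simpa using h2⟩
  obtain ⟨c, hc, -, hr⟩ := h3 L T _ hT (fun τ => ⟨fun ⟨k, hk⟩ => ⟨k + 1, by
    convert hk using 1; push_cast; ring⟩, fun ⟨k, hk⟩ => ⟨k - 1, by
    convert hk using 1; push_cast; ring⟩⟩) hf rfl h0
  refine ⟨c, hc, fun b hb => ?_, fun x hx y hy r h1 h2 => ?_⟩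
  · obtain ⟨r, h⟩ : b ∈ range c := hr ▸ ⟨0, by simpa using hb⟩
    exact ⟨r, h.symm⟩
  · obtain ⟨k, hk⟩ : c r ∈ L := hr ▸ mem_range_self r
    have a1 : (k : ℝ) < 1 := lt_of_mul_lt_mul_right (by linarith [hd _ hk x hx]) hT.le
    have a2 : (-1 : ℝ) < k := lt_of_mul_lt_mul_right (by linarith [hd y hy _ hk]) hT.le
    obtain rfl : k = 0 := by
      have b1 : k < 1 := by exact_mod_cast a1
      have b2 : -1 < k := by exact_mod_cast a2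
      omega
    simpa using hk

end ALx

theorem p_AL (hSUBN : S_SUBN) (hENUM : S_ENUM) (hLEVC : S_LEVC) :
    S_AL := by
  classical
  intro P u hG
  have hn : (0 : ℤ) < P.n := by exact_mod_cast P.pos
  set B : Finset ℝ := (Finset.Ico 0 (P.n : ℤ)).image fun i => ⟪P.v i, u⟫ with hB
  have hB1 : ∀ i, ⟪P.v i, u⟫ ∈ B := fun i => Finset.mem_image.2 ⟨_,
    Finset.mem_Ico.2 ⟨Int.emod_nonneg _ hn.ne', Int.emod_lt_of_pos _ hn⟩,
    by rw [SUBx.emod_eq P.per]⟩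
  have hBc : B.card ≤ P.n := Finset.card_image_le.trans (by simp)
  clear_value B
  set A : Set ℝ := {τ | ⟪P.γ τ, u⟫ ∈ B} with hA
  have hAU : A ∩ Ico 0 (P.n : ℝ) = ⋃ l ∈ B, ({τ | ⟪P.γ τ, u⟫ = l} ∩ Ico 0 (P.n : ℝ)) := by
    ext τ
    simp only [hA, mem_inter_iff, mem_ofPred_eq, mem_iUnion, exists_prop]
    exact ⟨fun h => ⟨_, h.1, rfl, h.2⟩, fun ⟨l, a, b, c⟩ => ⟨b ▸ a, c⟩⟩
  have hAf : (A ∩ Ico 0 (P.n : ℝ)).Finite := by
    rw [hAU]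
    exact B.finite_toSet.biUnion fun l _ => (hLEVC P _ hG l).1
  have hAc : (A ∩ Ico 0 (P.n : ℝ)).ncard ≤ P.n * (2 * P.n + 1) := by
    rw [hAU]
    refine (Finset.set_ncard_biUnion_le _ _).trans ((Finset.sum_le_card_nsmul _ _ (2 * P.n + 1)
      fun l _ => (hLEVC P _ hG l).2.trans (by have := P.nmax_le u; omega)).trans ?_)
    exact Nat.mul_le_mul_right _ hBc
  have hint : ∀ i : ℤ, (i : ℝ) ∈ A := fun i => show ⟪P.γ i, u⟫ ∈ B by rw [P.γ_int]; exact hB1 i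
  have hA0 : 0 < (A ∩ Ico 0 (P.n : ℝ)).ncard :=
    (ncard_pos hAf).2 ⟨0, by simpa using hint 0, le_rfl, P.n_pos⟩
  obtain ⟨c, hc, hcp, hcr⟩ := hENUM A P.n _ P.n_pos
    (fun τ => by simp only [hA, mem_ofPred_eq, P.γ_periodic τ]) hAf rfl hA0
  have hin : ∀ k, ∀ σ ∈ Ioo (c k) (c (k + 1)), σ ∉ A := by
    intro k σ hσ hs
    obtain ⟨j, rfl⟩ : σ ∈ range c := hcr ▸ hs
    have a := hc.lt_iff_lt.1 hσ.1
    have b := hc.lt_iff_lt.1 hσ.2
    omega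
  have hed : ∀ k, ∃ p : ℤ, (p : ℝ) ≤ c k ∧ c (k + 1) ≤ p + 1 := fun k =>
    ⟨⌊c k⌋, Int.floor_le _, not_lt.1 fun h =>
      hin k _ ⟨Int.lt_floor_add_one _, h⟩ (by simpa using hint (⌊c k⌋ + 1))⟩
  have hlt : ∀ k, c k < c (k + 1) := fun k => hc (lt_add_one k)
  have hzc : Continuous fun τ => ⟪P.γ τ, u⟫ := by
    have := P.continuous_γ
    fun_prop
  have hmem : ∀ k, ⟪P.γ (c k), u⟫ ∈ B := fun k => show c k ∈ A from hcr ▸ mem_range_self k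
  obtain ⟨lev, hm, hl1, hl2⟩ := ALx.levels hENUM B ⟨_, hB1 0⟩
  choose ρ hρ using fun k => hl1 _ (hmem k)
  obtain ⟨Q, e1, e2, e3⟩ := SUBx.subdiv P hA0 hc hcp hed
  obtain ⟨f1, f2⟩ := hSUBN P Q c hc (by rw [e1]; exact hcp) hed e3
  refine ⟨Q, ρ, lev, e2, ⟨hm, fun i => by rw [e3, hρ], fun i => ?_⟩, f1, e1.trans_le hAc, f2⟩
  have hne : ρ (i + 1) ≠ ρ i := fun h => by
    obtain ⟨p, h1, h2⟩ := hed i
    have h5 := congrArg (fun x : E => ⟪x, u⟫)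
      (P.γ_sub p (h1.trans (hlt i).le) h2 h1 ((hlt i).le.trans h2))
    simp only [inner_sub_left, real_inner_smul_left, hρ, h, sub_self] at h5
    exact mul_ne_zero (sub_pos.2 (hlt i)).ne' (hG p) h5.symm
  by_contra h
  rcases lt_or_gt_of_ne hne with a | a
  · have a1 : ⟪P.γ (c (i + 1)), u⟫ < lev (ρ i - 1) := by rw [hρ]; exact hm (by omega)
    have a2 : lev (ρ i - 1) < ⟪P.γ (c i), u⟫ := by rw [hρ]; exact hm (by omega)
    obtain ⟨σ, h1, h2⟩ := intermediate_value_Ioo' (hlt i).le hzc.continuousOn ⟨a1, a2⟩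
    exact hin i σ h1 (h2.symm.subst (motive := fun x => x ∈ B) (hl2 _ (hmem _) _ (hmem _) _ a1 a2))
  · have a1 : ⟪P.γ (c i), u⟫ < lev (ρ i + 1) := by rw [hρ]; exact hm (by omega)
    have a2 : lev (ρ i + 1) < ⟪P.γ (c (i + 1)), u⟫ := by rw [hρ]; exact hm (by omega)
    obtain ⟨σ, h1, h2⟩ := intermediate_value_Ioo (hlt i).le hzc.continuousOn ⟨a1, a2⟩
    exact hin i σ h1 (h2.symm.subst (motive := fun x => x ∈ B) (hl2 _ (hmem _) _ (hmem _) _ a1 a2))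

end Pool.Agent.P.MP_28369d_gt.SB
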