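import Pool.Agent.P.MP_28369d_gt.ST.Iface

/-! Step CNT. -/

namespace Pool.Agent.P.MP_28369d_gt.SB

open Set Filter Topology
open scoped RealInnerProductSpace

namespace CNTx

theorem drop {f : ℤ → ℝ} (hf : ∀ i, f i ≠ 0) {x y : ℤ} (h : x < y) (hx : 0 < f x) (hy : f y < 0) :
    ∃ i, x ≤ i ∧ i + 1 ≤ y ∧ 0 < f i ∧ f (i + 1) < 0 := by
  obtain ⟨i, ⟨h1, h2, h3⟩, h4⟩ := Int.exists_greatest_of_bdd (P := fun i => x ≤ i ∧ i ≤ y ∧ 0 < f i)
    ⟨y, fun _ h => h.2.1⟩ ⟨x, le_rfl, h.le, hx⟩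
  have h5 : i ≠ y := fun e => by rw [e] at h3; linarith
  refine ⟨i, h1, by omega, h3, lt_of_le_of_ne (not_lt.1 fun c => ?_) (hf _)⟩
  have := h4 (i + 1) ⟨by omega, by omega, c⟩
  omega

end CNTx

theorem p_CNT :
    S_CNT := by
  intro n f g A p q hn pf pg hf hd ho hi
  have sg : ∀ i, (∀ a ∈ A, ∀ m : ℤ, ¬ (p a < i + m * n ∧ i + m * n < q a)) → 0 < g i * f i := by
    intro i h
    by_cases c : ∀ a ∈ A, ∀ m : ℤ, ¬ (p a ≤ i + m * n ∧ i + m * n ≤ q a)
    · rw [ho i c]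
      exact mul_self_pos.2 (hf i)
    push Not at c
    obtain ⟨a, ha, m, c1, c2⟩ := c
    obtain ⟨h1, h2, -⟩ := hi a ha
    have h3 := h1 _ c1 c2
    have h4 := h a ha m
    rw [← per_zmul pg i m, ← per_zmul pf i m]
    obtain e | e : i + m * n = p a ∨ i + m * n = q a := by omega
    · rwa [← e] at h3
    · rw [e] at h3 ⊢
      exact pos_of_mul_pos_left (b := f (p a) * f (p a)) (by nlinarith [mul_pos h3 h2])
        (mul_self_nonneg _)
  have g0 : ∀ i, g i ≠ 0 := fun i e => by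
    have := sg i fun a ha m c => by
      have := (hi a ha).1 _ c.1.le c.2.le
      rw [per_zmul pg, e, zero_mul] at this
      exact lt_irrefl _ this
    rw [e, zero_mul] at this
    exact lt_irrefl _ this
  have nb : ∀ i, 0 < g i → g (i + 1) < 0 → ∀ a ∈ A, ∀ m : ℤ,
      ¬ (p a ≤ i + m * n ∧ i + 1 + m * n ≤ q a) := fun i h1 h2 a ha m c => by
    have h3 := (hi a ha).1 (i + m * n) c.1 (by omega)
    have h4 := (hi a ha).1 (i + 1 + m * n) (by omega) c.2
    rw [per_zmul pg] at h3 h4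
    have := pos_of_mul_pos_right h3 h1.le
    nlinarith
  have ex : ∀ a ∈ A, ∃ i, p a ≤ i ∧ i + 1 ≤ q a ∧ 0 < f i ∧ f (i + 1) < 0 := fun a ha => by
    obtain ⟨-, h2, j, j1, j2, j3⟩ := hi a ha
    rcases (hf (p a)).lt_or_gt with c | c
    · obtain ⟨i, a1, a2⟩ := CNTx.drop hf j2 (by nlinarith) (by nlinarith)
      exact ⟨i, by omega, a2⟩
    · obtain ⟨i, a1, a2, a3⟩ := CNTx.drop hf j1 c (by nlinarith)
      exact ⟨i, a1, by omega, a3⟩
  choose! r r1 r2 r3 r4 using ex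
  have hn' : (0 : ℤ) < n := by exact_mod_cast hn
  have hr : ∀ a, r a % n + r a / n * n = r a := fun a => Int.emod_add_ediv_mul _ _
  refine ⟨g0, ?_⟩
  have inj : InjOn (fun a => r a % n) A := fun a ha a' ha' e =>
    (hd a ha a' ha' (r a) (r a') (r a' / n - r a / n) (r1 a ha) (by have := r2 a ha; omega)
      (r1 a' ha') (by have := r2 a' ha'; omega) (by
        have e' : r a % n = r a' % n := e
        linear_combination hr a' - hr a + e')).1
  rw [mx_of_ne g0, mx_of_ne hf, win, win, ← ncard_coe_finset, ← inj.ncard_image,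
    ← ncard_union_eq ?_ (fin_win _ _) (A.finite_toSet.image _)]
  · refine ncard_le_ncard ?_ (fin_win _ _)
    rintro i (⟨h0, h1, h2, h3⟩ | ⟨a, ha, rfl⟩)
    · have h4 := sg i fun a ha m c => nb i h2 h3 a ha m (by omega)
      have h5 := sg (i + 1) fun a ha m c => nb i h2 h3 a ha m (by omega)
      exact ⟨h0, h1, pos_of_mul_pos_right h4 h2.le, by nlinarith⟩
    · refine ⟨Int.emod_nonneg _ hn'.ne', Int.emod_lt_of_pos _ hn', ?_, ?_⟩
      · rw [← per_zmul pf _ (r a / n), hr]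
        exact r3 a ha
      · rw [← per_zmul pf _ (r a / n), add_right_comm, hr]
        exact r4 a ha
  · rw [disjoint_left]
    rintro _ ⟨-, -, h2, h3⟩ ⟨a, ha, rfl⟩
    refine nb _ h2 h3 a ha (r a / n) ?_
    rw [add_right_comm, hr]
    exact ⟨r1 a ha, r2 a ha⟩

end Pool.Agent.P.MP_28369d_gt.SB
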