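import Pool.Agent.P.MP_28369d_gt.ST.Iface

/-! Step CORE. -/

namespace Pool.Agent.P.MP_28369d_gt.SB

open Set Filter Topology
open scoped RealInnerProductSpace

namespace COREx

theorem gen (P : Poly) : ∃ u, Gen P u := by
  obtain ⟨u, hu⟩ := exists_generic (finite_range_of_per P.pos P.e_per)
    (by rintro _ ⟨i, rfl⟩; exact P.e_ne i)
  exact ⟨u, fun i => hu _ ⟨i, rfl⟩⟩

theorem grow {f : ℕ → ℤ} {M : ℕ} (hf : ∀ j < M, f j < f (j + 1)) : f 0 + M ≤ f M := by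
  induction M with
  | zero => simp
  | succ M ih =>
    have h1 := ih fun j hj => hf j (by omega)
    have h2 := hf M (by omega)
    push_cast
    omega

theorem fin (hWIN : S_WIN) (hREC : S_REC) (hJOIN : S_JOIN) (n e : ℕ) (he : 1 ≤ e) :
    ∃ K : ℕ, ∀ M : ℕ, ∃ N : ℕ, ∀ (Q : Poly) (u : E) (ρ : ℤ → ℤ) (lev : ℤ → ℝ), Al Q u ρ lev →
      Q.nmax u ≤ n → (∀ B, Good Q u ρ lev B → e < B.A.card → B.A.card ≤ K → ¬ Chn Q B M) →
      ∃ F, Fam Q u ρ lev F N e ∧ Cov Q F := by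
  obtain ⟨K, hK⟩ := hWIN n
  refine ⟨K, fun M => ?_⟩
  obtain ⟨N, hN⟩ := hREC K M e he
  refine ⟨K * N, fun Q u ρ lev hA hn hc => ?_⟩
  obtain ⟨F, hF, hC⟩ := hK Q u ρ lev hA hn
  exact hJOIN Q u ρ lev F K K N e hF hC fun B hB =>
    hN Q u ρ lev hA hc B (hF.2.2.1 B hB).1 (hF.2.2.1 B hB).2

end COREx

theorem p_CORE (hGP : S_GP) (hPLAN : S_PLAN) (hAL : S_AL) (hWIN : S_WIN) (hREC : S_REC) (hKEY : S_KEY) (hJOIN : S_JOIN) :
    S_CORE := by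
  intro n e he
  obtain ⟨K, hK⟩ := COREx.fin hWIN hREC hJOIN n e he
  obtain ⟨M, hM⟩ := hKEY n K
  obtain ⟨N1, h1⟩ := hK M
  obtain ⟨N0, h0⟩ := hPLAN n
  obtain ⟨K', hK'⟩ := COREx.fin hWIN hREC hJOIN (N0 * (2 * N0 + 1)) e he
  obtain ⟨N2, h2⟩ := hK' (N0 * (2 * N0 + 1))
  refine ⟨max N1 N2, fun P m hm hL hn => ?_⟩
  by_cases hp : ∃ u : E, u ≠ 0 ∧ ∀ i, ⟪P.e i, u⟫ = 0
  · obtain ⟨w, w0, hw⟩ := hp
    obtain ⟨P1, n1, i1⟩ := h0 P w w0 hw hn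
    obtain ⟨u, hu⟩ := COREx.gen P1
    obtain ⟨Q, ρ, lev, hc, hA, -, hq, -⟩ := hAL P1 u hu
    have hq' : Q.n ≤ N0 * (2 * N0 + 1) := hq.trans (Nat.mul_le_mul n1 (by omega))
    obtain ⟨F, hF, hC⟩ := h2 Q u ρ lev hA ((Q.nmax_le u).trans hq') fun B hB c1 _ hch => by
      obtain ⟨f, f0, f1, hf⟩ := hch
      have a1 := COREx.grow fun j hj => (hf j hj).1
      obtain ⟨a, ha⟩ := Finset.card_pos.1 (show 0 < B.A.card by omega)
      have a2 := hA.len (hB.st a ha)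
      omega
    exact ⟨Q, u, ρ, lev, F, hc ▸ i1, hA, hF.mono (le_max_right _ _) le_rfl, hC⟩
  · obtain ⟨P1, i1, g1, n1⟩ := hGP P fun u hu => by_contra fun c => hp ⟨u, c, hu⟩
    obtain ⟨u, hu⟩ := COREx.gen P1
    obtain ⟨Q, ρ, lev, hc, hA, hq, -, hg⟩ := hAL P1 u hu
    have iq : Iso P.carrier Q.carrier := hc ▸ i1
    have hq' : ∀ v, Q.nmax v ≤ n := fun v => ((hq v).trans (n1 v)).trans (hn v)
    have hL' : LB Q m := fun R hR => hL R (iq.trans hR)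
    obtain ⟨F, hF, hC⟩ := h1 Q u ρ lev hA (hq' u) fun B hB c1 c2 hch => by
      have := hM Q u ρ lev m hA (hg g1) hq' hL' B hB (by omega) c2 hch
      omega
    exact ⟨Q, u, ρ, lev, F, iq, hA, hF.mono (le_max_left _ _) le_rfl, hC⟩

end Pool.Agent.P.MP_28369d_gt.SB
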