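import Pool.Agent.P.MP_28369d_gt.ST.Iface

/-! Step DROP. -/

namespace Pool.Agent.P.MP_28369d_gt.SB

open Set Filter Topology
open scoped RealInnerProductSpace

namespace DROPx

variable {a : ℤ × ℤ} {lo hi : ℤ}

theorem rng (h : a.2 = 1 ∨ a.2 = -1) (hl : lo < hi) {i : ℤ} (h1 : min (ix a lo) (ix a hi) ≤ i)
    (h2 : i ≤ max (ix a lo) (ix a hi) - 1) : ∃ r, lo ≤ r ∧ r < hi ∧ i = ed a r := by
  rcases h with h | h <;> simp only [ix, ed, h] at h1 h2 ⊢
  · exact ⟨i - a.1, by omega, by omega, by omega⟩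
  · exact ⟨a.1 - i - 1, by omega, by omega, by omega⟩

theorem mid (P : Poly) (h : a.2 = 1 ∨ a.2 = -1) (r : ℤ) :
    pl (sx P a) (r + 1 / 2) = P.γ (ed a r + 1 / 2) := by
  rw [pl_sx P h]
  congr 1
  rcases h with h | h
  · rw [(ed_pos h r).1, ix, h]; push_cast; ring
  · rw [(ed_neg h r).1, ix, h]; push_cast; ring

theorem inner_ed (P : Poly) (h : a.2 = 1 ∨ a.2 = -1) (r : ℤ) (w : E) :
    ⟪P.e (ed a r), w⟫ = a.2 * ⟪sx P a (r + 1) - sx P a r, w⟫ := by
  rw [e_ed P h, real_inner_smul_left]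

theorem ends (h : a.2 = 1 ∨ a.2 = -1) (hl : lo < hi) :
    (min (ix a lo) (ix a hi) = ed a lo ∧ max (ix a lo) (ix a hi) - 1 = ed a (hi - 1)) ∨
      (min (ix a lo) (ix a hi) = ed a (hi - 1) ∧ max (ix a lo) (ix a hi) - 1 = ed a lo) := by
  rcases h with h | h <;> simp only [ix, ed, h] <;> omega

theorem sq (h : a.2 = 1 ∨ a.2 = -1) (x y : ℝ) : (a.2 : ℝ) * x * (a.2 * y) = x * y := by
  rcases h with h | h <;> rw [h] <;> push_cast <;> ring

theorem inn {P : Poly} {u : E} {ρ : ℤ → ℤ} {lev : ℤ → ℝ} {B : Bd} (h : Good P u ρ lev B) {k : ℤ}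
    (hk : P.v k ∈ B.R) : ∃ a ∈ B.A, ∃ m : ℤ, min (ix a B.lo) (ix a B.hi) < k + m * P.n ∧
      k + m * P.n < max (ix a B.lo) (ix a B.hi) := by
  obtain ⟨a, ha, s, h1, h2, e⟩ := h.only k (by rwa [P.γ_int])
  have hs := (h.st a ha).1
  rw [pl_sx P hs] at e
  obtain ⟨m, hm⟩ := P.injMod _ _ e
  refine ⟨a, ha, m, ?_⟩
  have h3 : ((k + m * P.n : ℤ) : ℝ) = a.1 + a.2 * s := by rw [hm]; push_cast; ring
  generalize k + m * P.n = l at h3
  rcases hs with c | c <;> simp only [ix, c] at h3 ⊢ <;> push_cast at h3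
  · have a1 : ((a.1 + B.lo : ℤ) : ℝ) < l := by push_cast; linarith
    have a2 : (l : ℝ) < (a.1 + B.hi : ℤ) := by push_cast; linarith
    have b1 : a.1 + B.lo < l := by exact_mod_cast a1
    have b2 : l < a.1 + B.hi := by exact_mod_cast a2
    omega
  · have a1 : ((a.1 - B.hi : ℤ) : ℝ) < l := by push_cast; linarith
    have a2 : (l : ℝ) < (a.1 - B.lo : ℤ) := by push_cast; linarith
    have b1 : a.1 - B.hi < l := by exact_mod_cast a1
    have b2 : l < a.1 - B.lo := by exact_mod_cast a2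
    omega

end DROPx

open DROPx in
theorem p_DROP (hCNT : S_CNT) :
    S_DROP := by
  intro P Q u w ρ lev B hP hB hG hn hout hQ hs
  have hl := hB.lt
  have key := hCNT P.n (fun i => ⟪P.e i, w⟫) (fun i => ⟪Q.e i, w⟫) B.A
    (fun a => min (ix a B.lo) (ix a B.hi)) (fun a => max (ix a B.lo) (ix a B.hi) - 1) P.pos
    (fun i => by simp only [P.e_per]) (fun i => by simp only [← hn, Q.e_per]) hG ?_ ?_ ?_
  · exact ⟨key.1, by rw [Poly.nmax, hn]; exact key.2⟩
  · intro a ha a' ha' i j m h1 h2 h3 h4 e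
    have s1 := hB.st a ha
    have s2 := hB.st a' ha'
    obtain ⟨r, r1, r2, rfl⟩ := rng s1.1 hl h1 h2
    obtain ⟨r', r3, r4, rfl⟩ := rng s2.1 hl h3 h4
    have c1 : (B.lo : ℝ) ≤ r := by exact_mod_cast r1
    have c2 : (r : ℝ) + 1 ≤ B.hi := by exact_mod_cast r2
    have c3 : (B.lo : ℝ) ≤ r' := by exact_mod_cast r3
    have c4 : (r' : ℝ) + 1 ≤ B.hi := by exact_mod_cast r4
    have e1 : pl (sx P a) (r + 1 / 2) = pl (sx P a') (r' + 1 / 2) := by
      rw [mid P s1.1, mid P s2.1, ← e, ← P.γ_per _ m]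
      congr 1
      push_cast
      ring
    have e2 : (r : ℝ) + 1 / 2 = r' + 1 / 2 := hP.pl_mono.injective (by
      rw [← hP.ht_pl s1 (by linarith) (by linarith), ← hP.ht_pl s2 (by linarith) (by linarith), e1])
    obtain rfl : r = r' := by exact_mod_cast add_right_cancel e2
    obtain rfl : a = a' := by
      by_contra c
      exact hB.ne a ha a' ha' c _ (by linarith) (by linarith) e1
    have h0 := P.pos
    exact ⟨rfl, (mul_eq_zero.1 (add_eq_left.1 e)).resolve_right (by omega)⟩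
  · intro i hi
    have a1 : Q.v i = P.v i := hout i fun c => by
      obtain ⟨a, ha, m, h1, h2⟩ := inn hB c
      exact hi a ha m ⟨by omega, by omega⟩
    have a2 : Q.v (i + 1) = P.v (i + 1) := hout (i + 1) fun c => by
      obtain ⟨a, ha, m, h1, h2⟩ := inn hB c
      exact hi a ha m ⟨by omega, by omega⟩
    simp only [Poly.e, a1, a2]
  · intro a ha
    have s1 := (hB.st a ha).1
    obtain ⟨p1, p2, r, r1, r2, p3⟩ := hs a ha
    rw [show B.hi = B.hi - 1 + 1 by ring, add_sub_cancel_right] at p2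
    obtain ⟨x, y, hx, hy, e1, e2⟩ : ∃ x y : ℝ, 0 < x ∧ 0 < y ∧
        ⟪P.e (min (ix a B.lo) (ix a B.hi)), w⟫ = a.2 * x ∧
        ⟪P.e (max (ix a B.lo) (ix a B.hi) - 1), w⟫ = a.2 * y := by
      rcases ends s1 hl with ⟨c1, c2⟩ | ⟨c1, c2⟩ <;> rw [c1, c2, inner_ed P s1, inner_ed P s1]
      · exact ⟨_, _, p1, p2, rfl, rfl⟩
      · exact ⟨_, _, p2, p1, rfl, rfl⟩
    rw [e1, e2]
    refine ⟨fun i h1 h2 => ?_, by rw [sq s1]; positivity, ed a r, ?_, ?_, ?_⟩
    · obtain ⟨t, t1, t2, rfl⟩ := rng s1 hl h1 h2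
      rw [inner_ed Q s1, sq s1]
      exact mul_pos (hQ a ha t t1 t2) hx
    · rcases s1 with c | c <;> simp only [ix, ed, c] <;> omega
    · rcases s1 with c | c <;> simp only [ix, ed, c] <;> omega
    · rw [inner_ed P s1, sq s1]
      exact mul_neg_of_neg_of_pos p3 hx

end Pool.Agent.P.MP_28369d_gt.SB
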