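import Pool.Agent.P.MP_28369d_gt.ST.Iface

/-! Step ELEM. -/

namespace Pool.Agent.P.MP_28369d_gt.SB

open Set Filter Topology
open scoped RealInnerProductSpace

theorem p_ELEM (hPLANE : S_PLANE) :
    S_ELEM := by
  classical
  intro P u ρ lev B k hP h hhi hk
  have hi' : (B.hi : ℝ) = B.lo + 1 := by rw [hhi]; push_cast; rfl
  have key : ∀ a a' : ℤ × ℤ, ∃ (w : E) (c : ℝ), a ∈ B.A → a' ∈ B.A → a ≠ a' → ∀ s : ℝ,
      (B.lo : ℝ) < s → s < B.hi → c < ⟪pl (sx P a) s, w⟫ ∧ ⟪pl (sx P a') s, w⟫ < c := by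
    intro a a'
    by_cases c : a ∈ B.A ∧ a' ∈ B.A ∧ a ≠ a'
    swap
    · exact ⟨0, 0, fun h1 h2 h3 => absurd ⟨h1, h2, h3⟩ c⟩
    obtain ⟨ha, ha', hne⟩ := c
    have l := h.lt
    have e : ∀ b ∈ B.A, ⟪sx P b B.lo, u⟫ = lev B.lo ∧ ⟪sx P b (B.lo + 1), u⟫ = lev (B.lo + 1) :=
      fun b hb => ⟨hP.ht_sx (h.st b hb) le_rfl l.le, hP.ht_sx (h.st b hb) (by omega) (by omega)⟩
    obtain ⟨w, c, h1, -⟩ := hPLANE u (sx P a B.lo) (sx P a (B.lo + 1)) (sx P a' B.lo)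
      (sx P a' (B.lo + 1)) ((e a ha).1.trans (e a' ha').1.symm)
      ((e a ha).2.trans (e a' ha').2.symm)
      (by rw [(e a ha).1, (e a ha).2]; exact hP.mono (lt_add_one _)) fun t t0 t1 => by
        rw [← pl_add _ _ t0.le t1.le, ← pl_add _ _ t0.le t1.le]
        exact h.ne a ha a' ha' hne _ (by linarith) (by linarith)
    refine ⟨w, c, fun _ _ _ s s0 s1 => ?_⟩
    have t0 : 0 < s - B.lo := by linarith
    have t1 : s - B.lo < 1 := by linarith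
    have := h1 _ t0 t1
    rwa [← pl_add _ _ t0.le t1.le, ← pl_add _ _ t0.le t1.le, add_sub_cancel] at this
  choose w c hw using key
  let H : ℤ × ℤ → ℤ × ℤ → Set E := fun a a' =>
    {p | c a a' < ⟪p, w a a'⟫} ∩ {p | ⟪p, w a' a⟫ < c a' a}
  let f : ℤ × ℤ → Bd := fun a => ⟨B.R ∩ ⋂ a' ∈ B.A.erase a, H a a', {a}, B.lo, B.hi⟩
  have lin : ∀ v : E, IsLinearMap ℝ fun p : E => ⟪p, v⟫ := fun v =>
    ⟨fun x y => inner_add_left x y v, fun r x => real_inner_smul_left x v r⟩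
  have mem : ∀ a ∈ B.A, ∀ s : ℝ, (B.lo : ℝ) < s → s < B.hi → pl (sx P a) s ∈ (f a).R :=
    fun a ha s s0 s1 => ⟨h.mem a ha s s0 s1, mem_iInter₂.2 fun a' ha' =>
      have b := Finset.mem_erase.1 ha'
      ⟨(hw a a' ha b.2 b.1.symm s s0 s1).1, (hw a' a b.2 ha b.1 s s0 s1).2⟩⟩
  have dis : ∀ a ∈ B.A, ∀ a' ∈ B.A, a ≠ a' → Disjoint (f a).R (f a').R := fun a ha a' ha' hne =>
    disjoint_left.2 fun p h1 h2 => lt_asymm (a := c a a') (b := ⟪p, w a a'⟫)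
      (mem_iInter₂.1 h1.2 a' (Finset.mem_erase.2 ⟨hne.symm, ha'⟩)).1
      (mem_iInter₂.1 h2.2 a (Finset.mem_erase.2 ⟨hne, ha⟩)).2
  refine ⟨f '' B.A, ⟨B.A.finite_toSet.image f, ?_, ?_, ?_⟩, ?_,
    fun a ha r h1 h2 => ⟨f a, ⟨a, ha, rfl⟩, Finset.mem_singleton_self a, h1, h2⟩⟩
  · exact (ncard_image_le B.A.finite_toSet).trans (ncard_coe_finset _).le
  · rintro _ ⟨a, ha, rfl⟩
    refine ⟨⟨h.lt, h.op.inter (isOpen_biInter_finset fun a' _ => ?_),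
      h.cv.inter (convex_iInter₂ fun a' _ => ?_), fun p hp => h.slab p hp.1, ?_, ?_, ?_, ?_⟩, hk⟩
    · exact (isOpen_lt continuous_const (by fun_prop)).inter
        (isOpen_lt (by fun_prop) continuous_const)
    · exact (convex_halfSpace_gt (lin _) _).inter (convex_halfSpace_lt (lin _) _)
    · intro b hb
      exact Finset.mem_singleton.1 hb ▸ h.st a ha
    · intro b hb b' hb' hne
      exact absurd ((Finset.mem_singleton.1 hb).trans (Finset.mem_singleton.1 hb').symm) hne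
    · intro b hb
      exact Finset.mem_singleton.1 hb ▸ mem a ha
    · intro θ hθ
      obtain ⟨b, hb, s, s0, s1, e⟩ := h.only θ hθ.1
      obtain rfl : a = b := by_contra fun hne =>
        disjoint_left.1 (dis a ha b hb hne) hθ (e ▸ mem b hb s s0 s1)
      exact ⟨a, Finset.mem_singleton_self a, s, s0, s1, e⟩
  · rintro _ ⟨a, ha, rfl⟩ _ ⟨a', ha', rfl⟩ hne
    exact dis a ha a' ha' fun e => hne (congrArg f e)
  · rintro _ ⟨a, -, rfl⟩
    exact inter_subset_left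

end Pool.Agent.P.MP_28369d_gt.SB
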