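import Pool.Agent.P.MP_28369d_gt.ST.Iface

/-! Step HALT. -/

namespace Pool.Agent.P.MP_28369d_gt.SB

open Set Filter Topology
open scoped RealInnerProductSpace

theorem p_HALT :
    S_HALT := by
  rintro P u w ρ lev a lo hi n hP ha hn ⟨p, q, h1, h2⟩
  have hl := hP.len ha
  have hper : ∀ i : ℤ, ⟪P.e (i + P.n), w⟫ = ⟪P.e i, w⟫ := fun i => by
    simp only [Poly.e]
    rw [add_right_comm, P.per, P.per]
  have key : Alt P.n (fun i => ⟪P.e i, w⟫) (n + 1) := by
    rcases ha.1 with c | c
    · refine ⟨fun k => ed a (p k), fun k => ed a (q k), fun k hk => ?_, fun k hk => ?_⟩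
      · obtain ⟨a1, a2, a3, a4, a5⟩ := h1 k hk
        have a0 := (h1 0 (by omega)).1
        simp only [e_ed P ha.1, real_inner_smul_left, c]
        simp only [ed, ix, c]
        exact ⟨by omega, by simpa using a4, by simpa using a5, by omega⟩
      · have := h2 k hk
        simp only [ed, ix, c]
        omega
    · refine ⟨fun k => ed a (q (n - k)), fun k => ed a (p (n - k)), fun k hk => ?_,
        fun k hk => ?_⟩
      · obtain ⟨a1, a2, a3, a4, a5⟩ := h1 (n - k) (by omega)
        have a0 := (h1 (n - 0) (by omega)).2.2.1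
        simp only [e_ed P ha.1, real_inner_smul_left, c]
        simp only [ed, ix, c]
        exact ⟨by omega, by simpa using a5, by simpa using a4, by omega⟩
      · have := h2 (n - (k + 1)) (by omega)
        rw [show n - (k + 1) + 1 = n - k by omega] at this
        simp only [ed, ix, c]
        omega
  have := le_mx_of_alt P.pos hper key
  unfold Poly.nmax at hn
  omega

end Pool.Agent.P.MP_28369d_gt.SB
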