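import Pool.Agent.P.MP_28369d_gt.ST.Iface

/-! Step JOIN. -/

namespace Pool.Agent.P.MP_28369d_gt.SB

open Set Filter Topology
open scoped RealInnerProductSpace

namespace JOINx

theorem ncard_biUnion_le {α β : Type*} (G : α → Set β) (N : ℕ) (F : Set α) (hF : F.Finite) :
    (∀ a ∈ F, (G a).ncard ≤ N) → (⋃ a ∈ F, G a).ncard ≤ F.ncard * N := by
  induction F, hF using Set.Finite.induction_on with
  | empty => intro _; simp
  | @insert a s ha hs ih =>
    intro h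
    rw [Set.biUnion_insert, Set.ncard_insert_of_notMem ha hs]
    have h1 := Set.ncard_union_le (G a) (⋃ x ∈ s, G x)
    have h2 := ih (fun b hb => h b (Set.mem_insert_of_mem _ hb))
    have h3 := h a (Set.mem_insert _ _)
    rw [Nat.add_mul, Nat.one_mul]
    omega

end JOINx

theorem p_JOIN :
    S_JOIN := by
  intro P u ρ lev F K k N e hF hC hD
  obtain ⟨hfin, hcard, -, hdis⟩ := hF
  choose! G hG using hD
  refine ⟨⋃ B ∈ F, G B, ⟨?_, ?_, ?_, ?_⟩, ?_⟩
  · exact hfin.biUnion (fun B hB => (hG B hB).1.1)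
  · exact (JOINx.ncard_biUnion_le G N F hfin (fun B hB => (hG B hB).1.2.1)).trans
      (Nat.mul_le_mul_right N hcard)
  · intro B' hB'
    obtain ⟨B, hB, hB'⟩ := Set.mem_iUnion₂.1 hB'
    exact (hG B hB).1.2.2.1 B' hB'
  · intro C hC C' hC' hne
    obtain ⟨B, hB, hC⟩ := Set.mem_iUnion₂.1 hC
    obtain ⟨B', hB', hC'⟩ := Set.mem_iUnion₂.1 hC'
    by_cases hBB : B = B'
    · subst hBB
      exact (hG B hB).1.2.2.2 C hC C' hC' hne
    · exact (hdis B hB B' hB' hBB).mono ((hG B hB).2.1 C hC) ((hG B' hB').2.1 C' hC')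
  · intro i
    obtain ⟨B, hB, a, ha, r, m, h1, h2, h3⟩ := hC i
    obtain ⟨B', hB', ha', h1', h2'⟩ := (hG B hB).2.2 a ha r h1 h2
    exact ⟨B', Set.mem_iUnion₂.2 ⟨B, hB, hB'⟩, a, ha', r, m, h1', h2', h3⟩

end Pool.Agent.P.MP_28369d_gt.SB
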