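import Pool.Agent.P.MP_28369d_gt.ST.Iface

/-! Step KEY. -/

namespace Pool.Agent.P.MP_28369d_gt.SB

open Set Filter Topology
open scoped RealInnerProductSpace

theorem p_KEY (hHALT : S_HALT) (hNP : S_NP) (hTCUT : S_TCUT) (hSURG : S_SURG) (hDROP : S_DROP) :
    S_KEY := by
  intro n K
  obtain ⟨M, hM⟩ := s_KEYC n K
  refine ⟨M + 2, fun P u ρ lev m hP hG hn hL B hB h2 hK ⟨f, f0, f1, hf⟩ => ?_⟩
  have hf1 : ∀ j < M + 2, f j < f (j + 1) := fun j hj => (hf j hj).1
  have lo : ∀ j ≤ M, B.lo < f (j + 1) := fun j hj =>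
    f0.trans_lt ((hf1 0 (by omega)).trans_le (keyc_mono hf1 (by omega) (by omega)))
  have hi : ∀ j ≤ M, f (j + 1) < B.hi := fun j hj =>
    ((keyc_mono hf1 (show j + 1 ≤ M + 1 by omega) (by omega)).trans_lt
      (hf1 (M + 1) (by omega))).trans_le f1
  obtain ⟨w, s, t, h1, h3, h4, h5, h6, h7⟩ := hM _ B.A (sx P) u (fun j => f (j + 1))
    (finite_range_of_per P.pos P.e_per).toFinset (Finset.card_pos.1 (by omega)) hK
    (fun j hj => hf1 _ (by omega))
    (fun a ha r a1 a2 => by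
      have b1 := lo 0 (by omega)
      have b2 := hi M le_rfl
      rw [inner_sub_left, hP.ht_sx (hB.st a ha) (r := r + 1) (by omega) (by omega),
        hP.ht_sx (hB.st a ha) (r := r) (by omega) (by omega), sub_pos]
      exact hP.mono (lt_add_one r))
    (fun j hj => (hf _ (by omega)).2)
    (fun w a ha => hHALT P u w ρ lev a _ _ n hP
      ((hB.st a ha).mono (lo 0 (by omega)).le (hi M le_rfl).le) (hn w))
    (fun v hv j hj => hNP P u ρ lev B _ _ v hP hG hB h2 (lo j hj.le) (hf1 _ (by omega))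
      (hi (j + 1) hj) (hf _ (by omega)).2 hv)
    (fun z hz => by
      obtain ⟨i, rfl⟩ := (Set.Finite.mem_toFinset _).1 hz
      exact hP.gen i)
  have s0 : B.lo < s := (lo 0 (by omega)).trans_le h1
  have t0 : t < B.hi := h4.trans_lt (hi M le_rfl)
  obtain ⟨Q, q1, q2, q3, q4⟩ := hSURG P u ρ lev B w s t hP hB s0 h3 t0 h7
  obtain ⟨g1, g2⟩ := hDROP P Q u w ρ lev (tcut u lev B s t) hP
    ((hTCUT P u ρ lev B hP hB).1 s t s0.le h3 t0.le)
    (fun i => h5 _ ((Set.Finite.mem_toFinset _).2 ⟨i, rfl⟩)) q1 q3 q4 h6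
  have g3 := hL Q q2 w g1
  have g4 := hn w
  have g5 : (tcut u lev B s t).A.card = B.A.card := rfl
  omega

end Pool.Agent.P.MP_28369d_gt.SB
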