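import Pool.Agent.P.MP_28369d_gt.ST.Iface

/-! Step MOVE. -/

namespace Pool.Agent.P.MP_28369d_gt.SB

open Set Filter Topology
open scoped RealInnerProductSpace

theorem p_MOVE (hMVI : S_MVI) (hFAM : S_FAM) (hPLLIP : S_PLLIP) (hPLEMB : S_PLEMB) :
    S_MOVE := by
  intro P u ρ lev F y hP hG hD hM
  have hex : ∀ p : E, ∃ z : E, ((∀ B ∈ F, p ∉ B.R) → z = p) ∧
      ∀ B ∈ F, ∀ a ∈ B.A, ∀ r, B.lo ≤ r → r ≤ B.hi → p = sx P a r → z = y B a r := by
    intro p
    by_cases c : ∃ B ∈ F, ∃ a ∈ B.A, ∃ r, B.lo < r ∧ r < B.hi ∧ p = sx P a r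
    · obtain ⟨B, hBF, a, ha, r, r1, r2, rfl⟩ := c
      have g := hG B hBF
      have hm := g.vmem ha r1 r2
      refine ⟨y B a r, fun h => absurd hm (h B hBF), fun B' hBF' a' ha' r' s1 s2 he => ?_⟩
      have g' := hG B' hBF'
      obtain rfl : B = B' := by
        by_contra hne
        have h1 := g'.clo ha' (s := r') (by exact_mod_cast s1) (by exact_mod_cast s2)
        rw [pl_int, ← he] at h1
        exact disjoint_left.1 ((hD B hBF B' hBF' hne).closure_right g.op) hm h1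
      obtain rfl : r = r' := hP.mono.injective (by
        rw [← hP.ht_sx (g.st a ha) r1.le r2.le, ← hP.ht_sx (g.st a' ha') s1 s2, he])
      obtain rfl : a = a' := by
        by_contra hne
        exact g.ne a ha a' ha' hne r (by exact_mod_cast r1) (by exact_mod_cast r2)
          (by rw [pl_int, pl_int, he])
      rfl
    · refine ⟨p, fun _ => rfl, fun B hBF a ha r r1 r2 he => ?_⟩
      rw [(hM B hBF).1 a r fun h => c ⟨B, hBF, a, ha, r, h.1, h.2, he⟩, he]
  choose W hW1 hW2 using hex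
  have hwp : ∀ i, W (P.v (i + P.n)) = W (P.v i) := fun i => by rw [P.per]
  have inj : ∀ σ : ℝ, 0 ≤ σ → σ ≤ 1 →
      InjMod (pl fun i => P.v i + σ • (W (P.v i) - P.v i)) P.n := by
    intro σ s0 s1
    refine hMVI P u ρ lev F (fun B a r => sx P a r + σ • (y B a r - sx P a r)) _ hP hG hD
      (fun B hBF => ⟨fun a _ => ?_, ?_⟩) (fun i => by rw [P.per]) ⟨fun i hi => ?_, ?_⟩
    · simp [(hM B hBF).1 a B.lo (by omega), (hM B hBF).1 a B.hi (by omega)]
    · obtain ⟨lev', -, -, hb⟩ := (hM B hBF).2 σ s0 s1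
      exact ⟨lev', hb⟩
    · simp [hW1 _ hi]
    · intro B hBF a ha r r1 r2
      simp only [← hW2 (P.v (ix a r)) B hBF a ha r r1 r2 rfl, sx]
  have inj1 : InjMod (pl fun i => W (P.v i)) P.n := by simpa using inj 1 zero_le_one le_rfl
  refine ⟨mkPoly P.n P.pos _ hwp inj1, rfl, ?_, fun i hi => hW1 _ hi,
    fun B hBF a ha r r1 r2 => hW2 _ B hBF a ha r r1 r2 rfl⟩
  obtain ⟨L, hL⟩ := hPLLIP (pl fun i => W (P.v i) - P.v i) P.n P.n_pos
    (pl_periodic fun i => by rw [P.per]) (locAff_pl _)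
  rw [← P.range_γ, ← Poly.range_γ]
  refine hFAM P.γ (pl fun i => W (P.v i)) P.n L P.n_pos P.γ_periodic (pl_periodic hwp) ?_
    fun σ hσ => ?_
  · have : (fun t => pl (fun i => W (P.v i)) t - P.γ t) = pl fun i => W (P.v i) - P.v i :=
      funext fun t => (pl_sub _ _ t).symm
    rwa [this]
  · have : (fun t => P.γ t + σ • (pl (fun i => W (P.v i)) t - P.γ t)) =
        pl fun i => P.v i + σ • (W (P.v i) - P.v i) := by
      funext t
      simp only [Poly.γ, pl]
      module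
    rw [this]
    exact hPLEMB _ P.n P.n_pos (pl_periodic fun i => by rw [P.per]) (locAff_pl _)
      (inj σ hσ.1 hσ.2)

end Pool.Agent.P.MP_28369d_gt.SB
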