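import Pool.Agent.P.MP_28369d_gt.ST.Iface

/-! Step MVI. -/

namespace Pool.Agent.P.MP_28369d_gt.SB

open Set Filter Topology
open scoped RealInnerProductSpace

theorem p_MVI (hMVR : S_MVR) :
    S_MVI := by
  intro P u ρ lev F y w hP hG hD hB hw hC
  obtain ⟨m1, m2⟩ := hMVR P u ρ lev F y w hP hG hB hw hC
  have key : ∀ θ : ℝ, ∀ B ∈ F, P.γ θ ∈ B.R → ∃ a ∈ B.A, ∃ (s : ℝ) (k : ℤ), (B.lo : ℝ) < s ∧
      s < B.hi ∧ (a.1 : ℝ) + a.2 * s = θ + k * P.n ∧ pl w θ = pl (fun r => w (ix a r)) s := by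
    intro θ B hBF hm
    obtain ⟨a, ha, s, s1, s2, he⟩ := (hG B hBF).only θ hm
    have hs := ((hG B hBF).st a ha).1
    rw [pl_sx P hs] at he
    obtain ⟨k, hk⟩ := P.injMod _ _ he
    exact ⟨a, ha, s, k, s1, s2, hk, by rw [pl_ix w hs, hk, pl_per hw]⟩
  intro θ θ' he
  by_cases c : ∃ B ∈ F, P.γ θ ∈ B.R
  · obtain ⟨B, hBF, hm⟩ := c
    obtain ⟨a, ha, s, k, s1, s2, hk, e⟩ := key θ B hBF hm
    have n1 : pl w θ ∈ B.R := e ▸ m2 B hBF a ha s s1 s2
    by_cases c' : ∃ B ∈ F, P.γ θ' ∈ B.R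
    · obtain ⟨B', hBF', hm'⟩ := c'
      obtain ⟨a', ha', s', k', t1, t2, hk', e'⟩ := key θ' B' hBF' hm'
      have n2 : pl w θ ∈ B'.R := he ▸ e' ▸ m2 B' hBF' a' ha' s' t1 t2
      obtain rfl : B = B' := by
        by_contra hne
        exact disjoint_left.1 (hD B hBF B' hBF' hne) n1 n2
      obtain ⟨-, lev', hb⟩ := hB B hBF
      have val : ∀ b ∈ B.A, ∀ x : ℝ, (B.lo : ℝ) < x → x < B.hi → pl (fun r => w (ix b r)) x =
          y B b ⌊x⌋ + Int.fract x • (y B b (⌊x⌋ + 1) - y B b ⌊x⌋) ∧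
          ⟪pl (fun r => w (ix b r)) x, u⟫ = pl lev' x := by
        intro b hb' x x1 x2
        have r1 : B.lo ≤ ⌊x⌋ := Int.le_floor.2 x1.le
        have r2 : ⌊x⌋ < B.hi := Int.floor_lt.2 x2
        simp only [pl, hC.2 B hBF b hb' _ r1 r2.le, hC.2 B hBF b hb' (⌊x⌋ + 1) (by omega) r2,
          inner_add_left, real_inner_smul_left, inner_sub_left, smul_eq_mul,
          hb.ht b hb' _ r1 r2.le, hb.ht b hb' (⌊x⌋ + 1) (by omega) r2, and_self]
      have mono : ∀ x x' : ℝ, (B.lo : ℝ) < x → x' < B.hi → x < x' → pl lev' x < pl lev' x' := by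
        intro x x' x1 x2 h
        refine pl_lt lev' h fun i i1 i2 => hb.inc i ?_ ?_
        · have : B.lo < i + 1 := by exact_mod_cast x1.trans i2
          omega
        · exact_mod_cast i1.trans x2
      have ee : pl (fun r => w (ix a r)) s = pl (fun r => w (ix a' r)) s' := by rw [← e, ← e', he]
      have hh : pl lev' s = pl lev' s' := by
        rw [← (val a ha s s1 s2).2, ← (val a' ha' s' t1 t2).2, ee]
      obtain rfl : s = s' := by
        rcases lt_trichotomy s s' with h | h | h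
        · exact absurd hh (mono s s' s1 t2 h).ne
        · exact h
        · exact absurd hh (mono s' s t1 s2 h).ne'
      obtain rfl : a = a' := by
        by_contra hne
        have r1 : B.lo ≤ ⌊s⌋ := Int.le_floor.2 s1.le
        rw [(val a ha s s1 s2).1, (val a' ha' s s1 s2).1] at ee
        refine hb.dis a ha a' ha' hne _ r1 (Int.floor_lt.2 s2) _ (Int.fract_nonneg s)
          (Int.fract_lt_one s).le ?_ (Or.inr (Int.fract_lt_one s)) ee
        rcases r1.eq_or_lt with h | h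
        · right
          rw [Int.fract, ← h]; linarith
        · exact Or.inl h
      exact ⟨k - k', by push_cast; linarith⟩
    · push Not at c'
      rw [he, m1 θ' c'] at n1
      exact absurd n1 (c' B hBF)
  · push Not at c
    by_cases c' : ∃ B ∈ F, P.γ θ' ∈ B.R
    · obtain ⟨B, hBF, hm⟩ := c'
      obtain ⟨a, ha, s, k, s1, s2, -, e⟩ := key θ' B hBF hm
      have n1 : pl w θ' ∈ B.R := e ▸ m2 B hBF a ha s s1 s2
      rw [← he, m1 θ c] at n1
      exact absurd n1 (c B hBF)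
    · push Not at c'
      rw [m1 θ c, m1 θ' c'] at he
      exact P.injMod _ _ he

end Pool.Agent.P.MP_28369d_gt.SB
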