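import Pool.Agent.P.MP_28369d_gt.ST.Iface

/-! Step MVR. -/

namespace Pool.Agent.P.MP_28369d_gt.SB

open Set Filter Topology
open scoped RealInnerProductSpace

namespace MVRx

theorem near {P : Poly} {u : E} {ρ : ℤ → ℤ} {lev : ℤ → ℝ} {B : Bd} (hP : Al P u ρ lev)
    (hB : Good P u ρ lev B) {j : ℤ} (hj : P.v j ∈ B.R) {θ : ℝ} (h1 : (j : ℝ) - 1 < θ)
    (h2 : θ < j + 1) : P.γ θ ∈ B.R := by
  obtain ⟨a, ha, s, s1, s2, e⟩ := hB.only j (by rwa [P.γ_int])
  have st := hB.st a ha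
  have hs : s = ρ j := hP.pl_mono.injective (by
    rw [← hP.ht_pl st s1.le s2.le, ← e, P.γ_int, hP.ht, pl_int])
  obtain ⟨k, hk⟩ := P.injMod _ _ (e.trans (pl_sx P st.1 s))
  have c1 : (B.lo : ℝ) + 1 ≤ s := by
    rw [hs] at s1 ⊢
    exact_mod_cast Int.add_one_le_iff.2 (by exact_mod_cast s1)
  have c2 : s + 1 ≤ B.hi := by
    rw [hs] at s2 ⊢
    exact_mod_cast Int.add_one_le_iff.2 (by exact_mod_cast s2)
  have c3 : (a.2 : ℝ) = 1 ∨ (a.2 : ℝ) = -1 := by exact_mod_cast st.1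
  have := hB.mem a ha (s + a.2 * (θ - j)) (by rcases c3 with c | c <;> rw [c] <;> linarith)
    (by rcases c3 with c | c <;> rw [c] <;> linarith)
  rwa [pl_sx P st.1, show (a.1 : ℝ) + a.2 * (s + a.2 * (θ - j)) = θ + k * P.n by
    rcases c3 with c | c <;> rw [c] at hk ⊢ <;> linarith, P.γ_per] at this

end MVRx

theorem p_MVR :
    S_MVR := by
  intro P u ρ lev F y w hP hF hy _ hw
  refine ⟨fun θ hθ => ?_, fun B hB a ha s s1 s2 => ?_⟩
  · have h1 := Int.floor_le θ
    have h2 := Int.lt_floor_add_one θ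
    have e1 := hw.1 ⌊θ⌋ fun B hB c => hθ B hB (MVRx.near hP (hF B hB) c (by linarith) h2)
    rcases h1.lt_or_eq with c | c
    · rw [Poly.γ, pl, pl, e1, hw.1 (⌊θ⌋ + 1) fun B hB c' => hθ B hB
        (MVRx.near hP (hF B hB) c' (by push_cast; linarith) (by push_cast; linarith))]
    · rw [← c, pl_int, P.γ_int, e1]
  obtain ⟨he, lev', hb⟩ := hy B hB
  have G := hF B hB
  have a1 : B.lo ≤ ⌊s⌋ := Int.le_floor.2 s1.le
  have a2 : ⌊s⌋ < B.hi := Int.floor_lt.2 s2
  have f0 := Int.fract_nonneg s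
  have f1 := Int.fract_lt_one s
  have hi : interior B.R = B.R := G.op.interior_eq
  rw [pl, hw.2 B hB a ha _ a1 a2.le, hw.2 B hB a ha _ (by omega) a2]
  have e : ∀ x z : E, x + Int.fract s • (z - x) = (1 - Int.fract s) • x + Int.fract s • z :=
    fun x z => by module
  have cl : ∀ r, B.lo ≤ r → r ≤ B.hi → y B a r ∈ closure B.R := fun r b1 b2 => by
    have := G.clo ha (s := r) (by exact_mod_cast b1) (by exact_mod_cast b2)
    rw [pl_int] at this
    rcases b1.lt_or_eq with c | c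
    · rcases b2.lt_or_eq with c' | c'
      · exact subset_closure (hb.mem a ha r c c')
      · rwa [c', (he a ha).2, ← c']
    · rwa [← c, (he a ha).1, c]
  rcases a1.lt_or_eq with c | c
  · rw [e, ← hi]
    exact G.cv.combo_interior_closure_mem_interior (hi.symm ▸ hb.mem a ha _ c a2)
      (cl _ (by omega) a2) (by linarith) f0 (by ring)
  rcases (Int.add_one_le_iff.2 a2).lt_or_eq with c' | c'
  · rw [e, ← hi]
    refine G.cv.combo_closure_interior_mem_interior (cl _ a1 a2.le)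
      (hi.symm ▸ hb.mem a ha _ (by omega) c') (by linarith) ?_ (by ring)
    rw [Int.fract, ← c]
    linarith
  · have := G.mem a ha s s1 s2
    rwa [pl, c', ← c, ← (he a ha).1, ← (he a ha).2, c, ← c'] at this

end Pool.Agent.P.MP_28369d_gt.SB
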