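import Pool.Agent.P.MP_28369d_gt.ST.Iface

/-! Step NP. -/

namespace Pool.Agent.P.MP_28369d_gt.SB

open Set Filter Topology
open scoped RealInnerProductSpace

namespace NPx

theorem lin_le {f : ℤ → ℤ} {ε i j : ℤ} (hij : i ≤ j) (h : ∀ l, i ≤ l → l ≤ j → f (l + 1) - f l = ε) :
    f j = f i + ε * (j - i) := by
  have : ∀ k : ℕ, i + k ≤ j → f (i + k) = f i + ε * k := by
    intro k
    induction k with
    | zero => simp
    | succ k ih =>
      intro hk
      push_cast at hk ⊢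
      have h1 := ih (by omega)
      have h2 := h (i + k) (by omega) (by omega)
      rw [← add_assoc]
      linarith
  obtain ⟨k, rfl⟩ := Int.le.dest hij
  rw [this k le_rfl]; ring

theorem lin {f : ℤ → ℤ} {ε i j : ℤ} (h : ∀ l ∈ uIcc i j, f (l + 1) - f l = ε) :
    f j = f i + ε * (j - i) := by
  rcases le_total i j with c | c
  · exact lin_le c fun l a b => h l (by rw [uIcc_of_le c]; exact ⟨a, b⟩)
  · have := lin_le (f := f) (ε := ε) c fun l a b => h l (by rw [uIcc_of_ge c]; exact ⟨a, b⟩)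
    linarith

variable {P : Poly} {u : E} {ρ : ℤ → ℤ} {lev : ℤ → ℝ} {a a' : ℤ × ℤ} {lo hi : ℤ}

theorem d_ed (ha : Std ρ a lo hi) {r : ℤ} (h1 : lo ≤ r) (h2 : r < hi) :
    ρ (ed a r + 1) - ρ (ed a r) = a.2 ∧ ed a r - a.2 * ρ (ed a r) = a.1 := by
  have e1 := ha.2 r h1 h2.le
  have e2 := ha.2 (r + 1) (by omega) (by omega)
  rcases ha.1 with h | h
  · rw [(ed_pos h r).2, (ed_pos h r).1, e1, e2, h, ix, h]
    constructor <;> ring
  · rw [(ed_neg h r).2, (ed_neg h r).1, e1, e2, h, ix, h]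
    constructor <;> ring

theorem same (hP : Al P u ρ lev) (ha : Std ρ a lo hi) (ha' : Std ρ a' lo hi) {r r' : ℤ}
    (h1 : lo ≤ r) (h2 : r < hi) (h1' : lo ≤ r') (h2' : r' < hi)
    (h : Str P (ed a r) (ed a' r')) : sx P a = sx P a' := by
  obtain ⟨m, hm⟩ := h
  obtain ⟨d1, d2⟩ := d_ed ha h1 h2
  obtain ⟨d1', d2'⟩ := d_ed ha' h1' h2'
  have hd : ∀ l ∈ uIcc (ed a r) (ed a' r' + m * P.n), ρ (l + 1) - ρ l = a.2 := by
    intro l hl
    obtain ⟨c, hc, e⟩ := hm l hl
    have s1 := hP.sgn l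
    have s2 := hP.sgn (ed a r)
    rw [e, real_inner_smul_left] at s1
    rw [d1] at s2
    rcases hP.step l with p | p <;> rcases ha.1 with q | q <;> rw [p] at s1 ⊢ <;> rw [q] at s2 ⊢ <;>
      push_cast at s1 s2
    · ring
    · exfalso; nlinarith
    · exfalso; nlinarith
    · ring
  have hl := lin hd
  have h3 := hd _ right_mem_uIcc
  rw [show ed a' r' + m * P.n + 1 = ed a' r' + 1 + m * P.n by ring, per_zmul hP.per,
    per_zmul hP.per, d1'] at h3
  rw [per_zmul hP.per] at hl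
  have h4 : a.1 = a'.1 + m * P.n := by
    rw [← d2, ← d2', h3, hl]
    rcases ha.1 with q | q <;> rw [q] <;> ring
  funext x
  simp only [sx, ix]
  rw [h4, h3, show a'.1 + m * P.n + a.2 * x = a'.1 + a.2 * x + m * P.n by ring, per_zmul P.per]

theorem chord (hP : Al P u ρ lev) {s t : ℤ} (ha : Std ρ a s t) (hst : s < t)
    (h : ∀ r, s ≤ r → r < t → Str P (ed a s) (ed a r)) {σ : ℝ} (h1 : (s : ℝ) ≤ σ) (h2 : σ ≤ t) :
    pl (sx P a) σ = sx P a s + ((pl lev σ - lev s) / (lev t - lev s)) • (sx P a t - sx P a s) := by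
  set D := sx P a (s + 1) - sx P a s with hD
  have hne : (a.2 : ℝ) ≠ 0 := by rcases ha.1 with q | q <;> rw [q] <;> norm_num
  have k1 : ∀ r, s ≤ r → r < t → ∃ c : ℝ, sx P a (r + 1) - sx P a r = c • D := by
    intro r b1 b2
    obtain ⟨m, hm⟩ := h r b1 b2
    obtain ⟨c, -, e⟩ := hm _ right_mem_uIcc
    rw [per_zmul P.e_per, e_ed P ha.1, e_ed P ha.1, smul_comm] at e
    exact ⟨c, smul_right_injective E hne e⟩
  have k2 : ∀ k : ℕ, s + k ≤ t → ∃ c : ℝ, sx P a (s + k) = sx P a s + c • D := by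
    intro k
    induction k with
    | zero => exact fun _ => ⟨0, by simp⟩
    | succ k ih =>
      intro hk
      push_cast at hk ⊢
      obtain ⟨c, hc⟩ := ih (by omega)
      obtain ⟨c', hc'⟩ := k1 (s + k) (by omega) (by omega)
      refine ⟨c + c', ?_⟩
      rw [← add_assoc, add_smul, ← add_assoc, ← hc, ← hc']
      abel
  have k3 : ∀ τ : ℝ, (s : ℝ) ≤ τ → τ ≤ t → ∃ c : ℝ, pl (sx P a) τ = sx P a s + c • D := by
    intro τ b1 b2
    obtain ⟨r, r1, r2, r3, r4⟩ : ∃ r : ℤ, s ≤ r ∧ r < t ∧ (r : ℝ) ≤ τ ∧ τ ≤ r + 1 := by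
      rcases b2.lt_or_eq with c | c
      · exact ⟨⌊τ⌋, Int.le_floor.2 b1, Int.floor_lt.2 c, Int.floor_le τ, (Int.lt_floor_add_one τ).le⟩
      · exact ⟨t - 1, by omega, by omega, by push_cast; linarith, by push_cast; linarith⟩
    obtain ⟨k, rfl⟩ := Int.le.dest r1
    obtain ⟨c, hc⟩ := k2 k r2.le
    obtain ⟨c', hc'⟩ := k1 _ r1 r2
    exact ⟨c + (τ - ((s + k : ℤ) : ℝ)) * c', by rw [pl_eq _ _ r3 r4, hc', hc]; module⟩
  have hst' : (s : ℝ) ≤ t := by exact_mod_cast hst.le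
  have hs := hP.ht_sx ha le_rfl hst.le
  obtain ⟨c, hc⟩ := k3 σ h1 h2
  obtain ⟨c', hc'⟩ := k3 t hst' le_rfl
  have e1 := hP.ht_pl ha h1 h2
  have e2 := hP.ht_pl ha hst' le_rfl
  rw [hc, inner_add_left, real_inner_smul_left, hs] at e1
  rw [hc', inner_add_left, real_inner_smul_left, hs, pl_int] at e2
  rw [pl_int] at hc'
  have hl : lev t - lev s ≠ 0 := sub_ne_zero.2 (hP.mono hst).ne'
  rw [hc, hc', add_sub_cancel_left, smul_smul, ← e1, ← e2, add_sub_cancel_left, add_sub_cancel_left]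
  rw [← e2, add_sub_cancel_left] at hl
  congr 2
  field_simp [left_ne_zero_of_mul hl, right_ne_zero_of_mul hl]

end NPx

open NPx in
theorem p_NP (hPLANE : S_PLANE) :
    S_NP := by
  intro P u ρ lev B s t v hP hG hB hc h1 hst h2 hF hv
  by_contra hn
  push Not at hn
  have ho : ∀ a ∈ B.A, ∀ r, s ≤ r → r < t → ⟪P.e (ed a r), v⟫ = 0 := fun a ha r b1 b2 => by
    rw [e_ed P (hB.st a ha).1, real_inner_smul_left, hn a ha r b1 b2, mul_zero]
  have l1 : (B.lo : ℝ) < s := by exact_mod_cast h1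
  have l2 : (t : ℝ) < B.hi := by exact_mod_cast h2
  have l3 : (s : ℝ) < t := by exact_mod_cast hst
  have key : ∀ a ∈ B.A, ∀ a' ∈ B.A, a ≠ a' → ∀ r r', s ≤ r → r < t → s ≤ r' → r' < t →
      ¬ Str P (ed a r) (ed a' r') := fun a ha a' ha' hne r r' b1 b2 b3 b4 h =>
    hB.ne a ha a' ha' hne s l1 (l3.trans l2) (by
      rw [same hP (hB.st a ha) (hB.st a' ha') (by omega) (by omega) (by omega) (by omega) h])
  obtain ⟨a, ha, a', ha', hne⟩ := Finset.one_lt_card.1 (show 1 < B.A.card by omega)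
  have two : ∀ b ∈ B.A, b ≠ a → b = a' := by
    intro b hb hba
    by_contra hb'
    rcases hG v hv _ _ _ (ho a ha s le_rfl hst) (ho a' ha' s le_rfl hst) (ho b hb s le_rfl hst)
      with h | h | h
    · exact key a ha a' ha' hne s s le_rfl hst le_rfl hst h
    · exact key a ha b hb (Ne.symm hba) s s le_rfl hst le_rfl hst h
    · exact key a' ha' b hb (Ne.symm hb') s s le_rfl hst le_rfl hst h
  have str : ∀ b ∈ B.A, ∀ b' ∈ B.A, b ≠ b' → ∀ σ : ℝ, (s : ℝ) ≤ σ → σ ≤ t → pl (sx P b) σ =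
      sx P b s + ((pl lev σ - lev s) / (lev t - lev s)) • (sx P b t - sx P b s) := by
    intro b hb b' hb' hbb σ c1 c2
    refine chord hP ((hB.st b hb).mono h1.le h2.le) hst (fun r b1 b2 => ?_) c1 c2
    rcases hG v hv _ _ _ (ho b hb s le_rfl hst) (ho b hb r b1 b2) (ho b' hb' s le_rfl hst)
      with h | h | h
    · exact h
    · exact absurd h (key b hb b' hb' hbb s s le_rfl hst le_rfl hst)
    · exact absurd h (key b hb b' hb' hbb r s b1 b2 le_rfl hst)
  have hl : 0 < lev t - lev s := sub_pos.2 (hP.mono hst)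
  have hh : ∀ b ∈ B.A, ∀ r, s ≤ r → r ≤ t → ⟪sx P b r, u⟫ = lev r := fun b hb r b1 b2 =>
    hP.ht_sx (hB.st b hb) (by omega) (by omega)
  have dif : ∀ r : ℤ, s ≤ r → r ≤ t → sx P a r ≠ sx P a' r := by
    intro r b1 b2
    have := hB.ne a ha a' ha' hne r (by exact_mod_cast (by omega : B.lo < r))
      (by exact_mod_cast (by omega : r < B.hi))
    rwa [pl_int, pl_int] at this
  obtain ⟨w, c, w1, w2, w3⟩ := hPLANE u (sx P a s) (sx P a t) (sx P a' s) (sx P a' t)
    (by rw [hh a ha s le_rfl hst.le, hh a' ha' s le_rfl hst.le])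
    (by rw [hh a ha t hst.le le_rfl, hh a' ha' t hst.le le_rfl])
    (by rw [hh a ha s le_rfl hst.le, hh a ha t hst.le le_rfl]; exact hP.mono hst)
    (by
      intro τ t0 t1
      obtain ⟨σ, ⟨c1, c2⟩, e⟩ := intermediate_value_Icc l3.le (continuous_pl lev).continuousOn
        (show lev s + τ * (lev t - lev s) ∈ Icc (pl lev s) (pl lev t) by
          rw [pl_int, pl_int]; constructor <;> nlinarith)
      have e' : (pl lev σ - lev s) / (lev t - lev s) = τ := by rw [e]; field_simp; ring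
      have := hB.ne a ha a' ha' hne σ (by linarith) (by linarith)
      rwa [str a ha a' ha' hne σ c1 c2, str a' ha' a ha hne.symm σ c1 c2, e'] at this)
  have fin : ∀ r, s ≤ r → r ≤ t → c < ⟪sx P a r, w⟫ ∧ ⟪sx P a' r, w⟫ < c := by
    intro r b1 b2
    rcases b1.lt_or_eq with b1' | rfl
    · rcases b2.lt_or_eq with b2' | rfl
      · have c1 : (s : ℝ) ≤ r := by exact_mod_cast b1
        have c2 : (r : ℝ) ≤ t := by exact_mod_cast b2
        have e1 := str a ha a' ha' hne r c1 c2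
        have e2 := str a' ha' a ha hne.symm r c1 c2
        rw [pl_int, pl_int] at e1 e2
        rw [e1, e2]
        have m1 := hP.mono b1'
        have m2 := hP.mono b2'
        exact w1 _ (div_pos (by linarith) hl) ((div_lt_one hl).2 (by linarith))
      · exact w3 (dif _ b1 le_rfl)
    · exact w2 (dif _ le_rfl b2)
  refine hF w ⟨c, {a}, Finset.singleton_subset_iff.2 ha, Finset.singleton_nonempty a, fun e => ?_,
    fun b hb r b1 b2 => ⟨fun h => ?_, fun h => ?_⟩⟩
  · rw [← e] at ha'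
    exact hne (Finset.mem_singleton.1 ha').symm
  · rw [Finset.mem_singleton.1 h]; exact (fin r b1 b2).1
  · rw [two b hb (fun e => h (Finset.mem_singleton.2 e))]; exact (fin r b1 b2).2

end Pool.Agent.P.MP_28369d_gt.SB
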