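import Pool.Agent.P.MP_28369d_gt.ST.Iface

/-! Step PCUT. -/

namespace Pool.Agent.P.MP_28369d_gt.SB

open Set Filter Topology
open scoped RealInnerProductSpace

namespace PCUTx

theorem side (f : ℤ → E) (w : E) (c : ℝ) {lo hi : ℤ} {s : ℝ} (h1 : (lo : ℝ) < s) (h2 : s < hi)
    (h : ∀ r, lo ≤ r → r ≤ hi → c < ⟪f r, w⟫) : c < ⟪pl f s, w⟫ := by
  have a1 : lo ≤ ⌊s⌋ := Int.le_floor.2 h1.le
  have a2 : ⌊s⌋ < hi := Int.floor_lt.2 h2
  have b1 := h ⌊s⌋ a1 a2.le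
  have b2 := h (⌊s⌋ + 1) (by omega) a2
  have t0 := Int.fract_nonneg s
  have t1 := Int.fract_lt_one s
  simp only [pl, inner_add_left, real_inner_smul_left, inner_sub_left]
  nlinarith [mul_nonneg t0 (sub_pos.2 b2).le, mul_pos (sub_pos.2 t1) (sub_pos.2 b1)]

theorem half {P : Poly} {u : E} {ρ : ℤ → ℤ} {lev : ℤ → ℝ} {B : Bd} (h : Good P u ρ lev B)
    (w : E) (c : ℝ) (A : Finset (ℤ × ℤ)) (hA : A ⊆ B.A)
    (H : ∀ a ∈ B.A, ∀ r, B.lo ≤ r → r ≤ B.hi →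
      (a ∈ A → c < ⟪sx P a r, w⟫) ∧ (a ∉ A → ⟪sx P a r, w⟫ < c)) :
    Good P u ρ lev ⟨B.R ∩ {p | c < ⟪p, w⟫}, A, B.lo, B.hi⟩ := by
  refine ⟨h.lt, h.op.inter (isOpen_lt continuous_const (by fun_prop)), h.cv.inter ?_,
    fun p hp => h.slab p hp.1, fun a ha => h.st a (hA ha),
    fun a ha a' ha' => h.ne a (hA ha) a' (hA ha'), fun a ha s h1 h2 =>
      ⟨h.mem a (hA ha) s h1 h2, side _ w c h1 h2 fun r a1 a2 => (H a (hA ha) r a1 a2).1 ha⟩,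
    fun θ hθ => ?_⟩
  · exact convex_halfSpace_gt (f := fun p : E => ⟪p, w⟫)
      ⟨fun x y => inner_add_left x y w, fun t x => real_inner_smul_left x w t⟩ c
  · obtain ⟨a, ha, s, h1, h2, h3⟩ := h.only θ hθ.1
    refine ⟨a, ?_, s, h1, h2, h3⟩
    by_contra hn
    have b1 := side (sx P a) (-w) (-c) h1 h2 fun r a1 a2 => by
      rw [inner_neg_right]
      exact neg_lt_neg ((H a ha r a1 a2).2 hn)
    have b2 : c < ⟪P.γ θ, w⟫ := hθ.2
    rw [inner_neg_right, ← h3] at b1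
    linarith

end PCUTx

theorem p_PCUT :
    S_PCUT := by
  intro P u ρ lev B _ h hF
  simp only [FullC, not_forall, not_not] at hF
  obtain ⟨w, c, A, h1, h2, h3, H⟩ := hF
  refine ⟨_, _, PCUTx.half h w c A h1 H, PCUTx.half h (-w) (-c) (B.A \ A) Finset.sdiff_subset ?_,
    Finset.card_lt_card (Finset.ssubset_iff_subset_ne.2 ⟨h1, h3⟩),
    Finset.card_lt_card (Finset.sdiff_ssubset h1 h2), ?_⟩
  · intro a ha r a1 a2
    rw [inner_neg_right]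
    refine ⟨fun c1 => neg_lt_neg ((H a ha r a1 a2).2 (Finset.mem_sdiff.1 c1).2),
      fun c1 => neg_lt_neg ((H a ha r a1 a2).1 ?_)⟩
    by_contra c2
    exact c1 (Finset.mem_sdiff.2 ⟨ha, c2⟩)
  · rintro N1 N2 k ⟨F1, ⟨f1, f2, f3, f4⟩, f5, f6⟩ ⟨F2, ⟨g1, g2, g3, g4⟩, g5, g6⟩
    have dis : ∀ B1 ∈ F1, ∀ B2 ∈ F2, Disjoint B1.R B2.R := by
      intro B1 b1 B2 b2
      rw [Set.disjoint_left]
      intro p p1 p2
      have c1 : c < ⟪p, w⟫ := (f5 B1 b1 p1).2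
      have c2 : -c < ⟪p, -w⟫ := (g5 B2 b2 p2).2
      rw [inner_neg_right] at c2
      linarith
    refine ⟨F1 ∪ F2, ⟨f1.union g1, (ncard_union_le _ _).trans (Nat.add_le_add f2 g2), ?_, ?_⟩,
      ?_, ?_⟩
    · rintro B' (b | b)
      exacts [f3 B' b, g3 B' b]
    · rintro B1 (b1 | b1) B2 (b2 | b2) hne
      exacts [f4 B1 b1 B2 b2 hne, dis B1 b1 B2 b2, (dis B2 b2 B1 b1).symm, g4 B1 b1 B2 b2 hne]
    · rintro B' (b | b)
      exacts [(f5 B' b).trans inter_subset_left, (g5 B' b).trans inter_subset_left]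
    · intro a ha r a1 a2
      by_cases c1 : a ∈ A
      · obtain ⟨B', b, c2⟩ := f6 a c1 r a1 a2
        exact ⟨B', Or.inl b, c2⟩
      · obtain ⟨B', b, c2⟩ := g6 a (Finset.mem_sdiff.2 ⟨ha, c1⟩) r a1 a2
        exact ⟨B', Or.inr b, c2⟩

end Pool.Agent.P.MP_28369d_gt.SB
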