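import Pool.Agent.P.MP_28369d_gt.ST.Iface

/-! Step PLANE. -/

namespace Pool.Agent.P.MP_28369d_gt.SB

open Set Filter Topology
open scoped RealInnerProductSpace

namespace PLANEx

theorem dir (a b : E) (h : ∀ t : ℝ, 0 < t → t < 1 → a + t • (b - a) ≠ 0) :
    ∃ w : E, (a ≠ 0 → 0 < ⟪a, w⟫) ∧ (b ≠ 0 → 0 < ⟪b, w⟫) := by
  by_cases ha : a = 0
  · exact ⟨b, fun h => absurd ha h, fun h => real_inner_self_pos.2 h⟩
  by_cases hb : b = 0
  · exact ⟨a, fun h => real_inner_self_pos.2 h, fun h => absurd hb h⟩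
  have pa : 0 < ‖a‖ := norm_pos_iff.2 ha
  have pb : 0 < ‖b‖ := norm_pos_iff.2 hb
  have hs : 0 < ‖a‖ + ‖b‖ := add_pos pa pb
  have hw : ‖b‖ • a + ‖a‖ • b ≠ 0 := by
    intro h0
    refine h (‖a‖ / (‖a‖ + ‖b‖)) (div_pos pa hs) ((div_lt_one hs).2 (by linarith)) ?_
    have : a + (‖a‖ / (‖a‖ + ‖b‖)) • (b - a) = (‖a‖ + ‖b‖)⁻¹ • (‖b‖ • a + ‖a‖ • b) := by
      match_scalars <;> field_simp <;> ring
    rw [this, h0, smul_zero]
  have h1 := real_inner_self_pos.2 hw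
  have e1 : ⟪a, ‖b‖ • a + ‖a‖ • b⟫ = ‖a‖ * (‖a‖ * ‖b‖ + ⟪a, b⟫) := by
    rw [inner_add_right, inner_smul_right, inner_smul_right, real_inner_self_eq_norm_sq]; ring
  have e2 : ⟪b, ‖b‖ • a + ‖a‖ • b⟫ = ‖b‖ * (‖a‖ * ‖b‖ + ⟪a, b⟫) := by
    rw [inner_add_right, inner_smul_right, inner_smul_right, real_inner_self_eq_norm_sq,
      real_inner_comm a b]; ring
  rw [inner_add_left, real_inner_smul_left, real_inner_smul_left, e1, e2] at h1
  have h2 : 0 < ‖a‖ * ‖b‖ + ⟪a, b⟫ := by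
    by_contra hn
    have := mul_nonneg (mul_pos pa pb).le (neg_nonneg.2 (not_lt.1 hn))
    nlinarith
  exact ⟨_, fun _ => e1 ▸ mul_pos pa h2, fun _ => e2 ▸ mul_pos pb h2⟩

end PLANEx

theorem p_PLANE :
    S_PLANE := by
  intro u x y x' y' hx hy hlt h
  have h' : ∀ t : ℝ, 0 < t → t < 1 → (x - x') + t • ((y - y') - (x - x')) ≠ 0 := by
    intro t h0 h1 e
    refine h t h0 h1 (sub_eq_zero.1 ?_)
    rw [← e]; module
  obtain ⟨w, ha, hb⟩ := PLANEx.dir (x - x') (y - y') h'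
  have hD : 0 < ⟪y, u⟫ - ⟪x, u⟫ := sub_pos.2 hlt
  obtain ⟨k, hk⟩ : ∃ k : ℝ, k * (⟪y, u⟫ - ⟪x, u⟫) =
      (⟪y, w⟫ + ⟪y', w⟫) / 2 - (⟪x, w⟫ + ⟪x', w⟫) / 2 := ⟨_, div_mul_cancel₀ _ hD.ne'⟩
  have a0 : 0 ≤ ⟪x - x', w⟫ := by
    by_cases e : x - x' = 0
    · simp [e]
    · exact (ha e).le
  have b0 : 0 ≤ ⟪y - y', w⟫ := by
    by_cases e : y - y' = 0
    · simp [e]
    · exact (hb e).le
  have ab : 0 < ⟪x - x', w⟫ ∨ 0 < ⟪y - y', w⟫ := by
    by_cases e : x - x' = 0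
    · refine Or.inr (hb fun e' => h' (1 / 2) (by norm_num) (by norm_num) ?_)
      simp [e, e']
    · exact Or.inl (ha e)
  simp only [inner_sub_left, sub_ne_zero] at ha hb a0 b0 ab
  refine ⟨w - k • u, (⟪x, w⟫ + ⟪x', w⟫) / 2 - k * ⟪x, u⟫, fun t h0 h1 => ?_, fun e => ?_,
    fun e => ?_⟩
  · have key : 0 < (1 - t) * (⟪x, w⟫ - ⟪x', w⟫) + t * (⟪y, w⟫ - ⟪y', w⟫) := by
      have p1 := mul_nonneg (sub_pos.2 h1).le a0
      have p2 := mul_nonneg h0.le b0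
      rcases ab with e | e
      · linarith [mul_pos (sub_pos.2 h1) e]
      · linarith [mul_pos h0 e]
    have hk' : t * (k * (⟪y, u⟫ - ⟪x, u⟫)) =
        t * ((⟪y, w⟫ + ⟪y', w⟫) / 2 - (⟪x, w⟫ + ⟪x', w⟫) / 2) := by rw [hk]
    simp only [inner_sub_right, inner_add_left, inner_sub_left, real_inner_smul_left,
      real_inner_smul_right, ← hx, ← hy]
    constructor <;> nlinarith
  · have := ha e
    simp only [inner_sub_right, real_inner_smul_right, ← hx]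
    constructor <;> linarith
  · have := hb e
    simp only [inner_sub_right, real_inner_smul_right, ← hy]
    constructor <;> nlinarith

end Pool.Agent.P.MP_28369d_gt.SB
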