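import Pool.Agent.P.MP_28369d_gt.ST.Iface

/-! Step PUB. -/

namespace Pool.Agent.P.MP_28369d_gt.SB

open Set Filter Topology
open scoped RealInnerProductSpace

namespace PUBx

variable {P : Poly} {u : E} {ρ : ℤ → ℤ} {lev : ℤ → ℝ} {a : ℤ × ℤ} {B : Bd}

/-- The two end indices of a strand. -/
def en (B : Bd) (a : ℤ × ℤ) : ℤ × ℤ :=
  (min (ix a B.lo) (ix a B.hi), max (ix a B.lo) (ix a B.hi))

theorem arc (hP : Al P u ρ lev) (h : Good P u ρ lev B) (ha : a ∈ B.A) :
    Arc P u B.R (lev B.lo) (lev B.hi) (en B a).1 (en B a).2 := by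
  have st := h.st a ha
  have lt := h.lt
  have hl := hP.ht_sx st le_rfl lt.le
  have hh := hP.ht_sx st lt.le le_rfl
  have sg : ∀ r, B.lo ≤ r → r < B.hi → ⟪P.e (ed a r), u⟫ = a.2 * (lev (r + 1) - lev r) :=
    fun r h1 h2 => by
      rw [e_ed P st.1, real_inner_smul_left, inner_sub_left, hP.ht_sx st h1 h2.le,
        hP.ht_sx st (by omega) h2]
  have up : ∀ r, 0 < lev (r + 1) - lev r := fun r => sub_pos.2 (hP.mono (lt_add_one r))
  have op : ∀ r, B.lo ≤ r → r < B.hi → openSegment ℝ (sx P a r) (sx P a (r + 1)) ⊆ B.R :=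
    fun r h1 h2 => by
      rw [openSegment_eq_image']
      rintro _ ⟨l, hl, rfl⟩
      have c1 : (B.lo : ℝ) ≤ r := by exact_mod_cast h1
      have c2 : (r : ℝ) + 1 ≤ B.hi := by exact_mod_cast h2
      have := h.mem a ha (r + l) (by linarith [hl.1]) (by linarith [hl.2])
      rwa [pl_add _ r hl.1.le hl.2.le] at this
  rcases st.1 with e | e
  · have e0 : en B a = (ix a B.lo, ix a B.hi) := by
      simp only [en, ix, e, Prod.mk.injEq]; omega
    have e1 : ∀ i, ix a (i - a.1) = i := fun i => by simp [ix, e]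
    have e2 : ∀ i ∈ Ico (ix a B.lo) (ix a B.hi), B.lo ≤ i - a.1 ∧ i - a.1 < B.hi := fun i hi => by
      simp only [ix, e, mem_Ico] at hi; omega
    rw [e0]
    refine ⟨by simp only [ix, e]; omega, .inl ⟨fun i hi => ?_, hl, hh⟩, fun i hi => ?_,
      fun i hi => ?_⟩
    · have := sg _ (e2 i hi).1 (e2 i hi).2
      rw [(ed_pos e _).1, e1, e] at this
      simpa [this] using up _
    · have := op _ (e2 i hi).1 (e2 i hi).2
      rwa [sx, sx, ← (ed_pos e _).2, (ed_pos e _).1, e1] at this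
    · simp only [ix, e, mem_Ioo] at hi
      have := h.vmem ha (r := i - a.1) (by omega) (by omega)
      rwa [sx, e1] at this
  · have e0 : en B a = (ix a B.hi, ix a B.lo) := by
      simp only [en, ix, e, Prod.mk.injEq]; omega
    have e1 : ∀ i, ed a (a.1 - i - 1) = i := fun i => by simp only [ed, ix, e]; omega
    have e2 : ∀ i ∈ Ico (ix a B.hi) (ix a B.lo), B.lo ≤ a.1 - i - 1 ∧ a.1 - i - 1 < B.hi :=
      fun i hi => by simp only [ix, e, mem_Ico] at hi; omega
    rw [e0]
    refine ⟨by simp only [ix, e]; omega, .inr ⟨fun i hi => ?_, hh, hl⟩, fun i hi => ?_,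
      fun i hi => ?_⟩
    · have := sg _ (e2 i hi).1 (e2 i hi).2
      rw [e1, e] at this
      simpa [this] using up (a.1 - i - 1)
    · have := op _ (e2 i hi).1 (e2 i hi).2
      rwa [sx, sx, ← (ed_neg e _).2, ← (ed_neg e _).1, e1, openSegment_symm] at this
    · simp only [ix, e, mem_Ioo] at hi
      have := h.vmem ha (r := a.1 - i) (by omega) (by omega)
      rwa [sx, show ix a (a.1 - i) = i by simp [ix, e]] at this

end PUBx

open PUBx in
theorem p_PUB :
    S_PUB := by
  classical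
  intro P u ρ lev F N k hP ⟨hF, hN, hG, hD⟩ hC
  have := hF.fintype
  obtain ⟨e⟩ : Nonempty (F ↪ Fin N) := Function.Embedding.nonempty_of_card_le (by
    rwa [Fintype.card_fin, ← Nat.card_eq_fintype_card, Nat.card_coe_set_eq])
  set g : Fin N → Bd := Function.extend e (↑) fun _ => ⟨∅, ∅, 0, 0⟩
  have g1 : ∀ B : F, g (e B) = B := e.injective.extend_apply _ _
  have g2 : ∀ j, (∃ B, e B = j) ∨ g j = ⟨∅, ∅, 0, 0⟩ := fun j =>
    (em _).imp_right (Function.extend_apply' _ _ j)
  refine ⟨u, fun j => (g j).R, fun j => lev (g j).lo, fun j => lev (g j).hi,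
    fun j => (g j).A.image (en (g j)), fun j => ?_, fun i j hij => ?_, fun i => ?_⟩
  · rcases g2 j with ⟨B, rfl⟩ | c
    · obtain ⟨h, hk⟩ := hG B B.2
      simp only [g1]
      exact ⟨h.op, h.cv, h.slab, Finset.card_image_le.trans hk,
        Finset.forall_mem_image.2 fun a ha => arc hP h ha⟩
    · simp [c, convex_empty]
  · rcases g2 i with ⟨B, rfl⟩ | c
    · rcases g2 j with ⟨B', rfl⟩ | c
      · simp only [g1]
        exact hD B B.2 B' B'.2 fun c => hij (congrArg e (Subtype.ext c))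
      · simp [c]
    · simp [c]
  · obtain ⟨B, hB, a, ha, r, m, h1, h2, h3⟩ := hC i
    refine ⟨e ⟨B, hB⟩, en B a, by simpa only [g1] using Finset.mem_image_of_mem _ ha, m, ?_⟩
    rcases ((hG B hB).1.st a ha).1 with c | c <;> simp only [h3, en, ed, ix, c, mem_Ico] <;> omega

end Pool.Agent.P.MP_28369d_gt.SB
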