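import Pool.Agent.P.MP_28369d_gt.ST.Iface

/-! Step SUBN. -/

namespace Pool.Agent.P.MP_28369d_gt.SB

open Set Filter Topology
open scoped RealInnerProductSpace

theorem p_SUBN :
    S_SUBN := by
  intro P Q c hc hcp hed hv
  set o : ℤ → ℤ := fun k => ⌊c k⌋ with ho
  have hm : Monotone o := fun _ _ h => Int.floor_mono (hc.monotone h)
  have hp : ∀ k, o (k + Q.n) = o k + P.n := fun k => by
    simp only [ho, hcp, Int.floor_add_natCast]
  have hz : ∀ k m : ℤ, o (k + m * Q.n) = o k + m * P.n := fun k m => by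
    have h := per_zmul (n := Q.n) (f := fun k => o k * Q.n - k * P.n)
      (fun i => by simp only [hp]; ring) k m
    have h0 : (Q.n : ℤ) ≠ 0 := by exact_mod_cast Q.pos.ne'
    exact mul_right_cancel₀ h0 (by linarith)
  have he : ∀ k, ∃ t > (0 : ℝ), Q.e k = t • P.e (o k) := fun k => by
    obtain ⟨p, h1, h2⟩ := hed k
    have h3 := hc (lt_add_one k)
    have h4 : o k = p := Int.floor_eq_iff.2 ⟨h1, by linarith⟩
    exact ⟨c (k + 1) - c k, by linarith, by
      rw [h4, Poly.e, hv, hv, P.γ_sub p (by linarith) h2 h1 (by linarith)]⟩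
  refine ⟨fun v => (le_mx_iff P.pos (P.inner_per v)).2 ?_, fun hG v h0 i j k hi hj hk => ?_⟩
  · have s1 : ∀ k, 0 < ⟪Q.e k, v⟫ → 0 < ⟪P.e (o k), v⟫ := fun k h => by
      obtain ⟨t, ht, e⟩ := he k
      rw [e, real_inner_smul_left] at h
      exact (mul_pos_iff_of_pos_left ht).1 h
    have s2 : ∀ k, ⟪Q.e k, v⟫ < 0 → ⟪P.e (o k), v⟫ < 0 := fun k h => by
      obtain ⟨t, ht, e⟩ := he k
      rw [e, real_inner_smul_left] at h
      by_contra hh
      exact absurd h (mul_nonneg ht.le (not_lt.1 hh)).not_gt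
    obtain ⟨a, b, h1, h2⟩ := alt_of_le_mx (Q.inner_per v) (le_refl (Q.nmax v))
    refine ⟨fun k => o (a k), fun k => o (b k), fun k hk => ?_, fun k hk => ?_⟩
    · obtain ⟨c1, c2, c3, c4⟩ := h1 k hk
      have d2 := s1 _ c2
      have d3 := s2 _ c3
      have d4 := s1 _ (h1 0 (by omega)).2.1
      refine ⟨(hm c1.le).lt_of_ne fun e => ?_, d2, d3, ((hm c4.le).trans_eq (hp _)).lt_of_ne fun e => ?_⟩
      · rw [e] at d2; linarith
      · rw [e, P.inner_per] at d3; linarith
    · have d2 := s1 _ (h1 _ hk).2.1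
      have d3 := s2 _ (h1 k (by omega)).2.2.1
      refine (hm (h2 k hk).le).lt_of_ne fun e => ?_
      rw [e] at d3; linarith
  · have s0 : ∀ k, ⟪Q.e k, v⟫ = 0 → ⟪P.e (o k), v⟫ = 0 := fun k h => by
      obtain ⟨t, ht, e⟩ := he k
      rw [e, real_inner_smul_left] at h
      exact (mul_eq_zero.1 h).resolve_left ht.ne'
    have key : ∀ i j, (P.n : ℤ) ∣ o j - o i → Str Q i j := by
      rintro i j ⟨d, hd⟩
      refine ⟨-d, fun l hl => ?_⟩
      have e1 : o (j + -d * Q.n) = o i := by rw [hz]; linarith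
      have e2 : o l = o i := by
        rcases mem_uIcc.1 hl with h | h
        · exact le_antisymm ((hm h.2).trans_eq e1) (hm h.1)
        · exact le_antisymm (hm h.2) (e1.symm.trans_le (hm h.1))
      obtain ⟨t, ht, e⟩ := he l
      obtain ⟨s, hs, e'⟩ := he i
      exact ⟨t / s, div_pos ht hs, by rw [e, e', e2, smul_smul, div_mul_cancel₀ _ hs.ne']⟩
    by_contra hh
    simp only [not_or] at hh
    exact h0 (hG v _ _ _ (fun h => hh.1 (key _ _ h)) (fun h => hh.2.1 (key _ _ h))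
      (fun h => hh.2.2 (key _ _ h)) (s0 _ hi) (s0 _ hj) (s0 _ hk))

end Pool.Agent.P.MP_28369d_gt.SB
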