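import Pool.Agent.P.MP_28369d_gt.ST.Iface

/-! Step SURG. -/

namespace Pool.Agent.P.MP_28369d_gt.SB

open Set Filter Topology
open scoped RealInnerProductSpace

theorem p_SURG (hMOVE : S_MOVE) (hTCUT : S_TCUT) :
    S_SURG := by
  intro P u ρ lev B w s t hP hB h1 h2 h3 hw
  obtain ⟨y, hy, hy'⟩ := s_SURGA _ B.A (sx P) u w B.R s t lev hB.op hB.cv
    (hB.band hP h1.le h3.le) h2
    (fun a ha => ⟨hB.vmem ha h1 (h2.trans h3), hB.vmem ha (h1.trans h2) h3⟩) hw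
  have hG := (hTCUT P u ρ lev B hP hB).1 s t h1.le h2 h3.le
  have hM : Move B.A (sx P) y u (tcut u lev B s t).R s t lev := by
    refine ⟨hy.1, fun σ s0 s1 => ?_⟩
    obtain ⟨lev', e1, e2, hb⟩ := hy.2 σ s0 s1
    refine ⟨lev', e1, e2, hb.ht, hb.inc, fun a ha r r1 r2 => ⟨hb.mem a ha r r1 r2, ?_⟩, hb.dis⟩
    show lev s < _ ∧ _ < lev t
    rw [hb.ht a ha r r1.le r2.le, ← e1, ← e2]
    exact ⟨hb.lt le_rfl r1 r2.le, hb.lt r1.le r2 le_rfl⟩
  obtain ⟨Q, q1, q2, q3, q4⟩ := hMOVE P u ρ lev {tcut u lev B s t} (fun _ => y) hP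
    (by rintro _ rfl; exact hG) (by rintro _ rfl _ rfl c; exact absurd rfl c)
    (by rintro _ rfl; exact hM)
  refine ⟨Q, q1, q2, fun i hi => q3 i (by rintro _ rfl; exact hi), fun a ha r r1 r2 => ?_⟩
  have k1 := q4 _ rfl a ha r r1 r2.le
  have k2 := q4 _ rfl a ha (r + 1) (show s ≤ r + 1 by omega) r2
  rw [sx, sx, k1, k2]
  exact hy' a ha r r1 r2

end Pool.Agent.P.MP_28369d_gt.SB
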