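import Pool.Agent.P.MP_28369d_gt.ST.Iface

/-! Step TCUT. -/

namespace Pool.Agent.P.MP_28369d_gt.SB

open Set Filter Topology
open scoped RealInnerProductSpace

namespace TCUTx

theorem good {P : Poly} {u : E} {ρ : ℤ → ℤ} {lev : ℤ → ℝ} {B : Bd} (hP : Al P u ρ lev)
    (h : Good P u ρ lev B) (s t : ℤ) (h1 : B.lo ≤ s) (h2 : s < t) (h3 : t ≤ B.hi) :
    Good P u ρ lev (tcut u lev B s t) := by
  have c1 : (B.lo : ℝ) ≤ s := by exact_mod_cast h1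
  have c3 : (t : ℝ) ≤ B.hi := by exact_mod_cast h3
  have hc : Continuous fun p : E => ⟪p, u⟫ := continuous_id.inner continuous_const
  have hl : IsLinearMap ℝ fun p : E => ⟪p, u⟫ :=
    ⟨fun x y => inner_add_left x y u, fun c x => real_inner_smul_left x u c⟩
  refine ⟨h2, h.op.inter ((isOpen_lt continuous_const hc).inter (isOpen_lt hc continuous_const)),
    h.cv.inter ((convex_halfSpace_gt hl _).inter (convex_halfSpace_lt hl _)),
    fun p hp => hp.2, fun a ha => (h.st a ha).mono h1 h3,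
    fun a ha a' ha' hne σ a1 a2 => h.ne a ha a' ha' hne σ (c1.trans_lt a1) (a2.trans_le c3),
    fun a ha σ a1 a2 => ⟨h.mem a ha σ (c1.trans_lt a1) (a2.trans_le c3), ?_⟩, fun θ hθ => ?_⟩
  · have a1 : (s : ℝ) < σ := a1
    have a2 : σ < t := a2
    have e := hP.ht_pl (h.st a ha) (c1.trans a1.le) (a2.le.trans c3)
    have b1 := hP.pl_mono a1
    have b2 := hP.pl_mono a2
    rw [pl_int] at b1 b2
    exact ⟨by rw [e]; exact b1, by rw [e]; exact b2⟩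
  · obtain ⟨a, ha, σ, a1, a2, e⟩ := h.only θ hθ.1
    have e' := hP.ht_pl (h.st a ha) a1.le a2.le
    have b1 : lev s < ⟪P.γ θ, u⟫ := hθ.2.1
    have b2 : ⟪P.γ θ, u⟫ < lev t := hθ.2.2
    rw [e, e', ← pl_int lev] at b1 b2
    exact ⟨a, ha, σ, hP.pl_mono.lt_iff_lt.1 b1, hP.pl_mono.lt_iff_lt.1 b2, e⟩

end TCUTx

theorem p_TCUT :
    S_TCUT := by
  intro P u ρ lev B hP h
  refine ⟨TCUTx.good hP h, ?_⟩
  rintro r N1 N2 k - - ⟨F1, ⟨f1, n1, g1, d1⟩, s1, c1⟩ ⟨F2, ⟨f2, n2, g2, d2⟩, s2, c2⟩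
  have x : ∀ B1 ∈ F1, ∀ B2 ∈ F2, Disjoint B1.R B2.R := fun B1 h1 B2 h2 =>
    Set.disjoint_left.2 fun p p1 p2 => lt_asymm (s1 B1 h1 p1).2.2 (s2 B2 h2 p2).2.1
  refine ⟨F1 ∪ F2, ⟨f1.union f2, (ncard_union_le _ _).trans (Nat.add_le_add n1 n2), ?_, ?_⟩, ?_,
    fun a ha r' a1 a2 => ?_⟩
  · rintro B' (c | c)
    exacts [g1 B' c, g2 B' c]
  · rintro B1 (a | a) B2 (b | b) hne
    exacts [d1 B1 a B2 b hne, x B1 a B2 b, (x B2 b B1 a).symm, d2 B1 a B2 b hne]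
  · rintro B' (c | c) p hp
    exacts [(s1 B' c hp).1, (s2 B' c hp).1]
  · rcases lt_or_ge r' r with c | c
    · obtain ⟨B', b1, b2⟩ := c1 a ha r' a1 c
      exact ⟨B', Or.inl b1, b2⟩
    · obtain ⟨B', b1, b2⟩ := c2 a ha r' c a2
      exact ⟨B', Or.inr b1, b2⟩

end Pool.Agent.P.MP_28369d_gt.SB
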