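import Pool.Agent.P.MP_28369d_gt.ST.Iface

/-! Step WIN. -/

namespace Pool.Agent.P.MP_28369d_gt.SB

open Set Filter Topology
open scoped RealInnerProductSpace

namespace WINx

variable {P : Poly} {u : E} {ρ : ℤ → ℤ} {lev : ℤ → ℝ}

theorem red (h : Al P u ρ lev) (i : ℤ) :
    ∃ j : ℤ, 0 ≤ j ∧ j < P.n ∧ ∀ t, ρ (i + t) = ρ (j + t) := by
  have h0 : (0 : ℤ) < P.n := by exact_mod_cast P.pos
  refine ⟨i % P.n, Int.emod_nonneg _ h0.ne', Int.emod_lt_of_pos _ h0, fun t => ?_⟩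
  rw [← per_zmul h.per (i % P.n + t) (i / P.n)]
  congr 1
  have := Int.emod_add_mul_ediv i P.n
  linarith

/-- The critical level numbers. -/
theorem crit (h : Al P u ρ lev) : ∃ C : Set ℤ, C.Finite ∧ C.ncard ≤ 2 * P.nmax u ∧
    (∀ i, ρ (i - 1) = ρ (i + 1) → ρ i ∈ C) ∧ (∃ c ∈ C, ∀ i, c ≤ ρ i) ∧ ∃ c ∈ C, ∀ i, ρ i ≤ c := by
  have hw := win_chg (P.inner_per u) h.gen
  have hf := fin_win P.n fun i => ⟪P.e i, u⟫ * ⟪P.e (i + 1), u⟫ < 0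
  have hc : ∀ i, ρ (i - 1) = ρ (i + 1) → ρ i ∈ (fun i => ρ (i + 1)) ''
      {i : ℤ | 0 ≤ i ∧ i < P.n ∧ ⟪P.e i, u⟫ * ⟪P.e (i + 1), u⟫ < 0} := fun i e => by
    obtain ⟨j, j0, j1, hj⟩ := red h (i - 1)
    have e0 := hj 0
    have e1 := hj 1
    have e2 := hj (1 + 1)
    rw [add_zero, add_zero] at e0
    rw [sub_add_cancel] at e1
    rw [← add_assoc, ← add_assoc, sub_add_cancel] at e2
    refine ⟨j, ⟨j0, j1, ?_⟩, e1.symm⟩
    have s1 := h.sgn j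
    have s2 := h.sgn (j + 1)
    rw [← e2, ← e, e0] at s2
    rcases h.step j with c | c <;> rw [c] at s1 s2 <;> push_cast at s1 s2
    · exact mul_neg_of_pos_of_neg (by linarith) (by linarith)
    · exact mul_neg_of_neg_of_pos (by linarith) (by linarith)
  have ne : (Ico (0 : ℤ) P.n).Nonempty := ⟨0, le_rfl, by exact_mod_cast P.pos⟩
  refine ⟨_, hf.image _, (ncard_image_le hf).trans hw.le, hc, ?_, ?_⟩
  · obtain ⟨k, -, hk⟩ := exists_min_image _ ρ (finite_Ico (0 : ℤ) P.n) ne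
    have hm : ∀ i, ρ k ≤ ρ i := fun i => by
      obtain ⟨j, j0, j1, hj⟩ := red h i
      simpa [show ρ i = ρ j by simpa using hj 0] using hk j ⟨j0, j1⟩
    refine ⟨_, hc k ?_, hm⟩
    have a1 := h.step (k - 1)
    have a2 := h.step k
    have a3 := hm (k - 1)
    have a4 := hm (k + 1)
    rw [sub_add_cancel] at a1
    omega
  · obtain ⟨k, -, hk⟩ := exists_max_image _ ρ (finite_Ico (0 : ℤ) P.n) ne
    have hm : ∀ i, ρ i ≤ ρ k := fun i => by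
      obtain ⟨j, j0, j1, hj⟩ := red h i
      simpa [show ρ i = ρ j by simpa using hj 0] using hk j ⟨j0, j1⟩
    refine ⟨_, hc k ?_, hm⟩
    have a1 := h.step (k - 1)
    have a2 := h.step k
    have a3 := hm (k - 1)
    have a4 := hm (k + 1)
    rw [sub_add_cancel] at a1
    omega

end WINx

theorem p_WIN (hWIN1 : S_WIN1) :
    S_WIN := by
  intro n
  refine ⟨2 * n + 1, fun P u ρ lev h hn => ?_⟩
  obtain ⟨C, hC, cC, hc, ⟨c0, hc0, m0⟩, c1, hc1, m1⟩ := WINx.crit h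
  let S : Set (ℤ × ℤ) := {p | p.1 ∈ C ∧ p.2 ∈ C ∧ p.1 < p.2 ∧ ∀ c ∈ C, p.1 < c → p.2 ≤ c}
  have key := fun (p : ℤ × ℤ) (hp : p ∈ S) => hWIN1 P u ρ lev p.1 p.2 h hp.2.2.1
    fun i a b e => absurd (hp.2.2.2 _ (hc i e) a) (not_le.2 b)
  choose! A hA using key
  have inj : InjOn Prod.fst S := fun p hp q hq e => Prod.ext e
    (le_antisymm (hp.2.2.2 _ hq.2.1 (e ▸ hq.2.2.1)) (hq.2.2.2 _ hp.2.1 (e ▸ hp.2.2.1)))
  have hS : S.Finite := (hC.prod hC).subset fun p hp => ⟨hp.1, hp.2.1⟩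
  have cS : S.ncard ≤ C.ncard := ncard_le_ncard_of_injOn Prod.fst (fun p hp => hp.1) inj hC
  have dis : ∀ p ∈ S, ∀ q ∈ S, p.1 < q.1 → Disjoint {x : E | lev p.1 < ⟪x, u⟫ ∧ ⟪x, u⟫ < lev p.2}
      {x : E | lev q.1 < ⟪x, u⟫ ∧ ⟪x, u⟫ < lev q.2} := fun p hp q hq l =>
    disjoint_left.2 fun x a b => by
      have := h.mono.monotone (hp.2.2.2 _ hq.1 l)
      linarith [a.2, b.1]
  refine ⟨(fun p : ℤ × ℤ => (⟨{x | lev p.1 < ⟪x, u⟫ ∧ ⟪x, u⟫ < lev p.2}, A p, p.1, p.2⟩ : Bd)) '' S,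
    ⟨hS.image _, (ncard_image_le hS).trans (by omega), ?_, ?_⟩, fun i => ?_⟩
  · rintro _ ⟨p, hp, rfl⟩
    exact ⟨(hA p hp).1, (hA p hp).2.1.trans (by omega)⟩
  · rintro _ ⟨p, hp, rfl⟩ _ ⟨q, hq, rfl⟩ ne
    rcases lt_trichotomy p.1 q.1 with l | l | l
    · exact dis p hp q hq l
    · exact absurd (by rw [inj hp hq l]) ne
    · exact (dis q hq p hp l).symm
  · obtain ⟨r, hr⟩ : ∃ r, r = min (ρ i) (ρ (i + 1)) := ⟨_, rfl⟩
    have r0 : c0 ≤ r := hr ▸ le_min (m0 _) (m0 _)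
    have r1 : r < c1 := by
      have a1 := h.step i
      have a2 := m1 i
      have a3 := m1 (i + 1)
      omega
    obtain ⟨lo, l1, l2⟩ := exists_max_image {c | c ∈ C ∧ c ≤ r} id (hC.subset fun _ a => a.1)
      ⟨c0, hc0, r0⟩
    obtain ⟨hi, h1, h2⟩ := exists_min_image {c | c ∈ C ∧ r < c} id (hC.subset fun _ a => a.1)
      ⟨c1, hc1, r1⟩
    have hp : (lo, hi) ∈ S := ⟨l1.1, h1.1, l1.2.trans_lt h1.2, fun c a b =>
      h2 c ⟨a, not_le.1 fun d => absurd (l2 c ⟨a, d⟩) (not_le.2 b)⟩⟩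
    obtain ⟨a, ha, m, e⟩ := (hA _ hp).2.2 i (hr ▸ l1.2) (hr ▸ h1.2)
    exact ⟨_, ⟨_, hp, rfl⟩, a, ha, r, m, l1.2, h1.2, hr ▸ e⟩

end Pool.Agent.P.MP_28369d_gt.SB
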