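import Pool.Agent.P.MP_28369d_gt.ST.Iface

/-! Step WIN1. -/

namespace Pool.Agent.P.MP_28369d_gt.SB

open Set Filter Topology
open scoped RealInnerProductSpace

namespace WIN1x

variable {P : Poly} {u : E} {ρ : ℤ → ℤ} {lev : ℤ → ℝ} {lo hi : ℤ}

theorem nb (h : Al P u ρ lev) {a : ℤ × ℤ} (ha : a.2 = 1 ∨ a.2 = -1) (s : ℤ) :
    ρ (ix a (s + 1)) = ρ (ix a s) + 1 ∨ ρ (ix a (s + 1)) = ρ (ix a s) - 1 := by
  rcases ha with c | c
  · have := h.step (ix a s)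
    rwa [show ix a s + 1 = ix a (s + 1) by simp only [ix, c]; ring] at this
  · have := h.step (ix a (s + 1))
    rw [show ix a (s + 1) + 1 = ix a s by simp only [ix, c]; ring] at this
    omega

theorem nt (H : ∀ i, lo < ρ i → ρ i < hi → ρ (i - 1) ≠ ρ (i + 1)) {a : ℤ × ℤ}
    (ha : a.2 = 1 ∨ a.2 = -1) (s : ℤ) (h1 : lo < ρ (ix a (s + 1))) (h2 : ρ (ix a (s + 1)) < hi) :
    ρ (ix a s) ≠ ρ (ix a (s + 1 + 1)) := by
  have := H _ h1 h2
  rcases ha with c | c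
  · rwa [show ix a (s + 1) - 1 = ix a s by simp only [ix, c]; ring,
      show ix a (s + 1) + 1 = ix a (s + 1 + 1) by simp only [ix, c]; ring] at this
  · rw [show ix a (s + 1) - 1 = ix a (s + 1 + 1) by simp only [ix, c]; ring,
      show ix a (s + 1) + 1 = ix a s by simp only [ix, c]; ring] at this
    exact this.symm

theorem ext (h : Al P u ρ lev) (H : ∀ i, lo < ρ i → ρ i < hi → ρ (i - 1) ≠ ρ (i + 1))
    {a : ℤ × ℤ} {r : ℤ} (h1 : lo ≤ r) (h2 : r < hi) (ha : Std ρ a r (r + 1)) : Std ρ a lo hi := by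
  have b0 := ha.2 r le_rfl (by omega)
  have b1 := ha.2 (r + 1) (by omega) le_rfl
  have up : ∀ k : ℕ, r + k < hi → ρ (ix a (r + k)) = r + k ∧ ρ (ix a (r + k + 1)) = r + k + 1 := by
    intro k
    induction k with
    | zero => intro _; simpa using ⟨b0, b1⟩
    | succ k ih =>
      intro c
      push_cast at c ⊢
      obtain ⟨e0, e1⟩ := ih (by omega)
      have n1 := nt H ha.1 (r + k) (by omega) (by omega)
      have n2 := nb h ha.1 (r + k + 1)
      rw [← add_assoc]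
      exact ⟨e1, by omega⟩
  have dn : ∀ k : ℕ, lo ≤ r - k → ρ (ix a (r - k)) = r - k ∧ ρ (ix a (r - k + 1)) = r - k + 1 := by
    intro k
    induction k with
    | zero => intro _; simpa using ⟨b0, b1⟩
    | succ k ih =>
      intro c
      push_cast at c ⊢
      obtain ⟨e0, e1⟩ := ih (by omega)
      have e : r - (k + 1) + 1 = r - k := by ring
      have n1 := nt H ha.1 (r - (k + 1)) (by rw [e]; omega) (by rw [e]; omega)
      have n2 := nb h ha.1 (r - (k + 1))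
      rw [e] at n1 n2 ⊢
      exact ⟨by omega, e0⟩
  refine ⟨ha.1, fun s c1 c2 => ?_⟩
  rcases le_or_gt s r with c | c
  · obtain ⟨k, rfl⟩ : ∃ k : ℕ, s = r - k := ⟨(r - s).toNat, by omega⟩
    exact (dn k c1).1
  · obtain ⟨k, rfl⟩ : ∃ k : ℕ, s = r + k + 1 := ⟨(s - r - 1).toNat, by omega⟩
    exact (up k (by omega)).2

theorem base (h : Al P u ρ lev) (i : ℤ) : ∃ a : ℤ × ℤ,
    Std ρ a (min (ρ i) (ρ (i + 1))) (min (ρ i) (ρ (i + 1)) + 1) ∧
      ed a (min (ρ i) (ρ (i + 1))) = i := by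
  rcases h.step i with c | c
  · rw [show min (ρ i) (ρ (i + 1)) = ρ i by omega]
    refine ⟨(i - ρ i, 1), ⟨Or.inl rfl, fun s c1 c2 => ?_⟩, by simp only [ed, ix]; omega⟩
    obtain rfl | rfl : s = ρ i ∨ s = ρ i + 1 := by omega
    · rw [show ix (i - ρ i, 1) (ρ i) = i by simp only [ix]; ring]
    · rw [show ix (i - ρ i, 1) (ρ i + 1) = i + 1 by simp only [ix]; ring, c]
  · rw [show min (ρ i) (ρ (i + 1)) = ρ i - 1 by omega]
    refine ⟨(i + ρ i, -1), ⟨Or.inr rfl, fun s c1 c2 => ?_⟩, by simp only [ed, ix]; omega⟩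
    obtain rfl | rfl : s = ρ i - 1 ∨ s = ρ i := by omega
    · rw [show ix (i + ρ i, -1) (ρ i - 1) = i + 1 by simp only [ix]; ring, c]
    · rw [show ix (i + ρ i, -1) (ρ i) = i by simp only [ix]; ring]

theorem opp (h : Al P u ρ lev) {a a' : ℤ × ℤ} (ha : Std ρ a lo hi) (ha' : Std ρ a' lo hi)
    (c : a.2 = 1) (c' : a'.2 = -1) {s : ℝ} (h1 : (lo : ℝ) < s) (h2 : s < hi) (k : ℤ)
    (e : (a'.1 : ℝ) + a'.2 * s = a.1 + a.2 * s + k * P.n) : False := by
  rw [c, c'] at e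
  push_cast at e
  obtain ⟨t, ht⟩ : ∃ t : ℤ, t = a'.1 - a.1 - k * P.n := ⟨_, rfl⟩
  have e' : (t : ℝ) = 2 * s := by rw [ht]; push_cast; linarith
  have f1 := Int.floor_le s
  have f2 := Int.lt_floor_add_one s
  have g1 : 2 * lo < t := by exact_mod_cast (by push_cast; linarith : ((2 * lo : ℤ) : ℝ) < t)
  have g2 : 2 * ⌊s⌋ ≤ t := by exact_mod_cast (by push_cast; linarith : ((2 * ⌊s⌋ : ℤ) : ℝ) ≤ t)
  have g3 : t < 2 * ⌊s⌋ + 2 := by
    exact_mod_cast (by push_cast; linarith : (t : ℝ) < ((2 * ⌊s⌋ + 2 : ℤ) : ℝ))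
  have g4 : lo ≤ ⌊s⌋ := Int.le_floor.2 h1.le
  have g5 : ⌊s⌋ < hi := Int.floor_lt.2 h2
  have k1 := ha'.2 (⌊s⌋ + 1) (by omega) (by omega)
  have k2 := ha.2 (t - ⌊s⌋ - 1) (by omega) (by omega)
  rw [show ix a' (⌊s⌋ + 1) = ix a (t - ⌊s⌋ - 1) + k * P.n by simp only [ix, c, c', ht]; ring,
    per_zmul h.per, k2] at k1
  omega

end WIN1x

open WIN1x in
theorem p_WIN1 (hLEVC : S_LEVC) :
    S_WIN1 := by
  intro P u ρ lev lo hi h hlt H
  have hn : (0 : ℤ) < P.n := by exact_mod_cast P.pos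
  have hl : (lo : ℝ) + 1 ≤ hi := by exact_mod_cast hlt
  let S : Set (ℤ × ℤ) := {a | Std ρ a lo hi ∧ 0 ≤ ed a lo ∧ ed a lo < P.n}
  obtain ⟨hfin, hcard⟩ := hLEVC P u h.gen (pl lev (lo + 1 / 2))
  have hmap : ∀ a ∈ S, (ed a lo : ℝ) + 1 / 2 ∈
      {τ | ⟪P.γ τ, u⟫ = pl lev (lo + 1 / 2)} ∩ Ico 0 (P.n : ℝ) := by
    rintro a ⟨ha, h0, h1⟩
    have c0 : (0 : ℝ) ≤ ed a lo := by exact_mod_cast h0
    have c1 : (ed a lo : ℝ) + 1 ≤ P.n := by exact_mod_cast h1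
    refine ⟨?_, by linarith, by linarith⟩
    have e : (ed a lo : ℝ) + 1 / 2 = a.1 + a.2 * (lo + 1 / 2) := by
      rcases ha.1 with c | c
      · rw [(ed_pos c lo).1, ix, c]; push_cast; ring
      · rw [(ed_neg c lo).1, ix, c]; push_cast; ring
    show ⟪P.γ _, u⟫ = _
    rw [e, ← pl_sx P ha.1, h.ht_pl ha (by linarith) (by linarith)]
  have hinj : InjOn (fun a : ℤ × ℤ => (ed a lo : ℝ) + 1 / 2) S := by
    rintro a ⟨ha, -⟩ a' ⟨ha', -⟩ e
    have e' : ed a lo = ed a' lo := by exact_mod_cast add_right_cancel e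
    have k0 := ha.2 lo le_rfl hlt.le
    have k1 := ha.2 (lo + 1) (by omega) hlt
    have k0' := ha'.2 lo le_rfl hlt.le
    rcases ha.1 with c | c <;> rcases ha'.1 with c' | c'
    · refine Prod.ext ?_ (c.trans c'.symm)
      simp only [ed, ix, c, c'] at e'; omega
    · rw [← (ed_neg c' lo).2, ← e', (ed_pos c lo).2, k1] at k0'; omega
    · rw [← (ed_pos c' lo).1, ← e', (ed_neg c lo).1, k1] at k0'; omega
    · refine Prod.ext ?_ (c.trans c'.symm)
      simp only [ed, ix, c, c'] at e'; omega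
  have hS : S.Finite := Finite.of_injOn hmap hinj hfin
  have cov : ∀ i, lo ≤ min (ρ i) (ρ (i + 1)) → min (ρ i) (ρ (i + 1)) < hi →
      ∃ a ∈ hS.toFinset, ∃ m : ℤ, i + m * P.n = ed a (min (ρ i) (ρ (i + 1))) := by
    intro i c1 c2
    obtain ⟨a, ha, he⟩ := base h i
    have ha' := ext h H c1 c2 ha
    obtain ⟨m, hm⟩ : ∃ m : ℤ, m = -(ed a lo / P.n) := ⟨_, rfl⟩
    have e1 : ∀ s, ix (a.1 + m * P.n, a.2) s = ix a s + m * P.n := fun s => by
      simp only [ix]; ring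
    have e2 : ∀ s, ed (a.1 + m * P.n, a.2) s = ed a s + m * P.n := fun s => by
      simp only [ed, e1]; omega
    have e3 : ed a lo + m * P.n = ed a lo % P.n := by rw [hm, Int.emod_def]; ring
    refine ⟨(a.1 + m * P.n, a.2), hS.mem_toFinset.2 ⟨⟨ha'.1, fun s d1 d2 => ?_⟩, ?_, ?_⟩, m,
      by rw [e2, he]⟩
    · rw [e1, per_zmul h.per, ha'.2 s d1 d2]
    · rw [e2, e3]; exact Int.emod_nonneg _ hn.ne'
    · rw [e2, e3]; exact Int.emod_lt_of_pos _ hn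
  have win : ∀ s : ℝ, lev lo < pl lev s ∧ pl lev s < lev hi ↔ (lo : ℝ) < s ∧ s < hi := fun s => by
    rw [← pl_int lev lo, ← pl_int lev hi, h.pl_mono.lt_iff_lt, h.pl_mono.lt_iff_lt]
  have lin : IsLinearMap ℝ fun p : E => ⟪p, u⟫ :=
    ⟨fun x y => inner_add_left x y u, fun c x => real_inner_smul_left x u c⟩
  refine ⟨hS.toFinset, ⟨hlt, ?_, ?_, fun p hp => hp, fun a ha => (hS.mem_toFinset.1 ha).1, ?_, ?_,
    ?_⟩, ?_, cov⟩
  · have hc : Continuous fun p : E => ⟪p, u⟫ := by fun_prop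
    exact (isOpen_lt continuous_const hc).inter (isOpen_lt hc continuous_const)
  · exact (convex_halfSpace_gt lin _).inter (convex_halfSpace_lt lin _)
  · intro a ha a' ha' hne s c1 c2 e
    obtain ⟨b, b0, b1⟩ := hS.mem_toFinset.1 ha
    obtain ⟨b', b0', b1'⟩ := hS.mem_toFinset.1 ha'
    rw [pl_sx P b.1, pl_sx P b'.1] at e
    obtain ⟨k, hk⟩ := P.injMod _ _ e
    have same : a.2 = a'.2 → False := fun c => by
      rw [c] at hk
      have e1 : a'.1 = a.1 + k * P.n := by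
        exact_mod_cast (by push_cast; linarith : (a'.1 : ℝ) = ((a.1 + k * P.n : ℤ) : ℝ))
      have e2 : ed a' lo = ed a lo + k * P.n := by
        simp only [ed, ix, e1, c]; omega
      have e3 : k = 0 := by
        by_contra d
        rcases lt_or_gt_of_ne d with d | d <;> nlinarith
      exact hne (Prod.ext (by rw [e1, e3]; ring) c)
    rcases b.1 with c | c <;> rcases b'.1 with c' | c'
    · exact same (c.trans c'.symm)
    · exact opp h b b' c c' c1 c2 k hk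
    · exact opp h b' b c' c c1 c2 (-k) (by push_cast; linarith)
    · exact same (c.trans c'.symm)
  · intro a ha s c1 c2
    show _ ∧ _
    rw [h.ht_pl (hS.mem_toFinset.1 ha).1 c1.le c2.le]
    exact (win s).2 ⟨c1, c2⟩
  · intro θ hθ
    have hθ' : lev lo < ⟪P.γ θ, u⟫ ∧ ⟪P.γ θ, u⟫ < lev hi := hθ
    have f1 := Int.floor_le θ
    have f2 := (Int.lt_floor_add_one θ).le
    obtain ⟨a0, ha0, he0⟩ := base h ⌊θ⌋
    obtain ⟨s0, d1, d2, d3⟩ := on_ed ha0.1 (θ := θ) (by rw [he0]; exact f1) (by rw [he0]; exact f2)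
    have w0 := h.ht_pl ha0 d1 (by push_cast at d2 ⊢; exact d2)
    rw [pl_sx P ha0.1, ← d3] at w0
    obtain ⟨w1, w2⟩ := (win s0).1 (w0 ▸ hθ')
    have r1 : lo ≤ min (ρ ⌊θ⌋) (ρ (⌊θ⌋ + 1)) := Int.lt_add_one_iff.1 (by
      exact_mod_cast w1.trans_le d2)
    have r2 : min (ρ ⌊θ⌋) (ρ (⌊θ⌋ + 1)) < hi := by exact_mod_cast d1.trans_lt w2
    obtain ⟨a, ha, m, hm⟩ := cov ⌊θ⌋ r1 r2
    have b := (hS.mem_toFinset.1 ha).1
    obtain ⟨s, g1, g2, g3⟩ := on_ed b.1 (θ := θ + m * P.n) (by rw [← hm]; push_cast; linarith)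
      (by rw [← hm]; push_cast; linarith)
    have e : P.γ θ = pl (sx P a) s := by rw [pl_sx P b.1, ← g3, P.γ_per]
    have r1' : (lo : ℝ) ≤ (min (ρ ⌊θ⌋) (ρ (⌊θ⌋ + 1)) : ℤ) := by exact_mod_cast r1
    have r2' : ((min (ρ ⌊θ⌋) (ρ (⌊θ⌋ + 1)) : ℤ) : ℝ) + 1 ≤ hi := by exact_mod_cast r2
    rw [e, h.ht_pl b (r1'.trans g1) (g2.trans r2')] at hθ'
    exact ⟨a, ha, s, ((win s).1 hθ').1, ((win s).1 hθ').2, e⟩
  · rw [← ncard_eq_toFinset_card S hS]
    exact (ncard_le_ncard_of_injOn _ hmap hinj hfin).trans hcard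

end Pool.Agent.P.MP_28369d_gt.SB
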