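import Pool.Agent.P.MP_28369d_gt.SB.FinA
import Pool.Agent.P.MP_28369d_gt.ST.BaseTop
import Pool.Agent.P.MP_28369d_gt.ST.TSUBN
import Pool.Agent.P.MP_28369d_gt.ST.TAL
import Pool.Agent.P.MP_28369d_gt.ST.TWIN1
import Pool.Agent.P.MP_28369d_gt.ST.TWIN
import Pool.Agent.P.MP_28369d_gt.ST.TPLANE
import Pool.Agent.P.MP_28369d_gt.ST.TTCUT
import Pool.Agent.P.MP_28369d_gt.ST.TPCUT
import Pool.Agent.P.MP_28369d_gt.ST.TELEM
import Pool.Agent.P.MP_28369d_gt.ST.TREC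
import Pool.Agent.P.MP_28369d_gt.ST.TJOIN
import Pool.Agent.P.MP_28369d_gt.ST.TMVR
import Pool.Agent.P.MP_28369d_gt.ST.TMVI
import Pool.Agent.P.MP_28369d_gt.ST.TMOVE
import Pool.Agent.P.MP_28369d_gt.ST.TSURG
import Pool.Agent.P.MP_28369d_gt.ST.TCNT
import Pool.Agent.P.MP_28369d_gt.ST.TDROP
import Pool.Agent.P.MP_28369d_gt.ST.THALT
import Pool.Agent.P.MP_28369d_gt.ST.TNP
import Pool.Agent.P.MP_28369d_gt.ST.TKEY
import Pool.Agent.P.MP_28369d_gt.ST.TPLAN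
import Pool.Agent.P.MP_28369d_gt.ST.TCORE
import Pool.Agent.P.MP_28369d_gt.ST.TPUB

/-!
The structure theorem without hypotheses.
-/

namespace Pool.Agent.P.MP_28369d_gt.SB

theorem q_MOVE : S_MOVE := p_MOVE (p_MVI p_MVR) s_FAM s_PLLIP s_PLEMB

theorem q_CORE : S_CORE :=
  p_CORE (s_GP p_PERT)
    (p_PLAN s_COORD (s_LEV s_PL) (s_STR s_FAM s_PLLIP s_PLEMB s_ENUM s_LEVC s_REPAR))
    (p_AL p_SUBN s_ENUM s_LEVC) (p_WIN (p_WIN1 s_LEVC)) (p_REC p_TCUT p_PCUT (p_ELEM p_PLANE))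
    (p_KEY p_HALT (p_NP p_PLANE) p_TCUT (p_SURG q_MOVE p_TCUT) (p_DROP p_CNT)) p_JOIN

theorem finS (n : ℕ) : ∃ N : ℕ, ∀ P : Poly, sb P.carrier = n →
    ∃ Q : Poly, Iso P.carrier Q.carrier ∧ Boxed Q N (max 1 (n - br P.carrier)) :=
  thmS q_CORE p_PUB n

end Pool.Agent.P.MP_28369d_gt.SB
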