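import Pool.Agent.P.MP_28369d_gt.ST.Iface2

/-! Step COLPI. -/

namespace Pool.Agent.P.MP_28369d_gt.SB

open Set Filter Topology
open scoped RealInnerProductSpace

namespace COLPIx

theorem two {α : Type} {f : ℝ → α} {τ : ℝ} {p : α → Prop} (h0 : p (f τ))
    (h1 : ∀ᶠ x in 𝓝[<] τ, p (f x)) (h2 : ∀ᶠ x in 𝓝[>] τ, p (f x)) : ∀ᶠ x in 𝓝 τ, p (f x) := by
  filter_upwards [eventually_nhdsWithin_iff.1 h1, eventually_nhdsWithin_iff.1 h2] with x a b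
  rcases lt_trichotomy x τ with c | c | c
  · exact a c
  · rw [c]; exact h0
  · exact b c

theorem iso {Q : Poly} {d : E} (hX : (Xs Q d).Finite) (τ : ℝ) :
    ∃ l u, l < τ ∧ τ < u ∧ ∀ x ∈ Ioo l u, x ≠ τ → ¬ Cr Q d x := by
  have hn : (0 : ℝ) < Q.n := by exact_mod_cast Q.pos
  have hS : {x | x ∈ Ioo (τ - 1) (τ + 1) ∧ Cr Q d x}.Finite := by
    refine (hX.biUnion fun y _ => (finite_Icc ⌊y - τ - 1⌋ ⌈y - τ + 1⌉).image
      fun j : ℤ => y - j).subset ?_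
    rintro x ⟨⟨a, b⟩, θ, r, hr, e⟩
    obtain ⟨k, k0, k1⟩ := exists_shift hn 0 x
    refine mem_biUnion (x := x + k * Q.n) ⟨k0, by linarith, θ, r, hr, by rw [Q.γ_per, e]⟩
      ⟨k * Q.n, ⟨Int.floor_le_iff.2 ?_, Int.le_ceil_iff.2 ?_⟩, ?_⟩ <;> push_cast <;> linarith
  have h1 := eventually_nhdsWithin_iff.1
    (hS.eventually_cofinite_notMem.filter_mono (nhdsNE_le_cofinite τ))
  obtain ⟨l, u, ⟨a, b⟩, c⟩ := mem_nhds_iff_exists_Ioo_subset.1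
    (h1.and (Ioo_mem_nhds (sub_one_lt τ) (lt_add_one τ)))
  exact ⟨l, u, a, b, fun x hx hne e => (c hx).1 hne ⟨(c hx).2, e⟩⟩

theorem loc {Q : Poly} {d : E} {s : ℂ} {a : ℝ → ℂ} (h : Col Q d s a) {τ : ℝ} (c : ¬ Cr Q d τ) :
    ∀ᶠ x in 𝓝 τ, a x = a τ := by
  obtain ⟨b, h1, h2, -⟩ := h.step τ
  refine two (p := fun y => y = a τ) rfl ?_ (h.rc τ)
  rw [h2 fun τ1 r hr e => c ⟨τ1, r, hr.ne', e⟩]
  exact h1

variable {ι : Type} {Q : Poly} {d : E} {s : ι → ℂ} {a : ι → ℝ → ℂ}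

theorem left (hX : (Xs Q d).Finite) (h : ∀ t, Col Q d (s t) (a t)) {τ : ℝ} {b : ι → ℂ}
    (hb : ∀ t, ∀ᶠ x in 𝓝[<] τ, a t x = b t) : ∀ᶠ x in 𝓝[<] τ, (fun t => a t x) = b := by
  obtain ⟨l, u, a1, a2, a3⟩ := iso hX τ
  filter_upwards [Ioo_mem_nhdsLT a1] with x hx
  funext t
  obtain ⟨y, y1, y2⟩ := ((hb t).and (Ioo_mem_nhdsLT a1)).exists
  rw [← y1]
  exact const_of_ev' isPreconnected_Ioo
    (fun z hz => loc (h t) (a3 z ⟨hz.1, hz.2.trans a2⟩ hz.2.ne)) hx y2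

theorem right (hX : (Xs Q d).Finite) (h : ∀ t, Col Q d (s t) (a t)) (τ : ℝ) :
    ∀ᶠ x in 𝓝[>] τ, (fun t => a t x) = fun t => a t τ := by
  obtain ⟨l, u, a1, a2, a3⟩ := iso hX τ
  filter_upwards [Ioo_mem_nhdsGT a2] with x hx
  funext t
  obtain ⟨y, y1, y2⟩ := (((h t).rc τ).and (Ioo_mem_nhdsGT a2)).exists
  rw [← y1]
  exact const_of_ev' isPreconnected_Ioo
    (fun z hz => loc (h t) (a3 z ⟨a1.trans hz.1, hz.2⟩ hz.1.ne')) hx y2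

end COLPIx

theorem p_COLPI (hW5 : S_W5) :
    S_COLPI := by
  intro ι Q d s a ⟨t0⟩ hG h
  have hX := (hW5 Q d hG).2.2.1
  refine ⟨fun τ k => funext fun t => (h t).per τ k, COLPIx.right hX h, fun τ => ?_⟩
  choose b h1 h2 h3 using fun t => (h t).step τ
  refine ⟨b, COLPIx.left hX h h1, fun c => funext fun t => h2 t c, fun τ1 r hr c => ?_⟩
  obtain ⟨a1, a2, -, a4⟩ := h3 t0 τ1 r hr c
  refine ⟨a1, a2, COLPIx.two (f := fun x t => a t x) (p := fun y => y = fun t => a t τ1) rfl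
    (COLPIx.left hX h fun t => (h3 t τ1 r hr c).2.2.1.filter_mono nhdsWithin_le_nhds)
    (COLPIx.right hX h τ1), ?_⟩
  rcases a4 with ⟨a4, -⟩ | ⟨a4, -⟩
  · exact Or.inl ⟨a4, funext fun t =>
      (((h3 t τ1 r hr c).2.2.2).resolve_right fun e => lt_asymm a4 e.1).2⟩
  · exact Or.inr ⟨a4, funext fun t =>
      (((h3 t τ1 r hr c).2.2.2).resolve_left fun e => lt_asymm a4 e.1).2⟩

end Pool.Agent.P.MP_28369d_gt.SB
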