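import Pool.Agent.P.MP_28369d_gt.ST.Iface2

/-! Step GAL. -/

namespace Pool.Agent.P.MP_28369d_gt.SB

open Set Filter Topology
open scoped RealInnerProductSpace

theorem p_GAL :
    S_GAL := by
  classical
  intro D
  refine ⟨D * D.reverse, Polynomial.card_support_mul_le.trans ?_, ?_, fun s t j k hs hj hk h => ?_⟩
  · rw [sq, Polynomial.reverse, Polynomial.reflect_support]
    exact Nat.mul_le_mul_left _ Finset.card_image_le
  · rintro ⟨k, D0, rfl, h0⟩
    let : Invertible (1 : ℤ) := invertibleOne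
    have := Polynomial.eval₂_reverse_mul_pow (RingHom.id ℤ) 1 D0
    simp only [invOf_one, one_pow, mul_one, Polynomial.eval₂_id] at this
    have h1 : (1 + Polynomial.X : Polynomial ℤ).reverse = 1 + Polynomial.X := by
      rw [add_comm, ← Polynomial.C_1, Polynomial.reverse_add_C]
      simp [add_comm, Polynomial.reverse]
    have h2 : ∀ l : ℕ, ((1 + Polynomial.X : Polynomial ℤ) ^ l).reverse = (1 + Polynomial.X) ^ l := by
      intro l
      induction l with
      | zero => simp [Polynomial.reverse]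
      | succ l ih => rw [pow_succ, Polynomial.reverse_mul_of_domain, ih, h1]
    refine ⟨k + k, D0 * D0.reverse, ?_, by rw [Polynomial.eval_mul, this, h0, one_mul]⟩
    rw [Polynomial.reverse_mul_of_domain, h2]
    ring
  have ht : t ≠ 0 := hk ▸ zpow_ne_zero k hs
  rw [map_mul]
  by_cases c : j * k = 1
  · rcases Int.eq_one_or_neg_one_of_mul_eq_one c with rfl | rfl
    · rw [zpow_one] at hj
      rw [← hj, h, zero_mul]
    · let := invertibleOfNonzero hs
      have h1 := (Polynomial.eval₂_reverse_eq_zero_iff (algebraMap ℤ ℂ) s D).2 h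
      have h2 : ⅟s = t := by rw [invOf_eq_inv, hj, zpow_neg_one, inv_inv]
      rw [h2] at h1
      exact mul_eq_zero_of_right _ h1
  · have h1 : t ^ (j * k - 1) = 1 := by
      rw [zpow_sub_one₀ ht, zpow_mul, ← hj, ← hk, mul_inv_cancel₀ ht]
    have h2 : t ^ (j * k - 1).natAbs = 1 := by
      rcases Int.natAbs_eq (j * k - 1) with e | e <;> rw [e] at h1
      · exact_mod_cast h1
      · rw [zpow_neg, inv_eq_one] at h1
        exact_mod_cast h1
    have h3 : 0 < orderOf t :=
      (isOfFinOrder_iff_pow_eq_one.2 ⟨_, Int.natAbs_pos.2 (sub_ne_zero.2 c), h2⟩).orderOf_pos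
    have h4 := IsPrimitiveRoot.orderOf t
    have e : ∀ (x : ℂ) (m : ℤ) (l : ℕ), x ^ l = 1 → (x ^ m) ^ l = 1 := fun x m l hx => by
      rw [← zpow_natCast, ← zpow_mul, mul_comm, zpow_mul, zpow_natCast, hx, one_zpow]
    have h5 : IsPrimitiveRoot s (orderOf t) :=
      ⟨hj ▸ e t j _ h4.1, fun l hl => h4.2 l (hk ▸ e s k l hl)⟩
    have h6 := minpoly.isIntegrallyClosed_dvd (h5.isIntegral h3) h
    rw [← Polynomial.cyclotomic_eq_minpoly h5 h3, Polynomial.cyclotomic_eq_minpoly h4 h3] at h6
    exact mul_eq_zero_of_left (Polynomial.aeval_eq_zero_of_dvd_aeval_eq_zero h6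
      (minpoly.aeval ℤ t)) _

end Pool.Agent.P.MP_28369d_gt.SB
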