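import Pool.Agent.P.MP_28369d_gt.ST.Iface

/-! Step INVH. -/

namespace Pool.Agent.P.MP_28369d_gt.SB

open Set Filter Topology
open scoped RealInnerProductSpace

namespace INVHx

/-- Continuous inverse of a function that increases strictly on an interval. -/
theorem inv {g : ℝ → ℝ} (hg : Continuous g) {a b : ℝ} (hab : a ≤ b)
    (hm : StrictMonoOn g (Icc a b)) : ∃ ψ : ℝ → ℝ, Continuous ψ ∧ StrictMono ψ ∧
      ∀ x ∈ Icc a b, ψ (g x) = x := by
  set c : ℝ → ℝ := fun t => max a (min b t) with hc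
  have hcm : ∀ t, c t ∈ Icc a b := fun t => ⟨le_max_left _ _, max_le hab (min_le_left _ _)⟩
  have hce : ∀ t ∈ Icc a b, c t = t := fun t ht => by
    simp only [hc]; rw [min_eq_right ht.2, max_eq_right ht.1]
  have hG : StrictMono fun t => g (c t) + (t - c t) := by
    intro s t hst
    have h1 : c s ≤ c t := max_le_max le_rfl (min_le_min le_rfl hst.le)
    have h2 : s - c s ≤ t - c t := by
      simp only [hc, max_def, min_def]; split_ifs <;> linarith
    rcases h1.lt_or_eq with h | h
    · have := hm (hcm s) (hcm t) h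
      show g (c s) + (s - c s) < g (c t) + (t - c t)
      linarith
    · show g (c s) + (s - c s) < g (c t) + (t - c t)
      rw [h]; linarith
  have hS : Function.Surjective fun t => g (c t) + (t - c t) := by
    intro y
    rcases le_total y (g a) with h | h
    · refine ⟨a + (y - g a), ?_⟩
      have : c (a + (y - g a)) = a := by
        simp only [hc]; exact max_eq_left ((min_le_right _ _).trans (by linarith))
      show g (c _) + (_ - c _) = y
      rw [this]; ring
    rcases le_total (g b) y with h' | h'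
    · refine ⟨b + (y - g b), ?_⟩
      have : c (b + (y - g b)) = b := by
        simp only [hc]; rw [min_eq_left (by linarith), max_eq_right hab]
      show g (c _) + (_ - c _) = y
      rw [this]; ring
    obtain ⟨x, hx, e⟩ := intermediate_value_Icc hab hg.continuousOn ⟨h, h'⟩
    refine ⟨x, ?_⟩
    show g (c _) + (_ - c _) = y
    rw [hce x hx, e]; ring
  refine ⟨(hG.orderIsoOfSurjective _ hS).symm, (hG.orderIsoOfSurjective _ hS).symm.continuous,
    (hG.orderIsoOfSurjective _ hS).symm.strictMono, fun x hx => ?_⟩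
  rw [OrderIso.symm_apply_eq, StrictMono.coe_orderIsoOfSurjective, hce x hx]
  ring

end INVHx

theorem p_INVH :
    S_INVH := by
  rintro Q u ε θ0 θ1 ⟨hε, h0, H⟩
  have hz : Continuous fun θ => ⟪Q.γ θ, u⟫ := Q.continuous_γ.inner continuous_const
  have hdf : ∀ i, co Q u (i + 1) - co Q u i = ⟪Q.e i, u⟫ := fun i => df_co' Q u i
  rcases hε with rfl | rfl
  · simp only [Int.cast_one, one_mul] at h0 H ⊢
    have hl : θ0 ≤ θ1 := by linarith
    rw [max_eq_right hl, min_eq_left hl] at H
    have hm : StrictMonoOn (fun θ => ⟪Q.γ θ, u⟫) (Icc θ0 θ1) := fun s hs t ht hst => by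
      simp only [← pl_co]
      refine pl_lt _ hst fun i a b => ?_
      have := H i (a.trans_le ht.2) (hs.1.trans_lt b)
      have := hdf i
      linarith
    obtain ⟨ψ, c1, c2, c3⟩ := INVHx.inv hz hl hm
    rw [uIcc_of_le hl]
    refine ⟨hm (left_mem_Icc.2 hl) (right_mem_Icc.2 hl) (by linarith), ψ, c1,
      c3 _ (left_mem_Icc.2 hl), c3 _ (right_mem_Icc.2 hl), c2.strictMonoOn _, fun h hh => ?_,
      fun θ hθ => ⟨⟨hm.monotoneOn (left_mem_Icc.2 hl) hθ hθ.1,
        hm.monotoneOn hθ (right_mem_Icc.2 hl) hθ.2⟩, c3 θ hθ⟩⟩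
    obtain ⟨x, hx, rfl⟩ := intermediate_value_Icc hl hz.continuousOn hh
    rw [c3 x hx]
    exact ⟨hx, rfl⟩
  · simp only [Int.cast_neg, Int.cast_one, neg_mul, one_mul] at h0 H ⊢
    have hl : θ1 ≤ θ0 := by linarith
    have hl' : -θ0 ≤ -θ1 := by linarith
    rw [max_eq_left hl, min_eq_right hl] at H
    have hm : StrictMonoOn (fun θ => ⟪Q.γ (-θ), u⟫) (Icc (-θ0) (-θ1)) := fun s hs t ht hst => by
      simp only [← pl_co]
      refine pl_gt _ (by linarith) fun i a b => ?_
      have := H i (by linarith [hs.1]) (by linarith [ht.2])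
      have := hdf i
      linarith
    obtain ⟨ψ, c1, c2, c3⟩ := INVHx.inv (hz.comp continuous_neg) hl' hm
    have c4 : ∀ θ ∈ Icc θ1 θ0, -ψ ⟪Q.γ θ, u⟫ = θ := fun θ hθ => by
      have := c3 (-θ) ⟨by linarith [hθ.2], by linarith [hθ.1]⟩
      simp only [Function.comp_apply, neg_neg] at this
      rw [this, neg_neg]
    have hm' : StrictAntiOn (fun θ => ⟪Q.γ θ, u⟫) (Icc θ1 θ0) := fun s hs t ht hst => by
      have := hm (a := -t) (b := -s) ⟨by linarith [ht.2], by linarith [ht.1]⟩
        ⟨by linarith [hs.2], by linarith [hs.1]⟩ (by linarith)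
      simpa only [neg_neg] using this
    rw [uIcc_of_ge hl]
    refine ⟨hm' (left_mem_Icc.2 hl) (right_mem_Icc.2 hl) (by linarith), fun h => -ψ h, c1.neg,
      c4 _ (right_mem_Icc.2 hl), c4 _ (left_mem_Icc.2 hl), ?_, fun h hh => ?_,
      fun θ hθ => ⟨⟨hm'.antitoneOn hθ (right_mem_Icc.2 hl) hθ.2,
        hm'.antitoneOn (left_mem_Icc.2 hl) hθ hθ.1⟩, c4 θ hθ⟩⟩
    · simp only [neg_neg]
      exact c2.strictMonoOn _
    · obtain ⟨x, hx, rfl⟩ := intermediate_value_Icc' hl hz.continuousOn hh
      simp only [c4 x hx]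
      exact ⟨hx, trivial⟩

end Pool.Agent.P.MP_28369d_gt.SB
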