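import Pool.Agent.P.MP_28369d_gt.ST.Base

/-!
Statements of the steps of the structure theorem and of the twist bound.
-/

namespace Pool.Agent.P.MP_28369d_gt.SB

open Set Filter Topology
open scoped RealInnerProductSpace

/-! ## Part 1: the structure theorem -/

-- deps:
def S_SUBN : Prop := ∀ (P Q : Poly) (c : ℤ → ℝ), StrictMono c → (∀ k, c (k + Q.n) = c k + P.n) →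
  (∀ k, ∃ p : ℤ, (p : ℝ) ≤ c k ∧ c (k + 1) ≤ p + 1) → (∀ k, Q.v k = P.γ (c k)) →
  (∀ v, Q.nmax v ≤ P.nmax v) ∧ (GP3 P → GPa Q)

-- deps: SUBN ENUM LEVC
-- imports: Pool.Agent.P.MP_28369d_gt.SB.TSUB
def S_AL : Prop := ∀ (P : Poly) (u : E), Gen P u → ∃ (Q : Poly) (ρ : ℤ → ℤ) (lev : ℤ → ℝ),
  Q.carrier = P.carrier ∧ Al Q u ρ lev ∧ (∀ v, Q.nmax v ≤ P.nmax v) ∧
  Q.n ≤ P.n * (2 * P.n + 1) ∧ (GP3 P → GPa Q)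

-- deps: LEVC
def S_WIN1 : Prop := ∀ (P : Poly) (u : E) (ρ : ℤ → ℤ) (lev : ℤ → ℝ) (lo hi : ℤ), Al P u ρ lev →
  lo < hi → (∀ i, lo < ρ i → ρ i < hi → ρ (i - 1) ≠ ρ (i + 1)) → ∃ A : Finset (ℤ × ℤ),
    Good P u ρ lev ⟨{p | lev lo < ⟪p, u⟫ ∧ ⟪p, u⟫ < lev hi}, A, lo, hi⟩ ∧
    A.card ≤ 2 * P.nmax u + 1 ∧ ∀ i, lo ≤ min (ρ i) (ρ (i + 1)) → min (ρ i) (ρ (i + 1)) < hi →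
      ∃ a ∈ A, ∃ m : ℤ, i + m * P.n = ed a (min (ρ i) (ρ (i + 1)))

-- deps: WIN1
def S_WIN : Prop := ∀ n : ℕ, ∃ K : ℕ, ∀ (P : Poly) (u : E) (ρ : ℤ → ℤ) (lev : ℤ → ℝ),
  Al P u ρ lev → P.nmax u ≤ n → ∃ F, Fam P u ρ lev F K K ∧ Cov P F

-- deps:
def S_PLANE : Prop := ∀ (u x y x' y' : E), ⟪x, u⟫ = ⟪x', u⟫ → ⟪y, u⟫ = ⟪y', u⟫ → ⟪x, u⟫ < ⟪y, u⟫ →
  (∀ t : ℝ, 0 < t → t < 1 → x + t • (y - x) ≠ x' + t • (y' - x')) → ∃ (w : E) (c : ℝ),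
    (∀ t : ℝ, 0 < t → t < 1 → c < ⟪x + t • (y - x), w⟫ ∧ ⟪x' + t • (y' - x'), w⟫ < c) ∧
    (x ≠ x' → c < ⟪x, w⟫ ∧ ⟪x', w⟫ < c) ∧ (y ≠ y' → c < ⟪y, w⟫ ∧ ⟪y', w⟫ < c)

-- deps:
def S_TCUT : Prop := ∀ (P : Poly) (u : E) (ρ : ℤ → ℤ) (lev : ℤ → ℝ) (B : Bd), Al P u ρ lev →
  Good P u ρ lev B → (∀ s t, B.lo ≤ s → s < t → t ≤ B.hi → Good P u ρ lev (tcut u lev B s t)) ∧
    ∀ (r : ℤ) (N1 N2 k : ℕ), B.lo < r → r < B.hi → Dec P u ρ lev (tcut u lev B B.lo r) N1 k →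
      Dec P u ρ lev (tcut u lev B r B.hi) N2 k → Dec P u ρ lev B (N1 + N2) k

-- deps:
def S_PCUT : Prop := ∀ (P : Poly) (u : E) (ρ : ℤ → ℤ) (lev : ℤ → ℝ) (B : Bd), Al P u ρ lev →
  Good P u ρ lev B → ¬ FullC B.A (sx P) B.lo B.hi → ∃ B1 B2 : Bd, Good P u ρ lev B1 ∧
    Good P u ρ lev B2 ∧ B1.A.card < B.A.card ∧ B2.A.card < B.A.card ∧
    ∀ N1 N2 k : ℕ, Dec P u ρ lev B1 N1 k → Dec P u ρ lev B2 N2 k → Dec P u ρ lev B (N1 + N2) k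

-- deps: PLANE
def S_ELEM : Prop := ∀ (P : Poly) (u : E) (ρ : ℤ → ℤ) (lev : ℤ → ℝ) (B : Bd) (k : ℕ),
  Al P u ρ lev → Good P u ρ lev B → B.hi = B.lo + 1 → 1 ≤ k → Dec P u ρ lev B B.A.card k

-- deps: TCUT PCUT ELEM
def S_REC : Prop := ∀ K M e : ℕ, 1 ≤ e → ∃ N : ℕ, ∀ (P : Poly) (u : E) (ρ : ℤ → ℤ) (lev : ℤ → ℝ),
  Al P u ρ lev → (∀ B, Good P u ρ lev B → e < B.A.card → B.A.card ≤ K → ¬ Chn P B M) →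
  ∀ B, Good P u ρ lev B → B.A.card ≤ K → Dec P u ρ lev B N e

-- deps:
def S_JOIN : Prop := ∀ (P : Poly) (u : E) (ρ : ℤ → ℤ) (lev : ℤ → ℝ) (F : Set Bd) (K k N e : ℕ),
  Fam P u ρ lev F K k → Cov P F → (∀ B ∈ F, Dec P u ρ lev B N e) →
  ∃ F', Fam P u ρ lev F' (K * N) e ∧ Cov P F'

-- deps:
def S_MVR : Prop := ∀ (P : Poly) (u : E) (ρ : ℤ → ℤ) (lev : ℤ → ℝ) (F : Set Bd)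
  (y : Bd → ℤ × ℤ → ℤ → E) (w : ℤ → E), Al P u ρ lev → (∀ B ∈ F, Good P u ρ lev B) →
  BdH P u F y → (∀ i, w (i + P.n) = w i) → MvC P F y w →
  (∀ θ : ℝ, (∀ B ∈ F, P.γ θ ∉ B.R) → pl w θ = P.γ θ) ∧
    ∀ B ∈ F, ∀ a ∈ B.A, ∀ s : ℝ, (B.lo : ℝ) < s → s < B.hi → pl (fun r => w (ix a r)) s ∈ B.R

-- deps: MVR
def S_MVI : Prop := ∀ (P : Poly) (u : E) (ρ : ℤ → ℤ) (lev : ℤ → ℝ) (F : Set Bd)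
  (y : Bd → ℤ × ℤ → ℤ → E) (w : ℤ → E), Al P u ρ lev → (∀ B ∈ F, Good P u ρ lev B) → Dis F →
  BdH P u F y → (∀ i, w (i + P.n) = w i) → MvC P F y w → InjMod (pl w) P.n

-- deps: MVI FAM PLLIP PLEMB
def S_MOVE : Prop := ∀ (P : Poly) (u : E) (ρ : ℤ → ℤ) (lev : ℤ → ℝ) (F : Set Bd)
  (y : Bd → ℤ × ℤ → ℤ → E), Al P u ρ lev → (∀ B ∈ F, Good P u ρ lev B) → Dis F →
  (∀ B ∈ F, Move B.A (sx P) (y B) u B.R B.lo B.hi lev) →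
  ∃ Q : Poly, Q.n = P.n ∧ Iso P.carrier Q.carrier ∧ MvC P F y Q.v

-- deps: MOVE TCUT
def S_SURG : Prop := ∀ (P : Poly) (u : E) (ρ : ℤ → ℤ) (lev : ℤ → ℝ) (B : Bd) (w : E) (s t : ℤ),
  Al P u ρ lev → Good P u ρ lev B → B.lo < s → s < t → t < B.hi →
  (∀ a ∈ B.A, ∀ a' ∈ B.A, ⟪sx P a s, w⟫ < ⟪sx P a' t, w⟫) →
  ∃ Q : Poly, Q.n = P.n ∧ Iso P.carrier Q.carrier ∧
    (∀ i, P.v i ∉ (tcut u lev B s t).R → Q.v i = P.v i) ∧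
    ∀ a ∈ B.A, ∀ r, s ≤ r → r < t → 0 < ⟪sx Q a (r + 1) - sx Q a r, w⟫

-- deps:
def S_CNT : Prop := ∀ (n : ℕ) (f g : ℤ → ℝ) (A : Finset (ℤ × ℤ)) (p q : ℤ × ℤ → ℤ), 0 < n →
  (∀ i, f (i + n) = f i) → (∀ i, g (i + n) = g i) → (∀ i, f i ≠ 0) →
  (∀ a ∈ A, ∀ a' ∈ A, ∀ i j m : ℤ, p a ≤ i → i ≤ q a → p a' ≤ j → j ≤ q a' → i + m * n = j →
    a = a' ∧ m = 0) →
  (∀ i, (∀ a ∈ A, ∀ m : ℤ, ¬ (p a ≤ i + m * n ∧ i + m * n ≤ q a)) → g i = f i) →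
  (∀ a ∈ A, (∀ i, p a ≤ i → i ≤ q a → 0 < g i * f (p a)) ∧ 0 < f (q a) * f (p a) ∧
    ∃ j, p a < j ∧ j < q a ∧ f j * f (p a) < 0) →
  (∀ i, g i ≠ 0) ∧ mx n g + A.card ≤ mx n f

-- deps: CNT
def S_DROP : Prop := ∀ (P Q : Poly) (u w : E) (ρ : ℤ → ℤ) (lev : ℤ → ℝ) (B : Bd),
  Al P u ρ lev → Good P u ρ lev B → Gen P w → Q.n = P.n → (∀ i, P.v i ∉ B.R → Q.v i = P.v i) →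
  (∀ a ∈ B.A, ∀ r, B.lo ≤ r → r < B.hi → 0 < ⟪sx Q a (r + 1) - sx Q a r, w⟫) →
  (∀ a ∈ B.A, 0 < ⟪sx P a (B.lo + 1) - sx P a B.lo, w⟫ ∧ 0 < ⟪sx P a B.hi - sx P a (B.hi - 1), w⟫ ∧
    ∃ r, B.lo < r ∧ r + 1 < B.hi ∧ ⟪sx P a (r + 1) - sx P a r, w⟫ < 0) →
  Gen Q w ∧ Q.nmax w + B.A.card ≤ P.nmax w

-- deps:
def S_HALT : Prop := ∀ (P : Poly) (u w : E) (ρ : ℤ → ℤ) (lev : ℤ → ℝ) (a : ℤ × ℤ) (lo hi : ℤ)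
  (n : ℕ), Al P u ρ lev → Std ρ a lo hi → P.nmax w ≤ n →
  ¬ AltL lo hi (fun r => ⟪sx P a (r + 1) - sx P a r, w⟫) (n + 1)

-- deps: PLANE
def S_NP : Prop := ∀ (P : Poly) (u : E) (ρ : ℤ → ℤ) (lev : ℤ → ℝ) (B : Bd) (s t : ℤ) (v : E),
  Al P u ρ lev → GPa P → Good P u ρ lev B → 2 ≤ B.A.card → B.lo < s → s < t → t < B.hi →
  FullC B.A (sx P) s t → v ≠ 0 →
  ∃ a ∈ B.A, ∃ r, s ≤ r ∧ r < t ∧ ⟪sx P a (r + 1) - sx P a r, v⟫ ≠ 0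

-- deps: HALT NP TCUT SURG DROP
def S_KEY : Prop := ∀ n K : ℕ, ∃ M : ℕ, ∀ (P : Poly) (u : E) (ρ : ℤ → ℤ) (lev : ℤ → ℝ) (m : ℕ),
  Al P u ρ lev → GPa P → (∀ v, P.nmax v ≤ n) → LB P m → ∀ B, Good P u ρ lev B → 2 ≤ B.A.card →
  B.A.card ≤ K → Chn P B M → m + B.A.card ≤ n

-- deps: COORD LEV STR
def S_PLAN : Prop := ∀ n : ℕ, ∃ N : ℕ, ∀ (P : Poly) (u : E), u ≠ 0 → (∀ i, ⟪P.e i, u⟫ = 0) →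
  (∀ v, P.nmax v ≤ n) → ∃ Q : Poly, Q.n ≤ N ∧ Iso P.carrier Q.carrier

-- deps: GP PLAN AL WIN REC KEY JOIN
def S_CORE : Prop := ∀ n e : ℕ, 1 ≤ e → ∃ N : ℕ, ∀ (P : Poly) (m : ℕ), n ≤ m + e → LB P m →
  (∀ v, P.nmax v ≤ n) → ∃ (Q : Poly) (u : E) (ρ : ℤ → ℤ) (lev : ℤ → ℝ) (F : Set Bd),
    Iso P.carrier Q.carrier ∧ Al Q u ρ lev ∧ Fam Q u ρ lev F N e ∧ Cov Q F

-- deps: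
def S_PUB : Prop := ∀ (P : Poly) (u : E) (ρ : ℤ → ℤ) (lev : ℤ → ℝ) (F : Set Bd) (N k : ℕ),
  Al P u ρ lev → Fam P u ρ lev F N k → Cov P F → Boxed P N k

/-! ## Part 2: boxes with two arcs -/

-- deps: MOVE GD
def S_SQ1 : Prop := ∀ (P : Poly) (u : E) (ρ : ℤ → ℤ) (lev : ℤ → ℝ) (F : Set Bd) (N k : ℕ),
  Al P u ρ lev → Fam P u ρ lev F N k → Cov P F → ∃ (p : Bd → E) (v0 : ℤ → E), Lim P F p v0 ∧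
    ∀ d : E, d ≠ 0 → ∀ η > (0 : ℝ), ∃ Q, Near P u d ρ v0 η Q

-- deps:
def S_SQ2 : Prop := ∀ (P : Poly) (u : E) (ρ : ℤ → ℤ) (lev : ℤ → ℝ) (F : Set Bd) (N k : ℕ)
  (p : Bd → E) (v0 : ℤ → E), Al P u ρ lev → Fam P u ρ lev F N k → Lim P F p v0 →
  ∃ (d : E) (η : ℝ), d ≠ 0 ∧ ⟪d, u⟫ = 0 ∧ 0 < η ∧ Far F p v0 d η

-- deps:
def S_SQ3 : Prop := ∀ (P : Poly) (u : E) (ρ : ℤ → ℤ) (lev : ℤ → ℝ) (F : Set Bd) (N k : ℕ)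
  (p : Bd → E) (v0 : ℤ → E) (η : ℝ), Al P u ρ lev → Fam P u ρ lev F N k → Lim P F p v0 → 0 < η →
  ∃ κ η' : ℝ, 0 < κ ∧ 0 < η' ∧ η' ≤ η ∧
    ∀ Q : Poly, (∀ i, ‖Q.v i - v0 i‖ < η') → Tub Q u F p κ η

-- deps:
def S_SQX : Prop := ∀ (P Q : Poly) (u d : E) (ρ : ℤ → ℤ) (lev : ℤ → ℝ) (F : Set Bd) (N k : ℕ)
  (p : Bd → E) (v0 : ℤ → E) (η : ℝ), Al P u ρ lev → Fam P u ρ lev F N k → Cov P F →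
  Lim P F p v0 → d ≠ 0 → ⟪d, u⟫ = 0 → Far F p v0 d η → Near P u d ρ v0 η Q →
  ∀ B ∈ F, ∀ a ∈ B.A,
    StrictMonoOn (fun s : ℝ => ⟪pl (sx Q a) s, u⟫) (Icc (B.lo : ℝ) B.hi) ∧
    (∀ B' ∈ F, ∀ a' ∈ B'.A, (B ≠ B' ∨ a ≠ a') → ∀ s s' : ℝ, (B.lo : ℝ) < s → s < B.hi →
      (B'.lo : ℝ) < s' → s' < B'.hi → pl (sx Q a) s ≠ pl (sx Q a') s') ∧
    ∀ s θ' r : ℝ, (B.lo : ℝ) ≤ s → s ≤ B.hi → ‖pl (sx Q a) s - p B‖ < η → r ≠ 0 →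
      Q.γ θ' = pl (sx Q a) s + r • d → ∃ a' ∈ B.A, a' ≠ a ∧ ∃ (s' : ℝ) (m : ℤ),
        (B.lo : ℝ) ≤ s' ∧ s' ≤ B.hi ∧ θ' + m * Q.n = a'.1 + a'.2 * s'

-- deps:
-- imports: Pool.Agent.P.MP_28369d_gt.SB.TW4
def S_XC : Prop := ∀ (Q : Poly) (d : E) (S : Finset ℤ), GDg Q d →
  {θ | θ ∈ Xs Q d ∧ ∃ θ' r : ℝ, r ≠ 0 ∧ Q.γ θ' = Q.γ θ + r • d ∧ ⌊θ⌋ % Q.n ∈ S ∧
    ⌊θ'⌋ % Q.n ∈ S}.ncard ≤ S.card ^ 2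

-- deps: SQX W5
def S_SQW : Prop := ∀ (P Q : Poly) (u d : E) (ρ : ℤ → ℤ) (lev : ℤ → ℝ) (F : Set Bd) (N : ℕ)
  (p : Bd → E) (v0 : ℤ → E) (κ η : ℝ), Al P u ρ lev → Fam P u ρ lev F N 2 → Cov P F →
  Lim P F p v0 → d ≠ 0 → ⟪d, u⟫ = 0 → Far F p v0 d η → Near P u d ρ v0 η Q → 0 < κ →
  Tub Q u F p κ η → ∀ B ∈ F, B.lo + 1 < B.hi → ∃ s0 s1 : ℤ × ℤ → ℝ,
    (∀ a ∈ B.A, (B.lo : ℝ) < s0 a ∧ s0 a < B.lo + 1 ∧ (B.hi : ℝ) - 1 < s1 a ∧ s1 a < B.hi ∧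
      ∀ s, s0 a ≤ s → s ≤ s1 a → ‖pl (sx Q a) s - p B‖ < η) ∧
    ∀ a ∈ B.A, ∀ a' ∈ B.A, a ≠ a' → Win Q u d ⟨a.2, a'.2, a.1 + a.2 * s0 a, a.1 + a.2 * s1 a,
      a'.1 + a'.2 * s0 a', a'.1 + a'.2 * s1 a'⟩

-- deps: SQX SQW XC W5
def S_SQD : Prop := ∀ N : ℕ, ∃ N' : ℕ, ∀ (P Q : Poly) (u d : E) (ρ : ℤ → ℤ) (lev : ℤ → ℝ)
  (F : Set Bd) (p : Bd → E) (v0 : ℤ → E) (κ η : ℝ), Al P u ρ lev → Fam P u ρ lev F N 2 →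
  Cov P F → Lim P F p v0 → d ≠ 0 → ⟪d, u⟫ = 0 → Far F p v0 d η → Near P u d ρ v0 η Q → 0 < κ →
  Tub Q u F p κ η → Dgm Q u d N'

-- deps: FRONT W1 W2 W4 W5 TUBE EXT
-- imports: Pool.Agent.P.MP_28369d_gt.SB.TW3 Pool.Agent.P.MP_28369d_gt.SB.TWIRT
def S_SW : Prop := ∀ (G : Type) [Group G] (ω : E → E → G) (Q : Poly) (d : E), GDg Q d →
  LocSys ω Q.carrierᶜ → ∃ μ X, Wirt Q d ω μ X ∧ SW Q d μ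

-- deps:
def S_STEP : Prop := ∀ (α : Type) (Rel : α → α → Prop) (f : ℝ → α) (h0 h1 : ℝ), h0 < h1 →
  (∀ h, h0 < h → h < h1 → ∃ x y, (∀ᶠ h' in 𝓝[<] h, f h' = x) ∧ (∀ᶠ h' in 𝓝[>] h, f h' = y) ∧
    Relation.ReflTransGen Rel x y) →
  (∀ᶠ h in 𝓝[>] h0, f h = f h0) → (∀ᶠ h in 𝓝[<] h1, f h = f h1) →
  Relation.ReflTransGen Rel (f h0) (f h1)

-- deps:
def S_INVH : Prop := ∀ (Q : Poly) (u : E) (ε : ℤ) (θ0 θ1 : ℝ), Up Q u ε θ0 θ1 →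
  ⟪Q.γ θ0, u⟫ < ⟪Q.γ θ1, u⟫ ∧ ∃ φ : ℝ → ℝ, Continuous φ ∧ φ ⟪Q.γ θ0, u⟫ = θ0 ∧ φ ⟪Q.γ θ1, u⟫ = θ1 ∧
    StrictMonoOn (fun h => ε * φ h) (Icc ⟪Q.γ θ0, u⟫ ⟪Q.γ θ1, u⟫) ∧
    (∀ h ∈ Icc ⟪Q.γ θ0, u⟫ ⟪Q.γ θ1, u⟫, φ h ∈ uIcc θ0 θ1 ∧ ⟪Q.γ (φ h), u⟫ = h) ∧
    ∀ θ ∈ uIcc θ0 θ1, ⟪Q.γ θ, u⟫ ∈ Icc ⟪Q.γ θ0, u⟫ ⟪Q.γ θ1, u⟫ ∧ φ ⟪Q.γ θ, u⟫ = θ

end Pool.Agent.P.MP_28369d_gt.SB
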