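import Pool.Agent.P.MP_28369d_gt.ST.Iface2
import Pool.Agent.P.MP_28369d_gt.ST.Iface
import Pool.Agent.P.MP_28369d_gt.SB.Top

/-! Step REPC. -/

namespace Pool.Agent.P.MP_28369d_gt.SB

open Set Filter Topology
open scoped RealInnerProductSpace

namespace REPCx

variable {G : Subgroup (Equiv.Perm ℂ)}

/-- All elements of the group are affine maps. -/
def Aff (G : Subgroup (Equiv.Perm ℂ)) : Prop :=
  ∀ g : G, ∀ x, g.1 x = (g.1 1 - g.1 0) * x + g.1 0

/-- The slope as a homomorphism. -/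
def slope (h : Aff G) : G →* ℂ where
  toFun g := g.1 1 - g.1 0
  map_one' := by simp
  map_mul' g g' := by
    simp only [Subgroup.coe_mul, Equiv.Perm.mul_apply]
    rw [h g (g'.1 1), h g (g'.1 0)]
    ring

theorem ap (h : Aff G) (g : G) (x : ℂ) : g.1 x = slope h g * x + g.1 0 := h g x

theorem fix_iff (h : Aff G) {s : ℂ} (hs : s ≠ 1) {g : G} (hg : slope h g = s) (z : ℂ) :
    g.1 z = z ↔ g.1 0 / (1 - s) = z := by
  rw [ap h g z, hg, div_eq_iff (sub_ne_zero.2 hs.symm)]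
  constructor <;> intro c <;> linear_combination c

theorem conj1 (h : Aff G) {s : ℂ} (hs : s ≠ 1) {m o b : G} (hm : slope h m = s)
    (ho : slope h o = s) (hb : slope h b = s) (e : m = o * b * o⁻¹) :
    m.1 0 / (1 - s) = o.1 0 / (1 - s) + s * (b.1 0 / (1 - s) - o.1 0 / (1 - s)) := by
  have h1 := (fix_iff h hs hb _).2 rfl
  have h2 : m.1 (o.1 (b.1 0 / (1 - s))) = o.1 (b.1 0 / (1 - s)) := by
    rw [e]
    simp [h1]
  rw [(fix_iff h hs hm _).1 h2, ap h o, ho]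
  have := sub_ne_zero.2 hs.symm
  field_simp
  ring

theorem conj2 (h : Aff G) {s : ℂ} (hs : s ≠ 1) (h0 : s ≠ 0) {m o b : G} (hm : slope h m = s)
    (ho : slope h o = s) (hb : slope h b = s) (e : m = o⁻¹ * b * o) :
    m.1 0 / (1 - s) = o.1 0 / (1 - s) + s⁻¹ * (b.1 0 / (1 - s) - o.1 0 / (1 - s)) := by
  rw [conj1 h hs hb ho hm (by rw [e]; group)]
  field_simp
  ring

theorem comm (h : Aff G) {z : ℂ} {g g' : G} (hg : g.1 z = z) (hg' : g'.1 z = z) :
    g.1 * g'.1 = g'.1 * g.1 := by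
  ext x
  simp only [Equiv.Perm.mul_apply]
  rw [ap h g] at hg
  rw [ap h g'] at hg'
  rw [ap h g (g'.1 x), ap h g' (g.1 x), ap h g x, ap h g' x]
  linear_combination (slope h g - 1) * hg' - (slope h g' - 1) * hg

theorem ne0 (h : Aff G) (g : G) : slope h g ≠ 0 := fun c =>
  one_ne_zero (g.1.injective (sub_eq_zero.1 c))

theorem comm1 (h : Aff G) {g g' : G} (hg : slope h g = 1) (hg' : slope h g' = 1) :
    g.1 * g'.1 = g'.1 * g.1 := by
  ext x
  simp only [Equiv.Perm.mul_apply]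
  rw [ap h g (g'.1 x), ap h g' (g.1 x), ap h g x, ap h g' x, hg, hg']
  ring

end REPCx

open REPCx in
theorem p_REPC (hSW : S_SW) (hMAXG : S_MAXG) (hF0 : S_F0) (hCONN : S_CONN) :
    S_REPC := by
  rintro K Q u d t hK hGD hu hd ⟨p, ρ, h1, ⟨g0, c0, h2⟩, g1, g2, h3⟩
  obtain ⟨ω, l1, f1⟩ := hF0 _ _ p ρ.rangeRestrict (compl_good hCONN hK).1 (compl_good hCONN hK).2
    ρ.rangeRestrict_surjective
  obtain ⟨φ, e1⟩ := hK.homeo
  have l2 := l1.push φ
  have f2 := f1.push φ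
  rw [← compl_push, e1] at l2 f2
  generalize push φ ω = υ at l2 f2
  obtain ⟨μ, X, hW, hS⟩ := hSW _ υ Q d hGD l2
  have htop := f2.top Q.isCompact _ hW.red
  obtain ⟨m1, m2⟩ := hMAXG _ υ Q d u μ X hW
  have hA : Aff ρ.range := by
    rintro ⟨_, g, rfl⟩ x
    obtain ⟨k, c, hk⟩ := h1 g
    simp only [hk]
    ring
  have hk : ∀ g : ρ.range, ∃ k : ℤ, slope hA g = t ^ k := by
    rintro ⟨_, g, rfl⟩
    obtain ⟨k, c, hk⟩ := h1 g
    refine ⟨k, ?_⟩
    change ρ g 1 - ρ g 0 = _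
    simp [hk]
  have hs : ∀ τ, slope hA (μ τ) = slope hA (μ 0) := fun τ =>
    isConj_iff_eq.1 ((slope hA).map_isConj (m1 τ 0))
  obtain ⟨j, hj⟩ := hk (μ 0)
  generalize slope hA (μ 0) = s at hs hj
  have s0 : s ≠ 0 := hs 0 ▸ ne0 hA (μ 0)
  have hall : ∀ g : ρ.range, ∃ k : ℤ, slope hA g = s ^ k := by
    intro g
    have hg : g ∈ Subgroup.closure (range μ) := htop ▸ Subgroup.mem_top g
    induction hg using Subgroup.closure_induction with
    | mem x hx =>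
      obtain ⟨τ, rfl⟩ := hx
      exact ⟨1, by rw [hs, zpow_one]⟩
    | one => exact ⟨0, by simp⟩
    | mul x y _ _ hx hy =>
      obtain ⟨k, a⟩ := hx
      obtain ⟨l, b⟩ := hy
      exact ⟨k + l, by rw [map_mul, a, b, zpow_add₀ s0]⟩
    | inv x _ hx =>
      obtain ⟨k, a⟩ := hx
      exact ⟨-k, by rw [map_inv, a, zpow_neg]⟩
  have hst : ∃ j k : ℤ, s = t ^ j ∧ t = s ^ k := by
    obtain ⟨k, a⟩ := hall (ρ.rangeRestrict g0)
    have b : slope hA (ρ.rangeRestrict g0) = t := by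
      change ρ g0 1 - ρ g0 0 = _
      simp [h2]
    exact ⟨j, k, hj, b.symm.trans a⟩
  have s1 : s ≠ 1 := by
    rintro rfl
    refine h3 (comm1 hA (g := ρ.rangeRestrict g1) (g' := ρ.rangeRestrict g2) ?_ ?_)
    · obtain ⟨k, a⟩ := hall (ρ.rangeRestrict g1)
      rw [a, one_zpow]
    · obtain ⟨k, a⟩ := hall (ρ.rangeRestrict g2)
      rw [a, one_zpow]
  refine ⟨s, fun τ => (μ τ).1 0 / (1 - s), s0, hst, ⟨fun τ k => by rw [hS.per], fun τ => ?_,
    fun τ => ?_⟩, ?_⟩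
  · filter_upwards [hS.rc τ] with τ' a
    rw [a]
  · obtain ⟨b, a1, a2, a3⟩ := hS.step τ
    have hb : slope hA b = s := by
      obtain ⟨τ', c⟩ := a1.exists
      exact c ▸ hs τ'
    refine ⟨b.1 0 / (1 - s), a1.mono fun τ' c => by rw [c], fun c => by rw [a2 c],
      fun τ1 r r0 c => ?_⟩
    obtain ⟨b1, b2, b3, b4⟩ := a3 τ1 r r0 c
    exact ⟨b1, b2, b3.mono fun τ' c => by rw [c], b4.imp
      (fun c => ⟨c.1, conj1 hA s1 (hs τ) (hs τ1) hb c.2⟩)
      fun c => ⟨c.1, conj2 hA s1 s0 (hs τ) (hs τ1) hb c.2⟩⟩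
  · by_contra hc
    push Not at hc
    obtain ⟨z, hz⟩ : ∃ z, ∀ i : ℤ, Mx Q u i → (μ (i + 1)).1 0 / (1 - s) = z := by
      by_cases c : ∃ i, Mx Q u i
      · obtain ⟨i, hi⟩ := c
        exact ⟨_, fun k a => hc k i a hi⟩
      · exact ⟨0, fun i a => absurd ⟨i, a⟩ c⟩
    have hH := m2 hu hd (MulAction.stabilizer ρ.range z)
      fun i a b => (fix_iff hA s1 (hs _) z).2 (hz i ⟨a, b⟩)
    have hle : Subgroup.closure (range μ) ≤ MulAction.stabilizer ρ.range z := by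
      rw [Subgroup.closure_le]
      rintro _ ⟨τ, rfl⟩
      exact hH τ
    rw [htop] at hle
    exact h3 (comm hA (g := ρ.rangeRestrict g1) (g' := ρ.rangeRestrict g2)
      (hle (Subgroup.mem_top _)) (hle (Subgroup.mem_top _)))

end Pool.Agent.P.MP_28369d_gt.SB
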