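import Pool.Agent.P.MP_28369d_gt.ST.Iface

/-! Step SQ1. -/

namespace Pool.Agent.P.MP_28369d_gt.SB

open Set Filter Topology
open scoped RealInnerProductSpace

namespace SQ1x

variable {P : Poly} {u : E} {ρ : ℤ → ℤ} {lev : ℤ → ℝ} {F : Set Bd} {N k : ℕ}

/-- The ends of a strand lie in no region. -/
theorem ends (hP : Al P u ρ lev) (hF : Fam P u ρ lev F N k) {B : Bd} (hB : B ∈ F) {a : ℤ × ℤ}
    (ha : a ∈ B.A) {r : ℤ} (hr : r = B.lo ∨ r = B.hi) : ∀ B' ∈ F, P.v (ix a r) ∉ B'.R := by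
  intro B' hB' hm
  have g := (hF.2.2.1 B hB).1
  have g' := (hF.2.2.1 B' hB').1
  have hl := g.lt
  have h1 : B.lo ≤ r := by omega
  have h2 : r ≤ B.hi := by omega
  by_cases c : B = B'
  · subst c
    have h3 := g.slab _ hm
    have h4 := hP.ht_sx (g.st a ha) h1 h2
    rw [sx] at h4
    rw [h4] at h3
    rcases hr with rfl | rfl
    · exact lt_irrefl _ h3.1
    · exact lt_irrefl _ h3.2
  · have h3 := g.clo ha (s := r) (by exact_mod_cast h1) (by exact_mod_cast h2)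
    rw [pl_int] at h3
    exact Set.disjoint_left.1 ((hF.2.2.2 B hB B' hB' c).closure_left g'.op) h3 hm

end SQ1x

theorem p_SQ1 (hMOVE : S_MOVE) (hGD : S_GD) :
    S_SQ1 := by
  classical
  intro P u ρ lev F N k hP hF hC
  have hg : ∀ B ∈ F, Good P u ρ lev B := fun B hB => (hF.2.2.1 B hB).1
  have hp : ∀ B : Bd, ∃ c : E, B ∈ F → B.A.Nonempty → c ∈ B.R := fun B => by
    by_cases h : B ∈ F ∧ B.A.Nonempty
    · obtain ⟨hB, a, ha⟩ := h
      have hl : (B.lo : ℝ) < B.hi := by exact_mod_cast (hg B hB).lt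
      exact ⟨_, fun _ _ => (hg B hB).mem a ha ((B.lo + B.hi) / 2) (by linarith) (by linarith)⟩
    · exact ⟨0, fun h1 h2 => absurd ⟨h1, h2⟩ h⟩
  choose p hp using hp
  let v0 : ℤ → E := fun i => if h : ∃ B ∈ F, P.v i ∈ B.R then p h.choose else P.v i
  have k1 : ∀ i, ∀ B ∈ F, P.v i ∈ B.R → v0 i = p B := fun i B hB hm => by
    have h : ∃ B ∈ F, P.v i ∈ B.R := ⟨B, hB, hm⟩
    simp only [v0, dif_pos h]
    congr 1
    by_contra c
    exact Set.disjoint_left.1 (hF.2.2.2 _ h.choose_spec.1 B hB c) h.choose_spec.2 hm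
  have k2 : ∀ i, (∀ B ∈ F, P.v i ∉ B.R) → v0 i = P.v i := fun i h =>
    dif_neg fun ⟨B, hB, hm⟩ => h B hB hm
  have hL : Lim P F p v0 := by
    refine ⟨fun i => ?_, hp, fun B hB a ha => ⟨k2 _ (SQ1x.ends hP hF hB ha (.inl rfl)),
      k2 _ (SQ1x.ends hP hF hB ha (.inr rfl))⟩,
      fun B hB a ha r h1 h2 => k1 _ B hB ((hg B hB).vmem ha h1 h2)⟩
    by_cases h : ∃ B ∈ F, P.v i ∈ B.R
    · obtain ⟨B, hB, hm⟩ := h
      rw [k1 i B hB hm, k1 _ B hB (by rwa [P.per])]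
    · push Not at h
      rw [k2 i h, k2 _ (by rwa [P.per]), P.per]
  refine ⟨p, v0, hL, fun d hd η hη => ?_⟩
  have hu : u ≠ 0 := fun c => hP.gen 0 (by rw [c, inner_zero_right])
  have huu : ⟪u, u⟫ ≠ 0 := fun c => hu (inner_self_eq_zero.1 c)
  have hy : ∀ B : Bd, ∃ y : ℤ × ℤ → ℤ → E, B ∈ F → Move B.A (sx P) y u B.R B.lo B.hi lev ∧
      ∀ a ∈ B.A, ∀ r, B.lo < r → r < B.hi → ‖y a r - p B‖ < η / 2 := fun B => by
    by_cases hB : B ∈ F
    swap
    · exact ⟨sx P, fun h => absurd h hB⟩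
    have g := hg B hB
    have hb := g.band hP le_rfl le_rfl
    by_cases hA : B.A.Nonempty
    · have hc := hp B hB hA
      obtain ⟨y, κ, -, h1, h2, -⟩ := s_SQZ _ B.A (sx P) u (p B) (⟪u, u⟫⁻¹ • u) B.R B.lo B.hi lev
        (η / 2) g.op g.cv hb hc (g.slab _ hc).1 (g.slab _ hc).2
        (by rw [real_inner_smul_left, inv_mul_cancel₀ huu]) (by linarith)
      exact ⟨y, fun _ => ⟨h1, h2⟩⟩
    · refine ⟨sx P, fun _ => ⟨⟨fun _ _ _ => rfl, fun σ _ _ => ⟨lev, rfl, rfl, ?_⟩⟩,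
        fun a ha => absurd ⟨a, ha⟩ hA⟩⟩
      simpa using hb
  choose y hy using hy
  obtain ⟨Q1, hn, hI, hM⟩ := hMOVE P u ρ lev F y hP hg hF.2.2.2 fun B hB => (hy B hB).1
  have hper : ∀ i, Q1.v (i + P.n) = Q1.v i := fun i => by rw [← hn, Q1.per]
  have hepe : ∀ i, Q1.e (i + P.n) = Q1.e i := fun i => by rw [← hn, Q1.e_per]
  have cA : ∀ B ∈ F, ∀ a ∈ B.A, ∀ r, B.lo ≤ r → r ≤ B.hi →
      ‖Q1.v (ix a r) - v0 (ix a r)‖ < η / 2 := fun B hB a ha r h1 h2 => by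
    rw [hM.2 B hB a ha r h1 h2]
    by_cases c : B.lo < r ∧ r < B.hi
    · rw [hL.inn B hB a ha r c.1 c.2]
      exact (hy B hB).2 a ha r c.1 c.2
    · rw [(hy B hB).1.1 a r c, k2 _ (SQ1x.ends hP hF hB ha (by omega)), sx, sub_self, norm_zero]
      linarith
  have cB : ∀ i, ‖Q1.v i - v0 i‖ < η / 2 := fun i => by
    obtain ⟨B, hB, a, ha, r, m, h1, h2, h3⟩ := hC i
    rw [← per_zmul hper i m, ← per_zmul hL.per i m, h3]
    rcases ((hg B hB).st a ha).1 with c | c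
    · rw [(ed_pos c r).1]; exact cA B hB a ha r h1 h2.le
    · rw [(ed_neg c r).1]; exact cA B hB a ha _ (by omega) (by omega)
  let f : ℤ → ℝ := fun i => ((ρ (i + 1) - ρ i : ℤ) : ℝ) * ⟪Q1.e i, u⟫
  have fper : ∀ i, f (i + P.n) = f i := fun i => by
    simp only [f]
    rw [hepe, show i + P.n + 1 = i + 1 + P.n by ring, hP.per, hP.per]
  have cC : ∀ i, 0 < f i := fun i => by
    obtain ⟨B, hB, a, ha, r, m, h1, h2, h3⟩ := hC i
    have hs := (hg B hB).st a ha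
    obtain ⟨lev', -, -, hb⟩ := (hy B hB).1.2 1 zero_le_one le_rfl
    have a1 := hb.ht a ha r h1 h2.le
    have a2 := hb.ht a ha (r + 1) (by omega) (by omega)
    have a3 := hb.inc r h1 h2
    simp only [one_smul, add_sub_cancel] at a1 a2
    rw [← hM.2 B hB a ha _ (by omega) (by omega)] at a1 a2
    have b1 := hs.2 r h1 h2.le
    have b2 := hs.2 (r + 1) (by omega) (by omega)
    rw [← per_zmul fper i m, h3]
    simp only [f]
    rw [e_ed Q1 hs.1, real_inner_smul_left, inner_sub_left, sx, sx, a1, a2]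
    rcases hs.1 with c | c
    · rw [(ed_pos c r).2, (ed_pos c r).1, b1, b2, c]; push_cast; linarith
    · rw [(ed_neg c r).2, (ed_neg c r).1, b1, b2, c]; push_cast; linarith
  obtain ⟨c, hc, hc'⟩ := (finite_range_of_per P.pos fper).isCompact.exists_forall_le'
    (f := id) continuousOn_id (a := 0) (by rintro _ ⟨i, rfl⟩; exact cC i)
  obtain ⟨Q, qn, qI, qG, qc⟩ := hGD Q1 d hd (min (η / 2) (c / (2 * ‖u‖ + 1))) (by positivity)
  refine ⟨Q, qn.trans hn, hI.trans qI, qG, fun i => ?_, fun i => ?_⟩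
  · have := norm_sub_le_norm_sub_add_norm_sub (Q.v i) (Q1.v i) (v0 i)
    linarith [cB i, (qc i).trans (min_le_left _ _)]
  · have h1 : c ≤ ((ρ (i + 1) - ρ i : ℤ) : ℝ) * ⟪Q1.e i, u⟫ := hc' _ ⟨i, rfl⟩
    have h2 : ‖Q.e i - Q1.e i‖ ≤ 2 * (c / (2 * ‖u‖ + 1)) := by
      have : Q.e i - Q1.e i = (Q.v (i + 1) - Q1.v (i + 1)) - (Q.v i - Q1.v i) := by
        simp only [Poly.e]; abel
      rw [this]
      linarith [norm_sub_le (Q.v (i + 1) - Q1.v (i + 1)) (Q.v i - Q1.v i),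
        (qc i).trans (min_le_right _ _), (qc (i + 1)).trans (min_le_right _ _)]
    have h3 : |⟪Q.e i - Q1.e i, u⟫| < c := by
      refine ((abs_real_inner_le_norm _ _).trans
        (mul_le_mul_of_nonneg_right h2 (norm_nonneg u))).trans_lt ?_
      rw [show 2 * (c / (2 * ‖u‖ + 1)) * ‖u‖ = c * (2 * ‖u‖) / (2 * ‖u‖ + 1) by ring,
        div_lt_iff₀ (by positivity)]
      linarith
    rw [inner_sub_left, abs_lt] at h3
    rcases hP.step i with s | s <;> rw [s] at h1 ⊢ <;> push_cast at h1 ⊢ <;> linarith [h3.1, h3.2]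

end Pool.Agent.P.MP_28369d_gt.SB
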