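import Pool.Agent.P.MP_28369d_gt.ST.Iface

/-! Step SQ2. -/

namespace Pool.Agent.P.MP_28369d_gt.SB

open Set Filter Topology
open scoped RealInnerProductSpace

namespace SQ2x

theorem one {u x0 x1 p : E} (hu : u ≠ 0) (hp : p ∉ segment ℝ x0 x1)
    (h : ⟪x0, u⟫ ≠ ⟪x1, u⟫ ∨ x0 = x1) :
    ∃ z : E, z ≠ 0 ∧ ∀ y ∈ segment ℝ x0 x1, ⟪y - p, u⟫ = 0 → y - p = z := by
  by_cases c : ∃ q ∈ segment ℝ x0 x1, ⟪q - p, u⟫ = 0
  · obtain ⟨q, hq, hq0⟩ := c
    refine ⟨q - p, fun e => hp (by rwa [← sub_eq_zero.1 e]), fun y hy hy0 => ?_⟩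
    rcases h with h | h
    · rw [segment_eq_image'] at hq hy
      obtain ⟨s, -, rfl⟩ := hq
      obtain ⟨t, -, rfl⟩ := hy
      simp only [inner_sub_left, inner_add_left, real_inner_smul_left] at hq0 hy0
      have : (t - s) * (⟪x1, u⟫ - ⟪x0, u⟫) = 0 := by linear_combination hy0 - hq0
      rcases mul_eq_zero.1 this with e | e
      · rw [sub_eq_zero.1 e]
      · exact absurd (sub_eq_zero.1 e).symm h
    · subst h
      rw [segment_same] at hq hy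
      rw [hq, hy]
  · push Not at c
    exact ⟨u, hu, fun y hy hy0 => absurd hy0 (c y hy)⟩

theorem small {u g d x0 x1 p : E} (hdu : ⟪d, u⟫ = 0) (hdg : ⟪d, g⟫ = 0)
    (h : ∀ y ∈ segment ℝ x0 x1, ⟪y - p, u⟫ = 0 → ⟪y - p, g⟫ ≠ 0) :
    ∀ᶠ η in 𝓝[>] (0 : ℝ), ∀ y0 ∈ segment ℝ x0 x1, ∀ (y y' : E) (c : ℝ),
      ‖y - p‖ < η → ‖y' - y0‖ < η → y' ≠ y + c • d := by
  have hK : IsCompact (segment ℝ x0 x1) := by
    rw [segment_eq_image']
    exact isCompact_Icc.image (by fun_prop)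
  obtain ⟨q, hq, hm⟩ := hK.exists_isMinOn ⟨x0, left_mem_segment ℝ x0 x1⟩
    (f := fun y => |⟪y - p, u⟫| + |⟪y - p, g⟫|) (by fun_prop)
  have h0 : 0 < |⟪q - p, u⟫| + |⟪q - p, g⟫| := by
    by_cases c : ⟪q - p, u⟫ = 0
    · exact add_pos_of_nonneg_of_pos (abs_nonneg _) (abs_pos.2 (h q hq c))
    · exact add_pos_of_pos_of_nonneg (abs_pos.2 c) (abs_nonneg _)
  have hc : Tendsto (fun η : ℝ => 2 * η * (‖u‖ + ‖g‖)) (𝓝[>] 0) (𝓝 0) := by
    have : Tendsto (fun η : ℝ => 2 * η * (‖u‖ + ‖g‖)) (𝓝 0) (𝓝 (2 * 0 * (‖u‖ + ‖g‖))) :=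
      Continuous.tendsto (by fun_prop) 0
    rw [mul_zero, zero_mul] at this
    exact this.mono_left nhdsWithin_le_nhds
  filter_upwards [hc.eventually_lt_const h0] with η hη y0 hy0 y y' c h1 h2 e
  have h3 : |⟪q - p, u⟫| + |⟪q - p, g⟫| ≤ |⟪y0 - p, u⟫| + |⟪y0 - p, g⟫| := hm hy0
  have h4 : y0 - p = ((y - p) - (y' - y0)) + c • d := by rw [e]; abel
  have h5 : ‖(y - p) - (y' - y0)‖ ≤ 2 * η := (norm_sub_le _ _).trans (by linarith)
  have h6 : ∀ w : E, ⟪d, w⟫ = 0 → |⟪y0 - p, w⟫| ≤ 2 * η * ‖w‖ := fun w hw => by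
    rw [h4, inner_add_left, real_inner_smul_left, hw, mul_zero, add_zero]
    exact (abs_real_inner_le_norm _ _).trans (mul_le_mul_of_nonneg_right h5 (norm_nonneg _))
  have := h6 u hdu
  have := h6 g hdg
  linarith

theorem orth (u : E) : ∃ w : E, w ≠ 0 ∧ ⟪w, u⟫ = 0 := by
  by_cases c : u 0 = 0
  · refine ⟨pt 1 0 0, fun e => ?_, by simp [inner3, c]⟩
    have := congrArg (fun v : E => v 0) e
    simp at this
  · refine ⟨pt (-u 1) (u 0) 0, fun e => c ?_, by simp only [inner3, pt_0, pt_1, pt_2]; ring⟩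
    have := congrArg (fun v : E => v 1) e
    simpa using this

theorem all {u : E} (hu : u ≠ 0) {T : Set (E × E × E)} (hT : T.Finite)
    (h : ∀ t ∈ T, t.2.2 ∉ segment ℝ t.1 t.2.1 ∧ (⟪t.1, u⟫ ≠ ⟪t.2.1, u⟫ ∨ t.1 = t.2.1)) :
    ∃ (d : E) (η : ℝ), d ≠ 0 ∧ ⟪d, u⟫ = 0 ∧ 0 < η ∧ ∀ t ∈ T, ∀ y0 ∈ segment ℝ t.1 t.2.1,
      ∀ (y y' : E) (c : ℝ), ‖y - t.2.2‖ < η → ‖y' - y0‖ < η → y' ≠ y + c • d := by
  choose! z hz0 hz using fun t ht => one hu (h t ht).1 (h t ht).2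
  obtain ⟨w, hw0, hw⟩ := orth u
  obtain ⟨g, hg⟩ := exists_generic ((hT.image z).insert w) (by
    rintro _ (rfl | ⟨t, ht, rfl⟩)
    exacts [hw0, hz0 t ht])
  have hdu : ⟪cr g u, u⟫ = 0 := det3_self_right g u
  have hdg : ⟪cr g u, g⟫ = 0 := det3_self_left g u
  have hd : cr g u ≠ 0 := fun e => by
    have h1 := hg w (mem_insert _ _)
    have e0 : g 1 * u 2 - g 2 * u 1 = 0 := congrArg (fun v : E => v 0) e
    have e1 : g 2 * u 0 - g 0 * u 2 = 0 := congrArg (fun v : E => v 1) e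
    have e2 : g 0 * u 1 - g 1 * u 0 = 0 := congrArg (fun v : E => v 2) e
    rw [inner3] at h1 hw
    refine hu (E_ext ?_ ?_ ?_)
    · exact mul_left_cancel₀ h1 (by
        rw [PiLp.zero_apply]; linear_combination g 0 * hw - w 1 * e2 + w 2 * e1)
    · exact mul_left_cancel₀ h1 (by
        rw [PiLp.zero_apply]; linear_combination g 1 * hw + w 0 * e2 - w 2 * e0)
    · exact mul_left_cancel₀ h1 (by
        rw [PiLp.zero_apply]; linear_combination g 2 * hw - w 0 * e1 + w 1 * e0)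
  have H := (eventually_all_finite hT).2 fun t ht => small (p := t.2.2) hdu hdg fun y hy c => by
    rw [hz t ht y hy c]
    exact hg _ (mem_insert_of_mem _ (mem_image_of_mem z ht))
  obtain ⟨η, h1, h2⟩ := (H.and self_mem_nhdsWithin).exists
  exact ⟨cr g u, η, hd, hdu, h2, h1⟩

end SQ2x

theorem p_SQ2 :
    S_SQ2 := by
  intro P u ρ lev F N k p v0 hA hF hL
  have hu : u ≠ 0 := fun e => hA.gen 0 (by rw [e, inner_zero_right])
  have hT : {t : E × E × E | ∃ B ∈ F, ∃ B' ∈ F, ∃ a ∈ B'.A, ∃ r, (B'.lo ≤ r ∧ r < B'.hi) ∧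
      (B.A.Nonempty ∧ B ≠ B') ∧ t = (v0 (ix a r), v0 (ix a (r + 1)), p B)}.Finite := by
    refine (hF.1.biUnion fun B _ => hF.1.biUnion fun B' _ => B'.A.finite_toSet.biUnion fun a _ =>
      (finite_Ico B'.lo B'.hi).image fun r => (v0 (ix a r), v0 (ix a (r + 1)), p B)).subset ?_
    rintro _ ⟨B, hB, B', hB', a, ha, r, hr, -, rfl⟩
    simp only [mem_iUnion]
    exact ⟨B, hB, B', hB', a, ha, r, hr, rfl⟩
  obtain ⟨d, η, h1, h2, h3, h4⟩ := SQ2x.all hu hT (by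
    rintro _ ⟨B, hB, B', hB', a, ha, r, ⟨r0, r1⟩, ⟨hne, hBB⟩, rfl⟩
    have G := (hF.2.2.1 B' hB').1
    have hp' := hL.mem B' hB' ⟨a, ha⟩
    have hlt := G.lt
    have hc : ∀ s, B'.lo ≤ s → s ≤ B'.hi → v0 (ix a s) ∈ closure B'.R := fun s s0 s1 => by
      have e := G.clo ha (s := s) (by exact_mod_cast s0) (by exact_mod_cast s1)
      rw [pl_int] at e
      rcases s0.eq_or_lt with c | c
      · rw [← c, (hL.ends B' hB' a ha).1, c]; exact e
      · rcases s1.eq_or_lt with c' | c'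
        · rw [c', (hL.ends B' hB' a ha).2, ← c']; exact e
        · rw [hL.inn B' hB' a ha s c c']; exact subset_closure hp'
    refine ⟨fun c => ?_, ?_⟩
    · have := G.cv.closure.segment_subset (hc r r0 r1.le) (hc (r + 1) (by omega) r1) c
      exact disjoint_left.1 ((hF.2.2.2 B hB B' hB' hBB).closure_right (hF.2.2.1 B hB).1.op)
        (hL.mem B hB hne) this
    · have e0 : ⟪v0 (ix a B'.lo), u⟫ = lev B'.lo := by
        rw [(hL.ends B' hB' a ha).1, hA.ht_sx (G.st a ha) le_rfl hlt.le]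
      have e1 : ⟪v0 (ix a B'.hi), u⟫ = lev B'.hi := by
        rw [(hL.ends B' hB' a ha).2, hA.ht_sx (G.st a ha) hlt.le le_rfl]
      obtain ⟨s0, s1⟩ := G.slab _ hp'
      dsimp only
      rcases r0.eq_or_lt with c | c <;> rcases (Int.add_one_le_of_lt r1).eq_or_lt with c' | c'
      · left; rw [c', ← c, e0, e1]; linarith
      · left; rw [hL.inn B' hB' a ha _ (by omega) c', ← c, e0]; linarith
      · left; rw [c', hL.inn B' hB' a ha _ c r1, e1]; linarith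
      · right; rw [hL.inn B' hB' a ha _ c r1, hL.inn B' hB' a ha _ (by omega) c'])
  exact ⟨d, η, h1, h2, h3, fun B hB hne B' hB' hBB a ha r r0 r1 =>
    h4 _ ⟨B, hB, B', hB', a, ha, r, ⟨r0, r1⟩, ⟨hne, hBB⟩, rfl⟩⟩

end Pool.Agent.P.MP_28369d_gt.SB
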