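import Pool.Agent.P.MP_28369d_gt.ST.Iface

/-! Step SQ3. -/

namespace Pool.Agent.P.MP_28369d_gt.SB

open Set Filter Topology
open scoped RealInnerProductSpace

theorem sq3_close {f g : ℤ → E} {η : ℝ} (h : ∀ r, ‖f r - g r‖ < η) (s : ℝ) :
    ‖pl f s - pl g s‖ < η := by
  have e : pl f s - pl g s = (1 - Int.fract s) • (f ⌊s⌋ - g ⌊s⌋) +
      Int.fract s • (f (⌊s⌋ + 1) - g (⌊s⌋ + 1)) := by
    simp only [pl]; module
  have := convex_ball (0 : E) η (mem_ball_zero_iff.2 (h ⌊s⌋)) (mem_ball_zero_iff.2 (h (⌊s⌋ + 1)))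
    (sub_nonneg.2 (Int.fract_lt_one s).le) (Int.fract_nonneg s) (by ring)
  rwa [mem_ball_zero_iff, ← e] at this

theorem sq3_end {u z x : E} {κ η l Δ : ℝ} (hΔ : 0 < Δ) (h0 : |⟪x, u⟫| = Δ) (hl : 0 ≤ l)
    (h1 : ‖z - l • x‖ < κ) (h2 : |⟪z - l • x, u⟫| < κ) (h3 : |⟪z, u⟫| ≤ 2 * κ)
    (h4 : κ + 3 * κ * (‖x‖ / Δ) < η) : ‖z‖ < η := by
  have e1 : |⟪l • x, u⟫| ≤ |⟪z, u⟫| + |⟪z - l • x, u⟫| := by
    have := abs_sub ⟪z, u⟫ ⟪z - l • x, u⟫
    rwa [← inner_sub_left, sub_sub_cancel] at this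
  rw [real_inner_smul_left, abs_mul, abs_of_nonneg hl, h0] at e1
  have e2 : ‖z‖ ≤ ‖z - l • x‖ + ‖l • x‖ := by simpa using norm_add_le (z - l • x) (l • x)
  rw [norm_smul, Real.norm_of_nonneg hl] at e2
  have e3 : l * ‖x‖ = l * Δ * (‖x‖ / Δ) := by field_simp
  have e4 : l * Δ * (‖x‖ / Δ) ≤ 3 * κ * (‖x‖ / Δ) :=
    mul_le_mul_of_nonneg_right (by linarith) (by positivity)
  linarith

theorem p_SQ3 :
    S_SQ3 := by
  intro P u ρ lev F N k p v0 η hP hF hL hη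
  have sl : ∀ B ∈ F, ∀ a ∈ B.A, 0 < -⟪sx P a B.lo - p B, u⟫ ∧ 0 < ⟪sx P a B.hi - p B, u⟫ := by
    intro B hB a ha
    have g := (hF.2.2.1 B hB).1
    have := g.slab _ (hL.mem B hB ⟨a, ha⟩)
    rw [inner_sub_left, inner_sub_left, hP.ht_sx (g.st a ha) le_rfl g.lt.le,
      hP.ht_sx (g.st a ha) g.lt.le le_rfl]
    constructor <;> linarith [this.1, this.2]
  have ev : ∀ᶠ κ in 𝓝 (0 : ℝ), ∀ B ∈ F, ∀ a ∈ B.A,
      3 * κ < -⟪sx P a B.lo - p B, u⟫ ∧ 3 * κ < ⟪sx P a B.hi - p B, u⟫ ∧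
      κ + 3 * κ * (‖sx P a B.lo - p B‖ / -⟪sx P a B.lo - p B, u⟫) < η ∧
      κ + 3 * κ * (‖sx P a B.hi - p B‖ / ⟪sx P a B.hi - p B, u⟫) < η := by
    rw [eventually_all_finite hF.1]
    intro B hB
    rw [Filter.eventually_all_finset]
    intro a ha
    have c : ∀ (f : ℝ → ℝ) (b : ℝ), Continuous f → f 0 < b → ∀ᶠ κ in 𝓝 (0 : ℝ), f κ < b :=
      fun f b hf h => hf.continuousAt.eventually_lt continuousAt_const h
    exact (c _ _ (by fun_prop) (by simpa using (sl B hB a ha).1)).and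
      ((c _ _ (by fun_prop) (by simpa using (sl B hB a ha).2)).and
      ((c _ _ (by fun_prop) (by simpa using hη)).and (c _ _ (by fun_prop) (by simpa using hη))))
  have e0 : ∀ᶠ κ in 𝓝[>] (0 : ℝ), 0 < κ := self_mem_nhdsWithin
  obtain ⟨κ, hκ, hκη, hev⟩ :=
    (e0.and (((eventually_lt_nhds hη).and ev).filter_mono nhdsWithin_le_nhds)).exists
  have hu : 0 < ‖u‖ + 1 := by positivity
  have hle : κ / (‖u‖ + 1) ≤ κ := div_le_self hκ.le (by linarith [norm_nonneg u])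
  refine ⟨κ, κ / (‖u‖ + 1), hκ, by positivity, hle.trans hκη.le, ?_⟩
  intro Q hQ B hB a ha hlt
  have hc : ∀ s : ℝ, ‖pl (sx Q a) s - pl (fun r => v0 (ix a r)) s‖ < κ ∧
      |⟪pl (sx Q a) s - pl (fun r => v0 (ix a r)) s, u⟫| < κ := by
    intro s
    have h1 := sq3_close (f := sx Q a) (g := fun r => v0 (ix a r)) (fun r => hQ _) s
    refine ⟨h1.trans_le hle, (abs_real_inner_le_norm _ _).trans_lt ?_⟩
    rw [lt_div_iff₀ hu] at h1
    nlinarith [norm_nonneg (pl (sx Q a) s - pl (fun r => v0 (ix a r)) s)]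
  obtain ⟨d1, d2⟩ := hL.ends B hB a ha
  have d3 := hL.inn B hB a ha
  obtain ⟨k1, k2, k3, k4⟩ := hev B hB a ha
  obtain ⟨p1, p2⟩ := sl B hB a ha
  have mid : ∀ s : ℝ, (B.lo : ℝ) + 1 ≤ s → s + 1 ≤ B.hi → pl (fun r => v0 (ix a r)) s = p B := by
    intro s s1 s2
    have r1 : B.lo + 1 ≤ ⌊s⌋ := Int.le_floor.2 (by push_cast; exact s1)
    have r2 : ⌊s⌋ < B.hi := Int.floor_lt.2 (by linarith)
    rcases (Int.fract_nonneg s).eq_or_lt with h | h
    · simp only [pl, ← h, zero_smul, add_zero, d3 _ r1 r2]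
    · have r3 : ⌊s⌋ + 1 < B.hi := by
        have : ((⌊s⌋ + 1 : ℤ) : ℝ) < B.hi := by
          rw [Int.fract] at h; push_cast; linarith
        exact_mod_cast this
      simp only [pl, d3 _ r1 r2, d3 (⌊s⌋ + 1) (by omega) r3, sub_self, smul_zero, add_zero]
  refine ⟨fun s s1 s2 hs => ?_, fun s s1 s2 => ?_, ?_, ?_⟩
  · obtain ⟨c1, c2⟩ := hc s
    by_cases t1 : s ≤ B.lo + 1
    · have e : pl (sx Q a) s - pl (fun r => v0 (ix a r)) s =
          pl (sx Q a) s - p B - (B.lo + 1 - s) • (sx P a B.lo - p B) := by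
        rw [pl_eq (fun r => v0 (ix a r)) B.lo s1 t1, d1, d3 _ (lt_add_one _) hlt]
        module
      rw [e] at c1 c2
      exact sq3_end p1 (abs_of_neg (by linarith)) (by linarith) c1 c2 hs k3
    by_cases t2 : s + 1 ≤ B.hi
    · rw [mid s (by linarith) t2] at c1
      exact c1.trans hκη
    · have e : pl (sx Q a) s - pl (fun r => v0 (ix a r)) s =
          pl (sx Q a) s - p B - (s + 1 - B.hi) • (sx P a B.hi - p B) := by
        rw [pl_eq (fun r => v0 (ix a r)) (B.hi - 1) (by push_cast; linarith)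
          (by push_cast; linarith), sub_add_cancel, d2, d3 (B.hi - 1) (by omega) (by omega)]
        push_cast
        module
      rw [e] at c1 c2
      exact sq3_end p2 (abs_of_pos p2) (by linarith) c1 c2 hs k4
  · have := (hc s).2
    rwa [mid s s1 s2] at this
  · have := (abs_lt.1 (hc B.lo).2).2
    rw [pl_int, pl_int, d1, inner_sub_left] at this
    rw [inner_sub_left] at k1 ⊢
    linarith
  · have := (abs_lt.1 (hc B.hi).2).1
    rw [pl_int, pl_int, d2, inner_sub_left] at this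
    rw [inner_sub_left] at k2 ⊢
    linarith

end Pool.Agent.P.MP_28369d_gt.SB
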