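import Pool.Agent.P.MP_28369d_gt.ST.Iface

/-! Step SQD. -/

namespace Pool.Agent.P.MP_28369d_gt.SB

open Set Filter Topology
open scoped RealInnerProductSpace

namespace SQDx

theorem mem_iff {a : ℤ × ℤ} (h : a.2 = 1 ∨ a.2 = -1) {s0 s1 θ : ℝ} (hs : s0 ≤ s1) :
    θ ∈ uIcc (a.1 + a.2 * s0) (a.1 + a.2 * s1) ↔ ∃ s, s0 ≤ s ∧ s ≤ s1 ∧ θ = a.1 + a.2 * s := by
  rcases h with h | h <;> rw [h] <;> push_cast
  · rw [uIcc_of_le (by linarith)]
    exact ⟨fun c => ⟨θ - a.1, by linarith [c.1], by linarith [c.2], by ring⟩,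
      fun ⟨s, c1, c2, c3⟩ => ⟨by linarith, by linarith⟩⟩
  · rw [uIcc_of_ge (by linarith)]
    exact ⟨fun c => ⟨a.1 - θ, by linarith [c.2], by linarith [c.1], by ring⟩,
      fun ⟨s, c1, c2, c3⟩ => ⟨by linarith, by linarith⟩⟩

/-- The window of a pair of strands. -/
def wd (s0 s1 : ℤ × ℤ → ℝ) (a a' : ℤ × ℤ) : Wd :=
  ⟨a.2, a'.2, a.1 + a.2 * s0 a, a.1 + a.2 * s1 a, a'.1 + a'.2 * s0 a', a'.1 + a'.2 * s1 a'⟩

end SQDx

open SQDx in
theorem p_SQD (hSQX : S_SQX) (hSQW : S_SQW) (hXC : S_XC) (hW5 : S_W5) :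
    S_SQD := by
  classical
  intro N
  refine ⟨max (N * 4) ((N * 4) ^ 2), fun P Q u d ρ lev F p v0 κ η hP hF hC hL hd hdu hfar hn hκ
    hT => ?_⟩
  have hX := hSQX P Q u d ρ lev F N 2 p v0 η hP hF hC hL hd hdu hfar hn
  choose! s0 s1 h1 h2 using hSQW P Q u d ρ lev F N p v0 κ η hP hF hC hL hd hdu hfar hn hκ hT
  obtain ⟨hfin, hN, hG, -⟩ := hF
  have hFF : hfin.toFinset.card ≤ N := by rwa [← ncard_eq_toFinset_card F hfin]
  set W : Finset Wd := hfin.toFinset.biUnion fun B => ((B.A ×ˢ B.A).filter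
    fun z => B.lo + 1 < B.hi ∧ z.1 ≠ z.2).image fun z => wd (s0 B) (s1 B) z.1 z.2 with hW
  have mW : ∀ w, w ∈ W ↔ ∃ B ∈ F, ∃ a ∈ B.A, ∃ a' ∈ B.A, B.lo + 1 < B.hi ∧ a ≠ a' ∧
      wd (s0 B) (s1 B) a a' = w := fun w => by
    simp only [hW, Finset.mem_biUnion, Finite.mem_toFinset, Finset.mem_image, Finset.mem_filter,
      Finset.mem_product, Prod.exists (α := ℤ × ℤ)]
    exact ⟨fun ⟨B, b, a, a', ⟨⟨c1, c2⟩, c3, c4⟩, c5⟩ => ⟨B, b, a, c1, a', c2, c3, c4, c5⟩,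
      fun ⟨B, b, a, c1, a', c2, c3, c4, c5⟩ => ⟨B, b, a, a', ⟨⟨c1, c2⟩, c3, c4⟩, c5⟩⟩
  set S : Finset ℤ := hfin.toFinset.biUnion fun B => B.A.biUnion fun a =>
    {ed a B.lo % Q.n, ed a (B.hi - 1) % Q.n} with hS
  have cS : S.card ≤ N * 4 := by
    refine (Finset.card_biUnion_le_card_mul _ _ 4 fun B hB => ?_).trans
      (Nat.mul_le_mul_right _ hFF)
    refine (Finset.card_biUnion_le_card_mul _ _ 2 fun a _ => Finset.card_le_two).trans ?_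
    have := (hG B (hfin.mem_toFinset.1 hB)).2
    omega
  have le01 : ∀ B ∈ F, B.lo + 1 < B.hi → ∀ a ∈ B.A, s0 B a ≤ s1 B a := fun B hB c a ha => by
    obtain ⟨-, c2, c3, -⟩ := h1 B hB c a ha
    have : (B.lo : ℝ) + 1 + 1 ≤ B.hi := by exact_mod_cast c
    linarith
  have hwin : ∀ w ∈ W, Win Q u d w ∧ w.swap ∈ W := fun w hw => by
    obtain ⟨B, hB, a, ha, a', ha', c, hne, rfl⟩ := (mW w).1 hw
    exact ⟨h2 B hB c a ha a' ha' hne, (mW _).2 ⟨B, hB, a', ha', a, ha, c, hne.symm, rfl⟩⟩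
  have key : ∀ θ θ' r : ℝ, r ≠ 0 → Q.γ θ' = Q.γ θ + r • d →
      ⌊θ⌋ % Q.n ∈ S ∨ ∃ w ∈ W, ∃ k : ℤ, θ + k * Q.n ∈ uIcc w.θ0 w.θ1 := by
    intro θ θ' r hr e
    obtain ⟨B, hB, a, ha, j, m, j0, j1, hj⟩ := hC ⌊θ⌋
    rw [← hn.n] at hj
    have hmod : ⌊θ⌋ % Q.n = ed a j % Q.n := by rw [← hj, Int.add_mul_emod_self_right]
    by_cases hb : j = B.lo ∨ j = B.hi - 1
    · refine Or.inl (Finset.mem_biUnion.2 ⟨B, hfin.mem_toFinset.2 hB,
        Finset.mem_biUnion.2 ⟨a, ha, ?_⟩⟩)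
      rcases hb with c | c <;> simp [hmod, c]
    have c : B.lo + 1 < B.hi := by omega
    have sg := ((hG B hB).1.st a ha).1
    have hj' : (ed a j : ℝ) = ⌊θ⌋ + m * Q.n := by exact_mod_cast hj.symm
    obtain ⟨s, a1, a2, a3⟩ := on_ed sg (r := j) (θ := θ + m * Q.n)
      (by linarith [Int.floor_le θ]) (by linarith [Int.lt_floor_add_one θ])
    obtain ⟨b1, b2, b3, b4, b5⟩ := h1 B hB c a ha
    have d1 : (B.lo : ℝ) + 1 ≤ j := by exact_mod_cast (by omega : B.lo + 1 ≤ j)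
    have d2 : (j : ℝ) + 2 ≤ B.hi := by exact_mod_cast (by omega : j + 2 ≤ B.hi)
    obtain ⟨a', ha', hne, -⟩ := (hX B hB a ha).2.2 s θ' r (by linarith) (by linarith)
      (b5 s (by linarith) (by linarith)) hr (by rw [pl_sx Q sg, ← a3, Q.γ_per, e])
    exact Or.inr ⟨_, (mW _).2 ⟨B, hB, a, ha, a', ha', c, hne.symm, rfl⟩, m,
      (mem_iff sg (le01 B hB c a ha)).2 ⟨s, by linarith, by linarith, a3⟩⟩
  refine ⟨W, W.finite_toSet, ?_, hwin, fun w hw w' hw' hne θ hθ θ' hθ' => ?_, ?_⟩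
  · rw [ncard_coe_finset]
    refine le_trans ?_ (le_max_left _ _)
    refine (Finset.card_biUnion_le_card_mul _ _ 4 fun B hB => ?_).trans
      (Nat.mul_le_mul_right _ hFF)
    refine Finset.card_image_le.trans ((Finset.card_filter_le _ _).trans ?_)
    have := (hG B (hfin.mem_toFinset.1 hB)).2
    rw [Finset.card_product]
    exact Nat.mul_le_mul this this
  · obtain ⟨B, hB, a, ha, a', ha', c, hn1, rfl⟩ := (mW w).1 hw
    obtain ⟨B', hB', b, hb, b', hb', c', hn2, rfl⟩ := (mW w').1 hw'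
    have sg := ((hG B hB).1.st a ha).1
    have sg' := ((hG B' hB').1.st b hb).1
    obtain ⟨s, a1, a2, rfl⟩ := (mem_iff sg (le01 B hB c a ha)).1 hθ
    obtain ⟨s', a3, a4, rfl⟩ := (mem_iff sg' (le01 B' hB' c' b hb)).1 hθ'
    obtain ⟨b1, -, -, b4, -⟩ := h1 B hB c a ha
    obtain ⟨b2, -, -, b3, -⟩ := h1 B' hB' c' b hb
    rw [← pl_sx Q sg, ← pl_sx Q sg']
    refine (hX B hB a ha).2.1 B' hB' b hb ?_ s s' (by linarith) (by linarith) (by linarith)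
      (by linarith)
    by_contra hc
    push Not at hc
    obtain ⟨rfl, rfl⟩ := hc
    have := (hG B hB).2
    have h3 : 2 < B.A.card := Finset.two_lt_card_iff.2 ⟨a, a', b', ha, ha', hb', hn1, hn2,
      fun e => hne (by rw [e])⟩
    omega
  · refine le_trans (ncard_le_ncard ?_ ((hW5 Q d hn.gd).2.2.1.subset fun θ h => h.1))
      ((hXC Q d S hn.gd).trans ((Nat.pow_le_pow_left cS 2).trans (le_max_right _ _)))
    rintro θ ⟨hθ, hout⟩
    obtain ⟨-, -, θ', r, hr, e⟩ := id hθ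
    have e' : Q.γ θ = Q.γ θ' + (-r) • d := by rw [e, neg_smul, add_neg_cancel_right]
    refine ⟨hθ, θ', r, hr, e, (key θ θ' r hr e).resolve_right fun ⟨w, hw, k, c⟩ => hout w hw k c,
      (key θ' θ (-r) (neg_ne_zero.2 hr) e').resolve_right fun ⟨w, hw, k, c⟩ => ?_⟩
    obtain ⟨k', c'⟩ := (hwin w hw).1.cl _ c θ (-r) (neg_ne_zero.2 hr) (by rw [Q.γ_per, e'])
    exact hout _ (hwin w hw).2 k' c'

end Pool.Agent.P.MP_28369d_gt.SB
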