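import Pool.Agent.P.MP_28369d_gt.ST.Iface

/-! Step SQW. -/

namespace Pool.Agent.P.MP_28369d_gt.SB

open Set Filter Topology
open scoped RealInnerProductSpace

namespace SQWx

theorem mem_u {a : ℤ × ℤ} (h : a.2 = 1 ∨ a.2 = -1) {s t θ : ℝ} (hst : s ≤ t) :
    θ ∈ uIcc (a.1 + a.2 * s : ℝ) (a.1 + a.2 * t) ↔ ∃ x, s ≤ x ∧ x ≤ t ∧ θ = a.1 + a.2 * x := by
  rcases h with h | h <;> rw [h] <;> push_cast
  · rw [uIcc_of_le (by linarith)]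
    exact ⟨fun c => ⟨θ - a.1, by linarith [c.1], by linarith [c.2], by ring⟩,
      fun ⟨x, c1, c2, c3⟩ => ⟨by linarith, by linarith⟩⟩
  · rw [uIcc_of_ge (by linarith)]
    exact ⟨fun c => ⟨a.1 - θ, by linarith [c.2], by linarith [c.1], by ring⟩,
      fun ⟨x, c1, c2, c3⟩ => ⟨by linarith, by linarith⟩⟩

theorem up {Q : Poly} {u : E} {ρ : ℤ → ℤ} {a : ℤ × ℤ} {lo hi : ℤ} (ha : Std ρ a lo hi)
    (sg : ∀ i, 0 < ((ρ (i + 1) - ρ i : ℤ) : ℝ) * ⟪Q.e i, u⟫) {s t : ℝ} (h1 : (lo : ℝ) < s)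
    (h2 : s < t) (h3 : t < hi) : Up Q u a.2 (a.1 + a.2 * s) (a.1 + a.2 * t) := by
  refine ⟨ha.1, ?_, fun i c1 c2 => ?_⟩
  · rcases ha.1 with h | h <;> rw [h] <;> push_cast <;> linarith
  · have := sg i
    rcases ha.1 with h | h <;> rw [h] at c1 c2 ⊢ <;> push_cast at c1 c2
    · rw [max_eq_right (by linarith)] at c1
      rw [min_eq_left (by linarith)] at c2
      have b1 : lo < i - a.1 + 1 := by
        have : (lo : ℝ) < i - a.1 + 1 := by linarith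
        exact_mod_cast this
      have b2 : i - a.1 < hi := by
        have : (i : ℝ) - a.1 < hi := by linarith
        exact_mod_cast this
      have e1 := ha.2 (i - a.1) (by omega) (by omega)
      have e2 := ha.2 (i - a.1 + 1) (by omega) (by omega)
      rw [show ix a (i - a.1) = i by simp only [ix, h]; ring] at e1
      rw [show ix a (i - a.1 + 1) = i + 1 by simp only [ix, h]; ring] at e2
      rwa [show ρ (i + 1) - ρ i = 1 by omega] at this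
    · rw [max_eq_left (by linarith)] at c1
      rw [min_eq_right (by linarith)] at c2
      have b1 : lo < a.1 - i := by
        have : (lo : ℝ) < a.1 - i := by linarith
        exact_mod_cast this
      have b2 : a.1 - i - 1 < hi := by
        have : (a.1 : ℝ) - i - 1 < hi := by linarith
        exact_mod_cast this
      have e1 := ha.2 (a.1 - i) (by omega) (by omega)
      have e2 := ha.2 (a.1 - i - 1) (by omega) (by omega)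
      rw [show ix a (a.1 - i) = i by simp only [ix, h]; ring] at e1
      rw [show ix a (a.1 - i - 1) = i + 1 by simp only [ix, h]; ring] at e2
      rwa [show ρ (i + 1) - ρ i = -1 by omega] at this

end SQWx

theorem p_SQW (hSQX : S_SQX) (hW5 : S_W5) :
    S_SQW := by
  intro P Q u d ρ lev F N p v0 κ η hAl hF hC hL hd hdu hFar hN hκ hT B hB hlh
  have X := hSQX P Q u d ρ lev F N 2 p v0 η hAl hF hC hL hd hdu hFar hN B hB
  obtain ⟨hG, hcard⟩ := hF.2.2.1 B hB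
  have hfin := ((hW5 Q d hN.gd).2.2.1).image fun θ => ⟪Q.γ θ, u⟫
  have hcr : ∀ θ, Cr Q d θ → ⟪Q.γ θ, u⟫ ∈ (fun θ => ⟪Q.γ θ, u⟫) '' Xs Q d := by
    rintro θ ⟨θ', r, hr, e⟩
    obtain ⟨k, k1, k2⟩ := exists_shift (T := Q.n) (by exact_mod_cast Q.pos) 0 θ
    exact ⟨θ + k * Q.n, ⟨k1, by simpa using k2, θ', r, hr, by rw [Q.γ_per, e]⟩, by
      simp only [Q.γ_per]⟩
  obtain ⟨h0, ⟨a0, b0⟩, n0⟩ := (Ioo_infinite
    (show ⟪p B, u⟫ - 2 * κ < ⟪p B, u⟫ - κ by linarith)).exists_notMem_finite hfin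
  obtain ⟨h1, ⟨a1, b1⟩, n1⟩ := (Ioo_infinite
    (show ⟪p B, u⟫ + κ < ⟪p B, u⟫ + 2 * κ by linarith)).exists_notMem_finite hfin
  have hl : (B.lo : ℝ) + 1 + 1 ≤ B.hi := by
    have : B.lo + 1 + 1 ≤ B.hi := hlh
    exact_mod_cast this
  have ex : ∀ a ∈ B.A, ∃ s t : ℝ, (B.lo : ℝ) < s ∧ s < B.lo + 1 ∧ (B.hi : ℝ) - 1 < t ∧ t < B.hi ∧
      ⟪pl (sx Q a) s, u⟫ = h0 ∧ ⟪pl (sx Q a) t, u⟫ = h1 := by
    intro a ha
    obtain ⟨-, t2, t3, t4⟩ := hT B hB a ha hlh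
    have c : Continuous fun s : ℝ => ⟪pl (sx Q a) s, u⟫ := (continuous_pl _).inner continuous_const
    have c1 := (abs_lt.1 (t2 (B.lo + 1) le_rfl hl)).1
    have c2 := (abs_lt.1 (t2 (B.hi - 1) (by linarith) (by linarith))).2
    rw [inner_sub_left] at t3 t4 c1 c2
    obtain ⟨s, hs, es⟩ := intermediate_value_Ioo (show (B.lo : ℝ) ≤ B.lo + 1 by linarith)
      c.continuousOn (show h0 ∈ Ioo _ _ from ⟨by simp only [pl_int]; linarith, by linarith⟩)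
    obtain ⟨t, ht, et⟩ := intermediate_value_Ioo (show (B.hi : ℝ) - 1 ≤ B.hi by linarith)
      c.continuousOn (show h1 ∈ Ioo _ _ from ⟨by linarith, by simp only [pl_int]; linarith⟩)
    exact ⟨s, t, hs.1, hs.2, ht.1, ht.2, es, et⟩
  choose! s0 s1 p1 p2 p3 p4 p5 p6 using ex
  have lt : ∀ a ∈ B.A, s0 a < s1 a := fun a ha => by linarith [p2 a ha, p3 a ha]
  have m0 : ∀ a ∈ B.A, s0 a ∈ Icc (B.lo : ℝ) B.hi := fun a ha =>
    ⟨(p1 a ha).le, by linarith [p2 a ha]⟩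
  have m1 : ∀ a ∈ B.A, s1 a ∈ Icc (B.lo : ℝ) B.hi := fun a ha =>
    ⟨by linarith [p3 a ha], (p4 a ha).le⟩
  have key : ∀ a ∈ B.A, ∀ s ∈ Icc (B.lo : ℝ) B.hi, (s0 a ≤ s ∧ s ≤ s1 a) ↔
      (h0 ≤ ⟪pl (sx Q a) s, u⟫ ∧ ⟪pl (sx Q a) s, u⟫ ≤ h1) := fun a ha s hs => by
    rw [← p5 a ha, ← p6 a ha, (X a ha).1.le_iff_le (m0 a ha) hs, (X a ha).1.le_iff_le hs (m1 a ha)]
  have nr : ∀ a ∈ B.A, ∀ s, s0 a ≤ s → s ≤ s1 a → ‖pl (sx Q a) s - p B‖ < η := by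
    intro a ha s c1 c2
    have hs : s ∈ Icc (B.lo : ℝ) B.hi := ⟨(m0 a ha).1.trans c1, c2.trans (m1 a ha).2⟩
    obtain ⟨e1, e2⟩ := (key a ha s hs).1 ⟨c1, c2⟩
    refine (hT B hB a ha hlh).1 s hs.1 hs.2 ?_
    rw [inner_sub_left, abs_le]
    constructor <;> linarith
  have sg : ∀ a ∈ B.A, a.2 = 1 ∨ a.2 = -1 := fun a ha => (hG.st a ha).1
  have cl : ∀ a ∈ B.A, ∀ a' ∈ B.A, a ≠ a' →
      ∀ θ ∈ uIcc (a.1 + a.2 * s0 a : ℝ) (a.1 + a.2 * s1 a), ∀ θ' r : ℝ, r ≠ 0 →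
      Q.γ θ' = Q.γ θ + r • d →
      ∃ k : ℤ, θ' + k * Q.n ∈ uIcc (a'.1 + a'.2 * s0 a' : ℝ) (a'.1 + a'.2 * s1 a') := by
    intro a ha a' ha' hne θ hθ θ' r hr e
    obtain ⟨s, c1, c2, rfl⟩ := (SQWx.mem_u (sg a ha) (lt a ha).le).1 hθ
    have hs : s ∈ Icc (B.lo : ℝ) B.hi := ⟨(m0 a ha).1.trans c1, c2.trans (m1 a ha).2⟩
    rw [← pl_sx Q (sg a ha)] at e
    obtain ⟨b, hb, hba, s', m, d1, d2, d3⟩ := (X a ha).2.2 s θ' r hs.1 hs.2 (nr a ha s c1 c2) hr e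
    obtain rfl : b = a' := by
      by_contra c
      exact absurd (Finset.two_lt_card.2 ⟨a, ha, a', ha', b, hb, hne, hba.symm, Ne.symm c⟩)
        (not_lt.2 hcard)
    have eh : ⟪pl (sx Q b) s', u⟫ = ⟪pl (sx Q a) s, u⟫ := by
      rw [pl_sx Q (sg b hb), ← d3, Q.γ_per, e, inner_add_left, real_inner_smul_left, hdu]; ring
    obtain ⟨f1, f2⟩ := (key b hb s' ⟨d1, d2⟩).2 (eh ▸ (key a ha s hs).1 ⟨c1, c2⟩)
    exact ⟨m, (SQWx.mem_u (sg b hb) (lt b hb).le).2 ⟨s', f1, f2, d3⟩⟩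
  have nc : ∀ a ∈ B.A, ¬ Cr Q d (a.1 + a.2 * s0 a) ∧ ¬ Cr Q d (a.1 + a.2 * s1 a) := fun a ha =>
    ⟨fun c => n0 (by have := hcr _ c; rwa [← pl_sx Q (sg a ha), p5 a ha] at this),
      fun c => n1 (by have := hcr _ c; rwa [← pl_sx Q (sg a ha), p6 a ha] at this)⟩
  refine ⟨s0, s1, fun a ha => ⟨p1 a ha, p2 a ha, p3 a ha, p4 a ha, nr a ha⟩,
    fun a ha a' ha' hne => ⟨SQWx.up (hG.st a ha) hN.sgn (p1 a ha) (lt a ha) (p4 a ha),
      SQWx.up (hG.st a' ha') hN.sgn (p1 a' ha') (lt a' ha') (p4 a' ha'), ?_, ?_, ?_,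
      cl a ha a' ha' hne, cl a' ha' a ha hne.symm,
      (nc a ha).1, (nc a ha).2, (nc a' ha').1, (nc a' ha').2⟩⟩
  · simp only [← pl_sx Q (sg a ha), ← pl_sx Q (sg a' ha'), p5 a ha, p5 a' ha']
  · simp only [← pl_sx Q (sg a ha), ← pl_sx Q (sg a' ha'), p6 a ha, p6 a' ha']
  · intro θ hθ θ' hθ'
    obtain ⟨s, c1, c2, rfl⟩ := (SQWx.mem_u (sg a ha) (lt a ha).le).1 hθ
    obtain ⟨s', d1, d2, rfl⟩ := (SQWx.mem_u (sg a' ha') (lt a' ha').le).1 hθ'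
    rw [← pl_sx Q (sg a ha), ← pl_sx Q (sg a' ha')]
    exact (X a ha).2.1 B hB a' ha' (Or.inr hne) s s' ((p1 a ha).trans_le c1)
      (c2.trans_lt (p4 a ha)) ((p1 a' ha').trans_le d1) (d2.trans_lt (p4 a' ha'))

end Pool.Agent.P.MP_28369d_gt.SB
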