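import Pool.Agent.P.MP_28369d_gt.ST.Iface

/-! Step SQX. -/

namespace Pool.Agent.P.MP_28369d_gt.SB

open Set Filter Topology
open scoped RealInnerProductSpace

namespace SQXx

theorem mono {P Q : Poly} {u d : E} {ρ : ℤ → ℤ} {v0 : ℤ → E} {η : ℝ} (hN : Near P u d ρ v0 η Q)
    {a : ℤ × ℤ} {lo hi : ℤ} (ha : Std ρ a lo hi) :
    StrictMonoOn (fun s : ℝ => ⟪pl (sx Q a) s, u⟫) (Icc (lo : ℝ) hi) := by
  intro s hs t ht hst
  have e : ∀ τ, ⟪pl (sx Q a) τ, u⟫ = pl (fun r => ⟪sx Q a r, u⟫) τ := fun τ => by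
    simp only [pl, inner_add_left, real_inner_smul_left, inner_sub_left, smul_eq_mul]
  simp only [e]
  refine pl_lt _ hst fun i h1 h2 => ?_
  have a1 : lo < i + 1 := by exact_mod_cast hs.1.trans_lt h2
  have a2 : i < hi := by exact_mod_cast h1.trans_le ht.2
  have b1 := ha.2 i (by omega) (by omega)
  have b2 := ha.2 (i + 1) (by omega) (by omega)
  have h := hN.sgn (ed a i)
  rw [e_ed Q ha.1, real_inner_smul_left, inner_sub_left] at h
  rcases ha.1 with c | c
  · rw [(ed_pos c i).2, (ed_pos c i).1, b1, b2, c] at h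
    push_cast at h
    linarith
  · rw [(ed_neg c i).2, (ed_neg c i).1, b1, b2, c] at h
    push_cast at h
    linarith

theorem close {f g : ℤ → E} {η : ℝ} (h : ∀ i, ‖f i - g i‖ < η) (r : ℤ) {s : ℝ} (h0 : (r : ℝ) ≤ s)
    (h1 : s ≤ r + 1) : ∃ y0 ∈ segment ℝ (g r) (g (r + 1)), ‖pl f s - y0‖ < η := by
  refine ⟨(1 - (s - r)) • g r + (s - r) • g (r + 1),
    ⟨_, _, by linarith, by linarith, by ring, rfl⟩, ?_⟩
  have := (convex_ball (0 : E) η) (mem_ball_zero_iff.2 (h r)) (mem_ball_zero_iff.2 (h (r + 1)))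
    (a := 1 - (s - r)) (b := s - r) (by linarith) (by linarith) (by ring)
  rw [mem_ball_zero_iff] at this
  refine lt_of_eq_of_lt (congrArg norm ?_) this
  rw [pl_eq f r h0 h1]
  module

end SQXx

theorem p_SQX :
    S_SQX := by
  intro P Q u d ρ lev F N k p v0 η hA hF hC hL hd hdu hFar hN B hB a ha
  have hG := fun B hB => (hF.2.2.1 B hB).1
  have hs := (hG B hB).st a ha
  refine ⟨SQXx.mono hN hs, fun B' hB' a' ha' hne s s' s0 s1 t0 t1 he => ?_,
    fun s θ' r s0 s1 hp hr he => ?_⟩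
  · have hs' := (hG B' hB').st a' ha'
    rw [pl_sx Q hs.1, pl_sx Q hs'.1] at he
    obtain ⟨m, hm⟩ := Q.injMod _ _ he
    have hP : pl (sx P a) s = pl (sx P a') s' := by
      rw [pl_sx P hs.1, pl_sx P hs'.1, hm, hN.n]
      exact (pl_per P.per _ m).symm
    have hBB : B = B' := by
      by_contra c
      exact Set.disjoint_left.1 (hF.2.2.2 B hB B' hB' c) ((hG B hB).mem a ha s s0 s1)
        (hP ▸ (hG B' hB').mem a' ha' s' t0 t1)
    subst hBB
    have hss : s = s' := hA.pl_mono.injective (by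
      rw [← hA.ht_pl hs s0.le s1.le, ← hA.ht_pl hs' t0.le t1.le, hP])
    subst hss
    exact (hG B hB).ne a ha a' ha' (hne.resolve_left fun c => c rfl) s s0 s1 hP
  · obtain ⟨B', hB', a', ha', r', m, l0, l1, hm⟩ := hC ⌊θ'⌋
    have hs' := (hG B' hB').st a' ha'
    have hm' : (⌊θ'⌋ : ℝ) + m * Q.n = ed a' r' := by rw [hN.n]; exact_mod_cast hm
    obtain ⟨s', c0, c1, hθ⟩ := on_ed hs'.1 (r := r') (θ := θ' + m * Q.n)
      (by linarith [Int.floor_le θ']) (by linarith [Int.lt_floor_add_one θ'])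
    have hγ : Q.γ θ' = pl (sx Q a') s' := by
      rw [pl_sx Q hs'.1, ← hθ]
      exact (pl_per Q.per _ m).symm
    have hBB : B = B' := by
      by_contra c
      obtain ⟨y0, hy, hy'⟩ := SQXx.close (f := sx Q a') (g := fun r => v0 (ix a' r))
        (fun i => hN.cl _) r' c0 c1
      exact hFar B hB ⟨a, ha⟩ B' hB' c a' ha' r' l0 l1 y0 hy _ _ r hp hy' (hγ ▸ he)
    subst hBB
    have d0 : (B.lo : ℝ) ≤ s' := le_trans (by exact_mod_cast l0) c0
    have d1 : s' ≤ B.hi := c1.trans (by exact_mod_cast l1)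
    refine ⟨a', ha', ?_, s', m, d0, d1, hθ⟩
    rintro rfl
    rw [hγ] at he
    have hss : s' = s := (SQXx.mono hN hs).injOn ⟨d0, d1⟩ ⟨s0, s1⟩ (by
      simp only [he, inner_add_left, real_inner_smul_left, hdu, mul_zero, add_zero])
    rw [hss] at he
    exact smul_ne_zero hr hd (left_eq_add.1 he)

end Pool.Agent.P.MP_28369d_gt.SB
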