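import Pool.Agent.P.MP_28369d_gt.ST.Iface

/-! Step STEP. -/

namespace Pool.Agent.P.MP_28369d_gt.SB

open Set Filter Topology
open scoped RealInnerProductSpace

theorem p_STEP :
    S_STEP := by
  intro α Rel f h0 h1 h01 H H0 H1
  let G : ℝ → Prop := fun h => Relation.ReflTransGen Rel (f h0) (f h)
  let s : Set ℝ := {t | ∀ h, h0 < h → h < t → ∀ᶠ h' in 𝓝[<] h, G h'}
  have B : ∀ c ∈ s, h0 < c → ∀ x, (∀ᶠ h' in 𝓝[<] c, f h' = x) →
      Relation.ReflTransGen Rel (f h0) x := by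
    intro c hc h0c x hx
    obtain ⟨b, hb, hbc⟩ := (mem_nhdsLT_iff_exists_Ioo_subset' h0c).1 hx
    obtain ⟨h, hh, hh'⟩ := exists_between (max_lt hb h0c)
    obtain ⟨h', g1, g2⟩ := ((hc h (lt_of_le_of_lt (le_max_right _ _) hh) hh').and
      (Ioo_mem_nhdsLT (lt_of_le_of_lt (le_max_left _ _) hh))).exists
    exact (hbc ⟨g2.1, g2.2.trans hh'⟩ : f h' = x) ▸ g1
  have hs : IsClosed s := by
    refine isOpen_compl_iff.1 (isOpen_iff_mem_nhds.2 fun t ht => ?_)
    obtain ⟨h, ht⟩ := not_forall.1 ht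
    obtain ⟨a1, ht⟩ := Classical.not_imp.1 ht
    obtain ⟨a2, ht⟩ := Classical.not_imp.1 ht
    exact mem_of_superset (Ioi_mem_nhds a2) fun u hu hu' => ht (hu' h a1 hu)
  refine B h1 ((hs.inter isClosed_Icc).Icc_subset_of_forall_mem_nhdsWithin
    (fun h a b => absurd a b.not_gt) ?_ ⟨h01.le, le_rfl⟩) h01 _ H1
  rintro c ⟨hc, c0, c1⟩
  have key : (∀ᶠ h' in 𝓝[>] c, G h') ∧ (h0 < c → ∀ᶠ h' in 𝓝[<] c, G h') := by
    rcases c0.eq_or_lt with rfl | c0
    · exact ⟨H0.mono fun h e => by simp only [G, e]; exact .refl, fun e => absurd e (lt_irrefl _)⟩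
    · obtain ⟨x, y, hx, hy, hxy⟩ := H c c0 c1
      have := B c hc c0 x hx
      exact ⟨hy.mono fun h e => by simp only [G, e]; exact this.trans hxy,
        fun _ => hx.mono fun h e => by simp only [G, e]; exact this⟩
  obtain ⟨d, hd, hcd⟩ := (mem_nhdsGT_iff_exists_Ioo_subset' c1).1 key.1
  refine mem_of_superset (Ioo_mem_nhdsGT hd) fun t ht h a b => ?_
  rcases lt_trichotomy h c with e | rfl | e
  · exact hc h a e
  · exact key.2 a
  · exact mem_of_superset (Ioo_mem_nhdsLT e) fun u hu => hcd ⟨hu.1, hu.2.trans (b.trans ht.2)⟩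

end Pool.Agent.P.MP_28369d_gt.SB
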