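import Pool.Agent.P.MP_28369d_gt.ST.Iface2

/-! Step SYS1C. -/

namespace Pool.Agent.P.MP_28369d_gt.SB

open Set Filter Topology
open scoped RealInnerProductSpace

namespace SYS1Cx

variable {Q : Poly} {u d : E} {ε : ℤ} {θ0 θ1 : ℝ}

theorem up_ne (h : Up Q u ε θ0 θ1) {x y : ℝ} (hx : x ∈ uIcc θ0 θ1) (hy : y ∈ uIcc θ0 θ1)
    (hxy : x < y) : Q.γ x ≠ Q.γ y := by
  intro c
  have e1 : pl (co Q u) x = pl (co Q u) y := by rw [pl_co, pl_co, c]
  have H : ∀ i : ℤ, (i : ℝ) < y → x < i + 1 → 0 < ε * (co Q u (i + 1) - co Q u i) :=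
    fun i a b => by
      have := h.2.2 i (a.trans_le hy.2) (hx.1.trans_lt b)
      rwa [← df_co'] at this
  rcases h.1 with c | c
  · refine (pl_lt (co Q u) hxy fun i a b => ?_).ne e1
    have := H i a b
    rw [c] at this; push_cast at this; linarith
  · refine (pl_gt (co Q u) hxy fun i a b => ?_).ne' e1
    have := H i a b
    rw [c] at this; push_cast at this; linarith

theorem up_inj (h : Up Q u ε θ0 θ1) {x y : ℝ} (hx : x ∈ uIcc θ0 θ1) (hy : y ∈ uIcc θ0 θ1)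
    (c : Q.γ x = Q.γ y) : x = y := by
  rcases lt_trichotomy x y with a | a | a
  · exact absurd c (up_ne h hx hy a)
  · exact a
  · exact absurd c.symm (up_ne h hy hx a)

theorem up_mx (h : Up Q u ε θ0 θ1) {i : ℤ} (hi : Mx Q u i) (k : ℤ) :
    ¬ (min θ0 θ1 < (i : ℝ) + 1 + k * Q.n ∧ (i : ℝ) + 1 + k * Q.n < max θ0 θ1) := by
  rintro ⟨a, b⟩
  have h1 := h.2.2 (i + k * Q.n) (by push_cast; linarith) (by push_cast; linarith)
  have h2 := h.2.2 (i + 1 + k * Q.n) (by push_cast; linarith) (by push_cast; linarith)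
  rw [per_zmul Q.e_per] at h1 h2
  have := hi.1
  have := hi.2
  rcases h.1 with c | c <;> rw [c] at h1 h2 <;> push_cast at h1 h2 <;> linarith

theorem cr_shift {τ : ℝ} (h : Cr Q d τ) (k : ℤ) : Cr Q d (τ + k * Q.n) := by
  obtain ⟨τ', r, a, b⟩ := h
  exact ⟨τ', r, a, by rw [Q.γ_per, b]⟩

theorem card_two (p : Polynomial ℤ) (h : p.natDegree ≤ 1) : p.support.card ≤ 2 :=
  p.card_supp_le_succ_natDegree.trans (by omega)

end SYS1Cx

open SYS1Cx in
theorem p_SYS1C (hTWGC : S_TWGC) (hTWAC : S_TWAC) (hW5 : S_W5) :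
    S_SYS1C := by
  intro ι Q u d s a N i0 hG hd hs hC ⟨W, hWf, hWN, hW, hdis, hON⟩ hi0
  obtain ⟨hd0, -, hX, -⟩ := hW5 Q d hG
  have hn := Q.n_pos
  set O := {θ | θ ∈ Xs Q d ∧ ∀ w ∈ W, ∀ k : ℤ, θ + k * Q.n ∉ uIcc w.θ0 w.θ1} with hO
  have hOf : O.Finite := hX.subset fun _ h => h.1
  set Z0 : Set ℝ := Wd.θ0 '' W ∪ Wd.θ1 '' W ∪ O ∪ {(i0 : ℝ) + 1} with hZ0
  have hZf : Z0.Finite := (((hWf.image _).union (hWf.image _)).union hOf).union (finite_singleton _)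
  have hZN : Z0.ncard ≤ 3 * N + 1 := by
    have h1 := ncard_union_le (Wd.θ0 '' W ∪ Wd.θ1 '' W ∪ O) {(i0 : ℝ) + 1}
    have h2 := ncard_union_le (Wd.θ0 '' W ∪ Wd.θ1 '' W) O
    have h3 := ncard_union_le (Wd.θ0 '' W) (Wd.θ1 '' W)
    have h4 := ncard_image_le (f := Wd.θ0) hWf
    have h5 := ncard_image_le (f := Wd.θ1) hWf
    rw [ncard_singleton, ← hZ0] at h1
    omega
  set Z : Set ℝ := {τ | ∃ k : ℤ, τ + k * Q.n ∈ Z0} with hZ
  have hsub : Z ∩ Ico 0 (Q.n : ℝ) ⊆ toIcoMod hn 0 '' Z0 := by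
    rintro τ ⟨⟨k, hk⟩, h⟩
    refine ⟨_, hk, ?_⟩
    rw [← zsmul_eq_mul, toIcoMod_add_zsmul, (toIcoMod_eq_self hn).2 (by simpa using h)]
  have z0 : ∀ w ∈ W, ∀ k : ℤ, w.θ0 - k * Q.n ∈ Z := fun w hw k =>
    ⟨k, Or.inl (Or.inl (Or.inl ⟨w, hw, by ring⟩))⟩
  have z1 : ∀ w ∈ W, ∀ k : ℤ, w.θ1 - k * Q.n ∈ Z := fun w hw k =>
    ⟨k, Or.inl (Or.inl (Or.inr ⟨w, hw, by ring⟩))⟩
  have zO : ∀ τ, Cr Q d τ → (∀ w ∈ W, ∀ k : ℤ, τ + k * Q.n ∉ uIcc w.θ0 w.θ1) → τ ∈ Z := by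
    intro τ hc h
    obtain ⟨k, a1, a2⟩ := exists_shift hn 0 τ
    refine ⟨k, Or.inl (Or.inr ⟨⟨a1, by simpa using a2, cr_shift hc k⟩, fun w hw k' => ?_⟩)⟩
    have := h w hw (k + k')
    rwa [Int.cast_add, add_mul, ← add_assoc] at this
  have zb : ∀ τ ∈ Z, ∀ w ∈ W, ∀ k : ℤ,
      ¬ (min w.θ0 w.θ1 < τ + k * Q.n ∧ τ + k * Q.n < max w.θ0 w.θ1) := by
    rintro τ ⟨k', hk⟩ w hw k ⟨a1, a2⟩
    have hm : τ + k * Q.n ∈ uIcc w.θ0 w.θ1 := ⟨a1.le, a2.le⟩
    have key : ∀ w' ∈ W, ∀ x ∈ uIcc w'.θ0 w'.θ1, x = τ + k' * Q.n →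
        w' = w ∧ τ + k * Q.n = x := by
      intro w' hw' x hx e
      have e1 : Q.γ (τ + k * Q.n) = Q.γ x := by rw [e, Q.γ_per, Q.γ_per]
      have e2 : w = w' := by
        by_contra c
        exact hdis w hw w' hw' c _ hm _ hx e1
      subst e2
      exact ⟨rfl, up_inj (hW w hw).1.up hm hx e1⟩
    rcases hk with ((⟨w', hw', e⟩ | ⟨w', hw', e⟩) | h) | h
    · obtain ⟨rfl, e2⟩ := key w' hw' _ left_mem_uIcc e
      rw [e2] at a1 a2
      simp only [min_lt_iff, lt_max_iff, lt_self_iff_false, false_or] at a1 a2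
      linarith
    · obtain ⟨rfl, e2⟩ := key w' hw' _ right_mem_uIcc e
      rw [e2] at a1 a2
      simp only [min_lt_iff, lt_max_iff, lt_self_iff_false, or_false] at a1 a2
      linarith
    · refine h.2 w hw (k - k') ?_
      convert hm using 1
      push_cast; ring
    · have e : τ + k * Q.n = (i0 : ℝ) + 1 + (k - k' : ℤ) * Q.n := by
        have : τ + k' * Q.n = (i0 : ℝ) + 1 := h
        push_cast; linarith
      rw [e] at a1 a2
      exact up_mx (hW w hw).1.up hi0 _ ⟨a1, a2⟩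
  refine ⟨Z, fun τ => ⟨fun ⟨k, h⟩ => ⟨k + 1, ?_⟩, fun ⟨k, h⟩ => ⟨k - 1, ?_⟩⟩,
    (hZf.image _).subset hsub,
    (ncard_le_ncard hsub (hZf.image _)).trans ((ncard_image_le hZf).trans hZN),
    ⟨(i0 : ℝ) + 1, 0, Or.inr (by simp)⟩, fun θ hθ θ' hθ' hlt hcon => ?_⟩
  · convert h using 1
    push_cast; ring
  · convert h using 1
    push_cast; ring
  by_cases hA : ∃ m, θ < m ∧ m < θ' ∧ ∃ w ∈ W, ∃ k : ℤ, m + k * Q.n ∈ uIcc w.θ0 w.θ1
  · obtain ⟨m, m1, m2, w, hw, k, m3, m4⟩ := hA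
    have hw1 := (hW w hw).1
    have b1 : min w.θ0 w.θ1 - k * Q.n ∈ Z := by
      rcases min_choice w.θ0 w.θ1 with c | c <;> rw [c]
      exacts [z0 w hw k, z1 w hw k]
    have b2 : max w.θ0 w.θ1 - k * Q.n ∈ Z := by
      rcases max_choice w.θ0 w.θ1 with c | c <;> rw [c]
      exacts [z0 w hw k, z1 w hw k]
    have c1 : min w.θ0 w.θ1 - k * Q.n ≤ θ :=
      not_lt.1 fun c => hcon _ b1 ⟨c, by linarith⟩
    have c2 : θ' ≤ max w.θ0 w.θ1 - k * Q.n :=
      not_lt.1 fun c => hcon _ b2 ⟨by linarith, c⟩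
    have e1 : θ + k * Q.n = min w.θ0 w.θ1 :=
      le_antisymm (not_lt.1 fun c => zb θ hθ w hw k ⟨c, by linarith⟩) (by linarith)
    have e2 : θ' + k * Q.n = max w.θ0 w.θ1 :=
      le_antisymm (by linarith) (not_lt.1 fun c => zb θ' hθ' w hw k ⟨by linarith, c⟩)
    refine ⟨?_, fun i hi a1 a2 => ?_⟩
    · obtain ⟨σ0, σ1, hσ, hR⟩ := hTWGC ι Q u d s a w hd0 hd hs hC hw1
      obtain ⟨P0, P1, p1, p5⟩ := hTWAC ι s _ _ _ _ hs hw1.up.1 hw1.up'.1 hσ hR
      have x1 : w.θ0 ∈ Z := by simpa using z0 w hw 0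
      have x2 : w.η0 ∈ Z := by simpa [Wd.swap] using z0 _ (hW w hw).2 0
      have f1 := hC.per θ k
      have f2 := hC.per θ' k
      rcases le_total w.θ0 w.θ1 with c | c
      · rw [e1, min_eq_left c] at f1
        rw [e2, max_eq_right c] at f2
        exact ⟨P0, P1, _, _, p1, x1, x2, fun t => by rw [← f1, ← f2]; exact p5 t⟩
      · rw [e1, min_eq_right c] at f1
        rw [e2, max_eq_left c] at f2
        exact ⟨P0, P1, _, _, p1, x2, x1, fun t => by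
          rw [← f1, ← f2]; linear_combination (-1 : ℂ) * p5 t⟩
    · rw [le_antisymm (not_lt.1 fun c => up_mx hw1.up hi k ⟨by linarith, by linarith⟩) a1]
  · push Not at hA
    have hloc : ∀ m ∈ Ioo θ θ', ∀ᶠ τ in 𝓝 m, a τ = a m := by
      intro m hm
      obtain ⟨b, h1, h2, -⟩ := hC.step m
      have h3 : a m = b := h2 fun τ1 r hr c =>
        hcon m (zO m ⟨τ1, r, hr.ne', c⟩ (hA m hm.1 hm.2)) hm
      rw [← h3] at h1
      rw [← nhdsLT_sup_nhdsGE, eventually_sup]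
      refine ⟨h1, ?_⟩
      rw [← Ioi_insert, nhdsWithin_insert, eventually_sup]
      exact ⟨by simp, hC.rc m⟩
    have hconst : ∀ m ∈ Ioo θ θ', a m = a θ := by
      intro m hm
      obtain ⟨x, x1, x2⟩ := ((hC.rc θ).and (Ioo_mem_nhdsGT hlt)).exists
      rw [← x1]
      exact const_of_ev' isPreconnected_Ioo hloc hm x2
    refine ⟨?_, fun i _ a1 a2 => ?_⟩
    · obtain ⟨b, h1, h2, h3⟩ := hC.step θ'
      obtain rfl : b = a θ := by
        obtain ⟨x, x1, x2⟩ := (h1.and (Ioo_mem_nhdsLT hlt)).exists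
        rw [← x1, hconst x x2]
      by_cases hc : ∃ τ1 r : ℝ, 0 < r ∧ Q.γ τ1 = Q.γ θ' + r • d
      · obtain ⟨τ1, r, hr, c⟩ := hc
        have c' : Q.γ θ' = Q.γ τ1 + (-r) • d := by rw [c]; module
        have y1 : τ1 ∈ Z := by
          refine zO τ1 ⟨θ', -r, by linarith, c'⟩ fun w hw k hk => ?_
          have hw1 := (hW w hw).1
          obtain ⟨k', k1, k2⟩ := hw1.cl _ hk θ' (-r) (by linarith) (by rw [Q.γ_per, c'])
          have k3 := cr_shift (⟨τ1, r, hr.ne', c⟩ : Cr Q d θ') k'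
          refine zb θ' hθ' _ (hW w hw).2 k' ⟨lt_of_le_of_ne k1 fun e => ?_,
            lt_of_le_of_ne k2 fun e => ?_⟩
          · rw [← e] at k3
            rcases min_choice w.swap.θ0 w.swap.θ1 with c | c <;> rw [c] at k3
            exacts [hw1.nc.2.2.1 k3, hw1.nc.2.2.2 k3]
          · rw [e] at k3
            rcases max_choice w.swap.θ0 w.swap.θ1 with c | c <;> rw [c] at k3
            exacts [hw1.nc.2.2.1 k3, hw1.nc.2.2.2 k3]
        rcases (h3 τ1 r hr c).2.2.2 with ⟨-, e⟩ | ⟨-, e⟩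
        · refine ⟨1, Polynomial.X - 1, θ, τ1, ⟨card_two _ (by simp), card_two _ (by compute_degree),
            0, 1, Polynomial.X - 1, by simp, by simp, by simp, by simp⟩, hθ, y1, fun t => ?_⟩
          rw [e]; simp; ring
        · refine ⟨Polynomial.X, 1 - Polynomial.X, θ, τ1, ⟨card_two _ (by simp),
            card_two _ (by compute_degree), 0, Polynomial.X, 1 - Polynomial.X, by simp, by simp,
            by simp, by simp⟩, hθ, y1, fun t => ?_⟩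
          have := hs t
          rw [e]; simp; field_simp; ring
      · push Not at hc
        exact ⟨1, 0, θ, θ, ⟨card_two _ (by simp), by simp, 0, 1, 0, by simp, by simp, by simp,
          by simp⟩, hθ, hθ,
          fun t => by rw [h2 hc]; simp⟩
    · rcases a1.eq_or_lt with c | c
      · rw [← c]
      · exact hconst _ ⟨c, a2⟩

end Pool.Agent.P.MP_28369d_gt.SB
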