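import Pool.Agent.P.MP_28369d_gt.ST.Iface2

/-! Step SYSC. -/

namespace Pool.Agent.P.MP_28369d_gt.SB

open Set Filter Topology
open scoped RealInnerProductSpace

theorem p_SYSC (hSYS1C : S_SYS1C) (hENUM : S_ENUM) (hFEWC : S_FEWC) :
    S_SYSC := by
  classical
  intro N
  choose C hC using hFEWC
  refine ⟨(Finset.range (3 * N + 2)).sup C, fun T Q u d s a i0 h1 h2 h4 h5 h6 m0 => ?_⟩
  obtain ⟨Z, z1, z2, z3, ⟨τ0, z4⟩, z5⟩ := hSYS1C T Q u d s a N i0 h1 h2 h4 h5 h6 m0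
  have hn : (0 : ℝ) < Q.n := by exact_mod_cast Q.pos
  have zp : Function.Periodic (fun τ => τ ∈ Z) (Q.n : ℝ) := fun τ => propext (z1 τ)
  have zx : ∀ x : ℝ, ∃ y ∈ Ico x (x + Q.n), y ∈ Z := fun x => by
    obtain ⟨y, y1, y2⟩ := zp.exists_mem_Ico hn τ0 x
    exact ⟨y, y1, y2.mp z4⟩
  obtain ⟨L, hL⟩ : ∃ L, (Z ∩ Ico 0 (Q.n : ℝ)).ncard = L := ⟨_, rfl⟩
  have L0 : 0 < L := by
    obtain ⟨y, y1, y2⟩ := zx 0
    rw [zero_add] at y1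
    exact hL ▸ (ncard_pos z2).2 ⟨y, y2, y1⟩
  obtain ⟨c, c1, c2, c3⟩ := hENUM Z Q.n L hn z1 z2 hL L0
  have cz : ∀ k, c k ∈ Z := fun k => c3 ▸ mem_range_self k
  have zc : ∀ τ ∈ Z, ∃ k, c k = τ := fun τ h => by rwa [← c3] at h
  have red : ∀ k : ℤ, ∃ j : ℕ, j ≤ L ∧ a (c k) = a (c j) := fun k => by
    have L1 : (0 : ℤ) < L := by exact_mod_cast L0
    have e1 := Int.emod_nonneg k L1.ne'
    have e2 := Int.emod_lt_of_pos k L1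
    have e3 : ∀ i, a (c (i + L)) = a (c i) := fun i => by
      rw [c2]; simpa using h5.per (c i) 1
    refine ⟨(k % L).toNat, by omega, ?_⟩
    rw [Int.toNat_of_nonneg e1, ← per_zmul (f := fun i => a (c i)) e3 (k % L) (k / L),
      Int.emod_add_ediv_mul]
  have nx := fun k : ℤ => z5 _ (cz k) _ (cz (k + 1)) (c1 (lt_add_one k)) fun τ h e => by
    obtain ⟨l, rfl⟩ := zc τ h
    have e1 := c1.lt_iff_lt.1 e.1
    have e2 := c1.lt_iff_lt.1 e.2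
    omega
  have lk : ∀ j : ℕ, ∃ (P0 P1 : Polynomial ℤ) (x y : ℕ), (Few P0 P1 ∧ x ≤ L ∧ y ≤ L) ∧
      ∀ t, Polynomial.aeval (s t) P0 * (a (c (j + 1 : ℕ)) t - a (c j) t) =
        Polynomial.aeval (s t) P1 * (a (c x) t - a (c y) t) := fun j => by
    obtain ⟨P0, P1, x, y, p1, p5, p6, p7⟩ := (nx j).1
    obtain ⟨k, rfl⟩ := zc x p5
    obtain ⟨l, rfl⟩ := zc y p6
    obtain ⟨k', k1, k2⟩ := red k
    obtain ⟨l', l1, l2⟩ := red l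
    refine ⟨P0, P1, k', l', ⟨p1, k1, l1⟩, fun t => ?_⟩
    rw [← k2, ← l2, Nat.cast_succ]
    exact p7 t
  choose P0 P1 x y p1 p2 using lk
  have mx : ∀ i, Mx Q u i → ∃ j : ℕ, j ≤ L ∧ a (i + 1) = a (c j) := fun i hi => by
    obtain ⟨y, y1, y2⟩ := zx (i + 1 - Q.n)
    obtain ⟨w, w1, w2⟩ := zx (i + 2)
    obtain ⟨k0, rfl⟩ := zc y y2
    obtain ⟨k1, rfl⟩ := zc w w2
    obtain ⟨k, e1, e2⟩ := Int.exists_greatest_of_bdd (P := fun k => c k ≤ i + 1)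
      ⟨k1, fun k e => c1.le_iff_le.1 (by linarith [w1.1])⟩ ⟨k0, by linarith [y1.2]⟩
    obtain ⟨j, j1, j2⟩ := red k
    refine ⟨j, j1, ((nx k).2 i hi e1 (lt_of_not_ge fun e => ?_)).trans j2⟩
    have := e2 _ e
    omega
  obtain ⟨D, d1, d2, d3⟩ := hC L P0 P1 x y fun j _ => p1 j
  refine ⟨D, d1.trans (Finset.le_sup (f := C) (Finset.mem_range.2 (by omega))), d2,
    fun t ht => d3 (s t) (fun j => a (c j) t) ?_ fun j _ => p2 j t⟩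
  obtain ⟨i, i', m1, m2, m3⟩ := ht
  obtain ⟨j, j1, j2⟩ := mx i m1
  obtain ⟨l, l1, l2⟩ := mx i' m2
  by_contra e
  push Not at e
  exact m3 (by rw [j2, l2, e j j1, e l l1])

end Pool.Agent.P.MP_28369d_gt.SB
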