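import Pool.Agent.P.MP_28369d_gt.ST.Iface2

/-! Step TWAC. -/

namespace Pool.Agent.P.MP_28369d_gt.SB

open Set Filter Topology
open scoped RealInnerProductSpace

namespace TWACx

open Polynomial in
/-- Clearing denominators. -/
theorem polys {ι : Type} (s u v : ι → ℂ) (hs : ∀ t, s t ≠ 0) (m1 m2 m3 m4 b c : ℤ)
    (hb : b = 0 ∨ (b = 1 ∧ (m1 - m2) % 2 = 1 ∧ (m3 - m4) % 2 = 0))
    (h : ∀ t, (s t ^ m1 + b * s t ^ m2) * u t = c * (s t ^ m3 - s t ^ m4) * v t) :
    ∃ P0 P1 : Polynomial ℤ, Few P0 P1 ∧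
      ∀ t, aeval (s t) P0 * u t = aeval (s t) P1 * v t := by
  obtain ⟨K, n1, n2, n3, n4, h1, h2, h3, h4⟩ : ∃ (K : ℤ) (n1 n2 n3 n4 : ℕ), (n1 : ℤ) = K + m1 ∧
      (n2 : ℤ) = K + m2 ∧ (n3 : ℤ) = K + m3 ∧ (n4 : ℤ) = K + m4 := by
    refine ⟨|m1| + |m2| + |m3| + |m4|, (|m1| + |m2| + |m3| + |m4| + m1).toNat,
      (|m1| + |m2| + |m3| + |m4| + m2).toNat, (|m1| + |m2| + |m3| + |m4| + m3).toNat,
      (|m1| + |m2| + |m3| + |m4| + m4).toNat, ?_, ?_, ?_, ?_⟩ <;>
    · have a1 := abs_nonneg m1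
      have a2 := abs_nonneg m2
      have a3 := abs_nonneg m3
      have a4 := abs_nonneg m4
      have b1 := neg_abs_le m1
      have b2 := neg_abs_le m2
      have b3 := neg_abs_le m3
      have b4 := neg_abs_le m4
      rw [Int.toNat_of_nonneg (by linarith)]
  have hc : ∀ (a b : ℤ) (k m : ℕ), (C a * X ^ k + C b * X ^ m : ℤ[X]).support.card ≤ 2 :=
    fun a b k m => (Finset.card_le_card (support_binomial_subset k m a b)).trans Finset.card_le_two
  have dv : ∀ P : ℤ[X], P.eval (-1) = 0 → ∃ Q, P = (1 + X) ^ 1 * Q ∧ P.eval 1 = 2 * Q.eval 1 := by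
    intro P hP
    obtain ⟨Q, hQ⟩ := dvd_iff_isRoot.2 hP
    refine ⟨Q, by rw [hQ]; simp [add_comm], by rw [hQ]; simp⟩
  refine ⟨C 1 * X ^ n1 + C b * X ^ n2, C c * X ^ n3 + C (-c) * X ^ n4,
    ⟨hc _ _ _ _, hc _ _ _ _, ?_⟩, fun t => ?_⟩
  · rcases hb with rfl | ⟨rfl, b1, b2⟩
    · exact ⟨0, _, _, (one_mul _).symm.trans (by rw [pow_zero]),
        (one_mul _).symm.trans (by rw [pow_zero]), by simp, by simp⟩
    · have p1 : (-1 : ℤ) ^ n1 + (-1) ^ n2 = 0 := by
        rcases Nat.even_or_odd n1 with e | e <;> rcases Nat.even_or_odd n2 with e' | e' <;>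
          simp only [e.neg_one_pow, e'.neg_one_pow] <;> obtain ⟨_, rfl⟩ := e <;>
          obtain ⟨_, rfl⟩ := e' <;> omega
      have p2 : (-1 : ℤ) ^ n3 = (-1) ^ n4 := by
        rcases Nat.even_or_odd n3 with e | e <;> rcases Nat.even_or_odd n4 with e' | e' <;>
          simp only [e.neg_one_pow, e'.neg_one_pow] <;> obtain ⟨_, rfl⟩ := e <;>
          obtain ⟨_, rfl⟩ := e' <;> omega
      obtain ⟨Q0, a1, a2⟩ := dv (C 1 * X ^ n1 + C 1 * X ^ n2) (by simpa using p1)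
      obtain ⟨Q1, a3, a4⟩ := dv (C c * X ^ n3 + C (-c) * X ^ n4) (by simp [p2])
      refine ⟨1, Q0, Q1, a1, a3, ?_, ?_⟩
      · simp at a2; omega
      · simp at a4; omega
  have h0 := hs t
  have e : ∀ (n : ℕ) (m : ℤ), (n : ℤ) = K + m → s t ^ n = s t ^ K * s t ^ m := fun n m hn => by
    rw [← zpow_natCast, hn, zpow_add₀ h0]
  simp only [map_add, map_mul, map_pow, aeval_X, e n1 m1 h1, e n2 m2 h2, e n3 m3 h3,
    e n4 m4 h4, eq_intCast, map_intCast, map_one, map_neg]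
  linear_combination s t ^ K * h t

/-- The exponent attached to a sign. -/
def eta (σ : ℤ) : ℤ := if σ = 1 then 0 else 1

theorem inv1 {ι : Type} (S : ι → ℂ) (hS : ∀ t, S t ≠ 0) (x y : (ι → ℂ) × (ι → ℂ) × ℤ)
    (hx : x.2.2 = 1 ∨ x.2.2 = -1) (h : Relation.ReflTransGen (Mvc S 1 1) x y) :
    (y.2.2 = 1 ∨ y.2.2 = -1) ∧ ∃ j : ℤ, (eta y.2.2 + j - eta x.2.2) % 2 = 0 ∧
      ∀ t, y.1 t - y.2.1 t = S t ^ j * (x.1 t - x.2.1 t) ∧
      (1 + S t) * y.1 t - S t ^ eta y.2.2 * (y.1 t - y.2.1 t) =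
        (1 + S t) * x.1 t - S t ^ eta x.2.2 * (x.1 t - x.2.1 t) := by
  induction h with
  | refl => exact ⟨hx, 0, by simp, fun t => ⟨by simp, rfl⟩⟩
  | @tail z y _ hm ih =>
    obtain ⟨hz, j, hp, hj⟩ := ih
    obtain ⟨z1, z2, σ⟩ := z
    simp only at hz hj hp
    have hq : (eta (-σ) + (j + σ) - eta x.2.2) % 2 = 0 ∧ (eta (-σ) + (j - σ) - eta x.2.2) % 2 = 0 := by
      generalize eta x.2.2 = w at hp
      rcases hz with rfl | rfl <;> simp only [eta] at hp ⊢ <;> norm_num at hp ⊢ <;> omega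
    rcases hm with rfl | rfl
    · refine ⟨by simp only; omega, j + σ, hq.1, fun t => ?_⟩
      have h0 := hS t
      obtain ⟨a, b⟩ := hj t
      rw [← b, zpow_add₀ h0]
      rcases hz with rfl | rfl
      · simp [eta]
        constructor
        · rw [a]; ring
        · ring
      · simp [eta]
        constructor
        · rw [a]; ring
        · field_simp
          ring
    · refine ⟨by simp only; omega, j - σ, hq.2, fun t => ?_⟩
      have h0 := hS t
      obtain ⟨a, b⟩ := hj t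
      rw [← b, zpow_sub₀ h0]
      rcases hz with rfl | rfl
      · simp [eta]
        constructor
        · field_simp
          linear_combination a
        · field_simp
          ring
      · simp [eta]
        constructor
        · linear_combination S t * a
        · ring

theorem inv2 {ι : Type} (S : ι → ℂ) (hS : ∀ t, S t ≠ 0) (x y : (ι → ℂ) × (ι → ℂ) × ℤ)
    (hx : x.2.2 = 1 ∨ x.2.2 = -1) (h : Relation.ReflTransGen (Mvc S 1 (-1)) x y) :
    (y.2.2 = 1 ∨ y.2.2 = -1) ∧ ∃ j : ℤ, ∀ t,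
      S t ^ eta y.2.2 * (y.1 t - y.2.1 t) = S t ^ eta x.2.2 * (x.1 t - x.2.1 t) ∧
      y.1 t - x.1 t = j * (1 - (S t)⁻¹) * (S t ^ eta x.2.2 * (x.1 t - x.2.1 t)) := by
  induction h with
  | refl => exact ⟨hx, 0, fun t => ⟨rfl, by simp⟩⟩
  | @tail z y _ hm ih =>
    obtain ⟨hz, j, hj⟩ := ih
    obtain ⟨z1, z2, σ⟩ := z
    simp only at hz hj
    rcases hm with rfl | rfl
    · refine ⟨by simp only; omega, j - σ, fun t => ?_⟩
      have h0 := hS t
      obtain ⟨a, b⟩ := hj t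
      rw [← a] at b ⊢
      rcases hz with rfl | rfl
      · simp [eta] at b ⊢
        constructor
        · field_simp
        · linear_combination b
      · simp [eta] at b ⊢
        have : (S t)⁻¹ * S t = 1 := inv_mul_cancel₀ h0
        linear_combination b + (z1 t - z2 t) * this
    · refine ⟨by simp only; omega, j, fun t => ?_⟩
      have h0 := hS t
      obtain ⟨a, b⟩ := hj t
      refine ⟨?_, b⟩
      rw [← a]
      rcases hz with rfl | rfl
      · simp [eta]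
        field_simp
        ring
      · simp [eta]
        ring

theorem red {ι : Type} (s : ι → ℂ) (ε e : ℤ) (x y : (ι → ℂ) × (ι → ℂ) × ℤ)
    (h : Relation.ReflTransGen (Mvc s ε (ε * e)) x y) :
    Relation.ReflTransGen (Mvc (s ^ ε) 1 e) x y := by
  refine Relation.ReflTransGen.mono (r := Mvc s ε (ε * e)) (fun a b hab => ?_) x y h
  unfold Mvc at hab ⊢
  have e1 : (s ^ ε) ^ (e * a.2.2) = s ^ (ε * e * a.2.2) := by
    funext t; simp only [Pi.pow_apply, ← zpow_mul, mul_assoc]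
  have e2 : (s ^ ε) ^ (-(1 * a.2.2)) = s ^ (-(ε * a.2.2)) := by
    funext t; simp only [Pi.pow_apply, ← zpow_mul, one_mul, mul_neg]
  rw [e1, e2]
  exact hab

end TWACx

theorem p_TWAC :
    S_TWAC := by
  intro ι s ε ε' x y hs hε hε' hx h
  have hS : ∀ t, (s ^ ε) t ≠ 0 := fun t => zpow_ne_zero ε (hs t)
  have hc : ε' = ε * 1 ∨ ε' = ε * -1 := by omega
  rcases hc with rfl | rfl
  · obtain ⟨-, j, hp, hj⟩ := TWACx.inv1 _ hS x y hx (TWACx.red s ε 1 x y h)
    refine TWACx.polys s (fun t => y.1 t - x.1 t) (fun t => x.1 t - x.2.1 t) hs 0 ε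
      (ε * (TWACx.eta y.2.2 + j)) (ε * TWACx.eta x.2.2) 1 1
      (Or.inr ⟨rfl, by omega, by rcases hε with rfl | rfl <;> omega⟩) fun t => ?_
    obtain ⟨a, b⟩ := hj t
    have h0 := hS t
    simp only [Pi.pow_apply] at a b h0
    rw [zpow_mul, zpow_mul, zpow_add₀ h0, zpow_zero]
    rw [a] at b
    push_cast
    linear_combination b
  · obtain ⟨-, j, hj⟩ := TWACx.inv2 _ hS x y hx (TWACx.red s ε (-1) x y h)
    refine TWACx.polys s (fun t => y.1 t - x.1 t) (fun t => x.1 t - x.2.1 t) hs 0 0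
      (ε * TWACx.eta x.2.2) (ε * (TWACx.eta x.2.2 + -1)) 0 j (Or.inl rfl) fun t => ?_
    obtain ⟨-, b⟩ := hj t
    have h0 := hS t
    simp only [Pi.pow_apply] at b h0
    rw [zpow_mul, zpow_mul, zpow_add₀ h0, zpow_zero, zpow_neg_one]
    push_cast
    linear_combination b

end Pool.Agent.P.MP_28369d_gt.SB
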