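import Pool.Agent.P.MP_28369d_gt.ST.Iface2
import Pool.Agent.P.MP_28369d_gt.ST.Iface

/-! Step TWGC. -/

namespace Pool.Agent.P.MP_28369d_gt.SB

open Set Filter Topology
open scoped RealInnerProductSpace

namespace TWGCx

theorem cst {V : Type} [CommRing V] [_root_.Inv V] {Q : Poly} {d : E} {s : V} {a : ℝ → V}
    (hC : Col Q d s a) {τ : ℝ} (h : ¬ Cr Q d τ) : ∀ᶠ τ' in 𝓝 τ, a τ' = a τ := by
  obtain ⟨b, hb, h1, -⟩ := hC.step τ
  have e : a τ = b := h1 fun τ1 r hr c => h ⟨τ1, r, hr.ne', c⟩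
  rw [← nhdsNE_sup_pure, ← nhdsLT_sup_nhdsGT, eventually_sup, eventually_sup]
  exact ⟨⟨e ▸ hb, hC.rc τ⟩, rfl⟩

theorem comb {d u p : E} (hd : d ≠ 0) (hu : u ≠ 0) (hdu : ⟪d, u⟫ = 0) (hp : ⟪p, u⟫ = 0)
    (h : det3 d u p = 0) : ∃ r : ℝ, p = r • d := by
  have hc : cr d u ≠ 0 := fun c => by
    have e : ⟪cr d u, cr d u⟫ = ⟪d, d⟫ * ⟪u, u⟫ - ⟪d, u⟫ ^ 2 := by
      simp only [inner3, cr, pt_0, pt_1, pt_2]; ring
    rw [c, hdu, inner_zero_left] at e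
    have := mul_pos (real_inner_self_pos.2 hd) (real_inner_self_pos.2 hu)
    linarith
  obtain ⟨r, t, e⟩ := exists_comb_of_det3 hc h
  rw [e, inner_add_left, real_inner_smul_left, real_inner_smul_left, hdu, mul_zero, zero_add] at hp
  have ht : t = 0 := (mul_eq_zero.1 hp).resolve_right (real_inner_self_pos.2 hu).ne'
  exact ⟨r, by rw [e, ht, zero_smul, add_zero]⟩

theorem sgn {Q : Poly} {u : E} {ε : ℤ} {θ0 θ1 τ : ℝ} (h : Up Q u ε θ0 θ1) (hτ : τ ∈ uIcc θ0 θ1)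
    (h0 : τ ≠ θ0) (h1 : τ ≠ θ1) : 0 < ε * ⟪Q.e ⌊τ⌋, u⟫ := by
  refine h.2.2 _ ((Int.floor_le τ).trans_lt (lt_of_le_of_ne hτ.2 ?_))
    (lt_of_le_of_lt hτ.1 (Int.lt_floor_add_one τ))
  rcases max_choice θ0 θ1 with c | c <;> rw [c] <;> assumption

theorem pos {σ : ℤ} {D : ℝ} (hσ : σ = 1 ∨ σ = -1) (h : 0 < σ * D) :
    (if 0 < D then (1 : ℤ) else -1) = σ := by
  rcases hσ with c | c <;> subst c
  · rw [if_pos (by simpa using h)]
  · rw [if_neg (by push_cast at h; linarith)]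

theorem neg {σ : ℤ} {D : ℝ} (hσ : σ = 1 ∨ σ = -1) (h : σ * D < 0) :
    (if 0 < D then (1 : ℤ) else -1) = -σ :=
  pos (by omega) (by push_cast; linarith)

end TWGCx

theorem p_TWGC (hSTEP : S_STEP) (hINVH : S_INVH) (hXLOCC : S_XLOCC) :
    S_TWGC := by
  intro ι Q u d s a w hd hdu hs hC hW
  obtain ⟨lt1, φ, cφ, φ0, φ1, -, rφ, iφ⟩ := hINVH Q u w.ε w.θ0 w.θ1 hW.up
  obtain ⟨-, ψ, cψ, ψ0, ψ1, -, rψ, iψ⟩ := hINVH Q u w.ε' w.η0 w.η1 hW.up'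
  have e0 := hW.h0
  have e1 := hW.h1
  rw [← e0] at ψ0
  rw [← e1] at ψ1
  rw [← e0, ← e1] at rψ iψ
  generalize hh0 : ⟪Q.γ w.θ0, u⟫ = h0 at *
  generalize hh1 : ⟪Q.γ w.θ1, u⟫ = h1 at *
  have hu : u ≠ 0 := fun c => by
    rw [c, inner_zero_right] at hh0 hh1
    rw [← hh0, ← hh1] at lt1
    exact lt_irrefl _ lt1
  obtain ⟨D, hD⟩ : ∃ D : ℝ → ℝ, D = fun h => det3 d u (Q.γ (ψ h) - Q.γ (φ h)) := ⟨_, rfl⟩
  have hD' : ∀ h, det3 d u (Q.γ (ψ h) - Q.γ (φ h)) = D h := fun h => by rw [hD]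
  have hD'' : ∀ h, det3 d u (Q.γ (φ h) - Q.γ (ψ h)) = -D h := fun h => by
    rw [← hD', det3_sub, det3_sub]; ring
  have cD : Continuous D := by
    rw [hD]
    exact (continuous_det3 d u).comp ((Q.continuous_γ.comp cψ).sub (Q.continuous_γ.comp cφ))
  obtain ⟨f, hf⟩ : ∃ f : ℝ → (ι → ℂ) × (ι → ℂ) × ℤ,
      ∀ h, f h = (a (φ h), a (ψ h), if 0 < D h then (1 : ℤ) else -1) := ⟨_, fun _ => rfl⟩
  have zero : ∀ h ∈ Icc h0 h1, D h = 0 → ∃ r : ℝ, r ≠ 0 ∧ Q.γ (ψ h) = Q.γ (φ h) + r • d := by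
    intro h hh c
    obtain ⟨r, e⟩ := TWGCx.comb (p := Q.γ (ψ h) - Q.γ (φ h)) hd hu hdu
      (by rw [inner_sub_left, (rφ h hh).2, (rψ h hh).2, sub_self]) (by rw [hD', c])
    refine ⟨r, fun c' => hW.ne _ (rφ h hh).1 _ (rψ h hh).1 ?_, by rw [← e]; abel⟩
    rw [c', zero_smul, sub_eq_zero] at e
    exact e.symm
  have loc : ∀ h ∈ Icc h0 h1, D h ≠ 0 → ∀ᶠ h' in 𝓝 h, f h' = f h := by
    intro h hh c
    have n1 : ¬ Cr Q d (φ h) := by
      rintro ⟨θ', r, hr, e⟩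
      obtain ⟨k, hk⟩ := hW.cl _ (rφ h hh).1 θ' r hr e
      have e2 := (iψ _ hk).2
      rw [Q.γ_per, e, inner_add_left, real_inner_smul_left, hdu, mul_zero, add_zero,
        (rφ h hh).2] at e2
      apply c
      rw [← hD', e2, Q.γ_per, e, add_sub_cancel_left, det3_smul, det3_self_left, mul_zero]
    have n2 : ¬ Cr Q d (ψ h) := by
      rintro ⟨θ', r, hr, e⟩
      obtain ⟨k, hk⟩ := hW.cl' _ (rψ h hh).1 θ' r hr e
      have e2 := (iφ _ hk).2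
      rw [Q.γ_per, e, inner_add_left, real_inner_smul_left, hdu, mul_zero, add_zero,
        (rψ h hh).2] at e2
      apply c
      rw [← neg_eq_zero, ← hD'', e2, Q.γ_per, e, add_sub_cancel_left, det3_smul, det3_self_left,
        mul_zero]
    have k1 := cφ.continuousAt.eventually (TWGCx.cst hC n1)
    have k2 := cψ.continuousAt.eventually (TWGCx.cst hC n2)
    have k3 : ∀ᶠ h' in 𝓝 h, (0 < D h' ↔ 0 < D h) := by
      rcases lt_or_gt_of_ne c with c' | c'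
      · filter_upwards [cD.continuousAt.eventually (gt_mem_nhds c')] with h' b
        exact iff_of_false (not_lt.2 b.le) (not_lt.2 c'.le)
      · filter_upwards [cD.continuousAt.eventually (lt_mem_nhds c')] with h' b
        exact iff_of_true b c'
    filter_upwards [k1, k2, k3] with h' b1 b2 b3
    rw [hf, hf, b1, b2]
    simp only [b3]
  have m0 : h0 ∈ Icc h0 h1 := ⟨le_rfl, lt1.le⟩
  have m1 : h1 ∈ Icc h0 h1 := ⟨lt1.le, le_rfl⟩
  have d0 : D h0 ≠ 0 := fun c => by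
    obtain ⟨r, hr, e⟩ := zero h0 m0 c
    rw [φ0] at e
    exact hW.nc.1 ⟨_, r, hr, e⟩
  have d1 : D h1 ≠ 0 := fun c => by
    obtain ⟨r, hr, e⟩ := zero h1 m1 c
    rw [φ1] at e
    exact hW.nc.2.1 ⟨_, r, hr, e⟩
  have main := hSTEP _ (Mvc s w.ε w.ε') f h0 h1 lt1 ?_
    ((loc h0 m0 d0).filter_mono nhdsWithin_le_nhds)
    ((loc h1 m1 d1).filter_mono nhdsWithin_le_nhds)
  · rw [hf, hf, φ0, φ1, ψ0, ψ1] at main
    refine ⟨_, _, ?_, main⟩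
    split_ifs <;> simp
  intro h a0 a1
  have hh : h ∈ Icc h0 h1 := ⟨a0.le, a1.le⟩
  by_cases c : D h = 0
  swap
  · exact ⟨f h, f h, (loc h hh c).filter_mono nhdsWithin_le_nhds,
      (loc h hh c).filter_mono nhdsWithin_le_nhds, Relation.ReflTransGen.refl⟩
  obtain ⟨r, hr, e⟩ := zero h hh c
  have s1 : 0 < w.ε * ⟪Q.e ⌊φ h⌋, u⟫ := TWGCx.sgn hW.up (rφ h hh).1
    (fun c' => a0.ne' (by rw [← (rφ h hh).2, c', hh0]))
    (fun c' => a1.ne (by rw [← (rφ h hh).2, c', hh1]))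
  have s2 : 0 < w.ε' * ⟪Q.e ⌊ψ h⌋, u⟫ := TWGCx.sgn hW.up' (rψ h hh).1
    (fun c' => a0.ne' (by rw [← (rψ h hh).2, c', e0]))
    (fun c' => a1.ne (by rw [← (rψ h hh).2, c', e1]))
  have ev : ∀ᶠ h' in 𝓝 h, ⟪Q.γ (φ h'), u⟫ = h' ∧ ⟪Q.γ (ψ h'), u⟫ = h' := by
    filter_upwards [Icc_mem_nhds a0 a1] with h' b
    exact ⟨(rφ h' b).2, (rψ h' b).2⟩
  rcases lt_or_gt_of_ne hr with c' | c'
  · obtain ⟨x, y, σ, hσ, hy, l1, l2⟩ := hXLOCC ι Q u d s a w.ε' w.ε ψ φ h (-r) hdu hs hC hW.up'.1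
      hW.up.1 cψ.continuousAt cφ.continuousAt (ev.mono fun _ b => b.symm) s2 s1 (neg_pos.2 c')
      (by rw [e, neg_smul]; abel)
    refine ⟨(a (φ h), x, -σ), (a (φ h), y, σ), ?_, ?_, Relation.ReflTransGen.single (Or.inr ?_)⟩
    · filter_upwards [l1] with h' b
      rw [hf, b.1, b.2.1, TWGCx.neg hσ (by have := b.2.2; rw [hD''] at this; linarith)]
    · filter_upwards [l2] with h' b
      rw [hf, b.1, b.2.1, TWGCx.pos hσ (by have := b.2.2; rw [hD''] at this; linarith)]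
    · simp only [mul_neg, neg_neg]
      rw [← hy]
  · obtain ⟨x, y, σ, hσ, hy, l1, l2⟩ := hXLOCC ι Q u d s a w.ε w.ε' φ ψ h r hdu hs hC hW.up.1
      hW.up'.1 cφ.continuousAt cψ.continuousAt ev s1 s2 c' e
    refine ⟨(x, a (ψ h), σ), (y, a (ψ h), -σ), ?_, ?_, Relation.ReflTransGen.single (Or.inl ?_)⟩
    · filter_upwards [l1] with h' b
      rw [hf, b.1, b.2.1, TWGCx.pos hσ (by have := b.2.2; rwa [hD'] at this)]
    · filter_upwards [l2] with h' b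
      rw [hf, b.1, b.2.1, TWGCx.neg hσ (by have := b.2.2; rwa [hD'] at this)]
    · simp only []
      rw [← hy]

end Pool.Agent.P.MP_28369d_gt.SB
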