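import Pool.Agent.P.MP_28369d_gt.ST.Iface
import Pool.Agent.P.MP_28369d_gt.SB.TW4

/-! Step XC. -/

namespace Pool.Agent.P.MP_28369d_gt.SB

open Set Filter Topology
open scoped RealInnerProductSpace

open W4x in
theorem p_XC :
    S_XC := by
  intro Q d S h
  set X : Set ℝ := {θ | θ ∈ Xs Q d ∧ ∃ θ' r : ℝ, r ≠ 0 ∧ Q.γ θ' = Q.γ θ + r • d ∧
    ⌊θ⌋ % Q.n ∈ S ∧ ⌊θ'⌋ % Q.n ∈ S} with hX
  have hex : ∀ τ : ℝ, ∃ τ' r : ℝ, τ ∈ X →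
      ⌊τ⌋ ∈ S ∧ ⌊τ'⌋ ∈ S ∧ r ≠ 0 ∧ Q.γ τ' = Q.γ τ + r • d := by
    intro τ
    by_cases hτ : τ ∈ X
    · obtain ⟨hx, τ', r, r0, e, s1, s2⟩ := hτ
      obtain ⟨k, k1, k2, k3⟩ := exists_rep Q τ'
      have m1 := Finset.mem_Ico.1 (floor_mem hx.1 hx.2.1)
      have m2 := Finset.mem_Ico.1 (floor_mem k1 k2)
      refine ⟨_, r, fun _ => ⟨?_, ?_, r0, k3.trans e⟩⟩
      · rwa [Int.emod_eq_of_lt m1.1 m1.2] at s1
      · have e1 : ⌊τ' + k * Q.n⌋ = ⌊τ'⌋ + k * Q.n := by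
          rw [← Int.floor_add_intCast]
          push_cast
          rfl
        rw [← Int.emod_eq_of_lt m2.1 m2.2, e1, Int.add_mul_emod_self_right]
        exact s2
    · exact ⟨0, 0, fun a => absurd a hτ⟩
  choose σ r hσ using hex
  have hm : MapsTo (fun τ => (⌊τ⌋, ⌊σ τ⌋)) X (↑(S ×ˢ S) : Set (ℤ × ℤ)) := fun τ hτ =>
    Finset.mem_coe.2 (Finset.mem_product.2 ⟨(hσ τ hτ).1, (hσ τ hτ).2.1⟩)
  have hi : InjOn (fun τ => (⌊τ⌋, ⌊σ τ⌋)) X := by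
    intro τ1 h1 τ2 h2 e
    obtain ⟨e1, e2⟩ := Prod.mk.inj e
    obtain ⟨-, -, a1, a2⟩ := hσ τ1 h1
    obtain ⟨-, -, -, b2⟩ := hσ τ2 h2
    rw [γ_floor Q (σ τ1), γ_floor Q τ1] at a2
    rw [γ_floor Q (σ τ2), γ_floor Q τ2, ← e1, ← e2] at b2
    have hd := det_cross h a1 a2
    have c1 := congrArg (det3 d (Q.e ⌊σ τ1⌋)) a2
    have c2 := congrArg (det3 d (Q.e ⌊σ τ1⌋)) b2
    simp only [det3_add, det3_smul, det3_self_left, det3_self_right, mul_zero, add_zero] at c1 c2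
    rw [det3_swap d (Q.e ⌊σ τ1⌋) (Q.e ⌊τ1⌋)] at c1 c2
    exact mul_right_cancel₀ hd (by linarith)
  refine (ncard_le_ncard_of_injOn _ hm hi (Finset.finite_toSet _)).trans ?_
  rw [ncard_coe_finset, Finset.card_product]
  simp [sq]

end Pool.Agent.P.MP_28369d_gt.SB
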