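import Pool.Agent.P.MP_28369d_gt.ST.Iface2

/-! Step XLOCC. -/

namespace Pool.Agent.P.MP_28369d_gt.SB

open Set Filter Topology
open scoped RealInnerProductSpace

namespace XLOCCx

theorem loc (Q : Poly) (u : E) {φ : ℝ → ℝ} {h : ℝ} (hc : ContinuousAt φ h)
    (hn : ∀ i : ℤ, φ h ≠ i) (he : ∀ᶠ h' in 𝓝 h, ⟪Q.γ (φ h'), u⟫ = h') :
    ∀ᶠ h' in 𝓝 h, Q.γ (φ h') = Q.γ (φ h) + (φ h' - φ h) • Q.e ⌊φ h⌋ ∧
      (φ h' - φ h) * ⟪Q.e ⌊φ h⌋, u⟫ = h' - h := by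
  have h1 : (⌊φ h⌋ : ℝ) < φ h := (Int.floor_le _).lt_of_ne (hn _).symm
  have h2 := Int.lt_floor_add_one (φ h)
  filter_upwards [he, hc.eventually (Ioo_mem_nhds h1 h2)] with h' a1 a2
  have e := Q.γ_sub ⌊φ h⌋ a2.1.le a2.2.le h1.le h2.le
  refine ⟨by rw [← e]; abel, ?_⟩
  rw [← real_inner_smul_left, ← e, inner_sub_left, a1, he.self_of_nhds]

theorem side {φ : ℝ → ℝ} {h A : ℝ} (hc : ContinuousAt φ h)
    (he : ∀ᶠ h' in 𝓝 h, (φ h' - φ h) * A = h' - h) :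
    (0 < A → Tendsto φ (𝓝[<] h) (𝓝[<] φ h) ∧ Tendsto φ (𝓝[>] h) (𝓝[>] φ h)) ∧
    (A < 0 → Tendsto φ (𝓝[<] h) (𝓝[>] φ h) ∧ Tendsto φ (𝓝[>] h) (𝓝[<] φ h)) := by
  refine ⟨fun hA => ⟨?_, ?_⟩, fun hA => ⟨?_, ?_⟩⟩ <;>
  · refine tendsto_nhdsWithin_iff.2 ⟨hc.tendsto.mono_left nhdsWithin_le_nhds, ?_⟩
    filter_upwards [he.filter_mono nhdsWithin_le_nhds, self_mem_nhdsWithin] with h' a1 a2
    simp only [mem_Iio, mem_Ioi] at a2 ⊢
    nlinarith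

theorem key {d u : E} (hd : ⟪d, u⟫ = 0) (v w : E) :
    det3 d u w * ⟪v, u⟫ - det3 d u v * ⟪w, u⟫ = ⟪u, u⟫ * det3 d v w := by
  have := congrArg (fun z => ⟪z, u⟫) (det3_cramer d v w u)
  simp only [inner_add_left, real_inner_smul_left, hd, det3_swap d v u] at this
  linarith

theorem sg {A B N D Δ t ε ε' κ : ℝ} (hA : 0 < ε * A) (hB : 0 < ε' * B) (h1 : ε * ε = 1)
    (h2 : ε' * ε' = 1) (hN : 0 < N) (hD : 0 < κ * D) (e : A * B * Δ = t * (N * D)) :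
    (t < 0 → 0 < -κ * ε * ε' * Δ) ∧ (0 < t → -κ * ε * ε' * Δ < 0) := by
  have p := mul_pos hA hB
  have q := mul_pos hN hD
  have e' : ε * A * (ε' * B) * (-κ * ε * ε' * Δ) = -t * (N * (κ * D)) := by
    linear_combination (-κ * (A * B * Δ) * (ε' * ε')) * h1 - κ * (A * B * Δ) * h2 - κ * e
  constructor
  · intro ht
    exact (mul_pos_iff_of_pos_left p).1 (e' ▸ mul_pos (neg_pos.2 ht) q)
  · intro ht
    by_contra c
    have := mul_nonneg p.le (not_lt.1 c)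
    rw [e'] at this
    nlinarith

end XLOCCx

theorem p_XLOCC :
    S_XLOCC := by
  intro ι Q u d s a ε ε' φ ψ h r hd hs hC hε hε' c1 c2 he hA hB hr hx
  obtain ⟨b, hb, -, hst⟩ := hC.step (φ h)
  obtain ⟨n1, n2, k1, hrel⟩ := hst (ψ h) r hr hx
  have l1 := XLOCCx.loc Q u c1 n1 (he.mono fun _ c => c.1)
  have l2 := XLOCCx.loc Q u c2 n2 (he.mono fun _ c => c.2)
  have s1 := XLOCCx.side c1 (l1.mono fun _ c => c.2)
  have k2 : ∀ᶠ h' in 𝓝 h, a (ψ h') = a (ψ h) := c2.eventually k1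
  have hu : 0 < ⟪u, u⟫ := real_inner_self_pos.2 fun c => by simp [c] at hA
  have e1 : (ε : ℝ) * ε = 1 := by rcases hε with c | c <;> simp [c]
  have e2 : (ε' : ℝ) * ε' = 1 := by rcases hε' with c | c <;> simp [c]
  have e3 : ε' * ε' = 1 := by exact_mod_cast e2
  have hΔ : ∀ᶠ h' in 𝓝 h, ⟪Q.e ⌊φ h⌋, u⟫ * ⟪Q.e ⌊ψ h⌋, u⟫ * det3 d u (Q.γ (ψ h') - Q.γ (φ h')) =
      (h' - h) * (⟪u, u⟫ * det3 d (Q.e ⌊φ h⌋) (Q.e ⌊ψ h⌋)) := by
    filter_upwards [l1, l2] with h' a1 a2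
    rw [← XLOCCx.key hd, a1.1, a2.1, hx]
    simp only [det3_sub, det3_add, det3_smul, det3_self_left]
    linear_combination (⟪Q.e ⌊φ h⌋, u⟫ * det3 d u (Q.e ⌊ψ h⌋)) * a2.2 -
      (⟪Q.e ⌊ψ h⌋, u⟫ * det3 d u (Q.e ⌊φ h⌋)) * a1.2
  have main : ∀ (κ : ℤ) (x y : ι → ℂ), (κ = 1 ∨ κ = -1) →
      0 < κ * det3 d (Q.e ⌊φ h⌋) (Q.e ⌊ψ h⌋) → y = a (ψ h) + s ^ (-(κ * ε)) * (x - a (ψ h)) →
      (∀ᶠ h' in 𝓝[<] h, a (φ h') = x) → (∀ᶠ h' in 𝓝[>] h, a (φ h') = y) →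
      ∃ (x y : ι → ℂ) (σ : ℤ),
        (σ = 1 ∨ σ = -1) ∧ y = a (ψ h) + s ^ (ε' * σ) * (x - a (ψ h)) ∧
        (∀ᶠ h' in 𝓝[<] h, a (φ h') = x ∧ a (ψ h') = a (ψ h) ∧
          0 < σ * det3 d u (Q.γ (ψ h') - Q.γ (φ h'))) ∧
        ∀ᶠ h' in 𝓝[>] h, a (φ h') = y ∧ a (ψ h') = a (ψ h) ∧
          σ * det3 d u (Q.γ (ψ h') - Q.γ (φ h')) < 0 := by
    intro κ x y hκ hD hy f1 f2
    refine ⟨x, y, -κ * ε * ε', ?_, ?_, ?_, ?_⟩
    · rcases hκ with c | c <;> rcases hε with c' | c' <;> rcases hε' with c'' | c'' <;>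
        simp [c, c', c'']
    · rw [show ε' * (-κ * ε * ε') = -(κ * ε) by linear_combination (-κ * ε) * e3]; exact hy
    · filter_upwards [f1, k2.filter_mono nhdsWithin_le_nhds, hΔ.filter_mono nhdsWithin_le_nhds,
        self_mem_nhdsWithin] with h' a1 a2 a3 a4
      refine ⟨a1, a2, ?_⟩
      push_cast
      exact (XLOCCx.sg hA hB e1 e2 hu hD a3).1 (sub_neg.2 a4)
    · filter_upwards [f2, k2.filter_mono nhdsWithin_le_nhds, hΔ.filter_mono nhdsWithin_le_nhds,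
        self_mem_nhdsWithin] with h' a1 a2 a3 a4
      refine ⟨a1, a2, ?_⟩
      push_cast
      exact (XLOCCx.sg hA hB e1 e2 hu hD a3).2 (sub_pos.2 a4)
  have hrc := hC.rc (φ h)
  rcases hε with c | c
  · obtain ⟨t1, t2⟩ := s1.1 (by simpa [c] using hA)
    rcases hrel with ⟨hD, e⟩ | ⟨hD, e⟩
    · exact main (-1) b _ (Or.inr rfl) (by simpa using hD) (by simpa [c] using e)
        (t1.eventually hb) (t2.eventually hrc)
    · exact main 1 b _ (Or.inl rfl) (by simpa using hD) (by simpa [c] using e)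
        (t1.eventually hb) (t2.eventually hrc)
  · obtain ⟨t1, t2⟩ := s1.2 (by simpa [c] using hA)
    rcases hrel with ⟨hD, e⟩ | ⟨hD, e⟩
    · refine main (-1) _ b (Or.inr rfl) (by simpa using hD) ?_ (t1.eventually hrc)
        (t2.eventually hb)
      rw [e, c]
      funext t
      have := hs t
      simp
      field_simp
      ring
    · refine main 1 _ b (Or.inl rfl) (by simpa using hD) ?_ (t1.eventually hrc)
        (t2.eventually hb)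
      rw [e, c]
      funext t
      have := hs t
      simp
      field_simp
      ring

end Pool.Agent.P.MP_28369d_gt.SB
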