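import Pool.Agent.P.MP_28369d_gt.SB.FinB
import Pool.Agent.P.MP_28369d_gt.ST.FinS
import Pool.Agent.P.MP_28369d_gt.ST.BaseTopC
import Pool.Agent.P.MP_28369d_gt.ST.TSQ1
import Pool.Agent.P.MP_28369d_gt.ST.TSQ2
import Pool.Agent.P.MP_28369d_gt.ST.TSQ3
import Pool.Agent.P.MP_28369d_gt.ST.TSQX
import Pool.Agent.P.MP_28369d_gt.ST.TXC
import Pool.Agent.P.MP_28369d_gt.ST.TSQW
import Pool.Agent.P.MP_28369d_gt.ST.TSQD
import Pool.Agent.P.MP_28369d_gt.ST.TSW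
import Pool.Agent.P.MP_28369d_gt.ST.TSTEP
import Pool.Agent.P.MP_28369d_gt.ST.TINVH
import Pool.Agent.P.MP_28369d_gt.ST.TREPC
import Pool.Agent.P.MP_28369d_gt.ST.TCOLPI
import Pool.Agent.P.MP_28369d_gt.ST.TGAL
import Pool.Agent.P.MP_28369d_gt.ST.TXLOCC
import Pool.Agent.P.MP_28369d_gt.ST.TTWGC
import Pool.Agent.P.MP_28369d_gt.ST.TTWAC
import Pool.Agent.P.MP_28369d_gt.ST.TSYS1C
import Pool.Agent.P.MP_28369d_gt.ST.TFEWC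
import Pool.Agent.P.MP_28369d_gt.ST.TSYSC

/-!
The twist bound without hypotheses.
-/

namespace Pool.Agent.P.MP_28369d_gt.SB

theorem q_SW : S_SW :=
  p_SW p_FRONT p_W1 (s_W2 s_TUBE s_W5) (s_W4 s_CONN s_DENSE (s_RRED s_CONN s_DENSE) p_W1 s_W5) s_W5
    s_TUBE s_EXT

theorem q_SQD : S_SQD := p_SQD p_SQX (p_SQW p_SQX s_W5) p_XC s_W5

theorem q_SYSC : S_SYSC :=
  p_SYSC (p_SYS1C (p_TWGC p_STEP p_INVH p_XLOCC) p_TWAC s_W5) s_ENUM p_FEWC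

theorem q_F (m : ℕ) : ∃ C : ℕ, ∀ (K : Set E) (P : Poly),
    Iso K P.carrier → (∀ Q : Poly, Iso K Q.carrier → LB Q m) → sb K ≤ m + 2 →
    ∃ D : Polynomial ℤ, D.support.card ≤ C ∧ Nrm D ∧
      ∀ t : ℂ, AffC K t → Polynomial.aeval t D = 0 :=
  thmF q_CORE (p_SQ1 q_MOVE p_GD) p_SQ2 p_SQ3 q_SQD
    (p_REPC q_SW s_MAXG s_F0 s_CONN) (p_COLPI s_W5) p_GAL q_SYSC m

theorem finF (m : ℕ) : ∃ C : ℕ, ∀ P : Poly, br P.carrier = m → sb P.carrier ≤ m + 2 →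
    ∃ D : Polynomial ℤ, FewP D C ∧ ∀ t : ℂ, t ≠ -1 → AffC P.carrier t → Root D t := by
  obtain ⟨C, hC⟩ := q_F m
  refine ⟨C, fun P h1 h2 => ?_⟩
  obtain ⟨_, a1, ⟨k, D, rfl, a2⟩, a3⟩ := hC _ P (Iso.refl _) (fun Q hQ => h1 ▸ lb_br hQ) h2
  refine ⟨D, ⟨a2, k, a1⟩, fun t ht h => ?_⟩
  have := a3 t h
  rw [map_mul, map_pow, map_add, map_one, Polynomial.aeval_X] at this
  exact (mul_eq_zero.1 this).resolve_left
    (pow_ne_zero _ fun c => ht (eq_neg_of_add_eq_zero_right c))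

end Pool.Agent.P.MP_28369d_gt.SB
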