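import Pool.Agent.P.MP_28369d_gt.ST.Iface4
import Pool.Agent.P.MP_28369d_gt.SB.TMAXG

/-! Step CNJ. -/

namespace Pool.Agent.P.MP_28369d_gt.SB

open Set Filter Topology Monoid.CoprodI
open scoped RealInnerProductSpace

theorem p_CNJ :
    S_CNJ := by
  intro G _ μ hr hl τ
  have := const_of_ev' (S := univ) isPreconnected_univ
    (F := fun t => ∃ g ∈ Subgroup.closure (range μ), μ t = g * μ 0 * g⁻¹)
    (p := 0) (q := τ) (fun p _ => ?_) (mem_univ _) (mem_univ _)
  · exact this ▸ ⟨1, one_mem _, by simp⟩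
  · obtain ⟨a, ha, hs⟩ := hl p
    obtain ⟨c, hc, e⟩ : ∃ c ∈ Subgroup.closure (range μ), μ p = c * a * c⁻¹ := by
      rcases hs with h | ⟨o, ho, h | h⟩
      · exact ⟨1, one_mem _, by simpa using h⟩
      · exact ⟨o, Subgroup.subset_closure ho, h⟩
      · exact ⟨o⁻¹, inv_mem (Subgroup.subset_closure ho), by rw [inv_inv]; exact h⟩
    refine MAXGx.ev_nhds ?_ rfl ?_
    · filter_upwards [ha] with t ht
      rw [ht]
      refine propext ⟨fun ⟨g, hg, h⟩ => ⟨c * g, mul_mem hc hg, ?_⟩,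
        fun ⟨g, hg, h⟩ => ⟨c⁻¹ * g, mul_mem (inv_mem hc) hg, ?_⟩⟩
      · rw [e, h]; group
      · rw [show a = c⁻¹ * μ p * c by rw [e]; group, h]; group
    · filter_upwards [hr p] with t ht
      rw [ht]

end Pool.Agent.P.MP_28369d_gt.SB
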