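import Pool.Agent.P.MP_28369d_gt.ST.Iface4

/-! Step CNT2. -/

namespace Pool.Agent.P.MP_28369d_gt.SB

open Set Filter Topology Monoid.CoprodI
open scoped RealInnerProductSpace

namespace CNT2x

theorem fin {X Z : Type} [DecidableEq Z] (s T : Finset X) (β : X → Z) (x0 : X)
    (h : ∀ x ∈ s, x ≠ x0 → ∃ y ∈ s, y ≠ x ∧ β y = β x)
    (hT : ∀ x ∈ T, x ∈ s ∧ ∃ y ∈ s, ∃ z ∈ s, y ≠ x ∧ z ≠ x ∧ y ≠ z ∧ β y = β x ∧ β z = β x) :
    6 * (s.image β).card + T.card ≤ 3 * s.card + 3 := by
  have e1 := Finset.card_eq_sum_card_image β s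
  have e2 : T.card = ∑ b ∈ s.image β, (T.filter fun x => β x = b).card :=
    Finset.card_eq_sum_card_fiberwise fun x hx => Finset.mem_image_of_mem β (hT x hx).1
  have e3 : ∑ b ∈ s.image β, (if β x0 = b then 3 else 0) ≤ 3 := by
    rw [Finset.sum_ite_eq]; split_ifs <;> omega
  have key : ∀ b ∈ s.image β, 6 + (T.filter fun x => β x = b).card ≤
      3 * (s.filter fun x => β x = b).card + if β x0 = b then 3 else 0 := fun b hb => by
    obtain ⟨a, ha, rfl⟩ := Finset.mem_image.1 hb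
    have h1 : (T.filter fun x => β x = β a).card ≤ (s.filter fun x => β x = β a).card :=
      Finset.card_le_card fun x hx => Finset.mem_filter.2
        ⟨(hT x (Finset.mem_filter.1 hx).1).1, (Finset.mem_filter.1 hx).2⟩
    rcases (T.filter fun x => β x = β a).eq_empty_or_nonempty with e | ⟨x, hx⟩
    · rw [e, Finset.card_empty]
      have h2 : 0 < (s.filter fun x => β x = β a).card :=
        Finset.card_pos.2 ⟨a, Finset.mem_filter.2 ⟨ha, rfl⟩⟩
      split_ifs with e0
      · omega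
      · obtain ⟨y, hy, hne, hb⟩ := h a ha fun e => e0 (by rw [e])
        have : 1 < (s.filter fun x => β x = β a).card := Finset.one_lt_card.2
          ⟨y, Finset.mem_filter.2 ⟨hy, hb⟩, a, Finset.mem_filter.2 ⟨ha, rfl⟩, hne⟩
        omega
    · rw [Finset.mem_filter] at hx
      obtain ⟨hxs, y, hy, z, hz, h1', h2, h3, h4, h5⟩ := hT x hx.1
      have : 2 < (s.filter fun x => β x = β a).card := Finset.two_lt_card_iff.2
        ⟨x, y, z, Finset.mem_filter.2 ⟨hxs, hx.2⟩, Finset.mem_filter.2 ⟨hy, h4.trans hx.2⟩,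
          Finset.mem_filter.2 ⟨hz, h5.trans hx.2⟩, h1'.symm, h2.symm, h3⟩
      omega
  have := Finset.sum_le_sum key
  rw [Finset.sum_add_distrib, Finset.sum_add_distrib, ← Finset.mul_sum, ← e1, ← e2,
    Finset.sum_const, smul_eq_mul] at this
  omega

end CNT2x

theorem p_CNT2 :
    S_CNT2 := by
  classical
  intro X Y Z U α β x0 k hU h hk
  lift U to Finset X using hU
  have hT : {x | x ∈ (U : Set X) ∧ ∃ y ∈ (U : Set X), ∃ z ∈ (U : Set X),
      y ≠ x ∧ z ≠ x ∧ y ≠ z ∧ β y = β x ∧ β z = β x}.Finite :=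
    U.finite_toSet.subset fun x hx => hx.1
  have h1 := CNT2x.fin U ∅ α x0 (fun x hx e => (h x hx e).1) (by simp)
  have h2 := CNT2x.fin U hT.toFinset β x0 (fun x hx e => (h x hx e).2)
    fun x hx => hT.mem_toFinset.1 hx
  rw [← Finset.coe_image, ← Finset.coe_image, ncard_coe_finset, ncard_coe_finset,
    ncard_coe_finset] at hk
  rw [ncard_eq_toFinset_card _ hT]
  omega

end Pool.Agent.P.MP_28369d_gt.SB
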