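import Pool.Agent.P.MP_28369d_gt.ST.Iface4

/-! Step COC. -/

namespace Pool.Agent.P.MP_28369d_gt.SB

open Set Filter Topology Monoid.CoprodI
open scoped RealInnerProductSpace

theorem p_COC :
    S_COC := by
  intro M _ X D _ _ c hc
  have h1 : ∀ i x, c i 1 x = 1 := fun i x => by
    have := hc i 1 1 x
    rw [mul_one, map_one, one_smul] at this
    exact left_eq_mul.1 this
  let ψ : ∀ i, M i →* Function.End (X × D) := fun i =>
    { toFun := fun m z => ((of m : FP M) • z.1, c i m z.1 * z.2)
      map_one' := funext fun z => by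
        rw [map_one, one_smul, h1, one_mul]
        rfl
      map_mul' := fun m m' => funext fun z => by
        rw [map_mul, mul_smul, hc, mul_assoc]
        rfl }
  let Ψ : FP M →* Function.End (X × D) := lift ψ
  have hof : ∀ (i : Bool) (m : M i) (z : X × D),
      Ψ (of m) z = ((of m : FP M) • z.1, c i m z.1 * z.2) := fun i m z =>
    congrFun (lift_of ψ m) z
  have hmul : ∀ (g g' : FP M) (z : X × D), Ψ (g * g') z = Ψ g (Ψ g' z) := fun g g' z =>
    congrFun (map_mul Ψ g g') z
  have key : ∀ (g : FP M) (x : X) (d : D), Ψ g (x, d) = (g • x, (Ψ g (x, 1)).2 * d) := by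
    intro g
    induction g using Monoid.CoprodI.induction_on with
    | one =>
      intro x d
      rw [map_one, one_smul]
      exact Prod.ext rfl (one_mul d).symm
    | of i m =>
      intro x d
      rw [hof, hof, mul_one]
    | mul g g' hg hg' =>
      intro x d
      rw [hmul, hmul, hg' x d, hg' x 1, hg, hg _ (_ * 1), mul_smul, mul_one, mul_assoc]
  refine ⟨fun g x => (Ψ g (x, 1)).2, fun g g' x => ?_, fun i m x => ?_⟩
  · show (Ψ (g * g') (x, 1)).2 = _
    rw [hmul, key g' x 1, key g, mul_one]
  · show (Ψ (of m) (x, 1)).2 = _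
    rw [hof, mul_one]

end Pool.Agent.P.MP_28369d_gt.SB
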