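import Pool.Agent.P.MP_28369d_gt.ST.Iface4

/-! Step DIR. -/

namespace Pool.Agent.P.MP_28369d_gt.SB

open Set Filter Topology Monoid.CoprodI
open scoped RealInnerProductSpace

namespace DIRx

/-- The odd lift. -/
def L {q : ℕ} (y : ZMod q) : ℤ := if 2 * y.val = q then 0 else y.valMinAbs

theorem L_eq {q : ℕ} [NeZero q] (n : ℤ) (h1 : -(q : ℤ) < 2 * n) (h2 : 2 * n < q) :
    L ((n : ZMod q)) = n := by
  have hv : ((n : ZMod q)).valMinAbs = n :=
    (ZMod.valMinAbs_spec _ _).2 ⟨rfl, by constructor <;> omega⟩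
  unfold L
  split_ifs with h
  · exfalso
    rw [ZMod.valMinAbs_def_pos] at hv
    have : ((n : ZMod q)).val ≤ q / 2 := by omega
    rw [if_pos this] at hv
    omega
  · exact hv

theorem L_neg {q : ℕ} [NeZero q] (y : ZMod q) : L (-y) = -L y := by
  unfold L
  have hlt := ZMod.val_lt y
  by_cases h : 2 * y.val = q
  · have h0 : y ≠ 0 := by
      rintro rfl
      rw [ZMod.val_zero] at h
      exact NeZero.ne q (by omega)
    have : 2 * (-y).val = q := by
      rw [ZMod.neg_val, if_neg h0]; omega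
    rw [if_pos h, if_pos this, neg_zero]
  · have : ¬ 2 * (-y).val = q := by
      rw [ZMod.neg_val]
      split_ifs with h0
      · have := NeZero.ne q; omega
      · omega
    rw [if_neg h, if_neg this, ZMod.valMinAbs_neg_of_ne_half h]

theorem L_cast {q : ℕ} [NeZero q] (y : ZMod q) : ((2 * L y : ℤ) : ZMod q) = 2 * y := by
  unfold L
  split_ifs with h
  · have : ((2 * y.val : ℕ) : ZMod q) = 0 := by rw [h, ZMod.natCast_self]
    push_cast at this
    rw [ZMod.natCast_zmod_val] at this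
    rw [this]; simp
  · push_cast
    rfl

/-- The class of a residue. -/
def cls {q : ℕ} [NeZero q] (x : ZMod q) : Fin 8 :=
  ⟨8 * x.val / q, by
    have := ZMod.val_lt x
    rw [Nat.div_lt_iff_lt_mul (Nat.pos_of_ne_zero (NeZero.ne q))]
    omega⟩

theorem cls_eq {q : ℕ} [NeZero q] {x y : ZMod q} (h : cls x = cls y) :
    ∃ n : ℤ, (n : ZMod q) = x - y ∧ -(q : ℤ) < 8 * n ∧ 8 * n < q := by
  have h' : 8 * x.val / q = 8 * y.val / q := congrArg Fin.val h
  have hq : 0 < q := Nat.pos_of_ne_zero (NeZero.ne q)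
  have a1 := Nat.div_add_mod (8 * x.val) q
  have a2 := Nat.div_add_mod (8 * y.val) q
  have b1 := Nat.mod_lt (8 * x.val) hq
  have b2 := Nat.mod_lt (8 * y.val) hq
  rw [h'] at a1
  refine ⟨(x.val : ℤ) - y.val, ?_, ?_, ?_⟩
  · push_cast
    rw [ZMod.natCast_zmod_val, ZMod.natCast_zmod_val]
  · generalize q * (8 * y.val / q) = t at a1 a2
    omega
  · generalize q * (8 * y.val / q) = t at a1 a2
    omega

end DIRx

open DIRx in
theorem p_DIR :
    S_DIR := by
  intro r
  refine ⟨2 * 64 ^ r + 2, fun q hq R hR => ?_⟩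
  have : NeZero q := ⟨by omega⟩
  let f : Fin ((q + 1) / 2) → (R → Fin 8 × Fin 8) := fun d z =>
    (cls (((d : ℕ) : ZMod q) * z.1.1), cls (((d : ℕ) : ZMod q) * z.1.2))
  have hc : Fintype.card (R → Fin 8 × Fin 8) < Fintype.card (Fin ((q + 1) / 2)) := by
    rw [Fintype.card_fun, Fintype.card_prod, Fintype.card_fin, Fintype.card_fin, Fintype.card_coe]
    have : (8 * 8) ^ R.card ≤ 64 ^ r := Nat.pow_le_pow_right (by norm_num) hR
    omega
  obtain ⟨d1, d2, hne, hf⟩ := Fintype.exists_ne_map_eq_of_card_lt f hc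
  set d : ZMod q := ((d1 : ℕ) : ZMod q) - ((d2 : ℕ) : ZMod q) with hd
  refine ⟨fun x => L (d * x), 2 * d, ?_, ?_, ?_, ?_⟩
  · intro h0
    have h1 : ((2 * ((d1 : ℕ) : ℤ) - 2 * ((d2 : ℕ) : ℤ) : ℤ) : ZMod q) = 0 := by
      push_cast
      rw [← h0, hd]; ring
    rw [ZMod.intCast_zmod_eq_zero_iff_dvd] at h1
    have l1 := d1.2
    have l2 := d2.2
    have hne' : (d1 : ℕ) ≠ d2 := fun h => hne (Fin.ext h)
    have := Int.eq_zero_of_abs_lt_dvd h1 (by rw [abs_lt]; constructor <;> omega)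
    omega
  · intro x
    show L (d * -x) = -L (d * x)
    rw [mul_neg, L_neg]
  · intro x
    show ((2 * L (d * x) : ℤ) : ZMod q) = 2 * d * x
    rw [L_cast, mul_assoc]
  · intro z hz
    have hz' := congrFun hf ⟨z, hz⟩
    obtain ⟨n1, e1, a1, b1⟩ := cls_eq (congrArg Prod.fst hz')
    obtain ⟨n2, e2, a2, b2⟩ := cls_eq (congrArg Prod.snd hz')
    have c1 : d * z.1 = (n1 : ZMod q) := by rw [e1, hd]; ring
    have c2 : d * z.2 = (n2 : ZMod q) := by rw [e2, hd]; ring
    have c3 : d * (z.1 + z.2) = ((n1 + n2 : ℤ) : ZMod q) := by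
      rw [mul_add, c1, c2]; push_cast; rfl
    show L (d * (z.1 + z.2)) = L (d * z.1) + L (d * z.2)
    rw [c1, c2, c3, L_eq _ (by omega) (by omega), L_eq _ (by omega) (by omega),
      L_eq _ (by omega) (by omega)]

end Pool.Agent.P.MP_28369d_gt.SB
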