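import Pool.Agent.P.MP_28369d_gt.ST.Iface4

/-! Step EUL. -/

namespace Pool.Agent.P.MP_28369d_gt.SB

open Set Filter Topology Monoid.CoprodI
open scoped RealInnerProductSpace

namespace EULx

theorem fac {X Y Z : Type} {o : X → Y} {φ : X → Z} (h : ∀ x y, o x = o y → φ x = φ y) {U : Set X}
    (hU : U.Finite) : (φ '' U).ncard ≤ (o '' U).ncard := by
  rcases U.eq_empty_or_nonempty with rfl | ⟨x0, -⟩
  · simp
  have : Function.FactorsThrough φ o := fun x y e => h x y e
  rw [← this.extend_comp fun _ => φ x0, image_comp]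
  exact ncard_image_le (hU.image _)

theorem cnt {X : Type} {U : Set X} (hU : U.Finite) {T : Set (X →₀ ℚ)} (hT : T.Finite)
    (h : ∀ x ∈ U, Finsupp.single x (1 : ℚ) ∈ Submodule.span ℚ T) : U.ncard ≤ T.ncard := by
  have := hU.fintype
  have := hT.fintype
  have l := linearIndependent_le_span_aux' (fun x : U => Finsupp.single x.1 (1 : ℚ))
    ((Finsupp.linearIndependent_single_one ℚ X).comp _ Subtype.val_injective) T
    (by rintro _ ⟨x, rfl⟩; exact h x.1 x.2)
  rwa [← Nat.card_eq_fintype_card, ← Nat.card_eq_fintype_card, Nat.card_coe_set_eq,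
    Nat.card_coe_set_eq] at l

end EULx

theorem p_EUL (hCOC : S_COC) :
    S_EUL := by
  intro M _ s H U hH hU
  classical
  obtain ⟨F, F1, F2⟩ := hCOC M (FP M ⧸ H) (Multiplicative ((FP M ⧸ H) →₀ ℚ))
    (fun i m x => if i then 1 else Multiplicative.ofAdd
      (Finsupp.single ((of m : FP M) • x) 1 - Finsupp.single x 1)) (fun i m m' x => by
      cases i
      · simp only [Bool.false_eq_true, if_false, map_mul, mul_smul, ← ofAdd_add,
          sub_add_sub_cancel]
      · simp)
  let f : FP M → (FP M ⧸ H) →₀ ℚ := fun g => (F g ((1 : FP M) : FP M ⧸ H)).toAdd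
  have fm : ∀ g, ∀ h ∈ H, f (g * h) = f g + f h := fun g h hh => by
    simp only [f, F1, smul_base hh, toAdd_mul]
  have f1 : f 1 = 0 := by simpa using fm 1 1 H.one_mem
  let W := Submodule.span ℚ (f '' s)
  have fW : ∀ h ∈ H, f h ∈ W := by
    intro h hh
    have hh' := hH ▸ hh
    induction hh' using Subgroup.closure_induction with
    | mem x hx => exact Submodule.subset_span ⟨x, hx, rfl⟩
    | one => rw [f1]; exact W.zero_mem
    | mul x y hx hy a b =>
      rw [fm x y (hH ▸ hy)]; exact W.add_mem (a (hH ▸ hx)) (b (hH ▸ hy))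
    | inv x hx a =>
      have e := fm x⁻¹ x (hH ▸ hx)
      rw [inv_mul_cancel, f1] at e
      rw [eq_neg_of_add_eq_zero_left e.symm]
      exact W.neg_mem (a (hH ▸ hx))
  let P : FP M ⧸ H → ((FP M ⧸ H) →₀ ℚ) ⧸ W := fun x => W.mkQ (f x.out)
  have Pg : ∀ g : FP M, P g = W.mkQ (f g) := fun g => by
    obtain ⟨h, e⟩ := QuotientGroup.mk_out_eq_mul H g
    simp only [P, e, fm g h h.2, map_add]
    rw [W.mkQ_apply (f h), (Submodule.Quotient.mk_eq_zero W).2 (fW h h.2), add_zero]
  have Pm : ∀ (i : Bool) (m : M i) (x : FP M ⧸ H), P ((of m : FP M) • x) =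
      W.mkQ (F (of m) x).toAdd + P x := fun i m x => by
    induction x using QuotientGroup.induction_on with
    | H g =>
      rw [MulAction.Quotient.smul_coe, Pg, Pg, smul_eq_mul, ← map_add]
      simp only [f, F1, toAdd_mul, MulAction.Quotient.smul_coe, smul_eq_mul, mul_one]
  let R : FP M ⧸ H → ((FP M ⧸ H) →₀ ℚ) ⧸ W := fun x => W.mkQ (Finsupp.single x 1) - P x
  have c1 := EULx.fac (o := orb (M := M) true) (φ := P) (fun x y e => by
    obtain ⟨m, rfl⟩ := orb_eq.1 e
    rw [Pm, F2]; simp) hU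
  have c2 := EULx.fac (o := orb (M := M) false) (φ := R) (fun x y e => by
    obtain ⟨m, rfl⟩ := orb_eq.1 e
    simp only [R, Pm, F2, Bool.false_eq_true, if_false, toAdd_ofAdd, map_sub]
    abel) hU
  obtain ⟨σ, hσ⟩ := W.mkQ_surjective.hasRightInverse
  have h1 := (hU.image P).image σ
  have h2 := (hU.image R).image σ
  have h3 := s.finite_toSet.image f
  refine (EULx.cnt hU ((h1.union h2).union h3) fun x hx => ?_).trans ?_
  · have : Finsupp.single x 1 - (σ (P x) + σ (R x)) ∈ W := by
      rw [← Submodule.Quotient.mk_eq_zero, ← W.mkQ_apply, map_sub, map_add, hσ, hσ]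
      simp only [R]; abel
    rw [← sub_add_cancel (Finsupp.single x (1 : ℚ)) (σ (P x) + σ (R x))]
    exact Submodule.add_mem _ (Submodule.span_mono subset_union_right this) (Submodule.add_mem _
      (Submodule.subset_span (.inl (.inl ⟨_, ⟨x, hx, rfl⟩, rfl⟩)))
      (Submodule.subset_span (.inl (.inr ⟨_, ⟨x, hx, rfl⟩, rfl⟩))))
  · refine (ncard_union_le _ _).trans (add_le_add ((ncard_union_le _ _).trans (add_le_add
      ((ncard_image_le (hU.image P)).trans c1) ((ncard_image_le (hU.image R)).trans c2))) ?_)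
    exact (ncard_image_le s.finite_toSet).trans (ncard_coe_finset s).le

end Pool.Agent.P.MP_28369d_gt.SB
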