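import Pool.Agent.P.MP_28369d_gt.ST.Iface4

/-! Step LK1. -/

namespace Pool.Agent.P.MP_28369d_gt.SB

open Set Filter Topology Monoid.CoprodI
open scoped RealInnerProductSpace

theorem p_LK1 (hCOC : S_COC) :
    S_LK1 := by
  intro M _ H m g hc hm
  have _ : S_COC := hCOC
  let r : FP M →* M true := lift (M := M) fun i => match i with
    | true => MonoidHom.id _
    | false => 1
  have e : r (of m) = m := lift_of (M := M) _ (i := true) m
  refine ⟨r.comp H.subtype, ?_⟩
  change r (g⁻¹ * of m * g) = m
  rw [map_mul, map_mul, map_inv, e, mul_assoc, hc m, inv_mul_cancel_left]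

end Pool.Agent.P.MP_28369d_gt.SB
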