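import Pool.Agent.P.MP_28369d_gt.ST.Iface4

/-! Step LK2. -/

namespace Pool.Agent.P.MP_28369d_gt.SB

open Set Filter Topology Monoid.CoprodI
open scoped RealInnerProductSpace

namespace LK2x

variable {G X F : Type} [Group G] [MulAction G X] [Group F]

/-- The permutation moves the second coordinate by a cocycle that lifts the action. -/
def Co (r : F →* G) (t : X → G) (g : G) (σ : Equiv.Perm (X × F)) : Prop :=
  ∃ k : X → F, (∀ x w, σ (x, w) = (g • x, k x * w)) ∧ ∀ x, t (g • x) * r (k x) = g * t x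

variable {r : F →* G} {t : X → G}

theorem Co.one : Co r t 1 1 := ⟨1, fun x w => by simp, fun x => by simp⟩

theorem Co.mul {g h : G} {σ τ : Equiv.Perm (X × F)} (a : Co r t g σ) (b : Co r t h τ) :
    Co r t (g * h) (σ * τ) := by
  obtain ⟨k, k1, k2⟩ := a
  obtain ⟨l, l1, l2⟩ := b
  refine ⟨fun x => k (h • x) * l x, fun x w => ?_, fun x => ?_⟩
  · rw [Equiv.Perm.mul_apply, l1, k1, mul_smul, mul_assoc]
  · rw [mul_smul, map_mul, ← mul_assoc, k2, mul_assoc, l2, mul_assoc]

theorem Co.inv {g : G} {σ : Equiv.Perm (X × F)} (a : Co r t g σ) : Co r t g⁻¹ σ⁻¹ := by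
  obtain ⟨k, k1, k2⟩ := a
  refine ⟨fun x => (k (g⁻¹ • x))⁻¹, fun x w => ?_, fun x => ?_⟩
  · rw [Equiv.Perm.inv_eq_iff_eq, k1, smul_inv_smul, mul_inv_cancel_left]
  · have := k2 (g⁻¹ • x)
    rw [smul_inv_smul] at this
    rw [map_inv, mul_inv_eq_iff_eq_mul, mul_assoc, this, inv_mul_cancel_left]

theorem Co.zpow {g : G} {σ : Equiv.Perm (X × F)} (a : Co r t g σ) (n : ℤ) :
    Co r t (g ^ n) (σ ^ n) := by
  induction n using Int.induction_on with
  | zero => rw [zpow_zero, zpow_zero]; exact Co.one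
  | succ n ih => rw [zpow_add_one, zpow_add_one]; exact ih.mul a
  | pred n ih => rw [zpow_sub_one, zpow_sub_one]; exact ih.mul a.inv

/-- The permutation attached to the generator of the cyclic factor. -/
def sg (c : G) (k : X → F) : Equiv.Perm (X × F) where
  toFun p := (c • p.1, k p.1 * p.2)
  invFun p := (c⁻¹ • p.1, (k (c⁻¹ • p.1))⁻¹ * p.2)
  left_inv p := by simp
  right_inv p := by simp

/-- The action on the first coordinate. -/
def fs (G X F : Type) [Group G] [MulAction G X] [Group F] : G →* Equiv.Perm (X × F) :=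
  MonoidHom.mk' (fun g => sg g 1) fun g h => by
    ext p <;> simp [sg, mul_smul]

theorem sect {A : Type} [Group A] [Nonempty X] (i : A →* G)
    (hf : ∀ (a : A) (x : X), i a • x = x → a = 1) :
    ∃ t : X → G, ∀ a x, t (i a • x) = i a * t x := by
  let b : X → X := fun x => Classical.epsilon fun y => ∃ a, i a • x = y
  have h1 : ∀ x, ∃ a, i a • x = b x := fun x =>
    Classical.epsilon_spec (p := fun y => ∃ a, i a • x = y) ⟨x, 1, by simp⟩
  have h2 : ∀ a x, b (i a • x) = b x := fun a x => by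
    refine congrArg Classical.epsilon (funext fun y => propext ⟨?_, ?_⟩)
    · rintro ⟨n, rfl⟩; exact ⟨n * a, by simp [mul_smul]⟩
    · rintro ⟨n, rfl⟩; exact ⟨n * a⁻¹, by simp [mul_smul]⟩
  choose m hm using h1
  refine ⟨fun x => i (m x)⁻¹, fun a x => ?_⟩
  have h3 : (m x)⁻¹ * (m (i a • x) * a) = 1 := hf _ x (by
    rw [map_mul, map_mul, mul_smul, mul_smul, hm, h2, ← hm, map_inv, inv_smul_smul])
  rw [inv_mul_eq_one] at h3
  show i (m (i a • x))⁻¹ = i a * i (m x)⁻¹
  rw [← map_mul, h3, mul_inv_rev, mul_inv_cancel_left]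

end LK2x

open LK2x in
theorem p_LK2 :
    S_LK2 := by
  intro A _ H hH
  let G := FP (Two A (Multiplicative ℤ))
  let X := G ⧸ H
  let c : G := ir (Multiplicative.ofAdd 1)
  obtain ⟨t, ht⟩ := sect (X := X) (il : A →* G) fun a x e => by
    induction x using QuotientGroup.induction_on with
    | H g =>
      rw [MulAction.Quotient.smul_coe, eq_comm, QuotientGroup.eq, smul_eq_mul, ← mul_assoc] at e
      exact hH a g e
  let r : FreeGroup X →* G := FreeGroup.lift fun x => (t (c • x))⁻¹ * c * t x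
  let Ψ : G →* Equiv.Perm (X × FreeGroup X) :=
    lf2 ((fs G X (FreeGroup X)).comp il) (zpowersHom _ (sg c FreeGroup.of))
  have hc : Co r t c (sg c FreeGroup.of) := ⟨FreeGroup.of, fun x w => rfl, fun x => by
    simp only [r, FreeGroup.lift_apply_of, mul_assoc]
    exact mul_inv_cancel_left _ _⟩
  have key : ∀ g : G, Co r t g (Ψ g) := fun g => by
    induction g using two_ind with
    | h1 => rw [map_one]; exact Co.one
    | h2 a g ih =>
      rw [map_mul]
      refine Co.mul ?_ ih
      rw [lf2_il]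
      exact ⟨1, fun x w => rfl, fun x => by rw [Pi.one_apply, map_one, mul_one, ht]⟩
    | h3 y g ih =>
      rw [map_mul]
      refine Co.mul ?_ ih
      have e : (ir y : G) = c ^ y.toAdd := by
        rw [← map_zpow, ← ofAdd_zsmul, smul_eq_mul, mul_one, ofAdd_toAdd]
      rw [lf2_ir, zpowersHom_apply, e]
      exact hc.zpow _
  choose k k1 k2 using key
  let x₀ : X := ((1 : G) : G ⧸ H)
  have hx : ∀ h : H, (h : G) • x₀ = x₀ := fun h => smul_base h.2
  let φ : H →* FreeGroup X := MonoidHom.mk' (fun h => k h x₀) fun g h => by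
    have e := k1 (g * h : H) x₀ 1
    rw [Subgroup.coe_mul, map_mul, Equiv.Perm.mul_apply, k1, k1, hx h] at e
    simpa using (congrArg Prod.snd e).symm
  have hφ : Function.Injective φ := by
    refine (injective_iff_map_eq_one φ).2 fun h e => Subtype.ext ?_
    have e1 := k2 h x₀
    rw [hx h, show k h x₀ = 1 from e, map_one, mul_one] at e1
    exact (right_eq_mul.1 e1)
  exact IsFreeGroup.ofMulEquiv (MonoidHom.ofInjective hφ).symm

end Pool.Agent.P.MP_28369d_gt.SB
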