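import Pool.Agent.P.MP_28369d_gt.ST.Iface4

/-! Step MUL1. -/

namespace Pool.Agent.P.MP_28369d_gt.SB

open Set Filter Topology Monoid.CoprodI
open scoped RealInnerProductSpace

theorem p_MUL1 :
    S_MUL1 := by
  intro M _ g h
  suffices H : (∃ r : M false × M false, ∀ (D : Type) [Group D] (lam : ∀ i, M i → D), Od lam →
      lam false (r.1 * r.2) = lam false r.1 * lam false r.2 →
      sig lam (g * h) = sig lam g * sig lam h) ∧ ∀ i, hd i g = 1 → hd i (g * h) ≠ 1 →
      ∀ (D : Type) [Group D] (lam : ∀ i, M i → D), Od lam →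
        sig lam (g * h) = sig lam g * sig lam h from H.1
  induction g using fp_ind with
  | h1 =>
    exact ⟨⟨(1, 1), fun D _ lam _ _ => by rw [one_mul, sig_one, one_mul]⟩,
      fun _ _ _ D _ lam _ => by rw [one_mul, sig_one, one_mul]⟩
  | h2 i m g hm hg ih =>
    obtain ⟨⟨r, hr⟩, hB⟩ := ih
    have hne : ∀ j, hd j (of m * g : FP M) = 1 → i ≠ j := by
      rintro j e rfl
      rw [hd_mul, hg, mul_one] at e
      exact hm e
    rw [mul_assoc]
    by_cases hw : hd i (g * h) = 1
    · refine ⟨⟨r, fun D _ lam o e => ?_⟩, fun j a b => (b (hd_ne (hne j a) hm hw)).elim⟩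
      rw [sig_mul o.1 m hw, sig_mul o.1 m hg, hr D lam o e, mul_assoc]
    · obtain ⟨t, ht, e⟩ := hd_dec i (g * h)
      have hB' := hB i hg hw
      generalize hd i (g * h) = n at e
      have e' : of m * (g * h) = of (m * n) * t := by rw [e, map_mul, mul_assoc]
      have key : ∀ (D : Type) [Group D] (lam : ∀ i, M i → D), Od lam →
          lam i (m * n) = lam i m * lam i n →
          sig lam (of m * (g * h)) = sig lam (of m * g) * sig lam h := fun D _ lam o k => by
        rw [e', sig_mul o.1 _ ht, k, sig_mul o.1 m hg, mul_assoc, mul_assoc, ← hB' D lam o, e,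
          sig_mul o.1 n ht]
      refine ⟨?_, fun j a b D _ lam o => key D lam o ?_⟩
      · cases i
        · exact ⟨(m, n), key⟩
        · exact ⟨(1, 1), fun D _ lam o _ => key D lam o (o.2.2 m n)⟩
      · have k : m * n = 1 := by
          by_contra k
          exact b (e' ▸ hd_ne (hne j a) k ht)
        rw [k, o.1, eq_inv_of_mul_eq_one_right k, o.2.1, mul_inv_cancel]

end Pool.Agent.P.MP_28369d_gt.SB
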