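import Pool.Agent.P.MP_28369d_gt.ST.Iface2
import Pool.Agent.P.MP_28369d_gt.ST.BaseTk

/-!
Statements of the steps for sums with a torus knot.
-/

namespace Pool.Agent.P.MP_28369d_gt.SB

open Set Filter Topology
open scoped RealInnerProductSpace

-- deps:
def S_VK : Prop := ∀ (G : Type) [Group G] (a b : G) (p : ℕ) (q u v : ℤ), 0 < p → q ≠ 0 →
  q * u - p * v = 1 → a ^ p = b ^ q → Subgroup.closure {a, b} = ⊤ →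
  IsPreconnected (torus p q)ᶜ → ∃ ω : E → E → G, LocSys ω (torus p q)ᶜ ∧ Full ω (torus p q)ᶜ ∧
    LocM ω (torus p q) (a ^ u * b ^ (-v))

-- deps: GD WIRT MAXG
-- imports: Pool.Agent.P.MP_28369d_gt.SB.TBR3
def S_MERC : Prop := ∀ (G : Type) [Group G] (ω : E → E → G) (P : Poly) (m : G) (C : Set E),
  LocSys ω P.carrierᶜ → Full ω P.carrierᶜ → C.Infinite → C ⊆ P.carrier →
  (∀ c ∈ C, IsMer ω P.carrier c m) → Mrd ω P.carrier m ∧ LocM ω P.carrier m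

-- deps: CS MERC
def S_SUM : Prop := ∀ (G1 G2 : Type) [Group G1] [Group G2] (ω1 : E → E → G1) (ω2 : E → E → G2)
  (K1 K2 K : Set E), ConnSum K1 K2 K → LocSys ω1 K1ᶜ → Full ω1 K1ᶜ → LocSys ω2 K2ᶜ →
  Full ω2 K2ᶜ → ∃ (m1 : G1) (m2 : G2), Mrd ω1 K1 m1 ∧ Mrd ω2 K2 m2 ∧
    ∀ (G : Type) [Group G] (φ1 : G1 →* G) (φ2 : G2 →* G), φ1 m1 = φ2 m2 →
      ∃ ω : E → E → G, LocSys ω Kᶜ ∧ LocM ω K (φ1 m1) ∧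
        ∀ H, Red ω Kᶜ H → ∃ g, (∀ d, g * φ1 d * g⁻¹ ∈ H) ∧ ∀ d, g * φ2 d * g⁻¹ ∈ H

-- deps: GD WIRT MAXG
-- imports: Pool.Agent.P.MP_28369d_gt.SB.TBR3
def S_BRN : Prop := ∀ (V : Type) [AddCommGroup V] [Module ℂ V] [FiniteDimensional ℂ V]
  (ω : E → E → (Module.End ℂ V)ˣ) (K : Set E) (σ : (Module.End ℂ V)ˣ) (s : ℂ), LocSys ω Kᶜ →
  LocM ω K σ → PR σ s →
  (∀ H, Red ω Kᶜ H → ∃ β : V, ∀ v, (∀ h ∈ H, h.1 v = v) → ∃ c : ℂ, v = c • β) →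
  ∀ (Q : Poly) (u : E), Iso K Q.carrier → Gen Q u → Module.finrank ℂ V ≤ Q.nmax u + 1

-- deps:
def S_PRG : Prop := ∀ (G1 G2 : Type) [Group G1] [Group G2] (m1 : G1) (m2 : G2) (n1 n2 : ℕ) (s : ℂ),
  s ≠ 1 → Rep G1 m1 n1 s → Rep G2 m2 n2 s →
  ∃ (V : Type) (_ : AddCommGroup V) (_ : Module ℂ V) (_ : FiniteDimensional ℂ V)
    (φ1 : G1 →* (Module.End ℂ V)ˣ) (φ2 : G2 →* (Module.End ℂ V)ˣ) (β : V),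
    Module.finrank ℂ V = n1 + n2 ∧ φ1 m1 = φ2 m2 ∧ PR (φ1 m1) s ∧
      ∀ v, (∀ d, (φ1 d).1 v = v) → (∀ d, (φ2 d).1 v = v) → ∃ c : ℂ, v = c • β

-- deps: SUM BRN PRG
def S_GLUE : Prop := ∀ (K1 K2 K : Set E) (n1 n2 : ℕ), RefAll K1 n1 → RefOne K2 n2 →
  ConnSum K1 K2 K → ∀ (Q : Poly) (u : E), Iso K Q.carrier → Gen Q u → n1 + n2 ≤ Q.nmax u + 1

-- deps:
def S_HYP : Prop := ∀ (p n : ℕ) (t : ℂ), 0 < p → p ≤ n → t ≠ 0 → t ≠ 1 →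
  ∃ (V : Type) (_ : AddCommGroup V) (_ : Module ℂ V) (_ : FiniteDimensional ℂ V)
    (A B : (Module.End ℂ V)ˣ) (κ : ℂˣ), Module.finrank ℂ V = p ∧ A ^ p = scl V κ ∧ B ^ n = 1 ∧
      PR (B * A⁻¹) t ∧ ∀ (v : V) (c : ℂ), A.1 v = c • v → B.1 v = c • v → v = 0

-- deps: VK HYP
def S_TREF : Prop := ∀ (p : ℕ) (q : ℤ), 0 < p → p ≤ q.natAbs → IsCoprime (p : ℤ) q →
  IsPreconnected (torus p q)ᶜ → RefAll (torus p q) p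

-- deps:
def S_MONO : Prop := ∀ (G : Type) [Group G] (ω : E → E → G) (U : Set E), IsOpen U →
  IsPreconnected U → U.Nonempty → LocSys ω U →
  ∃ (H : Subgroup G) (ω' : E → E → H), LocSys ω' U ∧ Full ω' U ∧ Red ω U H

-- deps:
def S_BARG : Prop := ∀ P : Poly, ∃ Z : E → ℂ, (∀ x ∈ P.carrierᶜ, ContinuousAt Z x ∧ Z x ≠ 0) ∧
  ∃ (c : ℝ → E) (θ : ℝ → ℝ), Continuous c ∧ Continuous θ ∧ c 1 = c 0 ∧
    θ 1 = θ 0 + 2 * Real.pi ∧ ∀ t, c t ∈ P.carrierᶜ ∧ Lf (θ t) (Z (c t))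

-- deps: BARG CONN
def S_LINK : Prop := ∀ (K : Set E) (P : Poly), Iso K P.carrier →
  ∃ ω : E → E → Multiplicative ℤ, LocSys ω Kᶜ ∧ Full ω Kᶜ

-- deps:
def S_U2A : Prop := ∀ (G : Type) [Group G] (ρ : G →* Matrix.unitaryGroup (Fin 2) ℂ)
  (χ : G →* Multiplicative ℤ) (m : G), (∃ g h, ρ g * ρ h ≠ ρ h * ρ g) →
  Subgroup.normalClosure {m} = ⊤ → ((χ m).toAdd = 1 ∨ (χ m).toAdd = -1) →
  ∃ s : ℂ, s ≠ 0 ∧ s ≠ 1 ∧ Rep G m 2 s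

-- deps: F0 CONN LINK MONO U2A
def S_UREF : Prop := ∀ (K : Set E) (P : Poly), Iso K P.carrier → U2Rep K → RefOne K 2

-- deps: VK
def S_TAFF : Prop := ∀ (p : ℕ) (q : ℤ) (ζ : ℂ), 0 < p → q ≠ 0 → IsCoprime (p : ℤ) q → ζ ≠ 0 →
  (ζ ^ p) ^ q = 1 → ζ ^ p ≠ 1 → ζ ^ q ≠ 1 → IsPreconnected (torus p q)ᶜ → AffL (torus p q) ζ

-- deps: SUM LINK MONO CONN
def S_AFFS : Prop := ∀ (K1 K2 K : Set E) (t : ℂ), AffL K1 t → ConnSum K1 K2 K → AffL K t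

-- deps: SW MAXG
-- imports: Pool.Agent.P.MP_28369d_gt.ST.TREPC
def S_REPL : Prop := ∀ (Q : Poly) (u d : E) (t : ℂ), GDg Q d →
  Gen Q u → ⟪d, u⟫ = 0 → AffL Q.carrier t → ∃ (s : ℂ) (a : ℝ → ℂ), s ≠ 0 ∧
    (∃ j k : ℤ, s = t ^ j ∧ t = s ^ k) ∧ Col Q d s a ∧
    ∃ i j : ℤ, Mx Q u i ∧ Mx Q u j ∧ a (i + 1) ≠ a (j + 1)

-- deps: CORE SQ1 SQ2 SQ3 SQD REPL COLPI SYSC GAL
-- imports: Pool.Agent.P.MP_28369d_gt.ST.BaseTopC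
def S_T3L : Prop := ∀ m : ℕ, ∃ C : ℕ, ∀ P : Poly, LB P m → sb P.carrier ≤ m + 2 →
  ∃ D : Polynomial ℤ, D.support.card ≤ C ∧ Nrm D ∧
    ∀ t : ℂ, AffL P.carrier t → Polynomial.aeval t D = 0

-- deps:
def S_FOUR : Prop := ∀ (D : Polynomial ℤ) (l n : ℕ) (w : ℂ), ((l.Prime ∧ l ≠ 2) ∨ l = 4) → 0 < n →
  IsPrimitiveRoot w l → Nrm D →
  (∀ η : ℂ, η ^ n = 1 → η ≠ 1 → Polynomial.aeval (w * η) D = 0) → n ≤ D.support.card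

-- deps: T3L
-- imports: Pool.Agent.P.MP_28369d_gt.SB.FinC
def S_E2 : Prop := ∀ m : ℕ, ∃ C : ℕ, ∀ (P : Poly) (T : Finset ℂ), LB P m → C < T.card →
  (∀ t ∈ T, AffL P.carrier t) → m + 2 ≤ sb P.carrier

-- deps: FAM SMEMB
-- imports: Pool.Agent.P.MP_28369d_gt.SB.TT3
def S_UB3 : Prop := ∀ (p : ℕ) (q : ℤ) (s : ℝ), 0 < p → IsCoprime (p : ℤ) q → 0 < s → s ≤ 1 →
  Function.Periodic (torp p q s) (2 * Real.pi) ∧ InjMod (torp p q s) (2 * Real.pi) ∧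
  (∀ t, HasDerivAt (torp p q s) (torp' p q s t) t) ∧ Continuous (torp' p q s) ∧
  (∀ t, torp' p q s t ≠ 0) ∧ Iso (torus p q) (range (torp p q s))

-- deps:
-- imports: Pool.Agent.P.MP_28369d_gt.SB.TT4P
def S_UB4 : Prop := ∀ (p : ℕ) (q : ℤ), 0 < p → ∃ s : ℝ, 0 < s ∧ s ≤ 1 ∧ ∀ u : E, ‖u‖ = 1 →
  ∀ (t0 : ℝ) (S : Finset ℝ),
    (∀ t ∈ S, t0 ≤ t ∧ t < t0 + 2 * Real.pi ∧ ⟪torp' p q s t, u⟫ = 0) → S.card ≤ 4 * p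

-- deps: UB3 UB4 INSC
-- imports: Pool.Agent.P.MP_28369d_gt.SB.TT4
def S_UB : Prop := ∀ (p : ℕ) (q : ℤ), 0 < p → IsCoprime (p : ℤ) q → sb (torus p q) ≤ 2 * p

-- deps:
def S_SYM : Prop := ∀ K1 K2 K : Set E, ConnSum K1 K2 K → ConnSum K2 K1 K

-- deps: TAFF AFFS T3L FOUR E2 CONN
def S_TK : Prop := ∀ m : ℕ, ∃ C : ℕ, ∀ (p : ℕ) (q : ℤ) (J K : Set E), 2 ≤ p →
  IsCoprime (p : ℤ) q → C < q.natAbs → ConnSum (torus p q) J K →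
  (∀ (Q : Poly) (u : E), Iso K Q.carrier → Gen Q u → m ≤ Q.nmax u) →
  m + 2 ≤ sb K ∧ (3 ≤ p → m + 3 ≤ sb K)

end Pool.Agent.P.MP_28369d_gt.SB
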