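import Pool.Agent.P.MP_28369d_gt.ST.Iface3
import Pool.Agent.P.MP_28369d_gt.SB.TBR3

/-! Step BRN. -/

namespace Pool.Agent.P.MP_28369d_gt.SB

open Set Filter Topology
open scoped RealInnerProductSpace

namespace BRNx

variable {V : Type} [AddCommGroup V] [Module ℂ V]

/-- The automorphisms that fix a set of vectors. -/
def fixS (W : Set V) : Subgroup (Module.End ℂ V)ˣ where
  carrier := {τ | ∀ v ∈ W, τ.1 v = v}
  mul_mem' := fun {a b} ha hb v hv => by rw [un_mul, hb v hv, ha v hv]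
  one_mem' := fun _ _ => rfl
  inv_mem' := fun {a} ha v hv => by
    have := un_inv' a v
    rwa [ha v hv] at this

/-- `σ` fixes the kernel of a functional. -/
def HF (σ : (Module.End ℂ V)ˣ) : Prop := ∃ f : V →ₗ[ℂ] ℂ, ∀ v, f v = 0 → σ.1 v = v

theorem HF.conj {σ : (Module.End ℂ V)ˣ} (h : HF σ) (g : (Module.End ℂ V)ˣ) :
    HF (g * σ * g⁻¹) := by
  obtain ⟨f, hf⟩ := h
  refine ⟨f ∘ₗ g⁻¹.1, fun v hv => ?_⟩
  rw [un_mul, un_mul, hf _ hv, un_inv]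

theorem HF.pow {σ τ : (Module.End ℂ V)ˣ} (h : HF σ) (ht : τ ∈ Subgroup.zpowers σ) : HF τ := by
  obtain ⟨f, hf⟩ := h
  exact ⟨f, (Subgroup.zpowers_le (H := fixS {v | f v = 0})).2 hf ht⟩

theorem HF.isConj {σ τ : (Module.End ℂ V)ˣ} (h : HF σ) (ht : IsConj σ τ) : HF τ := by
  obtain ⟨g, rfl⟩ := isConj_iff.1 ht
  exact h.conj g

theorem hf_of_pr {σ : (Module.End ℂ V)ˣ} {s : ℂ} (h : PR σ s) : HF σ := by
  obtain ⟨f, α, h1, -⟩ := h
  exact ⟨f, fun v hv => by rw [h1, hv, zero_smul, add_zero]⟩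

theorem one {G : Type} [Group G] {ω : E → E → G} {Q : Poly} {d : E} {μ : ℝ → G} {X : Set ℝ}
    {m : G} (hw : Wirt Q d ω μ X) (h2 : LocM ω Q.carrier m) :
    ∃ t g g', g * μ t * g⁻¹ ∈ Subgroup.zpowers (g' * m * g'⁻¹) := by
  obtain ⟨Y, hY, hm⟩ := BR3x.exc hw
  obtain ⟨Y', hY', h2⟩ := h2
  have hc : (Q.γ ⁻¹' (Y ∪ Y')).Countable := by
    rw [← biUnion_preimage_singleton]
    refine (hY.union hY').countable.biUnion fun y _ => ?_
    rcases (Q.γ ⁻¹' {y}).eq_empty_or_nonempty with e | ⟨s, hs⟩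
    · rw [e]; exact countable_empty
    · refine (countable_range fun k : ℤ => s + k * (Q.n : ℝ)).mono fun t ht => ?_
      obtain ⟨k, hk⟩ := Q.injMod s t (hs.trans ht.symm)
      exact ⟨k, hk.symm⟩
  obtain ⟨t, ht⟩ := (hc.dense_compl ℝ).nonempty
  obtain ⟨N, hN, g', hr⟩ := h2 _ (Q.γ_mem t) fun h => ht (Or.inr h)
  obtain ⟨g, hg⟩ := (hm t fun h => ht (Or.inl h)).2 N hN _ hr
  exact ⟨t, g, g', hg⟩

theorem dim [FiniteDimensional ℂ V] {ι : Type} [Finite ι] (f : ι → V →ₗ[ℂ] ℂ) (β : V)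
    (h : ∀ v, (∀ i, f i v = 0) → ∃ c : ℂ, v = c • β) :
    Module.finrank ℂ V ≤ Nat.card ι + 1 := by
  cases nonempty_fintype ι
  have h1 := (LinearMap.pi f).finrank_range_add_finrank_ker
  have h2 : Module.finrank ℂ (LinearMap.range (LinearMap.pi f)) ≤ Nat.card ι := by
    refine (Submodule.finrank_le _).trans ?_
    simp
  have h3 : Module.finrank ℂ (LinearMap.ker (LinearMap.pi f)) ≤ 1 := by
    have : LinearMap.ker (LinearMap.pi f) ≤ Submodule.span ℂ {β} := fun v hv => by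
      obtain ⟨c, rfl⟩ := h v fun i => congrFun (LinearMap.mem_ker.1 hv) i
      exact Submodule.smul_mem _ _ (Submodule.mem_span_singleton_self β)
    refine (Submodule.finrank_mono this).trans ?_
    simpa using finrank_span_le_card (R := ℂ) ({β} : Set V)
  omega

end BRNx

theorem p_BRN (hGD : S_GD) (hWIRT : S_WIRT) (hMAXG : S_MAXG) :
    S_BRN := by
  intro V _ _ _ ω K σ s hl hL hP hH Q u hi hu
  obtain ⟨d, hd, hdu⟩ := BR3x.orth u
  obtain ⟨δ, hδ, hs⟩ := BR3x.small hu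
  obtain ⟨Q', h, μ, X, hn, hh, hv, hw, hr⟩ := BR3x.com hGD hWIRT hd hδ hi hl
  have hp := hs Q' hv
  have hu' : Gen Q' u := fun i => left_ne_zero_of_mul (hp i).ne'
  have hm : Q'.nmax u = Q.nmax u := by
    rw [Poly.nmax, Poly.nmax, hn]
    exact mx_congr_mul hp
  rw [← hm, Poly.nmax, mx_of_ne hu']
  obtain ⟨t, g, g', hg⟩ := BRNx.one hw (hh ▸ hL.push h)
  have h0 : BRNx.HF (μ t) :=
    (((BRNx.hf_of_pr hP).conj g').pow hg).isConj (isConj_iff.2 ⟨g, rfl⟩).symm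
  choose f hf using fun τ => h0.isConj ((hMAXG _ _ Q' d u μ X hw).1 t τ)
  set S := {j : ℤ | 0 ≤ j ∧ j < Q'.n ∧ 0 < ⟪Q'.e j, u⟫ ∧ ⟪Q'.e (j + 1), u⟫ < 0} with hS
  have hfin : Finite S := fin_win _ _
  have hmem := (hMAXG _ _ Q' d u μ X hw).2 hu' hdu
    (BRNx.fixS {v | ∀ j : S, f ((j : ℤ) + 1) v = 0}) (by
    intro i h1 h2
    have hn' : (0 : ℤ) < Q'.n := by exact_mod_cast Q'.pos
    obtain ⟨j, k, j0, j1, rfl⟩ : ∃ j k : ℤ, 0 ≤ j ∧ j < Q'.n ∧ i = j + k * Q'.n :=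
      ⟨i % Q'.n, i / Q'.n, Int.emod_nonneg _ hn'.ne', Int.emod_lt_of_pos _ hn',
        (Int.emod_add_ediv_mul i _).symm⟩
    rw [per_zmul Q'.e_per] at h1
    rw [add_right_comm, per_zmul Q'.e_per] at h2
    push_cast
    rw [add_right_comm, hw.per]
    exact fun v hv => hf _ v (hv ⟨j, j0, j1, h1, h2⟩))
  obtain ⟨β, hβ⟩ := hH _ (hr.le ((Subgroup.closure_le _).2 (range_subset_iff.2 hmem)))
  exact BRNx.dim (fun j : S => f ((j : ℤ) + 1)) β fun v hv => hβ v fun a ha => ha v hv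

end Pool.Agent.P.MP_28369d_gt.SB
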