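import Pool.Agent.P.MP_28369d_gt.ST.Iface4
import Pool.Agent.P.MP_28369d_gt.ST.Iface3
import Pool.Agent.P.MP_28369d_gt.ST.TBRN

/-! Step RZ1. -/

namespace Pool.Agent.P.MP_28369d_gt.SB

open Set Filter Topology Monoid.CoprodI
open scoped RealInnerProductSpace

namespace RZ1x

open BRNx TREFx

variable {V : Type} [AddCommGroup V] [Module ℂ V] [FiniteDimensional ℂ V]

/-- The determinant. -/
noncomputable def dt (V : Type) [AddCommGroup V] [Module ℂ V] : (Module.End ℂ V)ˣ →* ℂ :=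
  (LinearMap.det : (V →ₗ[ℂ] V) →* ℂ).comp (Units.coeHom _)

theorem dt_pr {σ : (Module.End ℂ V)ˣ} {t : ℂ} (h : PR σ t) : dt V σ = t := by
  obtain ⟨f, α, a, b⟩ := h
  have : σ.1 = LinearMap.transvection f α := LinearMap.ext fun v => a v
  show LinearMap.det σ.1 = t
  rw [this, LinearMap.transvection.det, b]; ring

theorem dt_scl (c : ℂˣ) : dt V (scl V c) = c.1 ^ Module.finrank ℂ V := by
  have : (scl V c).1 = c.1 • (LinearMap.id : V →ₗ[ℂ] V) := LinearMap.ext fun v => rfl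
  show LinearMap.det (scl V c).1 = _
  rw [this, LinearMap.det_smul, LinearMap.det_id, mul_one]

theorem nrm {A B : (Module.End ℂ V)ˣ} {κ : ℂˣ} {p n : ℕ} (hn : 0 < n)
    (hp : 0 < p) (b : A ^ p = scl V κ) (c : B ^ n = 1)
    (d : PR (B * A⁻¹) 2) : ‖κ.1‖ ≠ 1 := by
  intro e
  have h1 : ‖dt V B‖ = 1 := by
    have := congrArg (fun x => ‖dt V x‖) c
    simp only [map_pow, map_one, norm_pow, norm_one] at this
    exact (pow_eq_one_iff_of_nonneg (norm_nonneg _) hn.ne').1 this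
  have h2 : ‖dt V A‖ = 1 := by
    have := congrArg (fun x => ‖dt V x‖) b
    simp only [map_pow, dt_scl, norm_pow, e, one_pow] at this
    exact (pow_eq_one_iff_of_nonneg (norm_nonneg _) hp.ne').1 this
  have h3 : dt V B = 2 * dt V A := by rw [← dt_pr d, ← map_mul, inv_mul_cancel_right]
  rw [h3, norm_mul, h2] at h1
  norm_num at h1

theorem fixv {ι : Type} (s : Finset ι) (σ : ι → (Module.End ℂ V)ˣ) (h : ∀ x ∈ s, HF (σ x))
    (hs : s.card < Module.finrank ℂ V) : ∃ w : V, w ≠ 0 ∧ ∀ x ∈ s, (σ x).1 w = w := by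
  choose f hf using fun x : s => h x.1 x.2
  have := LinearMap.ker_ne_bot_of_finrank_lt (f := LinearMap.pi f) (by simpa using hs)
  obtain ⟨w, a, b⟩ := (Submodule.ne_bot_iff _).1 this
  exact ⟨w, b, fun x hx => hf ⟨x, hx⟩ w (congrFun (LinearMap.mem_ker.1 a) _)⟩

theorem zval {H : Type} [Group H] {a b : H} {p q u v : ℤ} (h : q * u - p * v = 1)
    (k : a ^ p = b ^ q) : a ^ p = ((a ^ u) ^ p) ^ q * (((b ^ v) ^ q) ^ p)⁻¹ := by
  rw [zpow_comm a u p, zpow_comm b v q, ← k]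
  simp only [← zpow_mul, ← zpow_neg, ← zpow_add]
  congr 1
  linear_combination (-p) * h

end RZ1x

open RZ1x BRNx TREFx in
theorem p_RZ1 (hHYP : S_HYP) :
    S_RZ1 := by
  intro p q u v hp hq h s hs hm
  obtain ⟨V, i1, i2, i3, A, B, κ, a, b, c, d, -⟩ :=
    hHYP p q.natAbs 2 hp hq two_ne_zero (by norm_num)
  have hκ := nrm (hp.trans_le hq) hp b c d
  have hB : B ^ q = 1 := by
    rcases Int.natAbs_eq q with e | e
    · rw [e, zpow_natCast, c]
    · rw [e, zpow_neg, zpow_natCast, c, inv_one]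
  have hA' : (scl V (κ ^ v) * A) ^ (p : ℤ) = scl V (κ ^ q) ^ u := by
    rw [(scl_comm _ _).mul_zpow, zpow_natCast A, b, ← map_zpow, ← map_zpow, ← map_mul,
      ← zpow_mul, ← zpow_mul, ← zpow_add_one]
    congr 2; linarith
  have hB' : (scl V (κ ^ v) * B) ^ q = scl V (κ ^ q) ^ v := by
    rw [(scl_comm _ _).mul_zpow, hB, mul_one, ← map_zpow, ← map_zpow, zpow_comm]
  obtain ⟨a', b', k1, k2, k3⟩ := grp (scl_comm _) h hA' hB'
  have hz : a' ^ (p : ℤ) = scl V (κ ^ q) := by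
    rw [zval h k1, k2, k3, hA', hB', ← zpow_mul, ← zpow_mul, ← zpow_neg, ← zpow_add,
      show u * q + -(v * p) = 1 by linarith, zpow_one]
  obtain ⟨ρ, r1, r2⟩ := TREFx.lift a' b' k1
  have hpr : PR (ρ (PresentedGroup.of true ^ u * PresentedGroup.of false ^ (-v))⁻¹) 2 := by
    rw [map_inv, map_mul, map_zpow, map_zpow, r1, r2, zpow_neg, k2, k3, mul_inv_rev, inv_inv,
      mul_inv_rev, mul_assoc, ← mul_assoc B, (scl_comm (κ ^ v) _).eq, mul_assoc, inv_mul_cancel,
      mul_one]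
    exact d
  have hf0 : HF (ρ (PresentedGroup.of true ^ u * PresentedGroup.of false ^ (-v))) := by
    have := hf_of_pr (hpr.inv two_ne_zero)
    rwa [← map_inv, inv_inv] at this
  obtain ⟨w, w0, w1⟩ := fixv s ρ (fun x hx => by
    obtain ⟨g, k, rfl⟩ := hm x hx
    refine (hf0.conj (ρ g)).pow ⟨k, ?_⟩
    simp only [map_zpow, map_mul, map_inv]) (a ▸ hs)
  have w2 : Subgroup.closure (s : Set (TG p q)) ≤ (fixS {w}).comap ρ :=
    (Subgroup.closure_le _).2 fun x hx y hy => by rw [show y = w from hy]; exact w1 x hx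
  intro i n g hg
  have key : ∀ r : ℤ, ρ (PresentedGroup.of i) ^ r = scl V (κ ^ q) → n = 0 := by
    intro r hr
    have e := w2 (Subgroup.zpow_mem _ hg r) w rfl
    have e2 : ρ ((g⁻¹ * PresentedGroup.of i ^ n * g) ^ r) = scl V ((κ ^ q) ^ n) := by
      have := conj_zpow (a := g⁻¹) (b := (PresentedGroup.of i : TG p q) ^ n) (i := r)
      rw [inv_inv] at this
      rw [this, map_mul, map_mul, zpow_comm, map_zpow, map_zpow, hr, ← map_zpow,
        ← (scl_comm _ _).eq, mul_assoc, ← map_mul, inv_mul_cancel, map_one, mul_one]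
    rw [e2, scl_apply] at e
    have e3 : ((κ ^ q) ^ n).1 = 1 := by
      by_contra ne
      have : (((κ ^ q) ^ n).1 - 1) • w = 0 := by rw [sub_smul, e, one_smul, sub_self]
      exact w0 ((smul_eq_zero.1 this).resolve_left (sub_ne_zero.2 ne))
    have e4 : ‖κ.1‖ ^ (q * n) = 1 := by
      rw [← norm_zpow, ← Units.val_zpow_eq_zpow_val, zpow_mul, e3, norm_one]
    have e5 := (zpow_eq_one_iff_right₀ (norm_nonneg _) hκ).1 e4
    exact (mul_eq_zero.1 e5).resolve_left (by omega)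
  cases i
  · exact key q (by rw [r2, ← k1, hz])
  · exact key p (by rw [r1, hz])

end Pool.Agent.P.MP_28369d_gt.SB
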