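import Pool.Agent.P.MP_28369d_gt.ST.Iface4

/-! Step RZ2. -/

namespace Pool.Agent.P.MP_28369d_gt.SB

open Set Filter Topology Monoid.CoprodI
open scoped RealInnerProductSpace

namespace RZ2x

open Multiplicative

theorem hom {G : Type} [Group G] (n : ℕ) {y : G} (h : y ^ (n : ℤ) = 1) :
    ∃ f : Multiplicative (ZMod n) →* G, f (ofAdd 1) = y := by
  refine ⟨AddMonoidHom.toMultiplicativeLeft
    (ZMod.lift n ⟨zmultiplesHom (Additive G) (Additive.ofMul y), h⟩), ?_⟩
  have := ZMod.lift_coe n ⟨zmultiplesHom (Additive G) (Additive.ofMul y), h⟩ 1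
  rw [Int.cast_one] at this
  exact (congrArg Additive.toMul this).trans (zpow_one y)

theorem pw (n : ℕ) (k : ℤ) : (ofAdd (1 : ZMod n)) ^ k = ofAdd (k : ZMod n) := by
  rw [← ofAdd_zsmul, zsmul_one]

theorem pw1 (n : ℕ) : (ofAdd (1 : ZMod n)) ^ (n : ℤ) = 1 := by
  rw [pw, Int.cast_natCast, ZMod.natCast_self, ofAdd_zero]

theorem ex (n : ℕ) (x : Multiplicative (ZMod n)) : ∃ k : ℤ, x = ofAdd 1 ^ k := by
  obtain ⟨k, hk⟩ := ZMod.intCast_surjective x.toAdd
  exact ⟨k, by rw [pw, hk, ofAdd_toAdd]⟩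

theorem zpow_abs {G : Type} [Group G] (y : G) (q : ℤ) : y ^ (q.natAbs : ℤ) = 1 ↔ y ^ q = 1 := by
  rcases Int.natAbs_eq q with h | h
  · rw [← h]
  · conv_rhs => rw [h, zpow_neg, inv_eq_one]

end RZ2x

open RZ2x Multiplicative in
theorem p_RZ2 :
    S_RZ2 := by
  intro p q
  have a1 : (il (ofAdd 1) : ZZ p q.natAbs) ^ (p : ℤ) = 1 := by rw [← map_zpow, pw1, map_one]
  have a2 : (ir (ofAdd 1) : ZZ p q.natAbs) ^ q = 1 := by
    rw [← zpow_abs, ← map_zpow, pw1, map_one]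
  obtain ⟨π, h1, h2⟩ := TREFx.lift _ _ (a1.trans a2.symm)
  have hs : Function.Surjective π := fun g => by
    induction g using two_ind with
    | h1 => exact ⟨1, map_one π⟩
    | h2 x g ih =>
      obtain ⟨k, rfl⟩ := ex _ x
      obtain ⟨g, rfl⟩ := ih
      exact ⟨PresentedGroup.of true ^ k * g, by rw [map_mul, map_zpow, map_zpow, h1]⟩
    | h3 x g ih =>
      obtain ⟨k, rfl⟩ := ex _ x
      obtain ⟨g, rfl⟩ := ih
      exact ⟨PresentedGroup.of false ^ k * g, by rw [map_mul, map_zpow, map_zpow, h2]⟩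
  refine ⟨π, hs, fun H hH => ?_⟩
  obtain ⟨z, hz⟩ : ∃ z : TG p q, z = PresentedGroup.of true ^ (p : ℤ) := ⟨_, rfl⟩
  have hz' : z = PresentedGroup.of false ^ q := hz.trans (TREFx.rel_eq p q)
  have hc : ∀ g, Commute z g := fun g => by
    have : Subgroup.closure {(PresentedGroup.of true : TG p q), PresentedGroup.of false} ≤
        Subgroup.centralizer {z} := by
      rw [Subgroup.closure_le]
      rintro _ (rfl | rfl) <;> refine Subgroup.mem_centralizer_singleton_iff.2 ?_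
      · rw [hz]; exact (Commute.refl _).zpow_right _
      · rw [hz']; exact (Commute.refl _).zpow_right _
    exact (Subgroup.mem_centralizer_singleton_iff.1
      (this ((TREFx.gen p q).ge (Subgroup.mem_top g)))).symm
  have : (Subgroup.zpowers z).Normal := ⟨by
    rintro _ ⟨k, rfl⟩ g
    rw [← ((hc g).zpow_left k).eq, mul_inv_cancel_right]
    exact ⟨k, rfl⟩⟩
  have hz1 : QuotientGroup.mk' (Subgroup.zpowers z) z = 1 :=
    (QuotientGroup.eq_one_iff z).2 (Subgroup.mem_zpowers z)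
  obtain ⟨f1, b1⟩ := hom p (y := QuotientGroup.mk' (Subgroup.zpowers z) (PresentedGroup.of true))
    (by rw [← map_zpow, ← hz, hz1])
  obtain ⟨f2, b2⟩ := hom q.natAbs
    (y := QuotientGroup.mk' (Subgroup.zpowers z) (PresentedGroup.of false))
    (by rw [zpow_abs, ← map_zpow, ← hz', hz1])
  have hχ : (lf2 f1 f2).comp π = QuotientGroup.mk' (Subgroup.zpowers z) :=
    PresentedGroup.ext fun i => by
      cases i
      · rw [MonoidHom.comp_apply, h2, lf2_ir, b2]
      · rw [MonoidHom.comp_apply, h1, lf2_il, b1]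
  have key : ∀ (i : Bool) (r n : ℤ) (g : TG p q), z = PresentedGroup.of i ^ r →
      (π g)⁻¹ * π (PresentedGroup.of i) ^ n * π g ∈ H.map π → ∃ j, n = r * j := by
    rintro i r n g hr ⟨h, hh, e⟩
    have e1 := congrArg (lf2 f1 f2) e
    rw [← map_zpow π, ← map_inv π, ← map_mul π, ← map_mul π, ← MonoidHom.comp_apply,
      ← MonoidHom.comp_apply, hχ] at e1
    obtain ⟨_, ⟨j, rfl⟩, e2⟩ := (QuotientGroup.mk'_eq_mk' _).1 e1.symm
    have e3 := hH i (n + r * j) g (by
      rwa [zpow_add, zpow_mul, ← hr, ← mul_assoc, mul_assoc _ _ g, ((hc g).zpow_left j).eq,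
        ← mul_assoc, e2])
    exact ⟨-j, by linear_combination e3⟩
  intro i m g hm
  obtain ⟨g, rfl⟩ := hs g
  cases i
  · obtain ⟨k, rfl⟩ := ex _ m
    obtain ⟨j, rfl⟩ := key false q k g hz' (by rw [h2, ← map_zpow]; exact hm)
    rw [zpow_mul, (zpow_abs _ q).1 (pw1 _), one_zpow]
    rfl
  · obtain ⟨k, rfl⟩ := ex _ m
    obtain ⟨j, rfl⟩ := key true p k g hz (by rw [h1, ← map_zpow]; exact hm)
    rw [zpow_mul, pw1, one_zpow]
    rfl

end Pool.Agent.P.MP_28369d_gt.SB
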