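import Pool.Agent.P.MP_28369d_gt.ST.Iface4
import Pool.Agent.P.MP_28369d_gt.ST.Iface
import Pool.Agent.P.MP_28369d_gt.ST.TSQW

/-! Step SQDK. -/

namespace Pool.Agent.P.MP_28369d_gt.SB

open Set Filter Topology Monoid.CoprodI
open scoped RealInnerProductSpace

theorem p_SQDK (hSQWK : S_SQWK) (hXC : S_XC) (hW5 : S_W5) :
    S_SQDK := by
  classical
  intro N k
  refine ⟨max N ((N * (k * 2)) ^ 2), fun P Q u d ρ lev F p v0 κ η hP hF hC hL hd hdu hfar hn hκ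
    hT => ?_⟩
  choose! s0 s1 h1 h2 using hSQWK P Q u d ρ lev F N k p v0 κ η hP hF hC hL hd hdu hfar hn hκ hT
  obtain ⟨hfin, hN, hG, -⟩ := hF
  have hFF : hfin.toFinset.card ≤ N := by rwa [← ncard_eq_toFinset_card F hfin]
  set W : Finset (Finset (ℤ × ℝ × ℝ)) := (hfin.toFinset.filter fun B => B.lo + 1 < B.hi).image
    fun B => B.A.image fun a => (a.2, a.1 + a.2 * s0 B a, a.1 + a.2 * s1 B a) with hW
  have mW : ∀ I, I ∈ W ↔ ∃ B ∈ F, B.lo + 1 < B.hi ∧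
      (B.A.image fun a => (a.2, a.1 + a.2 * s0 B a, a.1 + a.2 * s1 B a)) = I := fun I => by
    simp only [hW, Finite.mem_toFinset, Finset.mem_image, Finset.mem_filter, and_assoc]
  set S : Finset ℤ := hfin.toFinset.biUnion fun B => B.A.biUnion fun a =>
    {ed a B.lo % Q.n, ed a (B.hi - 1) % Q.n} with hS
  have cS : S.card ≤ N * (k * 2) := by
    refine (Finset.card_biUnion_le_card_mul _ _ (k * 2) fun B hB => ?_).trans
      (Nat.mul_le_mul_right _ hFF)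
    exact (Finset.card_biUnion_le_card_mul _ _ 2 fun a _ => Finset.card_le_two).trans
      (Nat.mul_le_mul_right _ (hG B (hfin.mem_toFinset.1 hB)).2)
  have hwin : ∀ I ∈ W, WinK Q u d I ∧ I.card ≤ k := fun I hI => by
    obtain ⟨B, hB, c, rfl⟩ := (mW I).1 hI
    exact ⟨h2 B hB c, Finset.card_image_le.trans (hG B hB).2⟩
  have key : ∀ θ : ℝ, ⌊θ⌋ % Q.n ∈ S ∨
      ∃ I ∈ W, ∃ w ∈ I, ∃ k : ℤ, θ + k * Q.n ∈ uIcc w.2.1 w.2.2 := by
    intro θ
    obtain ⟨B, hB, a, ha, j, m, j0, j1, hj⟩ := hC ⌊θ⌋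
    rw [← hn.n] at hj
    have hmod : ⌊θ⌋ % Q.n = ed a j % Q.n := by rw [← hj, Int.add_mul_emod_self_right]
    by_cases hb : j = B.lo ∨ j = B.hi - 1
    · refine Or.inl (Finset.mem_biUnion.2 ⟨B, hfin.mem_toFinset.2 hB,
        Finset.mem_biUnion.2 ⟨a, ha, ?_⟩⟩)
      rcases hb with c | c <;> simp [hmod, c]
    have c : B.lo + 1 < B.hi := by omega
    have sg := ((hG B hB).1.st a ha).1
    have hj' : (ed a j : ℝ) = ⌊θ⌋ + m * Q.n := by exact_mod_cast hj.symm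
    obtain ⟨s, a1, a2, a3⟩ := on_ed sg (r := j) (θ := θ + m * Q.n)
      (by linarith [Int.floor_le θ]) (by linarith [Int.lt_floor_add_one θ])
    obtain ⟨b2, b3⟩ := h1 B hB c a ha
    have d1 : (B.lo : ℝ) + 1 ≤ j := by exact_mod_cast (by omega : B.lo + 1 ≤ j)
    have d2 : (j : ℝ) + 2 ≤ B.hi := by exact_mod_cast (by omega : j + 2 ≤ B.hi)
    exact Or.inr ⟨_, (mW _).2 ⟨B, hB, c, rfl⟩, _, Finset.mem_image.2 ⟨a, ha, rfl⟩, m,
      (SQWx.mem_u sg (by linarith)).2 ⟨s, by linarith, by linarith, a3⟩⟩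
  refine ⟨W, (Finset.card_image_le.trans ((Finset.card_filter_le _ _).trans hFF)).trans
    (le_max_left _ _), hwin, ?_⟩
  refine le_trans (ncard_le_ncard ?_ ((hW5 Q d hn.gd).2.2.1.subset fun θ h => h.1))
    ((hXC Q d S hn.gd).trans ((Nat.pow_le_pow_left cS 2).trans (le_max_right _ _)))
  rintro θ ⟨hθ, hout⟩
  obtain ⟨-, -, θ', r, hr, e⟩ := id hθ
  have e' : Q.γ θ = Q.γ θ' + (-r) • d := by rw [e, neg_smul, add_neg_cancel_right]
  refine ⟨hθ, θ', r, hr, e, (key θ).resolve_right fun ⟨I, hI, w, hw, k, c⟩ => hout I hI w hw k c,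
    (key θ').resolve_right fun ⟨I, hI, w, hw, k, c⟩ => ?_⟩
  obtain ⟨w', hw', k', c'⟩ := (hwin I hI).1.cl w hw _ c θ (-r) (neg_ne_zero.2 hr)
    (by rw [Q.γ_per, e'])
  exact hout I hI w' hw' k' c'

end Pool.Agent.P.MP_28369d_gt.SB
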