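import Pool.Agent.P.MP_28369d_gt.ST.Iface4
import Pool.Agent.P.MP_28369d_gt.ST.Iface
import Pool.Agent.P.MP_28369d_gt.ST.TSQW

/-! Step SQWK. -/

namespace Pool.Agent.P.MP_28369d_gt.SB

open Set Filter Topology Monoid.CoprodI
open scoped RealInnerProductSpace

theorem p_SQWK (hSQX : S_SQX) (hW5 : S_W5) :
    S_SQWK := by
  classical
  intro P Q u d ρ lev F N k p v0 κ η hAl hF hC hL hd hdu hFar hN hκ hT B hB hlh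
  have X := hSQX P Q u d ρ lev F N k p v0 η hAl hF hC hL hd hdu hFar hN B hB
  obtain ⟨hG, -⟩ := hF.2.2.1 B hB
  have hfin := ((hW5 Q d hN.gd).2.2.1).image fun θ => ⟪Q.γ θ, u⟫
  have hcr : ∀ θ, Cr Q d θ → ⟪Q.γ θ, u⟫ ∈ (fun θ => ⟪Q.γ θ, u⟫) '' Xs Q d := by
    rintro θ ⟨θ', r, hr, e⟩
    obtain ⟨k, k1, k2⟩ := exists_shift (T := Q.n) (by exact_mod_cast Q.pos) 0 θ
    exact ⟨θ + k * Q.n, ⟨k1, by simpa using k2, θ', r, hr, by rw [Q.γ_per, e]⟩, by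
      simp only [Q.γ_per]⟩
  obtain ⟨h0, ⟨a0, b0⟩, n0⟩ := (Ioo_infinite
    (show ⟪p B, u⟫ - 2 * κ < ⟪p B, u⟫ - κ by linarith)).exists_notMem_finite hfin
  obtain ⟨h1, ⟨a1, b1⟩, n1⟩ := (Ioo_infinite
    (show ⟪p B, u⟫ + κ < ⟪p B, u⟫ + 2 * κ by linarith)).exists_notMem_finite hfin
  have hl : (B.lo : ℝ) + 1 + 1 ≤ B.hi := by
    have : B.lo + 1 + 1 ≤ B.hi := hlh
    exact_mod_cast this
  have ex : ∀ a ∈ B.A, ∃ s t : ℝ, (B.lo : ℝ) < s ∧ s < B.lo + 1 ∧ (B.hi : ℝ) - 1 < t ∧ t < B.hi ∧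
      ⟪pl (sx Q a) s, u⟫ = h0 ∧ ⟪pl (sx Q a) t, u⟫ = h1 := by
    intro a ha
    obtain ⟨-, t2, t3, t4⟩ := hT B hB a ha hlh
    have c : Continuous fun s : ℝ => ⟪pl (sx Q a) s, u⟫ := (continuous_pl _).inner continuous_const
    have c1 := (abs_lt.1 (t2 (B.lo + 1) le_rfl hl)).1
    have c2 := (abs_lt.1 (t2 (B.hi - 1) (by linarith) (by linarith))).2
    rw [inner_sub_left] at t3 t4 c1 c2
    obtain ⟨s, hs, es⟩ := intermediate_value_Ioo (show (B.lo : ℝ) ≤ B.lo + 1 by linarith)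
      c.continuousOn (show h0 ∈ Ioo _ _ from ⟨by simp only [pl_int]; linarith, by linarith⟩)
    obtain ⟨t, ht, et⟩ := intermediate_value_Ioo (show (B.hi : ℝ) - 1 ≤ B.hi by linarith)
      c.continuousOn (show h1 ∈ Ioo _ _ from ⟨by linarith, by simp only [pl_int]; linarith⟩)
    exact ⟨s, t, hs.1, hs.2, ht.1, ht.2, es, et⟩
  choose! s0 s1 p1 p2 p3 p4 p5 p6 using ex
  have lt : ∀ a ∈ B.A, s0 a < s1 a := fun a ha => by linarith [p2 a ha, p3 a ha]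
  have m0 : ∀ a ∈ B.A, s0 a ∈ Icc (B.lo : ℝ) B.hi := fun a ha =>
    ⟨(p1 a ha).le, by linarith [p2 a ha]⟩
  have m1 : ∀ a ∈ B.A, s1 a ∈ Icc (B.lo : ℝ) B.hi := fun a ha =>
    ⟨by linarith [p3 a ha], (p4 a ha).le⟩
  have key : ∀ a ∈ B.A, ∀ s ∈ Icc (B.lo : ℝ) B.hi, (s0 a ≤ s ∧ s ≤ s1 a) ↔
      (h0 ≤ ⟪pl (sx Q a) s, u⟫ ∧ ⟪pl (sx Q a) s, u⟫ ≤ h1) := fun a ha s hs => by
    rw [← p5 a ha, ← p6 a ha, (X a ha).1.le_iff_le (m0 a ha) hs, (X a ha).1.le_iff_le hs (m1 a ha)]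
  have nr : ∀ a ∈ B.A, ∀ s, s0 a ≤ s → s ≤ s1 a → ‖pl (sx Q a) s - p B‖ < η := by
    intro a ha s c1 c2
    have hs : s ∈ Icc (B.lo : ℝ) B.hi := ⟨(m0 a ha).1.trans c1, c2.trans (m1 a ha).2⟩
    obtain ⟨e1, e2⟩ := (key a ha s hs).1 ⟨c1, c2⟩
    refine (hT B hB a ha hlh).1 s hs.1 hs.2 ?_
    rw [inner_sub_left, abs_le]
    constructor <;> linarith
  have sg : ∀ a ∈ B.A, a.2 = 1 ∨ a.2 = -1 := fun a ha => (hG.st a ha).1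
  have cl : ∀ a ∈ B.A,
      ∀ θ ∈ uIcc (a.1 + a.2 * s0 a : ℝ) (a.1 + a.2 * s1 a), ∀ θ' r : ℝ, r ≠ 0 →
      Q.γ θ' = Q.γ θ + r • d → ∃ b ∈ B.A,
      ∃ k : ℤ, θ' + k * Q.n ∈ uIcc (b.1 + b.2 * s0 b : ℝ) (b.1 + b.2 * s1 b) := by
    intro a ha θ hθ θ' r hr e
    obtain ⟨s, c1, c2, rfl⟩ := (SQWx.mem_u (sg a ha) (lt a ha).le).1 hθ
    have hs : s ∈ Icc (B.lo : ℝ) B.hi := ⟨(m0 a ha).1.trans c1, c2.trans (m1 a ha).2⟩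
    rw [← pl_sx Q (sg a ha)] at e
    obtain ⟨b, hb, -, s', m, d1, d2, d3⟩ := (X a ha).2.2 s θ' r hs.1 hs.2 (nr a ha s c1 c2) hr e
    have eh : ⟪pl (sx Q b) s', u⟫ = ⟪pl (sx Q a) s, u⟫ := by
      rw [pl_sx Q (sg b hb), ← d3, Q.γ_per, e, inner_add_left, real_inner_smul_left, hdu]; ring
    obtain ⟨f1, f2⟩ := (key b hb s' ⟨d1, d2⟩).2 (eh ▸ (key a ha s hs).1 ⟨c1, c2⟩)
    exact ⟨b, hb, m, (SQWx.mem_u (sg b hb) (lt b hb).le).2 ⟨s', f1, f2, d3⟩⟩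
  have nc : ∀ a ∈ B.A, ¬ Cr Q d (a.1 + a.2 * s0 a) ∧ ¬ Cr Q d (a.1 + a.2 * s1 a) := fun a ha =>
    ⟨fun c => n0 (by have := hcr _ c; rwa [← pl_sx Q (sg a ha), p5 a ha] at this),
      fun c => n1 (by have := hcr _ c; rwa [← pl_sx Q (sg a ha), p6 a ha] at this)⟩
  refine ⟨s0, s1, fun a ha => ⟨p2 a ha, p3 a ha⟩, fun w hw => ?_, fun w hw => ?_, fun w hw => ?_⟩ <;>
    obtain ⟨a, ha, rfl⟩ := Finset.mem_image.1 hw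
  · exact SQWx.up (hG.st a ha) hN.sgn (p1 a ha) (lt a ha) (p4 a ha)
  · intro θ hθ θ' r hr e
    obtain ⟨b, hb, c⟩ := cl a ha θ hθ θ' r hr e
    exact ⟨_, Finset.mem_image.2 ⟨b, hb, rfl⟩, c⟩
  · exact nc a ha

end Pool.Agent.P.MP_28369d_gt.SB
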