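import Pool.Agent.P.MP_28369d_gt.ST.Iface4

/-! Step SUBG. -/

namespace Pool.Agent.P.MP_28369d_gt.SB

open Set Filter Topology Monoid.CoprodI
open scoped RealInnerProductSpace

namespace SUBGx

variable {M : Bool → Type} [∀ i, Group (M i)]

/-- Coordinates on the orbits of the second factor, with base points in `U`. -/
theorem crd {H : Subgroup (FP M)} (hF : Fr H) (U : Set (FP M ⧸ H)) :
    ∃ j : FP M ⧸ H → M false, (∀ (m : M false) x, j ((of m : FP M) • x) = m * j x) ∧
      ∀ x ∈ U, (of (j x)⁻¹ : FP M) • x ∈ U := by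
  have h1 : ∀ O : Set (FP M ⧸ H), ∃ y, (O.Nonempty → y ∈ O) ∧ ((O ∩ U).Nonempty → y ∈ U) := by
    intro O
    by_cases a : (O ∩ U).Nonempty
    · exact ⟨_, fun _ => a.some_mem.1, fun _ => a.some_mem.2⟩
    · by_cases b : O.Nonempty
      · exact ⟨_, fun _ => b.some_mem, fun e => absurd e a⟩
      · exact ⟨((1 : FP M) : FP M ⧸ H), fun e => absurd e b, fun e => absurd e a⟩
  choose bs b1 b2 using h1
  have h2 : ∀ x : FP M ⧸ H, ∃ m : M false, (of m⁻¹ : FP M) • x = bs (orb (M := M) false x) := by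
    intro x
    obtain ⟨m, hm⟩ := b1 _ ⟨x, mem_orb (M := M) false x⟩
    exact ⟨m⁻¹, by rw [inv_inv]; exact hm⟩
  choose j hj using h2
  refine ⟨j, fun m x => ?_, fun x hx => hj x ▸ b2 _ ⟨x, mem_orb (M := M) false x, hx⟩⟩
  have e := hj ((of m : FP M) • x)
  rw [orb_smul, ← hj x, ← mul_smul, ← map_mul] at e
  have e2 : (of (j x * ((j ((of m : FP M) • x))⁻¹ * m)) : FP M) • x = x := by
    rw [map_mul, mul_smul, e, ← mul_smul, ← map_mul, mul_inv_cancel, map_one, one_smul]
  have e3 := hF.free e2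
  rw [← mul_assoc, mul_eq_one_iff_eq_inv, mul_inv_eq_iff_eq_mul] at e3
  rw [e3, mul_inv_cancel_left]

end SUBGx

open SUBGx in
theorem p_SUBG (hUSED : S_USED) (hEUL : S_EUL) (hCNT2 : S_CNT2) (hCOC : S_COC) :
    S_SUBG := by
  classical
  intro k
  refine ⟨(6 * k + 6) * (6 * k + 6), fun M _ s hs hF => ?_⟩
  generalize hH : Subgroup.closure (s : Set (FP M)) = H at hF ⊢
  obtain ⟨u1, u2⟩ := hUSED M s H hH.symm
  have e1 := hEUL M s H (usd H) hH.symm u1
  have nb : ∀ x ∈ usd H, x ≠ ((1 : FP M) : FP M ⧸ H) → ∀ i : Bool,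
      ∃ y ∈ usd H, y ≠ x ∧ orb (M := M) i y = orb (M := M) i x := fun x hx h0 i => by
    obtain ⟨m, a, b⟩ := u2 x hx h0 i
    exact ⟨_, b, fun e => a (hF.free e), orb_smul m x⟩
  have c1 := hCNT2 _ _ _ (usd H) (orb (M := M) true) (orb (M := M) false) _ k u1
    (fun x hx h0 => ⟨nb x hx h0 true, nb x hx h0 false⟩) (by omega)
  generalize hT : {x | x ∈ usd H ∧ ∃ y ∈ usd H, ∃ z ∈ usd H, y ≠ x ∧ z ≠ x ∧ y ≠ z ∧
    orb (M := M) false y = orb (M := M) false x ∧ orb (M := M) false z = orb (M := M) false x} = T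
    at c1
  have tf : T.Finite := u1.subset (hT ▸ fun _ h => h.1)
  obtain ⟨j, j1, j2⟩ := crd hF (usd H)
  refine ⟨(tf.toFinset ×ˢ tf.toFinset).image fun z => (j z.2 * (j z.1)⁻¹, j z.1), ?_,
    fun D _ lam hO hR => ?_⟩
  · refine Finset.card_image_le.trans ?_
    rw [Finset.card_product, ← Set.ncard_eq_toFinset_card _ tf]
    exact Nat.mul_le_mul c1 c1
  have key : ∀ x ∈ usd H, ∀ m : M false, (of m : FP M) • x ∈ usd H →
      lam false (m * j x) = lam false m * lam false (j x) := by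
    intro x hx m hm
    by_cases a1 : m = 1
    · rw [a1, one_mul, hO.1, one_mul]
    by_cases a2 : j x = 1
    · rw [a2, mul_one, hO.1, mul_one]
    by_cases a3 : m * j x = 1
    · rw [a3, hO.1, mul_eq_one_iff_eq_inv.1 a3, hO.2.1, inv_mul_cancel]
    have n1 : (of m : FP M) • x ≠ x := fun e => a1 (hF.free e)
    have n2 : (of (j x)⁻¹ : FP M) • x ≠ x := fun e => a2 (inv_eq_one.1 (hF.free e))
    have n3 : (of m : FP M) • x ≠ (of (j x)⁻¹ : FP M) • x := fun e => a3 (by
      have := congrArg j e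
      rwa [j1, j1, inv_mul_cancel] at this)
    have t1 : x ∈ T := hT ▸ ⟨hx, _, hm, _, j2 x hx, n1, n2, n3, orb_smul _ _, orb_smul _ _⟩
    have t2 : (of m : FP M) • x ∈ T := hT ▸ ⟨hm, _, hx, _, j2 x hx, n1.symm, n3.symm, n2.symm,
      (orb_smul _ _).symm, (orb_smul _ _).trans (orb_smul _ _).symm⟩
    have := hR _ (Finset.mem_image.2 ⟨(x, (of m : FP M) • x),
      Finset.mem_product.2 ⟨tf.mem_toFinset.2 t1, tf.mem_toFinset.2 t2⟩, rfl⟩)
    simpa only [j1, mul_inv_cancel_right] using this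
  obtain ⟨F, f1, f2⟩ := hCOC M (FP M ⧸ H) D
    (fun i => match i with
      | true => fun m _ => lam true m
      | false => fun m x => lam false (j ((of m : FP M) • x)) * (lam false (j x))⁻¹)
    (fun i => match i with
      | true => fun m m' _ => hO.2.2 m m'
      | false => fun m m' x => by
          simp only [map_mul, mul_smul, mul_assoc, inv_mul_cancel_left])
  have ag : ∀ g : FP M, (∀ t ∈ suf g, (t : FP M ⧸ H) ∈ usd H) →
      F g ((1 : FP M) : FP M ⧸ H) = sig lam g := by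
    intro g
    induction g using fp_ind with
    | h1 =>
      intro _
      have := f1 1 1 ((1 : FP M) : FP M ⧸ H)
      rw [mul_one, one_smul] at this
      rw [sig_one]
      exact (mul_eq_left.1 this.symm)
    | h2 i m g a b ih =>
      intro h
      rw [suf_mul a b] at h
      have q1 : g • ((1 : FP M) : FP M ⧸ H) = (g : FP M ⧸ H) := by
        rw [MulAction.Quotient.smul_coe, smul_eq_mul, mul_one]
      rw [f1, sig_mul hO.1 m b, ih fun t ht => h t (mem_insert_of_mem _ ht), f2, q1]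
      congr 1
      cases i
      · have := key _ (h g (mem_insert_of_mem _ (self_mem_suf g))) m (h _ (mem_insert _ _))
        simp only [j1, this, mul_inv_cancel_right]
      · rfl
  have ah : ∀ g ∈ H, F g ((1 : FP M) : FP M ⧸ H) = sig lam g := fun g hg =>
    ag g fun t ht => ⟨g, hg, t, ht, rfl⟩
  intro g hg h hh
  rw [← ah _ (H.mul_mem hg hh), f1, smul_base hh, ah g hg, ah h hh]

end Pool.Agent.P.MP_28369d_gt.SB
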