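import Pool.Agent.P.MP_28369d_gt.ST.Iface4

/-! Step TL. -/

namespace Pool.Agent.P.MP_28369d_gt.SB

open Set Filter Topology Monoid.CoprodI
open scoped RealInnerProductSpace

namespace TLx

open Multiplicative

variable {A : Type} [CommGroup A] {q : ℕ}

/-- The letter map of the section. -/
def lm (l : ZMod q → ℤ) :
    ∀ i, Two A (Multiplicative (ZMod q)) i → FP (Two A (Multiplicative ℤ))
  | true => fun x => il (A := A) x
  | false => fun x => ir (ofAdd (l (toAdd x)))

theorem od {l : ZMod q → ℤ} (h : ∀ x, l (-x) = -l x) : Od (lm (A := A) l) := by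
  have h0 : l 0 = 0 := by
    have := h 0
    rw [neg_zero] at this
    omega
  refine ⟨fun i => ?_, fun i m => ?_, fun x y => map_mul (il (A := A)) x y⟩
  · cases i
    · change ir (ofAdd (l 0)) = 1
      rw [h0, ofAdd_zero, map_one]
    · exact map_one (il (A := A))
  · cases i
    · change ir (ofAdd (l (-(toAdd m : ZMod q)))) = (ir (ofAdd (l (toAdd m))))⁻¹
      rw [h, ofAdd_neg, map_inv]
    · exact map_inv (il (A := A)) m

/-- Doubling. -/
def dbl (q : ℕ) : Multiplicative ℤ →* Multiplicative (ZMod q) :=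
  MonoidHom.mk' (fun n => ofAdd ((2 * toAdd n : ℤ) : ZMod q)) fun a b => by
    rw [← ofAdd_add, toAdd_mul]; push_cast; ring_nf

/-- Multiplication by `e`. -/
def mle (e : ZMod q) : Multiplicative (ZMod q) →* Multiplicative (ZMod q) :=
  MonoidHom.mk' (fun x => ofAdd (e * toAdd x)) fun a b => by
    rw [← ofAdd_add, toAdd_mul, mul_add]

end TLx

open TLx Multiplicative in
theorem p_TL (hTL1 : S_TL1) (hDIR : S_DIR) (hLK : S_LK) :
    S_TL := by
  classical
  intro N k
  obtain ⟨C1, h1⟩ := hTL1 N k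
  obtain ⟨C, h2⟩ := hDIR C1
  refine ⟨C, fun A _ _ q μ hq hT hF htop => ?_⟩
  obtain ⟨R, r1, r2⟩ := h1 _ μ hT hF
  obtain ⟨l, e, e0, l1, l2, l3⟩ := h2 q hq
    (R.image fun r => ((toAdd r.1 : ZMod q), (toAdd r.2 : ZMod q))) (Finset.card_image_le.trans r1)
  have hc := r2 _ (lm (A := A) l) (od l1) fun r hr => by
    have := l3 _ (Finset.mem_image.2 ⟨r, hr, rfl⟩)
    change ir (ofAdd (l ((toAdd r.1 : ZMod q) + (toAdd r.2 : ZMod q)))) =
      ir (ofAdd (l (toAdd r.1))) * ir (ofAdd (l (toAdd r.2)))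
    rw [this, ofAdd_add, map_mul]
  set ν := fun t => sig (lm (A := A) l) (μ t) with hν
  set φ : FP (Two A (Multiplicative ℤ)) →* FP (Two A (Multiplicative (ZMod q))) :=
    lf2 il (ir.comp (dbl q)) with hφ
  set ψ : FP (Two A (Multiplicative (ZMod q))) →* FP (Two A (Multiplicative (ZMod q))) :=
    lf2 il (ir.comp (mle e)) with hψ
  have k1 : ∀ g, φ (sig (lm (A := A) l) g) = ψ g := sig_hom (od l1).1 φ ψ fun i m => by
    cases i
    · exact ((lf2_ir il (ir.comp (dbl q)) _).trans (congrArg (fun x => ir (A := A) (ofAdd x)) (l2 _))).trans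
        (lf2_ir il (ir.comp (mle e)) m).symm
    · exact (lf2_il _ _ _).trans (lf2_il _ _ _).symm
  have k2 : ∀ g, ∃ h ∈ Subgroup.closure (range ν), φ h = ψ g := fun g => by
    have : ψ g ∈ (Subgroup.closure (range μ)).map ψ := ⟨g, htop ▸ Subgroup.mem_top g, rfl⟩
    rw [MonoidHom.map_closure, ← range_comp,
      show ψ ∘ μ = φ ∘ ν from funext fun t => (k1 _).symm, range_comp,
      ← MonoidHom.map_closure] at this
    exact this
  have he : (ofAdd e : Multiplicative (ZMod q)) ≠ 1 := fun c => e0 (by simpa using c)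
  obtain ⟨a, ha⟩ := exists_ne (1 : A)
  obtain ⟨x, x1, x2⟩ := k2 (il a)
  obtain ⟨y, y1, y2⟩ := k2 (ir (ofAdd 1))
  rw [lf2_il] at x2
  have y3 : φ y = ir (ofAdd e) := by
    rw [y2, lf2_ir]
    exact congrArg (fun x => ir (ofAdd x)) (mul_one e)
  refine il_ir_ne ha he ?_
  rw [← x2, ← y3, ← map_mul, ← map_mul]
  refine congrArg φ (hLK A (range ν) (ν 0) ⟨0, rfl⟩ (by rintro _ ⟨t, rfl⟩; exact hc t)
    (fun c => ?_) x x1 y y1)
  have k3 : Subgroup.closure (range ν) ≤
      (lf2 (1 : A →* Multiplicative ℤ) (MonoidHom.id _)).ker := by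
    rw [Subgroup.closure_le]
    rintro _ ⟨t, rfl⟩
    obtain ⟨g, -, hg⟩ : ∃ g ∈ _, ν t = g * ν 0 * g⁻¹ := hc t
    rw [SetLike.mem_coe, MonoidHom.mem_ker, hg, map_mul, map_mul, c, mul_one, map_inv,
      mul_inv_cancel]
  have k4 : ∀ g, lf2 (1 : A →* Multiplicative (ZMod q)) (MonoidHom.id _) (φ g) =
      dbl q (lf2 (1 : A →* Multiplicative ℤ) (MonoidHom.id _) g) := fun g => by
    induction g using two_ind with
    | h1 => simp
    | h2 x g ih => simp [hφ ▸ ih, hφ]
    | h3 x g ih => simp [hφ ▸ ih, hφ]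
  have := k4 y
  rw [y3, lf2_ir, MonoidHom.mem_ker.1 (k3 y1), map_one] at this
  exact he this

end Pool.Agent.P.MP_28369d_gt.SB
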