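import Pool.Agent.P.MP_28369d_gt.ST.Iface4

/-! Step TL1. -/

namespace Pool.Agent.P.MP_28369d_gt.SB

open Set Filter Topology Monoid.CoprodI
open scoped RealInnerProductSpace

namespace TL1x

theorem key {G D : Type} [Group G] [Group D] (f : G → D) (o a : G)
    (h1 : f (o * a) = f o * f a) (h2 : f (o * a * o⁻¹ * o) = f (o * a * o⁻¹) * f o)
    (h3 : f (a * o) = f a * f o) (h4 : f (o * (o⁻¹ * a * o)) = f o * f (o⁻¹ * a * o)) :
    f (o * a * o⁻¹) = f o * f a * (f o)⁻¹ ∧ f (o⁻¹ * a * o) = (f o)⁻¹ * f a * f o := by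
  rw [inv_mul_cancel_right, h1] at h2
  rw [show o * (o⁻¹ * a * o) = a * o by group, h3] at h4
  exact ⟨by rw [h2, mul_inv_cancel_right], by rw [mul_assoc (f o)⁻¹, h4, inv_mul_cancel_left]⟩

end TL1x

theorem p_TL1 (hSUBG : S_SUBG) (hMUL1 : S_MUL1) (hCNJ : S_CNJ) :
    S_TL1 := by
  classical
  intro N k
  obtain ⟨C0, hC0⟩ := hSUBG k
  refine ⟨N * C0 + N * 4, fun M _ μ hT hF => ?_⟩
  obtain ⟨A, R0, a1, a2, a3, a4, a5⟩ := hT
  have hS : ∀ s : Finset (FP M), ∃ R : Finset (M false × M false), R.card ≤ C0 ∧ (s ∈ A →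
      ∀ (D : Type) [Group D] (lam : ∀ i, M i → D), Od lam →
      (∀ r ∈ R, lam false (r.1 * r.2) = lam false r.1 * lam false r.2) →
      ∀ g ∈ Subgroup.closure (s : Set (FP M)), ∀ h ∈ Subgroup.closure (s : Set (FP M)),
        sig lam (g * h) = sig lam g * sig lam h) := fun s => by
    by_cases hs : s ∈ A
    · obtain ⟨R, r1, r2⟩ := hC0 M s (a3 s hs).1 (hF s (a3 s hs).1 (a3 s hs).2)
      exact ⟨R, r1, fun _ => r2⟩
    · exact ⟨∅, by simp, fun h => absurd h hs⟩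
  choose RS hRS1 hRS2 using hS
  choose r hr using hMUL1 M
  let Q : FP M × FP M → Finset (M false × M false) := fun x =>
    {r x.1 x.2, r (x.1 * x.2 * x.1⁻¹) x.1, r x.2 x.1, r x.1 (x.1⁻¹ * x.2 * x.1)}
  refine ⟨A.biUnion RS ∪ R0.biUnion Q, ?_, fun D _ lam hO hR => ?_⟩
  · refine (Finset.card_union_le _ _).trans (add_le_add ?_ ?_)
    · exact (Finset.card_biUnion_le_card_mul _ _ _ fun s _ => hRS1 s).trans
        (Nat.mul_le_mul_right _ a1)
    · exact (Finset.card_biUnion_le_card_mul _ _ 4 fun s _ => Finset.card_le_four).trans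
        (Nat.mul_le_mul_right _ a2)
  · refine hCNJ D (fun t => sig lam (μ t)) (fun τ => (a4 τ).mono fun _ e => congrArg _ e)
      fun τ => ?_
    obtain ⟨a, b1, b2⟩ := a5 τ
    refine ⟨sig lam a, b1.mono fun _ e => congrArg _ e, b2.imp (fun e => congrArg _ e) ?_⟩
    rintro ⟨o, ⟨t, rfl⟩, c1, c2⟩
    have hk : sig lam (μ t * a * (μ t)⁻¹) = sig lam (μ t) * sig lam a * (sig lam (μ t))⁻¹ ∧
        sig lam ((μ t)⁻¹ * a * μ t) = (sig lam (μ t))⁻¹ * sig lam a * sig lam (μ t) := by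
      rcases c2 with c2 | ⟨s, d1, d2, d3⟩
      · have hq : ∀ x ∈ Q (μ t, a), lam false (x.1 * x.2) = lam false x.1 * lam false x.2 :=
          fun x hx => hR x (Finset.mem_union_right _ (Finset.mem_biUnion.2 ⟨_, c2, hx⟩))
        exact TL1x.key _ _ _ (hr _ _ D lam hO (hq _ (by simp [Q])))
          (hr _ _ D lam hO (hq _ (by simp [Q]))) (hr _ _ D lam hO (hq _ (by simp [Q])))
          (hr _ _ D lam hO (hq _ (by simp [Q])))
      · have hq := hRS2 s d1 D lam hO fun x hx =>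
          hR x (Finset.mem_union_left _ (Finset.mem_biUnion.2 ⟨_, d1, hx⟩))
        exact TL1x.key _ _ _ (hq _ d2 _ d3)
          (hq _ (mul_mem (mul_mem d2 d3) (inv_mem d2)) _ d2) (hq _ d3 _ d2)
          (hq _ d2 _ (mul_mem (mul_mem (inv_mem d2) d3) d2))
    refine ⟨sig lam (μ t), ⟨t, rfl⟩, c1.imp (fun e => ?_) fun e => ?_⟩
    · exact (congrArg _ e).trans hk.1
    · exact (congrArg _ e).trans hk.2

end Pool.Agent.P.MP_28369d_gt.SB
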