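import Pool.Agent.P.MP_28369d_gt.ST.Iface3

/-! Step AFFS. -/

namespace Pool.Agent.P.MP_28369d_gt.SB

open Set Filter Topology
open scoped RealInnerProductSpace

namespace AFFSx

theorem exists_hom {G : Type} [Group G] (m1 : G) {m2 : Multiplicative ℤ}
    (h : m2.toAdd = 1 ∨ m2.toAdd = -1) : ∃ φ : Multiplicative ℤ →* G, φ m2 = m1 := by
  rcases h with h | h
  · exact ⟨zpowersHom G m1, by rw [zpowersHom_apply, h, zpow_one]⟩
  · exact ⟨zpowersHom G m1⁻¹, by rw [zpowersHom_apply, h]; simp⟩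

theorem ne {K : Set E} {P : Poly} (h : Iso K P.carrier) : Kᶜ.Nonempty := by
  obtain ⟨g, hg⟩ := h.symm.homeo
  rw [← hg, nonempty_compl]
  exact (P.isCompact.image g.continuous).ne_univ

end AFFSx

theorem p_AFFS (hSUM : S_SUM) (hLINK : S_LINK) (hMONO : S_MONO) (hCONN : S_CONN) :
    S_AFFS := by
  intro K1 K2 K t hA hc
  obtain ⟨G, ω1, a1, b1, c1⟩ := hA
  obtain ⟨P1, P2, P, -, -, -, i2, i3, -⟩ := id hc
  obtain ⟨ω2, a2, b2⟩ := hLINK K2 P2 i2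
  obtain ⟨m1, m2, -, h2, h3⟩ := hSUM G (Multiplicative ℤ) ω1 ω2 K1 K2 K hc a1 b1 a2 b2
  obtain ⟨φ, hφ⟩ := AFFSx.exists_hom m1 (unit_of_top h2.1)
  obtain ⟨ω, l1, -, l3⟩ := h3 G (MonoidHom.id G) φ hφ.symm
  obtain ⟨o1, o2⟩ := compl_good hCONN i3
  obtain ⟨H, ω', r1, r2, r3⟩ := hMONO G ω Kᶜ o1 o2 (AFFSx.ne i3) l1
  obtain ⟨g, hg, -⟩ := l3 H r3
  have hs : Function.Surjective H.subtype := fun x =>
    ⟨⟨_, hg (g⁻¹ * x * g)⟩, by simp [mul_assoc]⟩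
  exact ⟨G, fun p p' => H.subtype (ω' p p'), r1.map _, r2.map _ hs, c1⟩

end Pool.Agent.P.MP_28369d_gt.SB
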