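import Pool.Agent.P.MP_28369d_gt.ST.Iface4
import Pool.Agent.P.MP_28369d_gt.ST.Iface3
import Pool.Agent.P.MP_28369d_gt.ST.TAFFS

/-! Step TLS. -/

namespace Pool.Agent.P.MP_28369d_gt.SB

open Set Filter Topology Monoid.CoprodI
open scoped RealInnerProductSpace

theorem p_TLS (hVK : S_VK) (hSUM : S_SUM) (hLINK : S_LINK) (hRZ1 : S_RZ1) (hRZ2 : S_RZ2) (hCONN : S_CONN) :
    S_TLS := by
  intro p q J K hp hq hc hs
  obtain ⟨P1, P2, P, -, -, i1, i2, -⟩ := id hs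
  obtain ⟨v, u, huv⟩ := hc
  have h : q * u - p * (-v) = 1 := by linarith
  obtain ⟨ω1, w1, w2, w3⟩ := hVK (TG p q) (PresentedGroup.of true)
    (PresentedGroup.of false) p q u (-v) hp (by omega) h
    (by rw [← zpow_natCast]; exact TREFx.rel_eq p q) (TREFx.gen p q) (compl_good hCONN i1).2
  obtain ⟨ω2, a2, b2⟩ := hLINK J P2 i2
  obtain ⟨m1, m2, h1, h2, h3⟩ := hSUM _ (Multiplicative ℤ) ω1 ω2 _ J K hs w1 w2 a2 b2
  obtain ⟨φ, hφ⟩ := AFFSx.exists_hom m1 (unit_of_top h2.1)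
  obtain ⟨ω, l1, l2, l3⟩ := h3 _ (MonoidHom.id _) φ hφ.symm
  obtain ⟨π, p1, p2⟩ := hRZ2 p q
  obtain ⟨g, k, hk⟩ := h1.2 _ w3
  refine ⟨_, inferInstance, ω, m1, π, l1, fun H hH => ?_, l2, p1, fun s c1 c2 =>
    p2 _ (hRZ1 p q u (-v) hp hq h s c1 fun x hx => ?_)⟩
  · obtain ⟨g, hg, -⟩ := l3 H hH
    rw [eq_top_iff]
    intro x _
    simpa [mul_assoc] using hg (g⁻¹ * x * g)
  · obtain ⟨g', j, rfl⟩ := c2 x hx
    refine ⟨g' * g⁻¹, k * j, ?_⟩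
    simp only [conj_zpow] at hk ⊢
    rw [zpow_mul, hk, conj_zpow]
    group

end Pool.Agent.P.MP_28369d_gt.SB
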