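import Pool.Agent.P.MP_28369d_gt.ST.Iface4

/-! Step TMP. -/

namespace Pool.Agent.P.MP_28369d_gt.SB

open Set Filter Topology Monoid.CoprodI
open scoped RealInnerProductSpace

namespace TMPx

theorem shift {P : ℝ → Prop} {τ c : ℝ} (h : ∀ᶠ x in 𝓝[<] (τ + c), P x) :
    ∀ᶠ x in 𝓝[<] τ, P (x + c) := by
  have : Tendsto (fun x : ℝ => x + c) (𝓝[<] τ) (𝓝[<] (τ + c)) :=
    tendsto_nhdsWithin_iff.2 ⟨((continuous_add_const c).tendsto τ).mono_left nhdsWithin_le_nhds,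
      eventually_mem_nhdsWithin.mono fun x hx => add_lt_add_left (mem_Iio.1 hx) c⟩
  exact this.eventually h

end TMPx

theorem p_TMP (hWINK : S_WINK) (hW5 : S_W5) :
    S_TMP := by
  intro G _ Q u d μ N k hS hG hd ⟨W, w1, w2, w3⟩
  classical
  choose a ha using hS.step
  have ho : ∀ τ : ℝ, ∃ τ1 : ℝ, (∃ τ' r : ℝ, 0 < r ∧ Q.γ τ' = Q.γ τ + r • d) →
      ∃ r : ℝ, 0 < r ∧ Q.γ τ1 = Q.γ τ + r • d := fun τ => by
    by_cases h : ∃ τ' r : ℝ, 0 < r ∧ Q.γ τ' = Q.γ τ + r • d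
    · obtain ⟨τ', h⟩ := h
      exact ⟨τ', fun _ => h⟩
    · exact ⟨0, fun h' => absurd h' h⟩
  choose o ho using ho
  set X := {θ | θ ∈ Xs Q d ∧ ∀ I ∈ W, ∀ w ∈ I, ∀ k : ℤ, θ + k * Q.n ∉ uIcc w.2.1 w.2.2} with hX
  have hf : X.Finite := (hW5 Q d hG).2.2.1.subset fun θ h => h.1
  refine ⟨W.image fun I => I.image fun w => μ w.2.1, hf.toFinset.image fun θ => (μ (o θ), a θ),
    Finset.card_image_le.trans w1,
    Finset.card_image_le.trans (by rwa [← ncard_eq_toFinset_card X hf]), fun s hs => ?_, hS.rc,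
    fun τ => ?_⟩
  · obtain ⟨I, hI, rfl⟩ := Finset.mem_image.1 hs
    refine ⟨Finset.card_image_le.trans (w2 I hI).2, fun x hx => ?_⟩
    obtain ⟨w, -, rfl⟩ := Finset.mem_image.1 hx
    exact ⟨_, rfl⟩
  obtain ⟨j, j1, j2⟩ := exists_shift Q.n_pos 0 τ
  rw [← hS.per τ j]
  refine ⟨a (τ + j * Q.n), (TMPx.shift (ha _).1).mono fun x hx => by rwa [hS.per] at hx, ?_⟩
  generalize τ + j * Q.n = θ at j1 j2
  by_cases h : ∃ τ' r : ℝ, 0 < r ∧ Q.γ τ' = Q.γ θ + r • d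
  swap
  · exact Or.inl ((ha θ).2.1 fun τ1 r hr e => h ⟨τ1, r, hr, e⟩)
  obtain ⟨r, hr, e⟩ := ho θ h
  have hc : μ θ = μ (o θ) * a θ * (μ (o θ))⁻¹ ∨ μ θ = (μ (o θ))⁻¹ * a θ * μ (o θ) :=
    ((ha θ).2.2 _ r hr e).2.2.2.imp And.right And.right
  refine Or.inr ⟨μ (o θ), ⟨_, rfl⟩, hc, ?_⟩
  by_cases hθ : θ ∈ X
  · exact Or.inl (Finset.mem_image.2 ⟨θ, hf.mem_toFinset.2 hθ, rfl⟩)
  have hx : θ ∈ Xs Q d := ⟨j1, by linarith, _, r, hr.ne', e⟩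
  have : ∃ I ∈ W, ∃ w ∈ I, ∃ k : ℤ, θ + k * Q.n ∈ uIcc w.2.1 w.2.2 := by
    by_contra hn
    exact hθ ⟨hx, fun I hI w hw k hk => hn ⟨I, hI, w, hw, k, hk⟩⟩
  obtain ⟨I, hI, w, hw, i, hi⟩ := this
  obtain ⟨w', hw', i', hi'⟩ := (w2 I hI).1.cl w hw _ hi (o θ) r hr.ne' (by rw [Q.γ_per, e])
  have key := hWINK G Q u d μ I
    (Subgroup.closure ((I.image fun w => μ w.2.1 : Finset G) : Set G)) hS hd (w2 I hI).1
    fun w hw => Subgroup.subset_closure (Finset.mem_coe.2 (Finset.mem_image.2 ⟨w, hw, rfl⟩))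
  have k1 := key w hw _ hi
  have k2 := key w' hw' _ hi'
  rw [hS.per] at k1 k2
  refine Or.inr ⟨_, Finset.mem_image.2 ⟨I, hI, rfl⟩, k2, ?_⟩
  rcases hc with c | c <;> rw [c] at k1
  · simpa [mul_assoc] using mul_mem (mul_mem (inv_mem k2) k1) k2
  · simpa [mul_assoc] using mul_mem (mul_mem k2 k1) (inv_mem k2)

end Pool.Agent.P.MP_28369d_gt.SB
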