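import Pool.Agent.P.MP_28369d_gt.ST.Iface4

/-! Step USED. -/

namespace Pool.Agent.P.MP_28369d_gt.SB

open Set Filter Topology Monoid.CoprodI
open scoped RealInnerProductSpace

namespace USEDx

variable {M : Bool → Type} [∀ i, Group (M i)]

theorem l0 {i : Bool} (m : M i) {g : FP M} (h : hd i g = 1) : suf g ⊆ suf (of m * g) := by
  by_cases hm : m = 1
  · rw [hm, map_one, one_mul]
  · rw [suf_mul hm h]; exact subset_insert _ _

theorem l1 {i : Bool} (m : M i) (w : FP M) : suf (of m * w) ⊆ insert (of m * w) (suf w) := by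
  obtain ⟨t, h, e⟩ := hd_dec i w
  generalize hd i w = a at e
  subst e
  rw [← mul_assoc, ← map_mul]
  by_cases hm : m * a = 1
  · rw [hm, map_one, one_mul]
    exact (l0 a h).trans (subset_insert _ _)
  · rw [suf_mul hm h]
    exact insert_subset_insert (l0 a h)

theorem l2 (g h : FP M) : ∀ t ∈ suf (g * h), t ∈ suf h ∨ ∃ s' ∈ suf g, t = s' * h := by
  induction g using fp_ind with
  | h1 => exact fun t ht => Or.inl (by rwa [one_mul] at ht)
  | h2 i m g _ b ih =>
    intro t ht
    rw [mul_assoc] at ht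
    rcases l1 m _ ht with e | ht
    · exact Or.inr ⟨_, self_mem_suf _, e.trans (mul_assoc _ _ _).symm⟩
    · exact (ih t ht).imp id fun ⟨s', a, c⟩ => ⟨s', l0 m b a, c⟩

theorem l3 {i j : Bool} (hij : j ≠ i) (g : FP M) : hd i g = 1 → hd j g = 1 → g = 1 := by
  induction g using fp_ind with
  | h1 => exact fun _ _ => rfl
  | h2 k m g a b _ =>
    intro h1 h2
    have : hd k (of m * g) = 1 := by
      cases i <;> cases j <;> cases k <;> first | exact h1 | exact h2 | exact absurd rfl hij
    rw [hd_mul, b, mul_one] at this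
    exact absurd this a

theorem l4 (g : FP M) : ∀ t ∈ suf g, t ≠ g → t ≠ 1 → ∀ j : Bool, ∃ m : M j, m ≠ 1 ∧
    of m * t ∈ suf g := by
  induction g using fp_ind with
  | h1 => exact fun t ht h _ => absurd (by rwa [suf_one] at ht) h
  | h2 i m g a b ih =>
    intro t ht h1 h2 j
    rw [suf_mul a b] at ht
    have ht := ht.resolve_left h1
    by_cases e : t = g
    · subst e
      by_cases hj : j = i
      · subst hj
        exact ⟨m, a, self_mem_suf _⟩
      · obtain ⟨u, hu, eu⟩ := hd_dec j t
        refine ⟨(hd j t)⁻¹, inv_ne_one.2 fun h => h2 (l3 hj t b h), l0 m b ?_⟩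
        generalize hd j t = c at eu
        subst eu
        rw [map_inv, inv_mul_cancel_left]
        exact l0 c hu (self_mem_suf u)
    · obtain ⟨m', c, d⟩ := ih t ht e h2 j
      exact ⟨m', c, l0 m b d⟩

end USEDx

theorem p_USED :
    S_USED := by
  intro M _ s H hH
  constructor
  · have fin : (suf (1 : FP M) ∪ ⋃ x ∈ (s : Set (FP M)), (suf x ∪ suf x⁻¹)).Finite :=
      (suf_finite _).union (s.finite_toSet.biUnion fun x _ => (suf_finite _).union (suf_finite _))
    refine (fin.image fun t : FP M => (t : FP M ⧸ H)).subset ?_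
    rintro _ ⟨h, hh, t, ht, rfl⟩
    have hh' := hH ▸ hh
    clear hh
    induction hh' using Subgroup.closure_induction'' generalizing t with
    | mem x hx => exact ⟨t, .inr (mem_biUnion hx (.inl ht)), rfl⟩
    | inv_mem x hx => exact ⟨t, .inr (mem_biUnion hx (.inr ht)), rfl⟩
    | one => exact ⟨t, .inl ht, rfl⟩
    | mul x y hx hy a b =>
      rcases USEDx.l2 x y t ht with c | ⟨s', c, rfl⟩
      · exact b t c
      · rw [QuotientGroup.mk_mul_of_mem s' (hH ▸ hy : y ∈ H)]
        exact a s' c
  · rintro _ ⟨h, hh, t, ht, rfl⟩ hx i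
    obtain ⟨m, a, b⟩ := USEDx.l4 h t ht (fun e => hx (by
      rw [e, ← one_mul h, QuotientGroup.mk_mul_of_mem _ hh])) (fun e => hx (by rw [e])) i
    exact ⟨m, a, h, hh, _, b, rfl⟩

end Pool.Agent.P.MP_28369d_gt.SB
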