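import Pool.Agent.P.MP_28369d_gt.ST.Iface4
import Pool.Agent.P.MP_28369d_gt.SB.TMAXG

/-! Step WINK. -/

namespace Pool.Agent.P.MP_28369d_gt.SB

open Set Filter Topology Monoid.CoprodI
open scoped RealInnerProductSpace

namespace WINKx

open MAXGx

theorem low {Q : Poly} {u : E} {ε : ℤ} {θ0 θ1 θ : ℝ} (h : Up Q u ε θ0 θ1) (hθ : θ ∈ uIcc θ0 θ1)
    (hn : θ ≠ θ0) : (∀ᶠ t in 𝓝[<] θ, t ∈ uIcc θ0 θ1 ∧ ⟪Q.γ t, u⟫ < ⟪Q.γ θ, u⟫) ∨
      ∀ᶠ t in 𝓝[>] θ, t ∈ uIcc θ0 θ1 ∧ ⟪Q.γ t, u⟫ < ⟪Q.γ θ, u⟫ := by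
  obtain ⟨i, j, i1, i2, j1, j2, -⟩ := edges θ
  obtain ⟨rfl | rfl, a, b⟩ := h
  · have l : θ0 < θ1 := by simpa using a
    rw [uIcc_of_le l.le] at hθ ⊢
    have c := hθ.1.lt_of_ne' hn
    have s := b j (lt_max_of_lt_right (j1.trans_le hθ.2)) (min_lt_of_left_lt (c.trans_le j2))
    refine Or.inl ?_
    filter_upwards [up_left Q (-u) j j1 j2 (by simpa using s), Ioo_mem_nhdsLT c] with t t1 t2
    exact ⟨⟨t2.1.le, t2.2.le.trans hθ.2⟩, by simpa using t1⟩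
  · have l : θ1 < θ0 := by simpa using a
    rw [uIcc_of_ge l.le] at hθ ⊢
    have c := hθ.2.lt_of_ne hn
    have s := b i (lt_max_of_lt_left (i1.trans_lt c)) (min_lt_of_right_lt (hθ.1.trans_lt i2))
    refine Or.inr ?_
    filter_upwards [up_right Q (-u) i i1 i2 (by simpa using s), Ioo_mem_nhdsGT c] with t t1 t2
    exact ⟨⟨hθ.1.trans t2.1.le, t2.2.le⟩, by simpa using t1⟩

end WINKx

open WINKx MAXGx in
theorem p_WINK :
    S_WINK := by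
  intro G _ Q u d μ I H W hd K hH
  by_contra hne
  push Not at hne
  obtain ⟨w', hw', t', ht', hb'⟩ := hne
  have hA : IsCompact (⋃ w ∈ I, uIcc w.2.1 w.2.2) :=
    I.isCompact_biUnion fun _ _ => isCompact_uIcc
  have hsub : closure {t | t ∈ (⋃ w ∈ I, uIcc w.2.1 w.2.2) ∧ μ t ∉ H} ⊆
      ⋃ w ∈ I, uIcc w.2.1 w.2.2 := closure_minimal (fun t ht => ht.1) hA.isClosed
  have hz : Continuous fun t => ⟪Q.γ t, u⟫ := Q.continuous_γ.inner continuous_const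
  obtain ⟨τ0, h0, hmin⟩ := (hA.of_isClosed_subset isClosed_closure hsub).exists_isMinOn
    ⟨t', subset_closure ⟨mem_biUnion hw' ht', hb'⟩⟩ hz.continuousOn
  have below : ∀ w ∈ I, ∀ t ∈ uIcc w.2.1 w.2.2, ⟪Q.γ t, u⟫ < ⟪Q.γ τ0, u⟫ → μ t ∈ H := by
    intro w hw t ht hl
    by_contra h
    exact absurd hl (not_lt.2 (hmin (subset_closure ⟨mem_biUnion hw ht, h⟩)))
  have side : ∀ w ∈ I, ∀ θ ∈ uIcc w.2.1 w.2.2, θ ≠ w.2.1 → ⟪Q.γ θ, u⟫ = ⟪Q.γ τ0, u⟫ → ∀ a,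
      (∀ᶠ t in 𝓝[<] θ, μ t = a) → a ∈ H ∨ μ θ ∈ H := by
    intro w hw θ hθ hn e a ha
    rcases low (K.up w hw) hθ hn with h | h
    · obtain ⟨t, a1, a2⟩ := (h.and ha).exists
      exact Or.inl (a2 ▸ below w hw t a1.1 (e ▸ a1.2))
    · obtain ⟨t, a1, a2⟩ := (h.and (W.rc θ)).exists
      exact Or.inr (a2 ▸ below w hw t a1.1 (e ▸ a1.2))
  obtain ⟨w, hw, hτ⟩ := mem_iUnion₂.1 (hsub h0)
  obtain ⟨a, ha, s1, s2⟩ := W.step τ0
  have hboth : μ τ0 ∈ H ∧ a ∈ H := by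
    by_cases hx : ∃ τ1 r : ℝ, 0 < r ∧ Q.γ τ1 = Q.γ τ0 + r • d
    · obtain ⟨τ1, r, r0, e1⟩ := hx
      obtain ⟨-, -, hloc, h⟩ := s2 τ1 r r0 e1
      obtain ⟨w1, hw1, k, hk⟩ := K.cl w hw τ0 hτ τ1 r r0.ne' e1
      have ez : ⟪Q.γ (τ1 + k * Q.n), u⟫ = ⟪Q.γ τ0, u⟫ := by
        rw [Q.γ_per, e1, inner_add_left, inner_smul_left, hd, mul_zero, add_zero]
      have n1 : τ1 + k * Q.n ≠ w1.2.1 := fun e => (K.nc w1 hw1).1 ⟨τ0, -r, neg_ne_zero.2 r0.ne', by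
        rw [← e, Q.γ_per, e1, neg_smul, add_neg_cancel_right]⟩
      have n0 : τ0 ≠ w.2.1 := fun e => (K.nc w hw).1 ⟨τ1, r, r0.ne', e ▸ e1⟩
      have hloc' : ∀ᶠ t in 𝓝 (τ1 + k * Q.n), μ t = μ τ1 := by
        have : Tendsto (fun t : ℝ => t - k * Q.n) (𝓝 (τ1 + k * Q.n)) (𝓝 τ1) :=
          (continuous_sub_right _).tendsto' _ _ (add_sub_cancel_right _ _)
        filter_upwards [this.eventually hloc] with t ht
        rw [← ht, ← W.per (t - k * Q.n) k, sub_add_cancel]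
      have h1 : μ τ1 ∈ H := (side w1 hw1 _ hk n1 ez _
        (hloc'.filter_mono nhdsWithin_le_nhds)).elim id fun h => W.per τ1 k ▸ h
      have hiff : μ τ0 ∈ H ↔ a ∈ H := by
        rcases h with ⟨-, h⟩ | ⟨-, h⟩
        · rw [h, H.mul_mem_cancel_right (H.inv_mem h1), H.mul_mem_cancel_left h1]
        · rw [h, H.mul_mem_cancel_right h1, H.mul_mem_cancel_left (H.inv_mem h1)]
      exact (side w hw τ0 hτ n0 rfl a ha).elim (fun h => ⟨hiff.2 h, h⟩) fun h => ⟨h, hiff.1 h⟩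
    · have e := s1 fun τ1 r r0 e => hx ⟨τ1, r, r0, e⟩
      rw [← e, and_self]
      by_cases n0 : τ0 = w.2.1
      · exact n0 ▸ hH w hw
      · exact (side w hw τ0 hτ n0 rfl a ha).elim (fun h => e ▸ h) id
  have hev : ∀ᶠ t in 𝓝 τ0, μ t ∈ H := by
    refine ev_nhds ?_ hboth.1 ?_
    · filter_upwards [ha] with t ht
      exact ht ▸ hboth.2
    · filter_upwards [W.rc τ0] with t ht
      exact ht ▸ hboth.1
  obtain ⟨t, ht, ht'⟩ := ((mem_closure_iff_frequently.1 h0).and_eventually hev).exists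
  exact ht.2 ht'

end Pool.Agent.P.MP_28369d_gt.SB
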