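import Pool.Agent.P.MP_28369d_gt.ST.FinT
import Pool.Agent.P.MP_28369d_gt.ST.TMUL1
import Pool.Agent.P.MP_28369d_gt.ST.TUSED
import Pool.Agent.P.MP_28369d_gt.ST.TCOC
import Pool.Agent.P.MP_28369d_gt.ST.TEUL
import Pool.Agent.P.MP_28369d_gt.ST.TCNT2
import Pool.Agent.P.MP_28369d_gt.ST.TSUBG
import Pool.Agent.P.MP_28369d_gt.ST.TDIR
import Pool.Agent.P.MP_28369d_gt.ST.TLK1
import Pool.Agent.P.MP_28369d_gt.ST.TLK2
import Pool.Agent.P.MP_28369d_gt.ST.TLK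
import Pool.Agent.P.MP_28369d_gt.ST.TCNJ
import Pool.Agent.P.MP_28369d_gt.ST.TTL1
import Pool.Agent.P.MP_28369d_gt.ST.TTL
import Pool.Agent.P.MP_28369d_gt.ST.TSQWK
import Pool.Agent.P.MP_28369d_gt.ST.TSQDK
import Pool.Agent.P.MP_28369d_gt.ST.TWINK
import Pool.Agent.P.MP_28369d_gt.ST.TTMP
import Pool.Agent.P.MP_28369d_gt.ST.TRZ1
import Pool.Agent.P.MP_28369d_gt.ST.TRZ2
import Pool.Agent.P.MP_28369d_gt.ST.TTLS
import Pool.Agent.P.MP_28369d_gt.ST.TTKK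

/-!
Sums with a torus knot of any type, without hypotheses.
-/

namespace Pool.Agent.P.MP_28369d_gt.SB

theorem q_TL : S_TL :=
  p_TL (p_TL1 (p_SUBG p_USED (p_EUL p_COC) p_CNT2 p_COC) p_MUL1 p_CNJ) p_DIR
    (p_LK (p_LK1 p_COC) p_LK2)

theorem q_TKK : S_TKK :=
  p_TKK q_CORE (p_SQ1 q_MOVE p_GD) p_SQ2 p_SQ3 (p_SQDK (p_SQWK p_SQX s_W5) p_XC s_W5) q_SW
    (p_TMP p_WINK s_W5) q_TL s_MAXG

theorem q_TLS : S_TLS := p_TLS p_VK q_SUM q_LINK (p_RZ1 p_HYP) p_RZ2 s_CONN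

/-- The main bound. -/
theorem finP (p m : ℕ) : ∃ C : ℕ, ∀ (q : ℤ) (J K : Set E), 2 ≤ p → IsCoprime (p : ℤ) q →
    C < q.natAbs → ConnSum (torus p q) J K → (∀ Q : Poly, Iso K Q.carrier → LB Q m) →
    m + p ≤ sb K := by
  obtain ⟨C, hC⟩ := q_TKK p m
  refine ⟨max C p, fun q J K hp hc hq hs hL => ?_⟩
  obtain ⟨-, -, P, -, -, -, -, i0, -⟩ := id hs
  exact hC _ K P hp (by omega) i0 (q_TLS p q J K (by omega) (by omega) hc hs) hL

theorem finPB (p m : ℕ) : ∃ C : ℕ, ∀ (q : ℤ) (J K : Set E), 2 ≤ p → IsCoprime (p : ℤ) q →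
    (C : ℤ) < |q| → (ConnSum (torus p q) J K ∨ ConnSum J (torus p q) K) → m ≤ br K →
    m + p ≤ sb K := by
  obtain ⟨C, hC⟩ := finP p m
  refine ⟨C, fun q J K hp hc hq hs hm => ?_⟩
  rw [Int.abs_eq_natAbs] at hq
  exact hC q J K hp hc (by omega) (hs.elim id (p_SYM _ _ _))
    fun Q hQ R hR v hv => hm.trans (lb_br hQ R hR v hv)

/-- Lower bound for the sum of a torus knot and a knot with a reflection representation. -/
theorem finPG (p n : ℕ) : ∃ C : ℕ, ∀ (q : ℤ) (J K : Set E), 2 ≤ p → IsCoprime (p : ℤ) q →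
    C < q.natAbs → RefOne J n → ConnSum (torus p q) J K → 2 * p + n ≤ sb K + 1 := by
  obtain ⟨C, hC⟩ := finP p (p + n - 1)
  refine ⟨max C p, fun q J K hp hc hq hJ hs => ?_⟩
  obtain ⟨P1, -, -, -, -, i1, -⟩ := id hs
  have h1 := p_TREF p_VK p_HYP p q (by omega) (by omega) hc (compl_good s_CONN i1).2
  have h2 := hC q J K hp hc (by omega) hs fun Q a R b u c => by
    have := q_GLUE _ _ _ _ _ h1 hJ hs R u (a.trans b) c
    omega
  omega

theorem finPP (p : ℕ) : ∃ C : ℕ, ∀ (p' : ℕ) (q q' : ℤ) (K : Set E), 2 ≤ p' → p' ≤ 2 * p - 2 →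
    IsCoprime (p : ℤ) q → IsCoprime (p' : ℤ) q' → (C : ℤ) < |q| → (p' : ℤ) ≤ |q'| →
    (ConnSum (torus p q) (torus p' q') K ∨ ConnSum (torus p' q') (torus p q) K) →
    max (sb (torus p q)) (sb (torus p' q')) < sb K := by
  choose C hC using finPG p
  refine ⟨(Finset.range (2 * p)).sup C, fun p' q q' K h2 hpp hc hc' hq hq' hs => ?_⟩
  have hs' : ConnSum (torus p q) (torus p' q') K := hs.elim id (p_SYM _ _ _)
  obtain ⟨-, P2, -, -, -, -, i2, -⟩ := id hs'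
  rw [Int.abs_eq_natAbs] at hq hq'
  have h0 : C p' ≤ (Finset.range (2 * p)).sup C :=
    Finset.le_sup (f := C) (Finset.mem_range.2 (by omega))
  have h1 := p_TREF p_VK p_HYP p' q' (by omega) (by omega) hc' (compl_good s_CONN i2).2
  have h3 := hC p' q _ K (by omega) hc (by omega) h1.one hs'
  have h4 := q_UB p q (by omega) hc
  have h5 := q_UB p' q' (by omega) hc'
  omega

theorem finPA (p : ℕ) : ∃ C : ℕ, ∀ (q : ℤ) (J K : Set E), 2 ≤ p → IsCoprime (p : ℤ) q →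
    (C : ℤ) < |q| → U2Rep J → (ConnSum (torus p q) J K ∨ ConnSum J (torus p q) K) →
    sb (torus p q) < sb K := by
  obtain ⟨C, hC⟩ := finPG p 2
  refine ⟨C, fun q J K hp hc hq hJ hs => ?_⟩
  have hs' : ConnSum (torus p q) J K := hs.elim id (p_SYM _ _ _)
  obtain ⟨-, P2, -, -, -, -, i2, -⟩ := id hs'
  rw [Int.abs_eq_natAbs] at hq
  have h1 := p_UREF s_F0 s_CONN q_LINK p_MONO p_U2A J P2 i2 hJ
  have h2 := hC q J K hp hc (by omega) h1 hs'
  have h4 := q_UB p q (by omega) hc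
  omega

end Pool.Agent.P.MP_28369d_gt.SB
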