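import Pool.Agent.P.MP_28369d_gt.ST.Iface3
import Pool.Agent.P.MP_28369d_gt.SB.FinC

/-! Step E2. -/

namespace Pool.Agent.P.MP_28369d_gt.SB

open Set Filter Topology
open scoped RealInnerProductSpace

theorem p_E2 (hT3L : S_T3L) :
    S_E2 := by
  intro m
  obtain ⟨N, hN⟩ := p_ACORE m
  obtain ⟨S, h1, h2⟩ := p_FIN N
  obtain ⟨C0, hC0⟩ := hT3L m
  have key : ∀ R : Poly, ∃ c : ℕ, LB R m → sb R.carrier ≤ m + 2 → ∀ T : Finset ℂ,
      (∀ t ∈ T, AffL R.carrier t) → T.card ≤ c := by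
    intro R
    by_cases hR : LB R m ∧ sb R.carrier ≤ m + 2
    · obtain ⟨D, -, ⟨k, D0, e1, e2⟩, d3⟩ := hC0 R hR.1 hR.2
      have hD : D ≠ 0 := by
        intro c
        have := congrArg (Polynomial.eval 1) (e1.symm.trans c)
        simp [e2] at this
      refine ⟨(D.map (algebraMap ℤ ℂ)).natDegree, fun _ _ T hT =>
        Polynomial.card_le_degree_of_subset_roots fun t ht => ?_⟩
      exact Polynomial.mem_aroots.2 ⟨hD, d3 t (hT t ht)⟩
    · exact ⟨0, fun a b => absurd ⟨a, b⟩ hR⟩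
  choose c hc using key
  refine ⟨h1.toFinset.sup c, fun P T hL hT hA => ?_⟩
  by_contra hlt
  obtain ⟨Q, q1, q2⟩ := exists_sb (Iso.refl P.carrier)
  obtain ⟨R, r1, r2⟩ := hN Q (fun R hR => hL R (q1.trans hR)) fun u => (q2 u).trans (by omega)
  obtain ⟨W, e1, e2⟩ := h2 R r1
  have hi : Iso P.carrier W.carrier := (q1.trans r2).trans e2
  have := hc W (fun R hR => hL R (hi.trans hR)) (by rw [← sb_iso hi]; omega) T
    fun t ht => (hA t ht).iso hi
  exact absurd (this.trans (Finset.le_sup (f := c) (h1.mem_toFinset.2 e1))) hT.not_ge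

end Pool.Agent.P.MP_28369d_gt.SB
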