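import Pool.Agent.P.MP_28369d_gt.ST.Iface3

/-! Step FOUR. -/

namespace Pool.Agent.P.MP_28369d_gt.SB

open Set Filter Topology
open scoped RealInnerProductSpace

namespace FOURx

open Polynomial

theorem ne {D : Polynomial ℤ} {l : ℕ} {w : ℂ} (hl : (l.Prime ∧ l ≠ 2) ∨ l = 4)
    (hw : IsPrimitiveRoot w l) (hD : Nrm D) : aeval w D ≠ 0 := by
  obtain ⟨k, D0, rfl, h1⟩ := hD
  have hl2 : 2 < l := by
    rcases hl with ⟨h, h'⟩ | rfl
    · have := h.two_le
      omega
    · norm_num
  rw [map_mul, map_pow, map_add, map_one, aeval_X]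
  refine mul_ne_zero (pow_ne_zero _ fun h => ?_) fun h => ?_
  · have h2 : w ^ 2 = 1 := by
      rw [eq_neg_of_add_eq_zero_right h]
      norm_num
    exact absurd (Nat.le_of_dvd two_pos (hw.dvd_of_pow_eq_one 2 h2)) (by omega)
  · have h2 := minpoly.isIntegrallyClosed_dvd (hw.isIntegral (by omega)) h
    rw [← cyclotomic_eq_minpoly hw (by omega)] at h2
    have h3 := eval_dvd (x := (1 : ℤ)) h2
    rw [h1] at h3
    rcases hl with ⟨h4, -⟩ | rfl
    · have := Fact.mk h4
      rw [eval_one_cyclotomic_prime] at h3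
      have := Int.le_of_dvd one_pos h3
      omega
    · have h4 := eval_one_cyclotomic_prime_pow (R := ℤ) (p := 2) 1
      norm_num at h4
      rw [h4] at h3
      norm_num at h3

end FOURx

theorem p_FOUR :
    S_FOUR := by
  classical
  intro D l n w hl hn hw hD h
  have h0 := FOURx.ne hl hw hD
  have hζ := Complex.isPrimitiveRoot_exp n hn.ne'
  set ζ := Complex.exp (2 * Real.pi * Complex.I / n)
  have key : Finset.range n ⊆ D.support.image (· % n) := by
    intro j hj
    have hj' := Finset.mem_range.1 hj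
    by_contra hc
    apply h0
    have h1 : ∑ i ∈ Finset.range n, ζ ^ (i * (n - j)) * Polynomial.aeval (w * ζ ^ i) D =
        Polynomial.aeval w D := by
      rw [Finset.sum_eq_single_of_mem 0 (Finset.mem_range.2 hn)]
      · simp
      · intro i hi hi0
        rw [h (ζ ^ i) (by rw [← pow_mul, mul_comm, pow_mul, hζ.pow_eq_one, one_pow])
          (hζ.pow_ne_one_of_pos_of_lt hi0 (Finset.mem_range.1 hi)), mul_zero]
    rw [← h1]
    simp only [Polynomial.aeval_def, Polynomial.eval₂_eq_sum, Polynomial.sum_def, Finset.mul_sum]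
    rw [Finset.sum_comm]
    refine Finset.sum_eq_zero fun e he => ?_
    have h2 : ζ ^ (e + (n - j)) ≠ 1 := by
      intro h3
      obtain ⟨c, hc'⟩ := (hζ.pow_eq_one_iff_dvd _).1 h3
      refine hc (Finset.mem_image.2 ⟨e, he, ?_⟩)
      have h4 : (e + n) % n = (j + n * c) % n := by
        congr 1
        omega
      rwa [Nat.add_mod_right, Nat.add_mul_mod_self_left, Nat.mod_eq_of_lt hj'] at h4
    have h3 : ∑ i ∈ Finset.range n, (ζ ^ (e + (n - j))) ^ i = 0 := by
      rw [geom_sum_eq h2, ← pow_mul, mul_comm, pow_mul, hζ.pow_eq_one, one_pow, sub_self, zero_div]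
    calc _ = algebraMap ℤ ℂ (D.coeff e) * w ^ e * ∑ i ∈ Finset.range n, (ζ ^ (e + (n - j))) ^ i := by
          rw [Finset.mul_sum]
          exact Finset.sum_congr rfl fun i _ => by ring
      _ = 0 := by rw [h3, mul_zero]
  simpa using (Finset.card_le_card key).trans Finset.card_image_le

end Pool.Agent.P.MP_28369d_gt.SB
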