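import Pool.Agent.P.MP_28369d_gt.ST.Iface3

/-! Step GLUE. -/

namespace Pool.Agent.P.MP_28369d_gt.SB

open Set Filter Topology
open scoped RealInnerProductSpace

theorem p_GLUE (hSUM : S_SUM) (hBRN : S_BRN) (hPRG : S_PRG) :
    S_GLUE := by
  rintro K1 K2 K n1 n2 ⟨G1, _, ω1, l1, f1, r1⟩ ⟨G2, _, ω2, l2, f2, r2⟩ hs Q u hi hu
  obtain ⟨m1, m2, a1, a2, a3⟩ := hSUM G1 G2 ω1 ω2 K1 K2 K hs l1 f1 l2 f2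
  obtain ⟨s, s0, s1, b2⟩ := r2 m2 a2
  obtain ⟨V, _, _, _, φ1, φ2, β, c1, c2, c3, c4⟩ :=
    hPRG G1 G2 m1 m2 n1 n2 s s1 (r1 m1 a1 s s0 s1) b2
  obtain ⟨ω, w1, w2, w3⟩ := a3 _ φ1 φ2 c2
  rw [← c1]
  refine hBRN V ω K (φ1 m1) s w1 w2 c3 (fun H hH => ?_) Q u hi hu
  obtain ⟨g, g1, g2⟩ := w3 H hH
  refine ⟨g.1 β, fun v hv => ?_⟩
  have key : ∀ σ : (Module.End ℂ V)ˣ, g * σ * g⁻¹ ∈ H → σ.1 (g⁻¹.1 v) = g⁻¹.1 v := by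
    intro σ hσ
    have := hv _ hσ
    rw [un_mul, un_mul] at this
    rw [← un_inv' g (σ.1 _), this]
  obtain ⟨c, hc⟩ := c4 (g⁻¹.1 v) (fun d => key _ (g1 d)) fun d => key _ (g2 d)
  exact ⟨c, by rw [← map_smul, ← hc, un_inv]⟩

end Pool.Agent.P.MP_28369d_gt.SB
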