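import Pool.Agent.P.MP_28369d_gt.ST.Iface3

/-! Step HYP. -/

namespace Pool.Agent.P.MP_28369d_gt.SB

open Set Filter Topology
open scoped RealInnerProductSpace

namespace HYPx

open Polynomial

variable {p : ℕ} {g : ℂ[X]}

noncomputable def R (hg : g.Monic) (hd : g.degree = p) : ℂ[X] →ₗ[ℂ] degreeLT ℂ p :=
  (modByMonicHom g).codRestrict _ fun q => mem_degreeLT.2 (hd ▸ degree_modByMonic_lt q hg)

noncomputable def T (hg : g.Monic) (hd : g.degree = p) : Module.End ℂ (degreeLT ℂ p) :=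
  R hg hd ∘ₗ LinearMap.mulLeft ℂ X ∘ₗ (degreeLT ℂ p).subtype

theorem R_eq (hg : g.Monic) (hd : g.degree = p) {q : ℂ[X]} {v : degreeLT ℂ p} (h : g ∣ q - v.1) :
    R hg hd q = v :=
  Subtype.ext ((modByMonic_eq_of_dvd_sub hg h).trans
    ((modByMonic_eq_self_iff hg).2 (hd ▸ mem_degreeLT.1 v.2)))

theorem T_pow (hg : g.Monic) (hd : g.degree = p) (k : ℕ) (v : degreeLT ℂ p) :
    g ∣ X ^ k * v.1 - ((T hg hd ^ k) v).1 := by
  induction k with
  | zero => simp
  | succ k ih =>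
    rw [pow_succ' (T hg hd), Module.End.mul_apply]
    set w := (T hg hd ^ k) v
    have e : (T hg hd w).1 = X * w.1 - g * (X * w.1 /ₘ g) := modByMonic_eq_sub_mul_div _ _
    have : X ^ (k + 1) * v.1 - (T hg hd w).1 = X * (X ^ k * v.1 - w.1) + g * (X * w.1 /ₘ g) := by
      rw [e]; ring
    rw [this]
    exact dvd_add (ih.mul_left _) (dvd_mul_right _ _)

theorem T_scal (hg : g.Monic) (hd : g.degree = p) {k : ℕ} {c : ℂ} (h : g ∣ X ^ k - C c) :
    T hg hd ^ k = algebraMap ℂ _ c := by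
  ext1 v
  rw [← R_eq hg hd (T_pow hg hd k v)]
  refine R_eq hg hd ?_
  have : X ^ k * v.1 - ((algebraMap ℂ (Module.End ℂ (degreeLT ℂ p)) c) v).1 =
      (X ^ k - C c) * v.1 := by
    rw [Module.algebraMap_end_apply, Submodule.coe_smul, smul_eq_C_mul]; ring
  exact this ▸ h.mul_right _

theorem T_val (hg : g.Monic) (hd : g.degree = ((p + 1 : ℕ) : WithBot ℕ))
    (v : degreeLT ℂ (p + 1)) : (T hg hd v).1 = X * v.1 - v.1.coeff p • g := by
  have hm : X * v.1 - v.1.coeff p • g ∈ degreeLT ℂ (p + 1) := by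
    rw [mem_degreeLT, degree_lt_iff_coeff_zero]
    intro m hm
    obtain ⟨m, rfl⟩ : ∃ m', m = m' + 1 := ⟨m - 1, by omega⟩
    rw [coeff_sub, coeff_X_mul, coeff_smul]
    rcases (show p = m ∨ p + 1 ≤ m by omega) with rfl | h
    · have := hg.coeff_natDegree
      rw [natDegree_eq_of_degree_eq_some hd] at this
      simp [this]
    · rw [(degree_lt_iff_coeff_zero _ _).1 (mem_degreeLT.1 v.2) m h,
        coeff_eq_zero_of_degree_lt (p := g) (by rw [hd]; exact_mod_cast (by omega))]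
      simp
  exact congrArg Subtype.val (R_eq hg hd (q := X * v.1) (v := ⟨_, hm⟩)
    (by rw [sub_sub_cancel, smul_eq_C_mul]; exact dvd_mul_left _ _))

theorem poly {p n : ℕ} (hn : 0 < n) (h : p ≤ n) :
    ∃ g : ℂ[X], g.Monic ∧ g.degree = p ∧ g ∣ X ^ n - C 1 := by
  refine ⟨∏ j ∈ Finset.range p, (X - C (Complex.exp (2 * Real.pi * Complex.I / n) ^ j * 1)),
    monic_prod_of_monic _ _ fun j _ => monic_X_sub_C _, ?_, ?_⟩
  · simp only [degree_prod, degree_X_sub_C]; simp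
  · rw [X_pow_sub_C_eq_prod (Complex.isPrimitiveRoot_exp n hn.ne') hn (one_pow n)]
    exact Finset.prod_dvd_prod_of_subset _ _ _ (Finset.range_mono h)

end HYPx

open Polynomial HYPx in
theorem p_HYP :
    S_HYP := by
  intro p n t hp hn h0 h1
  obtain ⟨p, rfl⟩ : ∃ p', p = p' + 1 := ⟨p - 1, by omega⟩
  obtain ⟨g, hg, hd, hdv⟩ := poly (hp.trans_le hn) hn
  have g0 : g.coeff 0 ≠ 0 := by
    intro e
    obtain ⟨q, hq⟩ := hdv
    have := congrArg (fun r => coeff r 0) hq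
    simp [e, coeff_X_pow, coeff_one, (hp.trans_le hn).ne] at this
  have hκ : -g.coeff 0 / t ≠ 0 := div_ne_zero (neg_ne_zero.2 g0) h0
  set κ := -g.coeff 0 / t with hk
  have gk : g.coeff 0 = -(κ * t) := by rw [hk]; field_simp
  have hh : (X ^ (p + 1) - C κ : ℂ[X]).Monic := monic_X_pow_sub_C κ hp.ne'
  have hhd : (X ^ (p + 1) - C κ : ℂ[X]).degree = ((p + 1 : ℕ) : WithBot ℕ) :=
    degree_X_pow_sub_C hp κ
  have hc : (X ^ (p + 1) - C κ : ℂ[X]).coeff 0 = -κ := by simp [coeff_X_pow]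
  have a1 := T_scal hh hhd dvd_rfl
  have b1 := T_scal hg hd hdv
  obtain ⟨A, hA⟩ : IsUnit (T hh hhd) :=
    (isUnit_pow_iff hp.ne').1 (a1 ▸ (Ne.isUnit hκ).map (algebraMap ℂ _))
  obtain ⟨B, hB⟩ : IsUnit (T hg hd) :=
    (isUnit_pow_iff (hp.trans_le hn).ne').1 (b1 ▸ isUnit_one.map (algebraMap ℂ _))
  have hα : X ^ (p + 1) - C κ - g ∈ degreeLT ℂ (p + 1) := mem_degreeLT.2 (hhd ▸
    degree_sub_lt_left (hhd.trans hd.symm) hh.ne_zero (by rw [hh.leadingCoeff, hg.leadingCoeff]))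
  have key : ∀ w, B.1 w = A.1 w + w.1.coeff p • ⟨_, hα⟩ := fun w => Subtype.ext (by
    rw [hA, hB, Submodule.coe_add, Submodule.coe_smul, T_val, T_val, smul_sub _ _ g]; ring)
  refine ⟨degreeLT ℂ (p + 1), inferInstance, inferInstance, inferInstance, A, B, Units.mk0 κ hκ,
    by simp [(degreeLTEquiv ℂ (p + 1)).finrank_eq], Units.ext ?_, Units.ext ?_,
    ⟨lcoeff ℂ p ∘ₗ (degreeLT ℂ (p + 1)).subtype ∘ₗ A⁻¹.1, ⟨_, hα⟩, fun v => ?_, ?_⟩,
    fun v c ha hb => ?_⟩
  · rw [Units.val_pow_eq_pow_val, hA, a1]; rfl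
  · rw [Units.val_pow_eq_pow_val, hB, b1, map_one]; rfl
  · rw [un_mul, key, un_inv]; rfl
  · have := congrArg (fun r : degreeLT ℂ (p + 1) => r.1.coeff 0) (un_inv A ⟨_, hα⟩)
    simp only [hA, T_val, coeff_sub, coeff_smul, gk, mul_coeff_zero, coeff_X_zero,
      coeff_X_pow, coeff_C_zero] at this
    refine mul_left_cancel₀ hκ ?_
    simp only [LinearMap.comp_apply, lcoeff_apply, Submodule.subtype_apply]
    simp only [Nat.zero_ne_add_one, if_false, smul_eq_mul] at this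
    linear_combination this
  · have e := key v
    rw [ha, hb, left_eq_add] at e
    have e0 := congrArg (fun r : degreeLT ℂ (p + 1) => r.1.coeff 0) e
    simp only [Submodule.coe_smul, coeff_smul, smul_eq_mul, Submodule.coe_zero, coeff_zero] at e0
    have top : v.1.coeff p = 0 := by
      refine (mul_eq_zero.1 e0).resolve_right ?_
      rw [coeff_sub, hc, gk, show -κ - -(κ * t) = κ * (t - 1) by ring]
      exact mul_ne_zero hκ (sub_ne_zero.2 h1)
    have e1 := congrArg Subtype.val ha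
    rw [hA, T_val, top, zero_smul, sub_zero, Submodule.coe_smul, smul_eq_C_mul, ← sub_eq_zero,
      ← sub_mul] at e1
    exact Subtype.ext ((mul_eq_zero.1 e1).resolve_left (X_sub_C_ne_zero c))

end Pool.Agent.P.MP_28369d_gt.SB
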