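import Pool.Agent.P.MP_28369d_gt.ST.Iface3
import Pool.Agent.P.MP_28369d_gt.SB.Iface

/-! Step LINK. -/

namespace Pool.Agent.P.MP_28369d_gt.SB

open Set Filter Topology
open scoped RealInnerProductSpace

theorem p_LINK (hBARG : S_BARG) (hCONN : S_CONN) :
    S_LINK := by
  intro K P hK
  obtain ⟨Z, h1, c, θ, h2, h3, h4, h5, h6⟩ := hBARG P
  obtain ⟨o1, o2⟩ := compl_good hCONN (Iso.refl P.carrier)
  obtain ⟨ω, a, b⟩ := czs o1 o2 h1 h2 h3 h4 h5 h6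
  obtain ⟨g, rfl⟩ := hK.symm.homeo
  exact ⟨push g ω, compl_push g _ ▸ a.push g, compl_push g _ ▸ b.push g⟩

end Pool.Agent.P.MP_28369d_gt.SB
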