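import Pool.Agent.P.MP_28369d_gt.ST.Iface3
import Pool.Agent.P.MP_28369d_gt.SB.TBR3

/-! Step MERC. -/

namespace Pool.Agent.P.MP_28369d_gt.SB

open Set Filter Topology
open scoped RealInnerProductSpace

namespace MERCx

theorem zp {G : Type} [Group G] {g a b : G} (h : g * a * g⁻¹ ∈ Subgroup.zpowers b) (c : G) :
    c * a * c⁻¹ ∈ Subgroup.zpowers (c * g⁻¹ * b * (c * g⁻¹)⁻¹) := by
  obtain ⟨k, hk⟩ := h
  refine ⟨k, ?_⟩
  change _ ^ k = _ at hk ⊢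
  rw [conj_zpow, hk]
  group

end MERCx

theorem p_MERC (hGD : S_GD) (hWIRT : S_WIRT) (hMAXG : S_MAXG) :
    S_MERC := by
  intro G _ ω P m C hl hf hC hCP hm
  obtain ⟨Q', h, μ, X, -, hh, -, hw, hr⟩ := BR3x.com hGD hWIRT BR3x.ne one_pos (Iso.refl _) hl
  obtain ⟨Y, hY, hy⟩ := BR3x.exc hw
  have hc := (hMAXG _ _ Q' _ 0 μ X hw).1
  have htop := hf.top P.isCompact _ hr
  have key : ∀ x ∈ P.carrier, x ∉ h.symm '' Y → ∃ τ, IsMer ω P.carrier x (μ τ) := by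
    intro x hx hxY
    obtain ⟨τ, hτ⟩ := Q'.mem_carrier.1 (hh ▸ mem_image_of_mem h hx)
    have := (hy τ fun e => hxY ⟨_, e, by rw [hτ, h.symm_apply_apply]⟩).push h.symm
    rw [push_symm, ← hh, ← image_comp, h.symm_comp_self, image_id, hτ, h.symm_apply_apply] at this
    exact ⟨τ, this⟩
  obtain ⟨c, c1, c2⟩ := (hC.sdiff (hY.image h.symm)).nonempty
  obtain ⟨τ0, k0⟩ := key c (hCP c1) c2
  obtain ⟨g1, e1⟩ := (hm c c1).conj k0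
  have all : ∀ τ, ∃ g, μ τ ∈ Subgroup.zpowers (g * m * g⁻¹) := by
    intro τ
    obtain ⟨k, hk⟩ := isConj_iff.1 (hc τ0 τ)
    exact ⟨_, hk ▸ MERCx.zp e1 k⟩
  refine ⟨⟨?_, ?_⟩, h.symm '' Y, hY.image _, fun x hx hxY => ?_⟩
  · rw [eq_top_iff, ← htop, Subgroup.closure_le]
    rintro _ ⟨τ, rfl⟩
    obtain ⟨g, hg⟩ := all τ
    have h1 : m ∈ Subgroup.normalClosure ({m} : Set G) :=
      Subgroup.subset_normalClosure (mem_singleton m)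
    have h2 : g * m * g⁻¹ ∈ Subgroup.normalClosure ({m} : Set G) :=
      Subgroup.normalClosure_normal.conj_mem m h1 g
    exact Subgroup.zpowers_le.2 h2 hg
  · rintro m' ⟨X', x1, x2⟩
    obtain ⟨c', d1, d2⟩ := (hC.sdiff x1).nonempty
    obtain ⟨N, n1, g, n2⟩ := x2 c' (hCP d1) d2
    obtain ⟨g', e⟩ := (hm c' d1).2 N n1 _ n2
    refine ⟨g⁻¹ * g', ?_⟩
    have := MERCx.zp e (g⁻¹ * g')
    rwa [show g⁻¹ * g' * g'⁻¹ * (g * m' * g⁻¹) * (g⁻¹ * g' * g'⁻¹)⁻¹ = m' by group] at this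
  · obtain ⟨τ, ⟨N, n1, n2⟩, -⟩ := key x hx hxY
    obtain ⟨g, hg⟩ := all τ
    exact ⟨N, n1, g, n2.le (Subgroup.zpowers_le.2 hg)⟩

end Pool.Agent.P.MP_28369d_gt.SB
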