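import Pool.Agent.P.MP_28369d_gt.ST.Iface3

/-! Step MONO. -/

namespace Pool.Agent.P.MP_28369d_gt.SB

open Set Filter Topology
open scoped RealInnerProductSpace

namespace MONOx

variable {G : Type} [Group G] {ω : E → E → G} {U : Set E} {p0 : E}

/-- the component of the base point in the covering space -/
def S0 (ω : E → E → G) (U : Set E) (p0 p : E) (g : G) : Prop :=
  ∀ S, Inv ω U S → S p0 1 → S p g

theorem ball (hU : IsOpen U) (hω : LocSys ω U) {p : E} (hp : p ∈ U) :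
    ∃ B, IsOpen B ∧ p ∈ B ∧ B ⊆ U ∧ IsPreconnected B ∧ ∃ f, Dev ω B f := by
  obtain ⟨N, h1, h2, f, h3⟩ := hω p hp
  obtain ⟨ε, hε, hb⟩ := Metric.isOpen_iff.1 (h1.inter hU) p ⟨h2, hp⟩
  exact ⟨Metric.ball p ε, Metric.isOpen_ball, Metric.mem_ball_self hε, fun x hx => (hb hx).2,
    (convex_ball p ε).isPreconnected, f, h3.mono fun x hx => (hb hx).1⟩

theorem inv0 (hU : IsOpen U) (hω : LocSys ω U) : Inv ω U (S0 ω U p0) := by
  intro p hp
  obtain ⟨B, h1, h2, h3, h4, f, h5⟩ := ball hU hω hp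
  filter_upwards [h1.mem_nhds h2, h5 p h2] with y a b g
  refine forall_congr' fun S => forall_congr' fun hS => imp_congr_right fun _ => ?_
  have := (hS.mono h3).dev h5 h4 h2 a (g * (f p)⁻¹)
  rw [b] at this
  simpa [mul_assoc] using this

theorem inv_tr {S : E → G → Prop} (hS : Inv ω U S) (h : G) :
    Inv ω U (fun p g => S p (h * g)) := fun p hp => by
  filter_upwards [hS p hp] with y a g
  rw [a, mul_assoc]

theorem inv_not {S : E → G → Prop} (hS : Inv ω U S) : Inv ω U (fun p g => ¬ S p g) :=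
  fun p hp => by
    filter_upwards [hS p hp] with y a g
    rw [a]

theorem s0_mul {h g : G} {p : E} (hh : S0 ω U p0 p0 h) (hg : S0 ω U p0 p g) :
    S0 ω U p0 p (h * g) := fun S hS h1 =>
  hg (fun p g => S p (h * g)) (inv_tr hS h) (by simpa using hh S hS h1)

theorem s0_div (h0 : Inv ω U (S0 ω U p0)) {g g' : G} {p : E} (hg : S0 ω U p0 p g)
    (hg' : S0 ω U p0 p g') : S0 ω U p0 p0 (g' * g⁻¹) := by
  by_contra hc
  have := hg (fun x k => ¬ S0 ω U p0 x (g' * g⁻¹ * k)) (inv_not (inv_tr h0 _)) (by simpa using hc)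
  exact this (by simpa using hg')

/-- the monodromy group -/
def mon (h0 : Inv ω U (S0 ω U p0)) : Subgroup G where
  carrier := {h | S0 ω U p0 p0 h}
  one_mem' := fun _ _ h => h
  mul_mem' := fun a b => s0_mul a b
  inv_mem' := fun {x} a => by
    have := s0_div h0 (g := x) (g' := 1) a fun _ _ h => h
    rwa [one_mul] at this

open Classical in
/-- a retraction to a subgroup -/
noncomputable def pr (H : Subgroup G) (g : G) : H := if h : g ∈ H then ⟨g, h⟩ else 1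

theorem pr_coe {H : Subgroup G} {g : G} (h : g ∈ H) : (pr H g : G) = g := by
  rw [pr, dif_pos h]

theorem pr_mul {H : Subgroup G} {g g' : G} (h : g ∈ H) (h' : g' ∈ H) :
    pr H (g * g') = pr H g * pr H g' :=
  Subtype.ext (by rw [Subgroup.coe_mul, pr_coe h, pr_coe h', pr_coe (H.mul_mem h h')])

theorem pr_self {H : Subgroup G} (g : H) : pr H g = g := Subtype.ext (pr_coe g.2)

end MONOx

open MONOx in
theorem p_MONO :
    S_MONO := by
  intro G _ ω U hU hc ⟨p0, hp0⟩ hω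
  have h0 : Inv ω U (S0 ω U p0) := inv0 hU hω
  have hex : ∀ p, ∃ g, p ∈ U → S0 ω U p0 p g := by
    intro p
    by_cases hp : p ∈ U
    · have := const_of_ev' (F := fun x => ∃ g, S0 ω U p0 x g) hc (fun x hx => ?_) hp0 hp
      · obtain ⟨g, hg⟩ := (iff_of_eq this).1 ⟨1, fun _ _ h => h⟩
        exact ⟨g, fun _ => hg⟩
      · filter_upwards [h0 x hx] with y a
        rw [eq_iff_iff]
        exact ⟨fun ⟨g, hg⟩ => ⟨g * (ω x y)⁻¹, (a _).2 (by simpa using hg)⟩,
          fun ⟨g, hg⟩ => ⟨_, (a g).1 hg⟩⟩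
    · exact ⟨1, fun h => absurd h hp⟩
  choose τ hτ using hex
  have key : ∀ p ∈ U, ∀ᶠ y in 𝓝 p, τ p * ω p y * (τ y)⁻¹ ∈ mon h0 := fun p hp => by
    filter_upwards [h0 p hp, hU.mem_nhds hp] with y a b
    exact s0_div h0 (hτ y b) ((a _).1 (hτ p hp))
  refine ⟨mon h0, fun p y => pr (mon h0) (τ p * ω p y * (τ y)⁻¹), fun p hp => ?_,
    FullAt.full (p := p0) ?_ hp0 hc, τ, key⟩
  · obtain ⟨B, h1, h2, h3, h4, f, h5⟩ := ball hU hω hp
    have hm : ∀ x ∈ B, τ p * (f p)⁻¹ * f x * (τ x)⁻¹ ∈ mon h0 := fun x hx =>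
      s0_div h0 (hτ x (h3 hx))
        (((h0.mono h3).dev h5 h4 h2 hx (τ p * (f p)⁻¹)).1 (by simpa using hτ p hp))
    refine ⟨B, h1, h2, fun x => pr (mon h0) (τ p * (f p)⁻¹ * f x * (τ x)⁻¹), fun x hx => ?_⟩
    filter_upwards [h5 x hx, key x (h3 hx)] with y a b
    rw [← pr_mul (hm x hx) b, a]
    congr 1
    group
  · intro S' hS' g g' hg
    have hI : Inv ω U (fun x k => (g : G) * τ p0 * k * (τ x)⁻¹ ∈ mon h0 ∧
        S' x (pr (mon h0) ((g : G) * τ p0 * k * (τ x)⁻¹))) := fun x hx => by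
      filter_upwards [key x hx, hS' x hx] with y a b k
      have e : (g : G) * τ p0 * (k * ω x y) * (τ y)⁻¹ =
          (g : G) * τ p0 * k * (τ x)⁻¹ * (τ x * ω x y * (τ y)⁻¹) := by group
      rw [e, (mon h0).mul_mem_cancel_right a]
      refine and_congr_right fun c => ?_
      rw [pr_mul c a, b]
    have hτ0 : τ p0 ∈ mon h0 := hτ p0 hp0
    have hk : ((g : G) * τ p0)⁻¹ * g' * τ p0 ∈ mon h0 :=
      (mon h0).mul_mem ((mon h0).mul_mem ((mon h0).inv_mem ((mon h0).mul_mem g.2 hτ0)) g'.2) hτ0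
    have e1 : (g : G) * τ p0 * 1 * (τ p0)⁻¹ = g := by group
    have e2 : (g : G) * τ p0 * (((g : G) * τ p0)⁻¹ * g' * τ p0) * (τ p0)⁻¹ = g' := by group
    have := (hk _ hI (by rw [e1, pr_self]; exact ⟨g.2, hg⟩)).2
    rwa [e2, pr_self] at this

end Pool.Agent.P.MP_28369d_gt.SB
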