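import Pool.Agent.P.MP_28369d_gt.ST.Iface3

/-! Step PRG. -/

namespace Pool.Agent.P.MP_28369d_gt.SB

open Set Filter Topology
open scoped RealInnerProductSpace

namespace PRGx

variable {V1 V2 : Type} [AddCommGroup V1] [Module ℂ V1] [AddCommGroup V2] [Module ℂ V2]

/-- Extension by the identity on the second factor. -/
def i1 (V1 V2 : Type) [AddCommGroup V1] [Module ℂ V1] [AddCommGroup V2] [Module ℂ V2] :
    Module.End ℂ V1 →* Module.End ℂ (V1 × V2) where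
  toFun x := LinearMap.prodMap x LinearMap.id
  map_one' := LinearMap.ext fun _ => rfl
  map_mul' _ _ := LinearMap.ext fun _ => rfl

/-- Extension by the identity on the first factor. -/
def i2 (V1 V2 : Type) [AddCommGroup V1] [Module ℂ V1] [AddCommGroup V2] [Module ℂ V2] :
    Module.End ℂ V2 →* Module.End ℂ (V1 × V2) where
  toFun x := LinearMap.prodMap LinearMap.id x
  map_one' := LinearMap.ext fun _ => rfl
  map_mul' _ _ := LinearMap.ext fun _ => rfl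

theorem refl_unit {V : Type} [AddCommGroup V] [Module ℂ V] (h : V →ₗ[ℂ] ℂ) (a : V)
    (ha : h a = 2) : ∃ T : (Module.End ℂ V)ˣ, (∀ v, T.1 v = v - h v • a) ∧
      (∀ v, T⁻¹.1 v = v - h v • a) ∧ ∀ v, T.1 (T.1 v) = v := by
  let t : Module.End ℂ V := LinearMap.id - h.smulRight a
  have ht : ∀ v, t v = v - h v • a := fun v => rfl
  have htt : ∀ v, t (t v) = v := by
    intro v
    rw [ht (t v), ht v, map_sub, map_smul, ha, smul_eq_mul]
    module
  have hm : t * t = 1 := LinearMap.ext htt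
  exact ⟨⟨t, t, hm, hm⟩, ht, ht, htt⟩

end PRGx

open PRGx in
theorem p_PRG :
    S_PRG := by
  intro G1 G2 _ _ m1 m2 n1 n2 s hs h1 h2
  obtain ⟨V1, _, _, _, ρ1, hn1, ⟨f1, α1, hm1, he1⟩, hfix1⟩ := h1
  obtain ⟨V2, _, _, _, ρ2, hn2, ⟨f2, α2, hm2, he2⟩, hfix2⟩ := h2
  have he : s - 1 ≠ 0 := sub_ne_zero.mpr hs
  let h : (V1 × V2) →ₗ[ℂ] ℂ :=
    (s - 1)⁻¹ • (f1.comp (LinearMap.fst ℂ V1 V2) - f2.comp (LinearMap.snd ℂ V1 V2))
  have hh : ∀ v : V1 × V2, h v = (s - 1)⁻¹ * (f1 v.1 - f2 v.2) := fun v => rfl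
  have ha : h (α1, -α2) = 2 := by
    rw [hh]
    simp only [map_neg, he1, he2]
    field_simp
    ring
  obtain ⟨T, hT, hTi, hTT⟩ := refl_unit h (α1, -α2) ha
  have hTe : ∀ v, T⁻¹.1 v = T.1 v := fun v => by rw [hT, hTi]
  let ψ1 : G1 →* (Module.End ℂ (V1 × V2))ˣ := (Units.map (i1 V1 V2)).comp ρ1
  let ψ2 : G2 →* (Module.End ℂ (V1 × V2))ˣ := (Units.map (i2 V1 V2)).comp ρ2
  let φ2 : G2 →* (Module.End ℂ (V1 × V2))ˣ := (MulAut.conj T).toMonoidHom.comp ψ2
  have hψ1 : ∀ g v, (ψ1 g).1 v = ((ρ1 g).1 v.1, v.2) := fun g v => rfl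
  have hψ2 : ∀ g v, (ψ2 g).1 v = (v.1, (ρ2 g).1 v.2) := fun g v => rfl
  have hφ2 : ∀ g v, (φ2 g).1 v = T.1 ((ψ2 g).1 (T.1 v)) := fun g v => by
    rw [← hTe v]; rfl
  have hT2 : ∀ v : V1 × V2, (T.1 v).2 = v.2 + h v • α2 := fun v => by
    rw [hT]; simp
  have hTa : T.1 (0, α2) = (α1, 0) := by
    have : h (0, α2) = -1 := by
      rw [hh]
      simp only [map_zero, he2]
      field_simp
      ring
    rw [hT, this]
    ext <;> simp
  have hf : ∀ v : V1 × V2, f2 (T.1 v).2 = f1 v.1 := fun v => by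
    rw [hT2, map_add, map_smul, he2, hh, smul_eq_mul]
    field_simp
    ring
  have hp1 : ∀ v : V1 × V2, (ψ1 m1).1 v = v + f1 v.1 • ((α1, 0) : V1 × V2) := fun v => by
    rw [hψ1, hm1]
    ext <;> simp
  have hp2 : ∀ v : V1 × V2, (ψ2 m2).1 v = v + f2 v.2 • ((0, α2) : V1 × V2) := fun v => by
    rw [hψ2, hm2]
    ext <;> simp
  refine ⟨V1 × V2, inferInstance, inferInstance, inferInstance, ψ1, φ2, (0, α2), ?_, ?_, ?_, ?_⟩
  · rw [Module.finrank_prod, hn1, hn2]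
  · apply Units.ext
    apply LinearMap.ext
    intro v
    rw [hp1, hφ2, hp2, map_add, map_smul, hTT, hTa, hf]
  · exact ⟨f1.comp (LinearMap.fst ℂ V1 V2), (α1, 0), hp1, he1⟩
  · intro v hv1 hv2
    have e1 : v.1 = 0 := hfix1 v.1 fun g => by
      have := congrArg Prod.fst (hv1 g)
      rwa [hψ1] at this
    have e2 : (T.1 v).2 = 0 := hfix2 _ fun g => by
      have h3 := congrArg T.1 (hv2 g)
      rw [hφ2, hTT] at h3
      have := congrArg Prod.snd h3
      rwa [hψ2] at this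
    rw [hT2] at e2
    refine ⟨-h v, ?_⟩
    ext
    · simp [e1]
    · simp only [Prod.smul_mk, neg_smul]
      exact eq_neg_of_add_eq_zero_left e2

end Pool.Agent.P.MP_28369d_gt.SB
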