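import Pool.Agent.P.MP_28369d_gt.ST.Iface3
import Pool.Agent.P.MP_28369d_gt.ST.TREPC

/-! Step REPL. -/

namespace Pool.Agent.P.MP_28369d_gt.SB

open Set Filter Topology
open scoped RealInnerProductSpace

open REPCx in
theorem p_REPL (hSW : S_SW) (hMAXG : S_MAXG) :
    S_REPL := by
  rintro Q u d t hGD hu hd ⟨G, υ, l2, f2, h1, ⟨g0, c0, h2⟩, g1, g2, h3⟩
  obtain ⟨μ, X, hW, hS⟩ := hSW _ υ Q d hGD l2
  have htop := f2.top Q.isCompact _ hW.red
  obtain ⟨m1, m2⟩ := hMAXG _ υ Q d u μ X hW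
  have hA : Aff G := by
    intro g x
    obtain ⟨k, c, hk⟩ := h1 g
    simp only [hk]
    ring
  have hk : ∀ g : G, ∃ k : ℤ, slope hA g = t ^ k := by
    intro g
    obtain ⟨k, c, hk⟩ := h1 g
    refine ⟨k, ?_⟩
    change g.1 1 - g.1 0 = _
    simp [hk]
  have hs : ∀ τ, slope hA (μ τ) = slope hA (μ 0) := fun τ =>
    isConj_iff_eq.1 ((slope hA).map_isConj (m1 τ 0))
  obtain ⟨j, hj⟩ := hk (μ 0)
  generalize slope hA (μ 0) = s at hs hj
  have s0 : s ≠ 0 := hs 0 ▸ ne0 hA (μ 0)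
  have hall : ∀ g : G, ∃ k : ℤ, slope hA g = s ^ k := by
    intro g
    have hg : g ∈ Subgroup.closure (range μ) := htop ▸ Subgroup.mem_top g
    induction hg using Subgroup.closure_induction with
    | mem x hx =>
      obtain ⟨τ, rfl⟩ := hx
      exact ⟨1, by rw [hs, zpow_one]⟩
    | one => exact ⟨0, by simp⟩
    | mul x y _ _ hx hy =>
      obtain ⟨k, a⟩ := hx
      obtain ⟨l, b⟩ := hy
      exact ⟨k + l, by rw [map_mul, a, b, zpow_add₀ s0]⟩
    | inv x _ hx =>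
      obtain ⟨k, a⟩ := hx
      exact ⟨-k, by rw [map_inv, a, zpow_neg]⟩
  have hst : ∃ j k : ℤ, s = t ^ j ∧ t = s ^ k := by
    obtain ⟨k, a⟩ := hall g0
    have b : slope hA g0 = t := by
      change g0.1 1 - g0.1 0 = _
      simp [h2]
    exact ⟨j, k, hj, b.symm.trans a⟩
  have s1 : s ≠ 1 := by
    rintro rfl
    refine h3 (Subtype.ext (comm1 hA (g := g1) (g' := g2) ?_ ?_))
    · obtain ⟨k, a⟩ := hall g1
      rw [a, one_zpow]
    · obtain ⟨k, a⟩ := hall g2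
      rw [a, one_zpow]
  refine ⟨s, fun τ => (μ τ).1 0 / (1 - s), s0, hst, ⟨fun τ k => by rw [hS.per], fun τ => ?_,
    fun τ => ?_⟩, ?_⟩
  · filter_upwards [hS.rc τ] with τ' a
    rw [a]
  · obtain ⟨b, a1, a2, a3⟩ := hS.step τ
    have hb : slope hA b = s := by
      obtain ⟨τ', c⟩ := a1.exists
      exact c ▸ hs τ'
    refine ⟨b.1 0 / (1 - s), a1.mono fun τ' c => by rw [c], fun c => by rw [a2 c],
      fun τ1 r r0 c => ?_⟩
    obtain ⟨b1, b2, b3, b4⟩ := a3 τ1 r r0 c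
    exact ⟨b1, b2, b3.mono fun τ' c => by rw [c], b4.imp
      (fun c => ⟨c.1, conj1 hA s1 (hs τ) (hs τ1) hb c.2⟩)
      fun c => ⟨c.1, conj2 hA s1 s0 (hs τ) (hs τ1) hb c.2⟩⟩
  · by_contra hc
    push Not at hc
    obtain ⟨z, hz⟩ : ∃ z, ∀ i : ℤ, Mx Q u i → (μ (i + 1)).1 0 / (1 - s) = z := by
      by_cases c : ∃ i, Mx Q u i
      · obtain ⟨i, hi⟩ := c
        exact ⟨_, fun k a => hc k i a hi⟩
      · exact ⟨0, fun i a => absurd ⟨i, a⟩ c⟩
    have hH := m2 hu hd (MulAction.stabilizer G z)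
      fun i a b => (fix_iff hA s1 (hs _) z).2 (hz i ⟨a, b⟩)
    have hle : Subgroup.closure (range μ) ≤ MulAction.stabilizer G z := by
      rw [Subgroup.closure_le]
      rintro _ ⟨τ, rfl⟩
      exact hH τ
    rw [htop] at hle
    exact h3 (Subtype.ext (comm hA (g := g1) (g' := g2)
      (hle (Subgroup.mem_top _)) (hle (Subgroup.mem_top _))))

end Pool.Agent.P.MP_28369d_gt.SB
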