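import Pool.Agent.P.MP_28369d_gt.ST.Iface3

/-! Step SUM. -/

namespace Pool.Agent.P.MP_28369d_gt.SB

open Set Filter Topology
open scoped RealInnerProductSpace

theorem Mrd.of_push {G : Type} [Group G] {ω : E → E → G} {K : Set E} {m : G} (h : E ≃ₜ E)
    (hm : Mrd (push h ω) (h '' K) m) : Mrd ω K m :=
  ⟨hm.1, fun m' a => hm.2 m' (a.push h)⟩

theorem p_SUM (hCS : S_CS) (hMERC : S_MERC) :
    S_SUM := by
  rintro G1 G2 _ _ ω1 ω2 K1 K2 K ⟨P1, P2, P, a, b, i1, i2, i0, hab, s1, s2, s3, s4, s5⟩ l1 f1 l2 f2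
  obtain ⟨g1, e1⟩ := i1.homeo
  obtain ⟨g2, e2⟩ := i2.homeo
  obtain ⟨g0, e0⟩ := i0.symm.homeo
  have l1' := l1.push g1
  have f1' := f1.push g1
  have l2' := l2.push g2
  have f2' := f2.push g2
  rw [← compl_push, e1] at l1' f1'
  rw [← compl_push, e2] at l2' f2'
  obtain ⟨n1, n2, c1, c2⟩ := hCS _ _ _ _ P1.carrier P2.carrier a b P1.isCompact P2.isCompact hab
    s1 s2 s3 s4 (s5 ▸ P.isClosed) l1' l2' f1' f2'
  rw [← s5] at c2
  obtain ⟨r1, X1, x1, y1⟩ := hMERC _ _ P1 n1 _ l1' f1' (openSegment_infinite hab)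
    (fun c hc => (s3 ▸ openSegment_subset_segment ℝ a b hc : c ∈ P1.carrier ∩ _).1)
    fun c hc => (c1 c hc).1
  obtain ⟨r2, X2, x2, y2⟩ := hMERC _ _ P2 n2 _ l2' f2' (openSegment_infinite hab)
    (fun c hc => (s4 ▸ openSegment_subset_segment ℝ a b hc : c ∈ P2.carrier ∩ _).1)
    fun c hc => (c1 c hc).2
  refine ⟨n1, n2, Mrd.of_push g1 (e1 ▸ r1), Mrd.of_push g2 (e2 ▸ r2), fun G _ φ1 φ2 hφ => ?_⟩
  obtain ⟨ω, w1, w2, w3, w4⟩ := c2 G φ1 φ2 hφ
  refine ⟨push g0 ω, ?_, ?_, fun H hH => w2 H (Red.of_push g0 (by rwa [← compl_push, e0]))⟩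
  · rw [← e0, compl_push]; exact w1.push g0
  · rw [← e0]
    refine LocM.push ⟨X1 ∪ X2 ∪ {a, b}, (x1.union x2).union (toFinite _), fun x hx hX => ?_⟩ g0
    simp only [mem_union, not_or, mem_insert_iff, mem_singleton_iff] at hX
    have hx' := hx
    rw [s5] at hx'
    have hx0 : x 0 ≠ 0 := by
      intro h0
      have : x ∈ segment ℝ a b := by
        rcases hx'.1 with h | h
        · exact s3 ▸ ⟨h, h0⟩
        · exact s4 ▸ ⟨h, h0⟩
      rw [← insert_endpoints_openSegment] at this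
      rcases this with h | h | h
      · exact hX.2.1 h
      · exact hX.2.2 h
      · exact hx'.2 h
    have hcont : Continuous fun p : E => p 0 := by fun_prop
    have hos : ∀ p ∈ openSegment ℝ a b, p 0 = 0 := fun p hp =>
      (s3 ▸ openSegment_subset_segment ℝ a b hp : p ∈ P1.carrier ∩ {p | p 0 = 0}).2
    rcases lt_or_gt_of_ne hx0 with h | h
    · have hx1 : x ∈ P1.carrier := hx'.1.resolve_right fun h' => (s2 x h').not_gt h
      obtain ⟨N', a1, g, a2⟩ := y1 x hx1 hX.1.1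
      refine ⟨N' ∩ {p | p 0 < 0}, inter_mem a1 ((isOpen_lt hcont continuous_const).mem_nhds h),
        φ1 g, ?_⟩
      rw [← map_inv, ← map_mul, ← map_mul, ← MonoidHom.map_zpowers]
      refine ((a2.map φ1).mono fun p hp => ⟨hp.1.1, fun h' => hp.2 ?_⟩).congr
        fun p hp => Eventually.of_forall fun p' => w3 p p' hp.1.2
      rw [s5]; exact ⟨Or.inl h', fun h'' => (ne_of_lt hp.1.2) (hos p h'')⟩
    · have hx1 : x ∈ P2.carrier := hx'.1.resolve_left fun h' => (s1 x h').not_gt h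
      obtain ⟨N', a1, g, a2⟩ := y2 x hx1 hX.1.2
      refine ⟨N' ∩ {p | 0 < p 0}, inter_mem a1 ((isOpen_lt continuous_const hcont).mem_nhds h),
        φ2 g, ?_⟩
      rw [hφ, ← map_inv, ← map_mul, ← map_mul, ← MonoidHom.map_zpowers]
      refine ((a2.map φ2).mono fun p hp => ⟨hp.1.1, fun h' => hp.2 ?_⟩).congr
        fun p hp => Eventually.of_forall fun p' => w4 p p' hp.1.2
      rw [s5]; exact ⟨Or.inr h', fun h'' => (ne_of_gt hp.1.2) (hos p h'')⟩

end Pool.Agent.P.MP_28369d_gt.SB
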