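import Pool.Agent.P.MP_28369d_gt.ST.Iface3

/-! Step SYM. -/

namespace Pool.Agent.P.MP_28369d_gt.SB

open Set Filter Topology
open scoped RealInnerProductSpace

namespace SYMx

/-- rotation about the third axis -/
noncomputable def rot (θ : ℝ) : E →ₗ[ℝ] E where
  toFun x := pt (Real.cos θ * x 0 - Real.sin θ * x 1) (Real.sin θ * x 0 + Real.cos θ * x 1) (x 2)
  map_add' x y := by
    ext i; fin_cases i <;> simp [pt] <;> ring
  map_smul' c x := by
    ext i; fin_cases i <;> simp [pt] <;> ring

theorem rot_apply (θ : ℝ) (x : E) : rot θ x =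
    pt (Real.cos θ * x 0 - Real.sin θ * x 1) (Real.sin θ * x 0 + Real.cos θ * x 1) (x 2) := rfl

theorem rot_neg (θ : ℝ) (x : E) : rot (-θ) (rot θ x) = x := by
  have h := Real.sin_sq_add_cos_sq θ
  ext i
  fin_cases i
  · simp [rot_apply, pt]; linear_combination (x 0) * h
  · simp [rot_apply, pt]; linear_combination (x 1) * h
  · simp [rot_apply, pt]

theorem rot_neg' (θ : ℝ) (x : E) : rot θ (rot (-θ) x) = x := by
  simpa using rot_neg (-θ) x

theorem rot_cont' {c : unitInterval → ℝ} (hc : Continuous c) :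
    Continuous fun p : unitInterval × E => rot (c p.1) p.2 := by
  simp only [rot_apply, pt]
  refine (PiLp.continuous_toLp 2 _).comp (continuous_pi fun i => ?_)
  fin_cases i <;> simp <;> fun_prop

/-- the rotation as a homeomorphism -/
noncomputable def rotH (θ : ℝ) : E ≃ₜ E where
  toFun := rot θ
  invFun := rot (-θ)
  left_inv := rot_neg θ
  right_inv := rot_neg' θ
  continuous_toFun := (rot θ).continuous_of_finiteDimensional
  continuous_invFun := (rot (-θ)).continuous_of_finiteDimensional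

theorem inj (θ : ℝ) : Function.Injective (rot θ) := (rotH θ).injective

theorem iso (K : Set E) : Iso K (rot Real.pi '' K) := by
  refine ⟨fun s => rotH (Real.pi * s), ?_, ?_, fun x => ?_, ?_⟩
  · exact rot_cont' (c := fun s => Real.pi * (s : ℝ)) (by fun_prop)
  · exact rot_cont' (c := fun s => -(Real.pi * (s : ℝ))) (by fun_prop)
  · show rot (Real.pi * ((0 : unitInterval) : ℝ)) x = x
    ext i; fin_cases i <;> simp [rot_apply, pt]
  · show rot (Real.pi * ((1 : unitInterval) : ℝ)) '' K = _
    simp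

theorem rot_pi (x : E) : rot Real.pi x 0 = -x 0 := by simp [rot_apply, pt]

/-- the image of a polygon under an injective linear map -/
def pmap (P : Poly) (r : E →ₗ[ℝ] E) (hr : Function.Injective r) : Poly where
  n := P.n
  v i := r (P.v i)
  pos := P.pos
  per i := by rw [P.per]
  simple i j s t hs ht h := P.simple i j s t hs ht (hr (by simpa using h))

theorem seg (r : E →ₗ[ℝ] E) (a b : E) : r '' segment ℝ a b = segment ℝ (r a) (r b) :=
  image_segment ℝ r.toAffineMap a b

theorem oseg (r : E →ₗ[ℝ] E) (a b : E) : r '' openSegment ℝ a b = openSegment ℝ (r a) (r b) :=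
  image_openSegment ℝ r.toAffineMap a b

theorem car (P : Poly) (r : E →ₗ[ℝ] E) (hr : Function.Injective r) :
    (pmap P r hr).carrier = r '' P.carrier := by
  simp only [Poly.carrier, image_iUnion, seg]; rfl

theorem plane (K : Set E) :
    rot Real.pi '' K ∩ {p | p 0 = 0} = rot Real.pi '' (K ∩ {p | p 0 = 0}) := by
  ext x
  constructor
  · rintro ⟨⟨y, hy, rfl⟩, h⟩
    exact ⟨y, ⟨hy, by simpa [rot_pi] using h⟩, rfl⟩
  · rintro ⟨y, ⟨hy, h⟩, rfl⟩
    exact ⟨⟨y, hy, rfl⟩, by simpa [rot_pi] using h⟩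

end SYMx

open SYMx in
theorem p_SYM :
    S_SYM := by
  rintro K1 K2 K ⟨P1, P2, P, a, b, i1, i2, i, hab, h1, h2, s1, s2, e⟩
  refine ⟨pmap P2 _ (inj Real.pi), pmap P1 _ (inj Real.pi), pmap P _ (inj Real.pi),
    rot Real.pi a, rot Real.pi b, ?_, ?_, ?_, fun h => hab (inj _ h), ?_, ?_, ?_, ?_, ?_⟩
  · rw [car]; exact i2.trans (iso _)
  · rw [car]; exact i1.trans (iso _)
  · rw [car]; exact i.trans (iso _)
  · rw [car]
    rintro _ ⟨y, hy, rfl⟩
    rw [rot_pi]; linarith [h2 y hy]
  · rw [car]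
    rintro _ ⟨y, hy, rfl⟩
    rw [rot_pi]; linarith [h1 y hy]
  · rw [car, plane, s2, seg]
  · rw [car, plane, s1, seg]
  · rw [car, car, car, e, image_sdiff (inj _), image_union, oseg, union_comm]

end Pool.Agent.P.MP_28369d_gt.SB
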