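import Pool.Agent.P.MP_28369d_gt.ST.Iface3
import Pool.Agent.P.MP_28369d_gt.ST.BaseTopC

/-! Step T3L. -/

namespace Pool.Agent.P.MP_28369d_gt.SB

open Set Filter Topology
open scoped RealInnerProductSpace

theorem p_T3L (hCORE : S_CORE) (hSQ1 : S_SQ1) (hSQ2 : S_SQ2) (hSQ3 : S_SQ3) (hSQD : S_SQD)
    (hREPL : S_REPL) (hCOLPI : S_COLPI) (hSYSC : S_SYSC) (hGAL : S_GAL) :
    S_T3L := by
  intro m
  obtain ⟨N, hN⟩ := thmC0 hCORE hSQ1 hSQ2 hSQ3 hSQD m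
  obtain ⟨C, hC'⟩ := hSYSC N
  refine ⟨C ^ 2 + 1, fun P hL hs => ?_⟩
  obtain ⟨S, u, d, a1, a2, a3, a4, a5⟩ :=
    hN _ P (Iso.refl _) (fun Q hQ R hR => hL R (hQ.trans hR)) hs
  by_cases hne : Nonempty {t : ℂ // AffL P.carrier t}
  · choose s a g1 g2 g3 g4 using fun t : {t : ℂ // AffL P.carrier t} =>
      hREPL S u d t a2 a3 a4 (t.2.iso a1)
    obtain ⟨t0⟩ := id hne
    obtain ⟨i0, -, h0, -⟩ := g4 t0
    obtain ⟨D, b1, b2, b3⟩ := hC' _ S u d s _ i0 a2 a4 g1 (hCOLPI _ S d s a hne a2 g3) a5 h0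
    obtain ⟨D', c1, c2, c3⟩ := hGAL D
    refine ⟨D', c1.trans ((Nat.pow_le_pow_left b1 2).trans (Nat.le_succ _)),
      c2 b2, fun t ht => ?_⟩
    obtain ⟨j, l, e1, e2⟩ := g2 ⟨t, ht⟩
    exact c3 _ t j l (g1 _) e1 e2 (b3 _ (g4 _))
  · refine ⟨1, ?_, ⟨0, 1, by simp, by simp⟩, fun t ht => absurd ⟨⟨t, ht⟩⟩ hne⟩
    rw [← Polynomial.C_1]
    exact Polynomial.card_support_C_mul_X_pow_le_one (c := (1 : ℤ)) (n := 0) |>.trans' (by simp)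
      |>.trans (by omega)

end Pool.Agent.P.MP_28369d_gt.SB
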