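import Pool.Agent.P.MP_28369d_gt.ST.Iface3

/-! Step TAFF. -/

namespace Pool.Agent.P.MP_28369d_gt.SB

open Set Filter Topology
open scoped RealInnerProductSpace

namespace TAFFx

/-- homotheties with a given centre -/
noncomputable def rot (z : ℂ) : ℂˣ →* Equiv.Perm ℂ where
  toFun s := ⟨fun x => s * (x - z) + z, fun x => (s⁻¹ : ℂˣ) * (x - z) + z,
    fun x => by simp, fun x => by simp⟩
  map_one' := by ext x; simp
  map_mul' s t := by ext x; simp [mul_assoc]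

theorem rot_apply (z : ℂ) (s : ℂˣ) (x : ℂ) : rot z s x = s * (x - z) + z := rfl

end TAFFx

open TAFFx in
theorem p_TAFF (hVK : S_VK) :
    S_TAFF := by
  intro p q ζ hp hq hpq hζ h1 h2 h3 hc
  obtain ⟨v', u, huv⟩ := hpq
  obtain ⟨ξ, rfl⟩ : ∃ ξ : ℂˣ, (ξ : ℂ) = ζ := ⟨Units.mk0 ζ hζ, rfl⟩
  have h1' : (ξ ^ p) ^ q = 1 := by
    apply Units.ext
    simpa using h1
  have h1'' : (ξ ^ q) ^ p = 1 := by
    rw [← zpow_natCast, ← zpow_mul, mul_comm, zpow_mul, zpow_natCast, h1']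
  let G : Subgroup (Equiv.Perm ℂ) := Subgroup.closure {rot 0 (ξ ^ q), rot 1 (ξ ^ p)}
  let a : G := ⟨rot 0 (ξ ^ q), Subgroup.subset_closure (by simp)⟩
  let b : G := ⟨rot 1 (ξ ^ p), Subgroup.subset_closure (by simp)⟩
  have hab : a ^ p = b ^ q := by
    apply Subtype.ext
    show rot 0 (ξ ^ q) ^ p = rot 1 (ξ ^ p) ^ q
    rw [← map_pow, ← map_zpow, h1', h1'', map_one, map_one]
  have hcl : Subgroup.closure {a, b} = ⊤ := by
    have : ({a, b} : Set G) = ((↑) : G → Equiv.Perm ℂ) ⁻¹' {rot 0 (ξ ^ q), rot 1 (ξ ^ p)} := by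
      ext x
      simp only [mem_insert_iff, mem_singleton_iff, mem_preimage, Subtype.ext_iff, a, b]
    rw [this]
    exact Subgroup.closure_closure_coe_preimage
  obtain ⟨ω, w1, w2, -⟩ := hVK G a b p q u (-v') hp hq (by linear_combination huv) hab hcl hc
  refine ⟨G, ω, w1, w2, ?_, ⟨a ^ u * b ^ v', (ξ : ℂ) ^ (q * u) * (1 - (ξ : ℂ) ^ (p * v')),
    fun x => ?_⟩, a, b, fun h => ?_⟩
  · rintro ⟨g, hg⟩
    show ∃ (k : ℤ) (c : ℂ), ∀ x, g x = (ξ : ℂ) ^ k * x + c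
    induction hg using Subgroup.closure_induction with
    | mem x hx =>
      rcases hx with rfl | rfl
      · exact ⟨q, 0, fun x => by rw [rot_apply]; push_cast; ring⟩
      · exact ⟨p, 1 - (ξ : ℂ) ^ p, fun x => by
          rw [rot_apply, zpow_natCast]; push_cast; ring⟩
    | one => exact ⟨0, 0, fun x => by simp⟩
    | mul x y _ _ hx hy =>
      obtain ⟨k, c, hx⟩ := hx
      obtain ⟨l, d, hy⟩ := hy
      refine ⟨k + l, (ξ : ℂ) ^ k * d + c, fun z => ?_⟩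
      rw [Equiv.Perm.mul_apply, hx, hy, zpow_add₀ hζ]; ring
    | inv x _ hx =>
      obtain ⟨k, c, hx⟩ := hx
      refine ⟨-k, -((ξ : ℂ) ^ (-k) * c), fun z => ?_⟩
      rw [Equiv.Perm.inv_eq_iff_eq, hx, zpow_neg]
      have := zpow_ne_zero k hζ
      field_simp
      ring
  · show (rot 0 (ξ ^ q) ^ u * rot 1 (ξ ^ p) ^ v') x = _
    rw [← map_zpow, ← map_zpow, Equiv.Perm.mul_apply, rot_apply, rot_apply, ← zpow_natCast,
      ← zpow_mul, ← zpow_mul]
    have e : (ξ : ℂ) ^ (q * u) * (ξ : ℂ) ^ (p * v') = ξ := by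
      rw [← zpow_add₀ hζ, show q * u + p * v' = 1 by linear_combination huv, zpow_one]
    push_cast
    linear_combination x * e
  · have e := congrArg (fun g : G => g.1 0) h
    change rot 0 (ξ ^ q) (rot 1 (ξ ^ p) 0) = rot 1 (ξ ^ p) (rot 0 (ξ ^ q) 0) at e
    simp only [rot_apply] at e
    push_cast at e
    have : ((ξ : ℂ) ^ q - 1) * ((ξ : ℂ) ^ p - 1) = 0 := by linear_combination -e
    rcases mul_eq_zero.mp this with h | h
    · exact h3 (sub_eq_zero.mp h)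
    · exact h2 (sub_eq_zero.mp h)

end Pool.Agent.P.MP_28369d_gt.SB
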