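import Pool.Agent.P.MP_28369d_gt.ST.Iface3

/-! Step TK. -/

namespace Pool.Agent.P.MP_28369d_gt.SB

open Set Filter Topology
open scoped RealInnerProductSpace

namespace TKx

theorem root {p l : ℕ} {q : ℤ} (hc : IsCoprime (p : ℤ) q) (hq : q ≠ 0) (hl : l ∣ p) (h1 : 1 < l)
    {w η : ℂ} (hw : IsPrimitiveRoot w l) (hη : η ^ q.natAbs = 1) (hη1 : η ≠ 1) :
    w * η ≠ 0 ∧ ((w * η) ^ p) ^ q = 1 ∧ (w * η) ^ p ≠ 1 ∧ (w * η) ^ q ≠ 1 := by
  have h0 : η ≠ 0 := by
    rintro rfl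
    rw [zero_pow (Int.natAbs_ne_zero.2 hq)] at hη
    exact zero_ne_one hη
  have hq1 : η ^ q = 1 := by
    rcases Int.natAbs_eq q with h | h
    · rw [h, zpow_natCast, hη]
    · rw [h, zpow_neg, zpow_natCast, hη, inv_one]
  have hwp : w ^ p = 1 := (hw.pow_eq_one_iff_dvd p).2 hl
  have hp : (w * η) ^ p = η ^ p := by rw [mul_pow, hwp, one_mul]
  refine ⟨mul_ne_zero (hw.ne_zero (by omega)) h0, ?_, ?_, ?_⟩
  · rw [hp, ← zpow_natCast, ← zpow_mul, mul_comm, zpow_mul, hq1, one_zpow]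
  · rw [hp]
    intro h
    obtain ⟨a, b, hab⟩ := hc
    apply hη1
    rw [← zpow_one η, ← hab, zpow_add₀ h0, mul_comm a, mul_comm b, zpow_mul, zpow_mul,
      zpow_natCast, h, hq1, one_zpow, one_zpow, mul_one]
  · rw [mul_zpow, hq1, mul_one]
    intro h
    have h2 := hc.isUnit_of_dvd' (Int.natCast_dvd_natCast.2 hl) ((hw.zpow_eq_one_iff_dvd q).1 h)
    rcases Int.isUnit_iff.1 h2 with h3 | h3 <;> omega

end TKx

open TKx in
theorem p_TK (hTAFF : S_TAFF) (hAFFS : S_AFFS) (hT3L : S_T3L) (hFOUR : S_FOUR) (hE2 : S_E2) (hCONN : S_CONN) :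
    S_TK := by
  classical
  intro m
  obtain ⟨C3, h3⟩ := hT3L m
  obtain ⟨C2, h2⟩ := hE2 m
  refine ⟨C3 + C2 + 1, fun p q J K hp hc hC hs hm => ?_⟩
  have hq : q ≠ 0 := by
    rintro rfl
    simp at hC
  have hs' := hs
  obtain ⟨P1, -, P, -, -, i1, -, i0, -⟩ := hs'
  have hLB : LB P m := fun Q hQ v hv => hm Q v (i0.trans hQ) hv
  have key : ∀ (l : ℕ) (w η : ℂ), l ∣ p → 1 < l → IsPrimitiveRoot w l → η ^ q.natAbs = 1 → η ≠ 1 →
      AffL P.carrier (w * η) := by
    intro l w η hl h1 hw hη hη1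
    obtain ⟨a, b, c, d⟩ := root hc hq hl h1 hw hη hη1
    exact (hAFFS _ _ _ _ (hTAFF p q _ (by omega) hq hc a b c d (compl_good hCONN i1).2) hs).iso i0
  rw [sb_iso i0]
  constructor
  · have hw := Complex.isPrimitiveRoot_exp p (by omega)
    have hn := Complex.isPrimitiveRoot_exp q.natAbs (by omega)
    have h0 : 0 < q.natAbs := by omega
    refine h2 P (((Polynomial.nthRootsFinset q.natAbs (1 : ℂ)).erase 1).image
      fun η => Complex.exp (2 * Real.pi * Complex.I / p) * η) hLB ?_ ?_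
    · rw [Finset.card_image_of_injective _ (mul_right_injective₀ (hw.ne_zero (by omega))),
        Finset.card_erase_of_mem ((Polynomial.mem_nthRootsFinset h0 _).2 (one_pow _)),
        hn.card_nthRootsFinset]
      omega
    · intro t ht
      obtain ⟨η, hη, rfl⟩ := Finset.mem_image.1 ht
      rw [Finset.mem_erase, Polynomial.mem_nthRootsFinset h0] at hη
      exact key p _ η dvd_rfl (by omega) hw hη.2 hη.1
  · intro hp3
    by_contra hlt
    obtain ⟨D, d1, d2, d3⟩ := h3 P hLB (by omega)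
    obtain ⟨l, hl, hl'⟩ : ∃ l : ℕ, l ∣ p ∧ ((l.Prime ∧ l ≠ 2) ∨ l = 4) := by
      rcases Nat.four_dvd_or_exists_odd_prime_and_dvd_of_two_lt (show 2 < p by omega) with
        h | ⟨l, a, b, c⟩
      · exact ⟨4, h, Or.inr rfl⟩
      · refine ⟨l, b, Or.inl ⟨a, ?_⟩⟩
        rintro rfl
        exact absurd c (by decide)
    have h1 : 1 < l := by
      rcases hl' with h | h
      · exact h.1.one_lt
      · omega
    have hw := Complex.isPrimitiveRoot_exp l (by omega)
    have := hFOUR D l q.natAbs _ hl' (by omega) hw d2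
      fun η a b => d3 _ (key l _ η hl h1 hw a b)
    omega

end Pool.Agent.P.MP_28369d_gt.SB
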