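import Pool.Agent.P.MP_28369d_gt.ST.Iface3

/-! Step TREF. -/

namespace Pool.Agent.P.MP_28369d_gt.SB

open Set Filter Topology
open scoped RealInnerProductSpace

namespace TREFx

theorem grp {H : Type} [Group H] {z A B : H} {p q u v : ℤ} (hz : ∀ x, Commute z x)
    (h : q * u - p * v = 1) (hA : A ^ p = z ^ u) (hB : B ^ q = z ^ v) :
    ∃ a b : H, a ^ p = b ^ q ∧ a ^ u = A ∧ b ^ v = B := by
  have c1 : Commute (z ^ (-v)) (A ^ q) := (hz _).zpow_left _
  have c2 : Commute (z ^ u) (B ^ (-p)) := (hz _).zpow_left _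
  refine ⟨z ^ (-v) * A ^ q, z ^ u * B ^ (-p), ?_, ?_, ?_⟩
  · rw [c1.mul_zpow, c2.mul_zpow, zpow_comm A, zpow_comm B, hA, hB]
    simp only [← zpow_mul, ← zpow_add]
    congr 1; ring
  · rw [c1.mul_zpow, ← zpow_mul A, show q * u = p * v + 1 by linarith, zpow_add_one, zpow_mul A,
      hA, ← mul_assoc]
    simp only [← zpow_mul, ← zpow_add]
    rw [show -v * u + u * v = 0 by ring, zpow_zero, one_mul]
  · rw [c2.mul_zpow, ← zpow_mul B, show -p * v = q * (-u) + 1 by linarith, zpow_add_one,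
      zpow_mul B, hB, ← mul_assoc]
    simp only [← zpow_mul, ← zpow_add]
    rw [show u * v + v * -u = 0 by ring, zpow_zero, one_mul]

/-- the relation -/
def rel (p q : ℤ) : Set (FreeGroup Bool) := {FreeGroup.of true ^ p * (FreeGroup.of false ^ q)⁻¹}

theorem lift {H : Type} [Group H] {p q : ℤ} (a b : H) (h : a ^ p = b ^ q) :
    ∃ φ : PresentedGroup (rel p q) →* H,
      φ (PresentedGroup.of true) = a ∧ φ (PresentedGroup.of false) = b := by
  have key : ∀ r ∈ rel p q, FreeGroup.lift (fun x : Bool => if x then a else b) r = 1 := by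
    rintro r rfl
    simp [h]
  exact ⟨PresentedGroup.toGroup key, PresentedGroup.toGroup.of key, PresentedGroup.toGroup.of key⟩

theorem rel_eq (p q : ℤ) : (PresentedGroup.of true : PresentedGroup (rel p q)) ^ p =
    PresentedGroup.of false ^ q := by
  have := PresentedGroup.one_of_mem (rels := rel p q) (Set.mem_singleton _)
  rw [map_mul, map_inv, map_zpow, map_zpow, mul_inv_eq_one] at this
  exact this

theorem gen (p q : ℤ) : Subgroup.closure
    {(PresentedGroup.of true : PresentedGroup (rel p q)), PresentedGroup.of false} = ⊤ := by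
  rw [← PresentedGroup.closure_range_of]
  congr 1
  ext x
  simp only [mem_insert_iff, mem_singleton_iff, mem_range, Bool.exists_bool]
  tauto

theorem conj {G : Type} [Group G] {m : G} {n : ℕ} {s : ℂ} (g : G) (h : Rep G (g * m * g⁻¹) n s) :
    Rep G m n s := by
  obtain ⟨V, i1, i2, i3, ρ, a, b, c⟩ := h
  refine ⟨V, i1, i2, i3, ρ, a, ?_, c⟩
  have := b.conj (ρ g)⁻¹
  rwa [inv_inv, ← map_inv, ← map_mul, ← map_mul, show g⁻¹ * (g * m * g⁻¹) * g = m by group] at this

theorem inv {G : Type} [Group G] {m : G} {n : ℕ} {s : ℂ} (hs : s ≠ 0) (h : Rep G m⁻¹ n s⁻¹) :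
    Rep G m n s := by
  obtain ⟨V, i1, i2, i3, ρ, a, b, c⟩ := h
  refine ⟨V, i1, i2, i3, ρ, a, ?_, c⟩
  have := b.inv (inv_ne_zero hs)
  rwa [inv_inv, ← map_inv, inv_inv] at this

theorem rep (hHYP : S_HYP) {p : ℕ} {q u v : ℤ} (hp : 0 < p) (hq : p ≤ q.natAbs)
    (h : q * u - p * v = 1) {t : ℂ} (h0 : t ≠ 0) (h1 : t ≠ 1) :
    Rep (PresentedGroup (rel p q))
      (PresentedGroup.of true ^ u * PresentedGroup.of false ^ (-v))⁻¹ p t := by
  obtain ⟨V, i1, i2, i3, A, B, κ, a, b, c, d, e⟩ := hHYP p q.natAbs t hp hq h0 h1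
  have hB : B ^ q = 1 := by
    rcases Int.natAbs_eq q with e | e
    · rw [e, zpow_natCast, c]
    · rw [e, zpow_neg, zpow_natCast, c, inv_one]
  obtain ⟨a', b', k1, k2, k3⟩ := grp (z := scl V (κ ^ q)) (A := scl V (κ ^ v) * A)
    (B := scl V (κ ^ v) * B) (scl_comm _) h
    (by
      rw [(scl_comm _ _).mul_zpow, zpow_natCast A, b, ← map_zpow, ← map_zpow, ← map_mul,
        ← zpow_mul, ← zpow_mul, ← zpow_add_one]
      congr 2; linarith)
    (by rw [(scl_comm _ _).mul_zpow, hB, mul_one, ← map_zpow, ← map_zpow, zpow_comm])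
  obtain ⟨ρ, r1, r2⟩ := lift a' b' k1
  refine ⟨V, i1, i2, i3, ρ, a, ?_, fun w hw => e w (κ ^ v)⁻¹.1 ?_ ?_⟩
  · rw [map_inv, map_mul, map_zpow, map_zpow, r1, r2, zpow_neg, k2, k3, mul_inv_rev, inv_inv,
      mul_inv_rev, mul_assoc, ← mul_assoc B, (scl_comm (κ ^ v) _).eq, mul_assoc, inv_mul_cancel,
      mul_one]
    exact d
  · have := hw (PresentedGroup.of true ^ u)
    rw [map_zpow, r1, k2, un_mul, scl_apply] at this
    rw [← this, smul_smul, Units.inv_mul, one_smul, this]
  · have := hw (PresentedGroup.of false ^ v)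
    rw [map_zpow, r2, k3, un_mul, scl_apply] at this
    rw [← this, smul_smul, Units.inv_mul, one_smul, this]

end TREFx

open TREFx in
theorem p_TREF (hVK : S_VK) (hHYP : S_HYP) :
    S_TREF := by
  intro p q hp hq hc hK
  obtain ⟨v, u, huv⟩ := hc
  have h : q * u - p * (-v) = 1 := by linarith
  obtain ⟨ω, w1, w2, w3⟩ := hVK (PresentedGroup (rel p q)) (PresentedGroup.of true)
    (PresentedGroup.of false) p q u (-v) hp (by omega) h
    (by rw [← zpow_natCast]; exact rel_eq p q) (gen p q) hK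
  refine ⟨_, inferInstance, ω, w1, w2, fun m hm s s0 s1 => ?_⟩
  obtain ⟨g, k, hk⟩ := hm.2 _ w3
  obtain ⟨φ, f1, f2⟩ := lift (p := p) (q := q) (Multiplicative.ofAdd q)
    (Multiplicative.ofAdd (p : ℤ)) (by rw [← ofAdd_zsmul, ← ofAdd_zsmul]; simp [mul_comm])
  have d1 : φ (PresentedGroup.of true ^ u * PresentedGroup.of false ^ (- -v)) =
      Multiplicative.ofAdd 1 := by
    rw [map_mul, map_zpow, map_zpow, f1, f2, ← ofAdd_zsmul, ← ofAdd_zsmul, ← ofAdd_add]
    congr 1
    simp only [smul_eq_mul]; linarith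
  have d2 : φ m = Multiplicative.ofAdd k := by
    have := congrArg φ hk
    simp only [] at this
    rw [map_zpow, d1, map_mul, map_mul, map_inv, mul_inv_cancel_comm, ← ofAdd_zsmul] at this
    rw [← this]; simp
  have d3 : Function.Surjective φ := fun j =>
    ⟨_ ^ j.toAdd, by rw [map_zpow, d1, ← ofAdd_zsmul]; simp⟩
  have d4 : Subgroup.normalClosure {φ m} = ⊤ := by
    rw [← image_singleton, ← Subgroup.map_normalClosure _ _ d3, hm.1,
      Subgroup.map_top_of_surjective _ d3]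
  have d5 := unit_of_top d4
  rw [d2, toAdd_ofAdd] at d5
  refine conj g ?_
  rw [← hk]
  rcases d5 with rfl | rfl
  · simp only [zpow_one]
    exact inv s0 (rep hHYP hp hq h (inv_ne_zero s0) (fun e => s1 (inv_eq_one.1 e)))
  · simp only [zpow_neg_one]
    exact rep hHYP hp hq h s0 s1

end Pool.Agent.P.MP_28369d_gt.SB
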