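import Pool.Agent.P.MP_28369d_gt.ST.Iface3

/-! Step U2A. -/

namespace Pool.Agent.P.MP_28369d_gt.SB

open Set Filter Topology
open scoped RealInnerProductSpace

namespace U2Ax

open Matrix

/-- the orthogonal vector -/
def pw (v : Fin 2 → ℂ) : Fin 2 → ℂ := ![-star (v 1), star (v 0)]

/-- the square of the length -/
def nn (v : Fin 2 → ℂ) : ℂ := v 0 * star (v 0) + v 1 * star (v 1)

theorem nn_ne {v : Fin 2 → ℂ} (hv : v ≠ 0) : nn v ≠ 0 := by
  intro h
  apply hv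
  simp only [nn, Complex.star_def, Complex.mul_conj] at h
  have h1 : Complex.normSq (v 0) + Complex.normSq (v 1) = 0 := by exact_mod_cast h
  have h2 := Complex.normSq_nonneg (v 0)
  have h3 := Complex.normSq_nonneg (v 1)
  have h4 : v 0 = 0 := Complex.normSq_eq_zero.1 (by linarith)
  have h5 : v 1 = 0 := Complex.normSq_eq_zero.1 (by linarith)
  ext i
  fin_cases i
  · exact h4
  · exact h5

theorem dec {v : Fin 2 → ℂ} (hv : v ≠ 0) (x : Fin 2 → ℂ) :
    x = ((star v ⬝ᵥ x) / nn v) • v + ((-v 1 * x 0 + v 0 * x 1) / nn v) • pw v := by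
  have h := nn_ne hv
  ext i
  fin_cases i <;> simp [pw, dotProduct, Fin.sum_univ_two] <;> field_simp <;> simp [nn] <;> ring

theorem eig_ne (U : unitaryGroup (Fin 2) ℂ) {v : Fin 2 → ℂ} (hv : v ≠ 0) {c : ℂ}
    (h : U.1 *ᵥ v = c • v) : c ≠ 0 ∧ star U.1 *ᵥ v = c⁻¹ • v := by
  have h1 : c • star U.1 *ᵥ v = v := by
    rw [← mulVec_smul, ← h, mulVec_mulVec, (Unitary.mem_iff.1 U.2).1, one_mulVec]
  have h2 : c ≠ 0 := by
    rintro rfl
    exact hv (by rw [← h1, zero_smul])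
  exact ⟨h2, by rw [eq_inv_smul_iff₀ h2, h1]⟩

theorem eig_pw (U : unitaryGroup (Fin 2) ℂ) {v : Fin 2 → ℂ} (hv : v ≠ 0) {c : ℂ}
    (h : U.1 *ᵥ v = c • v) : ∃ d : ℂ, U.1 *ᵥ pw v = d • pw v := by
  have h1 : star v ⬝ᵥ U.1 *ᵥ pw v = 0 := by
    have h2 : star v ᵥ* U.1 = star (star U.1 *ᵥ v) := by
      rw [star_mulVec, ← star_eq_conjTranspose, star_star]
    rw [dotProduct_mulVec, h2, (eig_ne U hv h).2, star_smul, smul_dotProduct]
    simp [pw, dotProduct, Fin.sum_univ_two, mul_comm]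
  have h3 := dec hv (U.1 *ᵥ pw v)
  rw [h1, zero_div, zero_smul, zero_add] at h3
  exact ⟨_, h3⟩

theorem ext2 {A B : Matrix (Fin 2) (Fin 2) ℂ} {v : Fin 2 → ℂ} (hv : v ≠ 0)
    (h1 : A *ᵥ v = B *ᵥ v) (h2 : A *ᵥ pw v = B *ᵥ pw v) : A = B := by
  refine toLin'.injective (LinearMap.ext fun x => ?_)
  rw [toLin'_apply, toLin'_apply, dec hv x]
  simp only [mulVec_add, mulVec_smul, h1, h2]

theorem pw_ne {v : Fin 2 → ℂ} (hv : v ≠ 0) : pw v ≠ 0 := by
  intro h
  have h0 := congrFun h 0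
  have h1 := congrFun h 1
  simp [pw] at h0 h1
  exact nn_ne hv (by simp [nn, h0, h1])

end U2Ax

open U2Ax Matrix in
theorem p_U2A :
    S_U2A := by
  intro G _ ρ χ m ⟨g0, h0, hne⟩ hm hε
  obtain ⟨l, hl⟩ := Module.End.exists_eigenvalue (toLin' (ρ m).1)
  obtain ⟨v, hv1, hv⟩ := hl.exists_hasEigenvector
  have hv2 : (ρ m).1 *ᵥ v = l • v := Module.End.mem_eigenspace_iff.1 hv1
  obtain ⟨μ, hμ⟩ := eig_pw (ρ m) hv hv2
  have l0 := (eig_ne _ hv hv2).1
  have μ0 := (eig_ne _ (pw_ne hv) hμ).1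
  have hlm : μ / l ≠ 1 := by
    intro h
    rw [div_eq_one_iff_eq l0] at h
    have h1 : (ρ m).1 = l • (1 : Matrix (Fin 2) (Fin 2) ℂ) :=
      ext2 hv (by simp [hv2, smul_mulVec]) (by simp [hμ, h, smul_mulVec])
    have h2 : Subgroup.normalClosure {m} ≤ (Subgroup.center _).comap ρ := by
      refine Subgroup.normalClosure_le_normal ?_
      rintro _ rfl
      refine Subgroup.mem_center_iff.2 fun g => Subtype.ext ?_
      simp [h1]
    exact hne (Subgroup.mem_center_iff.1 (h2 (hm ▸ Subgroup.mem_top h0)) _)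
  let f : G →* Module.End ℂ (Fin 2 → ℂ) :=
    { toFun := fun g => l ^ (-((χ m).toAdd * (χ g).toAdd)) • toLin' (ρ g).1
      map_one' := by simp [Module.End.one_eq_id]
      map_mul' := fun a b => by
        rw [smul_mul_smul_comm, ← zpow_add₀ l0, map_mul χ, map_mul ρ, toAdd_mul, Submonoid.coe_mul,
          toLin'_mul, Module.End.mul_eq_comp]
        congr 2
        ring }
  have hf : ∀ g x, (f.toHomUnits g).1 x = l ^ (-((χ m).toAdd * (χ g).toAdd)) • (ρ g).1 *ᵥ x :=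
    fun _ _ => rfl
  have hn := nn_ne hv
  refine ⟨μ / l, div_ne_zero μ0 l0, hlm, Fin 2 → ℂ, inferInstance, inferInstance, inferInstance,
    f.toHomUnits, by simp, ⟨((μ / l - 1) / nn v) • ((-v 1) • LinearMap.proj 0 +
      (v 0) • LinearMap.proj 1), pw v, fun x => ?_, ?_⟩, fun x hx => ?_⟩
  · have e : (χ m).toAdd * (χ m).toAdd = 1 := by rcases hε with h | h <;> simp [h]
    rw [hf, e, _root_.zpow_neg_one]
    have h1 := dec hv x
    have h2 : (ρ m).1 *ᵥ x = ((star v ⬝ᵥ x) / nn v * l) • v +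
        ((-v 1 * x 0 + v 0 * x 1) / nn v * μ) • pw v := by
      conv_lhs => rw [h1]
      rw [mulVec_add, mulVec_smul, mulVec_smul, hv2, hμ, smul_smul, smul_smul]
    rw [h2]
    conv_rhs => rw [h1]
    simp only [LinearMap.smul_apply, LinearMap.add_apply, LinearMap.proj_apply, smul_eq_mul,
      ← h1]
    conv_rhs => enter [1]; rw [h1]
    rw [smul_add, smul_smul, smul_smul, add_assoc, ← add_smul]
    congr 2
    · field_simp
    · field_simp
      ring
  · simp only [LinearMap.smul_apply, LinearMap.add_apply, LinearMap.proj_apply, smul_eq_mul, pw,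
      cons_val_zero, cons_val_one]
    rw [div_mul_eq_mul_div, div_eq_iff hn, nn]
    ring
  · by_contra hx0
    have h1 : ∀ g, ∃ c d : ℂ, (ρ g).1 *ᵥ x = c • x ∧ (ρ g).1 *ᵥ pw x = d • pw x := fun g => by
      have h2 := hx g
      rw [hf, ← eq_inv_smul_iff₀ (zpow_ne_zero _ l0)] at h2
      obtain ⟨d, hd⟩ := eig_pw (ρ g) hx0 h2
      exact ⟨_, d, h2, hd⟩
    obtain ⟨c, d, h2, h3⟩ := h1 g0
    obtain ⟨c', d', h4, h5⟩ := h1 h0
    refine hne (Subtype.ext (ext2 hx0 ?_ ?_))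
    · simp only [Submonoid.coe_mul, ← mulVec_mulVec, h2, h4, mulVec_smul, smul_smul, mul_comm]
    · simp only [Submonoid.coe_mul, ← mulVec_mulVec, h3, h5, mulVec_smul, smul_smul, mul_comm]

end Pool.Agent.P.MP_28369d_gt.SB
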