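import Pool.Agent.P.MP_28369d_gt.ST.Iface3
import Pool.Agent.P.MP_28369d_gt.SB.TT4

/-! Step UB. -/

namespace Pool.Agent.P.MP_28369d_gt.SB

open Set Filter Topology
open scoped RealInnerProductSpace

theorem UBx.many {g : ℝ → ℝ} (hg : Continuous g) (α β : ℕ → ℝ) (M : ℕ)
    (h1 : ∀ k < M + 1, α k < β k ∧ 0 < g (α k) ∧ g (β k) < 0)
    (h2 : ∀ k, k + 1 < M + 1 → β k < α (k + 1)) : α 0 < β M ∧
    ∃ S : Finset ℝ, S.card = 2 * M + 1 ∧ ∀ t ∈ S, α 0 < t ∧ t < β M ∧ g t = 0 := by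
  classical
  obtain ⟨z, z1, z2, z3⟩ := T4x.zero_between hg (h1 M M.lt_succ_self).1 (Or.inl (h1 M M.lt_succ_self).2)
  induction M generalizing z with
  | zero => exact ⟨z1.trans z2, {z}, rfl, fun t ht => Finset.mem_singleton.1 ht ▸ ⟨z1, z2, z3⟩⟩
  | succ M ih =>
    obtain ⟨x, x1, x2, x3⟩ := T4x.zero_between hg (h1 M (by omega)).1 (Or.inl (h1 M (by omega)).2)
    obtain ⟨e, S, s1, s2⟩ := ih (fun k hk => h1 k (by omega)) (fun k hk => h2 k (by omega)) x x1 x2 x3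
    obtain ⟨y, y1, y2, y3⟩ := T4x.zero_between hg (h2 M (by omega))
      (Or.inr ⟨(h1 M (by omega)).2.2, (h1 (M + 1) (by omega)).2.1⟩)
    have n1 : y ∉ S := fun h => by linarith [(s2 y h).2.1]
    have n2 : z ∉ insert y S := fun h => by
      rcases Finset.mem_insert.1 h with h | h
      · linarith
      · linarith [(s2 z h).2.1]
    refine ⟨by linarith, insert z (insert y S), by
      rw [Finset.card_insert_of_notMem n2, Finset.card_insert_of_notMem n1, s1]; ring, fun t ht => ?_⟩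
    rcases Finset.mem_insert.1 ht with rfl | ht
    · exact ⟨by linarith, z2, z3⟩
    rcases Finset.mem_insert.1 ht with rfl | ht
    · exact ⟨by linarith, by linarith, y3⟩
    · exact ⟨(s2 t ht).1, by linarith [(s2 t ht).2.1], (s2 t ht).2.2⟩

theorem p_UB (hUB3 : S_UB3) (hUB4 : S_UB4) (hINSC : S_INSC) :
    S_UB := by
  intro p q hp hq
  obtain ⟨s, hs0, hs1, hS⟩ := hUB4 p q hp
  obtain ⟨hper, hinj, hder, hcont, hne, hiso⟩ := hUB3 p q s hp hq hs0 hs1
  have hT : 0 < 2 * Real.pi := by positivity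
  obtain ⟨Q, hQv, hQ⟩ := hINSC (torp p q s) (torp' p q s) (2 * Real.pi) hT hper hder hcont hne hinj
  refine Nat.sInf_le ⟨Q, hiso.trans hQ, fun u hu => ?_⟩
  by_contra hc
  have h5 : 2 * p + 1 ≤ mx Q.n fun i => ⟪Q.e i, u⟫ := Nat.lt_of_not_le hc
  have hper' : ∀ i : ℤ, ⟪Q.e (i + Q.n), u⟫ = ⟪Q.e i, u⟫ := by
    intro i
    simp only [Poly.e, show i + Q.n + 1 = i + 1 + Q.n by ring, Q.per]
  obtain ⟨a, b, hab, hba⟩ := alt_of_le_mx hper' h5
  have hN : (0 : ℝ) < Q.n := by exact_mod_cast Q.pos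
  set c : ℤ → ℝ := fun i => 2 * Real.pi * i / Q.n with hcdef
  have hcm : ∀ i j : ℤ, i ≤ j → c i ≤ c j := by
    intro i j hij
    have : (i : ℝ) ≤ j := by exact_mod_cast hij
    simp only [hcdef]
    gcongr
  have hcs : ∀ i : ℤ, c i < c (i + 1) := by
    intro i
    simp only [hcdef]
    push_cast
    gcongr
    linarith
  have hg : ∀ t, HasDerivAt (fun t => ⟪torp p q s t, u⟫) ⟪torp' p q s t, u⟫ t := by
    intro t
    simpa using (hder t).inner ℝ (hasDerivAt_const t u)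
  have hg' : Continuous fun t => ⟪torp' p q s t, u⟫ := hcont.inner continuous_const
  have hξ : ∀ i : ℤ, ∃ ξ ∈ Ioo (c i) (c (i + 1)),
      ⟪torp' p q s ξ, u⟫ = ⟪Q.e i, u⟫ / (c (i + 1) - c i) := by
    intro i
    obtain ⟨ξ, h1, h2⟩ := exists_hasDerivAt_eq_slope (fun t => ⟪torp p q s t, u⟫)
      (fun t => ⟪torp' p q s t, u⟫) (hcs i)
      (fun t _ => (hg t).continuousAt.continuousWithinAt) (fun t _ => hg t)
    refine ⟨ξ, h1, ?_⟩
    rw [h2, Poly.e, inner_sub_left, hQv, hQv]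
  choose ξ hξ1 hξ2 using hξ
  have hξm : ∀ i j : ℤ, i < j → ξ i < ξ j := fun i j hij =>
    (hξ1 i).2.trans_le ((hcm _ _ (by omega)).trans (hξ1 j).1.le)
  obtain ⟨-, S, hcard, hSm⟩ := UBx.many hg' (fun k => ξ (a k)) (fun k => ξ (b k)) (2 * p)
    (fun k hk => ⟨hξm _ _ (hab k hk).1, by
      rw [hξ2]; exact div_pos (hab k hk).2.1 (sub_pos.mpr (hcs _)), by
      rw [hξ2]; exact div_neg_of_neg_of_pos (hab k hk).2.2.1 (sub_pos.mpr (hcs _))⟩)
    fun k hk => hξm _ _ (hba k hk)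
  have h8 := hS u hu (c (a 0)) S fun t ht => by
    obtain ⟨e1, e2, e3⟩ := hSm t ht
    refine ⟨((hξ1 _).1.trans e1).le, ?_, e3⟩
    have e4 : c (b (2 * p) + 1) ≤ c (a 0 + Q.n) :=
      hcm _ _ (by have := (hab (2 * p) (by omega)).2.2.2; omega)
    have e5 : c (a 0 + Q.n) = c (a 0) + 2 * Real.pi := by
      simp only [hcdef]
      push_cast
      field_simp
    have e6 := (hξ1 (b (2 * p))).2
    linarith
  omega

end Pool.Agent.P.MP_28369d_gt.SB
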