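import Pool.Agent.P.MP_28369d_gt.ST.Iface3
import Pool.Agent.P.MP_28369d_gt.SB.TT3

/-! Step UB3. -/

namespace Pool.Agent.P.MP_28369d_gt.SB

open Set Filter Topology
open scoped RealInnerProductSpace

namespace UB3x

open T3x

theorem hd (p : ℕ) (q : ℤ) (s t : ℝ) : HasDerivAt (torp p q s) (torp' p q s t) t := by
  have h := ((hcos q t).const_mul s).const_add 2
  exact hd_pt ((h.mul (hcos p t)).congr_deriv (by ring)) ((h.mul (hsin p t)).congr_deriv (by ring))
    ((((hsin q t).const_mul s).add ((hcos (2 * p) t).const_mul (1 - s))).congr_deriv (by ring))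

theorem cont (p : ℕ) (q : ℤ) (s : ℝ) : Continuous (torp' p q s) :=
  Continuous.pt (by fun_prop) (by fun_prop) (by fun_prop)

theorem per (p : ℕ) (q : ℤ) (s : ℝ) : Function.Periodic (torp p q s) (2 * Real.pi) := fun t => by
  have hc : ∀ n : ℤ, Real.cos (n * (t + 2 * Real.pi)) = Real.cos (n * t) := fun n => by
    rw [mul_add, Real.cos_add_int_mul_two_pi]
  have hs : ∀ n : ℤ, Real.sin (n * (t + 2 * Real.pi)) = Real.sin (n * t) := fun n => by
    rw [mul_add, Real.sin_add_int_mul_two_pi]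
  have h1 := hc p
  have h2 := hs p
  have h3 := hc (2 * p)
  push_cast at h1 h2 h3
  rw [torp, torp, hc, hs, h1, h2, h3]

theorem ne {p : ℕ} (hp : 0 < p) (q : ℤ) {s : ℝ} (h0 : 0 < s) (h1 : s ≤ 1) (t : ℝ) :
    torp' p q s t ≠ 0 := fun h => by
  have e0 : -(s * q * Real.sin (q * t)) * Real.cos (p * t) -
      p * (2 + s * Real.cos (q * t)) * Real.sin (p * t) = 0 := congrArg (fun v : E => v 0) h
  have e1 : -(s * q * Real.sin (q * t)) * Real.sin (p * t) +
      p * (2 + s * Real.cos (q * t)) * Real.cos (p * t) = 0 := congrArg (fun v : E => v 1) h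
  have hp' : (0 : ℝ) < p := by exact_mod_cast hp
  refine (mul_pos hp' (rad h0 h1 (q * t))).ne' ?_
  linear_combination (Real.cos (p * t) * e1 - Real.sin (p * t) * e0) -
    p * (2 + s * Real.cos (q * t)) * Real.cos_sq_add_sin_sq (p * t)

theorem inj {p : ℕ} {q : ℤ} (hq : IsCoprime (p : ℤ) q) {s : ℝ} (h0 : 0 < s) (h1 : s ≤ 1) :
    InjMod (torp p q s) (2 * Real.pi) := fun t u h => by
  have e0 : (2 + s * Real.cos (q * t)) * Real.cos (p * t) =
      (2 + s * Real.cos (q * u)) * Real.cos (p * u) := congrArg (fun v : E => v 0) h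
  have e1 : (2 + s * Real.cos (q * t)) * Real.sin (p * t) =
      (2 + s * Real.cos (q * u)) * Real.sin (p * u) := congrArg (fun v : E => v 1) h
  have e2 : s * Real.sin (q * t) + (1 - s) * Real.cos (2 * p * t) =
      s * Real.sin (q * u) + (1 - s) * Real.cos (2 * p * u) := congrArg (fun v : E => v 2) h
  have hr := rad h0 h1 (q * u)
  have r : 2 + s * Real.cos (q * t) = 2 + s * Real.cos (q * u) := by
    refine (sq_eq_sq₀ (rad h0 h1 _).le hr.le).1 ?_
    linear_combination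
      ((2 + s * Real.cos (q * t)) * Real.cos (p * t) +
        (2 + s * Real.cos (q * u)) * Real.cos (p * u)) * e0 +
      ((2 + s * Real.cos (q * t)) * Real.sin (p * t) +
        (2 + s * Real.cos (q * u)) * Real.sin (p * u)) * e1 -
      (2 + s * Real.cos (q * t)) ^ 2 * Real.cos_sq_add_sin_sq (p * t) +
      (2 + s * Real.cos (q * u)) ^ 2 * Real.cos_sq_add_sin_sq (p * u)
  rw [r] at e0 e1
  have c2 := mul_left_cancel₀ hr.ne' e0
  have c4 : Real.cos (2 * p * t) = Real.cos (2 * p * u) := by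
    rw [mul_assoc, mul_assoc, Real.cos_two_mul, Real.cos_two_mul (p * u), c2]
  rw [c4] at e2
  obtain ⟨k, hk⟩ := ang c2 (mul_left_cancel₀ hr.ne' e1)
  obtain ⟨m, hm⟩ := ang (mul_left_cancel₀ h0.ne' (add_left_cancel r))
    (mul_left_cancel₀ h0.ne' (add_right_cancel e2))
  obtain ⟨a, b, hab⟩ := hq
  have hab' : (a : ℝ) * p + b * q = 1 := by exact_mod_cast hab
  refine ⟨a * k + b * m, ?_⟩
  push_cast
  linear_combination (-a : ℝ) * hk - b * hm - (u - t) * hab'

theorem seg (p : ℕ) (q : ℤ) (s σ t : ℝ) :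
    torp p q 1 t + σ • (torp p q s t - torp p q 1 t) = torp p q (1 + σ * (s - 1)) t := by
  refine E_ext ?_ ?_ ?_ <;> simp [torp] <;> ring

end UB3x

theorem p_UB3 (hFAM : S_FAM) (hSMEMB : S_SMEMB) :
    S_UB3 := by
  intro p q s hp hq h0 h1
  refine ⟨UB3x.per p q s, UB3x.inj hq h0 h1, UB3x.hd p q s, UB3x.cont p q s,
    UB3x.ne hp q h0 h1, ?_⟩
  have e : torus p q = range (torp p q 1) := by
    unfold torus torp
    simp
  obtain ⟨L, hL⟩ := T3x.lip Real.two_pi_pos.ne' (UB3x.per p q s) (UB3x.hd p q s) (UB3x.cont p q s)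
  obtain ⟨L', hL'⟩ := T3x.lip Real.two_pi_pos.ne' (UB3x.per p q 1) (UB3x.hd p q 1)
    (UB3x.cont p q 1)
  rw [e]
  refine hFAM _ _ _ _ Real.two_pi_pos (UB3x.per p q 1) (UB3x.per p q s) (hL.sub hL')
    fun σ hσ => ?_
  have a0 : 0 < 1 + σ * (s - 1) := by nlinarith [hσ.1, hσ.2]
  have a1 : 1 + σ * (s - 1) ≤ 1 := by nlinarith [hσ.1]
  simp only [UB3x.seg]
  exact hSMEMB _ _ _ Real.two_pi_pos (UB3x.per p q _) (UB3x.hd p q _) (UB3x.cont p q _)
    (UB3x.ne hp q a0 a1) (UB3x.inj hq a0 a1)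

end Pool.Agent.P.MP_28369d_gt.SB
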