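import Pool.Agent.P.MP_28369d_gt.ST.Iface3

/-! Step UREF. -/

namespace Pool.Agent.P.MP_28369d_gt.SB

open Set Filter Topology
open scoped RealInnerProductSpace

namespace UREFx

theorem surj {G G' : Type} [Group G] [Group G'] {H : Subgroup G} {φ : G →* G'}
    (h : H.map φ = ⊤) : Function.Surjective (φ.comp H.subtype) := fun g => by
  obtain ⟨x, hx, e⟩ := (h ▸ Subgroup.mem_top g : g ∈ H.map φ)
  exact ⟨⟨x, hx⟩, e⟩

end UREFx

theorem p_UREF (hF0 : S_F0) (hCONN : S_CONN) (hLINK : S_LINK) (hMONO : S_MONO) (hU2A : S_U2A) :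
    S_UREF := by
  rintro K P hI ⟨p, ρ, g, h, hρ⟩
  obtain ⟨o1, o2⟩ := compl_good hCONN hI
  obtain ⟨ω1, a1, a2⟩ := hF0 _ Kᶜ p (MonoidHom.id _) o1 o2 Function.surjective_id
  obtain ⟨ω2, b1, b2⟩ := hLINK K P hI
  obtain ⟨H, ω, c1, c2, c3⟩ := hMONO (FundamentalGroup (Kᶜ : Set E) p × Multiplicative ℤ)
    (fun x y => (ω1 x y, ω2 x y)) Kᶜ o1 o2 ⟨p, p.2⟩ fun x hx => by
      obtain ⟨N, n1, n2, f, n3⟩ := a1 x hx
      obtain ⟨N', m1, m2, f', m3⟩ := b1 x hx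
      refine ⟨N ∩ N', n1.inter m1, ⟨n2, m2⟩, fun y => (f y, f' y), fun y hy => ?_⟩
      filter_upwards [n3 y hy.1, m3 y hy.2] with z u v
      rw [u, v]; rfl
  have s1 := UREFx.surj ((a2 p p.2).red (c3.map (MonoidHom.fst _ _)))
  have s2 := UREFx.surj ((b2 p p.2).red (c3.map (MonoidHom.snd _ _)))
  refine ⟨H, inferInstance, ω, c1, c2, fun m hm => hU2A H
    (ρ.comp ((MonoidHom.fst _ _).comp H.subtype)) ((MonoidHom.snd _ _).comp H.subtype) m ?_ hm.1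
    (unit_of_top ?_)⟩
  · obtain ⟨g, rfl⟩ := s1 g
    obtain ⟨h, rfl⟩ := s1 h
    exact ⟨g, h, hρ⟩
  · rw [← image_singleton, ← Subgroup.map_normalClosure _ _ s2, hm.1]
    exact Subgroup.map_top_of_surjective _ s2

end Pool.Agent.P.MP_28369d_gt.SB
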