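import Pool.Agent.P.MP_28369d_gt.ST.Iface3

/-! Step VK. -/

namespace Pool.Agent.P.MP_28369d_gt.SB

open Set Filter Topology
open scoped RealInnerProductSpace

namespace VKx

noncomputable def zz (x : E) : ℂ := (x 0 : ℂ) + (x 1 : ℂ) * Complex.I
noncomputable def ww (x : E) : ℂ := ((‖zz x‖ - 2 : ℝ) : ℂ) + (x 2 : ℂ) * Complex.I

theorem cont_zz : Continuous zz := by unfold zz; fun_prop
theorem cont_ww : Continuous ww := by have := cont_zz; unfold ww; fun_prop

theorem zz_ne {x : E} (h : ‖ww x‖ ≤ 1) : zz x ≠ 0 := by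
  intro h0
  have a1 : |(ww x).re| ≤ ‖ww x‖ := Complex.abs_re_le_norm _
  have a2 : (ww x).re = -2 := by simp [ww, h0]
  rw [a2] at a1
  norm_num at a1
  linarith

theorem ww_ne {x : E} (h : 1 ≤ ‖ww x‖) : ww x ≠ 0 := by
  intro h0
  rw [h0, norm_zero] at h
  linarith

/-- Toroidal coordinates. -/
noncomputable def tc (θ r φ : ℝ) : E :=
  pt ((2 + r * Real.cos φ) * Real.cos θ) ((2 + r * Real.cos φ) * Real.sin θ) (r * Real.sin φ)

theorem rad {r : ℝ} (h : |r| ≤ 2) (φ : ℝ) : 0 ≤ 2 + r * Real.cos φ := by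
  have : |r * Real.cos φ| ≤ 2 := by
    rw [abs_mul]; nlinarith [Real.abs_cos_le_one φ, abs_nonneg r, abs_nonneg (Real.cos φ)]
  linarith [(abs_le.1 this).1]

theorem zz_tc (θ r φ : ℝ) :
    zz (tc θ r φ) = ((2 + r * Real.cos φ : ℝ) : ℂ) * Complex.exp (θ * Complex.I) := by
  simp only [zz, tc, pt_0, pt_1, Complex.exp_mul_I]; push_cast; ring

theorem ww_tc {r : ℝ} (h : |r| ≤ 2) (θ φ : ℝ) :
    ww (tc θ r φ) = (r : ℂ) * Complex.exp (φ * Complex.I) := by
  rw [ww, zz_tc, norm_mul, Complex.norm_exp_ofReal_mul_I, Complex.norm_real,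
    Real.norm_of_nonneg (rad h φ), Complex.exp_mul_I]
  simp only [tc, pt_2]; push_cast; ring

theorem lf_zz {r : ℝ} (h : |r| ≤ 2) (θ φ : ℝ) : Lf θ (zz (tc θ r φ)) := by
  rw [zz_tc]; exact lf_polar (rad h φ) θ

theorem lf_ww {r : ℝ} (h : |r| ≤ 2) (h0 : 0 ≤ r) (θ φ : ℝ) : Lf φ (ww (tc θ r φ)) := by
  rw [ww_tc h]; exact lf_polar h0 φ

theorem nw_tc {r : ℝ} (h : |r| ≤ 2) (θ φ : ℝ) : ‖ww (tc θ r φ)‖ = |r| := by
  rw [ww_tc h, norm_mul, Complex.norm_exp_ofReal_mul_I, Complex.norm_real, mul_one,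
    Real.norm_eq_abs]

theorem mem_iff {p : ℕ} {q : ℤ} {x : E} : x ∈ torus p q ↔ ∃ t : ℝ, tc (p * t) 1 (q * t) = x := by
  simp only [torus, tc, one_mul, mem_range]

theorem nw_mem {p : ℕ} {q : ℤ} {x : E} (h : x ∈ torus p q) : ‖ww x‖ = 1 := by
  obtain ⟨t, rfl⟩ := mem_iff.1 h
  rw [nw_tc (by norm_num), abs_one]

theorem key {p : ℕ} {q u v : ℤ} (hp : 0 < p) (h : q * u - p * v = 1) {x : E} {θ φ : ℝ} {j : ℤ}
    (h1 : ‖ww x‖ = 1) (hθ : Lf θ (zz x)) (hφ : Lf φ (ww x))
    (hj : q * θ - p * φ = j * (2 * Real.pi)) : x ∈ torus p q := by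
  have hp' : (p : ℝ) ≠ 0 := by exact_mod_cast hp.ne'
  have hr : (q : ℝ) * u - p * v = 1 := by exact_mod_cast h
  have e1 : (p : ℝ) * ((θ + (-(u * j) : ℤ) * (2 * Real.pi)) / p) =
      θ + (-(u * j) : ℤ) * (2 * Real.pi) := by field_simp
  have e2 : (q : ℝ) * ((θ + (-(u * j) : ℤ) * (2 * Real.pi)) / p) =
      φ + (-(v * j) : ℤ) * (2 * Real.pi) := by
    push_cast; field_simp; linear_combination hj - j * (2 * Real.pi) * hr
  unfold Lf at hθ hφ
  rw [h1, Complex.ofReal_one, one_mul] at hφ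
  have c1 : ‖zz x‖ - 2 = Real.cos φ := by
    have := congrArg Complex.re hφ
    rw [Complex.exp_ofReal_mul_I_re] at this
    simpa [ww] using this
  have c2 : x 2 = Real.sin φ := by
    have := congrArg Complex.im hφ
    rw [Complex.exp_ofReal_mul_I_im] at this
    simpa [ww] using this
  have c3 : x 0 = ‖zz x‖ * Real.cos θ := by
    have := congrArg Complex.re hθ
    rw [Complex.re_ofReal_mul, Complex.exp_ofReal_mul_I_re] at this
    simpa [zz] using this
  have c4 : x 1 = ‖zz x‖ * Real.sin θ := by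
    have := congrArg Complex.im hθ
    rw [Complex.im_ofReal_mul, Complex.exp_ofReal_mul_I_im] at this
    simpa [zz] using this
  refine mem_iff.2 ⟨(θ + (-(u * j) : ℤ) * (2 * Real.pi)) / p, ?_⟩
  rw [e1, e2]
  refine E_ext ?_ ?_ ?_ <;>
    simp only [tc, pt_0, pt_1, pt_2, Real.cos_add_int_mul_two_pi, Real.sin_add_int_mul_two_pi]
  · rw [c3, ← c1]; ring
  · rw [c4, ← c1]; ring
  · rw [c2, one_mul]

noncomputable def jj (p : ℕ) (q : ℤ) (θ φ : ℝ) : ℤ := ⌊(q * θ - p * φ) / (2 * Real.pi)⌋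

theorem jj_add (p : ℕ) (q : ℤ) (θ φ : ℝ) (k l : ℤ) :
    jj p q (θ + k * (2 * Real.pi)) (φ + l * (2 * Real.pi)) = jj p q θ φ + (q * k - p * l) := by
  unfold jj
  rw [← Int.floor_add_intCast]
  congr 1
  push_cast
  field_simp
  ring

variable {G : Type} [Group G]

def gg (a b : G) (u v j : ℤ) : G := a ^ (u * j) * b ^ (-(v * j))

theorem gg_add {a b : G} {p : ℕ} {q u v : ℤ} (h : q * u - p * v = 1) (hab : a ^ p = b ^ q)
    (j k l : ℤ) : gg a b u v (j + (q * k - p * l)) = a ^ k * gg a b u v j * b ^ (-l) := by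
  have e1 : u * (j + (q * k - p * l)) = k + u * j + p * (v * k - u * l) := by
    linear_combination k * h
  have e2 : -(v * (j + (q * k - p * l))) = -(q * (v * k - u * l)) + (-(v * j) + -l) := by
    linear_combination (-l) * h
  have e3 : a ^ ((p : ℤ) * (v * k - u * l)) = b ^ (q * (v * k - u * l)) := by
    rw [zpow_mul, zpow_mul, zpow_natCast, hab]
  rw [gg, gg, e1, e2, zpow_add, zpow_add, zpow_add b, zpow_add b, e3, zpow_neg b (q * _)]
  group

open Classical in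
noncomputable def om (a b : G) (p : ℕ) (q u v : ℤ) (x y : E) : G :=
  if ‖ww y‖ ≤ 1 then a ^ cz (zz x) (zz y)
  else if ‖ww x‖ ≤ 1 then gg a b u v (jj p q (zz x).arg (ww x).arg) * b ^ cz (ww x) (ww y)
  else b ^ cz (ww x) (ww y)

open Classical in
noncomputable def fs (a b : G) (u v J : ℤ) (θ φ : ℝ) (x : E) : G :=
  if ‖ww x‖ ≤ 1 then a ^ wn θ (zz x) else gg a b u v J * b ^ wn φ (ww x)

theorem step {a b : G} {p : ℕ} {q u v : ℤ} (h : q * u - p * v = 1) (hab : a ^ p = b ^ q)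
    {X : Type} [TopologicalSpace X] {c : X → E} {θ φ : X → ℝ} {x : X} (hc : ContinuousAt c x)
    (J : ℤ) (hθ : ‖ww (c x)‖ ≤ 1 → ContinuousAt θ x ∧ ∀ᶠ y in 𝓝 x, Lf (θ y) (zz (c y)))
    (hφ : 1 ≤ ‖ww (c x)‖ → ContinuousAt φ x ∧ ∀ᶠ y in 𝓝 x, Lf (φ y) (ww (c y))) :
    ∀ᶠ y in 𝓝 x, ∃ J', (J' = J ∨ (‖ww (c x)‖ = 1 ∧ J' = jj p q (θ x) (φ x))) ∧
      fs a b u v J (θ x) (φ x) (c x) * om a b p q u v (c x) (c y) =
        gg a b u v J' * (gg a b u v J)⁻¹ * fs a b u v J (θ y) (φ y) (c y) := by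
  have cz' : ContinuousAt (fun y => zz (c y)) x := ContinuousAt.comp cont_zz.continuousAt hc
  have cw : ContinuousAt (fun y => ww (c y)) x := ContinuousAt.comp cont_ww.continuousAt hc
  rcases lt_trichotomy ‖ww (c x)‖ 1 with h1 | h1 | h1
  · filter_upwards [wn_ev cz' (zz_ne h1.le) (hθ h1.le).1 (hθ h1.le).2,
      cw.norm.eventually_lt continuousAt_const h1] with y a1 a2
    refine ⟨J, Or.inl rfl, ?_⟩
    rw [fs, fs, om, if_pos h1.le, if_pos a2.le, if_pos a2.le, a1, zpow_add, mul_inv_cancel, one_mul]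
  · filter_upwards [wn_ev cz' (zz_ne h1.le) (hθ h1.le).1 (hθ h1.le).2,
      wn_ev cw (ww_ne h1.ge) (hφ h1.ge).1 (hφ h1.ge).2] with y a1 a2
    by_cases a3 : ‖ww (c y)‖ ≤ 1
    · refine ⟨J, Or.inl rfl, ?_⟩
      rw [fs, fs, om, if_pos h1.le, if_pos a3, if_pos a3, a1, zpow_add, mul_inv_cancel, one_mul]
    · refine ⟨_, Or.inr ⟨h1, rfl⟩, ?_⟩
      have e1 := (hθ h1.le).2.self_of_nhds.wn_spec (zz_ne h1.le)
      have e2 := (hφ h1.ge).2.self_of_nhds.wn_spec (ww_ne h1.ge)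
      have e3 := jj_add p q (zz (c x)).arg (ww (c x)).arg (wn (θ x) (zz (c x))) (wn (φ x) (ww (c x)))
      rw [← e1, ← e2] at e3
      rw [fs, fs, om, if_pos h1.le, if_neg a3, if_neg a3, if_pos h1.le, a2, e3, gg_add h hab]
      group
  · filter_upwards [wn_ev cw (ww_ne h1.le) (hφ h1.le).1 (hφ h1.le).2,
      continuousAt_const.eventually_lt cw.norm h1] with y a1 a2
    refine ⟨J, Or.inl rfl, ?_⟩
    rw [fs, fs, om, if_neg h1.not_ge, if_neg a2.not_ge, if_neg a2.not_ge, if_neg h1.not_ge, a1]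
    group

noncomputable def lt (Z : E → ℂ) (x y : E) : ℝ := (Z x).arg + (Z y / Z x).arg

theorem slit {Z : E → ℂ} (hZ : Continuous Z) {x : E} (h : Z x ≠ 0) :
    ∀ᶠ y in 𝓝 x, ContinuousAt (lt Z x) y ∧ ∀ᶠ z in 𝓝 y, Lf (lt Z x z) (Z z) := by
  filter_upwards [(hZ.div_const (Z x)).continuousAt.eventually
    (Complex.isOpen_slitPlane.mem_nhds (show Z x / Z x ∈ _ by simp [div_self h]))] with y hy
  exact ⟨contAt_lift hZ.continuousAt hy _, Eventually.of_forall fun z => lf_div (lf_arg _) h _⟩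

theorem nb {p : ℕ} {q u v : ℤ} (hp : 0 < p) (h : q * u - p * v = 1) (x : E) :
    ∃ J : ℤ, ∀ᶠ y in 𝓝 x,
      (‖ww y‖ ≤ 1 → ContinuousAt (lt zz x) y ∧ ∀ᶠ z in 𝓝 y, Lf (lt zz x z) (zz z)) ∧
      (1 ≤ ‖ww y‖ → ContinuousAt (lt ww x) y ∧ ∀ᶠ z in 𝓝 y, Lf (lt ww x z) (ww z)) ∧
      (‖ww y‖ = 1 → jj p q (lt zz x y) (lt ww x y) = J ∨
        (x ∈ torus p q ∧ jj p q (lt zz x y) (lt ww x y) = J - 1)) := by
  have cw : ContinuousAt (fun y => ‖ww y‖) x := cont_ww.norm.continuousAt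
  refine ⟨jj p q (lt zz x x) (lt ww x x), ?_⟩
  rcases lt_trichotomy ‖ww x‖ 1 with h1 | h1 | h1
  · filter_upwards [slit cont_zz (zz_ne h1.le), cw.eventually_lt continuousAt_const h1] with y a1 a2
    exact ⟨fun _ => a1, fun c => absurd c a2.not_ge, fun c => absurd c a2.ne⟩
  · have s1 := slit cont_zz (zz_ne h1.le)
    have s2 := slit cont_ww (ww_ne h1.ge)
    have cr : ContinuousAt (fun y => (q * lt zz x y - p * lt ww x y) / (2 * Real.pi)) x :=
      ((continuousAt_const.mul s1.self_of_nhds.1).sub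
        (continuousAt_const.mul s2.self_of_nhds.1)).div_const _
    have b1 := cr.eventually_lt continuousAt_const (Int.lt_floor_add_one _)
    rcases (Int.floor_le ((q * lt zz x x - p * lt ww x x) / (2 * Real.pi))).eq_or_lt with b2 | b2
    · have hK : x ∈ torus p q := key hp h h1 s1.self_of_nhds.2.self_of_nhds
        s2.self_of_nhds.2.self_of_nhds ((div_eq_iff Real.two_pi_pos.ne').1 b2.symm)
      have b3 := (continuousAt_const (y := (jj p q (lt zz x x) (lt ww x x) : ℝ) - 1)).eventually_lt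
        cr (by rw [← b2, jj]; linarith)
      filter_upwards [s1, s2, b1, b3] with y a1 a2 a3 a4
      refine ⟨fun _ => a1, fun _ => a2, fun _ => ?_⟩
      have c1 : jj p q (lt zz x y) (lt ww x y) < jj p q (lt zz x x) (lt ww x x) + 1 :=
        Int.floor_lt.2 (by push_cast; exact a3)
      have c2 : jj p q (lt zz x x) (lt ww x x) - 1 ≤ jj p q (lt zz x y) (lt ww x y) :=
        Int.le_floor.2 (by push_cast; exact a4.le)
      rcases c2.eq_or_lt with c3 | c3
      · exact Or.inr ⟨hK, c3.symm⟩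
      · exact Or.inl (by omega)
    · filter_upwards [s1, s2, b1, continuousAt_const.eventually_lt cr b2] with y a1 a2 a3 a4
      exact ⟨fun _ => a1, fun _ => a2, fun _ => Or.inl (Int.floor_eq_iff.2 ⟨a4.le, a3⟩)⟩
  · filter_upwards [slit cont_ww (ww_ne h1.le), continuousAt_const.eventually_lt cw h1] with y a1 a2
    exact ⟨fun c => absurd c a2.not_ge, fun _ => a1, fun c => absurd c a2.ne'⟩

theorem cont_tc {θ r φ : ℝ → ℝ} (h1 : Continuous θ) (h2 : Continuous r) (h3 : Continuous φ) :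
    Continuous fun t => tc (θ t) (r t) (φ t) :=
  Continuous.pt (by fun_prop) (by fun_prop) (by fun_prop)

/-- Transport along a path given in toroidal coordinates. -/
theorem walk {a b : G} {p : ℕ} {q u v : ℤ} (h : q * u - p * v = 1) (hab : a ^ p = b ^ q)
    {S : E → G → Prop} (hS : Inv (om a b p q u v) (torus p q)ᶜ S) {θ r φ : ℝ → ℝ}
    (h1 : Continuous θ) (h2 : Continuous r) (h3 : Continuous φ) {I : Set ℝ} (hI : IsPreconnected I)
    (hr : ∀ t ∈ I, 0 ≤ r t ∧ r t < 2 ∧ (r t = 1 → q * θ t - p * φ t = Real.pi)) (g : G) {t t' : ℝ}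
    (ht : t ∈ I) (ht' : t' ∈ I) :
    S (tc (θ t) (r t) (φ t)) (g * fs a b u v 0 (θ t) (φ t) (tc (θ t) (r t) (φ t))) ↔
      S (tc (θ t') (r t') (φ t')) (g * fs a b u v 0 (θ t') (φ t') (tc (θ t') (r t') (φ t'))) := by
  have ab : ∀ t ∈ I, |r t| < 2 := fun t ht => by rw [abs_of_nonneg (hr t ht).1]; exact (hr t ht).2.1
  have nw : ∀ t ∈ I, ‖ww (tc (θ t) (r t) (φ t))‖ = r t := fun t ht => by
    rw [nw_tc (ab t ht).le, abs_of_nonneg (hr t ht).1]
  refine hS.path (cont_tc h1 h2 h3) hI (fun t ht hK => ?_)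
    (F := fun t => fs a b u v 0 (θ t) (φ t) (tc (θ t) (r t) (φ t))) (fun t ht => ?_) g ht ht'
  · have e1 : r t = 1 := (nw t ht).symm.trans (nw_mem hK)
    obtain ⟨s, hs⟩ := mem_iff.1 hK
    obtain ⟨k, hk⟩ := (lf_zz (ab t ht).le (θ t) (φ t)).diff (hs ▸ lf_zz (by norm_num) _ _)
      (zz_ne (nw_mem hK).le)
    obtain ⟨l, hl⟩ := (lf_ww (ab t ht).le (hr t ht).1 (θ t) (φ t)).diff
      (hs ▸ lf_ww (by norm_num) zero_le_one _ _) (ww_ne (nw_mem hK).ge)
    have e2 := (hr t ht).2.2 e1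
    have e3 : ((2 * (q * k - p * l) : ℤ) : ℝ) * Real.pi = ((1 : ℤ) : ℝ) * Real.pi := by
      push_cast; rw [hk, hl] at e2; linear_combination e2
    have e4 : 2 * (q * k - p * l) = 1 := by exact_mod_cast mul_right_cancel₀ Real.pi_ne_zero e3
    omega
  · have ev : ∀ᶠ s in 𝓝 t, |r s| < 2 := h2.abs.continuousAt.eventually_lt continuousAt_const (ab t ht)
    filter_upwards [step h hab (cont_tc h1 h2 h3).continuousAt 0 (θ := θ) (φ := φ) (x := t)
      (fun _ => ⟨h1.continuousAt, ev.mono fun s c => lf_zz c.le _ _⟩)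
      fun c => ⟨h3.continuousAt, by
        filter_upwards [ev, continuousAt_const.eventually_lt h2.continuousAt
          (show 0 < r t by rw [nw t ht] at c; linarith)] with s c1 c2
        exact lf_ww c1.le c2.le _ _⟩] with s ⟨J, c1, c2⟩
    have : J = 0 := by
      rcases c1 with c1 | ⟨c1, rfl⟩
      · exact c1
      · rw [jj, (hr t ht).2.2 ((nw t ht).symm.trans c1), Int.floor_eq_iff]
        have := Real.pi_pos
        constructor
        · push_cast; positivity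
        · rw [div_lt_iff₀ (by positivity)]; push_cast; linarith
    rw [c2, this, mul_inv_cancel, one_mul]

theorem tc_per (θ r φ : ℝ) (k l : ℤ) :
    tc (θ + k * (2 * Real.pi)) r (φ + l * (2 * Real.pi)) = tc θ r φ := by
  simp only [tc, Real.cos_add_int_mul_two_pi, Real.sin_add_int_mul_two_pi]

end VKx

open VKx in
theorem p_VK :
    S_VK := by
  intro G _ a b p q u v hp hq h hab hcl hcon
  refine ⟨om a b p q u v, fun x hx => ?_, ?_, ∅, finite_empty, fun x hx _ => ?_⟩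
  · obtain ⟨J, hJ⟩ := nb hp h x
    obtain ⟨N, n1, n2, n3⟩ := mem_nhds_iff.1 hJ
    refine ⟨N, n2, n3, fun y => fs a b u v J (lt zz x y) (lt ww x y) y, fun y hy => ?_⟩
    filter_upwards [step h hab (c := id) continuousAt_id J (n1 hy).1 (n1 hy).2.1] with z ⟨J', c1, c2⟩
    have : J' = J := by
      rcases c1 with c1 | ⟨c1, rfl⟩
      · exact c1
      · exact ((n1 hy).2.2 c1).resolve_right fun c => hx c.1
    rw [this, mul_inv_cancel, one_mul] at c2
    exact c2.symm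
  · have hq' : (q : ℝ) ≠ 0 := by exact_mod_cast hq
    set α : ℝ := Real.pi / q with hα
    have hx : tc α 0 0 ∈ (torus p q)ᶜ := fun c => by
      have := nw_mem c
      rw [nw_tc (by norm_num)] at this
      norm_num at this
    refine FullAt.full (fullAt_of_gen hcl fun S hS => ?_) hx hcon
    have f0 : ∀ θ : ℝ, fs a b u v 0 θ 0 (tc α 0 0) = a ^ wn θ (zz (tc α 0 0)) := fun θ =>
      if_pos (by rw [nw_tc (by norm_num)]; norm_num)
    have f1 : ∀ φ : ℝ, fs a b u v 0 α φ (tc α (3 / 2) 0) = b ^ wn φ (ww (tc α (3 / 2) 0)) := fun φ => by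
      rw [fs, if_neg (by rw [nw_tc (by norm_num [abs_of_pos])]; norm_num [abs_of_pos])]; simp [gg]
    have A : ∀ (g : G) (k : ℤ), S (tc α 0 0) (g * a ^ wn α (zz (tc α 0 0))) ↔
        S (tc α 0 0) (g * a ^ (wn α (zz (tc α 0 0)) + k)) := fun g k => by
      have := walk h hab hS (θ := fun t => α + t * (2 * Real.pi)) (r := fun _ => 0) (φ := fun _ => 0)
        (by fun_prop) continuous_const continuous_const isPreconnected_univ
        (fun t _ => by norm_num) g (mem_univ 0) (mem_univ (k : ℝ))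
      have e := tc_per α 0 0 k 0
      simp only [Int.cast_zero, zero_mul, add_zero] at e this
      rwa [e, f0, f0, wn_add] at this
    have A0 : ∀ g, S (tc α 0 0) (g * a ^ wn α (zz (tc α 0 0))) ↔ S (tc α 0 0) g := fun g => by
      simpa using A g (-wn α (zz (tc α 0 0)))
    have B : ∀ g, S (tc α 0 0) g ↔ S (tc α (3 / 2) 0) (g * b ^ wn 0 (ww (tc α (3 / 2) 0))) :=
      fun g => by
        have := walk h hab hS (θ := fun _ => α) (r := fun t => t) (φ := fun _ => 0)
          continuous_const continuous_id continuous_const (isPreconnected_Icc (a := 0) (b := 3 / 2))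
          (fun t ht => ⟨ht.1, by linarith [ht.2], fun _ => by rw [hα]; field_simp; ring⟩) g
          (t := 0) (t' := 3 / 2) (by norm_num) (by norm_num)
        rwa [f0, f1, A0] at this
    rintro _ (rfl | rfl) g
    · have := A g (1 - wn α (zz (tc α 0 0)))
      rw [A0] at this
      simpa using this
    · have := walk h hab hS (θ := fun _ => α) (r := fun _ => 3 / 2)
        (φ := fun t => 0 + t * (2 * Real.pi)) continuous_const continuous_const (by fun_prop)
        isPreconnected_univ (fun t _ => by norm_num) g (mem_univ 0) (mem_univ ((1 : ℤ) : ℝ))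
      have e := tc_per α (3 / 2) 0 0 1
      simp only [Int.cast_zero, zero_mul, add_zero] at e
      simp only [zero_mul, add_zero] at this
      rw [e, f1, f1, wn_add, add_comm _ (1 : ℤ), zpow_add, zpow_one, ← mul_assoc] at this
      rw [B, B, this]
  · obtain ⟨J, hJ⟩ := nb hp h x
    refine ⟨_, hJ, a ^ (u * (J - 1)), fun y => fs a b u v J (lt zz x y) (lt ww x y) y,
      fun y hy => ?_⟩
    filter_upwards [step h hab (c := id) continuousAt_id J hy.1.1 hy.1.2.1] with z ⟨J', c1, c2⟩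
    have e : fs a b u v J (lt zz x y) (lt ww x y) y * om a b p q u v y z *
        (fs a b u v J (lt zz x z) (lt ww x z) z)⁻¹ = gg a b u v J' * (gg a b u v J)⁻¹ :=
      mul_inv_eq_of_eq_mul c2
    rw [e]
    have : J' = J ∨ J' = J - 1 := by
      rcases c1 with c1 | ⟨c1, rfl⟩
      · exact Or.inl c1
      · exact (hy.1.2.2 c1).imp id fun c => c.2
    rcases this with rfl | rfl
    · simp
    · refine ⟨-1, ?_⟩
      simp only [gg]
      group

end Pool.Agent.P.MP_28369d_gt.SB
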