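import Pool.Agent.P.MP_28369d_gt.ST.FinF
import Pool.Agent.P.MP_28369d_gt.ST.TVK
import Pool.Agent.P.MP_28369d_gt.ST.TMERC
import Pool.Agent.P.MP_28369d_gt.ST.TSUM
import Pool.Agent.P.MP_28369d_gt.ST.TBRN
import Pool.Agent.P.MP_28369d_gt.ST.TPRG
import Pool.Agent.P.MP_28369d_gt.ST.TGLUE
import Pool.Agent.P.MP_28369d_gt.ST.THYP
import Pool.Agent.P.MP_28369d_gt.ST.TTREF
import Pool.Agent.P.MP_28369d_gt.ST.TMONO
import Pool.Agent.P.MP_28369d_gt.ST.TBARG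
import Pool.Agent.P.MP_28369d_gt.ST.TLINK
import Pool.Agent.P.MP_28369d_gt.ST.TU2A
import Pool.Agent.P.MP_28369d_gt.ST.TUREF
import Pool.Agent.P.MP_28369d_gt.ST.TTAFF
import Pool.Agent.P.MP_28369d_gt.ST.TAFFS
import Pool.Agent.P.MP_28369d_gt.ST.TREPL
import Pool.Agent.P.MP_28369d_gt.ST.TT3L
import Pool.Agent.P.MP_28369d_gt.ST.TFOUR
import Pool.Agent.P.MP_28369d_gt.ST.TE2
import Pool.Agent.P.MP_28369d_gt.ST.TUB3
import Pool.Agent.P.MP_28369d_gt.ST.TUB4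
import Pool.Agent.P.MP_28369d_gt.ST.TUB
import Pool.Agent.P.MP_28369d_gt.ST.TSYM
import Pool.Agent.P.MP_28369d_gt.ST.TTK

/-!
Sums with a torus knot, without hypotheses.
-/

namespace Pool.Agent.P.MP_28369d_gt.SB

theorem q_SUM : S_SUM := p_SUM p_CS (p_MERC p_GD p_WIRT s_MAXG)

theorem q_LINK : S_LINK := p_LINK p_BARG s_CONN

theorem q_GLUE : S_GLUE := p_GLUE q_SUM (p_BRN p_GD p_WIRT s_MAXG) p_PRG

theorem q_T3L : S_T3L :=
  p_T3L q_CORE (p_SQ1 q_MOVE p_GD) p_SQ2 p_SQ3 q_SQD (p_REPL q_SW s_MAXG) (p_COLPI s_W5) q_SYSC p_GAL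

theorem q_TK : S_TK :=
  p_TK (p_TAFF p_VK) (p_AFFS q_SUM q_LINK p_MONO s_CONN) q_T3L p_FOUR (p_E2 q_T3L) s_CONN

theorem q_UB : S_UB := p_UB (p_UB3 s_FAM s_SMEMB) p_UB4 (s_INSC s_LOC s_SMEMB)

/-- Lower bound for the sum of a torus knot and a knot with a reflection representation. -/
theorem finG (p n : ℕ) : ∃ C : ℕ, ∀ (q : ℤ) (J K : Set E), 2 ≤ p → IsCoprime (p : ℤ) q →
    C < q.natAbs → RefOne J n → ConnSum (torus p q) J K →
    p + n + 1 ≤ sb K ∧ (3 ≤ p → p + n + 2 ≤ sb K) := by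
  obtain ⟨C, hC⟩ := q_TK (p + n - 1)
  refine ⟨max C p, fun q J K hp hc hq hJ hs => ?_⟩
  obtain ⟨P1, -, -, -, -, i1, -⟩ := id hs
  have h1 := p_TREF p_VK p_HYP p q (by omega) (by omega) hc (compl_good s_CONN i1).2
  have h2 := hC p q J K hp hc (by omega) hs fun Q u a b => by
    have := q_GLUE _ _ _ _ _ h1 hJ hs Q u a b
    omega
  exact ⟨by omega, fun h => by have := h2.2 h; omega⟩

theorem finTP (p p' : ℕ) : ∃ C : ℕ, ∀ (q q' : ℤ) (K : Set E), 2 ≤ p →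
    (p' = p ∨ 3 ≤ p ∧ (p' = p + 1 ∨ p = p' + 1)) → IsCoprime (p : ℤ) q → IsCoprime (p' : ℤ) q' →
    (C : ℤ) < |q| → (p' : ℤ) ≤ |q'| →
    (ConnSum (torus p q) (torus p' q') K ∨ ConnSum (torus p' q') (torus p q) K) →
    max (sb (torus p q)) (sb (torus p' q')) < sb K := by
  obtain ⟨C, hC⟩ := finG p p'
  refine ⟨C, fun q q' K hp hpp hc hc' hq hq' hs => ?_⟩
  have hs' : ConnSum (torus p q) (torus p' q') K := hs.elim id (p_SYM _ _ _)
  obtain ⟨-, P2, -, -, -, -, i2, -⟩ := id hs'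
  rw [Int.abs_eq_natAbs] at hq hq'
  have h1 := p_TREF p_VK p_HYP p' q' (by omega) (by omega) hc' (compl_good s_CONN i2).2
  have h2 := hC q _ K hp hc (by omega) h1.one hs'
  have h3 := q_UB p q (by omega) hc
  have h4 := q_UB p' q' (by omega) hc'
  rcases hpp with h | h
  · omega
  · have := h2.2 h.1
    omega

theorem finTA : ∃ C : ℕ, ∀ (p : ℕ) (q : ℤ) (J K : Set E), (p = 2 ∨ p = 3) → IsCoprime (p : ℤ) q →
    (C : ℤ) < |q| → U2Rep J → (ConnSum (torus p q) J K ∨ ConnSum J (torus p q) K) →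
    sb (torus p q) < sb K := by
  obtain ⟨C2, h2⟩ := finG 2 2
  obtain ⟨C3, h3⟩ := finG 3 2
  refine ⟨max C2 C3, fun p q J K hp hc hq hJ hs => ?_⟩
  have hs' : ConnSum (torus p q) J K := hs.elim id (p_SYM _ _ _)
  obtain ⟨-, P2, -, -, -, -, i2, -⟩ := id hs'
  rw [Int.abs_eq_natAbs] at hq
  have h1 := p_UREF s_F0 s_CONN q_LINK p_MONO p_U2A J P2 i2 hJ
  have h4 := q_UB p q (by omega) hc
  rcases hp with rfl | rfl
  · have := (h2 q J K le_rfl hc (by omega) h1 hs').1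
    omega
  · have := (h3 q J K (by omega) hc (by omega) h1 hs').2 le_rfl
    omega

end Pool.Agent.P.MP_28369d_gt.SB
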