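import Pool.Agent.P.MP_28369d_gt.ST.Iface
import Pool.Agent.P.MP_28369d_gt.ST.Defs2

/-!
Statements of the steps of the twist bound with complex labels and integer polynomials.
-/

namespace Pool.Agent.P.MP_28369d_gt.SB

open Set Filter Topology
open scoped RealInnerProductSpace

/-- One crossing of a twist region, read upwards. -/
def Mvc {ι : Type} (s : ι → ℂ) (ε ε' : ℤ) (x y : (ι → ℂ) × (ι → ℂ) × ℤ) : Prop :=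
  y = (x.2.1 + s ^ (ε' * x.2.2) * (x.1 - x.2.1), x.2.1, -x.2.2) ∨
    y = (x.1, x.1 + s ^ (-(ε * x.2.2)) * (x.2.1 - x.1), -x.2.2)

/-- Two integer polynomials with few terms and prescribed values at one. -/
def Few (P0 P1 : Polynomial ℤ) : Prop := P0.support.card ≤ 2 ∧ P1.support.card ≤ 2 ∧
  ∃ (k : ℕ) (Q0 Q1 : Polynomial ℤ), P0 = (1 + Polynomial.X) ^ k * Q0 ∧
    P1 = (1 + Polynomial.X) ^ k * Q1 ∧ Q0.eval 1 = 1 ∧ Q1.eval 1 = 0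

/-- `D` is a power of `1 + X` times a polynomial with value one at one. -/
def Nrm (D : Polynomial ℤ) : Prop :=
  ∃ (k : ℕ) (D0 : Polynomial ℤ), D = (1 + Polynomial.X) ^ k * D0 ∧ D0.eval 1 = 1

/-- One link of the chain of relations between the values at the points of `Z`. -/
def Linkc {ι : Type} (s : ι → ℂ) (a : ℝ → ι → ℂ) (Z : Set ℝ) (θ θ' : ℝ) : Prop :=
  ∃ (P0 P1 : Polynomial ℤ) (x y : ℝ), Few P0 P1 ∧ x ∈ Z ∧ y ∈ Z ∧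
    ∀ t, Polynomial.aeval (s t) P0 * (a θ' t - a θ t) = Polynomial.aeval (s t) P1 * (a x t - a y t)

-- deps: SW MAXG F0 CONN
-- imports: Pool.Agent.P.MP_28369d_gt.SB.Top
def S_REPC : Prop := ∀ (K : Set E) (Q : Poly) (u d : E) (t : ℂ), Iso K Q.carrier → GDg Q d →
  Gen Q u → ⟪d, u⟫ = 0 → AffC K t → ∃ (s : ℂ) (a : ℝ → ℂ), s ≠ 0 ∧
    (∃ j k : ℤ, s = t ^ j ∧ t = s ^ k) ∧ Col Q d s a ∧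
    ∃ i j : ℤ, Mx Q u i ∧ Mx Q u j ∧ a (i + 1) ≠ a (j + 1)

-- deps: W5
def S_COLPI : Prop := ∀ (ι : Type) (Q : Poly) (d : E) (s : ι → ℂ) (a : ι → ℝ → ℂ), Nonempty ι →
  GDg Q d → (∀ t, Col Q d (s t) (a t)) → Col Q d s fun τ t => a t τ

-- deps:
def S_GAL : Prop := ∀ D : Polynomial ℤ, ∃ D' : Polynomial ℤ,
  D'.support.card ≤ D.support.card ^ 2 ∧ (Nrm D → Nrm D') ∧
  ∀ (s t : ℂ) (j k : ℤ), s ≠ 0 → s = t ^ j → t = s ^ k → Polynomial.aeval s D = 0 →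
    Polynomial.aeval t D' = 0

-- deps:
def S_XLOCC : Prop := ∀ (ι : Type) (Q : Poly) (u d : E) (s : ι → ℂ) (a : ℝ → ι → ℂ) (ε ε' : ℤ)
  (φ ψ : ℝ → ℝ) (h r : ℝ), ⟪d, u⟫ = 0 → (∀ t, s t ≠ 0) → Col Q d s a → (ε = 1 ∨ ε = -1) →
  (ε' = 1 ∨ ε' = -1) → ContinuousAt φ h → ContinuousAt ψ h →
  (∀ᶠ h' in 𝓝 h, ⟪Q.γ (φ h'), u⟫ = h' ∧ ⟪Q.γ (ψ h'), u⟫ = h') → 0 < ε * ⟪Q.e ⌊φ h⌋, u⟫ →
  0 < ε' * ⟪Q.e ⌊ψ h⌋, u⟫ → 0 < r → Q.γ (ψ h) = Q.γ (φ h) + r • d → ∃ (x y : ι → ℂ) (σ : ℤ),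
    (σ = 1 ∨ σ = -1) ∧ y = a (ψ h) + s ^ (ε' * σ) * (x - a (ψ h)) ∧
    (∀ᶠ h' in 𝓝[<] h, a (φ h') = x ∧ a (ψ h') = a (ψ h) ∧
      0 < σ * det3 d u (Q.γ (ψ h') - Q.γ (φ h'))) ∧
    ∀ᶠ h' in 𝓝[>] h, a (φ h') = y ∧ a (ψ h') = a (ψ h) ∧
      σ * det3 d u (Q.γ (ψ h') - Q.γ (φ h')) < 0

-- deps: STEP INVH XLOCC
def S_TWGC : Prop := ∀ (ι : Type) (Q : Poly) (u d : E) (s : ι → ℂ) (a : ℝ → ι → ℂ) (w : Wd),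
  d ≠ 0 → ⟪d, u⟫ = 0 → (∀ t, s t ≠ 0) → Col Q d s a → Win Q u d w → ∃ σ0 σ1 : ℤ,
    (σ0 = 1 ∨ σ0 = -1) ∧
    Relation.ReflTransGen (Mvc s w.ε w.ε') (a w.θ0, a w.η0, σ0) (a w.θ1, a w.η1, σ1)

-- deps:
def S_TWAC : Prop := ∀ (ι : Type) (s : ι → ℂ) (ε ε' : ℤ) (x y : (ι → ℂ) × (ι → ℂ) × ℤ),
  (∀ t, s t ≠ 0) → (ε = 1 ∨ ε = -1) → (ε' = 1 ∨ ε' = -1) → (x.2.2 = 1 ∨ x.2.2 = -1) →
  Relation.ReflTransGen (Mvc s ε ε') x y → ∃ P0 P1 : Polynomial ℤ, Few P0 P1 ∧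
    ∀ t, Polynomial.aeval (s t) P0 * (y.1 t - x.1 t) = Polynomial.aeval (s t) P1 * (x.1 t - x.2.1 t)

-- deps: TWGC TWAC W5
def S_SYS1C : Prop := ∀ (ι : Type) (Q : Poly) (u d : E) (s : ι → ℂ) (a : ℝ → ι → ℂ) (N : ℕ)
  (i0 : ℤ), GDg Q d → ⟪d, u⟫ = 0 → (∀ t, s t ≠ 0) → Col Q d s a → Dgm Q u d N → Mx Q u i0 →
  ∃ Z : Set ℝ, (∀ τ : ℝ, τ + Q.n ∈ Z ↔ τ ∈ Z) ∧ (Z ∩ Ico 0 (Q.n : ℝ)).Finite ∧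
    (Z ∩ Ico 0 (Q.n : ℝ)).ncard ≤ 3 * N + 1 ∧ Z.Nonempty ∧
    ∀ θ ∈ Z, ∀ θ' ∈ Z, θ < θ' → (∀ τ ∈ Z, ¬ (θ < τ ∧ τ < θ')) → Linkc s a Z θ θ' ∧
      ∀ i : ℤ, Mx Q u i → θ ≤ i + 1 → (i : ℝ) + 1 < θ' → a (i + 1) = a θ

-- deps:
def S_FEWC : Prop := ∀ L : ℕ, ∃ C : ℕ, ∀ (P0 P1 : ℕ → Polynomial ℤ) (a b : ℕ → ℕ),
  (∀ j < L, Few (P0 j) (P1 j) ∧ a j ≤ L ∧ b j ≤ L) → ∃ D : Polynomial ℤ, D.support.card ≤ C ∧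
    Nrm D ∧ ∀ (t : ℂ) (z : ℕ → ℂ), (∃ j ≤ L, z j ≠ z 0) →
      (∀ j < L, Polynomial.aeval t (P0 j) * (z (j + 1) - z j) =
        Polynomial.aeval t (P1 j) * (z (a j) - z (b j))) → Polynomial.aeval t D = 0

-- deps: SYS1C ENUM FEWC
def S_SYSC : Prop := ∀ N : ℕ, ∃ C : ℕ, ∀ (ι : Type) (Q : Poly) (u d : E) (s : ι → ℂ)
  (a : ℝ → ι → ℂ) (i0 : ℤ), GDg Q d → ⟪d, u⟫ = 0 → (∀ t, s t ≠ 0) → Col Q d s a → Dgm Q u d N →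
  Mx Q u i0 → ∃ D : Polynomial ℤ, D.support.card ≤ C ∧ Nrm D ∧
    ∀ t, (∃ i j : ℤ, Mx Q u i ∧ Mx Q u j ∧ a (i + 1) t ≠ a (j + 1) t) →
      Polynomial.aeval (s t) D = 0

end Pool.Agent.P.MP_28369d_gt.SB
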