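import Pool.Agent.P.MP_28369d_gt.ST.TTREF
import Pool.Agent.P.MP_28369d_gt.ST.BaseFp

/-!
Statements of the steps of the bound for sums with a torus knot of any type.
-/

namespace Pool.Agent.P.MP_28369d_gt.SB

open Set Filter Topology Monoid.CoprodI
open scoped RealInnerProductSpace

/-- The group with two generators and the relation of the torus knot. -/
abbrev TG (p q : ℤ) : Type := PresentedGroup (TREFx.rel p q)

/-- The subgroup contains no conjugate of a power of a generator. -/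
def Avd {p q : ℤ} (H : Subgroup (TG p q)) : Prop :=
  ∀ (i : Bool) (n : ℤ) (g : TG p q), g⁻¹ * (PresentedGroup.of i : TG p q) ^ n * g ∈ H → n = 0

/-! ## Part 1: free products -/

-- deps:
def S_MUL1 : Prop := ∀ (M : Bool → Type) [∀ i, Group (M i)] (g h : FP M),
  ∃ r : M false × M false, ∀ (D : Type) [Group D] (lam : ∀ i, M i → D), Od lam →
    lam false (r.1 * r.2) = lam false r.1 * lam false r.2 →
    sig lam (g * h) = sig lam g * sig lam h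

-- deps:
def S_USED : Prop := ∀ (M : Bool → Type) [∀ i, Group (M i)] (s : Finset (FP M))
  (H : Subgroup (FP M)), H = Subgroup.closure (s : Set (FP M)) → (usd H).Finite ∧
    ∀ x ∈ usd H, x ≠ ((1 : FP M) : FP M ⧸ H) → ∀ i : Bool, ∃ m : M i, m ≠ 1 ∧
      (of m : FP M) • x ∈ usd H

-- deps:
def S_COC : Prop := ∀ (M : Bool → Type) [∀ i, Group (M i)] (X D : Type) [MulAction (FP M) X]
  [Group D] (c : ∀ i, M i → X → D),
  (∀ (i : Bool) (m m' : M i) (x : X), c i (m * m') x = c i m ((of m' : FP M) • x) * c i m' x) →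
  ∃ F : FP M → X → D, (∀ g g' x, F (g * g') x = F g (g' • x) * F g' x) ∧
    ∀ (i : Bool) (m : M i) (x : X), F (of m) x = c i m x

-- deps: COC
def S_EUL : Prop := ∀ (M : Bool → Type) [∀ i, Group (M i)] (s : Finset (FP M))
  (H : Subgroup (FP M)) (U : Set (FP M ⧸ H)), H = Subgroup.closure (s : Set (FP M)) → U.Finite →
  U.ncard ≤ (orb (M := M) true '' U).ncard + (orb (M := M) false '' U).ncard + s.card

-- deps:
def S_CNT2 : Prop := ∀ (X Y Z : Type) (U : Set X) (α : X → Y) (β : X → Z) (x0 : X) (k : ℕ),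
  U.Finite → (∀ x ∈ U, x ≠ x0 → (∃ y ∈ U, y ≠ x ∧ α y = α x) ∧ ∃ y ∈ U, y ≠ x ∧ β y = β x) →
  U.ncard ≤ (α '' U).ncard + (β '' U).ncard + k →
  {x | x ∈ U ∧ ∃ y ∈ U, ∃ z ∈ U, y ≠ x ∧ z ≠ x ∧ y ≠ z ∧ β y = β x ∧ β z = β x}.ncard ≤ 6 * k + 6

-- deps: USED EUL CNT2 COC
def S_SUBG : Prop := ∀ k : ℕ, ∃ C : ℕ, ∀ (M : Bool → Type) [∀ i, Group (M i)] (s : Finset (FP M)),
  s.card ≤ k → Fr (Subgroup.closure (s : Set (FP M))) → ∃ R : Finset (M false × M false),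
    R.card ≤ C ∧ ∀ (D : Type) [Group D] (lam : ∀ i, M i → D), Od lam →
      (∀ r ∈ R, lam false (r.1 * r.2) = lam false r.1 * lam false r.2) →
      ∀ g ∈ Subgroup.closure (s : Set (FP M)), ∀ h ∈ Subgroup.closure (s : Set (FP M)),
        sig lam (g * h) = sig lam g * sig lam h

-- deps:
def S_DIR : Prop := ∀ r : ℕ, ∃ C : ℕ, ∀ q : ℕ, C < q → ∀ R : Finset (ZMod q × ZMod q),
  R.card ≤ r → ∃ (l : ZMod q → ℤ) (e : ZMod q), e ≠ 0 ∧ (∀ x, l (-x) = -l x) ∧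
    (∀ x, ((2 * l x : ℤ) : ZMod q) = e * x) ∧ ∀ z ∈ R, l (z.1 + z.2) = l z.1 + l z.2

-- deps: COC
def S_LK1 : Prop := ∀ (M : Bool → Type) [∀ i, Group (M i)] (H : Subgroup (FP M)) (m : M true)
  (g : FP M), (∀ x y : M true, x * y = y * x) → ∀ hm : g⁻¹ * of m * g ∈ H,
  ∃ φ : H →* M true, φ ⟨_, hm⟩ = m

-- deps:
def S_LK2 : Prop := ∀ (A : Type) [Group A] (H : Subgroup (FP (Two A (Multiplicative ℤ)))),
  (∀ (a : A) (g : FP (Two A (Multiplicative ℤ))), g⁻¹ * il a * g ∈ H → a = 1) → IsFreeGroup H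

-- deps: LK1 LK2
def S_LK : Prop := ∀ (A : Type) [CommGroup A] (S : Set (FP (Two A (Multiplicative ℤ))))
  (s0 : FP (Two A (Multiplicative ℤ))), s0 ∈ S →
  (∀ s ∈ S, ∃ g ∈ Subgroup.closure S, s = g * s0 * g⁻¹) →
  lf2 (1 : A →* Multiplicative ℤ) (MonoidHom.id _) s0 ≠ 1 →
  ∀ g ∈ Subgroup.closure S, ∀ h ∈ Subgroup.closure S, g * h = h * g

-- deps:
-- imports: Pool.Agent.P.MP_28369d_gt.SB.TMAXG
def S_CNJ : Prop := ∀ (G : Type) [Group G] (μ : ℝ → G), (∀ τ, ∀ᶠ τ' in 𝓝[>] τ, μ τ' = μ τ) →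
  (∀ τ, ∃ a, (∀ᶠ τ' in 𝓝[<] τ, μ τ' = a) ∧
    (μ τ = a ∨ ∃ o ∈ range μ, μ τ = o * a * o⁻¹ ∨ μ τ = o⁻¹ * a * o)) →
  ∀ τ, ∃ g ∈ Subgroup.closure (range μ), μ τ = g * μ 0 * g⁻¹

-- deps: SUBG MUL1 CNJ
def S_TL1 : Prop := ∀ N k : ℕ, ∃ C : ℕ, ∀ (M : Bool → Type) [∀ i, Group (M i)] (μ : ℝ → FP M),
  Tmp μ N k → (∀ s : Finset (FP M), s.card ≤ k → ↑s ⊆ range μ →
    Fr (Subgroup.closure (s : Set (FP M)))) → ∃ R : Finset (M false × M false), R.card ≤ C ∧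
    ∀ (D : Type) [Group D] (lam : ∀ i, M i → D), Od lam →
      (∀ r ∈ R, lam false (r.1 * r.2) = lam false r.1 * lam false r.2) →
      ∀ τ, ∃ g ∈ Subgroup.closure (range fun t => sig lam (μ t)),
        sig lam (μ τ) = g * sig lam (μ 0) * g⁻¹

-- deps: TL1 DIR LK
def S_TL : Prop := ∀ N k : ℕ, ∃ C : ℕ, ∀ (A : Type) [CommGroup A] [Nontrivial A] (q : ℕ)
  (μ : ℝ → FP (Two A (Multiplicative (ZMod q)))), C < q → Tmp μ N k →
  (∀ s : Finset (FP (Two A (Multiplicative (ZMod q)))), s.card ≤ k → ↑s ⊆ range μ →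
    Fr (Subgroup.closure (s : Set (FP (Two A (Multiplicative (ZMod q))))))) →
  Subgroup.closure (range μ) ≠ ⊤

/-! ## Part 2: windows with many arcs -/

-- deps: SQX W5
-- imports: Pool.Agent.P.MP_28369d_gt.ST.TSQW
def S_SQWK : Prop := ∀ (P Q : Poly) (u d : E) (ρ : ℤ → ℤ) (lev : ℤ → ℝ) (F : Set Bd) (N k : ℕ)
  (p : Bd → E) (v0 : ℤ → E) (κ η : ℝ), Al P u ρ lev → Fam P u ρ lev F N k → Cov P F →
  Lim P F p v0 → d ≠ 0 → ⟪d, u⟫ = 0 → Far F p v0 d η → Near P u d ρ v0 η Q → 0 < κ →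
  Tub Q u F p κ η → ∀ B ∈ F, B.lo + 1 < B.hi → ∃ s0 s1 : ℤ × ℤ → ℝ,
    (∀ a ∈ B.A, s0 a < B.lo + 1 ∧ (B.hi : ℝ) - 1 < s1 a) ∧
    WinK Q u d (B.A.image fun a => (a.2, a.1 + a.2 * s0 a, a.1 + a.2 * s1 a))

-- deps: SQWK XC W5
-- imports: Pool.Agent.P.MP_28369d_gt.ST.TSQW
def S_SQDK : Prop := ∀ N k : ℕ, ∃ N' : ℕ, ∀ (P Q : Poly) (u d : E) (ρ : ℤ → ℤ) (lev : ℤ → ℝ)
  (F : Set Bd) (p : Bd → E) (v0 : ℤ → E) (κ η : ℝ), Al P u ρ lev → Fam P u ρ lev F N k →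
  Cov P F → Lim P F p v0 → d ≠ 0 → ⟪d, u⟫ = 0 → Far F p v0 d η → Near P u d ρ v0 η Q → 0 < κ →
  Tub Q u F p κ η → DgK Q u d N' k

-- deps:
-- imports: Pool.Agent.P.MP_28369d_gt.SB.TMAXG
def S_WINK : Prop := ∀ (G : Type) [Group G] (Q : Poly) (u d : E) (μ : ℝ → G)
  (I : Finset (ℤ × ℝ × ℝ)) (H : Subgroup G), SW Q d μ → ⟪d, u⟫ = 0 → WinK Q u d I →
  (∀ w ∈ I, μ w.2.1 ∈ H) → ∀ w ∈ I, ∀ θ ∈ uIcc w.2.1 w.2.2, μ θ ∈ H

-- deps: WINK W5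
def S_TMP : Prop := ∀ (G : Type) [Group G] (Q : Poly) (u d : E) (μ : ℝ → G) (N k : ℕ),
  SW Q d μ → GDg Q d → ⟪d, u⟫ = 0 → DgK Q u d N k → Tmp μ N k

/-! ## Part 3: the torus knot group -/

-- deps: HYP
-- imports: Pool.Agent.P.MP_28369d_gt.ST.TBRN
def S_RZ1 : Prop := ∀ (p : ℕ) (q u v : ℤ), 0 < p → p ≤ q.natAbs → q * u - p * v = 1 →
  ∀ s : Finset (TG p q), s.card < p → (∀ x ∈ s, ∃ g : TG p q, x ∈ Subgroup.zpowers
    (g * (PresentedGroup.of true ^ u * PresentedGroup.of false ^ (-v)) * g⁻¹)) →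
    Avd (Subgroup.closure (s : Set (TG p q)))

-- deps:
def S_RZ2 : Prop := ∀ (p : ℕ) (q : ℤ), ∃ π : TG p q →* ZZ p q.natAbs, Function.Surjective π ∧
  ∀ H : Subgroup (TG p q), Avd H → Fr (H.map π)

-- deps: VK SUM LINK RZ1 RZ2 CONN
-- imports: Pool.Agent.P.MP_28369d_gt.ST.TAFFS
def S_TLS : Prop := ∀ (p : ℕ) (q : ℤ) (J K : Set E), 0 < p → p ≤ q.natAbs → IsCoprime (p : ℤ) q →
  ConnSum (torus p q) J K → TorL K p q.natAbs

-- deps: CORE SQ1 SQ2 SQ3 SQDK SW TMP TL MAXG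
-- imports: Pool.Agent.P.MP_28369d_gt.ST.TBRN Pool.Agent.P.MP_28369d_gt.ST.BaseTopC
def S_TKK : Prop := ∀ p m : ℕ, ∃ C : ℕ, ∀ (q : ℕ) (K : Set E) (P : Poly), 2 ≤ p → C < q →
  Iso K P.carrier → TorL K p q → (∀ Q : Poly, Iso K Q.carrier → LB Q m) → m + p ≤ sb K

end Pool.Agent.P.MP_28369d_gt.SB
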