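import Pool.Agent.P.MP_28369d_gt.ST.Iface3

/-! Step BARG. -/

namespace Pool.Agent.P.MP_28369d_gt.SB

open Set Filter Topology
open scoped RealInnerProductSpace ComplexConjugate

namespace BARGx

noncomputable def sp : Bool → E → ℂ × ℂ
  | true, a => (((‖a‖ + a 2 : ℝ) : ℂ), (a 0 : ℂ) + (a 1 : ℂ) * Complex.I)
  | false, a => ((a 0 : ℂ) - (a 1 : ℂ) * Complex.I, ((‖a‖ - a 2 : ℝ) : ℂ))

noncomputable def wt : Bool → E → ℝ
  | true, a => ‖a‖ + a 2
  | false, a => ‖a‖ - a 2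

noncomputable def ip (ψ χ : ℂ × ℂ) : ℂ := conj ψ.1 * χ.1 + conj ψ.2 * χ.2

theorem cont_sp (ε : Bool) : Continuous (sp ε) := by
  cases ε
  · change Continuous fun a : E => ((a 0 : ℂ) - (a 1 : ℂ) * Complex.I, ((‖a‖ - a 2 : ℝ) : ℂ))
    fun_prop
  · change Continuous fun a : E => (((‖a‖ + a 2 : ℝ) : ℂ), (a 0 : ℂ) + (a 1 : ℂ) * Complex.I)
    fun_prop

theorem cont_wt (ε : Bool) : Continuous (wt ε) := by
  cases ε
  · change Continuous fun a : E => ‖a‖ - a 2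
    fun_prop
  · change Continuous fun a : E => ‖a‖ + a 2
    fun_prop

theorem cont_ip {X : Type} [TopologicalSpace X] {f g : X → ℂ × ℂ} (hf : Continuous f)
    (hg : Continuous g) : Continuous fun x => ip (f x) (g x) := by
  unfold ip
  exact ((Complex.continuous_conj.comp hf.fst).mul hg.fst).add
    ((Complex.continuous_conj.comp hf.snd).mul hg.snd)

theorem nsq (ε ε' : Bool) (a b : E) : Complex.normSq (ip (sp ε a) (sp ε' b)) =
    wt ε a * wt ε' b * (2 * (‖a‖ * ‖b‖ + ⟪a, b⟫)) := by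
  have hA := normsq3 a
  have hB := normsq3 b
  rw [inner3]
  cases ε <;> cases ε' <;> simp only [ip, sp, wt, Complex.normSq_apply] <;> simp
  · linear_combination (-(‖b‖ ^ 2 - b 2 ^ 2)) * hA - (a 0 ^ 2 + a 1 ^ 2) * hB
  · linear_combination (-(‖a‖ - a 2) ^ 2) * hB - (‖b‖ + b 2) ^ 2 * hA
  · linear_combination (-(‖a‖ + a 2) ^ 2) * hB - (‖b‖ - b 2) ^ 2 * hA
  · linear_combination (-(‖b‖ ^ 2 - b 2 ^ 2)) * hA - (a 0 ^ 2 + a 1 ^ 2) * hB

theorem gauge (ε ε' : Bool) (a : E) : ∃ l : ℂ, l ≠ 0 ∧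
    (0 < wt ε a → 0 < wt ε' a → sp ε' a = l • sp ε a) := by
  have hA : ((‖a‖ : ℝ) : ℂ) ^ 2 = (a 0 : ℂ) ^ 2 + (a 1 : ℂ) ^ 2 + (a 2 : ℂ) ^ 2 := by
    exact_mod_cast normsq3 a
  have hI := Complex.I_sq
  by_cases h : 0 < wt ε a ∧ 0 < wt ε' a
  · have h1 : ((wt ε a : ℝ) : ℂ) ≠ 0 := by exact_mod_cast h.1.ne'
    have h2 : ((wt ε' a : ℝ) : ℂ) ≠ 0 := by exact_mod_cast h.2.ne'
    have : ∃ l : ℂ, sp ε' a = l • sp ε a := by
      cases ε <;> cases ε'
      · exact ⟨1, by simp⟩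
      · refine ⟨((a 0 : ℂ) + (a 1 : ℂ) * Complex.I) / (wt false a : ℝ), Prod.ext ?_ ?_⟩ <;>
          simp only [sp, Prod.smul_mk, smul_eq_mul] <;> simp only [wt] at h1 ⊢ <;> field_simp
        push_cast
        linear_combination hA + (a 1 : ℂ) ^ 2 * hI
      · refine ⟨((a 0 : ℂ) - (a 1 : ℂ) * Complex.I) / (wt true a : ℝ), Prod.ext ?_ ?_⟩ <;>
          simp only [sp, Prod.smul_mk, smul_eq_mul] <;> simp only [wt] at h1 ⊢ <;> field_simp
        push_cast
        linear_combination hA + (a 1 : ℂ) ^ 2 * hI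
      · exact ⟨1, by simp⟩
    obtain ⟨l, hl⟩ := this
    refine ⟨l, ?_, fun _ _ => hl⟩
    rintro rfl
    rw [zero_smul] at hl
    cases ε'
    · exact h2 (congrArg Prod.snd hl)
    · exact h2 (congrArg Prod.fst hl)
  · exact ⟨1, one_ne_zero, fun h1 h2 => absurd ⟨h1, h2⟩ h⟩

theorem ip_smul (l m : ℂ) (ψ χ : ℂ × ℂ) : ip (l • ψ) (m • χ) = conj l * m * ip ψ χ := by
  simp only [ip, Prod.smul_fst, Prod.smul_snd, smul_eq_mul, map_mul]; ring

noncomputable def sg (a : E) : Bool := decide (0 ≤ a 2)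

theorem wt_sg {a : E} (h : a ≠ 0) : 0 < wt (sg a) a := by
  have := norm_pos_iff.2 h
  by_cases c : 0 ≤ a 2
  · rw [sg, decide_eq_true c, wt]; linarith
  · rw [sg, decide_eq_false c, wt]; linarith

theorem seg_iff (v w x : E) : x ∈ segment ℝ v w ↔ ‖v - x‖ * ‖w - x‖ + ⟪v - x, w - x⟫ = 0 := by
  rw [mem_segment_iff_sameRay, sameRay_iff_norm_smul_eq, eq_comm, ← inner_eq_norm_mul_iff_real,
    ← neg_sub v x, inner_neg_left, norm_neg]
  constructor <;> intro h <;> linarith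

theorem car_iff (P : Poly) (x : E) :
    x ∈ P.carrier ↔ ∃ i < P.n, x ∈ segment ℝ (P.v (i : ℕ)) (P.v ((i + 1 : ℕ) : ℤ)) := by
  rw [Poly.carrier, mem_iUnion]
  refine ⟨fun ⟨i, hi⟩ => ?_, fun ⟨i, _, hi⟩ => ⟨i, by simpa using hi⟩⟩
  have hn : (0 : ℤ) < P.n := by exact_mod_cast P.pos
  obtain ⟨j, hj⟩ := Int.eq_ofNat_of_zero_le (Int.emod_nonneg i hn.ne')
  have h1 := Int.emod_lt_of_pos i hn
  have h2 : i = j + i / P.n * P.n := by rw [← hj]; exact (Int.emod_add_ediv_mul i _).symm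
  refine ⟨j, by omega, ?_⟩
  rw [h2, add_right_comm, per_zmul P.per, per_zmul P.per] at hi
  simpa using hi

variable (P : Poly) (L : E ≃ₗᵢ[ℝ] E)

noncomputable def av (i : ℕ) (x : E) : E := L (P.v i - x)

noncomputable def fc (ε : ℕ → Bool) (i : ℕ) (x : E) : ℂ :=
  ip (sp (ε i) (av P L i x)) (sp (ε (i + 1)) (av P L (i + 1) x))

noncomputable def WW (ε : ℕ → Bool) (x : E) : ℂ := ∏ i ∈ Finset.range P.n, fc P L ε i x

def Ok (ε : ℕ → Bool) (x : E) : Prop := ∀ i ≤ P.n, 0 < wt (ε i) (av P L i x)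

noncomputable def e0 (x : E) (i : ℕ) : Bool := sg (av P L i x)

noncomputable def ZZ (x : E) : ℂ := ((‖WW P L (e0 P L x) x‖⁻¹ : ℝ) : ℂ) * WW P L (e0 P L x) x

theorem cont_av (i : ℕ) : Continuous (av P L i) := by unfold av; fun_prop

theorem cont_fc (ε : ℕ → Bool) (i : ℕ) : Continuous (fc P L ε i) :=
  cont_ip ((cont_sp _).comp (cont_av P L _)) ((cont_sp _).comp (cont_av P L _))

theorem av_n (x : E) : av P L P.n x = av P L 0 x := by
  have := P.per 0
  rw [zero_add] at this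
  rw [av, av, this, Nat.cast_zero]

theorem e0_n (x : E) : e0 P L x P.n = e0 P L x 0 := by rw [e0, e0, av_n]

variable {P L}

theorem fc_eq {ε : ℕ → Bool} {x : E} (h : Ok P L ε x) {i : ℕ} (hi : i < P.n) :
    fc P L ε i x = 0 ↔ x ∈ segment ℝ (P.v (i : ℕ)) (P.v ((i + 1 : ℕ) : ℤ)) := by
  rw [← Complex.normSq_eq_zero, fc, nsq, seg_iff, mul_eq_zero, mul_eq_zero, mul_eq_zero]
  simp only [(h i hi.le).ne', (h (i + 1) hi).ne', false_or, two_ne_zero]
  rw [av, av, L.norm_map, L.norm_map, L.inner_map_map]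

theorem WW_ne {ε : ℕ → Bool} {x : E} (h : Ok P L ε x) : WW P L ε x ≠ 0 ↔ x ∈ P.carrierᶜ := by
  rw [mem_compl_iff, car_iff, WW, Finset.prod_ne_zero_iff]
  push Not
  exact forall_congr' fun i => ⟨fun c hi => mt (fc_eq h hi).2 (c (Finset.mem_range.2 hi)),
    fun c hi => mt (fc_eq h (Finset.mem_range.1 hi)).1 (c (Finset.mem_range.1 hi))⟩

theorem ok_e0 {x : E} (h : ∀ i : ℤ, P.v i ≠ x) : Ok P L (e0 P L x) x := fun i _ =>
  wt_sg fun c => h i (sub_eq_zero.1 (L.injective (c.trans L.map_zero.symm)))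

theorem ok_ev {ε : ℕ → Bool} {x : E} (h : Ok P L ε x) : ∀ᶠ y in 𝓝 x, Ok P L ε y :=
  (eventually_all_finite (finite_le_nat P.n)).2 fun i hi =>
    continuousAt_const.eventually_lt ((cont_wt _).comp (cont_av P L i)).continuousAt (h i hi)

theorem vtx {x : E} (h : x ∈ P.carrierᶜ) (i : ℤ) : P.v i ≠ x := fun c =>
  h (c ▸ P.γ_int i ▸ P.γ_mem i)

theorem WW_gauge {ε ε' : ℕ → Bool} {x : E} (h : Ok P L ε x) (h' : Ok P L ε' x)
    (hn : ε P.n = ε 0) (hn' : ε' P.n = ε' 0) :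
    ∃ r : ℝ, 0 < r ∧ WW P L ε' x = r * WW P L ε x := by
  choose l l0 hl using gauge
  set m : ℕ → ℂ := fun i => l (ε i) (ε' i) (av P L i x) with hm
  have m0 : ∀ i, m i ≠ 0 := fun i => l0 _ _ _
  have e1 : ∏ i ∈ Finset.range P.n, m (i + 1) = ∏ i ∈ Finset.range P.n, m i := by
    have a := Finset.prod_range_succ' m P.n
    have b : m P.n = m 0 := by simp only [hm, hn, hn', av_n]
    rw [Finset.prod_range_succ, b] at a
    exact (mul_right_cancel₀ (m0 0) a).symm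
  refine ⟨Complex.normSq (∏ i ∈ Finset.range P.n, m i),
    Complex.normSq_pos.2 (Finset.prod_ne_zero_iff.2 fun i _ => m0 i), ?_⟩
  rw [Complex.normSq_eq_conj_mul_self, map_prod, ← e1, WW, WW, ← Finset.prod_mul_distrib, ← Finset.prod_mul_distrib]
  refine Finset.prod_congr rfl fun i hi => ?_
  have hi' := Finset.mem_range.1 hi
  rw [fc, hl _ _ _ (h i hi'.le) (h' i hi'.le), hl _ _ _ (h (i + 1) hi') (h' (i + 1) hi'), ip_smul]
  rfl

theorem ZZ_eq {ε : ℕ → Bool} {x : E} (h : Ok P L ε x) (hn : ε P.n = ε 0) (hx : x ∈ P.carrierᶜ) :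
    ZZ P L x = ((‖WW P L ε x‖⁻¹ : ℝ) : ℂ) * WW P L ε x := by
  obtain ⟨r, h1, h2⟩ := WW_gauge h (ok_e0 (vtx hx)) hn (e0_n P L x)
  have h3 : ((‖WW P L ε x‖ : ℝ) : ℂ) ≠ 0 := by simpa using (WW_ne h).2 hx
  have h4 : (r : ℂ) ≠ 0 := by exact_mod_cast h1.ne'
  rw [ZZ, h2, norm_mul, Complex.norm_real, Real.norm_of_nonneg h1.le]
  push_cast
  field_simp

theorem ZZ_good {x : E} (hx : x ∈ P.carrierᶜ) : ContinuousAt (ZZ P L) x ∧ ZZ P L x ≠ 0 := by
  have h := ok_e0 (L := L) (vtx hx)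
  have h0 := (WW_ne h).2 hx
  have cW : Continuous (WW P L (e0 P L x)) := continuous_finsetProd _ fun i _ => cont_fc P L _ i
  refine ⟨ContinuousAt.congr (f := fun y => ((‖WW P L (e0 P L x) y‖⁻¹ : ℝ) : ℂ) *
    WW P L (e0 P L x) y) ?_ ?_, mul_ne_zero (by simpa using h0) h0⟩
  · exact (Complex.continuous_ofReal.continuousAt.comp
      (cW.norm.continuousAt.inv₀ (norm_ne_zero_iff.2 h0))).mul cW.continuousAt
  · filter_upwards [ok_ev h, P.isClosed.isOpen_compl.mem_nhds hx] with y a b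
    exact (ZZ_eq a (e0_n P L x) b).symm

theorem lf_pos {θ r : ℝ} {a : ℂ} (h : Lf θ a) (hr : 0 ≤ r) : Lf θ (r * a) := by
  simpa using (lf_polar hr 0).mul h

theorem mid_ne (P : Poly) {j : ℤ} {t : ℝ} (h0 : 0 ≤ t) (h1 : t ≤ 1)
    (h : P.v 0 + (1 / 2 : ℝ) • P.e 0 = P.v j + t • (P.v (j + 1) - P.v j)) :
    (P.n : ℤ) ∣ j ∧ t ≠ 0 := by
  rcases h1.eq_or_lt with rfl | h1
  · have := (P.simple 0 (j + 1) (1 / 2) 0 (by norm_num) (by norm_num)
      (by rw [zero_smul, add_zero]; simpa [Poly.e] using h)).2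
    norm_num at this
  · have := P.simple 0 j (1 / 2) t (by norm_num) ⟨h0, h1⟩ h
    exact ⟨by simpa using this.1, by rw [← this.2]; norm_num⟩

end BARGx

open BARGx in
theorem p_BARG :
    S_BARG := by
  intro P
  have hl : 0 < ‖P.e 0‖ := norm_pos_iff.2 (P.e_ne 0)
  obtain ⟨L, hL⟩ : ∃ L : E ≃ₗᵢ[ℝ] E, L (P.e 0) = pt 0 0 ‖P.e 0‖ := by
    refine ⟨_, Submodule.reflection_sub ?_⟩
    refine (sq_eq_sq₀ hl.le (norm_nonneg _)).1 ?_
    rw [normsq3 (pt _ _ _)]
    simp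
  refine ⟨ZZ P L, fun x hx => ZZ_good hx, ?_⟩
  set x0 : E := P.v 0 + (1 / 2 : ℝ) • P.e 0 with hx0
  have ok0 : Ok P L (e0 P L x0) x0 :=
    ok_e0 fun i c => (mid_ne P le_rfl zero_le_one (j := i) (by rw [zero_smul, add_zero, c])).2 rfl
  obtain ⟨k, hk⟩ : ∃ k, P.n = k + 1 := ⟨P.n - 1, by have := P.pos; omega⟩
  set H : E → ℂ := fun y => ∏ i ∈ Finset.range k, fc P L (e0 P L x0) (i + 1) y with hH
  have cH : Continuous H := continuous_finsetProd _ fun i _ => cont_fc P L _ _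
  have H0 : H x0 ≠ 0 := by
    refine Finset.prod_ne_zero_iff.2 fun i hi c => ?_
    have hi' := Finset.mem_range.1 hi
    rw [fc_eq ok0 (by omega), segment_eq_image'] at c
    obtain ⟨t, ht, c⟩ := c
    have := (mid_ne P ht.1 ht.2 (j := ((i + 1 : ℕ) : ℤ)) (by rw [← hx0, ← c]; push_cast; rfl)).1
    have := Int.le_of_dvd (by omega) this
    omega
  have ev : ∀ᶠ y in 𝓝 x0, Ok P L (e0 P L x0) y ∧ H y / H x0 ∈ Complex.slitPlane :=
    (ok_ev ok0).and ((cH.div_const _).continuousAt.eventually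
      (Complex.isOpen_slitPlane.mem_nhds (show H x0 / H x0 ∈ _ by simp [div_self H0])))
  obtain ⟨r, r0, hr⟩ := Metric.eventually_nhds_iff.1 ev
  set c : ℝ → E := fun t => x0 + (r / 2) • L.symm (pt (Real.cos (2 * Real.pi * t))
    (Real.sin (2 * Real.pi * t)) 0) with hc
  have cp : Continuous fun t : ℝ => pt (Real.cos (2 * Real.pi * t)) (Real.sin (2 * Real.pi * t)) 0 :=
    Continuous.pt (by fun_prop) (by fun_prop) continuous_const
  have cc : Continuous c := by have := L.symm.continuous.comp cp; rw [hc]; fun_prop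
  have hd : ∀ t, dist (c t) x0 < r := fun t => by
    have : ‖pt (Real.cos (2 * Real.pi * t)) (Real.sin (2 * Real.pi * t)) 0‖ = 1 := by
      refine (sq_eq_sq₀ (norm_nonneg _) zero_le_one).1 ?_
      rw [normsq3]
      simp
    rw [hc, dist_eq_norm, add_sub_cancel_left, norm_smul, L.symm.norm_map, this,
      Real.norm_of_nonneg (by linarith)]
    linarith
  have a0 : ∀ y : E, av P L 0 (x0 + (r / 2) • L.symm y) =
      pt 0 0 (-(‖P.e 0‖ / 2)) - (r / 2) • y := fun y => by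
    have : P.v ((0 : ℕ) : ℤ) - (x0 + (r / 2) • L.symm y) =
        (-(1 / 2) : ℝ) • P.e 0 - (r / 2) • L.symm y := by rw [hx0, Nat.cast_zero]; module
    rw [av, this, map_sub, map_smul, map_smul, hL, L.apply_symm_apply]
    congr 1
    refine E_ext ?_ ?_ ?_ <;> simp
    ring
  have a1 : ∀ y : E, av P L 1 (x0 + (r / 2) • L.symm y) =
      pt 0 0 (‖P.e 0‖ / 2) - (r / 2) • y := fun y => by
    have : P.v ((1 : ℕ) : ℤ) - (x0 + (r / 2) • L.symm y) =
        (1 / 2 : ℝ) • P.e 0 - (r / 2) • L.symm y := by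
      rw [hx0, Poly.e, Nat.cast_one, zero_add]; module
    rw [av, this, map_sub, map_smul, map_smul, hL, L.apply_symm_apply]
    congr 1
    refine E_ext ?_ ?_ ?_ <;> simp
    ring
  have s0 : e0 P L x0 0 = false := by
    have := a0 0
    rw [map_zero, smul_zero, add_zero, sub_zero] at this
    rw [e0, this, sg]
    exact decide_eq_false (by rw [pt_2]; linarith)
  have s1 : e0 P L x0 1 = true := by
    have := a1 0
    rw [map_zero, smul_zero, add_zero, sub_zero] at this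
    rw [e0, this, sg]
    exact decide_eq_true (by rw [pt_2]; linarith)
  have f0 : ∀ t, ∃ ρ : ℝ, 0 < ρ ∧ fc P L (e0 P L x0) 0 (c t) =
      ρ * Complex.exp ((2 * Real.pi * t + Real.pi : ℝ) * Complex.I) := fun t => by
    refine ⟨r / 2 * (‖av P L 0 (c t)‖ + ‖av P L 1 (c t)‖ + ‖P.e 0‖), by positivity, ?_⟩
    have b0 := a0 (pt (Real.cos (2 * Real.pi * t)) (Real.sin (2 * Real.pi * t)) 0)
    have b1 := a1 (pt (Real.cos (2 * Real.pi * t)) (Real.sin (2 * Real.pi * t)) 0)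
    rw [fc, zero_add, s0, s1, Complex.exp_mul_I, ← Complex.ofReal_cos, ← Complex.ofReal_sin,
      Real.cos_add_pi, Real.sin_add_pi]
    simp only [ip, sp]
    generalize ‖av P L 0 (c t)‖ = A
    generalize ‖av P L 1 (c t)‖ = B
    simp only [hc, b0, b1]
    generalize Real.cos (2 * Real.pi * t) = C
    generalize Real.sin (2 * Real.pi * t) = S
    simp only [map_sub, map_mul, Complex.conj_ofReal, Complex.conj_I]
    apply Complex.ext <;> simp <;> ring
  have hW : ∀ t, WW P L (e0 P L x0) (c t) = H (c t) * fc P L (e0 P L x0) 0 (c t) := fun t => by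
    rw [WW, hk, Finset.prod_range_succ']
  have c1 : c 1 = c 0 := by simp [hc]
  refine ⟨c, fun t => ((H x0).arg + (H (c t) / H x0).arg) + (2 * Real.pi * t + Real.pi), cc,
    Continuous.add (continuous_iff_continuousAt.2 fun t =>
      contAt_lift (Z := fun t => H (c t)) (cH.comp cc).continuousAt (hr (hd t)).2 _) (by fun_prop),
    c1, by simp only [c1]; ring, fun t => ?_⟩
  obtain ⟨ρ, ρ0, hρ⟩ := f0 t
  have hx : c t ∈ P.carrierᶜ := by
    rw [← WW_ne (hr (hd t)).1, hW, hρ]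
    refine mul_ne_zero (fun h => ?_) (mul_ne_zero (by exact_mod_cast ρ0.ne') (Complex.exp_ne_zero _))
    have := (hr (hd t)).2
    rw [h, zero_div] at this
    exact Complex.zero_notMem_slitPlane this
  refine ⟨hx, ?_⟩
  rw [ZZ_eq (hr (hd t)).1 (e0_n P L x0) hx]
  refine lf_pos ?_ (by positivity)
  rw [hW, hρ]
  exact (lf_div (lf_arg _) H0 _).mul (lf_polar ρ0.le _)

end Pool.Agent.P.MP_28369d_gt.SB
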