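import Pool.Agent.P.MP_28369d_gt.ST.Iface2

/-! Step FEWC. -/

namespace Pool.Agent.P.MP_28369d_gt.SB

open Set Filter Topology
open scoped RealInnerProductSpace

namespace FEWCx

open Polynomial

theorem add (p q : ℤ[X]) : (p + q).support.card ≤ p.support.card + q.support.card := by
  classical
  exact (Finset.card_le_card support_add).trans (Finset.card_union_le _ _)

theorem sum {ι : Type} (s : Finset ι) (f : ι → ℤ[X]) (c : ℕ)
    (h : ∀ i ∈ s, (f i).support.card ≤ c) : (∑ i ∈ s, f i).support.card ≤ s.card * c := by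
  classical
  induction s using Finset.induction_on with
  | empty => simp
  | insert i s hi ih =>
    rw [Finset.sum_insert hi, Finset.card_insert_of_notMem hi]
    have h1 := add (f i) (∑ i ∈ s, f i)
    have h2 := ih fun j hj => h j (Finset.mem_insert_of_mem hj)
    have h3 := h i (Finset.mem_insert_self _ _)
    nlinarith

theorem prod {ι : Type} (s : Finset ι) (f : ι → ℤ[X]) (c : ℕ)
    (h : ∀ i ∈ s, (f i).support.card ≤ c) : (∏ i ∈ s, f i).support.card ≤ c ^ s.card := by
  classical
  induction s using Finset.induction_on with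
  | empty =>
    simp only [Finset.prod_empty, Finset.card_empty, pow_zero]
    rw [← C_1, ← monomial_zero_left]
    exact (Finset.card_le_card (support_monomial_subset 0 (1 : ℤ))).trans (by simp)
  | insert i s hi ih =>
    rw [Finset.prod_insert hi, Finset.card_insert_of_notMem hi, pow_succ']
    exact card_support_mul_le.trans (Nat.mul_le_mul (h i (Finset.mem_insert_self _ _))
      (ih fun j hj => h j (Finset.mem_insert_of_mem hj)))

theorem smul (r : ℤ) (p : ℤ[X]) : (C r * p).support.card ≤ p.support.card := by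
  rw [C_mul']
  exact Finset.card_le_card (support_smul r p)

theorem det {L : ℕ} (M : Matrix (Fin L) (Fin L) ℤ[X]) (c : ℕ)
    (h : ∀ i j, (M i j).support.card ≤ c) : M.det.support.card ≤ L.factorial * c ^ L := by
  rw [Matrix.det_apply']
  have := sum (Finset.univ : Finset (Equiv.Perm (Fin L)))
    (fun σ => ((Equiv.Perm.sign σ : ℤ) : ℤ[X]) * ∏ i, M (σ i) i) (c ^ L) (by
      intro σ _
      have h1 := prod (Finset.univ : Finset (Fin L)) (fun i => M (σ i) i) c (fun i _ => h _ _)
      have h2 := smul (Equiv.Perm.sign σ : ℤ) (∏ i, M (σ i) i)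
      rw [eq_intCast] at h2
      simpa using h2.trans h1)
  simpa [Fintype.card_perm] using this

theorem tel (L : ℕ) (z : ℕ → ℂ) (a : ℕ) (ha : a ≤ L) :
    ∑ k : Fin L, (if (k : ℕ) < a then (1 : ℂ) else 0) * (z (k + 1) - z k) = z a - z 0 := by
  rw [Fin.sum_univ_eq_sum_range (fun k => (if k < a then (1 : ℂ) else 0) * (z (k + 1) - z k)) L,
    ← Finset.sum_range_sub z a]
  symm
  apply Finset.sum_subset_zero_on_sdiff (Finset.range_mono ha)
  · intro k hk
    have := (Finset.mem_sdiff.1 hk).2
    simp at this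
    simp [not_lt.2 this]
  · intro k hk
    simp [Finset.mem_range.1 hk]

end FEWCx

open Polynomial in
theorem p_FEWC :
    S_FEWC := by
  classical
  intro L
  refine ⟨L.factorial * (2 * 2) ^ L, ?_⟩
  intro P0 P1 a b hP
  let g : Fin L → Fin L → ℤ := fun j k =>
    (if (k : ℕ) < b j then (1 : ℤ) else 0) - (if (k : ℕ) < a j then (1 : ℤ) else 0)
  let M : Matrix (Fin L) (Fin L) ℤ[X] := fun j k =>
    C (if j = k then (1 : ℤ) else 0) * P0 j + C (g j k) * P1 j
  refine ⟨M.det, FEWCx.det M (2 * 2) ?_, ?_, ?_⟩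
  · intro j k
    have h1 := FEWCx.add (C (if j = k then (1 : ℤ) else 0) * P0 j) (C (g j k) * P1 j)
    have h2 := FEWCx.smul (if j = k then (1 : ℤ) else 0) (P0 j)
    have h3 := FEWCx.smul (g j k) (P1 j)
    obtain ⟨⟨h4, h5, -⟩, -⟩ := hP j j.2
    show (C (if j = k then (1 : ℤ) else 0) * P0 j + C (g j k) * P1 j).support.card ≤ 2 * 2
    omega
  · choose κ Q0 Q1 q1 q2 q3 q4 using fun j : Fin L => (hP j j.2).1.2.2
    let M0 : Matrix (Fin L) (Fin L) ℤ[X] := fun j k =>
      C (if j = k then (1 : ℤ) else 0) * Q0 j + C (g j k) * Q1 j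
    have h0 : M = Matrix.of fun j k => (1 + X) ^ κ j * M0 j k := by
      ext1 j k
      simp only [M, M0, Matrix.of_apply, q1, q2]
      ring
    have h1 : M0.det.eval 1 = (M0.map (evalRingHom 1)).det := (evalRingHom 1).map_det M0
    have h2 : M0.map (evalRingHom 1) = 1 := by
      ext j k
      rw [Matrix.map_apply]
      by_cases hjk : j = k
      · subst hjk
        simp [M0, q3, q4]
      · simp [M0, q4, hjk]
    refine ⟨∑ j, κ j, M0.det, ?_, by rw [h1, h2, Matrix.det_one]⟩
    rw [h0, Matrix.det_mul_column, Finset.prod_pow_eq_pow_sum]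
  · rintro t z ⟨j0, hj0, hz⟩ hrel
    have hev : aeval t M.det = (M.map (aeval t)).det := (aeval t : ℤ[X] →ₐ[ℤ] ℂ).map_det M
    rw [hev, ← Matrix.exists_mulVec_eq_zero_iff]
    refine ⟨fun k : Fin L => z (k + 1) - z k, ?_, ?_⟩
    · intro h0
      apply hz
      have h1 := FEWCx.tel L z j0 hj0
      have h2 : ∀ k : Fin L, z (k + 1) - z k = 0 := fun k => congrFun h0 k
      simp only [h2, mul_zero, Finset.sum_const_zero] at h1
      exact sub_eq_zero.1 h1.symm
    · ext j
      obtain ⟨-, ha, hb⟩ := hP j j.2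
      have h1 := FEWCx.tel L z _ ha
      have h2 := FEWCx.tel L z _ hb
      have h3 := hrel j j.2
      have h4 : ∀ k : Fin L, M.map (aeval t) j k * (z (k + 1) - z k) =
          (if j = k then aeval t (P0 j) * (z (k + 1) - z k) else 0) +
          aeval t (P1 j) * ((if (k : ℕ) < b j then (1 : ℂ) else 0) * (z (k + 1) - z k)) -
          aeval t (P1 j) * ((if (k : ℕ) < a j then (1 : ℂ) else 0) * (z (k + 1) - z k)) := by
        intro k
        rw [Matrix.map_apply]
        simp only [M, g, map_add, map_mul, aeval_C]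
        split_ifs <;> simp <;> ring
      simp only [Matrix.mulVec, dotProduct, h4, Finset.sum_sub_distrib, Finset.sum_add_distrib,
        ← Finset.mul_sum, h1, h2, Finset.sum_ite_eq, Finset.mem_univ, if_true, Pi.zero_apply]
      linear_combination h3

end Pool.Agent.P.MP_28369d_gt.SB
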