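import Pool.Agent.P.MP_28369d_gt.ST.Iface4

/-! Step LK. -/

namespace Pool.Agent.P.MP_28369d_gt.SB

open Set Filter Topology Monoid.CoprodI
open scoped RealInnerProductSpace

namespace LKx

theorem key {G B : Type} [Group G] [Group B] (hB : ∀ x y : B, x * y = y * x) {S : Set G} {s0 : G}
    (h0 : s0 ∈ S) (hS : ∀ s ∈ S, ∃ g ∈ Subgroup.closure S, s = g * s0 * g⁻¹)
    (deg : G →* Multiplicative ℤ) (hd : deg s0 ≠ 1) (φ : Subgroup.closure S →* B)
    (h : Subgroup.closure S) (e : deg h = 1) : φ h = 1 := by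
  have h1 : ∀ x (hx : x ∈ Subgroup.closure S), ∃ n : ℤ,
      φ ⟨x, hx⟩ = φ ⟨s0, Subgroup.subset_closure h0⟩ ^ n ∧ deg x = deg s0 ^ n := by
    intro x hx
    induction hx using Subgroup.closure_induction with
    | mem s hs =>
      obtain ⟨g, hg, e⟩ := hS s hs
      refine ⟨1, ?_, ?_⟩
      · have : (⟨s, Subgroup.subset_closure hs⟩ : Subgroup.closure S) =
            ⟨g, hg⟩ * ⟨s0, Subgroup.subset_closure h0⟩ * ⟨g, hg⟩⁻¹ := Subtype.ext e
        rw [this, map_mul, map_mul, map_inv, hB (φ ⟨g, hg⟩), mul_inv_cancel_right, zpow_one]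
      · rw [e, map_mul, map_mul, map_inv, mul_inv_cancel_comm, zpow_one]
    | one => exact ⟨0, by rw [zpow_zero]; exact map_one φ, by rw [zpow_zero, map_one]⟩
    | mul x y hx hy a b =>
      obtain ⟨m, a1, a2⟩ := a
      obtain ⟨n, b1, b2⟩ := b
      exact ⟨m + n, by rw [zpow_add, ← a1, ← b1, ← map_mul]; rfl,
        by rw [zpow_add, ← a2, ← b2, map_mul]⟩
    | inv x hx a =>
      obtain ⟨m, a1, a2⟩ := a
      exact ⟨-m, by rw [zpow_neg, ← a1, ← map_inv]; rfl, by rw [zpow_neg, ← a2, map_inv]⟩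
  obtain ⟨n, a1, a2⟩ := h1 h h.2
  have h2 := congrArg Multiplicative.toAdd (e.symm.trans a2)
  rw [toAdd_one, toAdd_zpow, zsmul_eq_mul, eq_comm, mul_eq_zero] at h2
  obtain rfl : n = 0 := h2.resolve_right fun h3 => hd (toAdd_eq_zero.1 h3)
  rw [zpow_zero] at a1
  exact a1

theorem comm {H : Type} [Group H] [IsFreeGroup H] (deg : H →* Multiplicative ℤ)
    (hk : ∀ (φ : H →* Multiplicative ℤ) h, deg h = 1 → φ h = 1) (g h : H) : g * h = h * g := by
  classical
  have h1 : ∀ u v : IsFreeGroup.Generators H, u = v := fun u v => by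
    by_contra ne
    have c := fun w : IsFreeGroup.Generators H =>
      hk (IsFreeGroup.lift (Pi.mulSingle w (Multiplicative.ofAdd (1 : ℤ))))
    have a := c v (IsFreeGroup.of u ^ (deg (IsFreeGroup.of v)).toAdd *
      (IsFreeGroup.of v ^ (deg (IsFreeGroup.of u)).toAdd)⁻¹) (by
        apply Multiplicative.toAdd.injective
        simp only [map_mul, map_inv, map_zpow, toAdd_mul, toAdd_inv, toAdd_zpow, toAdd_one,
          smul_eq_mul]
        ring)
    simp only [map_mul, map_inv, map_zpow, IsFreeGroup.lift_of, Pi.mulSingle_eq_of_ne ne,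
      Pi.mulSingle_eq_same, one_zpow, one_mul, inv_eq_one] at a
    have b := congrArg Multiplicative.toAdd a
    rw [toAdd_zpow, toAdd_ofAdd, toAdd_one, smul_eq_mul, mul_one, toAdd_eq_zero] at b
    have d := c u _ b
    rw [IsFreeGroup.lift_of, Pi.mulSingle_eq_same] at d
    exact one_ne_zero (ofAdd_eq_one.1 d)
  have h2 : ∀ x : H, (∀ u, x * IsFreeGroup.of u = IsFreeGroup.of u * x) → ∀ y, x * y = y * x :=
    fun x hx y => by
      have : (MulAut.conj x).toMonoidHom = MonoidHom.id H := IsFreeGroup.ext_hom fun u => by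
        change x * IsFreeGroup.of u * x⁻¹ = IsFreeGroup.of u
        rw [hx, mul_inv_cancel_right]
      have e : x * y * x⁻¹ = y := DFunLike.congr_fun this y
      exact mul_inv_eq_iff_eq_mul.1 e
  exact h2 g (fun u => (h2 _ (fun v => by rw [h1 u v]) g).symm) h

end LKx

theorem p_LK (hLK1 : S_LK1) (hLK2 : S_LK2) :
    S_LK := by
  intro A _ S s0 h0 hS hd g hg h hh
  have := hLK2 A (Subgroup.closure S) fun a g hm => by
    obtain ⟨φ, hφ⟩ := hLK1 (Two A (Multiplicative ℤ)) (Subgroup.closure S) a g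
      (fun x y => mul_comm (G := A) x y) hm
    refine hφ.symm.trans (LKx.key (fun x y => mul_comm (G := A) x y) h0 hS _ hd φ _ ?_)
    change lf2 (1 : A →* Multiplicative ℤ) (MonoidHom.id _) (g⁻¹ * il a * g) = 1
    rw [map_mul, map_mul, lf2_il, MonoidHom.one_apply, mul_one, map_inv, inv_mul_cancel]
  exact congrArg Subtype.val (LKx.comm
    ((lf2 (1 : A →* Multiplicative ℤ) (MonoidHom.id _)).comp (Subgroup.closure S).subtype)
    (fun φ x e => LKx.key mul_comm h0 hS _ hd φ x e) ⟨g, hg⟩ ⟨h, hh⟩)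

end Pool.Agent.P.MP_28369d_gt.SB
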