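import Pool.Agent.P.MP_28369d_gt.ST.Iface

/-! Step PLAN. -/

namespace Pool.Agent.P.MP_28369d_gt.SB

open Set Filter Topology
open scoped RealInnerProductSpace

theorem p_PLAN (hCOORD : S_COORD) (hLEV : S_LEV) (hSTR : S_STR) :
    S_PLAN := by
  intro n
  obtain ⟨L, hL⟩ := hLEV (2 * n)
  obtain ⟨N, hN⟩ := hSTR n L
  refine ⟨N, fun P u h2 h1 hup => ?_⟩
  obtain ⟨ux, uz, a1, a2⟩ := hCOORD.2 P u h2 h1
  have hv0 : ∀ i, vel P u uz i = 0 := fun i => by simp [vel, df_co', h1]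
  obtain ⟨Λ, c1, c2, c3⟩ := hL P ux u uz (fun i => ⟪P.e i, uz⟫ * ⟪P.e (i + 1), uz⟫ < 0) a1 a2
    (fun i => by rw [show i + P.n + 1 = i + 1 + P.n by ring, P.e_per, P.e_per])
    (by
      rw [win_chg (f := fun i => ⟪P.e i, uz⟫) (P.inner_per uz) a2]
      exact Nat.mul_le_mul_left 2 (hup uz))
    (fun i hi => by simpa only [df_co'] using hi)
    (fun p q p' q' _ _ _ _ _ => ⟨0, fun J _ _ => ⟨0, 1, Or.inr one_ne_zero, Or.inr
      fun i j _ _ _ _ _ _ => by simp [lin, hv0]⟩⟩)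
  exact hN P uz Λ a2 (hup uz) c1 c2 c3

end Pool.Agent.P.MP_28369d_gt.SB
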