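import Pool.Agent.P.MP_28369d_gt.ST.Iface

/-! Step REC. -/

namespace Pool.Agent.P.MP_28369d_gt.SB

open Set Filter Topology
open scoped RealInnerProductSpace

namespace RECx

theorem inner (hTCUT : S_TCUT) (hPCUT : S_PCUT) (hELEM : S_ELEM) {P : Poly} {u : E} {ρ : ℤ → ℤ}
    {lev : ℤ → ℝ} (hP : Al P u ρ lev) {K N e : ℕ} (he : 1 ≤ e)
    (ih : ∀ B, Good P u ρ lev B → B.A.card ≤ K → Dec P u ρ lev B N e) (M : ℕ) :
    ∀ B, Good P u ρ lev B → B.A.card ≤ K + 1 → ¬ Chn P B M →
      Dec P u ρ lev B (M * (N + N + (K + 1))) e := by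
  have nf : ∀ B, Good P u ρ lev B → B.A.card ≤ K + 1 → ¬ FullC B.A (sx P) B.lo B.hi →
      Dec P u ρ lev B (N + N) e := by
    intro B hB hc hf
    obtain ⟨B1, B2, g1, g2, c1, c2, hj⟩ := hPCUT P u ρ lev B hP hB hf
    exact hj N N e (ih B1 g1 (by omega)) (ih B2 g2 (by omega))
  have hd : ∀ B, Good P u ρ lev B → B.A.card ≤ K + 1 →
      (∀ r, B.lo < r → r < B.hi → ¬ FullC B.A (sx P) B.lo r) →
      Dec P u ρ lev B (N + N + (K + 1)) e := by
    intro B hB hc hf
    have hlt := hB.lt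
    by_cases h1 : B.hi = B.lo + 1
    · exact (hELEM P u ρ lev B e hP hB h1 he).mono (by omega)
    · obtain ⟨t1, t2⟩ := hTCUT P u ρ lev B hP hB
      refine t2 (B.hi - 1) _ _ e (by omega) (by omega) ?_ ?_
      · exact nf _ (t1 _ _ le_rfl (by omega) (by omega)) hc (hf (B.hi - 1) (by omega) (by omega))
      · exact (hELEM P u ρ lev _ e hP (t1 _ _ (by omega) (by omega) le_rfl)
          (by simp [tcut]) he).mono hc
  induction M with
  | zero =>
    intro B hB _ hn
    exact absurd ⟨fun _ => B.lo, le_rfl, hB.lt.le, fun j hj => absurd hj (Nat.not_lt_zero j)⟩ hn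
  | succ M ihM =>
    intro B hB hc hn
    by_cases hf : ∀ r, B.lo < r → r < B.hi → ¬ FullC B.A (sx P) B.lo r
    · exact (hd B hB hc hf).mono (by rw [Nat.succ_mul]; omega)
    · have hex : ∃ r, B.lo < r ∧ r < B.hi ∧ FullC B.A (sx P) B.lo r := by
        by_contra c
        exact hf fun r a b d => c ⟨r, a, b, d⟩
      obtain ⟨r, ⟨r1, r2, r3⟩, r4⟩ := Int.exists_least_of_bdd
        (P := fun r => B.lo < r ∧ r < B.hi ∧ FullC B.A (sx P) B.lo r)
        ⟨B.lo, fun z hz => hz.1.le⟩ hex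
      obtain ⟨t1, t2⟩ := hTCUT P u ρ lev B hP hB
      have d1 := hd _ (t1 B.lo r le_rfl r1 r2.le) hc fun s s1 s2 s3 => by
        have s2' : s < r := s2
        have := r4 s ⟨s1, s2'.trans r2, s3⟩
        omega
      have d2 := ihM _ (t1 r B.hi r1.le r2 le_rfl) hc (by
        rintro ⟨f, f0, f1, f2⟩
        have f0' : r ≤ f 0 := f0
        refine hn ⟨fun j => Nat.casesOn j B.lo f, le_rfl, f1, fun j hj => ?_⟩
        cases j with
        | zero => exact ⟨r1.trans_le f0', r3.mono le_rfl f0'⟩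
        | succ j => exact f2 j (by omega))
      exact (t2 r _ _ e r1 r2 d1 d2).mono (by rw [Nat.succ_mul]; omega)

end RECx

theorem p_REC (hTCUT : S_TCUT) (hPCUT : S_PCUT) (hELEM : S_ELEM) :
    S_REC := by
  intro K M e he
  induction K with
  | zero => exact ⟨1, fun P u ρ lev _ _ B hB hc => Dec.self hB (by omega)⟩
  | succ K ih =>
    obtain ⟨N, hN⟩ := ih
    refine ⟨1 + M * (N + N + (K + 1)), fun P u ρ lev hP h B hB hc => ?_⟩
    by_cases h1 : B.A.card ≤ e
    · exact (Dec.self hB h1).mono (by omega)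
    · exact (RECx.inner hTCUT hPCUT hELEM hP he
        (hN P u ρ lev hP fun B' g a b => h B' g a (by omega)) M B hB hc
        (h B hB (by omega) hc)).mono (by omega)

end Pool.Agent.P.MP_28369d_gt.SB
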