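import Pool.Agent.P.MP_28369d_gt.ST.Iface
import Pool.Agent.P.MP_28369d_gt.SB.TW3
import Pool.Agent.P.MP_28369d_gt.SB.TWIRT

/-! Wirtinger data with the sign of each crossing. -/

namespace Pool.Agent.P.MP_28369d_gt.SB

open Set Filter Topology
open scoped RealInnerProductSpace

open W3x in
theorem sw_W3 (hT : S_TUBE) (hE : S_EXT) (h5 : S_W5) :
    ∀ (G : Type) [Group G] (ω : E → E → G) (Q : Poly) (d : E) (fp fm : E → G),
    WC ω Q d fp fm → ∀ τ0 τ1 r : ℝ, 0 < r → Q.γ τ1 = Q.γ τ0 + r • d →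
    (∀ i : ℤ, τ0 ≠ i) ∧ (∀ i : ℤ, τ1 ≠ i) ∧ ∃ o a a' : G, (∀ᶠ τ in 𝓝[≠] τ1, Mer Q d fp fm τ o) ∧
      (∀ᶠ τ in 𝓝[<] τ0, Mer Q d fp fm τ a) ∧ (∀ᶠ τ in 𝓝[>] τ0, Mer Q d fp fm τ a') ∧
      ((det3 d (Q.e ⌊τ0⌋) (Q.e ⌊τ1⌋) < 0 ∧ a' = o * a * o⁻¹) ∨
        (0 < det3 d (Q.e ⌊τ0⌋) (Q.e ⌊τ1⌋) ∧ a' = o⁻¹ * a * o)) := by
  intro G _ ω Q d fp fm h τ0 τ1 r hr hx
  obtain ⟨hd, hc, -, -⟩ := h5 Q d h.gd
  have e0 := Q.γ_eq ⌊τ0⌋ (Int.floor_le τ0) (Int.lt_floor_add_one τ0).le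
  have e1 := Q.γ_eq ⌊τ1⌋ (Int.floor_le τ1) (Int.lt_floor_add_one τ1).le
  have n0 : ∀ k : ℤ, τ0 ≠ k := by
    rintro k rfl
    rw [Q.γ_int, e1] at hx
    exact hr.ne' (vert h.gd hd hc hx.symm)
  have n1 : ∀ k : ℤ, τ1 ≠ k := by
    rintro k rfl
    rw [Q.γ_int, e0] at hx
    have := vert h.gd hd hc (k := k) (ρ := -r) (j := ⌊τ0⌋) (t := τ0 - ⌊τ0⌋)
      (by rw [hx]; module)
    linarith
  have hκ := kappa h.gd hd hc hr.ne' (e1.symm.trans (hx.trans (by rw [e0])))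
  have m0 := mem_Ioo_floor n0
  have m1 := mem_Ioo_floor n1
  set i := ⌊τ0⌋
  set j := ⌊τ1⌋
  have hne : Q.γ τ0 ≠ Q.γ τ1 := fun he => by
    rw [← he, left_eq_add] at hx
    exact (smul_ne_zero hr.ne' hd) hx
  have hn : 0 < ‖d‖ := norm_pos_iff.2 hd
  have hε : 0 < r / 2 * ‖d‖ / 2 := by positivity
  have hγ := Q.continuous_γ
  have tube : ∀ u : ℝ, ∀ᶠ p in 𝓝 (Q.γ τ0 + u • d), ∀ ρ : ℝ, p + ρ • d ∈ Q.carrier →
      (∃ a : ℝ, p + ρ • d = Q.γ τ0 + a • Q.e i ∧ ‖p + ρ • d - Q.γ τ0‖ < r / 2 * ‖d‖ / 2) ∨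
      (∃ a : ℝ, p + ρ • d = Q.γ τ1 + a • Q.e j ∧ ‖p + ρ • d - Q.γ τ1‖ < r / 2 * ‖d‖ / 2) := by
    intro u
    have := hT Q d (Q.γ τ0 + u • d)
      ((Ioo (i : ℝ) (i + 1) ∩ {τ | ‖Q.γ τ - Q.γ τ0‖ < r / 2 * ‖d‖ / 2}) ∪
        (Ioo (j : ℝ) (j + 1) ∩ {τ | ‖Q.γ τ - Q.γ τ1‖ < r / 2 * ‖d‖ / 2}))
      ((isOpen_Ioo.inter (isOpen_lt (by fun_prop) continuous_const)).union
        (isOpen_Ioo.inter (isOpen_lt (by fun_prop) continuous_const))) (by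
        intro τ ρ he
        rw [add_assoc, ← add_smul] at he
        rcases h.gd.2 τ0 τ1 τ _ _ hx he with h1 | h1 | h1
        · exact (hne h1).elim
        · obtain ⟨k, hk⟩ := Q.injMod _ _ h1.symm
          exact ⟨k, hk ▸ Or.inl ⟨m0, by simpa using hε⟩⟩
        · obtain ⟨k, hk⟩ := Q.injMod _ _ h1.symm
          exact ⟨k, hk ▸ Or.inr ⟨m1, by simpa using hε⟩⟩)
    filter_upwards [this] with p hp ρ hm
    obtain ⟨τ, hτ⟩ := Q.mem_carrier.1 hm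
    obtain ⟨k, h1 | h1⟩ := hp τ ρ hτ
    · rw [← hτ, ← Q.γ_per τ k]
      exact Or.inl ⟨_, γ_edge h1.1 m0, h1.2⟩
    · rw [← hτ, ← Q.γ_per τ k]
      exact Or.inr ⟨_, γ_edge h1.1 m1, h1.2⟩
  obtain ⟨B, A, C, hB, hcB, hK⟩ := key hE h hd hr hx (tube (r / 2))
  have M0 : ∀ᶠ τ in 𝓝 τ0, ∀ s : ℝ, 0 < s * ((τ0 - τ) * det3 d (Q.e i) (Q.e j)) →
      Mer Q d fp fm τ (A s * C 1 * (A s * C (-1))⁻¹) := by
    have t0 := tube 0
    rw [zero_smul, add_zero] at t0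
    have hW : IsOpen {p : E | p + (r / 2) • d ∈ B} := hB.preimage (by fun_prop)
    filter_upwards [isOpen_Ioo.mem_nhds m0, hγ.continuousAt.eventually t0,
      hγ.continuousAt.eventually (hW.mem_nhds hcB)] with τ a1 a2 a3 s hs
    refine mer (F := fun η => A s * C η) hd (hc i) a1 m0 (x := Q.γ τ1) (e := Q.e j) (ε := s)
      ?_ (fun ρ hm => ?_) hW a3 fun p hp η b1 b2 => hK p _ s η hp b1 b2
    · have : Q.γ τ - Q.γ τ1 = (τ - τ0) • Q.e i - r • d := by rw [hx, γ_edge a1 m0]; abel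
      rw [this, det3_sub, det3_smul, det3_smul, det3_self_left, det3_swap]
      linarith
    · rcases a2 ρ hm with ⟨a, b, -⟩ | ⟨a, b, -⟩
      · exact Or.inr ⟨a, b⟩
      · exact Or.inl ⟨a, b⟩
  have M1 : ∀ᶠ τ in 𝓝[≠] τ1, Mer Q d fp fm τ (A 1 * (A (-1))⁻¹) := by
    have t1 := tube r
    rw [← hx] at t1
    have hW : IsOpen {p : E | p + (-(r / 2)) • d ∈ B} := hB.preimage (by fun_prop)
    have hm : Q.γ τ1 ∈ {p : E | p + (-(r / 2)) • d ∈ B} := by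
      have : Q.γ τ1 + (-(r / 2)) • d = Q.γ τ0 + (r / 2) • d := by rw [hx]; module
      rw [mem_ofPred_eq, this]; exact hcB
    filter_upwards [mem_nhdsWithin_of_mem_nhds (isOpen_Ioo.mem_nhds m1),
      mem_nhdsWithin_of_mem_nhds (hγ.continuousAt.eventually t1),
      mem_nhdsWithin_of_mem_nhds (hγ.continuousAt.eventually (hW.mem_nhds hm)),
      self_mem_nhdsWithin] with τ a1 a2 a3 a4
    have hs : det3 d (Q.e i) (Q.γ τ - Q.γ τ0) ≠ 0 := by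
      have : Q.γ τ - Q.γ τ0 = (τ - τ1) • Q.e j + r • d := by rw [γ_edge a1 m1, hx]; abel
      rw [this, det3_add, det3_smul, det3_smul, det3_self_left, mul_zero, add_zero]
      exact mul_ne_zero (sub_ne_zero.2 a4) hκ
    have := mer (F := fun η => A η * C (det3 d (Q.e i) (Q.γ τ - Q.γ τ0))) hd (hc j) a1 m1
      (x := Q.γ τ0) (e := Q.e i) (mul_self_pos.2 hs) (fun ρ hm => ?_) hW a3
      fun p hp η b1 b2 => hK p _ η _ hp b2 b1
    · simpa only [mul_inv_rev, mul_assoc, mul_inv_cancel_left] using this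
    · rcases a2 ρ hm with ⟨a, b, -⟩ | ⟨a, b, -⟩
      · exact Or.inl ⟨a, b⟩
      · exact Or.inr ⟨a, b⟩
  refine ⟨n0, n1, A 1 * (A (-1))⁻¹, ?_⟩
  rcases lt_or_gt_of_ne hκ with hk | hk
  · refine ⟨A (-1) * C 1 * (A (-1) * C (-1))⁻¹, A 1 * C 1 * (A 1 * C (-1))⁻¹, M1, ?_, ?_,
      Or.inl ⟨hk, by group⟩⟩
    · filter_upwards [mem_nhdsWithin_of_mem_nhds M0, self_mem_nhdsWithin] with τ a b
      exact a _ (by nlinarith [mul_pos_of_neg_of_neg (sub_neg.2 (show τ < τ0 from b)) hk])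
    · filter_upwards [mem_nhdsWithin_of_mem_nhds M0, self_mem_nhdsWithin] with τ a b
      exact a _ (by nlinarith [mul_pos_of_neg_of_neg (sub_neg.2 (show τ0 < τ from b)) hk])
  · refine ⟨A 1 * C 1 * (A 1 * C (-1))⁻¹, A (-1) * C 1 * (A (-1) * C (-1))⁻¹, M1, ?_, ?_,
      Or.inr ⟨hk, by group⟩⟩
    · filter_upwards [mem_nhdsWithin_of_mem_nhds M0, self_mem_nhdsWithin] with τ a b
      exact a _ (by nlinarith [mul_pos (sub_pos.2 (show τ < τ0 from b)) hk])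
    · filter_upwards [mem_nhdsWithin_of_mem_nhds M0, self_mem_nhdsWithin] with τ a b
      exact a _ (by nlinarith [mul_pos (sub_pos.2 (show τ0 < τ from b)) hk])

open WIRTx in
theorem p_SW (hF : S_FRONT) (h1 : S_W1) (h2 : S_W2) (h4 : S_W4) (h5 : S_W5) (hT : S_TUBE)
    (hE : S_EXT) : S_SW := by
  have h3 := s_W3 hT hE h5
  have h3s := sw_W3 hT hE h5
  intro G _ ω Q d hgd hls
  obtain ⟨hd, hc, hfin, hcard⟩ := h5 Q d hgd
  obtain ⟨hop, fp, hfp⟩ := hF G ω Q.carrier d Q.isCompact hd hls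
  obtain ⟨hom, fm, hfm⟩ := hF G ω Q.carrier (-d) Q.isCompact (neg_ne_zero.2 hd) hls
  have W : WC ω Q d fp fm := ⟨hgd, hls, hop, hom, hfp, hfm⟩
  have hex : ∀ τ : ℝ, ∃ m, ∀ᶠ τ' in 𝓝[>] τ, Mer Q d fp fm τ' m := by
    intro τ
    rcases tri Q d τ with ⟨i, rfl⟩ | h | ⟨τ', r, hr, h⟩ | ⟨τ', r, hr, h⟩
    · obtain ⟨m, hm⟩ := h2 G ω Q d fp fm W i
      exact ⟨m, hm.filter_mono (nhdsGT_le_nhdsNE _)⟩
    · obtain ⟨m, hm, -⟩ := h1 G ω Q d fp fm W τ h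
      exact ⟨m, hm.filter_mono nhdsWithin_le_nhds⟩
    · obtain ⟨-, -, o, a, a', -, -, ha, -⟩ := h3 G ω Q d fp fm W τ τ' r hr h
      exact ⟨a', ha⟩
    · obtain ⟨-, -, o, a, a', ho, -⟩ := h3 G ω Q d fp fm W τ' τ r hr h
      exact ⟨o, ho.filter_mono (nhdsGT_le_nhdsNE _)⟩
  choose μ hμ using hex
  have hR : ∀ τ m, (∀ᶠ τ' in 𝓝[>] τ, Mer Q d fp fm τ' m) → μ τ = m := fun τ m h => by
    obtain ⟨τ', a, b⟩ := ((hμ τ).and h).exists
    exact mer_uniq hc a b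
  have hM : ∀ τ m, Mer Q d fp fm τ m → μ τ = m := fun τ m h => by
    obtain ⟨m', hm, -⟩ := h1 G ω Q d fp fm W τ h.1
    rw [hR τ m' (hm.filter_mono nhdsWithin_le_nhds), mer_uniq hc h hm.self_of_nhds]
  have hN : ∀ τ m, (∀ᶠ τ' in 𝓝[≠] τ, Mer Q d fp fm τ' m) →
      (∀ᶠ τ' in 𝓝[<] τ, μ τ' = m) ∧ μ τ = m := fun τ m h =>
    ⟨(h.filter_mono (nhdsLT_le_nhdsNE _)).mono fun τ' a => hM τ' m a,
      hR τ m (h.filter_mono (nhdsGT_le_nhdsNE _))⟩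
  have hW : Wirt Q d ω μ (Xs Q d) := by
    refine ⟨hfin, hcard, fun τ k => ?_, fun τ => (hμ τ).mono fun τ' a => hM τ' _ a,
      fun τ => ?_, fun τ hi hX => ?_, h4 G ω Q d fp fm W _ fun τ m h => ?_⟩
    · refine (hR τ _ ?_).symm
      have ht : Tendsto (fun t : ℝ => t + k * Q.n) (𝓝[>] τ) (𝓝[>] (τ + k * Q.n)) := by
        refine tendsto_nhdsWithin_iff.2 ⟨?_, ?_⟩
        · exact ((continuous_add_const _).tendsto τ).mono_left nhdsWithin_le_nhds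
        · filter_upwards [self_mem_nhdsWithin] with t ht
          exact add_lt_add_left (mem_Ioi.1 ht) _
      exact (ht.eventually (hμ _)).mono fun t a => mer_shift k a
    · rcases tri Q d τ with ⟨i, rfl⟩ | h | ⟨τ', r, hr, h⟩ | ⟨τ', r, hr, h⟩
      · obtain ⟨m, hm⟩ := h2 G ω Q d fp fm W i
        exact ⟨m, (hN _ m hm).1, Or.inl (hN _ m hm).2⟩
      · obtain ⟨m, hm, -⟩ := h1 G ω Q d fp fm W τ h
        have := hN τ m (hm.filter_mono nhdsWithin_le_nhds)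
        exact ⟨m, this.1, Or.inl this.2⟩
      · obtain ⟨hi, hi', o, a, a', ho, ha, ha', hconj⟩ := h3 G ω Q d fp fm W τ τ' r hr h
        have e1 := (hN τ' o ho).2
        refine ⟨a, ha.mono fun t b => hM t a b, Or.inr ⟨mem_Xs hr.ne' h, hi, τ', r, h, hi', ?_, ?_⟩⟩
        · filter_upwards [eventually_nhdsWithin_iff.1 ho] with t ht
          by_cases e : t = τ'
          · rw [e]
          · rw [e1, hM t o (ht e)]
        · rw [e1, hR τ a' ha']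
          exact hconj
      · obtain ⟨-, -, o, a, a', ho, -⟩ := h3 G ω Q d fp fm W τ' τ r hr h
        exact ⟨o, (hN τ o ho).1, Or.inl (hN τ o ho).2⟩
    · have hreg : Reg Q d τ := by
        refine ⟨hi, fun τ' r h => ?_⟩
        by_cases hr : r = 0
        · rw [h, hr, zero_smul, add_zero]
        · obtain ⟨k, hk⟩ := mem_Xs hr h
          exact absurd hk (hX k)
      obtain ⟨m, hm, hm'⟩ := h1 G ω Q d fp fm W τ hreg
      rwa [hM τ m hm.self_of_nhds]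
    · rw [← hM τ m h]
      exact Subgroup.subset_closure (mem_range_self τ)
  refine ⟨μ, Xs Q d, hW, hW.per, hW.rc, fun τ => ?_⟩
  by_cases hov : ∃ τ1 r : ℝ, 0 < r ∧ Q.γ τ1 = Q.γ τ + r • d
  · obtain ⟨τ', r', hr', h'⟩ := hov
    obtain ⟨-, -, -, a, -, -, ha, -⟩ := h3s G ω Q d fp fm W τ τ' r' hr' h'
    refine ⟨a, ha.mono fun t b => hM t a b, fun hno => absurd h' (hno τ' r' hr'),
      fun τ1 r hr h => ?_⟩
    obtain ⟨hi, hi', o, b, b', ho, hb, hb', hconj⟩ := h3s G ω Q d fp fm W τ τ1 r hr h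
    obtain ⟨t, t1, t2⟩ := (ha.and hb).exists
    have e0 : a = b := mer_uniq hc t1 t2
    have e1 := (hN τ1 o ho).2
    refine ⟨hi, hi', ?_, ?_⟩
    · filter_upwards [eventually_nhdsWithin_iff.1 ho] with t ht
      by_cases e : t = τ1
      · rw [e]
      · rw [e1, hM t o (ht e)]
    · rw [e1, hR τ b' hb', e0]
      exact hconj
  · have key : ∃ a, (∀ᶠ τ' in 𝓝[<] τ, μ τ' = a) ∧ μ τ = a := by
      rcases tri Q d τ with ⟨i, rfl⟩ | h | h | ⟨τ', r, hr, h⟩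
      · obtain ⟨m, hm⟩ := h2 G ω Q d fp fm W i
        exact ⟨m, hN _ m hm⟩
      · obtain ⟨m, hm, -⟩ := h1 G ω Q d fp fm W τ h
        exact ⟨m, hN τ m (hm.filter_mono nhdsWithin_le_nhds)⟩
      · exact absurd h hov
      · obtain ⟨-, -, o, a, a', ho, -⟩ := h3 G ω Q d fp fm W τ' τ r hr h
        exact ⟨o, hN τ o ho⟩
    obtain ⟨a, a1, a2⟩ := key
    exact ⟨a, a1, fun _ => a2, fun τ1 r hr h => absurd ⟨τ1, r, hr, h⟩ hov⟩

end Pool.Agent.P.MP_28369d_gt.SB
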