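import Pool.Agent.P.MP_28369d_gt.ST.Iface4
import Pool.Agent.P.MP_28369d_gt.ST.Iface
import Pool.Agent.P.MP_28369d_gt.ST.TBRN
import Pool.Agent.P.MP_28369d_gt.ST.BaseTopC

/-! Step TKK. -/

namespace Pool.Agent.P.MP_28369d_gt.SB

open Set Filter Topology Monoid.CoprodI
open scoped RealInnerProductSpace

theorem p_TKK (hCORE : S_CORE) (hSQ1 : S_SQ1) (hSQ2 : S_SQ2) (hSQ3 : S_SQ3) (hSQDK : S_SQDK) (hSW : S_SW) (hTMP : S_TMP) (hTL : S_TL) (hMAXG : S_MAXG) :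
    S_TKK := by
  classical
  intro p m
  by_cases hp : 2 ≤ p
  swap
  · exact ⟨0, fun _ _ _ h => absurd h hp⟩
  obtain ⟨N, hN⟩ := hCORE (m + (p - 1)) (p - 1) (by omega)
  obtain ⟨N', hN'⟩ := hSQDK N (p - 1)
  obtain ⟨C, hC⟩ := hTL N' (p - 1)
  refine ⟨C, fun q K P _ hq hP hT hL => ?_⟩
  by_contra hs
  obtain ⟨Q, a1, a2⟩ := exists_sb hP
  obtain ⟨R, u, ρ, lev, F, b1, b2, b3, b4⟩ := hN Q m le_rfl (hL Q a1)
    fun v => (a2 v).trans (by omega)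
  obtain ⟨c, v0, c1, c2⟩ := hSQ1 R u ρ lev F N _ b2 b3 b4
  obtain ⟨d, η, d1, d2, d3, d4⟩ := hSQ2 R u ρ lev F N _ c v0 b2 b3 c1
  obtain ⟨κ, η', e1, e2, e3, e4⟩ := hSQ3 R u ρ lev F N _ c v0 η b2 b3 c1 d3
  obtain ⟨S, f1⟩ := c2 d d1 η' e2
  have f2 : Near R u d ρ v0 η S := ⟨f1.n, f1.iso, f1.gd, fun i => (f1.cl i).trans_le e3, f1.sgn⟩
  have hD := hN' R S u d ρ lev F c v0 κ η b2 b3 b4 c1 d1 d2 d4 f2 e1 (e4 S f1.cl)
  obtain ⟨φ, hφ⟩ := ((a1.trans b1).trans f1.iso).homeo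
  obtain ⟨G, _, ω, m0, π, t1, t2, t3, t4, t5⟩ := hT
  have l1 := t1.push φ
  have l3 := t3.push φ
  rw [← compl_push, hφ] at l1
  rw [hφ] at l3
  obtain ⟨μ, X, hW, hS⟩ := hSW _ _ S d f1.gd l1
  have htop : Subgroup.closure (range μ) = ⊤ := t2 _ (Red.of_push φ (by
    rw [← compl_push, hφ]; exact hW.red))
  obtain ⟨t, g, g', hg⟩ := BRNx.one hW l3
  have hl : ∀ τ, ∃ k, μ τ ∈ Subgroup.zpowers (k * m0 * k⁻¹) := fun τ => by
    obtain ⟨k, hk⟩ := isConj_iff.1 ((hMAXG _ _ S d u μ X hW).1 t τ)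
    obtain ⟨j, hj⟩ := hg
    refine ⟨k * g⁻¹ * g', j, ?_⟩
    simp only [conj_zpow] at hj ⊢
    rw [← hk, show μ t = g⁻¹ * (g' * m0 ^ j * g'⁻¹) * g by rw [hj]; group]
    group
  have : Fact (1 < p) := ⟨hp⟩
  refine hC (Multiplicative (ZMod p)) q (fun τ => π (μ τ)) hq
    ((hTMP _ S u d μ N' _ hS f1.gd d2 hD).map π) (fun s h1 h2 => ?_) ?_
  · have h3 : ∀ x, x ∈ s → ∃ τ, π (μ τ) = x := fun x hx => h2 hx
    choose! f hf using h3
    have := t5 (s.image fun x => μ (f x)) (Finset.card_image_le.trans_lt (by omega)) (by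
      intro x hx
      obtain ⟨y, -, rfl⟩ := Finset.mem_image.1 hx
      exact hl _)
    rwa [MonoidHom.map_closure, Finset.coe_image, image_image,
      show (fun x => π (μ (f x))) '' (s : Set _) = s from
        (image_congr fun x hx => hf x hx).trans (image_id' _)] at this
  · rw [show (range fun τ => π (μ τ)) = π '' range μ from range_comp _ _,
      ← MonoidHom.map_closure, htop, Subgroup.map_top_of_surjective _ t4]

end Pool.Agent.P.MP_28369d_gt.SB
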