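import Pool.Agent.P.MP_28369d_gt.ST.Iface3
import Pool.Agent.P.MP_28369d_gt.SB.TT4P

/-! Step UB4. -/

namespace Pool.Agent.P.MP_28369d_gt.SB

open Set Filter Topology
open scoped RealInnerProductSpace

namespace UB4x

open Polynomial T4Px

/-- The three polynomials of the limit curve. -/
noncomputable def RP (p : ℕ) : Fin 3 → ℂ[X] :=
  ![C (p * Complex.I) * (X ^ (3 * p) - X ^ p), C (p : ℂ) * (X ^ (3 * p) + X ^ p),
    C (p * Complex.I) * (X ^ (4 * p) - 1)]

theorem not_dvd (p : ℕ) (hp : 0 < p) (m : ℕ) (u : E) (hu : ‖u‖ = 1) (z : Fin (4 * p + 1) → ℂ)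
    (hz : ∀ j, ‖z j‖ = 1) : ¬ MM z ∣ ∑ i, (u i : ℂ) • (X ^ m * RP p i) := by
  intro h
  have e : ∑ i, (u i : ℂ) • (X ^ m * RP p i) = X ^ m * ∑ i, (u i : ℂ) • RP p i := by
    simp only [Finset.mul_sum, mul_smul_comm]
  have hc : IsCoprime (MM z) (X ^ m) := by
    refine IsCoprime.pow_right (IsCoprime.prod_left fun j _ => ?_)
    have : z j - 0 ≠ 0 := by
      rw [sub_zero, ← norm_ne_zero_iff, hz j]
      exact one_ne_zero
    simpa using isCoprime_X_sub_C_of_isUnit_sub this.isUnit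
  rw [e] at h
  have h1 := hc.dvd_of_dvd_mul_left h
  have hco : ∀ k, (∑ i, (u i : ℂ) • RP p i).coeff k =
      u 0 * (p * Complex.I * ((if k = 3 * p then 1 else 0) - (if k = p then 1 else 0))) +
        u 1 * (p * ((if k = 3 * p then 1 else 0) + (if k = p then 1 else 0))) +
        u 2 * (p * Complex.I * ((if k = 4 * p then 1 else 0) - (if k = 0 then 1 else 0))) := by
    intro k
    simp only [RP, Fin.sum_univ_three, Matrix.cons_val_zero, Matrix.cons_val_one, Matrix.cons_val,
      coeff_add, coeff_smul, coeff_C_mul, coeff_sub, coeff_X_pow, coeff_one, smul_eq_mul]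
  have hp0 : (p : ℝ) ≠ 0 := by exact_mod_cast hp.ne'
  have h2 : ∑ i, (u i : ℂ) • RP p i ≠ 0 := by
    intro h0
    have c0 := hco 0
    have c6 := hco (3 * p)
    rw [h0, coeff_zero] at c0 c6
    rw [if_neg (by omega), if_neg (by omega), if_neg (by omega), if_pos rfl] at c0
    rw [if_pos rfl, if_neg (by omega), if_neg (by omega), if_neg (by omega)] at c6
    have i0 := congrArg Complex.im c0
    have r := congrArg Complex.re c6
    have i := congrArg Complex.im c6
    simp [hp.ne'] at i0 r i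
    have := normsq3 u
    rw [hu, i0, r, i] at this
    norm_num at this
  have h3 := natDegree_le_of_dvd h1 h2
  have h4 : (MM z).natDegree = 4 * p + 1 := by
    rw [MM, natDegree_finsetProd_X_sub_C_eq_card]
    simp
  have h5 : (∑ i, (u i : ℂ) • RP p i).natDegree ≤ 4 * p := by
    refine natDegree_le_iff_coeff_eq_zero.2 fun k hk => ?_
    rw [hco, if_neg (by omega), if_neg (by omega), if_neg (by omega), if_neg (by omega)]
    simp
  omega

end UB4x

open T4Px UB4x Polynomial in
theorem p_UB4 :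
    S_UB4 := by
  intro p q hp
  have c2 := tp_cosn p
  have s2 := tp_sinn p
  have s4 : TP (2 * p) fun t => Real.sin (2 * p * t) := by simpa using tp_sinn (2 * p)
  obtain ⟨B0, b0⟩ := (((tp_sin q).mul c2).comb ((tp_cos q).mul s2) (-q) (-p)).mono
    (D' := q.natAbs + 2 * p) (by omega)
  obtain ⟨B1, b1⟩ := (((tp_sin q).mul s2).comb ((tp_cos q).mul c2) (-q) p).mono
    (D' := q.natAbs + 2 * p) (by omega)
  obtain ⟨B2, b2⟩ := ((tp_cos q).mono (D' := q.natAbs + 2 * p) (by omega)).comb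
    (s4.mono (by omega)) q (2 * p)
  have key := pert (n := 4 * p + 1) (fun i => X ^ q.natAbs * RP p i) ![B0, B1, B2]
    (UB4x.not_dvd p hp _)
  have hev : ∀ᶠ s : ℝ in 𝓝[>] 0, s ∈ Ioc (0 : ℝ) 1 := Ioc_mem_nhdsGT one_pos
  obtain ⟨s, hs, hs'⟩ := (hev.and (key.filter_mono nhdsWithin_le_nhds)).exists
  refine ⟨s, hs.1, hs.2, fun u hu t0 S hS => ?_⟩
  by_contra hc
  obtain ⟨T, hT, hT9⟩ := Finset.exists_subset_card_eq (s := S) (n := 4 * p + 1) (by omega)
  let e := T.orderEmbOfFin hT9
  have he : ∀ j, e j ∈ S := fun j => hT (Finset.orderEmbOfFin_mem _ hT9 j)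
  have hinj : Function.Injective fun j => ez (e j) := fun i j h => e.injective (ez_inj h (by
    have a := hS _ (he i)
    have b := hS _ (he j)
    rw [abs_lt]
    constructor <;> linarith [a.1, a.2.1, b.1, b.2.1]))
  refine hs' u hu (fun j => ez (e j)) (fun j => Complex.norm_exp_ofReal_mul_I _) ?_
  refine Finset.prod_dvd_of_coprime (fun i _ j _ hij => pairwise_coprime_X_sub_C hinj hij)
    fun j _ => dvd_iff_isRoot.2 ?_
  have h0 := (hS _ (he j)).2.2
  beta_reduce
  generalize e j = t at h0 ⊢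
  rw [inner3] at h0
  simp only [torp', pt_0, pt_1, pt_2] at h0
  have h1 := congrArg (fun x : ℝ => (x : ℂ)) h0
  have a2 := ez_cos p t
  have a3 := ez_sin p t
  have a4 := ez_sin (2 * p) t
  have a5 := b0 t
  have a6 := b1 t
  have a7 := b2 t
  rw [Nat.cast_mul, Nat.cast_ofNat] at a4
  simp only [IsRoot, RP, Fin.sum_univ_three, Matrix.cons_val_zero, Matrix.cons_val_one,
    Matrix.cons_val, eval_add, eval_smul, eval_mul, eval_pow, eval_X, eval_C, eval_sub, eval_one,
    smul_eq_mul, ← a5, ← a6, ← a7]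
  generalize Real.sin (2 * p * t) = S2 at *
  generalize Real.sin (p * t) = S1 at *
  generalize Real.cos (p * t) = C1 at *
  generalize Real.sin (q * t) = SQ at *
  generalize Real.cos (q * t) = CQ at *
  push_cast at h1 ⊢
  linear_combination ez t ^ (q.natAbs + 2 * p) * h1
    + 2 * p * u 0 * ez t ^ (q.natAbs + p) * a3
    - 2 * p * u 1 * ez t ^ (q.natAbs + p) * a2 + 2 * p * u 2 * ez t ^ q.natAbs * a4

end Pool.Agent.P.MP_28369d_gt.SB
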